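import Pool.Agent.MP_77976d_ag.FODefs

/-! # AL : algebra lemma -/

open scoped TensorProduct
open IsLocalRing

namespace Pool.Agent.EllMod

noncomputable section

namespace ALx

open MvPolynomial

/-- polynomial ring in seven variables -/
abbrev P : Type := MvPolynomial (Fin 7) ℂ
/-- the ideal of variables -/
abbrev I : Ideal P := idealOfVars (Fin 7) ℂ
/-- truncated polynomial ring -/
abbrev A (n : ℕ) : Type := P ⧸ I ^ (n + 1)

/-- quotient map -/
def q (n : ℕ) : P →ₐ[ℂ] A n := Ideal.Quotient.mkₐ ℂ (I ^ (n + 1))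

theorem q_surj (n : ℕ) : Function.Surjective (q n) := Ideal.Quotient.mkₐ_surjective ℂ _

theorem q_eq_zero {n : ℕ} {p : P} : q n p = 0 ↔ p ∈ I ^ (n + 1) := by
  simp only [q, Ideal.Quotient.mkₐ_eq_mk]
  exact Ideal.Quotient.eq_zero_iff_mem

theorem q_eq {n : ℕ} {p p' : P} : q n p = q n p' ↔ p - p' ∈ I ^ (n + 1) := by
  rw [← sub_eq_zero, ← map_sub, q_eq_zero]

theorem X_mem (k : Fin 7) : (X k : P) ∈ I := Ideal.subset_span ⟨k, rfl⟩

theorem mem_I_iff (p : P) : p ∈ I ↔ coeff 0 p = 0 := by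
  have := mem_pow_idealOfVars_iff' 1 p
  rw [pow_one] at this
  rw [this]
  constructor
  · intro h; exact h 0 (by simp)
  · intro h x hx
    have : x = 0 := by
      have : Finsupp.degree x = 0 := by omega
      exact (Finsupp.degree_eq_zero_iff x).1 this
    rw [this]; exact h

instance (n : ℕ) : Nontrivial (A n) := by
  refine Ideal.Quotient.nontrivial_iff.2 ?_
  intro h
  have : (1 : P) ∈ I ^ (n + 1) := by rw [h]; trivial
  have h2 := (mem_pow_idealOfVars_iff' (n+1) (1:P)).1 this 0 (by simp)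
  simp at h2

instance (n : ℕ) : Module.Finite ℂ (A n) := by
  have : Function.Surjective ((q n).toLinearMap ∘ₗ (restrictTotalDegree (Fin 7) ℂ n).subtype) := by
    intro a
    obtain ⟨p, rfl⟩ := q_surj n a
    refine ⟨⟨∑ i ∈ Finset.range (n+1), homogeneousComponent i p, ?_⟩, ?_⟩
    · refine Submodule.sum_mem _ fun i hi => ?_
      rw [mem_restrictTotalDegree]
      refine le_trans (homogeneousComponent_isHomogeneous i p).totalDegree_le ?_
      have := Finset.mem_range.1 hi
      omega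
    · simp only [LinearMap.comp_apply, Submodule.subtype_apply, AlgHom.toLinearMap_apply]
      rw [q_eq, mem_pow_idealOfVars_iff']
      intro x hx
      rw [coeff_sub, coeff_sum]
      rw [Finset.sum_eq_single (Finsupp.degree x)]
      · rw [coeff_homogeneousComponent]; simp
      · intro b _ hb
        rw [coeff_homogeneousComponent, if_neg (Ne.symm hb)]
      · intro h; exact absurd (Finset.mem_range.2 hx) h
  exact Module.Finite.of_surjective _ this

/-- constant coefficient -/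
def cst (n : ℕ) : A n →ₐ[ℂ] ℂ :=
  Ideal.Quotient.liftₐ (I ^ (n + 1)) (aeval (fun _ => (0:ℂ))) (by
    intro a ha
    have h1 : a ∈ I := Ideal.pow_le_self (Nat.succ_ne_zero n) ha
    rw [mem_I_iff] at h1
    simpa [aeval_def, ← constantCoeff_eq] using h1)

theorem cst_q (n : ℕ) (p : P) : cst n (q n p) = coeff 0 p := by
  simp only [cst, q, Ideal.Quotient.mkₐ_eq_mk]
  erw [Ideal.Quotient.liftₐ_apply, Ideal.Quotient.lift_mk]
  simp [← constantCoeff_eq]

theorem nilp (n : ℕ) (a : A n) (h : cst n a = 0) : a ^ (n + 1) = 0 := by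
  obtain ⟨p, rfl⟩ := q_surj n a
  rw [cst_q] at h
  rw [← map_pow, q_eq_zero]
  exact Ideal.pow_mem_pow ((mem_I_iff p).2 h) _

theorem isUnit_iff (n : ℕ) (a : A n) : IsUnit a ↔ cst n a ≠ 0 := by
  constructor
  · intro h
    exact (h.map (cst n)).ne_zero
  · intro h
    have h1 : IsNilpotent (a - algebraMap ℂ _ (cst n a)) := by
      refine ⟨n + 1, nilp n _ ?_⟩
      rw [map_sub, AlgHom.commutes]; simp
    have h2 : IsUnit (algebraMap ℂ (A n) (cst n a)) := (isUnit_iff_ne_zero.2 h).map _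
    have := IsNilpotent.isUnit_add_left_of_commute h1 h2 (Commute.all _ _)
    simpa using this

instance (n : ℕ) : IsLocalRing (A n) := by
  refine IsLocalRing.of_isUnit_or_isUnit_one_sub_self fun a => ?_
  rcases eq_or_ne (cst n a) 0 with h | h
  · right; rw [isUnit_iff]; simp [h]
  · left; rw [isUnit_iff]; exact h

theorem mem_max (n : ℕ) (a : A n) : a ∈ maximalIdeal (A n) ↔ cst n a = 0 := by
  rw [mem_maximalIdeal, mem_nonunits_iff, isUnit_iff, not_not]

/-- the variables -/
def x (n : ℕ) (k : Fin 7) : A n := q n (X k)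

theorem x_mem (n : ℕ) (k : Fin 7) : x n k ∈ maximalIdeal (A n) := by
  rw [mem_max, x, cst_q]; simp

/-- reduction -/
def red (n : ℕ) : A (n + 1) →ₐ[ℂ] A n :=
  Ideal.Quotient.factorₐ ℂ (Ideal.pow_le_pow_right (Nat.le_succ (n+1)))

theorem red_q (n : ℕ) (p : P) : red n (q (n+1) p) = q n p := rfl

theorem red_x (n : ℕ) (k : Fin 7) : red n (x (n+1) k) = x n k := rfl

/-- to first order -/
def toD (n : ℕ) : A (n + 1) →ₐ[ℂ] D 7 :=
  Ideal.Quotient.liftₐ (I ^ (n + 2)) (aeval (fun k => (eps k : D 7))) (by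
    intro a ha
    have h1 : a ∈ I ^ 2 := Ideal.pow_le_pow_right (by omega) ha
    have h2 : I ^ 2 ≤ RingHom.ker (aeval (R := ℂ) (fun k => (eps k : D 7))) := by
      rw [pow_two, Ideal.mul_le]
      have h3 : ∀ r ∈ I, (aeval (R := ℂ) (fun k => (eps k : D 7)) r).fst = 0 := by
        intro r hr
        induction hr using Submodule.span_induction with
        | mem x hx => obtain ⟨k, rfl⟩ := hx; simp
        | zero => simp
        | add x y _ _ hx hy => rw [map_add, D.fst_add, hx, hy, add_zero]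
        | smul a x _ hx => rw [smul_eq_mul, map_mul, D.fst_mul, hx, mul_zero]
      intro r hr s hs
      rw [RingHom.mem_ker, map_mul]
      ext
      · simp [h3 r hr]
      · simp [h3 r hr, h3 s hs]
    exact h2 h1)

theorem toD_q (n : ℕ) (p : P) : toD n (q (n+1) p) = aeval (fun k => (eps k : D 7)) p := by
  simp only [toD, q, Ideal.Quotient.mkₐ_eq_mk]
  erw [Ideal.Quotient.liftₐ_apply, Ideal.Quotient.lift_mk]

theorem toD_x (n : ℕ) (k : Fin 7) : toD n (x (n+1) k) = eps k := by
  rw [x, toD_q, aeval_X]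

/-- the maximal ideal -/
def M (n : ℕ) : Ideal (A n) := Ideal.map (q n) I

theorem q_mem_M {n k : ℕ} {p : P} (h : p ∈ I ^ k) : q n p ∈ M n ^ k := by
  rw [M, ← Ideal.map_pow]
  exact Ideal.mem_map_of_mem _ h

theorem mem_M_pow {n k : ℕ} {a : A n} (h : a ∈ M n ^ k) : ∃ p ∈ I ^ k, q n p = a := by
  rw [M, ← Ideal.map_pow] at h
  rwa [Ideal.mem_map_iff_of_surjective _ (q_surj n)] at h

theorem M_pow_zero {n k : ℕ} (hk : n + 1 ≤ k) {a : A n} (h : a ∈ M n ^ k) : a = 0 := by
  obtain ⟨p, hp, rfl⟩ := mem_M_pow h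
  exact q_eq_zero.2 (Ideal.pow_le_pow_right hk hp)

theorem mem_M {n : ℕ} {a : A n} (h : cst n a = 0) : a ∈ M n := by
  obtain ⟨p, rfl⟩ := q_surj n a
  rw [cst_q] at h
  exact Ideal.mem_map_of_mem _ ((mem_I_iff p).2 h)

theorem deg_one {y : Fin 7 →₀ ℕ} (h : Finsupp.degree y = 1) : ∃ k, Finsupp.single k 1 = y := by
  have hy : y ≠ 0 := by rintro rfl; simp at h
  obtain ⟨k, hk⟩ := Finsupp.support_nonempty_iff.2 hy
  have hk' : 1 ≤ y k := Nat.one_le_iff_ne_zero.2 (Finsupp.mem_support_iff.1 hk)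
  obtain ⟨z, rfl⟩ := le_iff_exists_add.1 (Finsupp.single_le_iff.2 hk')
  refine ⟨k, ?_⟩
  rw [map_add, Finsupp.degree_single] at h
  have hz : Finsupp.degree z = 0 := by omega
  rw [(Finsupp.degree_eq_zero_iff z).1 hz, add_zero]

theorem toD_ker {n : ℕ} {a : A (n+1)} (h : toD n a = 0) : a ∈ M (n+1) ^ 2 := by
  obtain ⟨p, rfl⟩ := q_surj (n+1) a
  rw [toD_q] at h
  refine q_mem_M ?_
  -- write `p = c + Σ a_i X_i + I^2`
  have key : aeval (fun k => (eps k : D 7)) p =
      D.mk (coeff 0 p) (fun k => coeff (Finsupp.single k 1) p) := by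
    clear h
    induction p using MvPolynomial.induction_on with
    | C a =>
      ext k
      · simp
      · have : (0 : Fin 7 →₀ ℕ) ≠ Finsupp.single k 1 := by
          intro h; simpa using congrArg Finsupp.degree h
        simp [coeff_C, this]
    | add p r hp hr => rw [map_add, hp, hr]; ext <;> simp
    | mul_X p i hp =>
      rw [map_mul, hp, aeval_X]
      ext j
      · rw [D.fst_mul, eps_fst, mul_zero, D.fst_mk, coeff_mul_X']; simp
      · simp only [D.snd_mul, D.fst_mk, D.snd_mk, eps_snd, eps_fst, zero_smul, add_zero,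
          Pi.smul_apply, smul_eq_mul]
        rw [coeff_mul_X']
        by_cases hij : i = j
        · subst hij; simp
        · rw [Pi.single_eq_of_ne (Ne.symm hij), mul_zero, if_neg]
          simpa [Finsupp.single_apply] using hij
  rw [key] at h
  rw [mem_pow_idealOfVars_iff']
  intro y hy
  have h0 : coeff 0 p = 0 := by
    have := congrArg D.fst h; simpa using this
  have h1 : ∀ k, coeff (Finsupp.single k 1) p = 0 := by
    intro k
    have := congrArg (fun z => D.snd z k) h; simpa using this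
  have : Finsupp.degree y = 0 ∨ Finsupp.degree y = 1 := by omega
  rcases this with h2 | h2
  · rw [(Finsupp.degree_eq_zero_iff y).1 h2]; exact h0
  · obtain ⟨k, rfl⟩ := deg_one h2
    exact h1 k


theorem mmp {B : Type} [CommRing B] (N : Ideal B) {a b k : ℕ} (h : a + b = k) {x y : B}
    (hx : x ∈ N ^ a) (hy : y ∈ N ^ b) : x * y ∈ N ^ k := by
  subst h; rw [pow_add]; exact Ideal.mul_mem_mul hx hy

theorem I_le_ker {B : Type} [CommRing B] [Algebra ℂ B] (N : Ideal B) (y : Fin 7 → B)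
    (hy : ∀ k, y k ∈ N) {n : ℕ} {p : P} (hp : p ∈ I ^ n) : aeval y p ∈ N ^ n := by
  have h1 : I ≤ N.comap (aeval (R := ℂ) y) := by
    refine Ideal.span_le.2 ?_
    rintro _ ⟨k, rfl⟩
    simpa using hy k
  exact Ideal.le_comap_pow _ n (Ideal.pow_right_mono h1 n hp)

theorem aeval_sub {B : Type} [CommRing B] [Algebra ℂ B] (N : Ideal B) (y x : Fin 7 → B)
    (hyx : ∀ k, y k - x k ∈ N) (p : P) : aeval y p - aeval x p ∈ N := by
  induction p using MvPolynomial.induction_on with
  | C a => simp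
  | add p r hp hr =>
    rw [map_add, map_add]
    have := N.add_mem hp hr
    convert this using 1; ring
  | mul_X p i hp =>
    rw [map_mul, map_mul, aeval_X, aeval_X]
    have := N.add_mem (N.mul_mem_right (y i) hp) (N.mul_mem_left (aeval x p) (hyx i))
    convert this using 1; ring

theorem homog_diff {B : Type} [CommRing B] [Algebra ℂ B] (N : Ideal B) (y x : Fin 7 → B)
    (hx : ∀ k, x k ∈ N) (hyx : ∀ k, y k - x k ∈ N ^ 2) {n : ℕ} {p : P} (hp : p ∈ I ^ n) :
    aeval y p - aeval x p ∈ N ^ (n + 1) := by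
  have hy : ∀ k, y k ∈ N := by
    intro k
    have := N.add_mem (Ideal.pow_le_self two_ne_zero (hyx k)) (hx k)
    simpa using this
  induction n generalizing p with
  | zero =>
    rw [zero_add, pow_one]
    exact aeval_sub N y x (fun k => Ideal.pow_le_self two_ne_zero (hyx k)) p
  | succ n ih =>
    rw [pow_succ] at hp
    refine Submodule.mul_induction_on hp ?_ ?_
    · intro a ha b hb
      have hb1 : b ∈ I ^ 1 := by rwa [pow_one]
      have h1 := ih ha
      have h2 : aeval y b ∈ N := by simpa using I_le_ker N y hy hb1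
      have h3 := I_le_ker N x hx ha
      have h4 := aeval_sub (N ^ 2) y x hyx b
      have h5 : (aeval y a - aeval x a) * aeval y b ∈ N ^ (n + 1 + 1) := by
        rw [pow_succ N (n + 1)]; exact Ideal.mul_mem_mul h1 h2
      have h6 : aeval x a * (aeval y b - aeval x b) ∈ N ^ (n + 1 + 1) := by
        rw [show n + 1 + 1 = n + 2 from rfl, pow_add N n 2]; exact Ideal.mul_mem_mul h3 h4
      have := add_mem h5 h6
      convert this using 1
      rw [map_mul, map_mul]; ring
    · intro a b ha hb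
      rw [map_add, map_add]
      convert add_mem ha hb using 1; ring

/-- The data -/
structure Dat (R : Type) [CommRing R] [IsLocalRing R] [Algebra ℂ R] where
  c : R →ₐ[ℂ] ℂ
  hc : ∀ r, r ∈ maximalIdeal R ↔ c r = 0
  u : Fin 8 → R →ₗ[ℂ] ℂ
  hu : ∀ i r s, u i (r * s) = c r * u i s + c s * u i r
  z : Fin 8 → R
  hz : ∀ i, z i ∈ maximalIdeal R
  huz : ∀ i j, u i (z j) = if i = j then 1 else 0
  hm2 : ∀ r ∈ maximalIdeal R, (∀ i, u i r = 0) → r ∈ maximalIdeal R ^ 2
  fn : ∀ n, R →ₐ[ℂ] A n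
  hred : ∀ n r, red n (fn (n + 1) r) = fn n r
  htoD : ∀ n r, toD n (fn (n + 1) r) = D.mk (c r) (fun k => u (Fin.castSucc k) r)

namespace Dat

variable {R : Type} [CommRing R] [IsLocalRing R] [Algebra ℂ R] (d : Dat R)

/-- the first seven -/
def z' (k : Fin 7) : R := d.z (Fin.castSucc k)

theorem hz' (k : Fin 7) : d.z' k ∈ maximalIdeal R := d.hz _

theorem mem_m2 (r : R) (hr : r ∈ maximalIdeal R) :
    r - ∑ i, d.u i r • d.z i ∈ maximalIdeal R ^ 2 := by
  apply d.hm2
  · refine sub_mem hr (Submodule.sum_mem _ fun i _ => ?_)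
    rw [Algebra.smul_def]
    exact Ideal.mul_mem_left _ _ (d.hz i)
  · intro j
    rw [map_sub, map_sum]
    simp [d.huz]

theorem u_m2 (i : Fin 8) {r : R} (hr : r ∈ maximalIdeal R ^ 2) : d.u i r = 0 := by
  rw [pow_two] at hr
  refine Submodule.mul_induction_on hr ?_ ?_
  · intro a ha b hb
    rw [d.hu, (d.hc a).1 ha, (d.hc b).1 hb]; ring
  · intro a b ha hb
    rw [map_add, ha, hb, add_zero]

theorem fn_mem (n : ℕ) {r : R} (hr : r ∈ maximalIdeal R) : d.fn n r ∈ M n := by
  refine mem_M ?_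
  have h1 : ∀ y : A (n), (algebraMap ℂ ℂ (cst n y)) = cst n y := fun _ => rfl
  by_contra h
  -- `r - cst (fn r)` is a unit, sent to a non-unit
  have h2 : IsUnit (r - algebraMap ℂ R (cst n (d.fn n r))) := by
    by_contra h3
    have h3' : r - algebraMap ℂ R (cst n (d.fn n r)) ∈ maximalIdeal R := h3
    have h4 := sub_mem hr h3'
    rw [sub_sub_cancel] at h4
    have h5 := (isUnit_iff_ne_zero.2 h).map (algebraMap ℂ R)
    exact h4 h5
  have h6 := h2.map (d.fn n)
  rw [isUnit_iff] at h6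
  apply h6
  rw [map_sub, AlgHom.commutes, map_sub, AlgHom.commutes]
  simp

theorem fn_mem_pow (n : ℕ) {k : ℕ} {r : R} (hr : r ∈ maximalIdeal R ^ k) :
    d.fn n r ∈ M n ^ k := by
  have h1 : maximalIdeal R ≤ (M n).comap (d.fn n) := fun r hr => d.fn_mem n hr
  exact Ideal.le_comap_pow _ k (Ideal.pow_right_mono h1 k hr)

theorem fn_z7 (n : ℕ) : d.fn (n + 1) (d.z 7) ∈ M (n + 1) ^ 2 := by
  apply toD_ker
  rw [d.htoD]
  ext k
  · simpa using (d.hc _).1 (d.hz 7)
  · simp only [D.snd_mk, d.huz, D.snd_zero, Pi.zero_apply]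
    rw [if_neg]
    intro h
    have := congrArg Fin.val h
    simp at this
    omega

theorem fn_z' (n : ℕ) (k : Fin 7) : d.fn (n + 1) (d.z' k) - x (n + 1) k ∈ M (n + 1) ^ 2 := by
  apply toD_ker
  rw [map_sub, d.htoD, toD_x]
  ext j
  · simpa using (d.hc _).1 (d.hz' k)
  · simp only [D.snd_sub, D.snd_mk, eps_snd, D.snd_zero, Pi.zero_apply, Pi.sub_apply, z', d.huz,
      Pi.single_apply]
    simp

theorem fn_aeval (n : ℕ) {p : P} (hp : p ∈ I ^ (n + 1)) :
    d.fn (n + 1) (aeval d.z' p) = q (n + 1) p := by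
  have h1 : d.fn (n + 1) (aeval d.z' p) = aeval (fun k => d.fn (n + 1) (d.z' k)) p := by
    rw [← AlgHom.comp_apply]
    congr 1
    ext k; simp
  have h2 : q (n + 1) p = aeval (x (n + 1)) p := by
    congr 1
    ext k; simp [x]
  rw [h1, h2, ← sub_eq_zero]
  refine M_pow_zero (k := n + 1 + 1) le_rfl ?_
  exact homog_diff (M (n + 1)) _ _
    (fun k => Ideal.mem_map_of_mem _ (X_mem k)) (fun k => d.fn_z' n k) hp

theorem dec (n : ℕ) {w : R} (hw : w ∈ maximalIdeal R ^ (n + 1)) :
    ∃ p ∈ I ^ (n + 1), ∃ v ∈ maximalIdeal R ^ n,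
      w - aeval d.z' p - d.z 7 * v ∈ maximalIdeal R ^ (n + 2) := by
  induction n generalizing w with
  | zero =>
    rw [zero_add, pow_one] at hw
    refine ⟨∑ k : Fin 7, d.u (Fin.castSucc k) w • X k, ?_, algebraMap ℂ R (d.u 7 w), ?_, ?_⟩
    · rw [zero_add, pow_one]
      refine Submodule.sum_mem _ fun k _ => ?_
      rw [MvPolynomial.smul_eq_C_mul]
      exact Ideal.mul_mem_left _ _ (X_mem k)
    · simp
    · have := d.mem_m2 w hw
      rw [Fin.sum_univ_castSucc] at this
      convert this using 1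
      rw [map_sum]
      simp only [map_smul, aeval_X, z']
      simp only [Algebra.smul_def]
      rw [show (Fin.last 7 : Fin 8) = 7 from rfl]
      ring
  | succ n ih =>
    rw [pow_succ] at hw
    refine Submodule.mul_induction_on hw ?_ ?_
    · intro a ha b hb
      obtain ⟨pa, hpa, va, hva, ha'⟩ := ih ha
      have base : ∃ p ∈ I, ∃ v : R, b - aeval d.z' p - d.z 7 * v ∈ maximalIdeal R ^ 2 := by
        refine ⟨∑ k : Fin 7, d.u (Fin.castSucc k) b • X k, ?_, algebraMap ℂ R (d.u 7 b), ?_⟩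
        · refine Submodule.sum_mem _ fun k _ => ?_
          rw [MvPolynomial.smul_eq_C_mul]
          exact Ideal.mul_mem_left _ _ (X_mem k)
        · have := d.mem_m2 b hb
          rw [Fin.sum_univ_castSucc] at this
          convert this using 1
          rw [map_sum]
          simp only [map_smul, aeval_X, z']
          simp only [Algebra.smul_def]
          rw [show (Fin.last 7 : Fin 8) = 7 from rfl]
          ring
      obtain ⟨pb, hpb, vb, hb'⟩ := base
      have hpb1 : pb ∈ I ^ 1 := by rwa [pow_one]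
      have hzb : aeval d.z' pb ∈ maximalIdeal R := by
        simpa using I_le_ker (maximalIdeal R) d.z' d.hz' hpb1
      refine ⟨pa * pb, ?_, a * vb + va * aeval d.z' pb, ?_, ?_⟩
      · rw [pow_succ I (n + 1)]; exact Ideal.mul_mem_mul hpa hpb
      · refine add_mem (Ideal.mul_mem_right _ _ ha) ?_
        rw [pow_succ]; exact Ideal.mul_mem_mul hva hzb
      · have h1 : a * (b - aeval d.z' pb - d.z 7 * vb) ∈ maximalIdeal R ^ (n + 1 + 2) := by
          rw [pow_add _ (n+1) 2]; exact Ideal.mul_mem_mul ha hb'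
        have h2 : (a - aeval d.z' pa - d.z 7 * va) * aeval d.z' pb ∈
            maximalIdeal R ^ (n + 1 + 2) := by
          rw [show n + 1 + 2 = (n + 2) + 1 by ring, pow_succ]
          exact Ideal.mul_mem_mul ha' hzb
        convert add_mem h1 h2 using 1
        rw [map_mul]; ring
    · rintro a b ⟨pa, hpa, va, hva, ha'⟩ ⟨pb, hpb, vb, hvb, hb'⟩
      refine ⟨pa + pb, add_mem hpa hpb, va + vb, add_mem hva hvb, ?_⟩
      convert add_mem ha' hb' using 1
      rw [map_add]; ring

theorem lem2 (n : ℕ) {w : R} (hw : w ∈ maximalIdeal R ^ (n + 1)) (h0 : d.fn (n + 1) w = 0) :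
    ∃ v ∈ maximalIdeal R ^ n, w - d.z 7 * v ∈ maximalIdeal R ^ (n + 2) := by
  obtain ⟨p, hp, v, hv, hw'⟩ := d.dec n hw
  refine ⟨v, hv, ?_⟩
  have h1 : d.fn (n + 1) (w - aeval d.z' p - d.z 7 * v) = 0 :=
    M_pow_zero (k := n + 2) le_rfl (d.fn_mem_pow _ hw')
  have h2 : d.fn (n + 1) (d.z 7 * v) = 0 := by
    refine M_pow_zero (k := n + 2) le_rfl ?_
    rw [map_mul]
    exact mmp _ (by ring) (d.fn_z7 n) (d.fn_mem_pow _ hv)
  rw [map_sub, map_sub, h0, h2, d.fn_aeval n hp, sub_zero, zero_sub, neg_eq_zero, q_eq_zero] at h1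
  have h3 := I_le_ker (maximalIdeal R) d.z' d.hz' h1
  convert add_mem hw' h3 using 1
  ring

theorem lemE (n : ℕ) {h : R} (h0 : d.fn n h = 0) :
    ∃ e ∈ maximalIdeal R ^ (n + 1), d.fn (n + 1) (h - e) = 0 := by
  obtain ⟨p, hp⟩ := q_surj (n + 1) (d.fn (n + 1) h)
  have h1 : p ∈ I ^ (n + 1) := by
    rw [← q_eq_zero, ← red_q, hp, d.hred, h0]
  refine ⟨aeval d.z' p, I_le_ker _ _ d.hz' h1, ?_⟩
  rw [map_sub, d.fn_aeval n h1, hp, sub_self]

/-- the approximations of the equation -/
def hs : ∀ n : ℕ, {h : R // d.fn (n + 1) h = 0}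
  | 0 => ⟨d.z 7, M_pow_zero (k := 2) le_rfl (d.fn_z7 0)⟩
  | (n + 1) => ⟨(hs n).1 - (d.lemE (n + 1) (hs n).2).choose,
      (d.lemE (n + 1) (hs n).2).choose_spec.2⟩

theorem hs_succ (n : ℕ) : (d.hs n).1 - (d.hs (n + 1)).1 ∈ maximalIdeal R ^ (n + 2) := by
  have := (d.lemE (n + 1) (d.hs n).2).choose_spec.1
  simpa [hs] using this

theorem hs_zero : (d.hs 0).1 = d.z 7 := rfl

theorem hs_zero_sub (n : ℕ) : (d.hs n).1 - d.z 7 ∈ maximalIdeal R ^ 2 := by
  induction n with
  | zero => simp [hs_zero]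
  | succ n ih =>
    have := sub_mem ih (Ideal.pow_le_pow_right (show 2 ≤ n + 2 by omega) (d.hs_succ n))
    convert this using 1; ring

theorem hs_mem (n : ℕ) : (d.hs n).1 ∈ maximalIdeal R := by
  have := add_mem (Ideal.pow_le_self two_ne_zero (d.hs_zero_sub n)) (d.hz 7)
  simpa using this

theorem step (n : ℕ) {G : R}
    (h : (d.hs (n + 1)).1 * G ∈ maximalIdeal R ^ (n + 3)) :
    ∃ v ∈ maximalIdeal R ^ (n + 2), (d.hs (n + 2)).1 * (G - v) ∈ maximalIdeal R ^ (n + 4) := by
  have h1 : (d.hs (n + 2)).1 * G ∈ maximalIdeal R ^ (n + 3) := by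
    have h2 := Ideal.mul_mem_right G _ (d.hs_succ (n + 1))
    convert sub_mem h h2 using 1; ring
  have h3 : d.fn (n + 3) ((d.hs (n + 2)).1 * G) = 0 := by
    rw [map_mul, (d.hs (n + 2)).2, zero_mul]
  obtain ⟨v, hv, hw⟩ := d.lem2 (n + 2) h1 h3
  refine ⟨v, hv, ?_⟩
  have h4 : ((d.hs (n + 2)).1 - d.z 7) * v ∈ maximalIdeal R ^ (n + 4) := by
    exact mmp _ (by ring) (d.hs_zero_sub _) hv
  convert sub_mem hw h4 using 1; ring

/-- the approximations of the multiplier -/
def gs {l : R} (hl : l ∈ maximalIdeal R) (h : d.z 7 * l ∈ maximalIdeal R ^ 3) :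
    ∀ n : ℕ, {G : R // G ∈ maximalIdeal R ∧ (d.hs (n + 1)).1 * G ∈ maximalIdeal R ^ (n + 3)}
  | 0 => ⟨l, hl, by
      have h4 : ((d.hs 1).1 - d.z 7) * l ∈ maximalIdeal R ^ 3 := by
        rw [pow_succ]
        exact Ideal.mul_mem_mul (d.hs_zero_sub _) hl
      convert add_mem h h4 using 1; ring⟩
  | (n + 1) => ⟨(gs hl h n).1 - (d.step n (gs hl h n).2.2).choose,
      sub_mem (gs hl h n).2.1 (Ideal.pow_le_self (by omega)
        (d.step n (gs hl h n).2.2).choose_spec.1),
      (d.step n (gs hl h n).2.2).choose_spec.2⟩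

theorem gs_succ {l : R} (hl : l ∈ maximalIdeal R) (h : d.z 7 * l ∈ maximalIdeal R ^ 3) (n : ℕ) :
    (d.gs hl h n).1 - (d.gs hl h (n + 1)).1 ∈ maximalIdeal R ^ (n + 2) := by
  have := (d.step n (d.gs hl h n).2.2).choose_spec.1
  simpa [gs] using this

theorem key (hdom : IsDomain (AdicCompletion (maximalIdeal R) R)) {l : R}
    (hl : l ∈ maximalIdeal R) (h : d.z 7 * l ∈ maximalIdeal R ^ 3) :
    l ∈ maximalIdeal R ^ 2 := by
  set m := maximalIdeal R with hm
  let g : AdicCompletion.AdicCauchySequence m R :=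
    AdicCompletion.AdicCauchySequence.mk m R (fun n => (d.hs n).1) (fun n => by
      rw [SModEq.sub_mem, smul_eq_mul, Ideal.mul_top]
      exact Ideal.pow_le_pow_right (by omega) (d.hs_succ n))
  let G : AdicCompletion.AdicCauchySequence m R :=
    AdicCompletion.AdicCauchySequence.mk m R (fun n => (d.gs hl h n).1) (fun n => by
      rw [SModEq.sub_mem, smul_eq_mul, Ideal.mul_top]
      exact Ideal.pow_le_pow_right (by omega) (d.gs_succ hl h n))
  have hprod : AdicCompletion.mk m R g * AdicCompletion.mk m R G = 0 := by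
    refine AdicCompletion.ext_evalₐ (I := m) fun n => ?_
    rw [map_mul, map_zero, AdicCompletion.evalₐ_mk, AdicCompletion.evalₐ_mk, ← map_mul,
      Ideal.Quotient.eq_zero_iff_mem]
    change (d.hs n).1 * (d.gs hl h n).1 ∈ m ^ n
    have h1 : ((d.hs n).1 - (d.hs (n + 1)).1) * (d.gs hl h n).1 ∈ m ^ n :=
      Ideal.mul_mem_right _ _ (Ideal.pow_le_pow_right (by omega) (d.hs_succ n))
    have h2 : (d.hs (n + 1)).1 * (d.gs hl h n).1 ∈ m ^ n :=
      Ideal.pow_le_pow_right (by omega) (d.gs hl h n).2.2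
    convert add_mem h1 h2 using 1; ring
  rcases mul_eq_zero.1 hprod with h0 | h0
  · exfalso
    have h1 := congrArg (AdicCompletion.evalₐ m 2) h0
    rw [map_zero, AdicCompletion.evalₐ_mk, Ideal.Quotient.eq_zero_iff_mem] at h1
    have h2 : (d.hs 2).1 ∈ m ^ 2 := h1
    have h3 := sub_mem h2 (d.hs_zero_sub 2)
    rw [sub_sub_cancel] at h3
    have := d.u_m2 7 h3
    rw [d.huz] at this
    simp at this
  · have h1 := congrArg (AdicCompletion.evalₐ m 2) h0
    rw [map_zero, AdicCompletion.evalₐ_mk, Ideal.Quotient.eq_zero_iff_mem] at h1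
    have h2 : (d.gs hl h 2).1 ∈ m ^ 2 := h1
    have h3 := d.gs_succ hl h 0
    have h4 := Ideal.pow_le_pow_right (show 2 ≤ 1 + 2 by omega) (d.gs_succ hl h 1)
    have h5 : (d.gs hl h 0).1 = l := rfl
    have := add_mem (add_mem h3 h4) h2
    rw [h5] at this
    convert this using 1; ring

/-- the bilinear form -/
def B (r s : R) : ℂ := d.u 6 r * d.u 7 s + d.u 6 s * d.u 7 r

theorem star (hdom : IsDomain (AdicCompletion (maximalIdeal R) R)) {ι : Type} (S : Finset ι)
    (r s : ι → R) (hr : ∀ i ∈ S, r i ∈ maximalIdeal R) (hs : ∀ i ∈ S, s i ∈ maximalIdeal R)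
    (h0 : ∑ i ∈ S, r i * s i = 0) : ∑ i ∈ S, d.B (r i) (s i) = 0 := by
  -- the coefficients
  let a : Fin 8 → Fin 8 → ℂ := fun j k => ∑ i ∈ S, d.u j (r i) * d.u k (s i)
  -- the quadratic form
  have hq : ∑ j, ∑ k, a j k • (d.z j * d.z k) ∈ maximalIdeal R ^ 3 := by
    have h1 : ∀ i ∈ S, r i * s i - (∑ j, d.u j (r i) • d.z j) * (∑ k, d.u k (s i) • d.z k) ∈
        maximalIdeal R ^ 3 := by
      intro i hi
      have hz : ∀ t : R, ∑ j, d.u j t • d.z j ∈ maximalIdeal R := by
        intro t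
        refine Submodule.sum_mem _ fun j _ => ?_
        rw [Algebra.smul_def]
        exact Ideal.mul_mem_left _ _ (d.hz j)
      have h2 := d.mem_m2 _ (hr i hi)
      have h3 := d.mem_m2 _ (hs i hi)
      have h4 : (r i - ∑ j, d.u j (r i) • d.z j) * s i ∈ maximalIdeal R ^ 3 :=
        mmp _ (show 2 + 1 = 3 by norm_num) h2 (by simpa using hs i hi)
      have h5 : (∑ j, d.u j (r i) • d.z j) * (s i - ∑ j, d.u j (s i) • d.z j) ∈
          maximalIdeal R ^ 3 :=
        mmp _ (show 1 + 2 = 3 by norm_num) (by simpa using hz (r i)) h3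
      convert add_mem h4 h5 using 1
      ring
    have h2 := Submodule.sum_mem _ h1
    rw [Finset.sum_sub_distrib, h0, zero_sub, neg_mem_iff] at h2
    convert h2 using 1
    simp only [a, Finset.sum_smul, Finset.sum_mul_sum, smul_mul_smul_comm]
    rw [Finset.sum_comm]
    rw [Finset.sum_congr rfl (fun k _ => Finset.sum_comm)]
    rw [Finset.sum_comm]
    refine Finset.sum_congr rfl fun i _ => ?_
    exact Finset.sum_comm
  -- split
  let p : P := ∑ j : Fin 7, ∑ k : Fin 7, a j.castSucc k.castSucc • (X j * X k)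
  let l : R := ∑ j : Fin 7, (a j.castSucc 7 + a 7 j.castSucc) • d.z' j + a 7 7 • d.z 7
  have hl : l ∈ maximalIdeal R := by
    refine add_mem (Submodule.sum_mem _ fun j _ => ?_) ?_
    · rw [Algebra.smul_def]; exact Ideal.mul_mem_left _ _ (d.hz' j)
    · rw [Algebra.smul_def]; exact Ideal.mul_mem_left _ _ (d.hz 7)
  have hsplit : ∑ j, ∑ k, a j k • (d.z j * d.z k) = aeval d.z' p + d.z 7 * l := by
    simp only [Fin.sum_univ_castSucc (n := 7)]
    rw [show (Fin.last 7 : Fin 8) = 7 from rfl]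
    simp only [p, l, map_sum, map_smul, map_mul, aeval_X, mul_add, Finset.mul_sum, z', add_smul,
      Finset.sum_add_distrib, mul_smul_comm]
    simp only [mul_comm (d.z 7)]
    ring
  have hp : p ∈ I ^ 2 := by
    refine Submodule.sum_mem _ fun j _ => Submodule.sum_mem _ fun k _ => ?_
    rw [MvPolynomial.smul_eq_C_mul]
    refine Ideal.mul_mem_left _ _ ?_
    rw [pow_two]
    exact Ideal.mul_mem_mul (X_mem j) (X_mem k)
  have hp3 : p ∈ I ^ 3 := by
    rw [← q_eq_zero (n := 2), ← d.fn_aeval 1 hp]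
    have h1 : aeval d.z' p = (∑ j, ∑ k, a j k • (d.z j * d.z k)) - d.z 7 * l := by
      rw [hsplit]; ring
    rw [h1, map_sub, M_pow_zero (k := 3) le_rfl (d.fn_mem_pow _ hq), zero_sub, neg_eq_zero]
    refine M_pow_zero (k := 3) le_rfl ?_
    rw [map_mul]
    exact mmp _ (show 2 + 1 = 3 by norm_num) (d.fn_z7 1) (by simpa using d.fn_mem _ hl)
  have hp0 : p ∈ I ^ 3 := hp3
  have hzp : aeval d.z' p ∈ maximalIdeal R ^ 3 := I_le_ker _ _ d.hz' hp0
  have hzl : d.z 7 * l ∈ maximalIdeal R ^ 3 := by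
    have := sub_mem hq hzp
    rw [hsplit, add_sub_cancel_left] at this
    exact this
  have hu := d.u_m2 6 (d.key hdom hl hzl)
  have : d.u 6 l = a 6 7 + a 7 6 := by
    simp only [l, map_add, map_sum, map_smul, z', d.huz]
    rw [Finset.sum_eq_single (6 : Fin 7)]
    · simp
    · intro b _ hb
      rw [if_neg, smul_zero]
      intro h; apply hb
      apply Fin.castSucc_injective
      exact h.symm
    · simp
  rw [this] at hu
  rw [← hu]
  simp only [B, a]
  rw [← Finset.sum_add_distrib]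
  refine Finset.sum_congr rfl fun i _ => ?_
  ring

theorem beta (hdom : IsDomain (AdicCompletion (maximalIdeal R) R)) :
    ∃ β : R →ₗ[ℂ] ℂ, β 1 = 0 ∧
      ∀ r s, β (r * s) = d.c r * β s + d.c s * β r + d.u 6 r * d.u 7 s + d.u 6 s * d.u 7 r := by
  let F : ((↥(maximalIdeal R) × ↥(maximalIdeal R)) →₀ ℂ) →ₗ[ℂ] R :=
    Finsupp.linearCombination ℂ (fun y => (y.1 : R) * y.2)
  let G : ((↥(maximalIdeal R) × ↥(maximalIdeal R)) →₀ ℂ) →ₗ[ℂ] ℂ :=
    Finsupp.linearCombination ℂ (fun y => d.B y.1 y.2)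
  have hFG : LinearMap.ker F ≤ LinearMap.ker G := by
    intro v hv
    rw [LinearMap.mem_ker] at hv ⊢
    simp only [F, G, Finsupp.linearCombination_apply, Finsupp.sum] at hv ⊢
    have := d.star hdom v.support (fun y => v y • (y.1 : R)) (fun y => (y.2 : R))
      (fun y _ => by rw [Algebra.smul_def]; exact Ideal.mul_mem_left _ _ y.1.2)
      (fun y _ => y.2.2) (by simpa only [smul_mul_assoc] using hv)
    rw [← this]
    refine Finset.sum_congr rfl fun y _ => ?_
    simp only [B, map_smul, smul_eq_mul]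
    ring
  obtain ⟨β, hβ⟩ : ∃ β : R →ₗ[ℂ] ℂ, β.comp F = G := by
    have h1 : G ∈ (LinearMap.ker F).dualAnnihilator := by
      rw [Submodule.mem_dualAnnihilator]
      exact fun w hw => hFG hw
    rw [← LinearMap.range_dualMap_eq_dualAnnihilator_ker] at h1
    obtain ⟨β, hβ⟩ := h1
    exact ⟨β, hβ⟩
  have hβ' : ∀ r ∈ maximalIdeal R, ∀ s ∈ maximalIdeal R, β (r * s) = d.B r s := by
    intro r hr s hs
    have := LinearMap.congr_fun hβ (Finsupp.single (⟨r, hr⟩, ⟨s, hs⟩) 1)
    simpa [F, G] using this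
  refine ⟨β - (β 1) • d.c.toLinearMap, by simp, fun r s => ?_⟩
  have hc1 : ∀ i, d.u i 1 = 0 := by
    intro i
    have := d.hu i 1 1
    simpa using this
  have hcu : ∀ i (t : ℂ), d.u i (algebraMap ℂ R t) = 0 := by
    intro i t
    rw [Algebra.algebraMap_eq_smul_one, map_smul, hc1, smul_zero]
  have hβt : ∀ t : ℂ, β (algebraMap ℂ R t) = t * β 1 := by
    intro t
    rw [Algebra.algebraMap_eq_smul_one, map_smul, smul_eq_mul]
  have hm : ∀ t : R, t - algebraMap ℂ R (d.c t) ∈ maximalIdeal R := by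
    intro t; rw [d.hc, map_sub, AlgHom.commutes]; simp
  have h1 := hβ' _ (hm r) _ (hm s)
  have h2 : r * s = (r - algebraMap ℂ R (d.c r)) * (s - algebraMap ℂ R (d.c s)) +
      d.c r • s + d.c s • r - algebraMap ℂ R (d.c r * d.c s) := by
    simp only [Algebra.smul_def, map_mul]; ring
  have h3 : β (r * s) = d.u 6 r * d.u 7 s + d.u 6 s * d.u 7 r +
      d.c r * β s + d.c s * β r - d.c r * d.c s * β 1 := by
    rw [h2, map_sub, map_add, map_add, h1, map_smul, map_smul, hβt]
    simp only [B, map_sub, hcu, sub_zero, smul_eq_mul]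
  simp only [LinearMap.sub_apply, LinearMap.smul_apply, AlgHom.toLinearMap_apply, map_mul,
    smul_eq_mul]
  rw [h3]
  ring

/-- the deformation over `A2` -/
theorem chi (hdom : IsDomain (AdicCompletion (maximalIdeal R) R)) :
    ∃ χ : R →ₐ[ℂ] A2,
      (∀ r, rho1 (χ r) = D.mk (d.c r) (fun _ => d.u 6 r)) ∧
      (∀ r, rho2 (χ r) = D.mk (d.c r) (fun _ => d.u 7 r)) := by
  obtain ⟨β, hβ1, hβ⟩ := d.beta hdom
  have hc1 : ∀ i, d.u i 1 = 0 := by
    intro i
    have := d.hu i 1 1
    simpa using this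
  refine ⟨AlgHom.ofLinearMap
    { toFun := fun r => A2.mk (D.mk (d.c r) (fun _ => d.u 6 r)) (D.mk (d.u 7 r) (fun _ => β r))
      map_add' := fun r s => by
        ext <;> simp
      map_smul' := fun t r => by
        ext <;> simp } ?_ ?_, ?_, ?_⟩
  · ext <;> simp [hc1, hβ1]
  · intro r s
    ext
    · simp
    · simp [d.hu]
    · simp [d.hu]
    · simp [hβ]; ring
  · intro r; rfl
  · intro r; rfl

end Dat

end ALx

theorem AL (R : Type) [CommRing R] [IsLocalRing R] [IsNoetherianRing R] [Algebra ℂ R]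
    (hdom : IsDomain (AdicCompletion (maximalIdeal R) R))
    (U : R →ₐ[ℂ] D 8)
    (hU1 : ∀ χ : R →ₐ[ℂ] D 1, ∃ ψ : (Fin 8 → ℂ) →ₗ[ℂ] (Fin 1 → ℂ), χ = (Dmap ψ).comp U)
    (hU2 : ∀ ψ : (Fin 8 → ℂ) →ₗ[ℂ] (Fin 1 → ℂ), (Dmap ψ).comp U = (Dmap 0).comp U → ψ = 0)
    (f : ∀ (A : Type) [CommRing A] [Algebra ℂ A] [Module.Finite ℂ A] [IsLocalRing A]
      (ξ : Fin 7 → A), (∀ k, ξ k ∈ maximalIdeal A) → (R →ₐ[ℂ] A))
    (hnat : ∀ (A A' : Type) [CommRing A] [Algebra ℂ A] [Module.Finite ℂ A] [IsLocalRing A]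
      [CommRing A'] [Algebra ℂ A'] [Module.Finite ℂ A'] [IsLocalRing A'] (α : A →ₐ[ℂ] A')
      (ξ : Fin 7 → A) (h : ∀ k, ξ k ∈ maximalIdeal A) (h' : ∀ k, α (ξ k) ∈ maximalIdeal A'),
      α.comp (f A ξ h) = f A' (fun k => α (ξ k)) h')
    (hf : ∀ h, f (D 7) eps h =
      (Dmap (LinearMap.funLeft ℂ ℂ (Fin.castSucc : Fin 7 → Fin 8))).comp U) :
    ∃ χ : R →ₐ[ℂ] A2,
      (∀ h, rho1.comp χ = f (D 1) (fun k => if k = 6 then eps 0 else 0) h) ∧
      rho2.comp χ = (Dmap (LinearMap.funLeft ℂ ℂ (fun _ : Fin 1 => (7 : Fin 8)))).comp U := by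
  -- the constant term
  let c : R →ₐ[ℂ] ℂ := AlgHom.ofLinearMap ((Dfst 8).comp U.toLinearMap) (by simp)
    (fun r s => by simp)
  have hc_apply : ∀ r, c r = (U r).fst := fun r => rfl
  have hc : ∀ r, r ∈ maximalIdeal R ↔ c r = 0 := by
    intro r
    constructor
    · intro hr
      by_contra h
      have h2 : IsUnit (r - algebraMap ℂ R (c r)) := by
        by_contra h3
        have h4 := sub_mem hr (show r - algebraMap ℂ R (c r) ∈ maximalIdeal R from h3)
        rw [sub_sub_cancel] at h4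
        exact h4 ((isUnit_iff_ne_zero.2 h).map (algebraMap ℂ R))
      have h5 := (h2.map c).ne_zero
      apply h5
      rw [map_sub, AlgHom.commutes]; simp
    · intro h hu
      exact (hu.map c).ne_zero h
  let u : Fin 8 → R →ₗ[ℂ] ℂ := fun i => (Dsnd 8 i).comp U.toLinearMap
  have hu_apply : ∀ i r, u i r = (U r).snd i := fun i r => rfl
  have hu : ∀ i r s, u i (r * s) = c r * u i s + c s * u i r := by
    intro i r s
    simp [hu_apply, hc_apply]
  have hu1 : ∀ i, u i 1 = 0 := by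
    intro i
    have := hu i 1 1
    simpa using this
  have hUr : ∀ r, U r = D.mk (c r) (fun i => u i r) := fun r => rfl
  have hm : ∀ t : R, t - algebraMap ℂ R (c t) ∈ maximalIdeal R := by
    intro t; rw [hc, map_sub, AlgHom.commutes]; simp
  -- `z`
  have hz : ∀ j : Fin 8, ∃ z ∈ maximalIdeal R, ∀ i, u i z = if i = j then 1 else 0 := by
    let T : R →ₗ[ℂ] (Fin 8 → ℂ) := LinearMap.pi u
    let N : Submodule ℂ (Fin 8 → ℂ) := ((maximalIdeal R).restrictScalars ℂ).map T
    have hN : N = ⊤ := by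
      by_contra hN
      obtain ⟨g, hg0, hg⟩ := Submodule.exists_le_ker_of_lt_top N (lt_top_iff_ne_top.2 hN)
      have h1 := hU2 (LinearMap.pi fun _ => g) (by
        ext r
        · simp
        · rename_i k
          simp only [AlgHom.comp_apply, Dmap_snd, LinearMap.pi_apply, LinearMap.zero_apply,
            Pi.zero_apply]
          have h2 : T (r - algebraMap ℂ R (c r)) ∈ N :=
            Submodule.mem_map_of_mem (hm r)
          have h3 : g (T (r - algebraMap ℂ R (c r))) = 0 := hg h2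
          have h4 : T (algebraMap ℂ R (c r)) = 0 := by
            rw [Algebra.algebraMap_eq_smul_one, map_smul]
            have : T 1 = 0 := by ext i; exact hu1 i
            rw [this, smul_zero]
          rw [map_sub, h4, sub_zero] at h3
          exact h3)
      apply hg0
      have h5 := congrArg (fun ψ => (LinearMap.proj (0 : Fin 1)).comp ψ) h1
      ext v
      have := LinearMap.congr_fun h5 (Pi.single v 1)
      simpa using this
    intro j
    have : (Pi.single j 1 : Fin 8 → ℂ) ∈ N := by rw [hN]; trivial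
    obtain ⟨z, hz, hzT⟩ := this
    refine ⟨z, hz, fun i => ?_⟩
    have := congrFun hzT i
    rw [Pi.single_apply] at this
    exact this
  choose z hz1 hz2 using hz
  have hm2 : ∀ r ∈ maximalIdeal R, (∀ i, u i r = 0) → r ∈ maximalIdeal R ^ 2 := by
    intro r hr h0
    by_contra hr2
    let N : Submodule ℂ R := (maximalIdeal R ^ 2).restrictScalars ℂ ⊔ Submodule.span ℂ {1}
    have hrN : r ∉ N := by
      intro h
      obtain ⟨s, hs, t, ht, hst⟩ := Submodule.mem_sup.1 h
      obtain ⟨a, rfl⟩ := Submodule.mem_span_singleton.1 ht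
      have hs' : s ∈ maximalIdeal R ^ 2 := hs
      have h1 : c r = a := by
        rw [← hst, map_add, map_smul, map_one, (hc s).1 (Ideal.pow_le_self two_ne_zero hs')]
        simp
      rw [(hc r).1 hr] at h1
      rw [← h1, zero_smul, add_zero] at hst
      exact hr2 (hst ▸ hs')
    obtain ⟨l, hl1, hl2⟩ := Submodule.exists_le_ker_of_notMem hrN
    have hlone : l 1 = 0 := hl2 (Submodule.mem_sup_right (Submodule.mem_span_singleton_self _))
    have hlmm : ∀ s ∈ maximalIdeal R ^ 2, l s = 0 := fun s hs => hl2 (Submodule.mem_sup_left hs)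
    have hlmul : ∀ s t, l (s * t) = c s * l t + c t * l s := by
      intro s t
      have h2 : s * t = (s - algebraMap ℂ R (c s)) * (t - algebraMap ℂ R (c t)) +
          c s • t + c t • s - (c s * c t) • (1 : R) := by
        simp only [Algebra.smul_def, map_mul]; ring
      have h3 : (s - algebraMap ℂ R (c s)) * (t - algebraMap ℂ R (c t)) ∈ maximalIdeal R ^ 2 := by
        rw [pow_two]; exact Ideal.mul_mem_mul (hm s) (hm t)
      rw [h2, map_sub, map_add, map_add, hlmm _ h3, map_smul, map_smul, map_smul, hlone]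
      simp
    let χ : R →ₐ[ℂ] D 1 := AlgHom.ofLinearMap
      { toFun := fun s => D.mk (c s) (fun _ => l s)
        map_add' := fun s t => by ext <;> simp
        map_smul' := fun s t => by ext <;> simp }
      (by ext <;> simp [hlone])
      (fun s t => by ext <;> simp [hlmul])
    obtain ⟨ψ, hψ⟩ := hU1 χ
    have h4 := congrArg (fun y : D 1 => y.snd 0) (AlgHom.congr_fun hψ r)
    have h5 : (fun i => u i r) = 0 := funext h0
    have h6 : l r = ψ (fun i => u i r) 0 := h4
    rw [h5, map_zero] at h6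
    exact hl1 h6
  let d : ALx.Dat R :=
    { c := c, hc := hc, u := u, hu := hu, z := z, hz := hz1,
      huz := fun i j => hz2 j i
      hm2 := hm2
      fn := fun n => f (ALx.A n) (ALx.x n) (ALx.x_mem n)
      hred := fun n r => by
        have := hnat (ALx.A (n + 1)) (ALx.A n) (ALx.red n) (ALx.x (n + 1)) (ALx.x_mem (n + 1))
          (ALx.x_mem n)
        exact AlgHom.congr_fun this r
      htoD := fun n r => by
        have h' : ∀ k, ALx.toD n (ALx.x (n + 1) k) ∈ maximalIdeal (D 7) := by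
          intro k; rw [ALx.toD_x, mem_max_D]; rfl
        have h1 := hnat (ALx.A (n + 1)) (D 7) (ALx.toD n) (ALx.x (n + 1)) (ALx.x_mem (n + 1)) h'
        have h2 : (fun k => ALx.toD n (ALx.x (n + 1) k)) = eps :=
          funext fun k => ALx.toD_x n k
        have h3 : ∀ (ξ : Fin 7 → D 7) (hξ : ∀ k, ξ k ∈ maximalIdeal (D 7)), ξ = eps →
            f (D 7) ξ hξ = (Dmap (LinearMap.funLeft ℂ ℂ (Fin.castSucc : Fin 7 → Fin 8))).comp U := by
          rintro _ hξ rfl; exact hf hξ
        rw [h3 _ h' h2] at h1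
        exact AlgHom.congr_fun h1 r }
  obtain ⟨χ, hχ1, hχ2⟩ := d.chi hdom
  refine ⟨χ, fun h => ?_, ?_⟩
  · let ψ : (Fin 7 → ℂ) →ₗ[ℂ] (Fin 1 → ℂ) := LinearMap.funLeft ℂ ℂ (fun _ => 6)
    have h7 : ∀ k, (eps k : D 7) ∈ maximalIdeal (D 7) := fun k => by rw [mem_max_D]; rfl
    have h8 : ∀ k, Dmap ψ (eps k) = (if k = 6 then eps 0 else 0 : D 1) := by
      intro k
      by_cases hk : k = 6
      · subst hk
        rw [if_pos rfl]
        ext i
        · simp
        · have : i = 0 := Subsingleton.elim _ _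
          subst this
          simp [ψ, LinearMap.funLeft_apply]
      · rw [if_neg hk]
        ext i
        · simp
        · simp only [Dmap_snd, ψ, LinearMap.funLeft_apply, eps_snd, D.snd_zero, Pi.zero_apply]
          rw [Pi.single_eq_of_ne (Ne.symm hk)]
    have h9 : (fun k => Dmap ψ (eps k)) = (fun k => (if k = 6 then eps 0 else 0 : D 1)) :=
      funext h8
    have h10 : ∀ k, Dmap ψ (eps k) ∈ maximalIdeal (D 1) := by
      intro k; rw [mem_max_D]; rfl
    have h11 := hnat (D 7) (D 1) (Dmap ψ) eps h7 h10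
    have h12 : ∀ (ξ : Fin 7 → D 1) (hξ : ∀ k, ξ k ∈ maximalIdeal (D 1)),
        ξ = (fun k => (if k = 6 then eps 0 else 0 : D 1)) →
        f (D 1) ξ hξ = f (D 1) (fun k => if k = 6 then eps 0 else 0) h := by
      rintro _ hξ rfl; rfl
    rw [h12 _ h10 h9, hf h7] at h11
    rw [← h11]
    ext r i
    · have := congrArg D.fst (hχ1 r)
      exact this
    · have := congrArg (fun y : D 1 => y.snd i) (hχ1 r)
      exact this
  · ext r i
    · exact congrArg D.fst (hχ2 r)
    · exact congrArg (fun y : D 1 => y.snd i) (hχ2 r)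

end

end Pool.Agent.EllMod
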