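import Pool.Agent.MP_77976d_ag.Base

/-! # BAS : basis facts -/

open scoped TensorProduct
open IsLocalRing

namespace Pool.Agent.EllMod

noncomputable section

variable {F : Type} [Field F] [Algebra ℂ F] (C : Cfg F)

namespace Cfg

/-- The field `ℂ(t, x)`. -/
abbrev k : IntermediateField ℂ F := IntermediateField.adjoin ℂ {C.t, C.x}

include C in
theorem cz : CharZero F := charZero_of_injective_algebraMap (algebraMap ℂ F).injective

theorem bas_t_ne : C.t ≠ 0 := by
  have := C.indep.ne_zero (0 : Fin 2)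
  simpa using this

theorem x_ne : C.x ≠ 0 := by
  have := C.indep.ne_zero (1 : Fin 2)
  simpa using this

/-- A nonzero polynomial in `t` and `x` does not vanish. -/
theorem bas_aeval_ne (P : MvPolynomial (Fin 2) ℂ) (hP : P ≠ 0) :
    MvPolynomial.aeval ![C.t, C.x] P ≠ 0 := by
  intro h
  exact hP ((algebraicIndependent_iff.mp C.indep) P h)

/-- A nonzero polynomial in `t` does not vanish. -/
theorem bas_aeval_t_ne (P : Polynomial ℂ) (hP : P ≠ 0) : Polynomial.aeval C.t P ≠ 0 := by
  have h := C.indep.transcendental 0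
  intro h0
  exact hP ((transcendental_iff.mp h) P (by simpa using h0))

theorem bas_aeval_x_ne (P : Polynomial ℂ) (hP : P ≠ 0) : Polynomial.aeval C.x P ≠ 0 := by
  have h := C.indep.transcendental 1
  intro h0
  exact hP ((transcendental_iff.mp h) P (by simpa using h0))

theorem s_ne : C.s ≠ 0 := by
  intro h
  have h1 := C.hs
  rw [h] at h1
  apply C.bas_aeval_t_ne (Polynomial.X ^ 6 - 2 * Polynomial.X ^ 5 + Polynomial.X ^ 4 +
    2 * Polynomial.X ^ 3 + 2 * Polynomial.X ^ 2 + 1)
  · intro h0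
    have := congrArg (fun p => Polynomial.eval 0 p) h0
    simp at this
  · simp only [map_add, map_sub, map_mul, map_pow, Polynomial.aeval_X, map_ofNat, map_one]
    rw [← h1]; simp

theorem p_ne : C.p ≠ 0 := by
  intro h
  have h1 := C.hp
  rw [h] at h1
  apply C.bas_aeval_x_ne (Polynomial.X ^ 2 + 1)
  · intro h0
    have := congrArg (fun p => Polynomial.eval 0 p) h0
    simp at this
  · simp only [map_add, map_pow, Polynomial.aeval_X, map_one]
    rw [← h1]; simp

theorem q_ne : C.q ≠ 0 := by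
  intro h
  have h1 := C.hq
  rw [h] at h1
  apply C.bas_aeval_x_ne (Polynomial.X ^ 2 - 1)
  · intro h0
    have := congrArg (fun p => Polynomial.eval 0 p) h0
    simp at this
  · simp only [map_sub, map_pow, Polynomial.aeval_X, map_one]
    rw [← h1]; simp

theorem e_ne (y : Bool × Bool × Bool) : C.e y ≠ 0 := by
  have := C.s_ne
  have := C.p_ne
  have := C.q_ne
  rcases y with ⟨a, b, c⟩
  cases a <;> cases b <;> cases c <;> simp [e, *]

/-- The fixed field of an automorphism. -/
def fixF (σ : F ≃ₐ[ℂ] F) : IntermediateField ℂ F where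
  carrier := {y | σ y = y}
  mul_mem' := fun {a b} ha hb => by
    simp only [Set.mem_ofPred_eq, map_mul] at *; rw [ha, hb]
  add_mem' := fun {a b} ha hb => by
    simp only [Set.mem_ofPred_eq, map_add] at *; rw [ha, hb]
  algebraMap_mem' := fun r => by simp
  inv_mem' := fun a ha => by
    simp only [Set.mem_ofPred_eq, map_inv₀] at *; rw [ha]

/-- An automorphism fixing `t` and `x` fixes `ℂ(t, x)`. -/
theorem bas_fix (σ : F ≃ₐ[ℂ] F) (ht : σ C.t = C.t) (hx : σ C.x = C.x) (c : F) (hc : c ∈ C.k) :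
    σ c = c := by
  have : C.k ≤ fixF σ := by
    rw [IntermediateField.adjoin_le_iff]
    intro y hy
    rcases hy with rfl | rfl
    · exact ht
    · exact hx
  exact this hc

theorem e_li : LinearIndependent ↥C.k C.e := by
  rw [Fintype.linearIndependent_iff]
  intro c hc
  have hfix : ∀ (σ : F ≃ₐ[ℂ] F), σ C.t = C.t → σ C.x = C.x → ∀ y, σ (c y : F) = c y :=
    fun σ h1 h2 y => C.bas_fix σ h1 h2 _ (c y).2
  have h0 : ∑ y, (c y : F) * C.e y = 0 := by
    simpa [IntermediateField.smul_def] using hc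
  have hs := congrArg C.σs h0
  have hp := congrArg C.σp h0
  have hq := congrArg C.σq h0
  have hsp := congrArg C.σp hs
  have hsq := congrArg C.σq hs
  have hpq := congrArg C.σq hp
  have hspq := congrArg C.σq hsp
  simp only [Fintype.sum_prod_type, Fintype.sum_bool, e, map_add, map_mul, map_one, map_zero,
    if_true, Bool.false_eq_true, if_false, hfix _ C.σs_t C.σs_x, hfix _ C.σp_t C.σp_x,
    hfix _ C.σq_t C.σq_x, C.σs_s, C.σs_p, C.σs_q, C.σp_s, C.σp_p, C.σp_q, C.σq_s, C.σq_p,
    C.σq_q, mul_one, one_mul, map_neg] at h0 hs hp hq hsp hsq hpq hspq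
  have hs0 := C.s_ne
  have hp0 := C.p_ne
  have hq0 := C.q_ne
  have := C.cz
  intro y
  have key : (c y : F) = 0 := by
    rcases y with ⟨a1, a2, a3⟩
    cases a1 <;> cases a2 <;> cases a3
    · linear_combination (1/8) * (h0 + hs + hp + hq + hsp + hsq + hpq + hspq)
    · have : (c (false, false, true) : F) * C.q = 0 := by
        linear_combination (1/8) * (h0 + hs + hp - hq + hsp - hsq - hpq - hspq)
      exact (mul_eq_zero.mp this).resolve_right hq0
    · have : (c (false, true, false) : F) * C.p = 0 := by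
        linear_combination (1/8) * (h0 + hs - hp + hq - hsp + hsq - hpq - hspq)
      exact (mul_eq_zero.mp this).resolve_right hp0
    · have : (c (false, true, true) : F) * (C.p * C.q) = 0 := by
        linear_combination (1/8) * (h0 + hs - hp - hq - hsp - hsq + hpq + hspq)
      exact (mul_eq_zero.mp this).resolve_right (mul_ne_zero hp0 hq0)
    · have : (c (true, false, false) : F) * C.s = 0 := by
        linear_combination (1/8) * (h0 - hs + hp + hq - hsp - hsq + hpq - hspq)
      exact (mul_eq_zero.mp this).resolve_right hs0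
    · have : (c (true, false, true) : F) * (C.s * C.q) = 0 := by
        linear_combination (1/8) * (h0 - hs + hp - hq - hsp + hsq - hpq + hspq)
      exact (mul_eq_zero.mp this).resolve_right (mul_ne_zero hs0 hq0)
    · have : (c (true, true, false) : F) * (C.s * C.p) = 0 := by
        linear_combination (1/8) * (h0 - hs - hp + hq + hsp - hsq - hpq + hspq)
      exact (mul_eq_zero.mp this).resolve_right (mul_ne_zero hs0 hp0)
    · have : (c (true, true, true) : F) * (C.s * C.p * C.q) = 0 := by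
        linear_combination (1/8) * (h0 - hs - hp - hq + hsp + hsq + hpq - hspq)
      exact (mul_eq_zero.mp this).resolve_right (mul_ne_zero (mul_ne_zero hs0 hp0) hq0)
  exact Subtype.ext key

theorem nat_mono_li : LinearIndependent ℂ (fun m : ℕ × ℕ => C.t ^ m.1 * C.x ^ m.2) := by
  have h1 := (MvPolynomial.basisMonomials (Fin 2) ℂ).linearIndependent
  have h2 : LinearIndependent ℂ (fun m : ℕ × ℕ =>
      MvPolynomial.basisMonomials (Fin 2) ℂ (Finsupp.single 0 m.1 + Finsupp.single 1 m.2)) := by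
    apply h1.comp
    intro m m' h
    have h0 := DFunLike.congr_fun h 0
    have h1 := DFunLike.congr_fun h 1
    simp at h0 h1
    exact Prod.ext h0 h1
  have h3 := h2.map' (MvPolynomial.aeval ![C.t, C.x]).toLinearMap (by
    rw [LinearMap.ker_eq_bot]
    exact C.indep)
  have h4 : (fun m : ℕ × ℕ => C.t ^ m.1 * C.x ^ m.2) =
      (MvPolynomial.aeval ![C.t, C.x]).toLinearMap ∘ fun m : ℕ × ℕ =>
      MvPolynomial.basisMonomials (Fin 2) ℂ (Finsupp.single 0 m.1 + Finsupp.single 1 m.2) := by
    funext m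
    simp [MvPolynomial.aeval_monomial, Finsupp.prod_add_index', pow_add]
  rw [h4]
  exact h3

theorem int_mono_li : LinearIndependent ℂ (fun m : ℤ × ℤ => C.t ^ m.1 * C.x ^ m.2) := by
  have ht := C.bas_t_ne
  have hx := C.x_ne
  rw [linearIndependent_iff']
  intro s g hg i hi
  obtain ⟨N, hN⟩ : ∃ N : ℕ, ∀ j ∈ s, 0 ≤ j.1 + N ∧ 0 ≤ j.2 + N := by
    refine ⟨∑ j ∈ s, (j.1.natAbs + j.2.natAbs), fun j hj => ?_⟩
    have := Finset.single_le_sum (f := fun j : ℤ × ℤ => j.1.natAbs + j.2.natAbs)
      (fun _ _ => Nat.zero_le _) hj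
    constructor <;> omega
  have hli := C.nat_mono_li
  have h2 : LinearIndependent ℂ (fun j : s =>
      C.t ^ ((j : ℤ × ℤ).1 + N).toNat * C.x ^ ((j : ℤ × ℤ).2 + N).toNat) := by
    apply hli.comp (fun j : s => (((j : ℤ × ℤ).1 + N).toNat, ((j : ℤ × ℤ).2 + N).toNat))
    intro a b hab
    simp only [Prod.mk.injEq] at hab
    have ha := hN a a.2
    have hb := hN b b.2
    apply Subtype.ext
    apply Prod.ext <;> omega
  rw [Fintype.linearIndependent_iff] at h2
  refine h2 (fun j => g j) ?_ ⟨i, hi⟩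
  have h3 : ∀ j ∈ s, C.t ^ (j.1 + N).toNat * C.x ^ (j.2 + N).toNat =
      (C.t ^ (N : ℤ) * C.x ^ (N : ℤ)) * (C.t ^ j.1 * C.x ^ j.2) := by
    intro j hj
    obtain ⟨h1, h2⟩ := hN j hj
    rw [← zpow_natCast, ← zpow_natCast, Int.toNat_of_nonneg h1, Int.toNat_of_nonneg h2,
      zpow_add₀ ht, zpow_add₀ hx]
    ring
  rw [Finset.sum_coe_sort s (fun j => g j • (C.t ^ (j.1 + N).toNat * C.x ^ (j.2 + N).toNat))]
  have h4 : ∑ j ∈ s, g j • (C.t ^ (j.1 + N).toNat * C.x ^ (j.2 + N).toNat) =
      (C.t ^ (N : ℤ) * C.x ^ (N : ℤ)) * ∑ j ∈ s, g j • (C.t ^ j.1 * C.x ^ j.2) := by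
    rw [Finset.mul_sum]
    refine Finset.sum_congr rfl fun j hj => ?_
    rw [h3 j hj, mul_smul_comm]
  rw [h4, hg, mul_zero]

/-- The monomials `tᵐ xⁿ s^a p^b q^c` are linearly independent over `ℂ`. -/
theorem mono_li : LinearIndependent ℂ
    (fun m : ℤ × ℤ × (Bool × Bool × Bool) => C.t ^ m.1 * C.x ^ m.2.1 * C.e m.2.2) := by
  have htk : C.t ∈ C.k := IntermediateField.subset_adjoin _ _ (by simp)
  have hxk : C.x ∈ C.k := IntermediateField.subset_adjoin _ _ (by simp)
  have h1 : LinearIndependent ℂ (fun m : ℤ × ℤ =>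
      ((⟨C.t, htk⟩ : ↥C.k) ^ m.1 * (⟨C.x, hxk⟩ : ↥C.k) ^ m.2)) := by
    apply LinearIndependent.of_comp C.k.val.toLinearMap
    have h : (⇑C.k.val.toLinearMap ∘ fun m : ℤ × ℤ =>
      ((⟨C.t, htk⟩ : ↥C.k) ^ m.1 * (⟨C.x, hxk⟩ : ↥C.k) ^ m.2)) =
        fun m : ℤ × ℤ => C.t ^ m.1 * C.x ^ m.2 := by
      funext m
      show C.k.val ((⟨C.t, htk⟩ : ↥C.k) ^ m.1 * (⟨C.x, hxk⟩ : ↥C.k) ^ m.2) = _
      rw [map_mul, map_zpow₀, map_zpow₀]
      rfl
    rw [h]
    exact C.int_mono_li
  have h2 := linearIndependent_smul h1 C.e_li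
  have h3 := h2.comp (fun m : ℤ × ℤ × (Bool × Bool × Bool) => ((m.1, m.2.1), m.2.2)) (by
    intro a b h
    simp only [Prod.mk.injEq] at h
    exact Prod.ext h.1.1 (Prod.ext h.1.2 h.2))
  have h4 : (fun m : ℤ × ℤ × (Bool × Bool × Bool) => C.t ^ m.1 * C.x ^ m.2.1 * C.e m.2.2) =
      (fun p : (ℤ × ℤ) × (Bool × Bool × Bool) =>
        ((⟨C.t, htk⟩ : ↥C.k) ^ p.1.1 * (⟨C.x, hxk⟩ : ↥C.k) ^ p.1.2) • C.e p.2) ∘
      (fun m : ℤ × ℤ × (Bool × Bool × Bool) => ((m.1, m.2.1), m.2.2)) := by
    funext m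
    show _ = C.k.val ((⟨C.t, htk⟩ : ↥C.k) ^ m.1 * (⟨C.x, hxk⟩ : ↥C.k) ^ m.2.1) * C.e m.2.2
    rw [map_mul, map_zpow₀, map_zpow₀]
    rfl
  rw [h4]
  exact h3

/-- The polynomial ring `ℂ[t, x]`. -/
abbrev Pol : Subalgebra ℂ F := Algebra.adjoin ℂ {C.t, C.x}

/-- A subalgebra generated by `S` is contained in a submodule `M` containing `1` and stable
under multiplication by the elements of `S`. -/
theorem adjoin_le_of_stable {R A : Type*} [CommSemiring R] [Semiring A] [Algebra R A]
    (S : Set A) (M : Submodule R A) (h1 : (1 : A) ∈ M) (hS : ∀ g ∈ S, ∀ m ∈ M, g * m ∈ M) :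
    ∀ b ∈ Algebra.adjoin R S, b ∈ M := by
  have key : ∀ b ∈ Algebra.adjoin R S, ∀ m ∈ M, b * m ∈ M := by
    intro b hb
    induction hb using Algebra.adjoin_induction with
    | mem x hx => exact hS x hx
    | algebraMap r => intro m hm; rw [← Algebra.smul_def]; exact M.smul_mem r hm
    | add x y _ _ hx hy => intro m hm; rw [add_mul]; exact M.add_mem (hx m hm) (hy m hm)
    | mul x y _ _ hx hy => intro m hm; rw [mul_assoc]; exact hx _ (hy m hm)
  intro b hb
  have := key b hb 1 h1
  rwa [mul_one] at this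

theorem B00_eq : C.B false false = Algebra.adjoin ℂ {C.t, C.s, C.x, C.p, C.q} := by
  unfold B OC OF
  rw [← Algebra.adjoin_union]
  congr 1
  simp only [T, S, Xc, P, Q, coord, Bool.false_eq_true, if_false]
  ext y
  simp only [Set.mem_union, Set.mem_insert_iff, Set.mem_singleton_iff]
  tauto

/-- `B₀₀` is spanned by the eight elements `e y` over `ℂ[t, x]`. -/
theorem B00_span (v : F) (hv : v ∈ C.B false false) :
    v ∈ Submodule.span ↥C.Pol (Set.range C.e) := by
  rw [B00_eq] at hv
  have htP : C.t ∈ C.Pol := Algebra.subset_adjoin (by simp)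
  have hxP : C.x ∈ C.Pol := Algebra.subset_adjoin (by simp)
  have hsm : ∀ c ∈ C.Pol, ∀ m ∈ Submodule.span ↥C.Pol (Set.range C.e),
      c * m ∈ Submodule.span ↥C.Pol (Set.range C.e) := by
    intro c hc m hm
    exact Submodule.smul_mem _ (⟨c, hc⟩ : ↥C.Pol) hm
  have he : ∀ y, C.e y ∈ Submodule.span ↥C.Pol (Set.range C.e) := fun y =>
    Submodule.subset_span ⟨y, rfl⟩
  have hgen : ∀ g : F, (∀ y, g * C.e y ∈ Submodule.span ↥C.Pol (Set.range C.e)) →
      ∀ m ∈ Submodule.span ↥C.Pol (Set.range C.e),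
        g * m ∈ Submodule.span ↥C.Pol (Set.range C.e) := by
    intro g hg m hm
    induction hm using Submodule.span_induction with
    | mem x hx => obtain ⟨y, rfl⟩ := hx; exact hg y
    | zero => simp
    | add x y _ _ hx hy => rw [mul_add]; exact add_mem hx hy
    | smul c x _ hx => rw [mul_smul_comm]; exact Submodule.smul_mem _ _ hx
  have hf : C.s ^ 2 ∈ C.Pol := by
    rw [C.hs]
    have h2 : (2 : F) ∈ C.Pol := by
      have := C.Pol.algebraMap_mem 2
      simpa using this
    exact add_mem (add_mem (add_mem (add_mem (sub_mem (pow_mem htP 6)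
      (mul_mem h2 (pow_mem htP 5))) (pow_mem htP 4)) (mul_mem h2 (pow_mem htP 3)))
      (mul_mem h2 (pow_mem htP 2))) (one_mem _)
  have hp2 : C.p ^ 2 ∈ C.Pol := by rw [C.hp]; exact add_mem (pow_mem hxP 2) (one_mem _)
  have hq2 : C.q ^ 2 ∈ C.Pol := by rw [C.hq]; exact sub_mem (pow_mem hxP 2) (one_mem _)
  refine adjoin_le_of_stable {C.t, C.s, C.x, C.p, C.q}
    ((Submodule.span ↥C.Pol (Set.range C.e)).restrictScalars ℂ) ?_ ?_ v hv
  · have := he (false, false, false)
    simpa [e] using this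
  · intro g hg m hm
    rcases hg with rfl | rfl | rfl | rfl | rfl
    · exact hsm _ htP m hm
    · refine hgen _ (fun y => ?_) m hm
      rcases y with ⟨a, b, c⟩
      cases a
      · have h1 : C.s * C.e (false, b, c) = C.e (true, b, c) := by simp only [e, if_true, Bool.false_eq_true, if_false]; ring
        rw [h1]; exact he _
      · have h1 : C.s * C.e (true, b, c) = C.s ^ 2 * C.e (false, b, c) := by
          simp only [e, if_true, Bool.false_eq_true, if_false]; ring
        rw [h1]; exact hsm _ hf _ (he _)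
    · exact hsm _ hxP m hm
    · refine hgen _ (fun y => ?_) m hm
      rcases y with ⟨a, b, c⟩
      cases b
      · have h1 : C.p * C.e (a, false, c) = C.e (a, true, c) := by simp only [e, if_true, Bool.false_eq_true, if_false]; ring
        rw [h1]; exact he _
      · have h1 : C.p * C.e (a, true, c) = C.p ^ 2 * C.e (a, false, c) := by
          simp only [e, if_true, Bool.false_eq_true, if_false]; ring
        rw [h1]; exact hsm _ hp2 _ (he _)
    · refine hgen _ (fun y => ?_) m hm
      rcases y with ⟨a, b, c⟩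
      cases c
      · have h1 : C.q * C.e (a, b, false) = C.e (a, b, true) := by simp only [e, if_true, Bool.false_eq_true, if_false]; ring
        rw [h1]; exact he _
      · have h1 : C.q * C.e (a, b, true) = C.q ^ 2 * C.e (a, b, false) := by
          simp only [e, if_true, Bool.false_eq_true, if_false]; ring
        rw [h1]; exact hsm _ hq2 _ (he _)

theorem B00_expand (v : F) (hv : v ∈ C.B false false) :
    ∃ a : Bool × Bool × Bool → F, (∀ y, a y ∈ C.Pol) ∧ v = ∑ y, a y * C.e y := by
  have := C.B00_span v hv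
  rw [Submodule.mem_span_range_iff_exists_fun] at this
  obtain ⟨c, hc⟩ := this
  exact ⟨fun y => c y, fun y => (c y).2, hc.symm⟩

theorem quad_step (S : Set F) (g : F) (hg : g ^ 2 ∈ Algebra.adjoin ℂ S) (b : F)
    (hb : b ∈ Algebra.adjoin ℂ (insert g S)) :
    ∃ b0 ∈ Algebra.adjoin ℂ S, ∃ b1 ∈ Algebra.adjoin ℂ S, b = b0 + b1 * g := by
  let M : Submodule ℂ F :=
    { carrier := {b | ∃ b0 ∈ Algebra.adjoin ℂ S, ∃ b1 ∈ Algebra.adjoin ℂ S, b = b0 + b1 * g}
      zero_mem' := ⟨0, zero_mem _, 0, zero_mem _, by ring⟩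
      add_mem' := by
        rintro _ _ ⟨a0, ha0, a1, ha1, rfl⟩ ⟨b0, hb0, b1, hb1, rfl⟩
        exact ⟨a0 + b0, add_mem ha0 hb0, a1 + b1, add_mem ha1 hb1, by ring⟩
      smul_mem' := by
        rintro c _ ⟨a0, ha0, a1, ha1, rfl⟩
        exact ⟨c • a0, Subalgebra.smul_mem _ ha0 c, c • a1, Subalgebra.smul_mem _ ha1 c, by
          rw [smul_add, smul_mul_assoc]⟩ }
  refine adjoin_le_of_stable (insert g S) M ⟨1, one_mem _, 0, zero_mem _, by ring⟩ ?_ b hb
  rintro h hh _ ⟨a0, ha0, a1, ha1, rfl⟩
  rcases hh with rfl | hh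
  · exact ⟨a1 * h ^ 2, mul_mem ha1 hg, a0, ha0, by ring⟩
  · have hh' := Algebra.subset_adjoin (R := ℂ) hh
    exact ⟨h * a0, mul_mem hh' ha0, h * a1, mul_mem hh' ha1, by ring⟩

theorem norm_step (S : Set F) (g : F) (hg : g ^ 2 ∈ Algebra.adjoin ℂ S) (σ : F ≃ₐ[ℂ] F)
    (hσ : ∀ y ∈ S, σ y = y) (hσg : σ g = -g) (b : F) (hb0 : b ≠ 0)
    (hb : b ∈ Algebra.adjoin ℂ (insert g S)) :
    σ b ∈ Algebra.adjoin ℂ (insert g S) ∧ b * σ b ∈ Algebra.adjoin ℂ S ∧ b * σ b ≠ 0 := by
  obtain ⟨b0, hb0', b1, hb1', rfl⟩ := quad_step S g hg b hb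
  have hfix : ∀ y ∈ Algebra.adjoin ℂ S, σ y = y := by
    intro y hy
    induction hy using Algebra.adjoin_induction with
    | mem x hx => exact hσ x hx
    | algebraMap r => simp
    | add x y _ _ hx hy => rw [map_add, hx, hy]
    | mul x y _ _ hx hy => rw [map_mul, hx, hy]
  have h1 : σ (b0 + b1 * g) = b0 - b1 * g := by
    rw [map_add, map_mul, hfix _ hb0', hfix _ hb1', hσg]; ring
  have hle : Algebra.adjoin ℂ S ≤ Algebra.adjoin ℂ (insert g S) :=
    Algebra.adjoin_mono (Set.subset_insert _ _)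
  have hgm : g ∈ Algebra.adjoin ℂ (insert g S) := Algebra.subset_adjoin (Set.mem_insert _ _)
  refine ⟨?_, ?_, ?_⟩
  · rw [h1]
    exact sub_mem (hle hb0') (mul_mem (hle hb1') hgm)
  · rw [h1]
    have : (b0 + b1 * g) * (b0 - b1 * g) = b0 ^ 2 - b1 ^ 2 * g ^ 2 := by ring
    rw [this]
    exact sub_mem (pow_mem hb0' 2) (mul_mem (pow_mem hb1' 2) hg)
  · exact mul_ne_zero hb0 (fun h => hb0 ((map_eq_zero_iff σ σ.injective).mp h))

theorem sq_mem_t : C.s ^ 2 ∈ Algebra.adjoin ℂ {C.t} := by
  have htP : C.t ∈ Algebra.adjoin ℂ {C.t} := Algebra.subset_adjoin (by simp)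
  rw [C.hs]
  have h2 : (2 : F) ∈ Algebra.adjoin ℂ {C.t} := by
    have := (Algebra.adjoin ℂ {C.t}).algebraMap_mem 2
    simpa using this
  exact add_mem (add_mem (add_mem (add_mem (sub_mem (pow_mem htP 6)
    (mul_mem h2 (pow_mem htP 5))) (pow_mem htP 4)) (mul_mem h2 (pow_mem htP 3)))
    (mul_mem h2 (pow_mem htP 2))) (one_mem _)

theorem sq_mem_xp : C.p ^ 2 ∈ Algebra.adjoin ℂ {C.x} := by
  have hxP : C.x ∈ Algebra.adjoin ℂ {C.x} := Algebra.subset_adjoin (by simp)
  rw [C.hp]; exact add_mem (pow_mem hxP 2) (one_mem _)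

theorem sq_mem_xq : C.q ^ 2 ∈ Algebra.adjoin ℂ {C.x} := by
  have hxP : C.x ∈ Algebra.adjoin ℂ {C.x} := Algebra.subset_adjoin (by simp)
  rw [C.hq]; exact sub_mem (pow_mem hxP 2) (one_mem _)

theorem exists_norm (b : F) (hb0 : b ≠ 0) (hb : b ∈ C.B false false) :
    ∃ b' ∈ C.B false false, b * b' ∈ C.Pol ∧ b * b' ≠ 0 := by
  have hB : C.B false false = Algebra.adjoin ℂ (insert C.s {C.p, C.q, C.t, C.x}) := by
    rw [B00_eq]; congr 1
    ext y
    simp only [Set.mem_insert_iff, Set.mem_singleton_iff]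
    tauto
  have hle1 : Algebra.adjoin ℂ {C.p, C.q, C.t, C.x} ≤ C.B false false := by
    rw [hB]; exact Algebra.adjoin_mono (Set.subset_insert _ _)
  have hle2 : Algebra.adjoin ℂ {C.q, C.t, C.x} ≤ C.B false false :=
    le_trans (Algebra.adjoin_mono (Set.subset_insert _ _)) hle1
  rw [hB] at hb
  obtain ⟨h1, h2, h3⟩ := norm_step {C.p, C.q, C.t, C.x} C.s
    (Algebra.adjoin_mono (by simp) C.sq_mem_t) C.σs
    (by rintro y (rfl | rfl | rfl | rfl); exacts [C.σs_p, C.σs_q, C.σs_t, C.σs_x])
    C.σs_s b hb0 hb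
  rw [← hB] at h1
  obtain ⟨h4, h5, h6⟩ := norm_step {C.q, C.t, C.x} C.p
    (Algebra.adjoin_mono (by simp) C.sq_mem_xp) C.σp
    (by rintro y (rfl | rfl | rfl); exacts [C.σp_q, C.σp_t, C.σp_x])
    C.σp_p _ h3 h2
  obtain ⟨h7, h8, h9⟩ := norm_step {C.t, C.x} C.q
    (Algebra.adjoin_mono (by simp) C.sq_mem_xq) C.σq
    (by rintro y (rfl | rfl); exacts [C.σq_t, C.σq_x])
    C.σq_q _ h6 h5
  refine ⟨C.σs b * C.σp (b * C.σs b) * C.σq (b * C.σs b * C.σp (b * C.σs b)),
    mul_mem (mul_mem h1 (hle1 h4)) (hle2 h7), ?_, ?_⟩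
  · have : b * (C.σs b * C.σp (b * C.σs b) * C.σq (b * C.σs b * C.σp (b * C.σs b))) =
      b * C.σs b * C.σp (b * C.σs b) * C.σq (b * C.σs b * C.σp (b * C.σs b)) := by ring
    rw [this]; exact h8
  · have : b * (C.σs b * C.σp (b * C.σs b) * C.σq (b * C.σs b * C.σp (b * C.σs b))) =
      b * C.σs b * C.σp (b * C.σs b) * C.σq (b * C.σs b * C.σp (b * C.σs b)) := by ring
    rw [this]; exact h9

theorem exists_denom (y : F) :
    ∃ d ∈ Algebra.adjoin ℂ {C.t, C.x}, d ≠ 0 ∧ d * y ∈ C.B false false := by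
  have hy : y ∈ IntermediateField.adjoin ℂ {C.t, C.x, C.s, C.p, C.q} := by
    rw [C.gen]; trivial
  rw [IntermediateField.mem_adjoin_iff_div] at hy
  obtain ⟨r, hr, d, hd, rfl⟩ := hy
  have hB : C.B false false = Algebra.adjoin ℂ {C.t, C.x, C.s, C.p, C.q} := by
    rw [B00_eq]; congr 1
    ext y
    simp only [Set.mem_insert_iff, Set.mem_singleton_iff]
    tauto
  rw [← hB] at hr hd
  by_cases hd0 : d = 0
  · exact ⟨1, one_mem _, one_ne_zero, by rw [hd0]; simp⟩
  · obtain ⟨b', hb', h1, h2⟩ := C.exists_norm d hd0 hd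
    refine ⟨d * b', h1, h2, ?_⟩
    have : d * b' * (r / d) = b' * r := by field_simp
    rw [this]
    exact mul_mem hb' hr

/-- Every element of `F` is a combination of the eight elements `e y` over `ℂ(t, x)`. -/
theorem F_expand (v : F) : ∃ a : Bool × Bool × Bool → ↥C.k, v = ∑ y, (a y : F) * C.e y := by
  obtain ⟨d, hd, hd0, h⟩ := C.exists_denom v
  obtain ⟨a, ha, h1⟩ := C.B00_expand _ h
  have hle : ∀ z ∈ C.Pol, z ∈ C.k := fun z hz =>
    IntermediateField.algebra_adjoin_le_adjoin ℂ _ hz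
  refine ⟨fun y => ⟨d⁻¹ * a y, mul_mem (inv_mem (hle d hd)) (hle _ (ha y))⟩, ?_⟩
  have h2 : v = d⁻¹ * (d * v) := by field_simp
  rw [h2, h1, Finset.mul_sum]
  exact Finset.sum_congr rfl fun y _ => by ring

/-! ### linear disjointness -/

/-- basis elements of `OC false` -/
def mC (m : ℕ × Bool) : F := C.t ^ m.1 * (if m.2 then C.s else 1)
/-- basis elements of `OF false` -/
def mF (m : ℕ × Bool × Bool) : F :=
  C.x ^ m.1 * ((if m.2.1 then C.p else 1) * (if m.2.2 then C.q else 1))

theorem mC_mF_li : LinearIndependent ℂ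
    (fun m : (ℕ × Bool) × (ℕ × Bool × Bool) => C.mC m.1 * C.mF m.2) := by
  have h := C.mono_li.comp (fun m : (ℕ × Bool) × (ℕ × Bool × Bool) =>
    ((m.1.1 : ℤ), (m.2.1 : ℤ), (m.1.2, m.2.2.1, m.2.2.2))) (by
      intro a b h
      simp only [Prod.mk.injEq, Nat.cast_inj] at h
      obtain ⟨h1, h2, h3, h4, h5⟩ := h
      exact Prod.ext (Prod.ext h1 h3) (Prod.ext h2 (Prod.ext h4 h5)))
  have h2 : (fun m : (ℕ × Bool) × (ℕ × Bool × Bool) => C.mC m.1 * C.mF m.2) =
    (fun m : ℤ × ℤ × (Bool × Bool × Bool) => C.t ^ m.1 * C.x ^ m.2.1 * C.e m.2.2) ∘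
    (fun m : (ℕ × Bool) × (ℕ × Bool × Bool) =>
    ((m.1.1 : ℤ), (m.2.1 : ℤ), (m.1.2, m.2.2.1, m.2.2.2))) := by
    funext m
    simp only [mC, mF, e, Function.comp, zpow_natCast]
    ring
  rw [h2]
  exact h

theorem mC_li : LinearIndependent ℂ C.mC := by
  have h := C.mC_mF_li.comp (fun m : ℕ × Bool => (m, ((0, false, false) : ℕ × Bool × Bool)))
    (fun a b h => (Prod.mk.inj h).1)
  have h2 : C.mC = (fun m : (ℕ × Bool) × (ℕ × Bool × Bool) => C.mC m.1 * C.mF m.2) ∘
      (fun m : ℕ × Bool => (m, ((0, false, false) : ℕ × Bool × Bool))) := by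
    funext m; simp [mF]
  rw [h2]; exact h

theorem mF_li : LinearIndependent ℂ C.mF := by
  have h := C.mC_mF_li.comp (fun m : ℕ × Bool × Bool => (((0, false) : ℕ × Bool), m))
    (fun a b h => (Prod.mk.inj h).2)
  have h2 : C.mF = (fun m : (ℕ × Bool) × (ℕ × Bool × Bool) => C.mC m.1 * C.mF m.2) ∘
      (fun m : ℕ × Bool × Bool => (((0, false) : ℕ × Bool), m)) := by
    funext m; simp [mC]
  rw [h2]; exact h

theorem pow_span {g : F} {M : Submodule ℂ F} {P : Polynomial ℂ} (f : F)
    (h : ∀ n : ℕ, g ^ n * f ∈ M) : Polynomial.aeval g P * f ∈ M := by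
  induction P using Polynomial.induction_on' with
  | add p q hp hq => rw [map_add, add_mul]; exact add_mem hp hq
  | monomial n a =>
    rw [Polynomial.aeval_monomial, mul_assoc, ← Algebra.smul_def]
    exact M.smul_mem a (h n)

theorem bas_OC_false_eq : C.OC false = Algebra.adjoin ℂ {C.t, C.s} := by
  simp [OC, T, S, coord]

theorem OF_false_eq : C.OF false = Algebra.adjoin ℂ {C.x, C.p, C.q} := by
  simp [OF, Xc, P, Q, coord]

theorem mem_OC_false (v : F) : v ∈ C.OC false ↔ v ∈ Submodule.span ℂ (Set.range C.mC) := by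
  constructor
  · intro hv
    rw [bas_OC_false_eq] at hv
    refine adjoin_le_of_stable {C.t, C.s} _ ?_ ?_ v hv
    · exact Submodule.subset_span ⟨(0, false), by simp [mC]⟩
    · intro g hg m hm
      induction hm using Submodule.span_induction with
      | zero => simp
      | add x y _ _ hx hy => rw [mul_add]; exact add_mem hx hy
      | smul c x _ hx => rw [mul_smul_comm]; exact Submodule.smul_mem _ _ hx
      | mem x hx =>
        obtain ⟨⟨n, a⟩, rfl⟩ := hx
        rcases hg with rfl | rfl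
        · exact Submodule.subset_span ⟨(n + 1, a), by simp only [mC]; ring⟩
        · cases a
          · exact Submodule.subset_span ⟨(n, true), by simp [mC]; ring⟩
          · have h1 := C.hs
            have : C.s * C.mC (n, true) = C.t ^ (n + 6) - 2 * C.t ^ (n + 5) + C.t ^ (n + 4) +
                2 * C.t ^ (n + 3) + 2 * C.t ^ (n + 2) + C.t ^ n := by
              simp only [mC, if_true]
              linear_combination C.t ^ n * h1
            rw [this]
            have hm : ∀ m : ℕ, C.t ^ m ∈ Submodule.span ℂ (Set.range C.mC) := fun m =>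
              Submodule.subset_span ⟨(m, false), by simp [mC]⟩
            have hm2 : ∀ m : ℕ, 2 * C.t ^ m ∈ Submodule.span ℂ (Set.range C.mC) := fun m => by
              rw [two_mul]; exact add_mem (hm m) (hm m)
            exact add_mem (add_mem (add_mem (add_mem (sub_mem (hm _) (hm2 _)) (hm _)) (hm2 _))
              (hm2 _)) (hm _)
  · intro hv
    have : Submodule.span ℂ (Set.range C.mC) ≤ sm (C.OC false) := by
      rw [Submodule.span_le]
      rintro _ ⟨⟨n, a⟩, rfl⟩
      have ht : C.t ∈ C.OC false := by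
        rw [bas_OC_false_eq]; exact Algebra.subset_adjoin (by simp)
      have hs : C.s ∈ C.OC false := by
        rw [bas_OC_false_eq]; exact Algebra.subset_adjoin (by simp)
      show C.mC (n, a) ∈ C.OC false
      cases a
      · simpa [mC] using pow_mem ht n
      · simpa [mC] using mul_mem (pow_mem ht n) hs
    exact this hv

theorem mem_OF_false (v : F) : v ∈ C.OF false ↔ v ∈ Submodule.span ℂ (Set.range C.mF) := by
  constructor
  · intro hv
    rw [OF_false_eq] at hv
    refine adjoin_le_of_stable {C.x, C.p, C.q} _ ?_ ?_ v hv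
    · exact Submodule.subset_span ⟨(0, false, false), by simp [mF]⟩
    · intro g hg m hm
      induction hm using Submodule.span_induction with
      | zero => simp
      | add x y _ _ hx hy => rw [mul_add]; exact add_mem hx hy
      | smul c x _ hx => rw [mul_smul_comm]; exact Submodule.smul_mem _ _ hx
      | mem x hx =>
        obtain ⟨⟨n, a, b⟩, rfl⟩ := hx
        rcases hg with rfl | rfl | rfl
        · exact Submodule.subset_span ⟨(n + 1, a, b), by simp only [mF]; ring⟩
        · cases a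
          · exact Submodule.subset_span ⟨(n, true, b), by simp [mF]; ring⟩
          · have h1 := C.hp
            have : C.p * C.mF (n, true, b) = C.mF (n + 2, false, b) + C.mF (n, false, b) := by
              simp only [mF, if_true, Bool.false_eq_true, if_false]
              linear_combination C.x ^ n * (if b then C.q else 1) * h1
            rw [this]
            exact add_mem (Submodule.subset_span ⟨_, rfl⟩) (Submodule.subset_span ⟨_, rfl⟩)
        · cases b
          · exact Submodule.subset_span ⟨(n, a, true), by simp [mF]; ring⟩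
          · have h1 := C.hq
            have : C.q * C.mF (n, a, true) = C.mF (n + 2, a, false) - C.mF (n, a, false) := by
              simp only [mF, if_true, Bool.false_eq_true, if_false]
              linear_combination C.x ^ n * (if a then C.p else 1) * h1
            rw [this]
            exact sub_mem (Submodule.subset_span ⟨_, rfl⟩) (Submodule.subset_span ⟨_, rfl⟩)
  · intro hv
    have : Submodule.span ℂ (Set.range C.mF) ≤ sm (C.OF false) := by
      rw [Submodule.span_le]
      rintro _ ⟨⟨n, a, b⟩, rfl⟩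
      have hx : C.x ∈ C.OF false := by
        rw [OF_false_eq]; exact Algebra.subset_adjoin (by simp)
      have hp : C.p ∈ C.OF false := by
        rw [OF_false_eq]; exact Algebra.subset_adjoin (by simp)
      have hq : C.q ∈ C.OF false := by
        rw [OF_false_eq]; exact Algebra.subset_adjoin (by simp)
      show C.mF (n, a, b) ∈ C.OF false
      refine mul_mem (pow_mem hx n) (mul_mem ?_ ?_)
      · show (if a then C.p else 1) ∈ _
        split_ifs
        exacts [hp, one_mem _]
      · show (if b then C.q else 1) ∈ _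
        split_ifs
        exacts [hq, one_mem _]
    exact this hv

theorem linDisj : (C.OC false).LinearDisjoint (C.OF false) := by
  have hC : Submodule.span ℂ (Set.range C.mC) = sm (C.OC false) := by
    ext v; exact (C.mem_OC_false v).symm
  have hF : Submodule.span ℂ (Set.range C.mF) = sm (C.OF false) := by
    ext v; exact (C.mem_OF_false v).symm
  let a : Module.Basis (ℕ × Bool) ℂ ↥(C.OC false) :=
    (Module.Basis.span C.mC_li).map (LinearEquiv.ofEq _ _ hC)
  let b : Module.Basis (ℕ × Bool × Bool) ℂ ↥(C.OF false) :=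
    (Module.Basis.span C.mF_li).map (LinearEquiv.ofEq _ _ hF)
  refine Subalgebra.LinearDisjoint.of_basis_mul _ _ a b ?_
  have ha : ∀ i, (a i : F) = C.mC i := fun i => by
    show ((Module.Basis.span C.mC_li i : _) : F) = _
    rw [Module.Basis.span_apply]
  have hb : ∀ i, (b i : F) = C.mF i := fun i => by
    show ((Module.Basis.span C.mF_li i : _) : F) = _
    rw [Module.Basis.span_apply]
  simp only [ha, hb]
  exact C.mC_mF_li

theorem exists_den_C {κ : Type} (c : κ → F) (s : Finset κ) (hc : ∀ k, c k ∈ C.KC) :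
    ∃ u ∈ C.OC false, u ≠ 0 ∧ ∀ k ∈ s, u * c k ∈ C.OC false := by
  classical
  induction s using Finset.induction_on with
  | empty => exact ⟨1, one_mem _, one_ne_zero, by simp⟩
  | insert k s hk ih =>
    obtain ⟨u, hu, hu0, h⟩ := ih
    have h1 := hc k
    unfold KC at h1
    rw [IntermediateField.mem_adjoin_iff_div] at h1
    obtain ⟨r, hr, d, hd, h2⟩ := h1
    rw [← bas_OC_false_eq] at hr hd
    by_cases hd0 : d = 0
    · refine ⟨u, hu, hu0, fun l hl => ?_⟩
      rw [Finset.mem_insert] at hl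
      rcases hl with rfl | hl
      · rw [h2, hd0]; simp
      · exact h l hl
    · refine ⟨u * d, mul_mem hu hd, mul_ne_zero hu0 hd0, fun l hl => ?_⟩
      rw [Finset.mem_insert] at hl
      rcases hl with rfl | hl
      · rw [h2]
        have : u * d * (r / d) = u * r := by field_simp
        rw [this]; exact mul_mem hu hr
      · have : u * d * c l = d * (u * c l) := by ring
        rw [this]; exact mul_mem hd (h l hl)

theorem exists_den_F {κ : Type} (c : κ → F) (s : Finset κ) (hc : ∀ k, c k ∈ C.KF) :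
    ∃ u ∈ C.OF false, u ≠ 0 ∧ ∀ k ∈ s, u * c k ∈ C.OF false := by
  classical
  induction s using Finset.induction_on with
  | empty => exact ⟨1, one_mem _, one_ne_zero, by simp⟩
  | insert k s hk ih =>
    obtain ⟨u, hu, hu0, h⟩ := ih
    have h1 := hc k
    unfold KF at h1
    rw [IntermediateField.mem_adjoin_iff_div] at h1
    obtain ⟨r, hr, d, hd, h2⟩ := h1
    rw [← OF_false_eq] at hr hd
    by_cases hd0 : d = 0
    · refine ⟨u, hu, hu0, fun l hl => ?_⟩
      rw [Finset.mem_insert] at hl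
      rcases hl with rfl | hl
      · rw [h2, hd0]; simp
      · exact h l hl
    · refine ⟨u * d, mul_mem hu hd, mul_ne_zero hu0 hd0, fun l hl => ?_⟩
      rw [Finset.mem_insert] at hl
      rcases hl with rfl | hl
      · rw [h2]
        have : u * d * (r / d) = u * r := by field_simp
        rw [this]; exact mul_mem hu hr
      · have : u * d * c l = d * (u * c l) := by ring
        rw [this]; exact mul_mem hd (h l hl)

/-- Linear disjointness of the function fields of `C` and `F₀`. -/
theorem LD {κ : Type} (c d : κ → F) (s : Finset κ) (hc : ∀ k, c k ∈ C.KC)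
    (hli : LinearIndependent ℂ c) (hd : ∀ k, d k ∈ C.KF) (h : ∑ k ∈ s, c k * d k = 0) :
    ∀ k ∈ s, d k = 0 := by
  obtain ⟨u, hu, hu0, h1⟩ := C.exists_den_C c s hc
  obtain ⟨w, hw, hw0, h2⟩ := C.exists_den_F d s hd
  have h3 : LinearIndependent ℂ (fun k : s => (⟨u * c k, h1 k k.2⟩ : ↥(C.OC false))) := by
    apply LinearIndependent.of_comp (C.OC false).val.toLinearMap
    have h4 : LinearIndependent ℂ (fun k : s => c k) := hli.comp _ Subtype.val_injective
    exact h4.map' (LinearMap.mulLeft ℂ u) (by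
      rw [LinearMap.ker_eq_bot]
      intro a b hab
      exact mul_left_cancel₀ hu0 hab)
  have h5 := C.linDisj.linearIndependent_left_of_flat h3
  rw [Fintype.linearIndependent_iff] at h5
  intro k hk
  have h6 := h5 (fun k => ⟨w * d k, h2 k k.2⟩) (by
    show ∑ k : s, (w * d k) * (u * c k) = 0
    have : ∀ k : κ, (w * d k) * (u * c k) = (w * u) * (c k * d k) := fun k => by ring
    simp only [this]
    rw [Finset.sum_coe_sort s (fun k => w * u * (c k * d k)), ← Finset.mul_sum, h, mul_zero])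
    ⟨k, hk⟩
  have h7 : w * d k = 0 := congrArg Subtype.val h6
  exact (mul_eq_zero.mp h7).resolve_left hw0

theorem ιι (y : F) : C.ι (C.ι y) = y := by
  have : (⊤ : IntermediateField ℂ F) ≤ fixF (C.ι.trans C.ι) := by
    rw [← C.gen, IntermediateField.adjoin_le_iff]
    intro y hy
    simp only [Set.mem_insert_iff, Set.mem_singleton_iff] at hy
    show C.ι (C.ι y) = y
    rcases hy with rfl | rfl | rfl | rfl | rfl <;> simp
  exact this (x := y) trivial

theorem finrank_FK : Module.finrank ↥C.K F = 2 := by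
  have := C.cz
  have hs := C.s_ne
  have hli : LinearIndependent ↥C.K ![(1 : F), C.s] := by
    rw [LinearIndependent.pair_iff]
    intro a b hab
    have ha : C.ι (a : F) = a := a.2
    have hb : C.ι (b : F) = b := b.2
    have h0 : (a : F) * 1 + (b : F) * C.s = 0 := hab
    have h1 := congrArg C.ι h0
    simp only [map_add, map_mul, map_one, map_zero, ha, hb, ι_s] at h1
    constructor
    · apply Subtype.ext
      show (a : F) = 0
      linear_combination (1 / 2) * h0 + (1 / 2) * h1
    · apply Subtype.ext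
      show (b : F) = 0
      have : (b : F) * C.s = 0 := by linear_combination (1 / 2) * h0 - (1 / 2) * h1
      exact (mul_eq_zero.mp this).resolve_right hs
  have hι := C.ιι
  have hsp : ⊤ ≤ Submodule.span ↥C.K (Set.range ![(1 : F), C.s]) := by
    intro y _
    have h1 : (y + C.ι y) / 2 ∈ C.K := by
      rw [mem_K, map_div₀, map_add, hι, map_ofNat, add_comm]
    have h2 : (y - C.ι y) / (2 * C.s) ∈ C.K := by
      rw [mem_K, map_div₀, map_sub, hι, map_mul, ι_s, map_ofNat]; field_simp; ring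
    have h3 : y = (⟨_, h1⟩ : ↥C.K) • (1 : F) + (⟨_, h2⟩ : ↥C.K) • C.s := by
      show y = (y + C.ι y) / 2 * 1 + (y - C.ι y) / (2 * C.s) * C.s
      field_simp
      ring
    rw [h3]
    refine add_mem (Submodule.smul_mem _ _ (Submodule.subset_span ⟨0, rfl⟩))
      (Submodule.smul_mem _ _ (Submodule.subset_span ⟨1, rfl⟩))
  have b := Module.Basis.mk hli hsp
  rw [Module.finrank_eq_card_basis b, Fintype.card_fin]

theorem indepK : AlgebraicIndependent ℂ ![C.tK, C.xK] := by
  have h := (AlgHom.algebraicIndependent_iff (x := ![C.tK, C.xK]) C.K.val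
    C.K.val.injective).mp
  apply h
  convert C.indep using 1
  funext i
  fin_cases i <;> rfl

theorem finK : FiniteDimensional (IntermediateField.adjoin ℂ {C.tK, C.xK}) ↥C.K := by
  classical
  set k' := IntermediateField.adjoin ℂ {C.tK, C.xK} with hk'
  have hmap : k'.map C.K.val = C.k := by
    rw [hk', IntermediateField.adjoin_map]
    congr 1
    simp [Set.image_pair, tK, xK]
  have hlift : ∀ c ∈ C.k, ∃ c' : ↥k', ((c' : ↥C.K) : F) = c := by
    intro c hc
    rw [← hmap] at hc
    obtain ⟨c', hc', h⟩ := hc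
    exact ⟨⟨c', hc'⟩, h⟩
  have hfin : Module.Finite ↥k' F := by
    refine ⟨⟨Finset.univ.image C.e, ?_⟩⟩
    rw [eq_top_iff]
    intro v _
    obtain ⟨a, ha⟩ := C.F_expand v
    rw [ha]
    refine Submodule.sum_mem _ fun y _ => ?_
    obtain ⟨c', hc'⟩ := hlift (a y) (a y).2
    rw [← hc']
    exact Submodule.smul_mem _ c' (Submodule.subset_span (by simp))
  let f : ↥C.K →ₗ[↥k'] F :=
    { toFun := fun y => (y : F)
      map_add' := fun _ _ => rfl
      map_smul' := fun _ _ => rfl }
  exact FiniteDimensional.of_injective f Subtype.val_injective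

end Cfg

end

end Pool.Agent.EllMod
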