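import Pool.Agent.MP_77976d_ag.Defs

/-!
# The example : basic objects

`F` is the function field of `C × F₀`, where `C : s² = t⁶ - 2t⁵ + t⁴ + 2t³ + 2t² + 1` (genus two)
and `F₀ : p² = x² + 1, q² = x² - 1` (genus one); `ι` is the involution
`(t, x, s, p, q) ↦ (t, x, -s, -p, -q)` and `K = F^ι`.
-/

open scoped TensorProduct

namespace Pool.Agent.EllMod

noncomputable section

/-- The configuration `ℂ(t, x)(s, p, q)`. -/
structure Cfg (F : Type) [Field F] [Algebra ℂ F] where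
  t : F
  x : F
  s : F
  p : F
  q : F
  hs : s ^ 2 = t ^ 6 - 2 * t ^ 5 + t ^ 4 + 2 * t ^ 3 + 2 * t ^ 2 + 1
  hp : p ^ 2 = x ^ 2 + 1
  hq : q ^ 2 = x ^ 2 - 1
  indep : AlgebraicIndependent ℂ ![t, x]
  gen : IntermediateField.adjoin ℂ {t, x, s, p, q} = ⊤
  /-- sign change of `s` -/
  σs : F ≃ₐ[ℂ] F
  /-- sign change of `p` -/
  σp : F ≃ₐ[ℂ] F
  /-- sign change of `q` -/
  σq : F ≃ₐ[ℂ] F
  σs_t : σs t = t
  σs_x : σs x = x
  σs_s : σs s = -s
  σs_p : σs p = p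
  σs_q : σs q = q
  σp_t : σp t = t
  σp_x : σp x = x
  σp_s : σp s = s
  σp_p : σp p = -p
  σp_q : σp q = q
  σq_t : σq t = t
  σq_x : σq x = x
  σq_s : σq s = s
  σq_p : σq p = p
  σq_q : σq q = -q

variable {F : Type} [Field F] [Algebra ℂ F] (C : Cfg F)

namespace Cfg

/-- The involution `ι`. -/
def ι : F ≃ₐ[ℂ] F := C.σs.trans (C.σp.trans C.σq)

@[simp] theorem ι_t : C.ι C.t = C.t := by
  simp [ι, C.σs_t, C.σp_t, C.σq_t]
@[simp] theorem ι_x : C.ι C.x = C.x := by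
  simp [ι, C.σs_x, C.σp_x, C.σq_x]
@[simp] theorem ι_s : C.ι C.s = -C.s := by
  simp [ι, C.σs_s, C.σp_s, C.σq_s]
@[simp] theorem ι_p : C.ι C.p = -C.p := by
  simp [ι, C.σs_p, C.σp_p, C.σq_p]
@[simp] theorem ι_q : C.ι C.q = -C.q := by
  simp [ι, C.σs_q, C.σp_q, C.σq_q]

/-- The field `K = F^ι`. -/
def K : IntermediateField ℂ F where
  carrier := {y | C.ι y = y}
  mul_mem' := fun {a b} ha hb => by
    simp only [Set.mem_ofPred_eq, map_mul] at *; rw [ha, hb]
  add_mem' := fun {a b} ha hb => by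
    simp only [Set.mem_ofPred_eq, map_add] at *; rw [ha, hb]
  algebraMap_mem' := fun r => by simp
  inv_mem' := fun a ha => by
    simp only [Set.mem_ofPred_eq, map_inv₀] at *; rw [ha]

theorem mem_K {y : F} : y ∈ C.K ↔ C.ι y = y := Iff.rfl

/-- `√-1` -/
def i : F := algebraMap ℂ F Complex.I

/-- Coordinates of the curve `C`. -/
def T (a : Bool) : F := coord C.t a
/-- Coordinates of the curve `C`. -/
def S (a : Bool) : F := if a then C.s * (C.t⁻¹) ^ 3 else C.s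
/-- Coordinates of the curve `F₀`. -/
def Xc (b : Bool) : F := coord C.x b
/-- Coordinates of the curve `F₀`. -/
def P (b : Bool) : F := if b then C.p * C.x⁻¹ else C.p
/-- Coordinates of the curve `F₀`. -/
def Q (b : Bool) : F := if b then i * C.q * C.x⁻¹ else C.q

/-- Coordinate rings of the two charts of the curve `C`. -/
def OC (a : Bool) : Subalgebra ℂ F := Algebra.adjoin ℂ {C.T a, C.S a}
/-- Coordinate rings of the two charts of the curve `F₀`. -/
def OF (b : Bool) : Subalgebra ℂ F := Algebra.adjoin ℂ {C.Xc b, C.P b, C.Q b}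
/-- Coordinate ring of the intersection of the two charts of `C`. -/
def OCs : Subalgebra ℂ F := Algebra.adjoin ℂ {C.t, C.t⁻¹, C.s}
/-- Coordinate ring of the intersection of the two charts of `F₀`. -/
def OFs : Subalgebra ℂ F := Algebra.adjoin ℂ {C.x, C.x⁻¹, C.p, C.q}
/-- Function field of `C`. -/
def KC : IntermediateField ℂ F := IntermediateField.adjoin ℂ {C.t, C.s}
/-- Function field of `F₀`. -/
def KF : IntermediateField ℂ F := IntermediateField.adjoin ℂ {C.x, C.p, C.q}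

/-- Coordinate rings of the four charts of `C × F₀`. -/
def B (a b : Bool) : Subalgebra ℂ F := C.OC a ⊔ C.OF b

/-- The unit `g` of `OCs` with `g * ι g = -4`. -/
def g : F := ((1 - C.t ^ 2 + C.t ^ 3) + C.s) * C.t⁻¹

end Cfg

/-- A subalgebra as a subspace. -/
abbrev sm (A : Subalgebra ℂ F) : Submodule ℂ F := Subalgebra.toSubmodule A

/-- `y • P` for a subspace `P` of a field. -/
def sc (y : F) (P : Submodule ℂ F) : Submodule ℂ F := P.map (LinearMap.mulLeft ℂ y)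

theorem mem_sc {y : F} {P : Submodule ℂ F} {v : F} : v ∈ sc y P ↔ ∃ w ∈ P, y * w = v := by
  simp [sc]

namespace Cfg

/-- The line bundle `N` of degree zero on `C`. -/
def N (a : Bool) : Submodule ℂ F := sc (if a then C.g else 1) (sm (C.OC a))
/-- The square of `N`. -/
def N2 (a : Bool) : Submodule ℂ F :=
  sc (if a then C.g ^ 2 else 1) (sm (C.OC a))

/-- The rank two bundle `V` on `X`: the direct image of `N`. -/
def V : Lat F := fun a b => C.N a * sm (C.OF b)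

/-- `t` as an element of `K`. -/
def tK : ↥C.K := ⟨C.t, C.ι_t⟩
/-- `x` as an element of `K`. -/
def xK : ↥C.K := ⟨C.x, C.ι_x⟩

/-- The function `Y = p q`. -/
def Y : F := C.p * C.q

/-- The units `j_b` with `ι j_b = - j_b`. -/
def j (b : Bool) : F := C.P b + C.Q b

/-- Coordinate ring of the open set `t ≠ 0, ∞` of the `b`-th charts of `C × F₀`. -/
def BT (b : Bool) : Subalgebra ℂ F := C.OCs ⊔ C.OF b
/-- Coordinate ring of the open set `x ≠ 0, ∞` in the chart `t ≠ ∞` of `C × F₀`. -/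
def BX : Subalgebra ℂ F := C.OC false ⊔ C.OFs
/-- Coordinate ring of the open set `t, x ≠ 0, ∞` of `C × F₀`. -/
def BS : Subalgebra ℂ F := C.OCs ⊔ C.OFs
/-- Sections of `V` over `x ≠ 0, ∞` in the `a`-th charts. -/
def VX (a : Bool) : Submodule ℂ F := C.N a * sm C.OFs

/-- The eight elements `s^a p^b q^c`. -/
def e (y : Bool × Bool × Bool) : F :=
  (if y.1 then C.s else 1) * (if y.2.1 then C.p else 1) * (if y.2.2 then C.q else 1)

theorem t_mem : C.t ∈ C.B false false :=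
  (le_sup_left : C.OC false ≤ _) (Algebra.subset_adjoin (by simp [T, coord]))
theorem s_mem : C.s ∈ C.B false false :=
  (le_sup_left : C.OC false ≤ _) (Algebra.subset_adjoin (by simp [S]))
theorem x_mem : C.x ∈ C.B false false :=
  (le_sup_right : C.OF false ≤ _) (Algebra.subset_adjoin (by simp [Xc, coord]))
theorem p_mem : C.p ∈ C.B false false :=
  (le_sup_right : C.OF false ≤ _) (Algebra.subset_adjoin (by simp [P]))
theorem q_mem : C.q ∈ C.B false false :=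
  (le_sup_right : C.OF false ≤ _) (Algebra.subset_adjoin (by simp [Q]))

/-- The operator `v ↦ u v + u' ι(v)`. -/
def op (u u' : F) : F →ₗ[ℂ] F :=
  LinearMap.mulLeft ℂ u + (LinearMap.mulLeft ℂ u') ∘ₗ C.ι.toLinearMap

@[simp] theorem op_apply (u u' v : F) : C.op u u' v = u * v + u' * C.ι v := rfl

/-- The function `G₀`. -/
def G0 : F := ((C.t - 1) * ((1 - C.t ^ 2 + C.t ^ 3) + C.s) + 2) * C.t⁻¹

theorem Y_K : C.Y ∈ C.K := by simp [mem_K, Y]
theorem x_K : C.x ∈ C.K := by simp [mem_K]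
theorem i_K : (i : F) ∈ C.K := C.K.algebraMap_mem _

/-- First generator of the line bundle `M`. -/
def m1 (b : Bool) : ↥C.K := if b then ⟨C.x, C.x_K⟩ + ⟨i, C.i_K⟩ + ⟨C.Y, C.Y_K⟩ * ⟨C.x, C.x_K⟩⁻¹
  else ⟨C.x, C.x_K⟩ + ⟨i, C.i_K⟩
/-- Second generator of the line bundle `M`. -/
def m2 (b : Bool) : ↥C.K := if b then (⟨C.x, C.x_K⟩ + ⟨i, C.i_K⟩) * ⟨C.x, C.x_K⟩⁻¹
  else ⟨C.Y, C.Y_K⟩

/-- `M_b OF_b` -/
def QM (b : Bool) : Submodule ℂ F := Submodule.span ℂ {(C.m1 b : F), (C.m2 b : F)} * sm (C.OF b)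

end Cfg

/-- `{v ∈ P₀ : t⁻ⁿ v ∈ P₁}` -/
def secs (t : F) (P0 P1 : Submodule ℂ F) (n : ℕ) : Submodule ℂ F :=
  P0 ⊓ P1.comap (LinearMap.mulLeft ℂ (t⁻¹ ^ n))

theorem mem_secs {t : F} {P0 P1 : Submodule ℂ F} {n : ℕ} {v : F} :
    v ∈ secs t P0 P1 n ↔ v ∈ P0 ∧ t⁻¹ ^ n * v ∈ P1 := Iff.rfl

/-- An `A`-valued point of `Spec B₀₀`. -/
structure Pt (A : Type) [CommRing A] [Algebra ℂ A] where
  τ : A
  χ : A
  σ : A
  π : A
  ρ : A
  hσ : σ ^ 2 = τ ^ 6 - 2 * τ ^ 5 + τ ^ 4 + 2 * τ ^ 3 + 2 * τ ^ 2 + 1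
  hπ : π ^ 2 = χ ^ 2 + 1
  hρ : ρ ^ 2 = χ ^ 2 - 1

/-- `1` or `-1` -/
def sg (b : Bool) : ℂ := if b then 1 else -1

theorem sg_sq (b : Bool) : sg b ^ 2 = 1 := by cases b <;> simp [sg]

/-- The eight points over `t = x = 0`: `s = ±1`, `p = ±1`, `q = ±√-1`. -/
def pt (y : Bool × Bool × Bool) : Pt ℂ where
  τ := 0
  χ := 0
  σ := sg y.1
  π := sg y.2.1
  ρ := sg y.2.2 * Complex.I
  hσ := by rw [sg_sq]; norm_num
  hπ := by rw [sg_sq]; norm_num
  hρ := by rw [mul_pow, sg_sq]; norm_num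

/-- The point `y₀`. -/
abbrev y0 : Bool × Bool × Bool := (true, true, true)
/-- The point `ι y₀`. -/
abbrev y0' : Bool × Bool × Bool := (false, false, false)

end

end Pool.Agent.EllMod
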