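import Pool.Agent.MP_77976d_ag.Defs

/-!
# First order deformations (definitions), the rings `D n` and `A2`
-/

open scoped TensorProduct
open IsLocalRing

namespace Pool.Agent.EllMod

noncomputable section

/-- `ℂ ⊕ ε ℂⁿ` -/
def D (n : ℕ) : Type := TrivSqZeroExt ℂ (Fin n → ℂ)

instance (n : ℕ) : CommRing (D n) := inferInstanceAs (CommRing (TrivSqZeroExt ℂ (Fin n → ℂ)))
instance (n : ℕ) : Algebra ℂ (D n) := inferInstanceAs (Algebra ℂ (TrivSqZeroExt ℂ (Fin n → ℂ)))

namespace D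

variable {n : ℕ}

/-- The element `a + Σ m_i ε_i`. -/
def mk (a : ℂ) (m : Fin n → ℂ) : D n := (a, m)
/-- constant term -/
def fst (a : D n) : ℂ := TrivSqZeroExt.fst a
/-- `ε`-coefficients -/
def snd (a : D n) : Fin n → ℂ := TrivSqZeroExt.snd a

@[ext] theorem ext {a b : D n} (h : a.fst = b.fst) (h' : ∀ i, a.snd i = b.snd i) : a = b :=
  TrivSqZeroExt.ext h (funext h')
@[simp] theorem mk_fst_snd (a : D n) : mk a.fst a.snd = a := rfl
@[simp] theorem fst_mk (a : ℂ) (m : Fin n → ℂ) : (mk a m).fst = a := rfl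
@[simp] theorem snd_mk (a : ℂ) (m : Fin n → ℂ) : (mk a m).snd = m := rfl
@[simp] theorem fst_zero : (0 : D n).fst = 0 := rfl
@[simp] theorem snd_zero : (0 : D n).snd = 0 := rfl
@[simp] theorem fst_one : (1 : D n).fst = 1 := rfl
@[simp] theorem snd_one : (1 : D n).snd = 0 := rfl
@[simp] theorem fst_add (a b : D n) : (a + b).fst = a.fst + b.fst := rfl
@[simp] theorem snd_add (a b : D n) : (a + b).snd = a.snd + b.snd := rfl
@[simp] theorem fst_neg (a : D n) : (-a).fst = -a.fst := rfl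
@[simp] theorem snd_neg (a : D n) : (-a).snd = -a.snd := rfl
@[simp] theorem fst_sub (a b : D n) : (a - b).fst = a.fst - b.fst := rfl
@[simp] theorem snd_sub (a b : D n) : (a - b).snd = a.snd - b.snd := rfl
@[simp] theorem fst_mul (a b : D n) : (a * b).fst = a.fst * b.fst := rfl
@[simp] theorem snd_mul (a b : D n) : (a * b).snd = a.fst • b.snd + b.fst • a.snd := by
  have h := TrivSqZeroExt.snd_mul (R := ℂ) (M := Fin n → ℂ) a b
  rw [op_smul_eq_smul] at h
  exact h
@[simp] theorem fst_smul (c : ℂ) (a : D n) : (c • a).fst = c * a.fst := rfl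
@[simp] theorem snd_smul (c : ℂ) (a : D n) : (c • a).snd = c • a.snd := rfl
@[simp] theorem fst_algebraMap (c : ℂ) : (algebraMap ℂ (D n) c).fst = c := rfl
@[simp] theorem snd_algebraMap (c : ℂ) : (algebraMap ℂ (D n) c).snd = 0 := rfl

theorem isUnit_iff (a : D n) : IsUnit a ↔ a.fst ≠ 0 := by
  have := TrivSqZeroExt.isUnit_iff_isUnit_fst (R := ℂ) (M := Fin n → ℂ) (x := a)
  rw [isUnit_iff_ne_zero] at this
  exact this

end D

instance (n : ℕ) : Module.Finite ℂ (D n) :=
  inferInstanceAs (Module.Finite ℂ (ℂ × (Fin n → ℂ)))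

instance (n : ℕ) : Nontrivial (D n) :=
  inferInstanceAs (Nontrivial (TrivSqZeroExt ℂ (Fin n → ℂ)))

instance (n : ℕ) : IsLocalRing (D n) := by
  refine IsLocalRing.of_isUnit_or_isUnit_one_sub_self fun a => ?_
  rcases eq_or_ne a.fst 0 with h | h
  · right; rw [D.isUnit_iff]; simp [h]
  · left; rw [D.isUnit_iff]; exact h

theorem mem_max_D {n : ℕ} (a : D n) : a ∈ maximalIdeal (D n) ↔ a.fst = 0 := by
  rw [mem_maximalIdeal, mem_nonunits_iff, D.isUnit_iff, not_not]

/-- The homomorphism `D n → D m` given by a linear map. -/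
def Dmap {n m : ℕ} (ψ : (Fin n → ℂ) →ₗ[ℂ] (Fin m → ℂ)) : D n →ₐ[ℂ] D m where
  toFun a := D.mk a.fst (ψ a.snd)
  map_one' := by ext <;> simp
  map_mul' a b := by ext <;> simp
  map_zero' := by ext <;> simp
  map_add' a b := by ext <;> simp
  commutes' r := by ext <;> simp

@[simp] theorem Dmap_fst {n m : ℕ} (ψ : (Fin n → ℂ) →ₗ[ℂ] (Fin m → ℂ)) (a : D n) :
    (Dmap ψ a).fst = a.fst := rfl
@[simp] theorem Dmap_snd {n m : ℕ} (ψ : (Fin n → ℂ) →ₗ[ℂ] (Fin m → ℂ)) (a : D n) :
    (Dmap ψ a).snd = ψ a.snd := rfl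

/-- `i`-th `ε`-coefficient -/
def Dsnd (n : ℕ) (i : Fin n) : D n →ₗ[ℂ] ℂ where
  toFun a := a.snd i
  map_add' a b := by simp
  map_smul' a b := by simp

/-- constant coefficient -/
def Dfst (n : ℕ) : D n →ₗ[ℂ] ℂ where
  toFun a := a.fst
  map_add' a b := by simp
  map_smul' a b := by simp

@[simp] theorem Dsnd_apply (n : ℕ) (i : Fin n) (a : D n) : Dsnd n i a = a.snd i := rfl
@[simp] theorem Dfst_apply (n : ℕ) (a : D n) : Dfst n a = a.fst := rfl

/-- `ε_i ∈ D n` -/
def eps {n : ℕ} (i : Fin n) : D n := D.mk 0 (Pi.single i 1)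

@[simp] theorem eps_fst {n : ℕ} (i : Fin n) : (eps i).fst = 0 := rfl
@[simp] theorem eps_snd {n : ℕ} (i : Fin n) : (eps i).snd = Pi.single i 1 := rfl

/-- `A2 = ℂ[ε₁, ε₂]/(ε₁², ε₂²)`, as the dual numbers (in `ε₂`) over `D 1 = ℂ[ε₁]/(ε₁²)`. -/
def A2 : Type := TrivSqZeroExt (D 1) (D 1)

instance : CommRing A2 := inferInstanceAs (CommRing (TrivSqZeroExt (D 1) (D 1)))
instance : Algebra ℂ A2 := inferInstanceAs (Algebra ℂ (TrivSqZeroExt (D 1) (D 1)))

namespace A2

/-- The element `a + ε₂ b`. -/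
def mk (a b : D 1) : A2 := (a, b)
/-- constant term (in `ε₂`) -/
def fst (a : A2) : D 1 := TrivSqZeroExt.fst a
/-- `ε₂`-coefficient -/
def snd (a : A2) : D 1 := TrivSqZeroExt.snd a

@[ext] theorem ext {a b : A2} (h : a.fst = b.fst) (h' : a.snd = b.snd) : a = b :=
  TrivSqZeroExt.ext h h'
@[simp] theorem mk_fst_snd (a : A2) : mk a.fst a.snd = a := rfl
@[simp] theorem fst_mk (a b : D 1) : (mk a b).fst = a := rfl
@[simp] theorem snd_mk (a b : D 1) : (mk a b).snd = b := rfl
@[simp] theorem fst_zero : (0 : A2).fst = 0 := rfl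
@[simp] theorem snd_zero : (0 : A2).snd = 0 := rfl
@[simp] theorem fst_one : (1 : A2).fst = 1 := rfl
@[simp] theorem snd_one : (1 : A2).snd = 0 := rfl
@[simp] theorem fst_add (a b : A2) : (a + b).fst = a.fst + b.fst := rfl
@[simp] theorem snd_add (a b : A2) : (a + b).snd = a.snd + b.snd := rfl
@[simp] theorem fst_neg (a : A2) : (-a).fst = -a.fst := rfl
@[simp] theorem snd_neg (a : A2) : (-a).snd = -a.snd := rfl
@[simp] theorem fst_sub (a b : A2) : (a - b).fst = a.fst - b.fst := rfl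
@[simp] theorem snd_sub (a b : A2) : (a - b).snd = a.snd - b.snd := rfl
@[simp] theorem fst_mul (a b : A2) : (a * b).fst = a.fst * b.fst := rfl
@[simp] theorem snd_mul (a b : A2) : (a * b).snd = a.fst * b.snd + b.fst * a.snd := by
  have h := TrivSqZeroExt.snd_mul (R := D 1) (M := D 1) a b
  rw [op_smul_eq_smul] at h
  exact h
@[simp] theorem fst_smul (c : ℂ) (a : A2) : (c • a).fst = c • a.fst := rfl
@[simp] theorem snd_smul (c : ℂ) (a : A2) : (c • a).snd = c • a.snd := rfl
@[simp] theorem fst_algebraMap (c : ℂ) : (algebraMap ℂ A2 c).fst = algebraMap ℂ (D 1) c := rfl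
@[simp] theorem snd_algebraMap (c : ℂ) : (algebraMap ℂ A2 c).snd = 0 := rfl

theorem isUnit_iff (a : A2) : IsUnit a ↔ IsUnit a.fst :=
  TrivSqZeroExt.isUnit_iff_isUnit_fst (R := D 1) (M := D 1) (x := a)

end A2

instance : Module.Finite ℂ A2 := inferInstanceAs (Module.Finite ℂ ((D 1) × (D 1)))

instance : Nontrivial A2 := inferInstanceAs (Nontrivial (TrivSqZeroExt (D 1) (D 1)))

instance : IsLocalRing A2 := by
  refine IsLocalRing.of_isUnit_or_isUnit_one_sub_self fun a => ?_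
  rcases IsLocalRing.isUnit_or_isUnit_one_sub_self a.fst with h | h
  · left; rw [A2.isUnit_iff]; exact h
  · right; rw [A2.isUnit_iff]; simpa using h

/-- `A2 → D 1` : reduction modulo `ε₂`. -/
def rho1 : A2 →ₐ[ℂ] D 1 where
  toFun a := a.fst
  map_one' := rfl
  map_mul' a b := by simp
  map_zero' := rfl
  map_add' a b := by simp
  commutes' r := by simp

/-- `A2 → D 1` : reduction modulo `ε₁` (and `ε₂ ↦ ε`). -/
def rho2 : A2 →ₐ[ℂ] D 1 where
  toFun a := D.mk a.fst.fst (fun _ => a.snd.fst)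
  map_one' := by
    ext <;> simp
  map_mul' a b := by
    ext <;> simp
  map_zero' := by
    ext <;> simp
  map_add' a b := by
    ext <;> simp
  commutes' r := by
    ext <;> simp

@[simp] theorem rho1_apply (a : A2) : rho1 a = a.fst := rfl
@[simp] theorem rho2_apply (a : A2) : rho2 a = D.mk a.fst.fst (fun _ => a.snd.fst) := rfl

section

variable {W : Type} [AddCommGroup W] [Module ℂ W] {A : Type} [CommRing A] [Algebra ℂ A]

/-- The coefficient `A ⊗ W → W` along a linear functional of `A`. -/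
def cf (φ : A →ₗ[ℂ] ℂ) : (A ⊗[ℂ] W) →ₗ[ℂ] W :=
  (TensorProduct.lid ℂ W).toLinearMap ∘ₗ (φ.rTensor W)

@[simp] theorem cf_tmul (φ : A →ₗ[ℂ] ℂ) (a : A) (w : W) : cf φ (a ⊗ₜ w) = φ a • w := by
  simp [cf]

theorem redW_eq_cf (π : A →ₐ[ℂ] ℂ) : redW (W := W) π = cf π.toLinearMap := rfl

/-- `D n`-scalar multiplication in terms of coefficients. -/
theorem cf_fst_smul {n : ℕ} (a : D n) (z : D n ⊗[ℂ] W) :
    cf (Dfst n) (a • z) = a.fst • cf (Dfst n) z := by
  induction z using TensorProduct.induction_on with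
  | zero => simp
  | add z w hz hw => rw [smul_add, map_add, hz, hw, map_add, smul_add]
  | tmul b w => simp [TensorProduct.smul_tmul', smul_smul]

theorem cf_snd_smul {n : ℕ} (i : Fin n) (a : D n) (z : D n ⊗[ℂ] W) :
    cf (Dsnd n i) (a • z) = a.fst • cf (Dsnd n i) z + a.snd i • cf (Dfst n) z := by
  induction z using TensorProduct.induction_on with
  | zero => simp
  | add z w hz hw => rw [smul_add, map_add, hz, hw, map_add, map_add, smul_add, smul_add]; abel
  | tmul b w =>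
    simp [TensorProduct.smul_tmul', smul_smul, add_smul, mul_comm]

variable {K : Type} [Field K] [Algebra ℂ K] [Module K W] [IsScalarTower ℂ K W]

/-- The first order family over `D n` given by linear maps `θ_{ab}^i : E_{ab} → W`. -/
def foFam {n : ℕ} (E : Lat W) (θ : Fin n → Bool → Bool → (W →ₗ[ℂ] W)) : RawFam (D n) W :=
  fun a b =>
    { carrier := {z | cf (Dfst n) z ∈ E a b ∧
        ∀ i, cf (Dsnd n i) z - θ i a b (cf (Dfst n) z) ∈ E a b}
      zero_mem' := by simp
      add_mem' := fun {z w} hz hw => by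
        refine ⟨by rw [map_add]; exact add_mem hz.1 hw.1, fun i => ?_⟩
        have := add_mem (hz.2 i) (hw.2 i)
        rw [map_add, map_add, map_add]
        convert this using 1
        abel
      smul_mem' := fun a z hz => by
        refine ⟨by rw [cf_fst_smul]; exact Submodule.smul_mem _ _ hz.1, fun i => ?_⟩
        rw [cf_fst_smul, cf_snd_smul, map_smul]
        have := add_mem (Submodule.smul_mem _ a.fst (hz.2 i))
          (Submodule.smul_mem _ (a.snd i) hz.1)
        convert this using 1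
        rw [smul_sub]; abel }

/-- `θ` defines a first order deformation of `E`. -/
structure FOData (X : Surf K) (E : Lat W) (θ : Bool → Bool → (W →ₗ[ℂ] W)) : Prop where
  lin : ∀ a b, ∀ r ∈ X.R a b, ∀ v ∈ E a b, θ a b (r • v) - r • θ a b v ∈ E a b
  glue_t : ∀ a a' b, ∀ v ∈ E a b, ∃ n : ℕ, (coord X.t a') ^ n • v ∈ E a' b ∧
    (coord X.t a') ^ n • θ a b v - θ a' b ((coord X.t a') ^ n • v) ∈ E a' b
  glue_x : ∀ a b b', ∀ v ∈ E a b, ∃ n : ℕ, (coord X.x b') ^ n • v ∈ E a b' ∧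
    (coord X.x b') ^ n • θ a b v - θ a b' ((coord X.x b') ^ n • v) ∈ E a b'

end

end

end Pool.Agent.EllMod
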