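import Pool.Agent.MP_77976d_ag.Pres
import Pool.Agent.MP_77976d_ag.FODefs

/-! # The surface, evaluation at points, the sheaves `E` and `E' = M E` (definitions) -/

open scoped TensorProduct
open IsLocalRing

namespace Pool.Agent.EllMod

noncomputable section

section general

variable {K : Type} [Field K] [Algebra ℂ K] {W : Type} [AddCommGroup W] [Module ℂ W]
  [Module K W]

/-- The product `M E` of a lattice in `K` and a lattice in `W`. -/
def mulLat (M : Lat K) (E : Lat W) : Lat W := fun a b =>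
  Submodule.span ℂ {w | ∃ m ∈ M a b, ∃ v ∈ E a b, w = m • v}

end general

variable {F : Type} [Field F] [Algebra ℂ F] (C : Cfg F)

namespace Cfg

/-- The surface `X = (C × F₀)/ι`. -/
def surf : Surf ↥C.K where
  t := C.tK
  x := C.xK
  indep := C.indepK
  fin := C.finK

/-- The homomorphism `B₀₀ → A` given by an `A`-valued point. -/
def lift {A : Type} [CommRing A] [Algebra ℂ A] (P : Pt A) : ↥(C.B false false) →ₐ[ℂ] A :=
  Classical.choose (C.exists_lift P)

@[simp] theorem lift_t {A : Type} [CommRing A] [Algebra ℂ A] (P : Pt A) :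
    C.lift P ⟨C.t, C.t_mem⟩ = P.τ := (Classical.choose_spec (C.exists_lift P)).1
@[simp] theorem lift_x {A : Type} [CommRing A] [Algebra ℂ A] (P : Pt A) :
    C.lift P ⟨C.x, C.x_mem⟩ = P.χ := (Classical.choose_spec (C.exists_lift P)).2.1
@[simp] theorem lift_s {A : Type} [CommRing A] [Algebra ℂ A] (P : Pt A) :
    C.lift P ⟨C.s, C.s_mem⟩ = P.σ := (Classical.choose_spec (C.exists_lift P)).2.2.1
@[simp] theorem lift_p {A : Type} [CommRing A] [Algebra ℂ A] (P : Pt A) :
    C.lift P ⟨C.p, C.p_mem⟩ = P.π := (Classical.choose_spec (C.exists_lift P)).2.2.2.1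
@[simp] theorem lift_q {A : Type} [CommRing A] [Algebra ℂ A] (P : Pt A) :
    C.lift P ⟨C.q, C.q_mem⟩ = P.ρ := (Classical.choose_spec (C.exists_lift P)).2.2.2.2

/-- The evaluation at a point `y` over `t = x = 0` on `B₀₀` (extended linearly to `F` in an
arbitrary way). -/
def ev (y : Bool × Bool × Bool) : F →ₗ[ℂ] ℂ :=
  Classical.choose (LinearMap.exists_extend (p := Subalgebra.toSubmodule (C.B false false))
    (C.lift (pt y)).toLinearMap)

theorem ev_eq (y : Bool × Bool × Bool) (v : F) (hv : v ∈ C.B false false) :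
    C.ev y v = C.lift (pt y) ⟨v, hv⟩ := by
  have h := Classical.choose_spec (LinearMap.exists_extend
    (p := Subalgebra.toSubmodule (C.B false false)) (C.lift (pt y)).toLinearMap)
  exact congrArg (fun f => f ⟨v, hv⟩) h

/-- The colength one submodule of `V₀₀ = B₀₀` of functions vanishing at `y₀`. -/
def E00 : Submodule ℂ F := sm (C.B false false) ⊓ LinearMap.ker (C.ev y0)

/-- The sheaf `E = ker (V → ℂ_x)`. -/
def E : Lat F
  | false, false => C.E00
  | true, false => C.V true false
  | false, true => C.V false true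
  | true, true => C.V true true

/-- The first order deformation `th 7` on the chart `(1, 0)`. -/
def h10 : F →ₗ[ℂ] F := C.op 0 (-(i / 4) * C.G0 * C.Y * C.x⁻¹)
/-- The first order deformation `th 7` on the chart `(0, 1)`. -/
def h01 : F →ₗ[ℂ] F := C.op 0 (-(1 / 4) * C.G0 * (1 - C.p + i * C.q) * C.x⁻¹)

end Cfg

theorem sq_zero_D (α : ℂ) : (D.mk 0 (fun _ => α) : D 1) ^ 2 = 0 := by
  rw [pow_two]; ext <;> simp

/-- The tangent vector `α ∂_t + β ∂_x` at `y₀`. -/
def ptE (α β : ℂ) : Pt (D 1) where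
  τ := D.mk 0 (fun _ => α)
  χ := D.mk 0 (fun _ => β)
  σ := 1
  π := 1
  ρ := D.mk Complex.I 0
  hσ := by
    have h := sq_zero_D α
    have h4 : (D.mk 0 (fun _ => α) : D 1) ^ 4 = 0 := by
      rw [show 4 = 2 + 2 from rfl, pow_add, h, zero_mul]
    have h3 : (D.mk 0 (fun _ => α) : D 1) ^ 3 = 0 := by
      rw [show 3 = 2 + 1 from rfl, pow_add, h, zero_mul]
    have h5 : (D.mk 0 (fun _ => α) : D 1) ^ 5 = 0 := by
      rw [show 5 = 2 + 3 from rfl, pow_add, h, zero_mul]
    have h6 : (D.mk 0 (fun _ => α) : D 1) ^ 6 = 0 := by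
      rw [show 6 = 2 + 4 from rfl, pow_add, h, zero_mul]
    rw [h, h3, h4, h5, h6]; simp
  hπ := by
    rw [sq_zero_D]; simp
  hρ := by
    rw [sq_zero_D]
    ext <;> simp [pow_two]

namespace Cfg

/-- The derivative at `y₀` in the direction `(α, β)` on `B₀₀`, extended linearly. -/
def der (α β : ℂ) : F →ₗ[ℂ] ℂ :=
  Classical.choose (LinearMap.exists_extend (p := Subalgebra.toSubmodule (C.B false false))
    (Dsnd 1 0 ∘ₗ (C.lift (ptE α β)).toLinearMap))

theorem der_eq (α β : ℂ) (v : F) (hv : v ∈ C.B false false) :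
    C.der α β v = (C.lift (ptE α β) ⟨v, hv⟩).snd 0 := by
  have h := Classical.choose_spec (LinearMap.exists_extend
    (p := Subalgebra.toSubmodule (C.B false false))
    (Dsnd 1 0 ∘ₗ (C.lift (ptE α β)).toLinearMap))
  exact congrArg (fun f => f ⟨v, hv⟩) h

/-- The line bundle `M`. -/
def M : Lat ↥C.K := fun a b =>
  (Submodule.span (C.surf.R a b) {C.m1 b, C.m2 b}).restrictScalars ℂ

/-- The final sheaf `E' = M E`. -/
def E' : Lat F := mulLat C.M C.E

end Cfg

end

end Pool.Agent.EllMod
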