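import Pool.Agent.MP_77976d_ag.Th7

/-! # The first order deformations `th i` (definitions) -/

open scoped TensorProduct
open IsLocalRing

namespace Pool.Agent.EllMod

noncomputable section

variable {F : Type} [Field F] [Algebra ℂ F] (C : Cfg F)

namespace Cfg

/-- The first order deformation `th 7` on the chart `(0, 0)`. -/
def th7 : F →ₗ[ℂ] F := Classical.choose C.exists_th7

theorem th7_spec : (∀ v ∈ C.E00, C.th7 v - C.h10 v ∈ C.BT false) ∧
    (∀ v ∈ C.E00, C.th7 v - C.h01 v ∈ C.BX) ∧
    ∀ r ∈ C.B false false, C.ι r = r → ∀ v ∈ C.E00, C.th7 (r * v) - r * C.th7 v ∈ C.E00 :=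
  Classical.choose_spec C.exists_th7

/-- The eight first order deformations of `E`. -/
def th : Fin 8 → Bool → Bool → (F →ₗ[ℂ] F) := ![
  fun a _ => if a then C.op (C.s * C.t⁻¹) 0 else 0,
  fun a _ => if a then C.op (C.s * C.t⁻¹ ^ 2) 0 else 0,
  fun a _ => if a then C.op 0 (C.t⁻¹) else 0,
  fun _ b => if b then C.op (C.Y * C.x⁻¹) 0 else 0,
  fun a b => if a || b then 0 else -(C.der 1 0).smulRight 1,
  fun a b => if a || b then 0 else -(C.der 0 1).smulRight 1,
  fun a b => if a || b then 0 else (C.ev y0').smulRight 1,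
  fun a b => match a, b with
    | false, false => C.th7
    | true, false => C.h10
    | false, true => C.h01
    | true, true => 0]

/-- The linear combination `Σ ψᵢ thᵢ`. -/
def thc (ψ : Fin 8 → ℂ) (a b : Bool) : F →ₗ[ℂ] F := ∑ k, ψ k • C.th k a b

end Cfg

end

end Pool.Agent.EllMod
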