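import Pool.Agent.MP_77976d_ag.Bas

/-! # LDC : linear disjointness calculus -/

open scoped TensorProduct
open IsLocalRing

namespace Pool.Agent.EllMod

noncomputable section

section ldc

variable {V W : Type} [AddCommGroup V] [Module ℂ V] [AddCommGroup W] [Module ℂ W]

/-- The subspace `P ⊗ Q` of `V ⊗ W`. -/
def ldcB (P : Submodule ℂ V) (Q : Submodule ℂ W) : Submodule ℂ (V ⊗[ℂ] W) :=
  Submodule.map₂ (TensorProduct.mk ℂ V W) P Q

theorem ldc_map_mem {P P' : Submodule ℂ V} {Q Q' : Submodule ℂ W} (e : V →ₗ[ℂ] V)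
    (f : W →ₗ[ℂ] W) (he : ∀ v ∈ P, e v ∈ P') (hf : ∀ w ∈ Q, f w ∈ Q') {z : V ⊗[ℂ] W}
    (hz : z ∈ ldcB P Q) : TensorProduct.map e f z ∈ ldcB P' Q' := by
  have h : ldcB P Q ≤ (ldcB P' Q').comap (TensorProduct.map e f) := by
    refine Submodule.map₂_le.mpr fun v hv w hw => ?_
    simp only [TensorProduct.mk_apply, Submodule.mem_comap, TensorProduct.map_tmul]
    exact Submodule.apply_mem_map₂ (TensorProduct.mk ℂ V W) (he v hv) (hf w hw)
  exact h hz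

theorem ldc_map_congr {P : Submodule ℂ V} {Q : Submodule ℂ W} (e e' : V →ₗ[ℂ] V)
    (f f' : W →ₗ[ℂ] W) (he : ∀ v ∈ P, e v = e' v) (hf : ∀ w ∈ Q, f w = f' w) {z : V ⊗[ℂ] W}
    (hz : z ∈ ldcB P Q) : TensorProduct.map e f z = TensorProduct.map e' f' z := by
  have h : ldcB P Q ≤ LinearMap.eqLocus (TensorProduct.map e f) (TensorProduct.map e' f') := by
    refine Submodule.map₂_le.mpr fun v hv w hw => ?_
    simp only [TensorProduct.mk_apply, LinearMap.mem_eqLocus, TensorProduct.map_tmul]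
    rw [he v hv, hf w hw]
  exact h hz

theorem ldc_map_id {P : Submodule ℂ V} {Q : Submodule ℂ W} (e : V →ₗ[ℂ] V)
    (f : W →ₗ[ℂ] W) (he : ∀ v ∈ P, e v = v) (hf : ∀ w ∈ Q, f w = w) {z : V ⊗[ℂ] W}
    (hz : z ∈ ldcB P Q) : TensorProduct.map e f z = z := by
  rw [ldc_map_congr e LinearMap.id f LinearMap.id he hf hz, TensorProduct.map_id]
  rfl

theorem ldcB_mono {P P' : Submodule ℂ V} {Q Q' : Submodule ℂ W} (hP : P ≤ P') (hQ : Q ≤ Q') :
    ldcB P Q ≤ ldcB P' Q' := Submodule.map₂_le_map₂ hP hQ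

/-- Projections. -/
theorem ldc_proj (A B : Submodule ℂ V) (h : Disjoint A B) : ∃ e : V →ₗ[ℂ] V,
    (∀ v, e v ∈ A) ∧ (∀ v ∈ A, e v = v) ∧ ∀ v ∈ B, e v = 0 := by
  obtain ⟨B', hB, hc⟩ := h.symm.exists_isCompl
  exact ⟨A.projection B' hc.symm, fun v => Submodule.projection_apply_mem hc.symm v,
    fun v hv => Submodule.projection_apply_of_mem_left hc.symm hv,
    fun v hv => Submodule.projection_apply_of_mem_right hc.symm (hB hv)⟩

/-- Decomposition operators. -/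
theorem ldc_ops (P0 P1 H : Submodule ℂ V) (h : Disjoint (P0 ⊔ P1) H) :
    ∃ e0 e1 eh : V →ₗ[ℂ] V, (e0 + e1 + eh = LinearMap.id) ∧
      (∀ v, e0 v ∈ P0) ∧ (∀ v ∈ P0 ⊔ P1 ⊔ H, e1 v ∈ P1) ∧ (∀ v, eh v ∈ H) ∧
      (∀ v ∈ P0, e0 v = v) ∧ (∀ v ∈ P0, e1 v = 0) ∧ (∀ v ∈ P0, eh v = 0) ∧
      (∀ v ∈ P1, eh v = 0) ∧ (∀ v ∈ P1, e0 v ∈ P0 ⊓ P1) := by
  obtain ⟨eh, h1, h2, h3⟩ := ldc_proj H (P0 ⊔ P1) h.symm
  obtain ⟨P1', hP1', hP1''⟩ : ∃ P1' ≤ P1, Disjoint P1' (P0 ⊓ P1) ∧ P1' ⊔ (P0 ⊓ P1) = P1 := by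
    obtain ⟨Z, hZ1, hZ2⟩ := exists_isCompl (P0 ⊓ P1)
    refine ⟨Z ⊓ P1, inf_le_right, ?_, ?_⟩
    · exact (hZ1.symm).mono_left inf_le_left
    · have h5 : (P0 ⊓ P1) ≤ P1 := inf_le_right
      rw [sup_comm, ← sup_inf_assoc_of_le _ h5, codisjoint_iff.mp hZ2, top_inf_eq]
  have hd : Disjoint P0 (P1' ⊔ H) := by
    rw [Submodule.disjoint_def]
    intro y hy hy2
    obtain ⟨a, ha, b, hb, hab⟩ := Submodule.mem_sup.mp hy2
    have hb0 : b = 0 := by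
      refine (Submodule.disjoint_def.mp h) b ?_ hb
      have : b = y - a := by rw [← hab]; abel
      rw [this]
      exact sub_mem (Submodule.mem_sup_left hy) (Submodule.mem_sup_right (hP1' ha))
    rw [hb0, add_zero] at hab
    rw [← hab]
    refine (Submodule.disjoint_def.mp hP1''.1) a ha ⟨?_, hP1' ha⟩
    rw [hab]; exact hy
  obtain ⟨e0, k1, k2, k3⟩ := ldc_proj P0 (P1' ⊔ H) hd
  have k4 : ∀ v ∈ P1, e0 v ∈ P0 ⊓ P1 := by
    intro v hv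
    rw [← hP1''.2] at hv
    obtain ⟨a, ha, b, hb, rfl⟩ := Submodule.mem_sup.mp hv
    rw [map_add, k3 a (Submodule.mem_sup_left ha), k2 b hb.1, zero_add]
    exact hb
  refine ⟨e0, LinearMap.id - e0 - eh, eh, by abel, k1, ?_, h1, k2, ?_, ?_, ?_, k4⟩
  · intro v hv
    obtain ⟨a, ha, b, hb, rfl⟩ := Submodule.mem_sup.mp hv
    obtain ⟨c, hc, d, hd, rfl⟩ := Submodule.mem_sup.mp ha
    have e : (LinearMap.id - e0 - eh : V →ₗ[ℂ] V) (c + d + b) = d - e0 d := by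
      simp only [LinearMap.sub_apply, LinearMap.id_apply, map_add]
      rw [h2 b hb, k3 b (Submodule.mem_sup_right hb), k2 c hc, h3 c (Submodule.mem_sup_left hc),
        h3 d (Submodule.mem_sup_right hd)]
      abel
    rw [e]
    exact sub_mem hd (k4 d hd).2
  · intro v hv
    simp only [LinearMap.sub_apply, LinearMap.id_apply]
    rw [k2 v hv, h3 v (Submodule.mem_sup_left hv)]; simp
  · exact fun v hv => h3 v (Submodule.mem_sup_left hv)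
  · exact fun v hv => h3 v (Submodule.mem_sup_right hv)

theorem ldc_inf (P0 P1 : Submodule ℂ V) (Q0 Q1 : Submodule ℂ W) :
    ldcB P0 Q0 ⊓ ldcB P1 Q1 ≤ ldcB (P0 ⊓ P1) (Q0 ⊓ Q1) := by
  obtain ⟨e, -, -, -, -, -, -, he, -, -, -, he'⟩ := ldc_ops P0 P1 ⊥ disjoint_bot_right
  obtain ⟨f, -, -, -, -, -, -, hf, -, -, -, hf'⟩ := ldc_ops Q0 Q1 ⊥ disjoint_bot_right
  rintro z ⟨h0, h1⟩
  rw [← ldc_map_id e f he hf h0]
  exact ldc_map_mem e f he' hf' h1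

theorem ldc_kunneth (P0 P1 HP : Submodule ℂ V) (Q0 Q1 HQ : Submodule ℂ W)
    (hPd : Disjoint (P0 ⊔ P1) HP) (hQd : Disjoint (Q0 ⊔ Q1) HQ) (α β γ0 γ1 : V ⊗[ℂ] W)
    (h1 : α ∈ ldcB (P0 ⊔ P1 ⊔ HP) Q0) (h2 : β ∈ ldcB (P0 ⊔ P1 ⊔ HP) Q1)
    (h3 : γ0 ∈ ldcB P0 (Q0 ⊔ Q1 ⊔ HQ)) (h4 : γ1 ∈ ldcB P1 (Q0 ⊔ Q1 ⊔ HQ))
    (h5 : α + γ1 = γ0 + β) :
    ∃ x, ∃ h ∈ ldcB HP (Q0 ⊓ Q1), ∃ k ∈ ldcB (P0 ⊓ P1) HQ,
      x ∈ ldcB P0 Q0 ∧ α + x - h ∈ ldcB P1 Q0 ∧ γ0 + x - k ∈ ldcB P0 Q1 ∧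
      α + γ1 + x - h - k ∈ ldcB P1 Q1 := by
  obtain ⟨e0, e1, eh, ea, eb, ec, ed, ee, ef, eg, ei, ej⟩ := ldc_ops P0 P1 HP hPd
  obtain ⟨f0, f1, fh, fa, fb, fc, fd, fe, ff, fg, fi, fj⟩ := ldc_ops Q0 Q1 HQ hQd
  have hI1 : ∀ v : V, (LinearMap.id : V →ₗ[ℂ] V) v = v := fun v => rfl
  have hI2 : ∀ w : W, (LinearMap.id : W →ₗ[ℂ] W) w = w := fun v => rfl
  have hPs0 : P0 ≤ P0 ⊔ P1 ⊔ HP := le_sup_left.trans le_sup_left
  have hPs1 : P1 ≤ P0 ⊔ P1 ⊔ HP := le_sup_right.trans le_sup_left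
  have hQs0 : Q0 ≤ Q0 ⊔ Q1 ⊔ HQ := le_sup_left.trans le_sup_left
  have hQs1 : Q1 ≤ Q0 ⊔ Q1 ⊔ HQ := le_sup_right.trans le_sup_left
  have hVdec : ∀ z : V ⊗[ℂ] W, z = TensorProduct.map e0 LinearMap.id z +
      TensorProduct.map e1 LinearMap.id z + TensorProduct.map eh LinearMap.id z := by
    intro z
    rw [← LinearMap.add_apply, ← LinearMap.add_apply, ← TensorProduct.map_add_left,
      ← TensorProduct.map_add_left, ea, TensorProduct.map_id]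
    rfl
  have hWdec : ∀ z : V ⊗[ℂ] W, z = TensorProduct.map LinearMap.id f0 z +
      TensorProduct.map LinearMap.id f1 z + TensorProduct.map LinearMap.id fh z := by
    intro z
    rw [← LinearMap.add_apply, ← LinearMap.add_apply, ← TensorProduct.map_add_right,
      ← TensorProduct.map_add_right, fa, TensorProduct.map_id]
    rfl
  have z1 : ∀ (P : Submodule ℂ V) (Q : Submodule ℂ W) (e : V →ₗ[ℂ] V) (f : W →ₗ[ℂ] W)
      (z : V ⊗[ℂ] W), z ∈ ldcB P Q → (∀ v ∈ P, e v = 0) → TensorProduct.map e f z = 0 := by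
    intro P Q e f z hz he
    rw [ldc_map_congr e 0 f f he (fun _ _ => rfl) hz, TensorProduct.map_zero_left]
    rfl
  have z2 : ∀ (P : Submodule ℂ V) (Q : Submodule ℂ W) (e : V →ₗ[ℂ] V) (f : W →ₗ[ℂ] W)
      (z : V ⊗[ℂ] W), z ∈ ldcB P Q → (∀ v ∈ Q, f v = 0) → TensorProduct.map e f z = 0 := by
    intro P Q e f z hz he
    rw [ldc_map_congr e e f 0 (fun _ _ => rfl) he hz, TensorProduct.map_zero_right]
    rfl
  -- h
  have hh : TensorProduct.map eh LinearMap.id α = TensorProduct.map eh LinearMap.id β := by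
    have := congrArg (TensorProduct.map eh (LinearMap.id : W →ₗ[ℂ] W)) h5
    rw [map_add, map_add, z1 _ _ eh LinearMap.id γ1 h4 ei, z1 _ _ eh LinearMap.id γ0 h3 eg,
      add_zero, zero_add] at this
    exact this
  have hk : TensorProduct.map LinearMap.id fh γ1 = TensorProduct.map LinearMap.id fh γ0 := by
    have := congrArg (TensorProduct.map (LinearMap.id : V →ₗ[ℂ] V) fh) h5
    rw [map_add, map_add, z2 _ _ LinearMap.id fh α h1 fg, z2 _ _ LinearMap.id fh β h2 fi,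
      add_zero, zero_add] at this
    exact this
  have h00 : TensorProduct.map e0 LinearMap.id α + TensorProduct.map e0 f0 γ1 =
      TensorProduct.map LinearMap.id f0 γ0 + TensorProduct.map e0 f0 β := by
    have := congrArg (TensorProduct.map e0 f0) h5
    rw [map_add, map_add, ldc_map_congr e0 e0 f0 LinearMap.id (fun _ _ => rfl) fe h1,
      ldc_map_congr e0 LinearMap.id f0 f0 ee (fun _ _ => rfl) h3] at this
    exact this
  have h10 : TensorProduct.map e1 LinearMap.id α + TensorProduct.map e1 f0 γ1 =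
      TensorProduct.map e1 f0 β := by
    have := congrArg (TensorProduct.map e1 f0) h5
    rw [map_add, map_add, ldc_map_congr e1 e1 f0 LinearMap.id (fun _ _ => rfl) fe h1,
      z1 _ _ e1 f0 γ0 h3 ef, zero_add] at this
    exact this
  have m1 : TensorProduct.map e0 f0 γ1 ∈ ldcB (P0 ⊓ P1) Q0 :=
    ldc_map_mem e0 f0 ej (fun w _ => fb w) h4
  have m2 : TensorProduct.map e0 f0 β ∈ ldcB P0 (Q0 ⊓ Q1) :=
    ldc_map_mem e0 f0 (fun w _ => eb w) fj h2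
  have m3 : TensorProduct.map e0 LinearMap.id α ∈ ldcB P0 Q0 :=
    ldc_map_mem e0 LinearMap.id (fun w _ => eb w) (fun w hw => hw) h1
  have m4 : TensorProduct.map e1 LinearMap.id α ∈ ldcB P1 Q0 :=
    ldc_map_mem e1 LinearMap.id ec (fun w hw => hw) h1
  have m5 : TensorProduct.map LinearMap.id f1 γ0 ∈ ldcB P0 Q1 :=
    ldc_map_mem LinearMap.id f1 (fun w hw => hw) fc h3
  have m6 : TensorProduct.map LinearMap.id f1 γ1 ∈ ldcB P1 Q1 :=
    ldc_map_mem LinearMap.id f1 (fun w hw => hw) fc h4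
  have m7 : TensorProduct.map e1 f0 β ∈ ldcB P1 Q1 := by
    refine ldcB_mono le_rfl inf_le_right (ldc_map_mem (P' := P1) (Q' := Q0 ⊓ Q1) e1 f0 ec fj h2)
  have m8 : TensorProduct.map eh LinearMap.id α ∈ ldcB HP (Q0 ⊓ Q1) := by
    have hf0 : TensorProduct.map LinearMap.id f0 (TensorProduct.map eh LinearMap.id α) =
        TensorProduct.map eh LinearMap.id α :=
      ldc_map_id (P := HP) (Q := Q0) LinearMap.id f0 (fun v _ => rfl) fe
        (ldc_map_mem eh LinearMap.id (fun w _ => ed w) (fun w hw => hw) h1)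
    rw [← hf0, hh]
    exact ldc_map_mem (P := HP) (Q := Q1) LinearMap.id f0 (fun v hv => hv) fj
      (ldc_map_mem eh LinearMap.id (fun w _ => ed w) (fun w hw => hw) h2)
  have m9 : TensorProduct.map LinearMap.id fh γ0 ∈ ldcB (P0 ⊓ P1) HQ := by
    have hf0 : TensorProduct.map e0 LinearMap.id (TensorProduct.map LinearMap.id fh γ0) =
        TensorProduct.map LinearMap.id fh γ0 :=
      ldc_map_id (P := P0) (Q := HQ) e0 LinearMap.id ee (fun v _ => rfl)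
        (ldc_map_mem LinearMap.id fh (fun w hw => hw) (fun w _ => fd w) h3)
    rw [← hf0, ← hk]
    exact ldc_map_mem (P := P1) (Q := HQ) e0 LinearMap.id ej (fun v hv => hv)
      (ldc_map_mem LinearMap.id fh (fun w hw => hw) (fun w _ => fd w) h4)
  refine ⟨-(TensorProduct.map e0 LinearMap.id α + TensorProduct.map e0 f0 γ1),
    TensorProduct.map eh LinearMap.id α, m8, TensorProduct.map LinearMap.id fh γ0, m9, ?_, ?_,
    ?_, ?_⟩
  · exact neg_mem (add_mem m3 (ldcB_mono inf_le_left le_rfl m1))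
  · have : α + -(TensorProduct.map e0 LinearMap.id α + TensorProduct.map e0 f0 γ1) -
        TensorProduct.map eh LinearMap.id α =
        TensorProduct.map e1 LinearMap.id α - TensorProduct.map e0 f0 γ1 := by
      linear_combination (norm := module) hVdec α
    rw [this]
    exact sub_mem m4 (ldcB_mono inf_le_right le_rfl m1)
  · have : γ0 + -(TensorProduct.map e0 LinearMap.id α + TensorProduct.map e0 f0 γ1) -
        TensorProduct.map LinearMap.id fh γ0 =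
        TensorProduct.map LinearMap.id f1 γ0 - TensorProduct.map e0 f0 β := by
      linear_combination (norm := module) hWdec γ0 - h00
    rw [this]
    exact sub_mem m5 (ldcB_mono le_rfl inf_le_right m2)
  · have h11 : TensorProduct.map LinearMap.id f0 γ1 = TensorProduct.map e0 f0 γ1 +
        TensorProduct.map e1 f0 γ1 := by
      have h12 : TensorProduct.map eh f0 γ1 = 0 := z1 _ _ eh f0 γ1 h4 ei
      rw [← ea, TensorProduct.map_add_left, TensorProduct.map_add_left, LinearMap.add_apply,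
        LinearMap.add_apply, h12, add_zero]
    have : α + γ1 + -(TensorProduct.map e0 LinearMap.id α + TensorProduct.map e0 f0 γ1) -
        TensorProduct.map eh LinearMap.id α - TensorProduct.map LinearMap.id fh γ0 =
        TensorProduct.map e1 f0 β + TensorProduct.map LinearMap.id f1 γ1 := by
      linear_combination (norm := module) hVdec α + hWdec γ1 + hk + h11 + h10
    rw [this]
    exact add_mem m7 m6

end ldc

variable {F : Type} [Field F] [Algebra ℂ F] (C : Cfg F)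

namespace Cfg

/-- The function field of `C` as a subspace. -/
def ldcA : Submodule ℂ F := Subalgebra.toSubmodule C.KC.toSubalgebra

/-- The function field of `F₀` as a subspace. -/
def ldcA' : Submodule ℂ F := Subalgebra.toSubmodule C.KF.toSubalgebra

theorem mem_ldcA {y : F} : y ∈ C.ldcA ↔ y ∈ C.KC := Iff.rfl
theorem mem_ldcA' {y : F} : y ∈ C.ldcA' ↔ y ∈ C.KF := Iff.rfl

theorem ldc_disj : C.ldcA.LinearDisjoint C.ldcA' := by
  let m := Module.Basis.ofVectorSpace ℂ C.ldcA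
  refine Submodule.LinearDisjoint.of_basis_left C.ldcA C.ldcA' m ?_
  rw [LinearMap.ker_eq_bot']
  intro n hn
  rw [Submodule.mulLeftMap_apply, Finsupp.sum] at hn
  have hli : LinearIndependent ℂ (fun k => (m k : F)) :=
    m.linearIndependent.map' C.ldcA.subtype (Submodule.ker_subtype _)
  have h := C.LD (fun k => (m k : F)) (fun k => (n k : F)) n.support
    (fun k => (m k).2) hli (fun k => (n k).2) hn
  ext k
  by_cases hk : k ∈ n.support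
  · exact h k hk
  · rw [Finsupp.notMem_support_iff.mp hk]; rfl

/-- Multiplication `KC ⊗ KF → F`. -/
def ldcμ : (↥C.ldcA ⊗[ℂ] ↥C.ldcA') →ₗ[ℂ] F := Submodule.mulMap C.ldcA C.ldcA'

theorem ldcμ_inj : Function.Injective C.ldcμ := C.ldc_disj.injective

/-- The subspace `P ⊗ Q` of `KC ⊗ KF`. -/
def ldcI (P Q : Submodule ℂ F) : Submodule ℂ (↥C.ldcA ⊗[ℂ] ↥C.ldcA') :=
  ldcB (P.comap C.ldcA.subtype) (Q.comap C.ldcA'.subtype)

theorem ldc_image (P Q : Submodule ℂ F) (hP : ∀ y ∈ P, y ∈ C.KC) (hQ : ∀ y ∈ Q, y ∈ C.KF) :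
    P * Q = (C.ldcI P Q).map C.ldcμ := by
  refine le_antisymm (Submodule.mul_le.mpr fun a ha b hb => ?_) ?_
  · refine ⟨(⟨a, hP a ha⟩ : ↥C.ldcA) ⊗ₜ[ℂ] (⟨b, hQ b hb⟩ : ↥C.ldcA'), ?_, rfl⟩
    exact Submodule.apply_mem_map₂ (TensorProduct.mk ℂ _ _) (m := (⟨a, hP a ha⟩ : ↥C.ldcA))
      (n := (⟨b, hQ b hb⟩ : ↥C.ldcA')) ha hb
  · refine Submodule.map_le_iff_le_comap.mpr (Submodule.map₂_le.mpr fun v hv w hw => ?_)
    exact Submodule.mul_mem_mul hv hw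

theorem ldc_mem (P Q : Submodule ℂ F) (hP : ∀ y ∈ P, y ∈ C.KC) (hQ : ∀ y ∈ Q, y ∈ C.KF)
    (z : ↥C.ldcA ⊗[ℂ] ↥C.ldcA') : C.ldcμ z ∈ P * Q ↔ z ∈ C.ldcI P Q := by
  rw [C.ldc_image P Q hP hQ]
  refine ⟨fun ⟨w, hw, e⟩ => C.ldcμ_inj e ▸ hw, fun h => ⟨z, h, rfl⟩⟩

theorem inf_mul (P0 P1 Q0 Q1 : Submodule ℂ F) (hP0 : ∀ y ∈ P0, y ∈ C.KC)
    (hP1 : ∀ y ∈ P1, y ∈ C.KC) (hQ0 : ∀ y ∈ Q0, y ∈ C.KF) (hQ1 : ∀ y ∈ Q1, y ∈ C.KF) :
    (P0 * Q0) ⊓ (P1 * Q1) = (P0 ⊓ P1) * (Q0 ⊓ Q1) := by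
  refine le_antisymm ?_ (Submodule.mul_le.mpr fun a ha b hb =>
    ⟨Submodule.mul_mem_mul ha.1 hb.1, Submodule.mul_mem_mul ha.2 hb.2⟩)
  rintro y ⟨h0, h1⟩
  have h0' := h0
  rw [SetLike.mem_coe, C.ldc_image P0 Q0 hP0 hQ0] at h0'
  obtain ⟨z, hz, rfl⟩ := h0'
  rw [C.ldc_mem (P0 ⊓ P1) (Q0 ⊓ Q1) (fun y hy => hP0 y hy.1) (fun y hy => hQ0 y hy.1)]
  have h1' := (C.ldc_mem P1 Q1 hP1 hQ1 z).mp h1
  have h2 := ldc_inf (P0.comap C.ldcA.subtype) (P1.comap C.ldcA.subtype)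
    (Q0.comap C.ldcA'.subtype) (Q1.comap C.ldcA'.subtype)
    (Submodule.mem_inf.mpr ⟨hz, h1'⟩)
  rw [← Submodule.comap_inf, ← Submodule.comap_inf] at h2
  exact h2

theorem finrank_mul (P Q : Submodule ℂ F) (hP : ∀ y ∈ P, y ∈ C.KC) (hQ : ∀ y ∈ Q, y ∈ C.KF) :
    Module.finrank ℂ ↥(P * Q) = Module.finrank ℂ P * Module.finrank ℂ Q := by
  have h : P.LinearDisjoint Q := C.ldc_disj.of_le_of_flat_left hP hQ
  rw [← Module.finrank_tensorProduct (R := ℂ) (M := P) (M' := Q)]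
  exact h.mulMap.finrank_eq.symm

theorem kunneth (Ps P0 P1 HP Qs Q0 Q1 HQ : Submodule ℂ F) (hPs : ∀ y ∈ Ps, y ∈ C.KC)
    (hQs : ∀ y ∈ Qs, y ∈ C.KF) (hP : Ps = P0 ⊔ P1 ⊔ HP) (hQ : Qs = Q0 ⊔ Q1 ⊔ HQ)
    (hPd : Disjoint (P0 ⊔ P1) HP) (hQd : Disjoint (Q0 ⊔ Q1) HQ) (u00 u10 u01 u11 : F)
    (h1 : u10 - u00 ∈ Ps * Q0) (h2 : u11 - u01 ∈ Ps * Q1) (h3 : u01 - u00 ∈ P0 * Qs)
    (h4 : u11 - u10 ∈ P1 * Qs) :
    ∃ c : F, ∃ h ∈ HP * (Q0 ⊓ Q1), ∃ k ∈ (P0 ⊓ P1) * HQ,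
      u00 - c ∈ P0 * Q0 ∧ u10 - c - h ∈ P1 * Q0 ∧ u01 - c - k ∈ P0 * Q1 ∧
      u11 - c - h - k ∈ P1 * Q1 := by
  have p0 : ∀ y ∈ P0, y ∈ C.KC := fun y hy =>
    hPs y (hP ▸ (Submodule.mem_sup_left (Submodule.mem_sup_left hy)))
  have p1 : ∀ y ∈ P1, y ∈ C.KC := fun y hy =>
    hPs y (hP ▸ (Submodule.mem_sup_left (Submodule.mem_sup_right hy)))
  have p2 : ∀ y ∈ HP, y ∈ C.KC := fun y hy => hPs y (hP ▸ (Submodule.mem_sup_right hy))
  have q0 : ∀ y ∈ Q0, y ∈ C.KF := fun y hy =>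
    hQs y (hQ ▸ (Submodule.mem_sup_left (Submodule.mem_sup_left hy)))
  have q1 : ∀ y ∈ Q1, y ∈ C.KF := fun y hy =>
    hQs y (hQ ▸ (Submodule.mem_sup_left (Submodule.mem_sup_right hy)))
  have q2 : ∀ y ∈ HQ, y ∈ C.KF := fun y hy => hQs y (hQ ▸ (Submodule.mem_sup_right hy))
  -- comap commutes with sup for subspaces of `KC`
  have key : ∀ (A P R : Submodule ℂ F), P ≤ A → R ≤ A →
      (P ⊔ R).comap A.subtype = P.comap A.subtype ⊔ R.comap A.subtype := by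
    intro A P R hP hR
    refine le_antisymm ?_ (sup_le (Submodule.comap_mono le_sup_left)
      (Submodule.comap_mono le_sup_right))
    intro y hy
    obtain ⟨a, ha, b, hb, hab⟩ := Submodule.mem_sup.mp (Submodule.mem_comap.mp hy)
    exact Submodule.mem_sup.mpr ⟨⟨a, hP ha⟩, ha, ⟨b, hR hb⟩, hb, Subtype.ext hab⟩
  have dis : ∀ (A P R : Submodule ℂ F), Disjoint P R →
      Disjoint (P.comap A.subtype) (R.comap A.subtype) := by
    intro A P R h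
    rw [Submodule.disjoint_def] at h ⊢
    intro y hy hy'
    exact Subtype.ext (h y.1 hy hy')
  have eP : Ps.comap C.ldcA.subtype = P0.comap C.ldcA.subtype ⊔ P1.comap C.ldcA.subtype ⊔
      HP.comap C.ldcA.subtype := by
    rw [hP, key C.ldcA (P0 ⊔ P1) HP (sup_le p0 p1) p2, key C.ldcA P0 P1 p0 p1]
  have eQ : Qs.comap C.ldcA'.subtype = Q0.comap C.ldcA'.subtype ⊔ Q1.comap C.ldcA'.subtype ⊔
      HQ.comap C.ldcA'.subtype := by
    rw [hQ, key C.ldcA' (Q0 ⊔ Q1) HQ (sup_le q0 q1) q2, key C.ldcA' Q0 Q1 q0 q1]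
  have dP := dis C.ldcA _ _ hPd
  rw [key C.ldcA P0 P1 p0 p1] at dP
  have dQ := dis C.ldcA' _ _ hQd
  rw [key C.ldcA' Q0 Q1 q0 q1] at dQ
  rw [C.ldc_image Ps Q0 hPs q0] at h1
  rw [C.ldc_image Ps Q1 hPs q1] at h2
  rw [C.ldc_image P0 Qs p0 hQs] at h3
  rw [C.ldc_image P1 Qs p1 hQs] at h4
  obtain ⟨α, hα, h1⟩ := h1
  obtain ⟨β, hβ, h2⟩ := h2
  obtain ⟨γ0, hγ0, h3⟩ := h3
  obtain ⟨γ1, hγ1, h4⟩ := h4
  unfold ldcI at hα hβ hγ0 hγ1
  rw [eP] at hα hβ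
  rw [eQ] at hγ0 hγ1
  have h5 : α + γ1 = γ0 + β := by
    apply C.ldcμ_inj
    rw [map_add, map_add, h1, h2, h3, h4]
    ring
  obtain ⟨x, h, hh, k, hk, m0, m1, m2, m3⟩ := ldc_kunneth _ _ _ _ _ _ dP dQ α β γ0 γ1 hα hβ
    hγ0 hγ1 h5
  refine ⟨u00 - C.ldcμ x, C.ldcμ h, ?_, C.ldcμ k, ?_, ?_, ?_, ?_, ?_⟩
  · exact (C.ldc_mem HP (Q0 ⊓ Q1) p2 (fun y hy => q0 y hy.1) h).mpr hh
  · exact (C.ldc_mem (P0 ⊓ P1) HQ (fun y hy => p0 y hy.1) q2 k).mpr hk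
  · have : u00 - (u00 - C.ldcμ x) = C.ldcμ x := by ring
    rw [this, C.ldc_mem P0 Q0 p0 q0]
    exact m0
  · have : u10 - (u00 - C.ldcμ x) - C.ldcμ h = C.ldcμ (α + x - h) := by
      rw [map_sub, map_add, h1]; ring
    rw [this, C.ldc_mem P1 Q0 p1 q0]
    exact m1
  · have : u01 - (u00 - C.ldcμ x) - C.ldcμ k = C.ldcμ (γ0 + x - k) := by
      rw [map_sub, map_add, h3]; ring
    rw [this, C.ldc_mem P0 Q1 p0 q1]
    exact m2
  · have : u11 - (u00 - C.ldcμ x) - C.ldcμ h - C.ldcμ k = C.ldcμ (α + γ1 + x - h - k) := by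
      rw [map_sub, map_sub, map_add, map_add, h1, h4]; ring
    rw [this, C.ldc_mem P1 Q1 p1 q1]
    exact m3

end Cfg

end

end Pool.Agent.EllMod
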