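import Pool.Agent.MP_77976d_ag.Ic
import Pool.Agent.MP_77976d_ag.Ldc

/-! # GF : generic fibres -/

open scoped TensorProduct
open IsLocalRing

namespace Pool.Agent.EllMod

noncomputable section

variable {F : Type} [Field F] [Algebra ℂ F] (C : Cfg F)

section GfGen

theorem Gf_sc_eq (y : F) (P : Submodule ℂ F) : sc y P = Submodule.span ℂ {y} * P := by
  ext v
  rw [mem_sc, Submodule.mem_span_singleton_mul]

theorem Gf_secs_eq {c : F} (hc : c ≠ 0) (Q0 Q1 : Submodule ℂ F) (n : ℕ) :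
    secs c Q0 Q1 n = Q0 ⊓ sc (c ^ n) Q1 := by
  ext v
  rw [mem_secs, Submodule.mem_inf, mem_sc]
  refine and_congr_right fun _ => ?_
  constructor
  · intro h
    refine ⟨_, h, ?_⟩
    rw [← mul_assoc, ← mul_pow, mul_inv_cancel₀ hc, one_pow, one_mul]
  · rintro ⟨w, hw, rfl⟩
    rwa [← mul_assoc, ← mul_pow, inv_mul_cancel₀ hc, one_pow, one_mul]

theorem Gf_mem_mul_sc {c : F} (hc : c ≠ 0) (L Q1 : Submodule ℂ F) (n : ℕ) (v : F) :
    c⁻¹ ^ n * v ∈ L * Q1 ↔ v ∈ L * sc (c ^ n) Q1 := by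
  rw [Gf_sc_eq, mul_left_comm, Submodule.mem_span_singleton_mul]
  constructor
  · intro h
    refine ⟨_, h, ?_⟩
    rw [← mul_assoc, ← mul_pow, mul_inv_cancel₀ hc, one_pow, one_mul]
  · rintro ⟨w, hw, rfl⟩
    rwa [← mul_assoc, ← mul_pow, inv_mul_cancel₀ hc, one_pow, one_mul]

/-- a quadratic extension inside `F` -/
theorem Gf_quad (κ : IntermediateField ℂ F) (s : F) (h : s ^ 2 ∈ κ) (σ : F ≃ₐ[ℂ] F)
    (hσ : ∀ y ∈ κ, σ y = y) (hs : σ s = -s) :
    ∃ L : IntermediateField ℂ F, ∀ y, y ∈ L ↔ ∃ α ∈ κ, ∃ β ∈ κ, y = α + β * s := by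
  refine ⟨{ carrier := {y | ∃ α ∈ κ, ∃ β ∈ κ, y = α + β * s}
            mul_mem' := ?_, add_mem' := ?_, algebraMap_mem' := ?_, inv_mem' := ?_ },
    fun y => Iff.rfl⟩
  · rintro _ _ ⟨a, ha, b, hb, rfl⟩ ⟨c, hc, d, hd, rfl⟩
    refine ⟨a * c + b * d * s ^ 2, add_mem (mul_mem ha hc) (mul_mem (mul_mem hb hd) h),
      a * d + b * c, add_mem (mul_mem ha hd) (mul_mem hb hc), by ring⟩
  · rintro _ _ ⟨a, ha, b, hb, rfl⟩ ⟨c, hc, d, hd, rfl⟩
    exact ⟨a + c, add_mem ha hc, b + d, add_mem hb hd, by ring⟩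
  · intro r
    exact ⟨_, κ.algebraMap_mem r, 0, zero_mem _, by ring⟩
  · rintro _ ⟨a, ha, b, hb, rfl⟩
    by_cases h0 : a + b * s = 0
    · exact ⟨0, zero_mem _, 0, zero_mem _, by rw [h0]; simp⟩
    · have h1 : σ (a + b * s) = a - b * s := by
        rw [map_add, map_mul, hσ a ha, hσ b hb, hs]; ring
      have h2 : a - b * s ≠ 0 := by
        rw [← h1]; exact (map_ne_zero σ).2 h0
      have h3 : (a ^ 2 - b ^ 2 * s ^ 2) ∈ κ :=
        sub_mem (pow_mem ha 2) (mul_mem (pow_mem hb 2) h)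
      refine ⟨a * (a ^ 2 - b ^ 2 * s ^ 2)⁻¹, mul_mem ha (inv_mem h3),
        -b * (a ^ 2 - b ^ 2 * s ^ 2)⁻¹, mul_mem (neg_mem hb) (inv_mem h3), ?_⟩
      have h4 : a ^ 2 - b ^ 2 * s ^ 2 = (a + b * s) * (a - b * s) := by ring
      rw [h4]
      field_simp
      ring

end GfGen

namespace Cfg

theorem Gf_t_ne : C.t ≠ 0 := C.indep.ne_zero 0
theorem Gf_x_ne : C.x ≠ 0 := C.indep.ne_zero 1

/-- sign -/
def GfS (b : Bool) (v : F) : F := if b then v else -v

theorem Gf_even (κ : IntermediateField ℂ ↥C.K) (L Q : Submodule ℂ F) {r : ℕ}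
    (e : Bool → Fin r → F)
    (hdec : ∀ y ∈ L, ∃ c : Bool → Fin r → ↥C.K, (∀ ε k, c ε k ∈ κ) ∧
      y = ∑ ε, ∑ k, (c ε k : F) * e ε k)
    (U : Set ↥C.K)
    (hU : ∀ ε k, ∀ f ∈ Q, ∃ u ∈ Submodule.span κ U, (u : F) = e ε k * f + C.ι (e ε k * f)) :
    ∀ w ∈ L * Q, ∃ u ∈ Submodule.span κ U, (u : F) = w + C.ι w := by
  have hadd : ∀ w w' : F, (∃ u ∈ Submodule.span κ U, (u : F) = w + C.ι w) →
      (∃ u ∈ Submodule.span κ U, (u : F) = w' + C.ι w') →
      ∃ u ∈ Submodule.span κ U, (u : F) = (w + w') + C.ι (w + w') := by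
    rintro w w' ⟨u, hu, hu'⟩ ⟨v, hv, hv'⟩
    refine ⟨u + v, Submodule.add_mem _ hu hv, ?_⟩
    rw [map_add]; push_cast; rw [hu', hv']; ring
  have hz : ∃ u ∈ Submodule.span κ U, (u : F) = (0 : F) + C.ι 0 :=
    ⟨0, Submodule.zero_mem _, by simp⟩
  have hsum : ∀ {J : Type} (s : Finset J) (w : J → F),
      (∀ j ∈ s, ∃ u ∈ Submodule.span κ U, (u : F) = w j + C.ι (w j)) →
      ∃ u ∈ Submodule.span κ U, (u : F) = (∑ j ∈ s, w j) + C.ι (∑ j ∈ s, w j) := by
    intro J s w
    classical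
    induction s using Finset.induction_on with
    | empty => intro _; simp
    | insert a s ha ih =>
      intro h
      rw [Finset.sum_insert ha]
      exact hadd _ _ (h a (Finset.mem_insert_self a s))
        (ih fun j hj => h j (Finset.mem_insert_of_mem hj))
  intro w hw
  refine Submodule.mul_induction_on hw ?_ hadd
  intro y hy f hf
  obtain ⟨c, hc, rfl⟩ := hdec y hy
  rw [Finset.sum_mul]
  refine hsum _ _ fun ε _ => ?_
  rw [Finset.sum_mul]
  refine hsum _ _ fun k _ => ?_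
  obtain ⟨u, hu, hu'⟩ := hU ε k f hf
  refine ⟨c ε k * u, Submodule.smul_mem _ (⟨c ε k, hc ε k⟩ : κ) hu, ?_⟩
  push_cast
  rw [hu', mul_assoc, map_mul C.ι (c ε k : F), (C.mem_K.1 (c ε k).2)]
  ring

theorem Gf_char : CharZero F := charZero_of_injective_algebraMap (algebraMap ℂ F).injective

theorem Gf_fix (φ : F →ₐ[ℂ] F) (S : Set F) (h : ∀ y ∈ S, φ y = y) :
    ∀ y ∈ IntermediateField.adjoin ℂ S, φ y = y := by
  intro y hy
  induction hy using IntermediateField.adjoin_induction with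
  | mem x hx => exact h x hx
  | algebraMap x => exact φ.commutes x
  | add x y _ _ hx hy => rw [map_add, hx, hy]
  | inv x _ hx => rw [map_inv₀, hx]
  | mul x y _ _ hx hy => rw [map_mul, hx, hy]

theorem Gf_ιι (v : F) : C.ι (C.ι v) = v := by
  have h := Gf_fix ((C.ι.trans C.ι : F ≃ₐ[ℂ] F) : F →ₐ[ℂ] F) {C.t, C.x, C.s, C.p, C.q} ?_ v
    (by rw [C.gen]; trivial)
  · exact h
  · intro y hy
    change C.ι (C.ι y) = y
    rcases hy with rfl | rfl | rfl | rfl | rfl
    · simp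
    · simp
    · simp
    · simp
    · simp

theorem Gf_homog (Q : Submodule ℂ F) [FiniteDimensional ℂ Q] (hQ : ∀ y ∈ Q, C.ι y ∈ Q) :
    ∃ (J : Type) (_ : Fintype J) (q : J → F) (δ : J → Bool), LinearIndependent ℂ q ∧
      Submodule.span ℂ (Set.range q) = Q ∧ (∀ j, C.ι (q j) = GfS (δ j) (q j)) ∧
      Fintype.card J = Module.finrank ℂ Q := by
  classical
  have hchar : CharZero F := Gf_char
  set Qp : Submodule ℂ F := Q ⊓ LinearMap.ker (C.ι.toLinearMap - LinearMap.id) with hQp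
  set Qm : Submodule ℂ F := Q ⊓ LinearMap.ker (C.ι.toLinearMap + LinearMap.id) with hQm
  have mp : ∀ v, v ∈ Qp ↔ v ∈ Q ∧ C.ι v = v := by
    intro v
    rw [hQp, Submodule.mem_inf, LinearMap.mem_ker, LinearMap.sub_apply, sub_eq_zero]
    rfl
  have mm : ∀ v, v ∈ Qm ↔ v ∈ Q ∧ C.ι v = -v := by
    intro v
    rw [hQm, Submodule.mem_inf, LinearMap.mem_ker, LinearMap.add_apply, add_eq_zero_iff_eq_neg]
    rfl
  have : FiniteDimensional ℂ Qp := Submodule.finiteDimensional_of_le inf_le_left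
  have : FiniteDimensional ℂ Qm := Submodule.finiteDimensional_of_le inf_le_left
  let bp := Module.finBasis ℂ Qp
  let bm := Module.finBasis ℂ Qm
  have sp : Submodule.span ℂ (Set.range fun i => (bp i : F)) = Qp := by
    have := congrArg (Submodule.map Qp.subtype) bp.span_eq
    rw [Submodule.map_span, Submodule.map_top, Submodule.range_subtype, ← Set.range_comp] at this
    exact this
  have sm' : Submodule.span ℂ (Set.range fun i => (bm i : F)) = Qm := by
    have := congrArg (Submodule.map Qm.subtype) bm.span_eq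
    rw [Submodule.map_span, Submodule.map_top, Submodule.range_subtype, ← Set.range_comp] at this
    exact this
  have hli : LinearIndependent ℂ (Sum.elim (fun i => (bp i : F)) (fun i => (bm i : F))) := by
    refine LinearIndependent.sum_type ?_ ?_ ?_
    · exact bp.linearIndependent.map' Qp.subtype (Submodule.ker_subtype _)
    · exact bm.linearIndependent.map' Qm.subtype (Submodule.ker_subtype _)
    · rw [sp, sm', Submodule.disjoint_def]
      intro v hv hv'
      have h1 := ((mp v).1 hv).2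
      have h2 := ((mm v).1 hv').2
      have : (2 : F) * v = 0 := by rw [h1] at h2; linear_combination h2
      exact (mul_eq_zero.1 this).resolve_left two_ne_zero
  have hspan : Submodule.span ℂ (Set.range
      (Sum.elim (fun i => (bp i : F)) (fun i => (bm i : F)))) = Q := by
    rw [Set.Sum.elim_range, Submodule.span_union, sp, sm']
    apply le_antisymm
    · exact sup_le inf_le_left inf_le_left
    · intro v hv
      have h1 : v = (2⁻¹ : ℂ) • (v + C.ι v) + (2⁻¹ : ℂ) • (v - C.ι v) := by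
        rw [← smul_add, show v + C.ι v + (v - C.ι v) = (2 : ℂ) • v from ?_, smul_smul]
        · norm_num
        · rw [two_smul]; ring
      have hι := C.Gf_ιι v
      rw [h1]
      refine Submodule.add_mem_sup (Submodule.smul_mem _ _ ?_) (Submodule.smul_mem _ _ ?_)
      · rw [mp]
        refine ⟨add_mem hv (hQ v hv), ?_⟩
        rw [map_add, hι, add_comm]
      · rw [mm]
        refine ⟨sub_mem hv (hQ v hv), ?_⟩
        rw [map_sub, hι]; ring
  refine ⟨_, inferInstance, _, Sum.elim (fun _ => true) (fun _ => false), hli, hspan, ?_, ?_⟩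
  · rintro (i | i)
    · exact ((mp _).1 (bp i).2).2
    · exact ((mm _).1 (bm i).2).2
  · rw [← finrank_span_eq_card hli, hspan]

theorem Gf_LD' {J : Type} [Fintype J] (u : J → F) (hu : ∀ j, u j ∈ C.KF)
    (hli : LinearIndependent ℂ u) (c : J → F) (hc : ∀ j, c j ∈ C.KC)
    (h : ∑ j, c j * u j = 0) : ∀ j, c j = 0 := by
  classical
  set P : Submodule ℂ F := Submodule.span ℂ (Set.range c) with hP
  have : FiniteDimensional ℂ P := FiniteDimensional.span_of_finite ℂ (Set.finite_range c)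
  have hPK : P ≤ sm C.KC.toSubalgebra := by
    rw [hP, Submodule.span_le]
    rintro _ ⟨j, rfl⟩
    exact hc j
  let b := Module.finBasis ℂ P
  have hcP : ∀ j, c j ∈ P := fun j => Submodule.subset_span ⟨j, rfl⟩
  have hexp : ∀ j, c j = ∑ k, (b.repr ⟨c j, hcP j⟩ k) • (b k : F) := by
    intro j
    have := congrArg Subtype.val (b.sum_repr ⟨c j, hcP j⟩)
    refine this.symm.trans ?_
    push_cast
    rfl
  have h1 := C.LD (κ := Fin (Module.finrank ℂ P)) (fun k => (b k : F))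
    (fun k => ∑ j, (b.repr ⟨c j, hcP j⟩ k) • u j) Finset.univ (fun k => hPK (b k).2)
    (b.linearIndependent.map' P.subtype (Submodule.ker_subtype _))
    (fun k => by
      refine sum_mem fun j _ => ?_
      rw [Algebra.smul_def]
      exact mul_mem (C.KF.algebraMap_mem _) (hu j))
    (by
      rw [← h]
      simp_rw [Finset.mul_sum]
      rw [Finset.sum_comm]
      refine Finset.sum_congr rfl fun j _ => ?_
      conv_rhs => rw [hexp j]
      rw [Finset.sum_mul]
      refine Finset.sum_congr rfl fun k _ => ?_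
      rw [mul_smul_comm, smul_mul_assoc])
  intro j
  rw [hexp j]
  refine Finset.sum_eq_zero fun k _ => ?_
  have h2 := Fintype.linearIndependent_iff.1 hli _ (h1 k (Finset.mem_univ k)) j
  rw [h2, zero_smul]

theorem Gf_main (κ : IntermediateField ℂ ↥C.K) (L Q : Submodule ℂ F) {r : ℕ}
    (e : Bool → Fin r → F) (he : ∀ ε k, e ε k ∈ L) (hι : ∀ ε k, C.ι (e ε k) = GfS ε (e ε k))
    (hκL : ∀ c ∈ κ, ∀ y ∈ L, (c : F) * y ∈ L)
    (hdec : ∀ y ∈ L, ∃ c : Bool → Fin r → ↥C.K, (∀ ε k, c ε k ∈ κ) ∧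
      y = ∑ ε, ∑ k, (c ε k : F) * e ε k)
    (hind : ∀ ε (c : Fin r → ↥C.K), (∀ k, c k ∈ κ) → ∑ k, (c k : F) * e ε k = 0 →
      ∀ k, c k = 0)
    [FiniteDimensional ℂ Q] (hQ : ∀ y ∈ Q, C.ι y ∈ Q)
    (hLD : ∀ (J : Type) (_ : Fintype J) (q : J → F), LinearIndependent ℂ q → (∀ j, q j ∈ Q) →
      ∀ d : J → F, (∀ j, d j ∈ L) → ∑ j, d j * q j = 0 → ∀ j, d j = 0)
    (S : Submodule κ ↥C.K) (hS : ∀ v : ↥C.K, v ∈ S ↔ (v : F) ∈ L * Q) :
    Module.finrank κ S = Module.finrank ℂ Q * r := by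
  classical
  obtain ⟨J, hJ, q, δ, hli, hspan, hq, hcard⟩ := C.Gf_homog Q hQ
  have hqQ : ∀ j, q j ∈ Q := fun j => hspan ▸ Submodule.subset_span ⟨j, rfl⟩
  have heven : ∀ (j : J) (k : Fin r), C.ι (e (δ j) k * q j) = e (δ j) k * q j := by
    intro j k
    rw [map_mul, hι, hq]
    cases δ j <;> simp [GfS]
  let z : J × Fin r → ↥C.K := fun jk => ⟨e (δ jk.1) jk.2 * q jk.1, heven jk.1 jk.2⟩
  have hzli : LinearIndependent κ z := by
    rw [Fintype.linearIndependent_iff]
    intro g hg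
    have h1 : ∑ j, (∑ k, ((g (j, k) : ↥C.K) : F) * e (δ j) k) * q j = 0 := by
      have h2 := congrArg (Subtype.val : ↥C.K → F) hg
      rw [Fintype.sum_prod_type] at h2
      have h3 : ((∑ j, ∑ k, g (j, k) • z (j, k) : ↥C.K) : F) =
          ∑ j, (∑ k, ((g (j, k) : ↥C.K) : F) * e (δ j) k) * q j := by
        push_cast
        refine Finset.sum_congr rfl fun j _ => ?_
        rw [Finset.sum_mul]
        refine Finset.sum_congr rfl fun k _ => ?_
        change ((g (j, k) : ↥C.K) : F) * (e (δ j) k * q j) = _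
        ring
      rw [← h3]
      exact h2
    have h4 := hLD J hJ q hli hqQ _ (fun j => ?_) h1
    · rintro ⟨j, k⟩
      have h5 := hind (δ j) (fun k => (g (j, k) : ↥C.K)) (fun k => (g (j, k)).2) (h4 j) k
      exact Subtype.ext h5
    · exact sum_mem fun k _ => hκL _ (g (j, k)).2 _ (he _ _)
  have hS' : S = Submodule.span κ (Set.range z) := by
    apply le_antisymm
    · intro v hv
      have hev := C.Gf_even κ L Q e hdec (Set.range z) ?_ (v : F) ((hS v).1 hv)
      · obtain ⟨u, hu, hu'⟩ := hev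
        have h1 : u = (2 : ↥C.K) * v := by
          apply Subtype.ext
          rw [hu', (C.mem_K.1 v.2)]
          change (v : F) + v = 2 * v
          ring
        have h2 : v = (2⁻¹ : ↥C.K) * u := by
          rw [h1, ← mul_assoc, inv_mul_cancel₀ two_ne_zero, one_mul]
        rw [h2]
        exact Submodule.smul_mem _ (2⁻¹ : κ) hu
      · intro ε k f hf
        have hf' : f ∈ Submodule.span ℂ (Set.range q) := by rw [hspan]; exact hf
        induction hf' using Submodule.span_induction with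
        | mem x hx =>
          obtain ⟨j, rfl⟩ := hx
          by_cases hεj : ε = δ j
          · subst hεj
            refine ⟨(2 : ↥C.K) * z (j, k), Submodule.smul_mem _ (2 : κ)
              (Submodule.subset_span ⟨(j, k), rfl⟩), ?_⟩
            rw [heven]
            change 2 * (e (δ j) k * q j) = _
            ring
          · refine ⟨0, Submodule.zero_mem _, ?_⟩
            rw [map_mul, hι, hq]
            cases hε : ε <;> cases hδ : δ j
            · exact absurd (hε.trans hδ.symm) hεj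
            · simp [GfS]
            · simp [GfS]
            · exact absurd (hε.trans hδ.symm) hεj
        | zero => exact ⟨0, Submodule.zero_mem _, by simp⟩
        | add x y hx' hy' hx hy =>
          rw [hspan] at hx' hy'
          obtain ⟨u, hu, hu'⟩ := hx hx'
          obtain ⟨w, hw, hw'⟩ := hy hy'
          refine ⟨u + w, Submodule.add_mem _ hu hw, ?_⟩
          rw [mul_add, map_add]
          push_cast
          rw [hu', hw']
          ring
        | smul c x hx' hx =>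
          rw [hspan] at hx'
          obtain ⟨u, hu, hu'⟩ := hx hx'
          refine ⟨c • u, ?_, ?_⟩
          · have : c • u = (algebraMap ℂ κ c) • u := by
              rw [algebraMap_smul]
            rw [this]
            exact Submodule.smul_mem _ _ hu
          · rw [mul_smul_comm, map_smul, ← smul_add, ← hu']
            rfl
    · rw [Submodule.span_le]
      rintro _ ⟨⟨j, k⟩, rfl⟩
      rw [SetLike.mem_coe, hS]
      exact Submodule.mul_mem_mul (he _ _) (hqQ j)
  rw [hS', finrank_span_eq_card hzli, Fintype.card_prod, Fintype.card_fin, hcard]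

theorem Gf_Lmul (L : Subalgebra ℂ F) (Q : Submodule ℂ F) (c w : F) (hc : c ∈ L)
    (hw : w ∈ sm L * Q) : c * w ∈ sm L * Q := by
  have h1 : c * w ∈ sm L * (sm L * Q) := Submodule.mul_mem_mul hc hw
  rw [← mul_assoc] at h1
  refine (mul_le_mul_left ?_ Q) h1
  rw [Submodule.mul_le]
  exact fun x hx y hy => L.mul_mem hx hy

theorem Gf_mul_mono {L L' Q : Submodule ℂ F} (h : L ≤ L') {w : F} (hw : w ∈ L * Q) :
    w ∈ L' * Q := (mul_le_mul_left h Q) hw

theorem Gf_A (κ : IntermediateField ℂ ↥C.K) (L : Subalgebra ℂ F) {r : ℕ}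
    (e : Bool → Fin r → F) (hκL : ∀ c ∈ κ, (c : F) ∈ L)
    (hdec : ∀ y ∈ sm L, ∃ c : Bool → Fin r → ↥C.K, (∀ ε k, c ε k ∈ κ) ∧
      y = ∑ ε, ∑ k, (c ε k : F) * e ε k)
    (R' : Subalgebra ℂ ↥C.K) (B' : Subalgebra ℂ F) (hR : ∀ r : ↥C.K, r ∈ R' ↔ (r : F) ∈ B')
    (hιB : ∀ y ∈ B', C.ι y ∈ B') (Q : Subalgebra ℂ F) (hQ : Q ≤ B') (he : ∀ ε k, e ε k ∈ B')
    (hBL : ∀ y ∈ B', y ∈ sm L * sm Q) (v : ↥C.K) :
    v ∈ Submodule.span κ (R' : Set ↥C.K) ↔ (v : F) ∈ sm L * sm Q := by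
  constructor
  · intro hv
    induction hv using Submodule.span_induction with
    | mem x hx => exact hBL _ ((hR x).1 hx)
    | zero => exact Submodule.zero_mem _
    | add x y _ _ hx hy => exact Submodule.add_mem _ hx hy
    | smul c x _ hx => exact Gf_Lmul L _ _ _ (hκL _ c.2) hx
  · intro hv
    obtain ⟨u, hu, hu'⟩ := C.Gf_even κ (sm L) (sm Q) e hdec (R' : Set ↥C.K) (by
      intro ε k f hf
      have h1 : e ε k * f ∈ B' := mul_mem (he ε k) (hQ hf)
      refine ⟨⟨e ε k * f + C.ι (e ε k * f), ?_⟩, Submodule.subset_span ?_, rfl⟩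
      · rw [mem_K, map_add, Gf_ιι, add_comm]
      · rw [SetLike.mem_coe, hR]
        exact add_mem h1 (hιB _ h1)) (v : F) hv
    have h1 : u = (2 : ↥C.K) * v := by
      apply Subtype.ext
      rw [hu', (C.mem_K.1 v.2)]
      change (v : F) + v = 2 * v
      ring
    have h2 : v = (2⁻¹ : ↥C.K) * u := by
      have : CharZero ↥C.K :=
        charZero_of_injective_algebraMap (algebraMap ℂ ↥C.K).injective
      rw [h1, ← mul_assoc, inv_mul_cancel₀ two_ne_zero, one_mul]
    rw [h2]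
    exact Submodule.smul_mem _ (2⁻¹ : κ) hu

theorem Gf_map_mem {S : Set ↥C.K} {y : F}
    (hy : y ∈ IntermediateField.adjoin ℂ (Subtype.val '' S)) :
    ∃ c ∈ IntermediateField.adjoin ℂ S, (c : F) = y := by
  have h := IntermediateField.adjoin_map ℂ S C.K.val
  have : y ∈ (IntermediateField.adjoin ℂ S).map C.K.val := by
    rw [h]; exact hy
  exact this

/-- `KC = ℂ(t) + ℂ(t) s` -/
theorem Gf_KC (y : F) (hy : y ∈ C.KC) : ∃ α ∈ IntermediateField.adjoin ℂ {C.t},
    ∃ β ∈ IntermediateField.adjoin ℂ {C.t}, y = α + β * C.s := by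
  obtain ⟨L, hL⟩ := Gf_quad (IntermediateField.adjoin ℂ {C.t}) C.s (by
      rw [C.hs]
      have ht : C.t ∈ IntermediateField.adjoin ℂ {C.t} :=
        IntermediateField.subset_adjoin _ _ (Set.mem_singleton _)
      have n2 : (2 : F) ∈ IntermediateField.adjoin ℂ {C.t} := ofNat_mem _ 2
      have n1 : (1 : F) ∈ IntermediateField.adjoin ℂ {C.t} := one_mem _
      exact add_mem (add_mem (add_mem (add_mem (sub_mem (pow_mem ht 6) (mul_mem n2
        (pow_mem ht 5))) (pow_mem ht 4)) (mul_mem n2 (pow_mem ht 3))) (mul_mem n2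
        (pow_mem ht 2))) n1) C.σs
    (Gf_fix (C.σs : F →ₐ[ℂ] F) {C.t} (by rintro _ rfl; exact C.σs_t)) C.σs_s
  have h1 : C.KC ≤ L := by
    unfold KC
    rw [IntermediateField.adjoin_le_iff]
    rintro _ (rfl | rfl)
    · exact (hL _).2 ⟨_, IntermediateField.subset_adjoin _ _ (Set.mem_singleton _), 0,
        zero_mem _, by ring⟩
    · exact (hL _).2 ⟨0, zero_mem _, 1, one_mem _, by ring⟩
  exact (hL y).1 (h1 hy)

/-- `KF = ℂ(x) + ℂ(x) p + ℂ(x) q + ℂ(x) p q` -/
theorem Gf_KF (y : F) (hy : y ∈ C.KF) : ∃ α ∈ IntermediateField.adjoin ℂ {C.x},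
    ∃ β ∈ IntermediateField.adjoin ℂ {C.x}, ∃ γ ∈ IntermediateField.adjoin ℂ {C.x},
    ∃ δ ∈ IntermediateField.adjoin ℂ {C.x}, y = (α + β * C.p) + (γ + δ * C.p) * C.q := by
  have hx : C.x ∈ IntermediateField.adjoin ℂ {C.x} :=
    IntermediateField.subset_adjoin _ _ (Set.mem_singleton _)
  obtain ⟨L, hL⟩ := Gf_quad (IntermediateField.adjoin ℂ {C.x}) C.p (by
      rw [C.hp]
      exact add_mem (pow_mem hx 2) (one_mem _)) C.σp
    (Gf_fix (C.σp : F →ₐ[ℂ] F) {C.x} (by rintro _ rfl; exact C.σp_x)) C.σp_p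
  obtain ⟨L', hL'⟩ := Gf_quad L C.q (by
      rw [C.hq, hL]
      exact ⟨_, sub_mem (pow_mem hx 2) (one_mem _), 0, zero_mem _, by ring⟩) C.σq (by
      intro y hy
      obtain ⟨α, hα, β, hβ, rfl⟩ := (hL y).1 hy
      have hf := Gf_fix (C.σq : F →ₐ[ℂ] F) {C.x} (by rintro _ rfl; exact C.σq_x)
      rw [map_add, map_mul, C.σq_p]
      exact congrArg₂ _ (hf α hα) (congrArg₂ _ (hf β hβ) rfl)) C.σq_q
  have h1 : C.KF ≤ L' := by
    unfold KF
    rw [IntermediateField.adjoin_le_iff]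
    rintro _ (rfl | rfl | rfl)
    · exact (hL' _).2 ⟨_, (hL _).2 ⟨_, hx, 0, zero_mem _, by ring⟩, 0, zero_mem _, by ring⟩
    · exact (hL' _).2 ⟨_, (hL _).2 ⟨0, zero_mem _, 1, one_mem _, by ring⟩, 0, zero_mem _,
        by ring⟩
    · exact (hL' _).2 ⟨0, zero_mem _, 1, one_mem _, by ring⟩
  obtain ⟨u, hu, w, hw, rfl⟩ := (hL' y).1 (h1 hy)
  obtain ⟨α, hα, β, hβ, rfl⟩ := (hL u).1 hu
  obtain ⟨γ, hγ, δ, hδ, rfl⟩ := (hL w).1 hw
  exact ⟨α, hα, β, hβ, γ, hγ, δ, hδ, rfl⟩

theorem Gf_s_ne : C.s ≠ 0 := by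
  have h := C.mono_li.ne_zero ((0, 0, (true, false, false)) : ℤ × ℤ × (Bool × Bool × Bool))
  simpa [e] using h
theorem Gf_p_ne : C.p ≠ 0 := by
  have h := C.mono_li.ne_zero ((0, 0, (false, true, false)) : ℤ × ℤ × (Bool × Bool × Bool))
  simpa [e] using h
theorem Gf_q_ne : C.q ≠ 0 := by
  have h := C.mono_li.ne_zero ((0, 0, (false, false, true)) : ℤ × ℤ × (Bool × Bool × Bool))
  simpa [e] using h

theorem Gf_kt_val {c : ↥C.K} (hc : c ∈ C.surf.kt) :
    (c : F) ∈ IntermediateField.adjoin ℂ {C.t} := by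
  have h := IntermediateField.adjoin_map ℂ {C.tK} C.K.val
  have h2 : (C.K.val '' {C.tK}) = {C.t} := by simp [tK]
  rw [h2] at h
  rw [← h]
  exact ⟨c, hc, rfl⟩

theorem Gf_kx_val {c : ↥C.K} (hc : c ∈ C.surf.kx) :
    (c : F) ∈ IntermediateField.adjoin ℂ {C.x} := by
  have h := IntermediateField.adjoin_map ℂ {C.xK} C.K.val
  have h2 : (C.K.val '' {C.xK}) = {C.x} := by simp [xK]
  rw [h2] at h
  rw [← h]
  exact ⟨c, hc, rfl⟩

theorem Gf_kt_lift {y : F} (hy : y ∈ IntermediateField.adjoin ℂ {C.t}) :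
    ∃ c ∈ C.surf.kt, (c : F) = y := by
  refine C.Gf_map_mem (S := {C.tK}) ?_
  have h2 : (Subtype.val '' {C.tK}) = {C.t} := by simp [tK]
  rw [h2]; exact hy

theorem Gf_kx_lift {y : F} (hy : y ∈ IntermediateField.adjoin ℂ {C.x}) :
    ∃ c ∈ C.surf.kx, (c : F) = y := by
  refine C.Gf_map_mem (S := {C.xK}) ?_
  have h2 : (Subtype.val '' {C.xK}) = {C.x} := by simp [xK]
  rw [h2]; exact hy

/-- basis of `KC` over `ℂ(t)` -/
def GfeC : Bool → Fin 1 → F := fun ε _ => if ε then 1 else C.s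
/-- basis of `KF` over `ℂ(x)` -/
def GfeF : Bool → Fin 2 → F := fun ε => if ε then ![1, C.Y] else ![C.p, C.q]

theorem Gf_decC (y : F) (hy : y ∈ sm C.KC.toSubalgebra) :
    ∃ c : Bool → Fin 1 → ↥C.K, (∀ ε k, c ε k ∈ C.surf.kt) ∧
      y = ∑ ε, ∑ k, (c ε k : F) * C.GfeC ε k := by
  obtain ⟨α, hα, β, hβ, rfl⟩ := C.Gf_KC y hy
  obtain ⟨α', hα', rfl⟩ := C.Gf_kt_lift hα
  obtain ⟨β', hβ', rfl⟩ := C.Gf_kt_lift hβ
  refine ⟨fun ε _ => if ε then α' else β', fun ε k => ?_, ?_⟩
  · cases ε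
    · exact hβ'
    · exact hα'
  · simp [GfeC]

theorem Gf_decF (y : F) (hy : y ∈ sm C.KF.toSubalgebra) :
    ∃ c : Bool → Fin 2 → ↥C.K, (∀ ε k, c ε k ∈ C.surf.kx) ∧
      y = ∑ ε, ∑ k, (c ε k : F) * C.GfeF ε k := by
  obtain ⟨α, hα, β, hβ, γ, hγ, δ, hδ, rfl⟩ := C.Gf_KF y hy
  obtain ⟨α', hα', rfl⟩ := C.Gf_kx_lift hα
  obtain ⟨β', hβ', rfl⟩ := C.Gf_kx_lift hβ
  obtain ⟨γ', hγ', rfl⟩ := C.Gf_kx_lift hγ
  obtain ⟨δ', hδ', rfl⟩ := C.Gf_kx_lift hδ
  refine ⟨fun ε => if ε then ![α', δ'] else ![β', γ'], fun ε k => ?_, ?_⟩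
  · cases ε <;> fin_cases k
    · exact hβ'
    · exact hγ'
    · exact hα'
    · exact hδ'
  · simp [GfeF, Y]
    ring

theorem Gf_indC (ε : Bool) (c : Fin 1 → ↥C.K) (_ : ∀ k, c k ∈ C.surf.kt)
    (h : ∑ k, (c k : F) * C.GfeC ε k = 0) : ∀ k, c k = 0 := by
  intro k
  have hk : k = 0 := Subsingleton.elim _ _
  subst hk
  apply Subtype.ext
  have hs := C.Gf_s_ne
  cases ε <;> simpa [GfeC, hs] using h

theorem Gf_indF (ε : Bool) (c : Fin 2 → ↥C.K) (hc : ∀ k, c k ∈ C.surf.kx)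
    (h : ∑ k, (c k : F) * C.GfeF ε k = 0) : ∀ k, c k = 0 := by
  have hp := C.Gf_p_ne
  have hq := C.Gf_q_ne
  have hf := Gf_fix (C.σp : F →ₐ[ℂ] F) {C.x} (by rintro _ rfl; exact C.σp_x)
  have h0 := hf _ (C.Gf_kx_val (hc 0))
  have h1 := hf _ (C.Gf_kx_val (hc 1))
  change C.σp _ = _ at h0
  change C.σp _ = _ at h1
  have hchar : CharZero F := Gf_char
  have h2 := congrArg C.σp h
  have key : (c 0 : F) = 0 ∧ (c 1 : F) = 0 := by
    cases ε
    · simp only [GfeF, Fin.sum_univ_two, Bool.false_eq_true, if_false, Matrix.cons_val_zero,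
        Matrix.cons_val_one, map_add, map_mul, h0, h1, C.σp_p, C.σp_q, map_zero] at h h2
      have h3 : (c 1 : F) * C.q = 0 := by
        have : (2 : F) * ((c 1 : F) * C.q) = 0 := by linear_combination h + h2
        exact (mul_eq_zero.1 this).resolve_left two_ne_zero
      have h4 : (c 0 : F) * C.p = 0 := by linear_combination h - h3
      exact ⟨(mul_eq_zero.1 h4).resolve_right hp, (mul_eq_zero.1 h3).resolve_right hq⟩
    · simp only [GfeF, Fin.sum_univ_two, if_true, Matrix.cons_val_zero, Y,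
        Matrix.cons_val_one, map_add, map_mul, h0, h1, C.σp_p, C.σp_q, map_zero, map_one] at h h2
      have h3 : (c 0 : F) = 0 := by
        have : (2 : F) * (c 0 : F) = 0 := by linear_combination h + h2
        exact (mul_eq_zero.1 this).resolve_left two_ne_zero
      have h4 : (c 1 : F) * (C.p * C.q) = 0 := by rw [h3] at h; linear_combination h
      exact ⟨h3, (mul_eq_zero.1 h4).resolve_right (mul_ne_zero hp hq)⟩
  intro k
  apply Subtype.ext
  fin_cases k
  · exact key.1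
  · exact key.2

theorem Gf_secs_ι {c : F} (hc : C.ι c = c) (P0 P1 : Subalgebra ℂ F)
    (h0 : ∀ y ∈ P0, C.ι y ∈ P0) (h1 : ∀ y ∈ P1, C.ι y ∈ P1) (n : ℕ) :
    ∀ y ∈ secs c (sm P0) (sm P1) n, C.ι y ∈ secs c (sm P0) (sm P1) n := by
  intro y hy
  rw [mem_secs] at hy ⊢
  refine ⟨h0 y hy.1, ?_⟩
  have := h1 _ hy.2
  rwa [map_mul, map_pow, map_inv₀, hc] at this

theorem Gf_mem_B {a b : Bool} {y : F} : y ∈ C.B a b ↔ y ∈ sm (C.OC a) * sm (C.OF b) := by
  rw [Subalgebra.mul_toSubmodule]; rfl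

theorem Gf_h0t (n : ℕ)
    (hfin : FiniteDimensional ℂ (secs C.x (sm (C.OF false)) (sm (C.OF true)) n)) :
    h0t C.surf C.surf.O n =
      Module.finrank ℂ (secs C.x (sm (C.OF false)) (sm (C.OF true)) n) := by
  have h1 : (1 : F) ∈ C.KC := one_mem _
  have h2 : C.s ∈ C.KC := IntermediateField.subset_adjoin _ _ (by simp)
  have hκL : ∀ c ∈ C.surf.kt, (c : F) ∈ C.KC.toSubalgebra := by
    intro c hc
    have hle : IntermediateField.adjoin ℂ {C.t} ≤ C.KC :=
      IntermediateField.adjoin.mono _ _ _ (by simp)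
    exact hle (C.Gf_kt_val hc)
  have hA : ∀ b (v : ↥C.K), v ∈ fibT C.surf C.surf.O b ↔
      (v : F) ∈ sm C.KC.toSubalgebra * sm (C.OF b) := by
    intro b v
    refine C.Gf_A C.surf.kt C.KC.toSubalgebra C.GfeC hκL C.Gf_decC (C.surf.R false b)
      (C.B false b) (C.mem_R false b) (C.ι_B false b) (C.OF b) le_sup_right ?_ ?_ v
    · intro ε k
      cases ε
      · exact (le_sup_left : C.OC false ≤ _) (Algebra.subset_adjoin (by simp [S, GfeC]))
      · exact one_mem _
    · intro y hy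
      refine Gf_mul_mono ?_ (C.Gf_mem_B.1 hy)
      exact fun z hz => C.OC_le false z hz
  have hx := C.Gf_x_ne
  have key := C.Gf_main C.surf.kt (sm C.KC.toSubalgebra)
    (secs C.x (sm (C.OF false)) (sm (C.OF true)) n) C.GfeC
    (fun ε k => by cases ε; exact h2; exact h1)
    (fun ε k => by cases ε <;> simp [GfeC, GfS])
    (fun c hc y hy => C.KC.toSubalgebra.mul_mem (hκL c hc) hy) C.Gf_decC C.Gf_indC
    (C.Gf_secs_ι C.ι_x _ _ (C.ι_OF false) (C.ι_OF true) n)
    (fun J _ q hq hqQ d hd h => C.Gf_LD' q (fun j => C.OF_le false _ (hqQ j).1) hq d hd h)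
    (⨅ b, (fibT C.surf C.surf.O b).comap (Module.toModuleEnd C.surf.kt ↥C.K
      (twc C.surf.x n b))) ?_
  · rw [mul_one] at key
    exact key
  · intro v
    rw [Submodule.mem_iInf, Bool.forall_bool]
    have e0 : (v ∈ (fibT C.surf C.surf.O false).comap (Module.toModuleEnd C.surf.kt ↥C.K
        (twc C.surf.x n false))) ↔ (v : F) ∈ sm C.KC.toSubalgebra * sm (C.OF false) := by
      rw [Submodule.mem_comap, hA]
      change ((twc C.surf.x n false : ↥C.K) : F) * v ∈ _ ↔ _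
      simp [twc]
    have e1 : (v ∈ (fibT C.surf C.surf.O true).comap (Module.toModuleEnd C.surf.kt ↥C.K
        (twc C.surf.x n true))) ↔ C.x⁻¹ ^ n * (v : F) ∈ sm C.KC.toSubalgebra * sm (C.OF true) := by
      rw [Submodule.mem_comap, hA]
      rfl
    rw [e0, e1, Gf_mem_mul_sc hx, ← Submodule.mem_inf, C.inf_mul, inf_idem, ← Gf_secs_eq hx]
    · exact fun y hy => hy
    · exact fun y hy => hy
    · exact C.OF_le false
    · intro y hy
      obtain ⟨w, hw, rfl⟩ := mem_sc.1 hy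
      have hxK : C.x ∈ C.KF := IntermediateField.subset_adjoin _ _ (by simp)
      exact mul_mem (pow_mem hxK n) (C.OF_le true w hw)

theorem h0t_O_zero : h0t C.surf C.surf.O 0 = 1 := by
  have e : secs C.x (sm (C.OF false)) (sm (C.OF true)) 0 =
      sm (⊥ : Subalgebra ℂ F) := by
    ext v
    rw [mem_secs, pow_zero, one_mul, ← C.OF_inf]
    rfl
  have hfin : FiniteDimensional ℂ (secs C.x (sm (C.OF false)) (sm (C.OF true)) 0) := by
    rw [e]
    exact (inferInstance : FiniteDimensional ℂ (⊥ : Subalgebra ℂ F))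
  rw [C.Gf_h0t 0 hfin, e]
  exact Subalgebra.finrank_bot

theorem h0t_O (n : ℕ) (hn : 1 ≤ n) : h0t C.surf C.surf.O n = 4 * n := by
  have h := C.finrank_OF n hn
  rw [C.Gf_h0t n (Module.finite_of_finrank_pos (by rw [h]; omega)), h]

theorem Gf_h0x (n : ℕ)
    (hfin : FiniteDimensional ℂ (secs C.t (sm (C.OC false)) (sm (C.OC true)) n)) :
    h0x C.surf C.surf.O n =
      Module.finrank ℂ (secs C.t (sm (C.OC false)) (sm (C.OC true)) n) * 2 := by
  have h1 : (1 : F) ∈ C.KF := one_mem _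
  have hp : C.p ∈ C.KF := IntermediateField.subset_adjoin _ _ (by simp)
  have hq : C.q ∈ C.KF := IntermediateField.subset_adjoin _ _ (by simp)
  have hκL : ∀ c ∈ C.surf.kx, (c : F) ∈ C.KF.toSubalgebra := by
    intro c hc
    have hle : IntermediateField.adjoin ℂ {C.x} ≤ C.KF :=
      IntermediateField.adjoin.mono _ _ _ (by simp)
    exact hle (C.Gf_kx_val hc)
  have hA : ∀ a (v : ↥C.K), v ∈ fibX C.surf C.surf.O a ↔
      (v : F) ∈ sm C.KF.toSubalgebra * sm (C.OC a) := by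
    intro a v
    refine C.Gf_A C.surf.kx C.KF.toSubalgebra C.GfeF hκL C.Gf_decF (C.surf.R a false)
      (C.B a false) (C.mem_R a false) (C.ι_B a false) (C.OC a) le_sup_left ?_ ?_ v
    · have mp : C.p ∈ C.B a false :=
        (le_sup_right : C.OF false ≤ _) (Algebra.subset_adjoin (by simp [P]))
      have mq : C.q ∈ C.B a false :=
        (le_sup_right : C.OF false ≤ _) (Algebra.subset_adjoin (by simp [Q]))
      intro ε k
      cases ε <;> fin_cases k
      · exact mp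
      · exact mq
      · exact one_mem _
      · exact mul_mem mp mq
    · intro y hy
      have hy' := C.Gf_mem_B.1 hy
      rw [mul_comm] at hy'
      refine Gf_mul_mono ?_ hy'
      exact fun z hz => C.OF_le false z hz
  have ht := C.Gf_t_ne
  have key := C.Gf_main C.surf.kx (sm C.KF.toSubalgebra)
    (secs C.t (sm (C.OC false)) (sm (C.OC true)) n) C.GfeF
    (fun ε k => by
      cases ε <;> fin_cases k
      · exact hp
      · exact hq
      · exact h1
      · exact C.KF.toSubalgebra.mul_mem hp hq)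
    (fun ε k => by cases ε <;> fin_cases k <;> simp [GfeF, GfS, Y])
    (fun c hc y hy => C.KF.toSubalgebra.mul_mem (hκL c hc) hy) C.Gf_decF C.Gf_indF
    (C.Gf_secs_ι C.ι_t _ _ (C.ι_OC false) (C.ι_OC true) n)
    (fun J _ q hq hqQ d hd h => by
      have h' : ∑ k ∈ Finset.univ, q k * d k = 0 := by
        rw [← h]; exact Finset.sum_congr rfl fun j _ => mul_comm _ _
      exact fun j => C.LD q d Finset.univ (fun j => C.OC_le false _ (hqQ j).1) hq hd h' j
        (Finset.mem_univ j))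
    (⨅ a, (fibX C.surf C.surf.O a).comap (Module.toModuleEnd C.surf.kx ↥C.K
      (twc C.surf.t n a))) ?_
  · exact key
  · intro v
    rw [Submodule.mem_iInf, Bool.forall_bool]
    have e0 : (v ∈ (fibX C.surf C.surf.O false).comap (Module.toModuleEnd C.surf.kx ↥C.K
        (twc C.surf.t n false))) ↔ (v : F) ∈ sm C.KF.toSubalgebra * sm (C.OC false) := by
      rw [Submodule.mem_comap, hA]
      change ((twc C.surf.t n false : ↥C.K) : F) * v ∈ _ ↔ _
      simp [twc]
    have e1 : (v ∈ (fibX C.surf C.surf.O true).comap (Module.toModuleEnd C.surf.kx ↥C.K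
        (twc C.surf.t n true))) ↔ C.t⁻¹ ^ n * (v : F) ∈ sm C.KF.toSubalgebra * sm (C.OC true) := by
      rw [Submodule.mem_comap, hA]
      rfl
    rw [e0, e1, Gf_mem_mul_sc ht, ← Submodule.mem_inf, mul_comm (sm C.KF.toSubalgebra),
      mul_comm (sm C.KF.toSubalgebra), C.inf_mul, inf_idem, ← Gf_secs_eq ht,
      mul_comm (sm C.KF.toSubalgebra)]
    · exact C.OC_le false
    · intro y hy
      obtain ⟨w, hw, rfl⟩ := mem_sc.1 hy
      have htK : C.t ∈ C.KC := IntermediateField.subset_adjoin _ _ (by simp)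
      exact mul_mem (pow_mem htK n) (C.OC_le true w hw)
    · exact fun y hy => hy
    · exact fun y hy => hy

theorem h0x_O (n : ℕ) (hn : 2 ≤ n) : h0x C.surf C.surf.O n = 2 * (2 * n - 1) := by
  have h := C.finrank_OC n hn
  rw [C.Gf_h0x n (Module.finite_of_finrank_pos (by rw [h]; omega)), h]
  ring

end Cfg

end

end Pool.Agent.EllMod
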