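import Pool.Agent.MP_77976d_ag.Ts

/-! # TN : the line bundles `N` and `N²` on the curve `C` -/

open scoped TensorProduct
open IsLocalRing

namespace Pool.Agent.EllMod

noncomputable section

variable {F : Type} [Field F] [Algebra ℂ F] (C : Cfg F)

open TsAux

namespace Cfg

/-- General change of basis for `OC false` and `OCs`. -/
theorem TN_change {α β : F} (hα : α ∈ C.OC false) (hβ : β ∈ C.OC false)
    (h1 : (1 : F) ∈ Submodule.span ℂ (mon C.t α β '' Sge))
    (hs : C.s ∈ Submodule.span ℂ (mon C.t α β '' Sge)) :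
    sm (C.OC false) = Submodule.span ℂ (mon C.t α β '' Sge) ∧
      sm C.OCs = Submodule.span ℂ (Set.range (mon C.t α β)) := by
  have ht := C.TS_t_ne
  have hmul : ∀ n : ℕ, ∀ v ∈ Submodule.span ℂ (mon C.t α β '' Sge),
      C.t ^ n * v ∈ Submodule.span ℂ (mon C.t α β '' Sge) := by
    intro n v hv
    induction hv using Submodule.span_induction with
    | mem u hu =>
      obtain ⟨i, hi, rfl⟩ := hu
      have := mon_shift ht α β (n : ℤ) i
      rw [zpow_natCast] at this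
      rw [this]
      apply Submodule.subset_span
      refine ⟨_, ?_, rfl⟩
      rcases i with m | m
      · rw [inl_Sge] at hi
        rw [Sum.map_inl, inl_Sge]
        omega
      · rw [inr_Sge] at hi
        rw [Sum.map_inr, inr_Sge]
        omega
    | zero => rw [mul_zero]; exact zero_mem _
    | add a b _ _ ha hb => rw [mul_add]; exact add_mem ha hb
    | smul c a _ ha => rw [mul_smul_comm]; exact Submodule.smul_mem _ c ha
  have hmul2 : ∀ n : ℤ, ∀ v ∈ Submodule.span ℂ (mon C.t α β '' Sge),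
      C.t ^ n * v ∈ Submodule.span ℂ (Set.range (mon C.t α β)) := by
    intro n v hv
    induction hv using Submodule.span_induction with
    | mem u hu =>
      obtain ⟨i, hi, rfl⟩ := hu
      rw [mon_shift ht α β n i]
      exact Submodule.subset_span ⟨_, rfl⟩
    | zero => rw [mul_zero]; exact zero_mem _
    | add a b _ _ ha hb => rw [mul_add]; exact add_mem ha hb
    | smul c a _ ha => rw [mul_smul_comm]; exact Submodule.smul_mem _ c ha
  have htm : C.t ∈ C.OC false := Algebra.subset_adjoin (by simp [T, coord])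
  constructor
  · apply le_antisymm
    · rw [TS_OC_false_eq, Submodule.span_le]
      rintro _ ⟨i, hi, rfl⟩
      rcases i with m | m
      · rw [inl_Sge] at hi
        lift m to ℕ using hi
        have := hmul m _ h1
        simpa [mon] using this
      · rw [inr_Sge] at hi
        lift m to ℕ using hi
        have := hmul m _ hs
        simpa [mon] using this
    · rw [Submodule.span_le]
      rintro _ ⟨i, hi, rfl⟩
      rcases i with m | m
      · rw [inl_Sge] at hi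
        lift m to ℕ using hi
        have : C.t ^ m * α ∈ C.OC false := mul_mem (pow_mem htm m) hα
        simpa [mon] using this
      · rw [inr_Sge] at hi
        lift m to ℕ using hi
        have : C.t ^ m * β ∈ C.OC false := mul_mem (pow_mem htm m) hβ
        simpa [mon] using this
  · apply le_antisymm
    · rw [TS_OCs_range, Submodule.span_le]
      rintro _ ⟨i, rfl⟩
      rcases i with m | m
      · exact hmul2 m _ h1
      · exact hmul2 m _ hs
    · rw [Submodule.span_le]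
      rintro _ ⟨i, rfl⟩
      have hLt : Lt C.t ≤ C.OCs := Algebra.adjoin_mono (by
        intro x hx
        rcases hx with rfl | hx
        · simp
        · rw [Set.mem_singleton_iff] at hx
          subst hx
          simp)
      rcases i with m | m
      · have : C.t ^ m * α ∈ C.OCs := mul_mem (hLt (t_zpow_mem m)) (C.OC_le_OCs _ hα)
        exact this
      · have : C.t ^ m * β ∈ C.OCs := mul_mem (hLt (t_zpow_mem m)) (C.OC_le_OCs _ hβ)
        exact this

/-- `A + s` -/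
def al : F := (1 - C.t ^ 2 + C.t ^ 3) + C.s
/-- `s - (1 + t^2 - t^3)` -/
def be : F := C.s - (1 + C.t ^ 2 - C.t ^ 3)
/-- `t G₀` -/
def al2 : F := (1 + C.t + C.t ^ 2 - 2 * C.t ^ 3 + C.t ^ 4) + (C.t - 1) * C.s
/-- `t ^ 2 g ^ 2 / 2` -/
def be2 : F := (1 + 2 * C.t ^ 3 + C.t ^ 4 - 2 * C.t ^ 5 + C.t ^ 6) + (1 - C.t ^ 2 + C.t ^ 3) * C.s

theorem tLt : C.t ∈ Lt C.t := Algebra.subset_adjoin (by simp)

theorem two_mem {A : Subalgebra ℂ F} : (2 : F) ∈ A := by
  have := A.algebraMap_mem 2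
  rwa [map_ofNat] at this

theorem al_be_li : LinearIndependent ℂ (mon C.t C.al C.be) := by
  have h := C.tLt
  refine C.pair_li (c := 2) (a1 := 1 - C.t ^ 2 + C.t ^ 3) (a2 := 1)
    (b1 := -(1 + C.t ^ 2 - C.t ^ 3)) (b2 := 1) two_ne_zero ?_ (one_mem _) ?_ (one_mem _) ?_ ?_ ?_
  · exact add_mem (sub_mem (one_mem _) (pow_mem h 2)) (pow_mem h 3)
  · exact neg_mem (sub_mem (add_mem (one_mem _) (pow_mem h 2)) (pow_mem h 3))
  · rw [al]; ring
  · rw [be]; ring
  · rw [map_ofNat]; ring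

theorem al2_be2_li : LinearIndependent ℂ (mon C.t C.al2 C.be2) := by
  have h := C.tLt
  refine C.pair_li (c := 2) (a1 := 1 + C.t + C.t ^ 2 - 2 * C.t ^ 3 + C.t ^ 4) (a2 := C.t - 1)
    (b1 := 1 + 2 * C.t ^ 3 + C.t ^ 4 - 2 * C.t ^ 5 + C.t ^ 6) (b2 := 1 - C.t ^ 2 + C.t ^ 3)
    two_ne_zero ?_ (sub_mem h (one_mem _)) ?_ ?_ ?_ ?_ ?_
  · exact add_mem (sub_mem (add_mem (add_mem (one_mem _) h) (pow_mem h 2))
      (mul_mem two_mem (pow_mem h 3))) (pow_mem h 4)
  · exact add_mem (sub_mem (add_mem (add_mem (one_mem _) (mul_mem two_mem (pow_mem h 3)))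
      (pow_mem h 4)) (mul_mem two_mem (pow_mem h 5))) (pow_mem h 6)
  · exact add_mem (sub_mem (one_mem _) (pow_mem h 2)) (pow_mem h 3)
  · rw [al2]
  · rw [be2]
  · rw [map_ofNat]; ring

theorem mem_mon {α β : F} {S : Set (ℤ ⊕ ℤ)} (c : ℂ) (i : ℤ ⊕ ℤ) (hi : i ∈ S) :
    c • mon C.t α β i ∈ Submodule.span ℂ (mon C.t α β '' S) :=
  Submodule.smul_mem _ c (Submodule.subset_span ⟨i, hi, rfl⟩)

theorem TN_one : sm (C.OC false) = Submodule.span ℂ (mon C.t C.al C.be '' Sge) ∧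
    sm C.OCs = Submodule.span ℂ (Set.range (mon C.t C.al C.be)) := by
  have h1 : C.t ∈ C.OC false := Algebra.subset_adjoin (by simp [T, coord])
  have h2 : C.s ∈ C.OC false := Algebra.subset_adjoin (by simp [S])
  have hch := C.charZero_F
  apply TN_change
  · exact add_mem (add_mem (sub_mem (one_mem _) (pow_mem h1 2)) (pow_mem h1 3)) h2
  · exact sub_mem h2 (sub_mem (add_mem (one_mem _) (pow_mem h1 2)) (pow_mem h1 3))
  · -- 1 = (al - be) / 2
    have e : (1 : F) = (1 / 2 : ℂ) • mon C.t C.al C.be (Sum.inl 0) +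
        (-1 / 2 : ℂ) • mon C.t C.al C.be (Sum.inr 0) := by
      simp only [mon, Sum.elim_inl, Sum.elim_inr, Algebra.smul_def, map_div₀, map_neg, map_one,
        map_ofNat, al, be, zpow_zero]
      ring
    rw [e]
    exact add_mem (C.mem_mon _ _ (by simp)) (C.mem_mon _ _ (by simp))
  · -- s
    have e : C.s = (1 / 2 : ℂ) • mon C.t C.al C.be (Sum.inl 0) +
        (1 / 2 : ℂ) • mon C.t C.al C.be (Sum.inl 2) +
        (-1 / 2 : ℂ) • mon C.t C.al C.be (Sum.inl 3) +
        (1 / 2 : ℂ) • mon C.t C.al C.be (Sum.inr 0) +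
        (-1 / 2 : ℂ) • mon C.t C.al C.be (Sum.inr 2) +
        (1 / 2 : ℂ) • mon C.t C.al C.be (Sum.inr 3) := by
      simp only [mon, Sum.elim_inl, Sum.elim_inr, Algebra.smul_def, map_div₀, map_neg, map_one,
        map_ofNat, al, be, zpow_zero, zpow_ofNat]
      ring
    rw [e]
    exact add_mem (add_mem (add_mem (add_mem (add_mem (C.mem_mon _ _ (by simp))
      (C.mem_mon _ _ (by simp))) (C.mem_mon _ _ (by simp))) (C.mem_mon _ _ (by simp)))
      (C.mem_mon _ _ (by simp))) (C.mem_mon _ _ (by simp))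


theorem TN_two : sm (C.OC false) = Submodule.span ℂ (mon C.t C.al2 C.be2 '' Sge) ∧
    sm C.OCs = Submodule.span ℂ (Set.range (mon C.t C.al2 C.be2)) := by
  have h := (show C.t ∈ C.OC false from Algebra.subset_adjoin (by simp [T, coord]))
  have h2 : C.s ∈ C.OC false := Algebra.subset_adjoin (by simp [S])
  have hch := C.charZero_F
  apply TN_change
  · exact add_mem (add_mem (sub_mem (add_mem (add_mem (one_mem _) h) (pow_mem h 2))
      (mul_mem two_mem (pow_mem h 3))) (pow_mem h 4)) (mul_mem (sub_mem h (one_mem _)) h2)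
  · exact add_mem (add_mem (sub_mem (add_mem (add_mem (one_mem _) (mul_mem two_mem (pow_mem h 3)))
      (pow_mem h 4)) (mul_mem two_mem (pow_mem h 5))) (pow_mem h 6))
      (mul_mem (add_mem (sub_mem (one_mem _) (pow_mem h 2)) (pow_mem h 3)) h2)
  · -- 1 = ((1 - t^2 + t^3) al2 - (t-1) be2) / 2
    have e : (1 : F) = (1 / 2 : ℂ) • mon C.t C.al2 C.be2 (Sum.inl 0) +
        (-1 / 2 : ℂ) • mon C.t C.al2 C.be2 (Sum.inl 2) +
        (1 / 2 : ℂ) • mon C.t C.al2 C.be2 (Sum.inl 3) +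
        (-1 / 2 : ℂ) • mon C.t C.al2 C.be2 (Sum.inr 1) +
        (1 / 2 : ℂ) • mon C.t C.al2 C.be2 (Sum.inr 0) := by
      simp only [mon, Sum.elim_inl, Sum.elim_inr, Algebra.smul_def, map_div₀, map_neg, map_one,
        map_ofNat, al2, be2, zpow_zero, zpow_ofNat, zpow_one]
      ring
    rw [e]
    exact add_mem (add_mem (add_mem (add_mem (C.mem_mon _ _ (by simp))
      (C.mem_mon _ _ (by simp))) (C.mem_mon _ _ (by simp))) (C.mem_mon _ _ (by simp)))
      (C.mem_mon _ _ (by simp))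
  · -- s = (-(1 + 2t^3 + t^4 - 2t^5+t^6) al2 + (1 + t + t^2 - 2t^3 + t^4) be2) / 2
    have e : C.s = (-1 / 2 : ℂ) • mon C.t C.al2 C.be2 (Sum.inl 0) +
        (-1 : ℂ) • mon C.t C.al2 C.be2 (Sum.inl 3) +
        (-1 / 2 : ℂ) • mon C.t C.al2 C.be2 (Sum.inl 4) +
        (1 : ℂ) • mon C.t C.al2 C.be2 (Sum.inl 5) +
        (-1 / 2 : ℂ) • mon C.t C.al2 C.be2 (Sum.inl 6) +
        (1 / 2 : ℂ) • mon C.t C.al2 C.be2 (Sum.inr 0) +
        (1 / 2 : ℂ) • mon C.t C.al2 C.be2 (Sum.inr 1) +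
        (1 / 2 : ℂ) • mon C.t C.al2 C.be2 (Sum.inr 2) +
        (-1 : ℂ) • mon C.t C.al2 C.be2 (Sum.inr 3) +
        (1 / 2 : ℂ) • mon C.t C.al2 C.be2 (Sum.inr 4) := by
      simp only [mon, Sum.elim_inl, Sum.elim_inr, Algebra.smul_def, map_div₀, map_neg, map_one,
        map_ofNat, al2, be2, zpow_zero, zpow_ofNat, zpow_one]
      ring
    rw [e]
    exact add_mem (add_mem (add_mem (add_mem (add_mem (add_mem (add_mem (add_mem (add_mem
      (C.mem_mon _ _ (by simp))
      (C.mem_mon _ _ (by simp))) (C.mem_mon _ _ (by simp))) (C.mem_mon _ _ (by simp)))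
      (C.mem_mon _ _ (by simp))) (C.mem_mon _ _ (by simp))) (C.mem_mon _ _ (by simp)))
      (C.mem_mon _ _ (by simp))) (C.mem_mon _ _ (by simp))) (C.mem_mon _ _ (by simp))

theorem g_al : C.g = C.al * C.t⁻¹ := rfl

theorem hs' : C.s ^ 2 - (C.t ^ 6 - 2 * C.t ^ 5 + C.t ^ 4 + 2 * C.t ^ 3 + 2 * C.t ^ 2 + 1) = 0 := by
  rw [C.hs]; ring

/-- `g (s / t^3)` -/
theorem g_s : C.g * C.s = -2 * C.t * C.be + (C.t⁻¹ + C.t + C.t ^ 2) * C.al := by
  have ht := C.TS_t_ne
  have hs := C.hs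
  rw [g_al, al, be]
  field_simp
  linear_combination hs

theorem g2_be : C.g ^ 2 = 2 * C.be2 * C.t⁻¹ ^ 2 := by
  have ht := C.TS_t_ne
  have hs := C.hs
  rw [g_al, al, be2]
  field_simp
  linear_combination hs

theorem g2_s : C.g ^ 2 * C.s = -4 * C.t ^ 2 * C.al2 + 2 * (C.t⁻¹ ^ 2 + 1 + C.t) * C.be2 := by
  have ht := C.TS_t_ne
  have hs := C.hs
  rw [g2_be, al2, be2]
  field_simp
  linear_combination (2 - 2 * C.t ^ 2 + 2 * C.t ^ 3) * hs

theorem N_true_eq : C.N true = Submodule.span ℂ (mon C.t C.al C.be '' Sle (-1) (-2)) := by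
  have ht := C.TS_t_ne
  have hch := C.charZero_F
  have e0 : C.N true = (Submodule.span ℂ (mon C.t 1 C.s '' Sle 0 (-3))).map
      (LinearMap.mulLeft ℂ C.g) := by
    rw [N, if_pos rfl, TS_OC_true_eq]; rfl
  rw [e0]
  apply le_antisymm
  · rw [Submodule.map_span, Submodule.span_le]
    rintro _ ⟨_, ⟨i, hi, rfl⟩, rfl⟩
    rw [LinearMap.mulLeft_apply]
    rcases i with m | m
    · rw [inl_Sle] at hi
      have e : C.g * mon C.t 1 C.s (Sum.inl m) = (1 : ℂ) • mon C.t C.al C.be (Sum.inl (m + (-1))) := by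
        simp only [mon, Sum.elim_inl, one_smul, g_al]
        rw [zpow_add₀ ht, zpow_neg_one]; ring
      rw [e]
      exact C.mem_mon _ _ (by rw [inl_Sle]; omega)
    · rw [inr_Sle] at hi
      have e : C.g * mon C.t 1 C.s (Sum.inr m) =
          (-2 : ℂ) • mon C.t C.al C.be (Sum.inr (m + 1)) +
          (1 : ℂ) • mon C.t C.al C.be (Sum.inl (m + (-1))) +
          (1 : ℂ) • mon C.t C.al C.be (Sum.inl (m + 1)) +
          (1 : ℂ) • mon C.t C.al C.be (Sum.inl (m + 2)) := by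
        simp only [mon, Sum.elim_inl, Sum.elim_inr, map_one, Algebra.smul_def, map_neg, map_ofNat]
        rw [zpow_add₀ ht m (-1), zpow_neg_one, zpow_add₀ ht m 1, zpow_one, zpow_add₀ ht m 2,
          zpow_ofNat]
        linear_combination C.t ^ m * C.g_s
      rw [e]
      exact add_mem (add_mem (add_mem (C.mem_mon _ _ (by rw [inr_Sle]; omega))
        (C.mem_mon _ _ (by rw [inl_Sle]; omega))) (C.mem_mon _ _ (by rw [inl_Sle]; omega)))
        (C.mem_mon _ _ (by rw [inl_Sle]; omega))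
  · rw [Submodule.span_le]
    rintro _ ⟨i, hi, rfl⟩
    rcases i with m | m
    · rw [inl_Sle] at hi
      refine ⟨mon C.t 1 C.s (Sum.inl (m + 1)), Submodule.subset_span ⟨_, by
        rw [inl_Sle]; omega, rfl⟩, ?_⟩
      simp only [mon, Sum.elim_inl, LinearMap.mulLeft_apply, g_al]
      rw [zpow_add₀ ht, zpow_one]
      field_simp
    · rw [inr_Sle] at hi
      refine ⟨(-1 / 2 : ℂ) • mon C.t 1 C.s (Sum.inr (m + (-1))) +
        (1 / 2 : ℂ) • mon C.t 1 C.s (Sum.inl (m + (-1))) +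
        (1 / 2 : ℂ) • mon C.t 1 C.s (Sum.inl (m + 1)) +
        (1 / 2 : ℂ) • mon C.t 1 C.s (Sum.inl (m + 2)),
        add_mem (add_mem (add_mem (C.mem_mon _ _ (by rw [inr_Sle]; omega))
        (C.mem_mon _ _ (by rw [inl_Sle]; omega))) (C.mem_mon _ _ (by rw [inl_Sle]; omega)))
        (C.mem_mon _ _ (by rw [inl_Sle]; omega)), ?_⟩
      simp only [mon, Sum.elim_inl, Sum.elim_inr, LinearMap.mulLeft_apply, Algebra.smul_def,
        map_neg, map_div₀, map_one, map_ofNat]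
      rw [zpow_add₀ ht, zpow_neg_one, zpow_add₀ ht, zpow_one, zpow_add₀ ht, zpow_ofNat]
      have h1 := C.g_s
      have h2 := C.g_al
      have h3 : C.g * C.t = C.al := by rw [h2]; field_simp
      have h4 : C.t⁻¹ * C.t = 1 := inv_mul_cancel₀ ht
      rw [← h3] at h1
      linear_combination (-1 / 2 * C.t ^ m * C.t⁻¹) * h1 +
        (C.t ^ m * C.be - 1 / 2 * C.t ^ m * C.g * (C.t⁻¹ + C.t + C.t ^ 2)) * h4

theorem N2_true_eq : C.N2 true = Submodule.span ℂ (mon C.t C.al2 C.be2 '' Sle (-1) (-2)) := by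
  have ht := C.TS_t_ne
  have hch := C.charZero_F
  have e0 : C.N2 true = (Submodule.span ℂ (mon C.t 1 C.s '' Sle 0 (-3))).map
      (LinearMap.mulLeft ℂ (C.g ^ 2)) := by
    rw [N2, if_pos rfl, TS_OC_true_eq]; rfl
  rw [e0]
  apply le_antisymm
  · rw [Submodule.map_span, Submodule.span_le]
    rintro _ ⟨_, ⟨i, hi, rfl⟩, rfl⟩
    rw [LinearMap.mulLeft_apply]
    rcases i with m | m
    · rw [inl_Sle] at hi
      have e : C.g ^ 2 * mon C.t 1 C.s (Sum.inl m) =
          (2 : ℂ) • mon C.t C.al2 C.be2 (Sum.inr (m + (-2))) := by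
        simp only [mon, Sum.elim_inl, Sum.elim_inr, Algebra.smul_def, map_ofNat]
        rw [zpow_add₀ ht, zpow_neg, zpow_ofNat, g2_be, inv_pow]; ring
      rw [e]
      exact C.mem_mon _ _ (by rw [inr_Sle]; omega)
    · rw [inr_Sle] at hi
      have e : C.g ^ 2 * mon C.t 1 C.s (Sum.inr m) =
          (-4 : ℂ) • mon C.t C.al2 C.be2 (Sum.inl (m + 2)) +
          (2 : ℂ) • mon C.t C.al2 C.be2 (Sum.inr (m + (-2))) +
          (2 : ℂ) • mon C.t C.al2 C.be2 (Sum.inr m) +
          (2 : ℂ) • mon C.t C.al2 C.be2 (Sum.inr (m + 1)) := by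
        simp only [mon, Sum.elim_inl, Sum.elim_inr, Algebra.smul_def, map_neg, map_ofNat]
        rw [zpow_add₀ ht m (-2), zpow_neg, zpow_add₀ ht m 1, zpow_one, zpow_add₀ ht m 2,
          zpow_ofNat, ← inv_pow]
        linear_combination C.t ^ m * C.g2_s
      rw [e]
      exact add_mem (add_mem (add_mem (C.mem_mon _ _ (by rw [inl_Sle]; omega))
        (C.mem_mon _ _ (by rw [inr_Sle]; omega))) (C.mem_mon _ _ (by rw [inr_Sle]; omega)))
        (C.mem_mon _ _ (by rw [inr_Sle]; omega))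
  · rw [Submodule.span_le]
    rintro _ ⟨i, hi, rfl⟩
    rcases i with m | m
    · rw [inl_Sle] at hi
      refine ⟨(-1 / 4 : ℂ) • mon C.t 1 C.s (Sum.inr (m + (-2))) +
        (1 / 4 : ℂ) • mon C.t 1 C.s (Sum.inl (m + (-2))) +
        (1 / 4 : ℂ) • mon C.t 1 C.s (Sum.inl m) +
        (1 / 4 : ℂ) • mon C.t 1 C.s (Sum.inl (m + 1)),
        add_mem (add_mem (add_mem (C.mem_mon _ _ (by rw [inr_Sle]; omega))
        (C.mem_mon _ _ (by rw [inl_Sle]; omega))) (C.mem_mon _ _ (by rw [inl_Sle]; omega)))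
        (C.mem_mon _ _ (by rw [inl_Sle]; omega)), ?_⟩
      simp only [mon, Sum.elim_inl, Sum.elim_inr, LinearMap.mulLeft_apply, Algebra.smul_def,
        map_neg, map_div₀, map_one, map_ofNat]
      rw [zpow_add₀ ht m (-2), zpow_neg, zpow_add₀ ht m 1, zpow_one, zpow_ofNat, ← inv_pow]
      have h1 := C.g2_s
      have h2 := C.g2_be
      have h4 : C.t⁻¹ * C.t = 1 := inv_mul_cancel₀ ht
      have h3 : C.g ^ 2 * C.t ^ 2 = 2 * C.be2 := by rw [h2]; field_simp
      have h5 : C.g ^ 2 * C.s = -4 * C.t ^ 2 * C.al2 + (C.t⁻¹ ^ 2 + 1 + C.t) * (C.g ^ 2 * C.t ^ 2) := by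
        rw [h3, h1]; ring
      have h6 : C.t⁻¹ ^ 2 * C.t ^ 2 = 1 := by rw [← mul_pow, h4, one_pow]
      linear_combination (-1 / 4 * C.t ^ m * C.t⁻¹ ^ 2) * h5 +
        (C.t ^ m * C.al2 - 1 / 4 * C.t ^ m * C.g ^ 2 * (C.t⁻¹ ^ 2 + 1 + C.t)) * h6
    · rw [inr_Sle] at hi
      refine ⟨(1 / 2 : ℂ) • mon C.t 1 C.s (Sum.inl (m + 2)), C.mem_mon _ _ (by
        rw [inl_Sle]; omega), ?_⟩
      simp only [mon, Sum.elim_inl, Sum.elim_inr, LinearMap.mulLeft_apply, Algebra.smul_def,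
        map_div₀, map_one, map_ofNat]
      rw [zpow_add₀ ht, zpow_ofNat, g2_be]
      field_simp

theorem N_false_eq : C.N false = sm (C.OC false) := by
  ext v
  rw [N, mem_sc]
  simp

theorem N2_false_eq : C.N2 false = sm (C.OC false) := by
  ext v
  rw [N2, mem_sc]
  simp

theorem G0_mem : C.G0 ∈ C.N2 true := by
  have ht := C.TS_t_ne
  rw [N2_true_eq]
  have e : C.G0 = (1 : ℂ) • mon C.t C.al2 C.be2 (Sum.inl (-1)) := by
    simp only [mon, Sum.elim_inl, one_smul, al2, G0]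
    rw [zpow_neg_one]; ring
  rw [e]
  exact C.mem_mon _ _ (by simp)

theorem N2_inf : C.N2 false ⊓ C.N2 true = ⊥ := by
  rw [N2_false_eq, C.TN_two.1, N2_true_eq, span_inf C.al2_be2_li]
  have : (Sge ∩ Sle (-1) (-2) : Set (ℤ ⊕ ℤ)) = ∅ := by
    ext i
    rcases i with m | m
    · simp only [Set.mem_inter_iff, inl_Sge, inl_Sle, Set.mem_empty_iff_false, iff_false]
      omega
    · simp only [Set.mem_inter_iff, inr_Sge, inr_Sle, Set.mem_empty_iff_false, iff_false]
      omega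
  rw [this, Set.image_empty, Submodule.span_empty]

/-- `1/t` in the second basis. -/
theorem tinv_eq : C.t⁻¹ = (1 / 2 : ℂ) • mon C.t C.al2 C.be2 (Sum.inr (-1)) +
    ((1 / 2 : ℂ) • mon C.t C.al2 C.be2 (Sum.inl (-1)) +
      (-1 / 2 : ℂ) • mon C.t C.al2 C.be2 (Sum.inl 1) +
      (1 / 2 : ℂ) • mon C.t C.al2 C.be2 (Sum.inl 2) +
      (-1 / 2 : ℂ) • mon C.t C.al2 C.be2 (Sum.inr 0)) := by
  have ht := C.TS_t_ne
  have hch := C.charZero_F
  simp only [mon, Sum.elim_inl, Sum.elim_inr, Algebra.smul_def, map_div₀, map_neg, map_one,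
    map_ofNat, al2, be2, zpow_zero, zpow_ofNat, zpow_one, zpow_neg_one]
  field_simp
  ring

theorem tinv_rest : (1 / 2 : ℂ) • mon C.t C.al2 C.be2 (Sum.inl (-1)) +
      (-1 / 2 : ℂ) • mon C.t C.al2 C.be2 (Sum.inl 1) +
      (1 / 2 : ℂ) • mon C.t C.al2 C.be2 (Sum.inl 2) +
      (-1 / 2 : ℂ) • mon C.t C.al2 C.be2 (Sum.inr 0) ∈
    Submodule.span ℂ (mon C.t C.al2 C.be2 '' (Sge ∪ Sle (-1) (-2))) :=
  add_mem (add_mem (add_mem (C.mem_mon _ _ (by simp)) (C.mem_mon _ _ (by simp)))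
    (C.mem_mon _ _ (by simp))) (C.mem_mon _ _ (by simp))

theorem N2_indep : C.t⁻¹ ∉ C.N2 false ⊔ C.N2 true := by
  rw [N2_false_eq, C.TN_two.1, N2_true_eq, span_sup]
  intro h
  rw [C.tinv_eq] at h
  have h1 := (Submodule.add_mem_iff_left _ C.tinv_rest).1 h
  have h2 := (Submodule.smul_mem_iff _ (by norm_num : (1 / 2 : ℂ) ≠ 0)).1 h1
  rw [mem_iff C.al2_be2_li] at h2
  simp at h2

theorem N2_eq : (sm C.OCs : Submodule ℂ F) =
    C.N2 false ⊔ C.N2 true ⊔ Submodule.span ℂ {C.t⁻¹} := by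
  apply le_antisymm
  · rw [N2_false_eq, C.TN_two.1, N2_true_eq, span_sup, C.TN_two.2, Submodule.span_le]
    rintro _ ⟨i, rfl⟩
    by_cases h : i ∈ Sge ∪ Sle (-1) (-2)
    · exact Submodule.mem_sup_left (Submodule.subset_span ⟨i, h, rfl⟩)
    · have hi : i = Sum.inr (-1) := by
        rw [Set.mem_union, not_or] at h
        rcases i with m | m
        · rw [inl_Sge, inl_Sle] at h
          omega
        · rw [inr_Sge, inr_Sle] at h
          congr 1
          omega
      subst hi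
      have h1 := C.tinv_eq
      have h2 : mon C.t C.al2 C.be2 (Sum.inr (-1)) = (-2 : ℂ) • ((1 / 2 : ℂ) • mon C.t C.al2 C.be2 (Sum.inl (-1)) +
      (-1 / 2 : ℂ) • mon C.t C.al2 C.be2 (Sum.inl 1) +
      (1 / 2 : ℂ) • mon C.t C.al2 C.be2 (Sum.inl 2) +
      (-1 / 2 : ℂ) • mon C.t C.al2 C.be2 (Sum.inr 0)) + (2 : ℂ) • C.t⁻¹ := by
        conv_rhs => rw [h1]
        module
      rw [SetLike.mem_coe, h2]
      apply Submodule.add_mem_sup
      · exact Submodule.smul_mem _ _ C.tinv_rest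
      · exact Submodule.smul_mem _ _ (Submodule.mem_span_singleton_self _)
  · apply sup_le
    · exact sup_le (C.N2_le false) (C.N2_le true)
    · rw [Submodule.span_singleton_le_iff_mem]
      exact C.tinv_mem_OCs

theorem finrank_N (n : ℕ) (hn : 1 ≤ n) :
    Module.finrank ℂ (secs C.t (C.N false) (C.N true) n) = 2 * n - 1 := by
  rw [N_false_eq, C.TN_one.1, N_true_eq, finrank_secs C.TS_t_ne C.al_be_li]
  omega

end Cfg

end

end Pool.Agent.EllMod
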