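import Pool.Agent.MP_77976d_ag.Mb
import Pool.Agent.MP_77976d_ag.Ldc
import Pool.Agent.MP_77976d_ag.Tn
import Pool.Agent.MP_77976d_ag.Gf

/-! # C2 : the second Chern class of `E'` is one -/

open scoped TensorProduct
open IsLocalRing

namespace Pool.Agent.EllMod

noncomputable section

variable {F : Type} [Field F] [Algebra ℂ F] (C : Cfg F)

namespace Cfg

theorem C2_four (m n : ℕ) (P0 P1 Q0 Q1 : Submodule ℂ F) (hP0 : ∀ y ∈ P0, y ∈ C.KC)
    (hP1 : ∀ y ∈ P1, y ∈ C.KC) (hQ0 : ∀ y ∈ Q0, y ∈ C.KF) (hQ1 : ∀ y ∈ Q1, y ∈ C.KF) (v : F) :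
    v ∈ secs C.t P0 P1 m * secs C.x Q0 Q1 n ↔ v ∈ P0 * Q0 ∧ C.t⁻¹ ^ m * v ∈ P1 * Q0 ∧
      C.x⁻¹ ^ n * v ∈ P0 * Q1 ∧ C.t⁻¹ ^ m * (C.x⁻¹ ^ n * v) ∈ P1 * Q1 := by
  have ht := C.Gf_t_ne
  have hx := C.Gf_x_ne
  have htK : C.t ∈ C.KC := IntermediateField.subset_adjoin _ _ (by simp)
  have hxK : C.x ∈ C.KF := IntermediateField.subset_adjoin _ _ (by simp)
  have hP1' : ∀ y ∈ sc (C.t ^ m) P1, y ∈ C.KC := by
    intro y hy
    obtain ⟨w, hw, rfl⟩ := mem_sc.1 hy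
    exact mul_mem (pow_mem htK m) (hP1 w hw)
  have hQ1' : ∀ y ∈ sc (C.x ^ n) Q1, y ∈ C.KF := by
    intro y hy
    obtain ⟨w, hw, rfl⟩ := mem_sc.1 hy
    exact mul_mem (pow_mem hxK n) (hQ1 w hw)
  rw [mul_comm P1 Q0, mul_comm P1 Q1, Gf_mem_mul_sc ht, Gf_mem_mul_sc hx, Gf_mem_mul_sc ht,
    mul_comm Q1, Gf_mem_mul_sc hx, mul_comm Q0, Gf_secs_eq ht, Gf_secs_eq hx,
    ← C.inf_mul _ _ _ _ hP0 hP1' hQ0 hQ1']
  constructor
  · rintro ⟨h1, h4⟩
    refine ⟨h1, ?_, ?_, h4⟩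
    · have := (C.inf_mul P0 (sc (C.t ^ m) P1) Q0 (sc (C.x ^ n) Q1) hP0 hP1' hQ0 hQ1') ▸
        (Submodule.mem_inf.2 ⟨h1, h4⟩)
      exact (mul_le_mul' inf_le_right inf_le_left :
        (P0 ⊓ sc (C.t ^ m) P1) * (Q0 ⊓ sc (C.x ^ n) Q1) ≤ _) this
    · have := (C.inf_mul P0 (sc (C.t ^ m) P1) Q0 (sc (C.x ^ n) Q1) hP0 hP1' hQ0 hQ1') ▸
        (Submodule.mem_inf.2 ⟨h1, h4⟩)
      exact (mul_le_mul' inf_le_left inf_le_right :
        (P0 ⊓ sc (C.t ^ m) P1) * (Q0 ⊓ sc (C.x ^ n) Q1) ≤ _) this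
  · rintro ⟨h1, -, -, h4⟩
    exact ⟨h1, h4⟩

/-- even part -/
def C2p (P : Submodule ℂ F) : Submodule ℂ F :=
  P ⊓ LinearMap.ker (C.ι.toLinearMap - LinearMap.id)
/-- odd part -/
def C2m (P : Submodule ℂ F) : Submodule ℂ F :=
  P ⊓ LinearMap.ker (C.ι.toLinearMap + LinearMap.id)

theorem C2_mem_p {P : Submodule ℂ F} {v : F} : v ∈ C.C2p P ↔ v ∈ P ∧ C.ι v = v := by
  rw [C2p, Submodule.mem_inf, LinearMap.mem_ker, LinearMap.sub_apply, sub_eq_zero]
  rfl
theorem C2_mem_m {P : Submodule ℂ F} {v : F} : v ∈ C.C2m P ↔ v ∈ P ∧ C.ι v = -v := by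
  rw [C2m, Submodule.mem_inf, LinearMap.mem_ker, LinearMap.add_apply, add_eq_zero_iff_eq_neg]
  rfl

theorem C2_sup {P : Submodule ℂ F} (hP : ∀ y ∈ P, C.ι y ∈ P) : C.C2p P ⊔ C.C2m P = P := by
  apply le_antisymm (sup_le inf_le_left inf_le_left)
  intro v hv
  have h1 : v = (2⁻¹ : ℂ) • (v + C.ι v) + (2⁻¹ : ℂ) • (v - C.ι v) := by
    rw [← smul_add, show v + C.ι v + (v - C.ι v) = (2 : ℂ) • v from ?_, smul_smul]
    · norm_num
    · rw [two_smul]; ring
  have hι := C.Gf_ιι v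
  rw [h1]
  refine Submodule.add_mem_sup (Submodule.smul_mem _ _ ?_) (Submodule.smul_mem _ _ ?_)
  · rw [C2_mem_p]
    refine ⟨add_mem hv (hP v hv), ?_⟩
    rw [map_add, hι, add_comm]
  · rw [C2_mem_m]
    refine ⟨sub_mem hv (hP v hv), ?_⟩
    rw [map_sub, hι]; ring

theorem C2_inf (P : Submodule ℂ F) : C.C2p P ⊓ C.C2m P = ⊥ := by
  have hchar : CharZero F := Gf_char
  rw [eq_bot_iff]
  rintro v ⟨hv, hv'⟩
  have h1 := (C.C2_mem_p.1 hv).2
  have h2 := (C.C2_mem_m.1 hv').2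
  have : (2 : F) * v = 0 := by rw [h1] at h2; linear_combination h2
  exact (mul_eq_zero.1 this).resolve_left two_ne_zero

theorem C2_dim {P : Submodule ℂ F} [FiniteDimensional ℂ P] (hP : ∀ y ∈ P, C.ι y ∈ P) :
    Module.finrank ℂ (C.C2p P) + Module.finrank ℂ (C.C2m P) = Module.finrank ℂ P := by
  have : FiniteDimensional ℂ (C.C2p P) := Submodule.finiteDimensional_of_le inf_le_left
  have : FiniteDimensional ℂ (C.C2m P) := Submodule.finiteDimensional_of_le inf_le_left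
  have h := Submodule.finrank_sup_add_finrank_inf_eq (C.C2p P) (C.C2m P)
  rw [C.C2_sup hP, C.C2_inf, finrank_bot, add_zero] at h
  exact h.symm

theorem C2_even_mul (P Q : Submodule ℂ F) (hP : ∀ y ∈ P, C.ι y ∈ P) (hQ : ∀ y ∈ Q, C.ι y ∈ Q) :
    C.C2p (P * Q) = C.C2p P * C.C2p Q ⊔ C.C2m P * C.C2m Q := by
  apply le_antisymm
  · intro v hv
    rw [C2_mem_p] at hv
    have key : ∀ w ∈ P * Q, w + C.ι w ∈ C.C2p P * C.C2p Q ⊔ C.C2m P * C.C2m Q := by
      intro w hw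
      refine Submodule.mul_induction_on hw ?_ ?_
      · intro a ha b hb
        rw [← C.C2_sup hP, Submodule.mem_sup] at ha
        rw [← C.C2_sup hQ, Submodule.mem_sup] at hb
        obtain ⟨a1, ha1, a2, ha2, rfl⟩ := ha
        obtain ⟨b1, hb1, b2, hb2, rfl⟩ := hb
        have e : (a1 + a2) * (b1 + b2) + C.ι ((a1 + a2) * (b1 + b2)) =
            (2 : ℂ) • (a1 * b1) + (2 : ℂ) • (a2 * b2) := by
          rw [map_mul, map_add, map_add, (C.C2_mem_p.1 ha1).2, (C.C2_mem_p.1 hb1).2,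
            (C.C2_mem_m.1 ha2).2, (C.C2_mem_m.1 hb2).2, two_smul, two_smul]
          ring
        rw [e]
        exact Submodule.add_mem_sup (Submodule.smul_mem _ _ (Submodule.mul_mem_mul ha1 hb1))
          (Submodule.smul_mem _ _ (Submodule.mul_mem_mul ha2 hb2))
      · intro x y hx hy
        have e : x + y + C.ι (x + y) = (x + C.ι x) + (y + C.ι y) := by
          rw [map_add]; ring
        rw [e]
        exact add_mem hx hy
    have h2 := key v hv.1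
    rw [hv.2, ← two_smul ℂ] at h2
    have h3 := Submodule.smul_mem _ (2⁻¹ : ℂ) h2
    rwa [smul_smul, inv_mul_cancel₀ two_ne_zero, one_smul] at h3
  · refine sup_le ?_ ?_
    · rw [Submodule.mul_le]
      intro a ha b hb
      rw [C2_mem_p] at ha hb ⊢
      exact ⟨Submodule.mul_mem_mul ha.1 hb.1, by rw [map_mul, ha.2, hb.2]⟩
    · rw [Submodule.mul_le]
      intro a ha b hb
      rw [C2_mem_m] at ha hb
      rw [C2_mem_p]
      exact ⟨Submodule.mul_mem_mul ha.1 hb.1, by rw [map_mul, ha.2, hb.2]; ring⟩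

theorem C2_ker (V : Submodule ℂ F) [FiniteDimensional ℂ V] (f : F →ₗ[ℂ] ℂ)
    (hf : ∃ v ∈ V, f v ≠ 0) :
    Module.finrank ℂ ↥(V ⊓ LinearMap.ker f) + 1 = Module.finrank ℂ V := by
  have h := LinearMap.finrank_range_add_finrank_ker (f.domRestrict V)
  have h1 : LinearMap.range (f.domRestrict V) = ⊤ := by
    obtain ⟨v, hv, hv0⟩ := hf
    rw [LinearMap.range_eq_top]
    intro c
    refine ⟨(c / f v) • ⟨v, hv⟩, ?_⟩
    change f ((c / f v) • v) = c
    rw [map_smul, smul_eq_mul, div_mul_cancel₀ _ hv0]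
  rw [h1, finrank_top, Module.finrank_self] at h
  have h2 : Module.finrank ℂ ↥(V ⊓ LinearMap.ker f) =
      Module.finrank ℂ (LinearMap.ker (f.domRestrict V)) := by
    have h3 : LinearMap.ker (f.domRestrict V) = (LinearMap.ker f).comap V.subtype := rfl
    rw [h3, ← Submodule.finrank_map_subtype_eq V, Submodule.map_comap_subtype]
  rw [h2, ← h, add_comm]

theorem C2_mem_H0O (m n : ℕ) (u : ↥C.K) : u ∈ H0 C.surf C.surf.O m n ↔
    (u : F) ∈ secs C.t (sm (C.OC false)) (sm (C.OC true)) m *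
      secs C.x (sm (C.OF false)) (sm (C.OF true)) n := by
  rw [C.C2_four m n _ _ _ _ (C.OC_le false) (C.OC_le true) (C.OF_le false) (C.OF_le true)]
  have e : u ∈ H0 C.surf C.surf.O m n ↔ ∀ a b, (twc C.surf.t m a * twc C.surf.x n b) * u ∈
      C.surf.R a b := Iff.rfl
  rw [e, Bool.forall_bool, Bool.forall_bool, Bool.forall_bool]
  simp only [C.mem_R, Gf_mem_B]
  have h1 : (((twc C.surf.t m false * twc C.surf.x n false) * u : ↥C.K) : F) = u := by
    change ((1 : F) * 1) * u = u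
    ring
  have h2 : (((twc C.surf.t m false * twc C.surf.x n true) * u : ↥C.K) : F) =
      C.x⁻¹ ^ n * u := by
    change ((1 : F) * C.x⁻¹ ^ n) * u = _
    ring
  have h3 : (((twc C.surf.t m true * twc C.surf.x n false) * u : ↥C.K) : F) =
      C.t⁻¹ ^ m * u := by
    change (C.t⁻¹ ^ m * 1) * (u : F) = _
    ring
  have h4 : (((twc C.surf.t m true * twc C.surf.x n true) * u : ↥C.K) : F) =
      C.t⁻¹ ^ m * (C.x⁻¹ ^ n * u) := by
    change (C.t⁻¹ ^ m * C.x⁻¹ ^ n) * (u : F) = _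
    ring
  rw [h1, h2, h3, h4]
  tauto

theorem C2_H0O (m n : ℕ) (hm : 2 ≤ m) (hn : 1 ≤ n) :
    Module.finrank ℂ (H0 C.surf C.surf.O m n) = (2 * m - 1) * (2 * n) := by
  have hK : Module.finrank ℂ (H0 C.surf C.surf.O m n) = Module.finrank ℂ
      ((H0 C.surf C.surf.O m n).map C.K.val.toLinearMap) :=
    (LinearEquiv.finrank_eq (Submodule.equivMapOfInjective _ C.K.val.injective _))
  set P := secs C.t (sm (C.OC false)) (sm (C.OC true)) m with hP
  set Q := secs C.x (sm (C.OF false)) (sm (C.OF true)) n with hQ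
  have hPι : ∀ y ∈ P, C.ι y ∈ P := C.Gf_secs_ι C.ι_t _ _ (C.ι_OC false) (C.ι_OC true) m
  have hQι : ∀ y ∈ Q, C.ι y ∈ Q := C.Gf_secs_ι C.ι_x _ _ (C.ι_OF false) (C.ι_OF true) n
  have hPK : ∀ y ∈ P, y ∈ C.KC := fun y hy => C.OC_le false y hy.1
  have hQK : ∀ y ∈ Q, y ∈ C.KF := fun y hy => C.OF_le false y hy.1
  have e1 : (H0 C.surf C.surf.O m n).map C.K.val.toLinearMap = C.C2p (P * Q) := by
    ext v
    rw [C2_mem_p]
    constructor
    · rintro ⟨u, hu, rfl⟩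
      exact ⟨(C.C2_mem_H0O m n u).1 hu, u.2⟩
    · rintro ⟨h1, h2⟩
      exact ⟨⟨v, h2⟩, (C.C2_mem_H0O m n ⟨v, h2⟩).2 h1, rfl⟩
  have dP : Module.finrank ℂ P = 2 * m - 1 := C.finrank_OC m hm
  have dQ : Module.finrank ℂ Q = 4 * n := C.finrank_OF n hn
  have dQp : Module.finrank ℂ (C.C2p Q) = 2 * n := C.finrank_OF_even n hn
  have fP : FiniteDimensional ℂ P := Module.finite_of_finrank_pos (by omega)
  have fQ : FiniteDimensional ℂ Q := Module.finite_of_finrank_pos (by omega)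
  have dP' := C.C2_dim hPι
  have dQ' := C.C2_dim hQι
  have dQm : Module.finrank ℂ (C.C2m Q) = 2 * n := by omega
  rw [hK, e1, C.C2_even_mul P Q hPι hQι]
  have mp : ∀ y ∈ C.C2p P, y ∈ C.KC := fun y hy => hPK y hy.1
  have mm : ∀ y ∈ C.C2m P, y ∈ C.KC := fun y hy => hPK y hy.1
  have np : ∀ y ∈ C.C2p Q, y ∈ C.KF := fun y hy => hQK y hy.1
  have nm : ∀ y ∈ C.C2m Q, y ∈ C.KF := fun y hy => hQK y hy.1
  have d1 := C.finrank_mul (C.C2p P) (C.C2p Q) mp np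
  have d2 := C.finrank_mul (C.C2m P) (C.C2m Q) mm nm
  have dPQ := C.finrank_mul P Q hPK hQK
  have fPQ : FiniteDimensional ℂ ↥(P * Q) := Module.finite_of_finrank_pos (by
    rw [dPQ]; exact Nat.mul_pos (by omega) (by omega))
  have l1 : C.C2p P * C.C2p Q ≤ P * Q := mul_le_mul' inf_le_left inf_le_left
  have l2 : C.C2m P * C.C2m Q ≤ P * Q := mul_le_mul' inf_le_left inf_le_left
  have f1 : FiniteDimensional ℂ ↥(C.C2p P * C.C2p Q) := Submodule.finiteDimensional_of_le l1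
  have f2 : FiniteDimensional ℂ ↥(C.C2m P * C.C2m Q) := Submodule.finiteDimensional_of_le l2
  have h := Submodule.finrank_sup_add_finrank_inf_eq (C.C2p P * C.C2p Q) (C.C2m P * C.C2m Q)
  rw [C.inf_mul _ _ _ _ mp mm np nm, C.C2_inf, Submodule.bot_mul, finrank_bot, add_zero,
    d1, d2, dQp, dQm, ← add_mul, dP', dP] at h
  exact h

theorem C2_mem_H0E (m n : ℕ) (v : F) : v ∈ H0 C.surf C.E' m n ↔
    v ∈ (secs C.t (C.N false) (C.N true) m * secs C.x (C.QM false) (C.QM true) n) ⊓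
      LinearMap.ker (C.ev y0) := by
  have hN : ∀ a, ∀ y ∈ C.N a, y ∈ C.KC := fun a y hy => C.OCs_le y (C.N_le a hy)
  rw [Submodule.mem_inf, C.C2_four m n _ _ _ _ (hN false) (hN true) (C.QM_le false)
    (C.QM_le true)]
  have e : v ∈ H0 C.surf C.E' m n ↔ ∀ a b, (twc C.surf.t m a * twc C.surf.x n b) • v ∈
      C.E' a b := Iff.rfl
  rw [e, Bool.forall_bool, Bool.forall_bool, Bool.forall_bool, C.E'_00, C.E'_eq false true rfl,
    C.E'_eq true false rfl, C.E'_eq true true rfl]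
  have h1 : (twc C.surf.t m false * twc C.surf.x n false) • v = v := by
    change ((1 : F) * 1) * v = v
    ring
  have h2 : (twc C.surf.t m false * twc C.surf.x n true) • v = C.x⁻¹ ^ n * v := by
    change ((1 : F) * C.x⁻¹ ^ n) * v = _
    ring
  have h3 : (twc C.surf.t m true * twc C.surf.x n false) • v = C.t⁻¹ ^ m * v := by
    change (C.t⁻¹ ^ m * 1) * (v : F) = _
    ring
  have h4 : (twc C.surf.t m true * twc C.surf.x n true) • v = C.t⁻¹ ^ m * (C.x⁻¹ ^ n * v) := by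
    change (C.t⁻¹ ^ m * C.x⁻¹ ^ n) * (v : F) = _
    ring
  rw [h1, h2, h3, h4, Submodule.mem_inf]
  tauto

theorem C2_H0E (m n : ℕ) (hm : 1 ≤ m) (hn : 1 ≤ n) :
    Module.finrank ℂ (H0 C.surf C.E' m n) + 1 = (2 * m - 1) * (4 * n) := by
  set P := secs C.t (C.N false) (C.N true) m with hP
  set Q := secs C.x (C.QM false) (C.QM true) n with hQ
  have e1 : H0 C.surf C.E' m n = (P * Q) ⊓ LinearMap.ker (C.ev y0) := by
    ext v
    exact C.C2_mem_H0E m n v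
  have hPK : ∀ y ∈ P, y ∈ C.KC := fun y hy => C.OCs_le y (C.N_le false hy.1)
  have hQK : ∀ y ∈ Q, y ∈ C.KF := fun y hy => C.QM_le false y hy.1
  have dPQ := C.finrank_mul P Q hPK hQK
  rw [C.finrank_N m hm, C.finrank_QM n hn] at dPQ
  have fPQ : FiniteDimensional ℂ ↥(P * Q) := Module.finite_of_finrank_pos (by
    rw [dPQ]; exact Nat.mul_pos (by omega) (by omega))
  rw [e1, C2_ker (P * Q) (C.ev y0) ?_, dPQ]
  have ht := C.Gf_t_ne
  have hx := C.Gf_x_ne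
  have mt : C.t ∈ C.OC false := Algebra.subset_adjoin (by simp [T, coord])
  have ms : C.s ∈ C.OC false := Algebra.subset_adjoin (by simp [S])
  have mA : (1 - C.t ^ 2 + C.t ^ 3) + C.s ∈ C.OC false :=
    add_mem (add_mem (sub_mem (one_mem _) (pow_mem mt 2)) (pow_mem mt 3)) ms
  have mT : C.t⁻¹ ∈ C.OC true := Algebra.subset_adjoin (by simp [T, coord])
  have mX : C.x⁻¹ ∈ C.OF true := Algebra.subset_adjoin (by simp [Xc, coord])
  have a1 : (1 - C.t ^ 2 + C.t ^ 3) + C.s ∈ P := by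
    rw [hP, mem_secs]
    constructor
    · unfold N
      rw [mem_sc]
      exact ⟨_, mA, by simp⟩
    · unfold N
      rw [mem_sc]
      refine ⟨C.t⁻¹ ^ (m - 1), pow_mem mT _, ?_⟩
      obtain ⟨k, rfl⟩ : ∃ k, m = k + 1 := ⟨m - 1, by omega⟩
      simp only [if_true, g, Nat.add_sub_cancel]
      ring
  have a2 : C.x + (i : F) ∈ Q := by
    have g1 : C.x + (i : F) = (C.m1 false : F) := rfl
    rw [hQ, mem_secs]
    constructor
    · rw [g1]
      have := Submodule.mul_mem_mul (M := Submodule.span ℂ {(C.m1 false : F), (C.m2 false : F)})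
        (N := sm (C.OF false)) (Submodule.subset_span (by simp : (C.m1 false : F) ∈
          ({(C.m1 false : F), (C.m2 false : F)} : Set F))) (one_mem (C.OF false))
      rwa [mul_one] at this
    · obtain ⟨k, rfl⟩ : ∃ k, n = k + 1 := ⟨n - 1, by omega⟩
      have g2 : C.x⁻¹ ^ (k + 1) * (C.x + (i : F)) = (C.m2 true : F) * C.x⁻¹ ^ k := by
        change C.x⁻¹ ^ (k + 1) * (C.x + (i : F)) = ((C.x + i) * C.x⁻¹) * C.x⁻¹ ^ k
        ring
      rw [g2]
      exact Submodule.mul_mem_mul (M := Submodule.span ℂ {(C.m1 true : F), (C.m2 true : F)})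
        (N := sm (C.OF true)) (Submodule.subset_span (by simp : (C.m2 true : F) ∈
          ({(C.m1 true : F), (C.m2 true : F)} : Set F))) (pow_mem mX k)
  refine ⟨_, Submodule.mul_mem_mul a1 a2, ?_⟩
  have b1 : (1 - C.t ^ 2 + C.t ^ 3) + C.s ∈ C.B false false := (le_sup_left : C.OC false ≤ _) mA
  have b2 : C.x + (i : F) ∈ C.B false false :=
    add_mem C.x_mem ((C.B false false).algebraMap_mem _)
  rw [C.Mb_ev_mul y0 _ _ b1 b2, C.ev_eq y0 _ b1, C.ev_eq y0 _ b2]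
  have c1 : C.lift (pt y0) ⟨(1 - C.t ^ 2 + C.t ^ 3) + C.s, b1⟩ = 2 := by
    have : (⟨(1 - C.t ^ 2 + C.t ^ 3) + C.s, b1⟩ : ↥(C.B false false)) =
        (1 - ⟨C.t, C.t_mem⟩ ^ 2 + ⟨C.t, C.t_mem⟩ ^ 3) + ⟨C.s, C.s_mem⟩ := rfl
    rw [this, map_add, map_add, map_sub, map_one, map_pow, map_pow, C.lift_t, C.lift_s]
    simp [pt, sg]
    norm_num
  have c2 : C.lift (pt y0) ⟨C.x + (i : F), b2⟩ = Complex.I := by
    have : (⟨C.x + (i : F), b2⟩ : ↥(C.B false false)) =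
        ⟨C.x, C.x_mem⟩ + algebraMap ℂ _ Complex.I := rfl
    rw [this, map_add, AlgHom.commutes, C.lift_x]
    simp [pt]
  rw [c1, c2]
  exact mul_ne_zero two_ne_zero Complex.I_ne_zero

theorem E'_c2 : C2 C.surf C.E' 1 := by
  refine ⟨2, fun m hm n hn => ?_⟩
  rw [C.C2_H0O m n hm (by omega)]
  have h := C.C2_H0E m n (by omega) (by omega)
  have h' : (Module.finrank ℂ (H0 C.surf C.E' m n) : ℤ) + 1 =
      (((2 * m - 1) * (4 * n) : ℕ) : ℤ) := by
    rw [← h]; push_cast; ring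
  rw [h']
  push_cast
  ring

end Cfg

end

end Pool.Agent.EllMod
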