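import Pool.Agent.MP_77976d_ag.Ic

/-! # CAN : the canonical sheaf -/

open scoped TensorProduct
open IsLocalRing

namespace Pool.Agent.EllMod

noncomputable section

section CanAbs

variable {k : Type} [Field k] [CharZero k] [Algebra ℂ k]

omit [CharZero k] in
theorem CanAbs_pres (R : Subalgebra ℂ k) (D : Derivation ℂ k k) (G : Set k)
    (hG : R ≤ Algebra.adjoin ℂ G) (h : ∀ g ∈ G, g ∈ R ∧ D g ∈ R) : ∀ y ∈ R, D y ∈ R := by
  intro y hy
  have key : ∀ z ∈ Algebra.adjoin ℂ G, z ∈ R ∧ D z ∈ R := by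
    intro z hz
    induction hz using Algebra.adjoin_induction with
    | mem x hx => exact h x hx
    | algebraMap c => exact ⟨R.algebraMap_mem c, by rw [D.map_algebraMap]; exact zero_mem _⟩
    | add x y _ _ hx hy =>
      exact ⟨add_mem hx.1 hy.1, by rw [map_add]; exact add_mem hx.2 hy.2⟩
    | mul x y _ _ hx hy =>
      refine ⟨mul_mem hx.1 hy.1, ?_⟩
      rw [D.leibniz, smul_eq_mul, smul_eq_mul]
      exact add_mem (mul_mem hx.1 hy.2) (mul_mem hy.1 hx.2)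
  exact (key y (hG hy)).2

theorem CanAbs_DY (D : Derivation ℂ k k) {X Y : k} (hY : Y ^ 2 = X ^ 4 - 1) :
    Y * D Y = 2 * X ^ 3 * D X := by
  have h := congrArg D hY
  rw [map_sub, D.leibniz_pow, D.leibniz_pow, D.map_one_eq_zero] at h
  simp only [nsmul_eq_mul, smul_eq_mul, Nat.cast_ofNat] at h
  have : (2 : k) * (Y * D Y) = 2 * (2 * X ^ 3 * D X) := by
    have e1 : (2 - 1 : ℕ) = 1 := rfl
    have e2 : (4 - 1 : ℕ) = 3 := rfl
    rw [e1, e2] at h
    linear_combination h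
  exact mul_left_cancel₀ two_ne_zero this

omit [CharZero k] in
theorem CanAbs_Dr (D : Derivation ℂ k k) {X Y r fT fT' T : k}
    (hr : r ^ 2 = fT * (2 * (X ^ 2 + Y))) (hf : D fT = fT' * D T) :
    2 * r * D r = fT' * D T * (2 * (X ^ 2 + Y)) + fT * (2 * (2 * X * D X + D Y)) := by
  have h := congrArg D hr
  rw [D.leibniz_pow, D.leibniz, D.leibniz, map_add, D.leibniz_pow, hf] at h
  have h2 : D (2 : k) = 0 := by
    have := D.map_algebraMap (2 : ℂ)
    rwa [map_ofNat] at this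
  rw [h2] at h
  simp only [nsmul_eq_mul, smul_eq_mul, Nat.cast_ofNat] at h
  have e1 : (2 - 1 : ℕ) = 1 := rfl
  rw [e1] at h
  linear_combination h

theorem CanAbs_bound (R : Subalgebra ℂ k) (D : Derivation ℂ k k) (hD : ∀ y ∈ R, D y ∈ R)
    {X Y r fT fT' T A B : k} (hX : X ∈ R) (hYR : Y ∈ R) (hrR : r ∈ R) (hT : T ∈ R) (hA : A ∈ R)
    (hB : B ∈ R) (hY0 : Y ≠ 0) (hY : Y ^ 2 = X ^ 4 - 1)
    (hr : r ^ 2 = fT * (2 * (X ^ 2 + Y))) (hf : D fT = fT' * D T)
    (hbez : A * fT + B * fT' = 5960) :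
    ∃ θ ∈ R, ∃ η ∈ R, D T = r * θ ∧ D X = Y * η := by
  have h1 := CanAbs_DY D hY
  have h2 := CanAbs_Dr D hr hf
  have hinv : ∀ n : ℕ, ((n : k))⁻¹ ∈ R := by
    intro n
    have h := R.algebraMap_mem ((n : ℂ)⁻¹)
    rwa [map_inv₀, map_natCast] at h
  have i2 : (2 : k)⁻¹ ∈ R := by exact_mod_cast hinv 2
  have i5960 : (5960 : k)⁻¹ ∈ R := by exact_mod_cast hinv 5960
  have hη : 2⁻¹ * X * D Y - Y * D X ∈ R :=
    sub_mem (mul_mem (mul_mem i2 hX) (hD _ hYR)) (mul_mem hYR (hD _ hX))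
  obtain ⟨η, hηdef⟩ : ∃ η, η = 2⁻¹ * X * D Y - Y * D X := ⟨_, rfl⟩
  rw [← hηdef] at hη
  have h20 : (2 : k) ≠ 0 := two_ne_zero
  have h3 : D X = Y * η := by
    rw [hηdef]
    field_simp
    linear_combination (2 * D X) * hY - X * h1
  have h4 : D Y = 2 * X ^ 3 * η := by
    apply mul_left_cancel₀ hY0
    rw [h1, h3]; ring
  refine ⟨5960⁻¹ * (A * r * (2⁻¹ * (X ^ 2 - Y)) * D T +
    B * ((D r - X * η * r) * (X ^ 2 - Y))), ?_, η, hη, ?_, h3⟩
  · refine mul_mem i5960 (add_mem (mul_mem (mul_mem (mul_mem hA hrR) (mul_mem i2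
      (sub_mem (pow_mem hX 2) hYR))) (hD _ hT)) (mul_mem hB (mul_mem (sub_mem (hD _ hrR)
      (mul_mem (mul_mem hX hη) hrR)) (sub_mem (pow_mem hX 2) hYR))))
  · rw [h3, h4] at h2
    have hu : (X ^ 2 + Y) * (X ^ 2 - Y) = 1 := by linear_combination -hY
    have h5960 : (5960 : k) ≠ 0 := by norm_num
    have e1 : fT * D T = r * (r * (2⁻¹ * (X ^ 2 - Y)) * D T) := by
      have : fT = r ^ 2 * (2⁻¹ * (X ^ 2 - Y)) := by
        rw [hr]
        field_simp
        linear_combination (-fT) * hu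
      rw [this]; ring
    have e2 : fT' * D T = r * ((D r - X * η * r) * (X ^ 2 - Y)) := by
      have e3 : fT' * D T * 2 = (2 * r * D r - 2 * X * η * r ^ 2) * (X ^ 2 - Y) := by
        rw [h2, hr]
        linear_combination (-(fT' * D T * 2)) * hu
      have e4 : (2 : k) * (fT' * D T) = 2 * (r * ((D r - X * η * r) * (X ^ 2 - Y))) := by
        linear_combination e3
      exact mul_left_cancel₀ h20 e4
    have e5 : (5960 : k) * D T = A * (fT * D T) + B * (fT' * D T) := by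
      rw [← hbez]; ring
    rw [e1, e2] at e5
    apply mul_left_cancel₀ h5960
    rw [e5]
    field_simp

theorem CanAbs_DC (D : Derivation ℂ k k) {X Y r fT fT' T : k} (hY0 : Y ≠ 0) (hr0 : r ≠ 0)
    (hY : Y ^ 2 = X ^ 4 - 1) (hr : r ^ 2 = fT * (2 * (X ^ 2 + Y))) (hf : D fT = fT' * D T)
    (hT : D T = r) (hX : D X = 0) : D Y = 0 ∧ D r = fT' * (X ^ 2 + Y) := by
  have h1 := CanAbs_DY D hY
  have h2 := CanAbs_Dr D hr hf
  rw [hX, mul_zero] at h1
  have h3 : D Y = 0 := (mul_eq_zero.1 h1).resolve_left hY0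
  refine ⟨h3, ?_⟩
  rw [hX, h3, hT] at h2
  apply mul_left_cancel₀ (mul_ne_zero (two_ne_zero (α := k)) hr0)
  rw [h2]; ring

theorem CanAbs_DF (D : Derivation ℂ k k) {X Y r fT fT' T : k} (hY0 : Y ≠ 0) (hr0 : r ≠ 0)
    (hY : Y ^ 2 = X ^ 4 - 1) (hr : r ^ 2 = fT * (2 * (X ^ 2 + Y))) (hf : D fT = fT' * D T)
    (hT : D T = 0) (hX : D X = Y) : D Y = 2 * X ^ 3 ∧ D r = X * r := by
  have h1 := CanAbs_DY D hY
  have h2 := CanAbs_Dr D hr hf
  rw [hX] at h1
  have h3 : D Y = 2 * X ^ 3 := by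
    apply mul_left_cancel₀ hY0
    rw [h1]; ring
  refine ⟨h3, ?_⟩
  rw [hX, h3, hT] at h2
  apply mul_left_cancel₀ (mul_ne_zero (two_ne_zero (α := k)) hr0)
  rw [h2]
  linear_combination (-2 * X) * hr

end CanAbs

variable {F : Type} [Field F] [Algebra ℂ F] (C : Cfg F)

namespace Cfg

theorem Can_char : CharZero F := charZero_of_injective_algebraMap (algebraMap ℂ F).injective

theorem Can_s_ne : C.s ≠ 0 := by
  have h := C.mono_li.ne_zero ((0, 0, (true, false, false)) : ℤ × ℤ × (Bool × Bool × Bool))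
  simpa [e] using h
theorem Can_p_ne : C.p ≠ 0 := by
  have h := C.mono_li.ne_zero ((0, 0, (false, true, false)) : ℤ × ℤ × (Bool × Bool × Bool))
  simpa [e] using h
theorem Can_q_ne : C.q ≠ 0 := by
  have h := C.mono_li.ne_zero ((0, 0, (false, false, true)) : ℤ × ℤ × (Bool × Bool × Bool))
  simpa [e] using h
theorem Can_t_ne : C.t ≠ 0 := C.indep.ne_zero 0
theorem Can_x_ne : C.x ≠ 0 := C.indep.ne_zero 1

omit [Algebra ℂ F] in
theorem Can_fst2 : TrivSqZeroExt.fst (2 : TrivSqZeroExt F F) = 2 := by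
  rw [← one_add_one_eq_two, TrivSqZeroExt.fst_add, TrivSqZeroExt.fst_one, one_add_one_eq_two]
omit [Algebra ℂ F] in
theorem Can_snd2 : TrivSqZeroExt.snd (2 : TrivSqZeroExt F F) = 0 := by
  rw [← one_add_one_eq_two, TrivSqZeroExt.snd_add, TrivSqZeroExt.snd_one, add_zero]

/-- The point of `Spec B₀₀` with values in the dual numbers over `F`. -/
def CanPt (α β : F) : Pt (TrivSqZeroExt F F) where
  τ := TrivSqZeroExt.inl C.t + TrivSqZeroExt.inr α
  χ := TrivSqZeroExt.inl C.x + TrivSqZeroExt.inr β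
  σ := TrivSqZeroExt.inl C.s + TrivSqZeroExt.inr
    ((6 * C.t ^ 5 - 10 * C.t ^ 4 + 4 * C.t ^ 3 + 6 * C.t ^ 2 + 4 * C.t) * α / (2 * C.s))
  π := TrivSqZeroExt.inl C.p + TrivSqZeroExt.inr (C.x * β / C.p)
  ρ := TrivSqZeroExt.inl C.q + TrivSqZeroExt.inr (C.x * β / C.q)
  hσ := by
    have hchar : CharZero F := Can_char
    have hs := C.Can_s_ne
    apply TrivSqZeroExt.ext
    · simpa [Can_fst2] using C.hs
    · simp [Can_fst2, Can_snd2]
      field_simp
      ring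
  hπ := by
    have hchar : CharZero F := Can_char
    have hp := C.Can_p_ne
    apply TrivSqZeroExt.ext
    · simpa using C.hp
    · simp
      field_simp
  hρ := by
    have hchar : CharZero F := Can_char
    have hp := C.Can_q_ne
    apply TrivSqZeroExt.ext
    · simpa using C.hq
    · simp
      field_simp

theorem Can_der (α β : F) : ∃ D : F → F, (∀ u v, D (u + v) = D u + D v) ∧
    (∀ u v, D (u * v) = u * D v + v * D u) ∧ (∀ c : ℂ, D (algebraMap ℂ F c) = 0) ∧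
    D C.t = α ∧ D C.x = β := by
  obtain ⟨φ, ht, hx, hs, hp, hq⟩ := C.exists_lift (C.CanPt α β)
  have hfst : (TrivSqZeroExt.fstHom ℂ F F).comp φ = (C.B false false).val := by
    refine C.lift_ext _ _ ?_ ?_ ?_ ?_ ?_
    · rw [AlgHom.comp_apply, ht]; simp [CanPt]
    · rw [AlgHom.comp_apply, hx]; simp [CanPt]
    · rw [AlgHom.comp_apply, hs]; simp [CanPt]
    · rw [AlgHom.comp_apply, hp]; simp [CanPt]
    · rw [AlgHom.comp_apply, hq]; simp [CanPt]
  have hfst' : ∀ y : ↥(C.B false false), (φ y).fst = y := fun y => DFunLike.congr_fun hfst y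
  have hfrac : IsFractionRing ↥(C.B false false) F := by
    refine IsFractionRing.of_field _ _ fun z => ?_
    obtain ⟨d, hd, hd0, hdz⟩ := C.exists_denom z
    have hdB : d ∈ C.B false false := by
      have hle : Algebra.adjoin ℂ {C.t, C.x} ≤ C.B false false := by
        rw [Algebra.adjoin_le_iff]
        rintro _ (rfl | rfl)
        · exact C.t_mem
        · exact C.x_mem
      exact hle hd
    refine ⟨⟨d * z, hdz⟩, ⟨d, hdB⟩, ?_⟩
    change z = (d * z) / d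
    field_simp
  have hunit : ∀ y : nonZeroDivisors ↥(C.B false false), IsUnit (φ.toRingHom y) := by
    intro y
    rw [TrivSqZeroExt.isUnit_iff_isUnit_fst]
    change IsUnit (φ y).fst
    rw [hfst', isUnit_iff_ne_zero]
    intro h
    exact nonZeroDivisors.ne_zero y.2 (Subtype.ext h)
  let Φ : F →+* TrivSqZeroExt F F := IsLocalization.lift
    (M := nonZeroDivisors ↥(C.B false false)) (g := φ.toRingHom) hunit
  have hΦ : ∀ y : ↥(C.B false false), Φ (y : F) = φ y := fun y =>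
    IsLocalization.lift_eq (M := nonZeroDivisors ↥(C.B false false)) (g := φ.toRingHom) hunit y
  have hΦf : ((TrivSqZeroExt.fstHom ℂ F F).toRingHom.comp Φ) = RingHom.id F := by
    refine IsLocalization.ringHom_ext (nonZeroDivisors ↥(C.B false false)) ?_
    ext y
    change (Φ (y : F)).fst = y
    rw [hΦ, hfst']
  have hΦf' : ∀ y : F, (Φ y).fst = y := fun y => RingHom.congr_fun hΦf y
  refine ⟨fun y => (Φ y).snd, fun u v => ?_, fun u v => ?_, fun c => ?_, ?_, ?_⟩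
  · simp
  · simp [hΦf', mul_comm]
  · have : (algebraMap ℂ F c) = ((algebraMap ℂ ↥(C.B false false) c : ↥(C.B false false)) : F) :=
      rfl
    simp only
    rw [this, hΦ, AlgHom.commutes]
    rfl
  · have := hΦ ⟨C.t, C.t_mem⟩
    simp only at this ⊢
    rw [this, ht]; simp [CanPt]
  · have := hΦ ⟨C.x, C.x_mem⟩
    simp only at this ⊢
    rw [this, hx]; simp [CanPt]

theorem Can_fix (φ : F →ₐ[ℂ] F) (S : Set F) (h : ∀ y ∈ S, φ y = y) :
    ∀ y ∈ IntermediateField.adjoin ℂ S, φ y = y := by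
  intro y hy
  induction hy using IntermediateField.adjoin_induction with
  | mem x hx => exact h x hx
  | algebraMap x => exact φ.commutes x
  | add x y _ _ hx hy => rw [map_add, hx, hy]
  | inv x _ hx => rw [map_inv₀, hx]
  | mul x y _ _ hx hy => rw [map_mul, hx, hy]

theorem Can_ιι (v : F) : C.ι (C.ι v) = v := by
  have h := Can_fix ((C.ι.trans C.ι : F ≃ₐ[ℂ] F) : F →ₐ[ℂ] F) {C.t, C.x, C.s, C.p, C.q} ?_ v
    (by rw [C.gen]; trivial)
  · exact h
  · intro y hy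
    change C.ι (C.ι y) = y
    rcases hy with rfl | rfl | rfl | rfl | rfl
    · simp
    · simp
    · simp
    · simp
    · simp

/-- derivations of `K` with prescribed values at `t`, `x` -/
theorem Can_derK (α β : ↥C.K) : ∃ D : Derivation ℂ ↥C.K ↥C.K, D C.tK = α ∧ D C.xK = β := by
  have hchar : CharZero F := Can_char
  obtain ⟨D, hadd, hmul, hc, ht, hx⟩ := C.Can_der α β
  have hK : ∀ v : F, C.ι ((2 : F)⁻¹ * (v + C.ι v)) = (2 : F)⁻¹ * (v + C.ι v) := by
    intro v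
    rw [map_mul, map_add, C.Can_ιι, map_inv₀, map_ofNat, add_comm]
  have hKK : ∀ v : F, C.ι v = v → (2 : F)⁻¹ * (v + C.ι v) = v := by
    intro v hv
    rw [hv]
    field_simp
    ring
  let D' : ↥C.K →ₗ[ℂ] ↥C.K :=
    { toFun := fun v => ⟨(2 : F)⁻¹ * (D v + C.ι (D v)), hK _⟩
      map_add' := fun u v => by
        apply Subtype.ext
        change (2 : F)⁻¹ * (D (u + v) + C.ι (D (u + v))) = (2 : F)⁻¹ * (D u + C.ι (D u)) +
          (2 : F)⁻¹ * (D v + C.ι (D v))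
        rw [hadd, map_add]
        ring
      map_smul' := fun c v => by
        apply Subtype.ext
        change (2 : F)⁻¹ * (D (c • (v : F)) + C.ι (D (c • (v : F)))) =
          c • ((2 : F)⁻¹ * (D v + C.ι (D v)))
        rw [Algebra.smul_def, hmul, hc, mul_zero, add_zero, map_mul, AlgEquiv.commutes,
          Algebra.smul_def]
        ring }
  refine ⟨Derivation.mk' D' ?_, ?_, ?_⟩
  · intro u v
    apply Subtype.ext
    change (2 : F)⁻¹ * (D (u * v) + C.ι (D (u * v))) = u * ((2 : F)⁻¹ * (D v + C.ι (D v))) +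
          v * ((2 : F)⁻¹ * (D u + C.ι (D u)))
    rw [hmul, map_add, map_mul, map_mul, C.mem_K.1 u.2, C.mem_K.1 v.2]
    ring
  · apply Subtype.ext
    change (2 : F)⁻¹ * (D C.t + C.ι (D C.t)) = α
    rw [ht]
    exact hKK _ α.2
  · apply Subtype.ext
    change (2 : F)⁻¹ * (D C.x + C.ι (D C.x)) = β
    rw [hx]
    exact hKK _ β.2

/-- coordinate of a chart -/
def CanT (a : Bool) : ↥C.K := coord C.tK a
/-- coordinate of a chart -/
def CanX (b : Bool) : ↥C.K := coord C.xK b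

theorem Can_ιi : C.ι (i : F) = i := C.ι.commutes _

theorem Can_ιP (b : Bool) : C.ι (C.P b) = -C.P b := by
  cases b <;> simp [P]
theorem Can_ιQ (b : Bool) : C.ι (C.Q b) = -C.Q b := by
  cases b <;> simp [Q, C.Can_ιi]
theorem Can_ιS (a : Bool) : C.ι (C.S a) = -C.S a := by
  cases a <;> simp [S]

/-- `Y` in a chart -/
def CanY (b : Bool) : ↥C.K := ⟨C.P b * C.Q b, by
  rw [mem_K, map_mul, Can_ιP, Can_ιQ]; ring⟩
/-- `r` in a chart -/
def CanR (a b : Bool) : ↥C.K := ⟨C.S a * C.j b, by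
  rw [mem_K, map_mul, Can_ιS, ι_j]; ring⟩

/-- `f_a(T)` -/
def CanF (a : Bool) : ↥C.K := if a then
  C.CanT a ^ 6 + 2 * C.CanT a ^ 4 + 2 * C.CanT a ^ 3 + C.CanT a ^ 2 - 2 * C.CanT a + 1
  else C.CanT a ^ 6 - 2 * C.CanT a ^ 5 + C.CanT a ^ 4 + 2 * C.CanT a ^ 3 + 2 * C.CanT a ^ 2 + 1
/-- `f_a'(T)` -/
def CanF' (a : Bool) : ↥C.K := if a then
  6 * C.CanT a ^ 5 + 8 * C.CanT a ^ 3 + 6 * C.CanT a ^ 2 + 2 * C.CanT a - 2
  else 6 * C.CanT a ^ 5 - 10 * C.CanT a ^ 4 + 4 * C.CanT a ^ 3 + 6 * C.CanT a ^ 2 +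
    4 * C.CanT a
/-- Bezout coefficient -/
def CanA (a : Bool) : ↥C.K := if a then
  6868 + 8270 * C.CanT a + 6746 * C.CanT a ^ 2 + 3174 * C.CanT a ^ 3 + 3894 * C.CanT a ^ 4
  else 5960 + 1484 * C.CanT a - 2630 * C.CanT a ^ 2 - 336 * C.CanT a ^ 3 + 1494 * C.CanT a ^ 4
/-- Bezout coefficient -/
def CanB (a : Bool) : ↥C.K := if a then
  454 - 2279 * C.CanT a - 2380 * C.CanT a ^ 2 - 1557 * C.CanT a ^ 3 - 529 * C.CanT a ^ 4 -
    649 * C.CanT a ^ 5
  else -371 - 1766 * C.CanT a - 618 * C.CanT a ^ 2 + 475 * C.CanT a ^ 3 + 139 * C.CanT a ^ 4 -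
    249 * C.CanT a ^ 5

theorem Can_bez (a : Bool) : C.CanA a * C.CanF a + C.CanB a * C.CanF' a = 5960 := by
  cases a
  · simp only [CanA, CanB, CanF, CanF', Bool.false_eq_true, if_false]
    ring
  · simp only [CanA, CanB, CanF, CanF', if_true]
    ring

theorem Can_DF (D : Derivation ℂ ↥C.K ↥C.K) (a : Bool) :
    D (C.CanF a) = C.CanF' a * D (C.CanT a) := by
  have h2 : D (2 : ↥C.K) = 0 := by
    have := D.map_algebraMap (2 : ℂ)
    rwa [map_ofNat] at this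
  cases a
  · simp only [CanF, CanF', Bool.false_eq_true, if_false, map_add, map_sub, D.leibniz,
      D.leibniz_pow, h2, D.map_one_eq_zero, smul_eq_mul, nsmul_eq_mul]
    push_cast
    ring
  · simp only [CanF, CanF', if_true, map_add, map_sub, D.leibniz,
      D.leibniz_pow, h2, D.map_one_eq_zero, smul_eq_mul, nsmul_eq_mul]
    push_cast
    ring

theorem Can_i2 : (i : F) ^ 2 = -1 := by
  change (algebraMap ℂ F Complex.I) ^ 2 = -1
  rw [← map_pow, Complex.I_sq, map_neg, map_one]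

theorem Can_P2 (b : Bool) : C.P b ^ 2 = C.Xc b ^ 2 + 1 := by
  have hx := C.Can_x_ne
  cases b
  · exact C.hp
  · change (C.p * C.x⁻¹) ^ 2 = (C.x⁻¹) ^ 2 + 1
    rw [mul_pow, C.hp]; field_simp; ring
theorem Can_Q2 (b : Bool) : C.Q b ^ 2 = C.Xc b ^ 2 - 1 := by
  have hx := C.Can_x_ne
  cases b
  · exact C.hq
  · change (i * C.q * C.x⁻¹) ^ 2 = (C.x⁻¹) ^ 2 - 1
    rw [mul_pow, mul_pow, C.hq, Can_i2]; field_simp; ring

theorem Can_S2 (a : Bool) : C.S a ^ 2 = (C.CanF a : F) := by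
  have ht := C.Can_t_ne
  cases a
  · exact C.hs
  · change (C.s * C.t⁻¹ ^ 3) ^ 2 = C.t⁻¹ ^ 6 + 2 * C.t⁻¹ ^ 4 + 2 * C.t⁻¹ ^ 3 + C.t⁻¹ ^ 2 -
      2 * C.t⁻¹ + 1
    rw [mul_pow, C.hs]; field_simp; ring

theorem Can_Y2 (b : Bool) : C.CanY b ^ 2 = C.CanX b ^ 4 - 1 := by
  apply Subtype.ext
  have h : ((C.CanX b : ↥C.K) : F) = C.Xc b := by cases b <;> rfl
  change (C.P b * C.Q b) ^ 2 = ((C.CanX b : ↥C.K) : F) ^ 4 - 1
  rw [h, mul_pow, Can_P2, Can_Q2]; ring

theorem Can_R2 (a b : Bool) : C.CanR a b ^ 2 = C.CanF a * (2 * (C.CanX b ^ 2 + C.CanY b)) := by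
  apply Subtype.ext
  have h : ((C.CanX b : ↥C.K) : F) = C.Xc b := by cases b <;> rfl
  change (C.S a * (C.P b + C.Q b)) ^ 2 = (C.CanF a : F) *
    (2 * (((C.CanX b : ↥C.K) : F) ^ 2 + C.P b * C.Q b))
  rw [h, ← C.Can_S2 a]
  linear_combination (C.S a ^ 2) * (C.Can_P2 b + C.Can_Q2 b)

theorem Can_Y_ne (b : Bool) : C.CanY b ≠ 0 := by
  have hp := C.Can_p_ne
  have hq := C.Can_q_ne
  have hx := C.Can_x_ne
  have hi : (i : F) ≠ 0 := by
    intro h
    have := Can_i2 (F := F)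
    rw [h] at this
    norm_num at this
  intro h
  have h' : C.P b * C.Q b = 0 := congrArg Subtype.val h
  cases b <;> simp [P, Q, hp, hq, hx, hi] at h'

theorem Can_R_ne (a b : Bool) : C.CanR a b ≠ 0 := by
  have hs := C.Can_s_ne
  have ht := C.Can_t_ne
  intro h
  have h' : C.S a * C.j b = 0 := congrArg Subtype.val h
  have hj : C.j b ≠ 0 := by
    intro h0
    have h1 : (C.P b + C.Q b) * (C.P b - C.Q b) = 2 := by
      linear_combination C.Can_P2 b - C.Can_Q2 b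
    have h2 : C.P b + C.Q b = 0 := h0
    rw [h2, zero_mul] at h1
    have hchar : CharZero F := Can_char
    exact two_ne_zero h1.symm
  have hS : C.S a = 0 := (mul_eq_zero.1 h').resolve_right hj
  cases a <;> simp [S, hs, ht] at hS

theorem Can_T_mem (a b : Bool) : C.CanT a ∈ C.surf.R a b := by
  rw [mem_R]
  have h : ((C.CanT a : ↥C.K) : F) = C.T a := by cases a <;> rfl
  rw [h]
  exact (le_sup_left : C.OC a ≤ _) (Algebra.subset_adjoin (by simp))
theorem Can_X_mem (a b : Bool) : C.CanX b ∈ C.surf.R a b := by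
  rw [mem_R]
  have h : ((C.CanX b : ↥C.K) : F) = C.Xc b := by cases b <;> rfl
  rw [h]
  exact (le_sup_right : C.OF b ≤ _) (Algebra.subset_adjoin (by simp))
theorem Can_Y_mem (a b : Bool) : C.CanY b ∈ C.surf.R a b := by
  rw [mem_R]
  have hP : C.P b ∈ C.B a b := (le_sup_right : C.OF b ≤ _) (Algebra.subset_adjoin (by simp))
  have hQ : C.Q b ∈ C.B a b := (le_sup_right : C.OF b ≤ _) (Algebra.subset_adjoin (by simp))
  exact (C.B a b).mul_mem hP hQ
theorem Can_R_mem (a b : Bool) : C.CanR a b ∈ C.surf.R a b := by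
  rw [mem_R]
  have hP : C.P b ∈ C.B a b := (le_sup_right : C.OF b ≤ _) (Algebra.subset_adjoin (by simp))
  have hQ : C.Q b ∈ C.B a b := (le_sup_right : C.OF b ≤ _) (Algebra.subset_adjoin (by simp))
  have hS : C.S a ∈ C.B a b := (le_sup_left : C.OC a ≤ _) (Algebra.subset_adjoin (by simp))
  exact (C.B a b).mul_mem hS ((C.B a b).add_mem hP hQ)

theorem Can_num_mem (a b : Bool) (n : ℕ) [n.AtLeastTwo] :
    (OfNat.ofNat n : ↥C.K) ∈ C.surf.R a b := ofNat_mem _ n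

theorem Can_gen (a b : Bool) : C.surf.R a b ≤
    Algebra.adjoin ℂ {C.CanT a, C.CanX b, C.CanY b, C.CanR a b} := by
  intro y hy
  have h1 := C.even_gen a b y ((C.mem_R a b y).1 hy) y.2
  have h2 := AlgHom.map_adjoin C.K.val ({C.CanT a, C.CanX b, C.CanY b, C.CanR a b} : Set ↥C.K)
  have h3 : C.K.val '' ({C.CanT a, C.CanX b, C.CanY b, C.CanR a b} : Set ↥C.K) =
      {C.T a, C.Xc b, C.P b * C.Q b, C.S a * C.j b} := by
    rw [Set.image_insert_eq, Set.image_insert_eq, Set.image_insert_eq, Set.image_singleton]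
    have e1 : C.K.val (C.CanT a) = C.T a := by cases a <;> rfl
    have e2 : C.K.val (C.CanX b) = C.Xc b := by cases b <;> rfl
    rw [e1, e2]
    rfl
  rw [h3] at h2
  have h4 : (y : F) ∈ Subalgebra.map C.K.val
      (Algebra.adjoin ℂ ({C.CanT a, C.CanX b, C.CanY b, C.CanR a b} : Set ↥C.K)) := by
    rw [h2]; exact h1
  obtain ⟨z, hz, hzy⟩ := h4
  have : z = y := Subtype.ext hzy
  rw [← this]; exact hz

/-- `dt/dT` -/
def CanTau (a : Bool) : ↥C.K := if a then -C.tK ^ 2 else 1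
/-- `dx/dX` -/
def CanXi (b : Bool) : ↥C.K := if b then -C.xK ^ 2 else 1

theorem Can_tK_ne : C.tK ≠ 0 := fun h => C.Can_t_ne (congrArg Subtype.val h)
theorem Can_xK_ne : C.xK ≠ 0 := fun h => C.Can_x_ne (congrArg Subtype.val h)

theorem Can_dt (D : Derivation ℂ ↥C.K ↥C.K) (a : Bool) : D C.tK = C.CanTau a * D (C.CanT a) := by
  have ht := C.Can_tK_ne
  cases a
  · change D C.tK = 1 * D C.tK
    rw [one_mul]
  · change D C.tK = (-C.tK ^ 2) * D (C.tK⁻¹)
    rw [D.leibniz_inv, smul_eq_mul]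
    field_simp
theorem Can_dx (D : Derivation ℂ ↥C.K ↥C.K) (b : Bool) : D C.xK = C.CanXi b * D (C.CanX b) := by
  have ht := C.Can_xK_ne
  cases b
  · change D C.xK = 1 * D C.xK
    rw [one_mul]
  · change D C.xK = (-C.xK ^ 2) * D (C.xK⁻¹)
    rw [D.leibniz_inv, smul_eq_mul]
    field_simp

theorem Can_tau_ne (a : Bool) : C.CanTau a ≠ 0 := by
  cases a
  · exact one_ne_zero
  · exact neg_ne_zero.2 (pow_ne_zero 2 C.Can_tK_ne)
theorem Can_xi_ne (b : Bool) : C.CanXi b ≠ 0 := by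
  cases b
  · exact one_ne_zero
  · exact neg_ne_zero.2 (pow_ne_zero 2 C.Can_xK_ne)

theorem Can_charK : CharZero ↥C.K :=
  charZero_of_injective_algebraMap (algebraMap ℂ ↥C.K).injective

theorem Can_F_mem (a b : Bool) : C.CanF a ∈ C.surf.R a b ∧ C.CanF' a ∈ C.surf.R a b ∧
    C.CanA a ∈ C.surf.R a b ∧ C.CanB a ∈ C.surf.R a b := by
  have hT := C.Can_T_mem a b
  have h1 : (1 : ↥C.K) ∈ C.surf.R a b := one_mem _
  have hn : ∀ (n : ℕ) [n.AtLeastTwo], (OfNat.ofNat n : ↥C.K) ∈ C.surf.R a b :=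
    fun n _ => ofNat_mem _ n
  cases a
  · simp only [CanF, CanF', CanA, CanB, Bool.false_eq_true, if_false]
    generalize C.CanT false = T at hT ⊢
    generalize C.surf.R false b = R at hT h1 hn ⊢
    refine ⟨?_, ?_, ?_, ?_⟩
    · apply_rules [add_mem, sub_mem, mul_mem, pow_mem, neg_mem]
    · apply_rules [add_mem, sub_mem, mul_mem, pow_mem, neg_mem]
    · apply_rules [add_mem, sub_mem, mul_mem, pow_mem, neg_mem]
    · apply_rules [add_mem, sub_mem, mul_mem, pow_mem, neg_mem]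
  · simp only [CanF, CanF', CanA, CanB, if_true]
    generalize C.CanT true = T at hT ⊢
    generalize C.surf.R true b = R at hT h1 hn ⊢
    refine ⟨?_, ?_, ?_, ?_⟩
    · apply_rules [add_mem, sub_mem, mul_mem, pow_mem, neg_mem]
    · apply_rules [add_mem, sub_mem, mul_mem, pow_mem, neg_mem]
    · apply_rules [add_mem, sub_mem, mul_mem, pow_mem, neg_mem]
    · apply_rules [add_mem, sub_mem, mul_mem, pow_mem, neg_mem]

/-- generator of the canonical sheaf, inverted -/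
def CanG (a b : Bool) : ↥C.K := C.CanTau a * C.CanXi b * (C.CanR a b * C.CanY b)

theorem Can_canon (a b : Bool) (k : ↥C.K) :
    k ∈ canon C.surf a b ↔ k * C.CanG a b ∈ C.surf.R a b := by
  have hchar := C.Can_charK
  have hY0 := C.Can_Y_ne b
  have hR0 := C.Can_R_ne a b
  have hY := C.Can_Y2 b
  have hR := C.Can_R2 a b
  have hTm := C.Can_T_mem a b
  have hXm := C.Can_X_mem a b
  have hYm := C.Can_Y_mem a b
  have hRm := C.Can_R_mem a b
  obtain ⟨hF, hF', hA, hB⟩ := C.Can_F_mem a b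
  constructor
  · intro hk
    obtain ⟨D1, hD1t, hD1x⟩ := C.Can_derK (C.CanTau a * C.CanR a b) 0
    obtain ⟨D2, hD2t, hD2x⟩ := C.Can_derK 0 (C.CanXi b * C.CanY b)
    have a1 : D1 (C.CanT a) = C.CanR a b := by
      apply mul_left_cancel₀ (C.Can_tau_ne a)
      rw [← C.Can_dt, hD1t]
    have a2 : D1 (C.CanX b) = 0 := by
      apply mul_left_cancel₀ (C.Can_xi_ne b)
      rw [← C.Can_dx, hD1x, mul_zero]
    have b1 : D2 (C.CanT a) = 0 := by
      apply mul_left_cancel₀ (C.Can_tau_ne a)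
      rw [← C.Can_dt, hD2t, mul_zero]
    have b2 : D2 (C.CanX b) = C.CanY b := by
      apply mul_left_cancel₀ (C.Can_xi_ne b)
      rw [← C.Can_dx, hD2x]
    obtain ⟨a3, a4⟩ := CanAbs_DC D1 hY0 hR0 hY hR (C.Can_DF D1 a) a1 a2
    obtain ⟨b3, b4⟩ := CanAbs_DF D2 hY0 hR0 hY hR (C.Can_DF D2 a) b1 b2
    have p1 : ∀ r ∈ C.surf.R a b, D1 r ∈ C.surf.R a b := by
      refine CanAbs_pres _ D1 _ (C.Can_gen a b) ?_
      rintro _ (rfl | rfl | rfl | rfl)
      · exact ⟨hTm, by rw [a1]; exact hRm⟩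
      · exact ⟨hXm, by rw [a2]; exact zero_mem _⟩
      · exact ⟨hYm, by rw [a3]; exact zero_mem _⟩
      · exact ⟨hRm, by rw [a4]; exact mul_mem hF' (add_mem (pow_mem hXm 2) hYm)⟩
    have p2 : ∀ r ∈ C.surf.R a b, D2 r ∈ C.surf.R a b := by
      refine CanAbs_pres _ D2 _ (C.Can_gen a b) ?_
      rintro _ (rfl | rfl | rfl | rfl)
      · exact ⟨hTm, by rw [b1]; exact zero_mem _⟩
      · exact ⟨hXm, by rw [b2]; exact hYm⟩
      · exact ⟨hYm, by rw [b3]; exact mul_mem (ofNat_mem _ 2) (pow_mem hXm 3)⟩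
      · exact ⟨hRm, by rw [b4]; exact mul_mem hXm hRm⟩
    have h := hk D1 D2 p1 p2
    have e : k * (D1 C.surf.t * D2 C.surf.x - D1 C.surf.x * D2 C.surf.t) = k * C.CanG a b := by
      change k * (D1 C.tK * D2 C.xK - D1 C.xK * D2 C.tK) = _
      rw [hD1t, hD1x, hD2t, hD2x, CanG]
      ring
    rw [e] at h
    exact h
  · intro hk D1 D2 p1 p2
    obtain ⟨θ1, hθ1, η1, hη1, e1, f1⟩ := CanAbs_bound _ D1 p1 hXm hYm hRm hTm hA hB hY0 hY hR
      (C.Can_DF D1 a) (C.Can_bez a)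
    obtain ⟨θ2, hθ2, η2, hη2, e2, f2⟩ := CanAbs_bound _ D2 p2 hXm hYm hRm hTm hA hB hY0 hY hR
      (C.Can_DF D2 a) (C.Can_bez a)
    have e : k * (D1 C.surf.t * D2 C.surf.x - D1 C.surf.x * D2 C.surf.t) =
        (k * C.CanG a b) * (θ1 * η2 - η1 * θ2) := by
      change k * (D1 C.tK * D2 C.xK - D1 C.xK * D2 C.tK) = _
      rw [C.Can_dt D1 a, C.Can_dt D2 a, C.Can_dx D1 b, C.Can_dx D2 b, e1, e2, f1, f2, CanG]
      ring
    rw [e]
    exact mul_mem hk (sub_mem (mul_mem hθ1 hη2) (mul_mem hη1 hθ2))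

theorem Can_tauF (a : Bool) :
    C.CanTau a ^ 2 * C.CanF a = C.CanF false * twc C.surf.t 2 a := by
  have ht := C.Can_tK_ne
  cases a
  · change (1 : ↥C.K) ^ 2 * C.CanF false = C.CanF false * 1
    ring
  · change (-C.tK ^ 2) ^ 2 * (C.tK⁻¹ ^ 6 + 2 * C.tK⁻¹ ^ 4 + 2 * C.tK⁻¹ ^ 3 + C.tK⁻¹ ^ 2 -
      2 * C.tK⁻¹ + 1) = (C.tK ^ 6 - 2 * C.tK ^ 5 + C.tK ^ 4 + 2 * C.tK ^ 3 + 2 * C.tK ^ 2 + 1) *
        C.tK⁻¹ ^ 2
    field_simp
    ring

theorem Can_xiY (b : Bool) : C.CanXi b ^ 2 * C.CanY b ^ 2 =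
    C.CanY false ^ 2 * (if b then -1 else 1) := by
  have hx := C.Can_xK_ne
  cases b
  · change (1 : ↥C.K) ^ 2 * C.CanY false ^ 2 = C.CanY false ^ 2 * 1
    ring
  · rw [C.Can_Y2, C.Can_Y2]
    change (-C.xK ^ 2) ^ 2 * (C.xK⁻¹ ^ 4 - 1) = (C.xK ^ 4 - 1) * (-1)
    field_simp
    ring

theorem canonFibre : CanonFibre C.surf := by
  have hchar := C.Can_charK
  have hG : ∀ a b, C.CanG a b ≠ 0 := fun a b =>
    mul_ne_zero (mul_ne_zero (C.Can_tau_ne a) (C.Can_xi_ne b))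
      (mul_ne_zero (C.Can_R_ne a b) (C.Can_Y_ne b))
  have hF0 : C.CanF false ≠ 0 := by
    intro h
    have h1 := C.Can_R2 false false
    rw [h, zero_mul] at h1
    exact pow_ne_zero 2 (C.Can_R_ne false false) h1
  refine ⟨fun a b => (C.CanG a b)⁻¹, fun a b => ⟨inv_ne_zero (hG a b), fun k => by
    rw [inv_inv]; exact C.Can_canon a b k⟩, C.CanF false * C.CanY false ^ 2,
    mul_ne_zero hF0 (pow_ne_zero 2 (C.Can_Y_ne false)), 2, 2, by norm_num, by norm_num,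
    fun a b => ?_⟩
  have hXm := C.Can_X_mem a b
  have hYm := C.Can_Y_mem a b
  have i2 : (2 : ↥C.K)⁻¹ ∈ C.surf.R a b := by
    have h := (C.surf.R a b).algebraMap_mem ((2 : ℂ)⁻¹)
    rwa [map_inv₀, map_ofNat] at h
  obtain ⟨ε, hε⟩ : ∃ ε : ↥C.K, ε = if b then -1 else 1 := ⟨_, rfl⟩
  have hεm : ε ∈ C.surf.R a b := by
    rw [hε]; cases b
    · exact one_mem _
    · exact neg_mem (one_mem _)
  have hε2 : ε * ε = 1 := by
    rw [hε]; cases b <;> simp
  have h1 : C.CanG a b ^ 2 = (C.CanF false * C.CanY false ^ 2 * twc C.surf.t 2 a) *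
      (ε * (2 * (C.CanX b ^ 2 + C.CanY b))) := by
    have e1 : C.CanG a b ^ 2 = (C.CanTau a ^ 2) * (C.CanXi b ^ 2 * C.CanY b ^ 2) *
        C.CanR a b ^ 2 := by
      rw [CanG]; ring
    rw [e1, C.Can_R2, C.Can_xiY, ← hε]
    linear_combination (C.CanY false ^ 2 * ε * (2 * (C.CanX b ^ 2 + C.CanY b))) * C.Can_tauF a
  have h2 : (C.CanX b ^ 2 + C.CanY b) * (C.CanX b ^ 2 - C.CanY b) = 1 := by
    linear_combination -C.Can_Y2 b
  have h20 : (2 : ↥C.K) ≠ 0 := two_ne_zero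
  have h22 : (2 : ↥C.K) * 2⁻¹ = 1 := mul_inv_cancel₀ h20
  have h3 : ((C.CanG a b)⁻¹ ^ 2 * (C.CanF false * C.CanY false ^ 2) * twc C.surf.t 2 a) *
      (ε * (2 * (C.CanX b ^ 2 + C.CanY b))) = 1 := by
    have hG2 : C.CanG a b ^ 2 ≠ 0 := pow_ne_zero 2 (hG a b)
    rw [inv_pow]
    have : ((C.CanG a b ^ 2)⁻¹ * (C.CanF false * C.CanY false ^ 2) * twc C.surf.t 2 a) *
      (ε * (2 * (C.CanX b ^ 2 + C.CanY b))) = (C.CanG a b ^ 2)⁻¹ *
        ((C.CanF false * C.CanY false ^ 2 * twc C.surf.t 2 a) *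
      (ε * (2 * (C.CanX b ^ 2 + C.CanY b)))) := by ring
    rw [this, ← h1]
    exact inv_mul_cancel₀ hG2
  obtain ⟨w, hw⟩ : ∃ w, w = (C.CanG a b)⁻¹ ^ 2 * (C.CanF false * C.CanY false ^ 2) *
    twc C.surf.t 2 a := ⟨_, rfl⟩
  rw [← hw] at h3 ⊢
  have h4 : w = ε * (2⁻¹ * (C.CanX b ^ 2 - C.CanY b)) := by
    have h5 : (ε * (2 * (C.CanX b ^ 2 + C.CanY b))) *
        (ε * (2⁻¹ * (C.CanX b ^ 2 - C.CanY b))) = 1 := by
      have : (ε * (2 * (C.CanX b ^ 2 + C.CanY b))) *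
        (ε * (2⁻¹ * (C.CanX b ^ 2 - C.CanY b))) = (ε * ε) * (2 * 2⁻¹) *
          ((C.CanX b ^ 2 + C.CanY b) * (C.CanX b ^ 2 - C.CanY b)) := by ring
      rw [this, hε2, h22, h2]; ring
    calc w = w * ((ε * (2 * (C.CanX b ^ 2 + C.CanY b))) *
        (ε * (2⁻¹ * (C.CanX b ^ 2 - C.CanY b)))) := by rw [h5, mul_one]
      _ = (w * (ε * (2 * (C.CanX b ^ 2 + C.CanY b)))) *
        (ε * (2⁻¹ * (C.CanX b ^ 2 - C.CanY b))) := by ring
      _ = _ := by rw [h3, one_mul]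
  have h6 : w⁻¹ = ε * (2 * (C.CanX b ^ 2 + C.CanY b)) := inv_eq_of_mul_eq_one_right h3
  constructor
  · rw [h4]
    exact mul_mem hεm (mul_mem i2 (sub_mem (pow_mem hXm 2) hYm))
  · rw [h6]
    exact mul_mem hεm (mul_mem (ofNat_mem _ 2) (add_mem (pow_mem hXm 2) hYm))

end Cfg

end

end Pool.Agent.EllMod
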