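import Pool.Agent.MP_77976d_ag.Bas

/-! # TS : the curve `C` -/

open scoped TensorProduct
open IsLocalRing

namespace Pool.Agent.EllMod

noncomputable section

variable {F : Type} [Field F] [Algebra ℂ F] (C : Cfg F)

namespace TsAux

theorem span_inf {ι : Type*} {ν : ι → F} (h : LinearIndependent ℂ ν) (S T : Set ι) :
    Submodule.span ℂ (ν '' S) ⊓ Submodule.span ℂ (ν '' T) = Submodule.span ℂ (ν '' (S ∩ T)) := by
  rw [Finsupp.span_image_eq_map_linearCombination, Finsupp.span_image_eq_map_linearCombination,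
    Finsupp.span_image_eq_map_linearCombination, Finsupp.supported_inter, Submodule.map_inf]
  exact h

theorem span_sup {ι : Type*} (ν : ι → F) (S T : Set ι) :
    Submodule.span ℂ (ν '' S) ⊔ Submodule.span ℂ (ν '' T) = Submodule.span ℂ (ν '' (S ∪ T)) := by
  rw [Set.image_union, Submodule.span_union]

theorem mem_iff {ι : Type*} {ν : ι → F} (h : LinearIndependent ℂ ν) (S : Set ι) (i : ι) :
    ν i ∈ Submodule.span ℂ (ν '' S) ↔ i ∈ S := by
  constructor
  · intro hi
    by_contra hS
    exact h.notMem_span_image hS hi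
  · intro hi
    exact Submodule.subset_span ⟨i, hi, rfl⟩

theorem finrank_span {ι : Type*} {ν : ι → F} (h : LinearIndependent ℂ ν) (s : Finset ι) :
    Module.finrank ℂ (Submodule.span ℂ (ν '' (s : Set ι))) = s.card := by
  have h1 : LinearIndependent ℂ (fun i : s => ν i) := h.comp _ Subtype.val_injective
  have h2 := finrank_span_eq_card h1
  have h3 : Set.range (fun i : s => ν i) = ν '' (s : Set ι) := by
    ext y
    constructor
    · rintro ⟨i, rfl⟩
      exact ⟨i, i.2, rfl⟩
    · rintro ⟨i, hi, rfl⟩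
      exact ⟨⟨i, hi⟩, rfl⟩
  rw [h3] at h2
  rw [h2, Fintype.card_coe]

/-- An algebra generated by `X` is contained in a subspace containing `1` stable under `X`. -/
theorem adjoin_le {X : Set F} {U : Submodule ℂ F} (h1 : (1 : F) ∈ U)
    (hX : ∀ x ∈ X, ∀ u ∈ U, x * u ∈ U) : sm (Algebra.adjoin ℂ X) ≤ U := by
  let St : Subalgebra ℂ F :=
    { carrier := {y | ∀ u ∈ U, y * u ∈ U}
      mul_mem' := fun {a b} ha hb u hu => by
        rw [mul_assoc]; exact ha _ (hb u hu)
      add_mem' := fun {a b} ha hb u hu => by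
        rw [add_mul]; exact add_mem (ha u hu) (hb u hu)
      algebraMap_mem' := fun r u hu => by
        rw [← Algebra.smul_def]; exact U.smul_mem r hu }
  have h2 : Algebra.adjoin ℂ X ≤ St := Algebra.adjoin_le (fun x hx => hX x hx)
  intro y hy
  have h3 : y ∈ St := h2 hy
  have h4 := h3 1 h1
  rwa [mul_one] at h4

/-- Monomials. -/
def mon (t α β : F) : ℤ ⊕ ℤ → F := Sum.elim (fun m => t ^ m * α) (fun m => t ^ m * β)

/-- Laurent polynomials. -/
def Lt (t : F) : Subalgebra ℂ F := Algebra.adjoin ℂ {t, t⁻¹}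

theorem t_zpow_mem {t : F} (m : ℤ) : t ^ m ∈ Lt t := by
  obtain ⟨n, rfl | rfl⟩ := m.eq_nat_or_neg
  · rw [zpow_natCast]
    exact pow_mem (Algebra.subset_adjoin (by simp)) n
  · rw [zpow_neg, zpow_natCast, ← inv_pow]
    exact pow_mem (Algebra.subset_adjoin (by simp)) n

theorem Lt_eq {t : F} (ht : t ≠ 0) :
    sm (Lt t) = Submodule.span ℂ (Set.range (fun m : ℤ => t ^ m)) := by
  apply le_antisymm
  · apply adjoin_le
    · exact Submodule.subset_span ⟨0, by simp⟩
    · intro x hx u hu
      induction hu using Submodule.span_induction with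
      | mem u hu =>
        obtain ⟨m, rfl⟩ := hu
        rcases hx with rfl | hx
        · exact Submodule.subset_span ⟨m + 1, by
            show x ^ (m + 1) = x * x ^ m
            rw [zpow_add₀ ht, zpow_one, mul_comm]⟩
        · rw [Set.mem_singleton_iff] at hx
          subst hx
          exact Submodule.subset_span ⟨m + (-1), by
            show t ^ (m + (-1)) = t⁻¹ * t ^ m
            rw [zpow_add₀ ht, zpow_neg_one, mul_comm]⟩
      | zero => rw [mul_zero]; exact zero_mem _
      | add a b _ _ ha hb => rw [mul_add]; exact add_mem ha hb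
      | smul c a _ ha => rw [mul_smul_comm]; exact Submodule.smul_mem _ c ha
  · rw [Submodule.span_le]
    rintro _ ⟨m, rfl⟩
    exact t_zpow_mem m

omit [Algebra ℂ F] in
theorem mon_shift {t : F} (ht : t ≠ 0) (α β : F) (n : ℤ) (i : ℤ ⊕ ℤ) :
    t ^ n * mon t α β i = mon t α β (Sum.map (· + n) (· + n) i) := by
  rcases i with m | m
  · simp only [mon, Sum.elim_inl, Sum.map_inl]
    rw [zpow_add₀ ht]; ring
  · simp only [mon, Sum.elim_inr, Sum.map_inr]
    rw [zpow_add₀ ht]; ring

theorem sc_span {t : F} (ht : t ≠ 0) (α β : F) (n : ℤ) (S : Set (ℤ ⊕ ℤ)) :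
    sc (t ^ n) (Submodule.span ℂ (mon t α β '' S)) =
      Submodule.span ℂ (mon t α β '' (Sum.map (· + n) (· + n) '' S)) := by
  rw [sc, Submodule.map_span, Set.image_image, Set.image_image]
  congr 1
  apply Set.image_congr
  intro i _
  exact mon_shift ht α β n i

/-- The index sets. -/
def Sge : Set (ℤ ⊕ ℤ) := {i | Sum.elim (fun m => 0 ≤ m) (fun m => 0 ≤ m) i}
/-- The index sets. -/
def Sle (a b : ℤ) : Set (ℤ ⊕ ℤ) := {i | Sum.elim (fun m => m ≤ a) (fun m => m ≤ b) i}

@[simp] theorem inl_Sge (m : ℤ) : (Sum.inl m : ℤ ⊕ ℤ) ∈ Sge ↔ 0 ≤ m := Iff.rfl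
@[simp] theorem inr_Sge (m : ℤ) : (Sum.inr m : ℤ ⊕ ℤ) ∈ Sge ↔ 0 ≤ m := Iff.rfl
@[simp] theorem inl_Sle (a b m : ℤ) : (Sum.inl m : ℤ ⊕ ℤ) ∈ Sle a b ↔ m ≤ a := Iff.rfl
@[simp] theorem inr_Sle (a b m : ℤ) : (Sum.inr m : ℤ ⊕ ℤ) ∈ Sle a b ↔ m ≤ b := Iff.rfl

theorem secs_eq {t : F} (ht : t ≠ 0) (P0 P1 : Submodule ℂ F) (n : ℕ) :
    secs t P0 P1 n = P0 ⊓ sc (t ^ (n : ℤ)) P1 := by
  ext v
  rw [mem_secs, Submodule.mem_inf, mem_sc]
  constructor
  · rintro ⟨h1, h2⟩
    refine ⟨h1, _, h2, ?_⟩
    rw [zpow_natCast, ← mul_assoc, ← mul_pow, mul_inv_cancel₀ ht, one_pow, one_mul]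
  · rintro ⟨h1, w, hw, rfl⟩
    refine ⟨h1, ?_⟩
    rw [zpow_natCast, ← mul_assoc, ← mul_pow, inv_mul_cancel₀ ht, one_pow, one_mul]
    exact hw

theorem finrank_secs {t α β : F} (ht : t ≠ 0) (h : LinearIndependent ℂ (mon t α β)) (a b : ℤ)
    (n : ℕ) : Module.finrank ℂ (secs t (Submodule.span ℂ (mon t α β '' Sge))
      (Submodule.span ℂ (mon t α β '' Sle a b)) n) =
      (n + a + 1).toNat + (n + b + 1).toNat := by
  rw [secs_eq ht, sc_span ht, span_inf h]
  have h1 : (Sge ∩ (Sum.map (· + (n : ℤ)) (· + (n : ℤ)) '' Sle a b) : Set (ℤ ⊕ ℤ)) =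
      ((Finset.Icc (0 : ℤ) (n + a)).disjSum (Finset.Icc (0 : ℤ) (n + b)) : Finset (ℤ ⊕ ℤ)) := by
    ext i
    rcases i with m | m
    · simp only [Set.mem_inter_iff, inl_Sge, Set.mem_image, Finset.mem_coe]
      constructor
      · rintro ⟨h1, i, h2, h3⟩
        rcases i with k | k
        · simp at h2 h3
          simp
          omega
        · simp at h3
      · intro hh
        simp at hh
        refine ⟨hh.1, Sum.inl (m - n), ?_, ?_⟩
        · simp; omega
        · simp
    · simp only [Set.mem_inter_iff, inr_Sge, Set.mem_image, Finset.mem_coe]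
      constructor
      · rintro ⟨h1, i, h2, h3⟩
        rcases i with k | k
        · simp at h3
        · simp at h2 h3
          simp
          omega
      · intro hh
        simp at hh
        refine ⟨hh.1, Sum.inr (m - n), ?_, ?_⟩
        · simp; omega
        · simp
  rw [h1, finrank_span h, Finset.card_disjSum, Int.card_Icc, Int.card_Icc]
  congr 2 <;> ring_nf


/-- Elements `y` with `a + b y = 0` only for `a = b = 0`. -/
theorem mon_li {t α β : F} (hli : LinearIndependent ℂ (fun m : ℤ => t ^ m))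
    (h : ∀ a ∈ Lt t, ∀ b ∈ Lt t, a * α + b * β = 0 → a = 0 ∧ b = 0) :
    LinearIndependent ℂ (mon t α β) := by
  have hα : α ≠ 0 := by
    rintro rfl
    have := (h 1 (one_mem _) 0 (zero_mem _) (by simp)).1
    exact one_ne_zero this
  have hβ : β ≠ 0 := by
    rintro rfl
    have := (h 0 (zero_mem _) 1 (one_mem _) (by simp)).2
    exact one_ne_zero this
  have key : ∀ γ : F, γ ≠ 0 → LinearIndependent ℂ (fun m : ℤ => t ^ m * γ) := by
    intro γ hγ
    have := hli.map' (LinearMap.mulRight ℂ γ) (by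
      rw [LinearMap.ker_eq_bot]
      exact mul_left_injective₀ hγ)
    exact this
  have key2 : ∀ γ : F, ∀ v ∈ Submodule.span ℂ (Set.range (fun m : ℤ => t ^ m * γ)),
      ∃ a ∈ Lt t, v = a * γ := by
    intro γ v hv
    induction hv using Submodule.span_induction with
    | mem u hu =>
      obtain ⟨m, rfl⟩ := hu
      exact ⟨t ^ m, t_zpow_mem m, rfl⟩
    | zero => exact ⟨0, zero_mem _, by simp⟩
    | add a b _ _ ha hb =>
      obtain ⟨a', h1, rfl⟩ := ha
      obtain ⟨b', h2, rfl⟩ := hb
      exact ⟨a' + b', add_mem h1 h2, by ring⟩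
    | smul c a _ ha =>
      obtain ⟨a', h1, rfl⟩ := ha
      exact ⟨c • a', (Lt t).smul_mem h1 c, by rw [smul_mul_assoc]⟩
  rw [linearIndependent_sum]
  refine ⟨key α hα, key β hβ, ?_⟩
  rw [Submodule.disjoint_def]
  intro v h1 h2
  obtain ⟨a, ha, rfl⟩ := key2 α v h1
  obtain ⟨b, hb, hab⟩ := key2 β _ h2
  have h3 := (h a ha (-b) (neg_mem hb) (by rw [hab]; ring)).1
  rw [h3, zero_mul]

end TsAux

open TsAux

namespace Cfg

theorem TS_t_ne : C.t ≠ 0 := by
  have h := C.mono_li.ne_zero (0, 0, false, false, false)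
  intro ht
  have h1 := C.mono_li
  have h2 := h1.ne_zero (1, 0, false, false, false)
  simp [ht] at h2

theorem t_li : LinearIndependent ℂ (fun m : ℤ => C.t ^ m) := by
  have h := C.mono_li.comp (fun m : ℤ => ((m, 0, false, false, false) : ℤ × ℤ × Bool × Bool × Bool))
    (fun a b hab => by simpa using hab)
  have h2 : (fun m : ℤ => C.t ^ m) = (fun m : ℤ × ℤ × (Bool × Bool × Bool) =>
      C.t ^ m.1 * C.x ^ m.2.1 * C.e m.2.2) ∘
      (fun m : ℤ => ((m, 0, false, false, false) : ℤ × ℤ × Bool × Bool × Bool)) := by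
    funext m
    simp [e]
  rw [h2]
  exact h

theorem ts_li : LinearIndependent ℂ (mon C.t 1 C.s) := by
  have h := C.mono_li.comp (Sum.elim
    (fun m : ℤ => ((m, 0, false, false, false) : ℤ × ℤ × Bool × Bool × Bool))
    (fun m : ℤ => ((m, 0, true, false, false) : ℤ × ℤ × Bool × Bool × Bool)))
    (by
      rintro (a | a) (b | b) hab <;> simp at hab
      · rw [hab]
      · rw [hab])
  have h2 : mon C.t 1 C.s = (fun m : ℤ × ℤ × (Bool × Bool × Bool) =>
      C.t ^ m.1 * C.x ^ m.2.1 * C.e m.2.2) ∘ (Sum.elim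
    (fun m : ℤ => ((m, 0, false, false, false) : ℤ × ℤ × Bool × Bool × Bool))
    (fun m : ℤ => ((m, 0, true, false, false) : ℤ × ℤ × Bool × Bool × Bool))) := by
    funext m
    rcases m with m | m
    · simp [e, mon]
    · simp [e, mon]
  rw [h2]
  exact h

/-- `1, s` are independent over Laurent polynomials. -/
theorem s_indep {a b : F} (ha : a ∈ Lt C.t) (hb : b ∈ Lt C.t) (h : a + b * C.s = 0) :
    a = 0 ∧ b = 0 := by
  have h1 := C.ts_li
  rw [linearIndependent_sum] at h1
  obtain ⟨_, _, h2⟩ := h1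
  rw [Submodule.disjoint_def] at h2
  have key : ∀ γ a : F, a ∈ Lt C.t → a * γ ∈
      Submodule.span ℂ (Set.range (fun m : ℤ => C.t ^ m * γ)) := by
    intro γ a ha
    have h3 : a ∈ Submodule.span ℂ (Set.range (fun m : ℤ => C.t ^ m)) := by
      rw [← Lt_eq C.TS_t_ne]; exact ha
    clear ha
    induction h3 using Submodule.span_induction with
    | mem u hu =>
      obtain ⟨m, rfl⟩ := hu
      exact Submodule.subset_span ⟨m, rfl⟩
    | zero => rw [zero_mul]; exact zero_mem _
    | add a b _ _ ha hb =>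
      rw [add_mul]
      exact add_mem ha hb
    | smul c a _ ha =>
      rw [smul_mul_assoc]
      exact Submodule.smul_mem _ c ha
  have h3 := h2 a (by
    have := key 1 a ha
    rw [mul_one] at this
    exact this) (by
    have := key C.s (-b) (neg_mem hb)
    have h4 : -b * C.s = a := by linear_combination -h
    rw [h4] at this
    exact this)
  refine ⟨h3, ?_⟩
  have hs : C.s ≠ 0 := by
    have h5 := C.ts_li.ne_zero (Sum.inr 0)
    simpa [mon] using h5
  rw [h3, zero_add] at h
  exact (mul_eq_zero.1 h).resolve_right hs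

/-- Another basis. -/
theorem pair_li {α β a1 a2 b1 b2 : F} {c : ℂ} (hc : c ≠ 0) (ha1 : a1 ∈ Lt C.t)
    (ha2 : a2 ∈ Lt C.t) (hb1 : b1 ∈ Lt C.t) (hb2 : b2 ∈ Lt C.t) (hα : α = a1 + a2 * C.s)
    (hβ : β = b1 + b2 * C.s) (hdet : a1 * b2 - a2 * b1 = algebraMap ℂ F c) :
    LinearIndependent ℂ (mon C.t α β) := by
  apply mon_li C.t_li
  intro a ha b hb hab
  have hc' : algebraMap ℂ F c ≠ 0 := by
    rw [Ne, map_eq_zero]; exact hc
  have h1 := C.s_indep (a := a * a1 + b * b1) (b := a * a2 + b * b2)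
    (add_mem (mul_mem ha ha1) (mul_mem hb hb1)) (add_mem (mul_mem ha ha2) (mul_mem hb hb2))
    (by rw [← hab, hα, hβ]; ring)
  obtain ⟨h2, h3⟩ := h1
  constructor
  · have : a * algebraMap ℂ F c = 0 := by
      rw [← hdet]; linear_combination b2 * h2 - b1 * h3
    exact (mul_eq_zero.1 this).resolve_right hc'
  · have : b * algebraMap ℂ F c = 0 := by
      rw [← hdet]; linear_combination a1 * h3 - a2 * h2
    exact (mul_eq_zero.1 this).resolve_right hc'


/-- The pair spans `OC false` and `OCs`. -/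
theorem TS_OC_false_eq : sm (C.OC false) = Submodule.span ℂ (mon C.t 1 C.s '' Sge) := by
  have ht := C.TS_t_ne
  apply le_antisymm
  · apply adjoin_le
    · exact Submodule.subset_span ⟨Sum.inl 0, by simp, by simp [mon]⟩
    · intro x hx u hu
      induction hu using Submodule.span_induction with
      | mem u hu =>
        obtain ⟨i, hi, rfl⟩ := hu
        rcases hx with rfl | hx
        · rcases i with m | m
          · exact Submodule.subset_span ⟨Sum.inl (m + 1), by
              rw [inl_Sge] at hi ⊢; omega, by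
              simp only [mon, Sum.elim_inl, T, coord]; rw [zpow_add₀ ht, zpow_one]; ring⟩
          · exact Submodule.subset_span ⟨Sum.inr (m + 1), by
              rw [inr_Sge] at hi ⊢; omega, by
              simp only [mon, Sum.elim_inr, T, coord]; rw [zpow_add₀ ht, zpow_one]; ring⟩
        · rw [Set.mem_singleton_iff] at hx
          subst hx
          rcases i with m | m
          · exact Submodule.subset_span ⟨Sum.inr m, hi, by
              simp only [mon, Sum.elim_inl, Sum.elim_inr, S]; simp; ring⟩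
          · have key : ∀ k : ℕ, C.t ^ (m + k) ∈ Submodule.span ℂ (mon C.t 1 C.s '' Sge) := by
              intro k
              rw [inr_Sge] at hi
              exact Submodule.subset_span ⟨Sum.inl (m + k), by rw [inl_Sge]; omega, by simp [mon]⟩
            have e1 : C.S false * mon C.t 1 C.s (Sum.inr m) = C.t ^ (m + (6 : ℕ)) +
                (-2 : ℂ) • C.t ^ (m + (5 : ℕ)) + C.t ^ (m + (4 : ℕ)) +
                (2 : ℂ) • C.t ^ (m + (3 : ℕ)) + (2 : ℂ) • C.t ^ (m + (2 : ℕ)) +
                C.t ^ (m + (0 : ℕ)) := by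
              simp only [mon, Sum.elim_inr, S, Algebra.smul_def, map_neg, map_ofNat,
                zpow_add₀ ht, zpow_natCast]
              have := C.hs
              simp only [Bool.false_eq_true, if_false]
              linear_combination C.t ^ m * this
            rw [e1]
            exact add_mem (add_mem (add_mem (add_mem (add_mem (key 6)
              (Submodule.smul_mem _ _ (key 5))) (key 4)) (Submodule.smul_mem _ _ (key 3)))
              (Submodule.smul_mem _ _ (key 2))) (key 0)
      | zero => rw [mul_zero]; exact zero_mem _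
      | add a b _ _ ha hb => rw [mul_add]; exact add_mem ha hb
      | smul c a _ ha => rw [mul_smul_comm]; exact Submodule.smul_mem _ c ha
  · rw [Submodule.span_le]
    rintro _ ⟨i, hi, rfl⟩
    have h1 : C.t ∈ C.OC false := Algebra.subset_adjoin (by simp [T, coord])
    have h2 : C.s ∈ C.OC false := Algebra.subset_adjoin (by simp [S])
    rcases i with m | m
    · rw [inl_Sge] at hi
      lift m to ℕ using hi
      have : C.t ^ m * 1 ∈ C.OC false := mul_mem (pow_mem h1 m) (one_mem _)
      simpa [mon] using this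
    · rw [inr_Sge] at hi
      lift m to ℕ using hi
      have : C.t ^ m * C.s ∈ C.OC false := mul_mem (pow_mem h1 m) h2
      simpa [mon] using this

theorem TS_OC_true_eq : sm (C.OC true) = Submodule.span ℂ (mon C.t 1 C.s '' Sle 0 (-3)) := by
  have ht := C.TS_t_ne
  apply le_antisymm
  · apply adjoin_le
    · exact Submodule.subset_span ⟨Sum.inl 0, by simp, by simp [mon]⟩
    · intro x hx u hu
      induction hu using Submodule.span_induction with
      | mem u hu =>
        obtain ⟨i, hi, rfl⟩ := hu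
        rcases hx with rfl | hx
        · rcases i with m | m
          · exact Submodule.subset_span ⟨Sum.inl (m + (-1)), by
              rw [inl_Sle] at hi ⊢; omega, by
              simp only [mon, Sum.elim_inl, T, coord]; rw [zpow_add₀ ht, zpow_neg_one]; ring⟩
          · exact Submodule.subset_span ⟨Sum.inr (m + (-1)), by
              rw [inr_Sle] at hi ⊢; omega, by
              simp only [mon, Sum.elim_inr, T, coord]; rw [zpow_add₀ ht, zpow_neg_one]; ring⟩
        · rw [Set.mem_singleton_iff] at hx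
          subst hx
          rcases i with m | m
          · exact Submodule.subset_span ⟨Sum.inr (m + (-(3 : ℕ))), by
              rw [inr_Sle]; rw [inl_Sle] at hi; omega, by
              simp only [mon, Sum.elim_inl, Sum.elim_inr, S]
              rw [zpow_add₀ ht, zpow_neg, zpow_natCast]; simp; ring⟩
          · have key : ∀ k : ℕ, k ≤ 6 → C.t ^ (m + (-(3 : ℕ)) + k) ∈
                Submodule.span ℂ (mon C.t 1 C.s '' Sle 0 (-3)) := by
              intro k hk
              rw [inr_Sle] at hi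
              exact Submodule.subset_span ⟨Sum.inl (m + (-(3 : ℕ)) + k), by
                rw [inl_Sle]; omega, by simp [mon]⟩
            have e1 : C.S true * mon C.t 1 C.s (Sum.inr m) = C.t ^ (m + (-(3 : ℕ)) + (6 : ℕ)) +
                (-2 : ℂ) • C.t ^ (m + (-(3 : ℕ)) + (5 : ℕ)) + C.t ^ (m + (-(3 : ℕ)) + (4 : ℕ)) +
                (2 : ℂ) • C.t ^ (m + (-(3 : ℕ)) + (3 : ℕ)) +
                (2 : ℂ) • C.t ^ (m + (-(3 : ℕ)) + (2 : ℕ)) +
                C.t ^ (m + (-(3 : ℕ)) + (0 : ℕ)) := by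
              simp only [mon, Sum.elim_inr, S, Algebra.smul_def, map_neg, map_ofNat,
                zpow_add₀ ht, zpow_neg, zpow_natCast, inv_pow]
              have := C.hs
              simp only [if_true]
              linear_combination (C.t ^ m * (C.t ^ 3)⁻¹) * this
            rw [e1]
            exact add_mem (add_mem (add_mem (add_mem (add_mem (key 6 (by norm_num))
              (Submodule.smul_mem _ _ (key 5 (by norm_num)))) (key 4 (by norm_num)))
              (Submodule.smul_mem _ _ (key 3 (by norm_num))))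
              (Submodule.smul_mem _ _ (key 2 (by norm_num)))) (key 0 (by norm_num))
      | zero => rw [mul_zero]; exact zero_mem _
      | add a b _ _ ha hb => rw [mul_add]; exact add_mem ha hb
      | smul c a _ ha => rw [mul_smul_comm]; exact Submodule.smul_mem _ c ha
  · rw [Submodule.span_le]
    rintro _ ⟨i, hi, rfl⟩
    have h1 : C.t⁻¹ ∈ C.OC true := Algebra.subset_adjoin (by simp [T, coord])
    have h2 : C.s * C.t⁻¹ ^ 3 ∈ C.OC true := Algebra.subset_adjoin (by simp [S])
    rcases i with m | m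
    · rw [inl_Sle] at hi
      obtain ⟨k, rfl⟩ : ∃ k : ℕ, m = -(k : ℤ) := ⟨(-m).toNat, by omega⟩
      have : C.t⁻¹ ^ k * 1 ∈ C.OC true := mul_mem (pow_mem h1 k) (one_mem _)
      simpa [mon] using this
    · rw [inr_Sle] at hi
      obtain ⟨k, rfl⟩ : ∃ k : ℕ, m = -(k : ℤ) - (3 : ℕ) := ⟨(-m - 3).toNat, by omega⟩
      have h3 : C.t⁻¹ ^ k * (C.s * C.t⁻¹ ^ 3) ∈ C.OC true := mul_mem (pow_mem h1 k) h2
      have h4 : mon C.t 1 C.s (Sum.inr (-(k : ℤ) - (3 : ℕ))) = C.t⁻¹ ^ k * (C.s * C.t⁻¹ ^ 3) := by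
        simp only [mon, Sum.elim_inr]
        rw [sub_eq_add_neg, zpow_add₀ ht, zpow_neg, zpow_natCast, zpow_neg, zpow_natCast, inv_pow,
          inv_pow]
        ring
      rw [h4]
      exact h3

theorem TS_OCs_range : sm C.OCs = Submodule.span ℂ (Set.range (mon C.t 1 C.s)) := by
  have ht := C.TS_t_ne
  apply le_antisymm
  · apply adjoin_le
    · exact Submodule.subset_span ⟨Sum.inl 0, by simp [mon]⟩
    · intro x hx u hu
      induction hu using Submodule.span_induction with
      | mem u hu =>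
        obtain ⟨i, rfl⟩ := hu
        rcases hx with rfl | hx | hx
        · have := mon_shift ht 1 C.s 1 i
          rw [zpow_one] at this
          rw [this]
          exact Submodule.subset_span ⟨_, rfl⟩
        · have := mon_shift ht 1 C.s (-1) i
          rw [zpow_neg_one] at this
          rw [hx, this]
          exact Submodule.subset_span ⟨_, rfl⟩
        · rw [Set.mem_singleton_iff] at hx
          subst hx
          rcases i with m | m
          · exact Submodule.subset_span ⟨Sum.inr m, by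
              simp only [mon, Sum.elim_inl, Sum.elim_inr]; ring⟩
          · have key : ∀ k : ℕ, C.t ^ (m + k) ∈ Submodule.span ℂ (Set.range (mon C.t 1 C.s)) := by
              intro k
              exact Submodule.subset_span ⟨Sum.inl (m + k), by simp [mon]⟩
            have e1 : C.s * mon C.t 1 C.s (Sum.inr m) = C.t ^ (m + (6 : ℕ)) +
                (-2 : ℂ) • C.t ^ (m + (5 : ℕ)) + C.t ^ (m + (4 : ℕ)) +
                (2 : ℂ) • C.t ^ (m + (3 : ℕ)) + (2 : ℂ) • C.t ^ (m + (2 : ℕ)) +
                C.t ^ (m + (0 : ℕ)) := by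
              simp only [mon, Sum.elim_inr, Algebra.smul_def, map_neg, map_ofNat,
                zpow_add₀ ht, zpow_natCast]
              have := C.hs
              linear_combination C.t ^ m * this
            rw [e1]
            exact add_mem (add_mem (add_mem (add_mem (add_mem (key 6)
              (Submodule.smul_mem _ _ (key 5))) (key 4)) (Submodule.smul_mem _ _ (key 3)))
              (Submodule.smul_mem _ _ (key 2))) (key 0)
      | zero => rw [mul_zero]; exact zero_mem _
      | add a b _ _ ha hb => rw [mul_add]; exact add_mem ha hb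
      | smul c a _ ha => rw [mul_smul_comm]; exact Submodule.smul_mem _ c ha
  · rw [Submodule.span_le]
    rintro _ ⟨i, rfl⟩
    have h1 : Lt C.t ≤ C.OCs := Algebra.adjoin_mono (by
      intro x hx
      rcases hx with rfl | hx
      · simp
      · rw [Set.mem_singleton_iff] at hx
        subst hx
        simp)
    have h2 : C.s ∈ C.OCs := Algebra.subset_adjoin (by simp)
    rcases i with m | m
    · have h3 : C.t ^ m * 1 ∈ C.OCs := mul_mem (h1 (t_zpow_mem m)) (one_mem _)
      exact h3
    · have h3 : C.t ^ m * C.s ∈ C.OCs := mul_mem (h1 (t_zpow_mem m)) h2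
      exact h3

theorem OC_le (a : Bool) : ∀ y ∈ C.OC a, y ∈ C.KC := by
  have ht : C.t ∈ C.KC := IntermediateField.subset_adjoin _ _ (by simp)
  have hs : C.s ∈ C.KC := IntermediateField.subset_adjoin _ _ (by simp)
  have h : C.OC a ≤ C.KC.toSubalgebra := by
    apply Algebra.adjoin_le
    cases a
    · rintro y (rfl | hy)
      · exact ht
      · rw [Set.mem_singleton_iff] at hy
        subst hy
        simpa [S] using hs
    · rintro y (rfl | hy)
      · exact C.KC.inv_mem ht
      · rw [Set.mem_singleton_iff] at hy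
        subst hy
        exact C.KC.mul_mem hs (pow_mem (C.KC.inv_mem ht) 3)
  intro y hy
  exact h hy

theorem OCs_le : ∀ y ∈ C.OCs, y ∈ C.KC := by
  have ht : C.t ∈ C.KC := IntermediateField.subset_adjoin _ _ (by simp)
  have hs : C.s ∈ C.KC := IntermediateField.subset_adjoin _ _ (by simp)
  have h : C.OCs ≤ C.KC.toSubalgebra := by
    apply Algebra.adjoin_le
    rintro y (rfl | rfl | hy)
    · exact ht
    · exact C.KC.inv_mem ht
    · rw [Set.mem_singleton_iff] at hy
      subst hy
      exact hs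
  intro y hy
  exact h hy

theorem t_mem_OCs : C.t ∈ C.OCs := Algebra.subset_adjoin (by simp)
theorem tinv_mem_OCs : C.t⁻¹ ∈ C.OCs := Algebra.subset_adjoin (by simp)
theorem s_mem_OCs : C.s ∈ C.OCs := Algebra.subset_adjoin (by simp)

theorem OC_le_OCs (a : Bool) : C.OC a ≤ C.OCs := by
  apply Algebra.adjoin_le
  cases a
  · rintro y (rfl | hy)
    · exact C.t_mem_OCs
    · rw [Set.mem_singleton_iff] at hy
      subst hy
      simpa [S] using C.s_mem_OCs
  · rintro y (rfl | hy)
    · exact C.tinv_mem_OCs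
    · rw [Set.mem_singleton_iff] at hy
      subst hy
      exact mul_mem C.s_mem_OCs (pow_mem C.tinv_mem_OCs 3)

theorem g_mem : C.g ∈ C.OCs := by
  have ht := C.t_mem_OCs
  exact mul_mem (add_mem (add_mem (sub_mem (one_mem _) (pow_mem ht 2)) (pow_mem ht 3))
    C.s_mem_OCs) C.tinv_mem_OCs

theorem N_le (a : Bool) : C.N a ≤ sm C.OCs := by
  intro y hy
  rw [N, mem_sc] at hy
  obtain ⟨w, hw, rfl⟩ := hy
  have h1 : w ∈ C.OCs := C.OC_le_OCs a hw
  have h2 : (if a = true then C.g else 1) ∈ C.OCs := by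
    split_ifs
    · exact C.g_mem
    · exact one_mem _
  have h3 : (if a = true then C.g else 1) * w ∈ C.OCs := mul_mem h2 h1
  exact h3

theorem N2_le (a : Bool) : C.N2 a ≤ sm C.OCs := by
  intro y hy
  rw [N2, mem_sc] at hy
  obtain ⟨w, hw, rfl⟩ := hy
  have h1 : w ∈ C.OCs := C.OC_le_OCs a hw
  have h2 : (if a = true then C.g ^ 2 else 1) ∈ C.OCs := by
    split_ifs
    · exact pow_mem C.g_mem 2
    · exact one_mem _
  have h3 : (if a = true then C.g ^ 2 else 1) * w ∈ C.OCs := mul_mem h2 h1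
  exact h3

theorem ι_OC (a : Bool) : ∀ y ∈ C.OC a, C.ι y ∈ C.OC a := by
  have h : C.OC a ≤ (C.OC a).comap (C.ι : F →ₐ[ℂ] F) := by
    have h0 : C.OC a = Algebra.adjoin ℂ {C.T a, C.S a} := rfl
    conv_lhs => rw [h0]
    apply Algebra.adjoin_le
    have hT : C.T a ∈ C.OC a := Algebra.subset_adjoin (by simp)
    have hS : C.S a ∈ C.OC a := Algebra.subset_adjoin (by simp)
    rintro y (rfl | hy)
    · have h1 : C.ι (C.T a) = C.T a := by
        cases a <;> simp [T, coord]
      show C.ι (C.T a) ∈ C.OC a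
      rw [h1]; exact hT
    · rw [Set.mem_singleton_iff] at hy
      subst hy
      have h1 : C.ι (C.S a) = -C.S a := by
        cases a <;> simp [S]
      show C.ι (C.S a) ∈ C.OC a
      rw [h1]; exact neg_mem hS
  intro y hy
  exact h hy

theorem OC_inf : C.OC false ⊓ C.OC true = ⊥ := by
  apply Subalgebra.toSubmodule_injective
  have h1 : Subalgebra.toSubmodule (C.OC false ⊓ C.OC true) =
      sm (C.OC false) ⊓ sm (C.OC true) := rfl
  rw [h1, TS_OC_false_eq, TS_OC_true_eq, span_inf C.ts_li, Algebra.toSubmodule_bot,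
    Submodule.one_eq_span]
  congr 1
  ext y
  constructor
  · rintro ⟨i, ⟨h1, h2⟩, rfl⟩
    rcases i with m | m
    · rw [inl_Sge] at h1
      rw [inl_Sle] at h2
      have : m = 0 := le_antisymm h2 h1
      subst this
      simp [mon]
    · rw [inr_Sge] at h1
      rw [inr_Sle] at h2
      omega
  · intro hy
    rw [Set.mem_singleton_iff] at hy
    subst hy
    exact ⟨Sum.inl 0, ⟨by simp, by simp⟩, by simp [mon]⟩

theorem OCs_eq : (sm C.OCs : Submodule ℂ F) =
    sm (C.OC false) ⊔ sm (C.OC true) ⊔ Submodule.span ℂ {C.s * C.t⁻¹, C.s * C.t⁻¹ ^ 2} := by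
  rw [TS_OC_false_eq, TS_OC_true_eq, TS_OCs_range, span_sup]
  apply le_antisymm
  · rw [Submodule.span_le]
    rintro _ ⟨i, rfl⟩
    by_cases h : i ∈ Sge ∪ Sle 0 (-3)
    · exact Submodule.mem_sup_left (Submodule.subset_span ⟨i, h, rfl⟩)
    · apply Submodule.mem_sup_right
      rw [Set.mem_union, not_or] at h
      rcases i with m | m
      · rw [inl_Sge, inl_Sle] at h
        omega
      · rw [inr_Sge, inr_Sle] at h
        have : m = -1 ∨ m = -2 := by omega
        rcases this with rfl | rfl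
        · apply Submodule.subset_span
          left
          simp only [mon, Sum.elim_inr]
          rw [zpow_neg_one]; ring
        · apply Submodule.subset_span
          right
          simp only [mon, Sum.elim_inr, Set.mem_singleton_iff]
          rw [zpow_neg, show (2 : ℤ) = ((2 : ℕ) : ℤ) from rfl, zpow_natCast, inv_pow]; ring
  · apply sup_le
    · exact Submodule.span_mono (Set.image_subset_range _ _)
    · rw [Submodule.span_le]
      rintro y (rfl | hy)
      · exact Submodule.subset_span ⟨Sum.inr (-1), by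
          simp only [mon, Sum.elim_inr]
          rw [zpow_neg_one]; ring⟩
      · rw [Set.mem_singleton_iff] at hy
        subst hy
        exact Submodule.subset_span ⟨Sum.inr (-2), by
          simp only [mon, Sum.elim_inr]
          rw [zpow_neg, show (2 : ℤ) = ((2 : ℕ) : ℤ) from rfl, zpow_natCast, inv_pow]; ring⟩

theorem OC_indep (α β : ℂ) (h : α • (C.s * C.t⁻¹) + β • (C.s * C.t⁻¹ ^ 2) ∈
    (sm (C.OC false) ⊔ sm (C.OC true) : Submodule ℂ F)) : α = 0 ∧ β = 0 := by
  rw [TS_OC_false_eq, TS_OC_true_eq, span_sup] at h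
  have e1 : C.s * C.t⁻¹ = mon C.t 1 C.s (Sum.inr (-1)) := by
    simp only [mon, Sum.elim_inr]
    rw [zpow_neg_one]; ring
  have e2 : C.s * C.t⁻¹ ^ 2 = mon C.t 1 C.s (Sum.inr (-2)) := by
    simp only [mon, Sum.elim_inr]
    rw [zpow_neg, show (2 : ℤ) = ((2 : ℕ) : ℤ) from rfl, zpow_natCast, inv_pow]; ring
  have h2 : α • (C.s * C.t⁻¹) + β • (C.s * C.t⁻¹ ^ 2) ∈ Submodule.span ℂ
      (mon C.t 1 C.s '' {Sum.inr (-1), Sum.inr (-2)}) := by
    apply add_mem
    · apply Submodule.smul_mem
      exact Submodule.subset_span ⟨Sum.inr (-1), by simp, e1.symm⟩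
    · apply Submodule.smul_mem
      exact Submodule.subset_span ⟨Sum.inr (-2), by simp, e2.symm⟩
  have hdis : Disjoint (Sge ∪ Sle 0 (-3) : Set (ℤ ⊕ ℤ)) {Sum.inr (-1), Sum.inr (-2)} := by
    rw [Set.disjoint_left]
    rintro i hi hj
    rcases hj with rfl | hj
    · simp at hi
    · rw [Set.mem_singleton_iff] at hj
      subst hj
      simp at hi
  have h3 := Submodule.disjoint_def.1 (C.ts_li.disjoint_span_image hdis) _ h h2
  rw [e1, e2] at h3
  have h4 := C.ts_li.comp (![Sum.inr (-1), Sum.inr (-2)] : Fin 2 → ℤ ⊕ ℤ) (by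
    intro i j hij
    fin_cases i <;> fin_cases j <;> simp at hij ⊢)
  have h5 : LinearIndependent ℂ ![mon C.t 1 C.s (Sum.inr (-1)), mon C.t 1 C.s (Sum.inr (-2))] := by
    convert! h4 using 1
    funext i
    fin_cases i <;> rfl
  exact LinearIndependent.pair_iff.1 h5 α β h3

theorem charZero_F (_ : Cfg F) : CharZero F :=
  charZero_of_injective_algebraMap (algebraMap ℂ F).injective

theorem g_mul : C.g * C.ι C.g = -4 := by
  have ht := C.TS_t_ne
  have hs := C.hs
  simp only [g, map_mul, map_add, map_sub, map_one, map_pow, map_inv₀, ι_t, ι_s]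
  field_simp
  linear_combination -hs

theorem g_ne : C.g ≠ 0 := by
  have := C.charZero_F
  intro h0
  have h := C.g_mul
  rw [h0, zero_mul] at h
  norm_num at h

theorem g_inv_mem : C.g⁻¹ ∈ C.OCs := by
  have := C.charZero_F
  have h := C.g_mul
  have hg := C.g_ne
  have h1 : C.g⁻¹ = (-1 / 4 : ℂ) • C.ι C.g := by
    rw [Algebra.smul_def]
    have : C.ι C.g = -4 * C.g⁻¹ := by
      field_simp
      linear_combination h
    rw [this]
    simp only [map_div₀, map_neg, map_one, map_ofNat]
    field_simp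
  rw [h1]
  apply C.OCs.smul_mem
  simp only [g, map_mul, map_add, map_sub, map_one, map_pow, map_inv₀, ι_t, ι_s]
  have ht := C.t_mem_OCs
  exact mul_mem (add_mem (add_mem (sub_mem (one_mem _) (pow_mem ht 2)) (pow_mem ht 3))
    (neg_mem C.s_mem_OCs)) C.tinv_mem_OCs

theorem N_true_le : C.N true ≤ sc (C.t ^ 2) (sm (C.OC true)) := by
  have ht := C.TS_t_ne
  intro y hy
  rw [N, mem_sc] at hy
  obtain ⟨w, hw, rfl⟩ := hy
  have h1 : C.t⁻¹ ∈ C.OC true := Algebra.subset_adjoin (by simp [T, coord])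
  have h2 : C.s * C.t⁻¹ ^ 3 ∈ C.OC true := Algebra.subset_adjoin (by simp [S])
  have h3 : C.t⁻¹ ^ 3 - C.t⁻¹ + 1 + C.s * C.t⁻¹ ^ 3 ∈ C.OC true :=
    add_mem (add_mem (sub_mem (pow_mem h1 3) h1) (one_mem _)) h2
  have hw' : w ∈ C.OC true := hw
  have h4 : (C.t⁻¹ ^ 3 - C.t⁻¹ + 1 + C.s * C.t⁻¹ ^ 3) * w ∈ C.OC true := mul_mem h3 hw'
  rw [mem_sc]
  refine ⟨_, h4, ?_⟩
  simp only [if_true, g]
  field_simp

theorem tG0_mem : C.t * C.G0 ∈ C.OC false := by
  have ht := C.TS_t_ne
  have h1 : C.t ∈ C.OC false := Algebra.subset_adjoin (by simp [T, coord])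
  have h2 : C.s ∈ C.OC false := Algebra.subset_adjoin (by simp [S])
  have h3 : C.t * C.G0 = (C.t - 1) * ((1 - C.t ^ 2 + C.t ^ 3) + C.s) + 2 := by
    rw [G0]; field_simp
  rw [h3]
  have h4 : (2 : F) ∈ C.OC false := by
    have := (C.OC false).algebraMap_mem 2
    rwa [map_ofNat] at this
  exact add_mem (mul_mem (sub_mem h1 (one_mem _)) (add_mem (add_mem (sub_mem (one_mem _)
    (pow_mem h1 2)) (pow_mem h1 3)) h2)) h4

theorem OCs_loc_aux (y : F) (hy : y ∈ C.OCs) : ∃ n0 : ℕ, ∀ n ≥ n0, C.t ^ n * y ∈ C.OC false ∧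
    C.t⁻¹ ^ n * y ∈ C.OC true := by
  have ht := C.TS_t_ne
  have hy' : y ∈ Submodule.span ℂ (Set.range (mon C.t 1 C.s)) := by
    rw [← TS_OCs_range]; exact hy
  clear hy
  induction hy' using Submodule.span_induction with
  | mem u hu =>
    obtain ⟨i, rfl⟩ := hu
    have e1 : ∀ n : ℕ, C.t ^ n * mon C.t 1 C.s i =
        mon C.t 1 C.s (Sum.map (· + (n : ℤ)) (· + (n : ℤ)) i) := fun n => by
      rw [← mon_shift ht, zpow_natCast]
    have e2 : ∀ n : ℕ, C.t⁻¹ ^ n * mon C.t 1 C.s i =
        mon C.t 1 C.s (Sum.map (· + (-(n : ℤ))) (· + (-(n : ℤ))) i) := fun n => by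
      rw [← mon_shift ht, zpow_neg, zpow_natCast, inv_pow]
    rcases i with m | m
    · refine ⟨m.natAbs, fun n hn => ?_⟩
      rw [e1, e2]
      constructor
      · have : mon C.t 1 C.s (Sum.map (· + (n : ℤ)) (· + (n : ℤ)) (Sum.inl m)) ∈
            sm (C.OC false) := by
          rw [TS_OC_false_eq, mem_iff C.ts_li, Sum.map_inl, inl_Sge]
          omega
        exact this
      · have : mon C.t 1 C.s (Sum.map (· + (-(n : ℤ))) (· + (-(n : ℤ))) (Sum.inl m)) ∈
            sm (C.OC true) := by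
          rw [TS_OC_true_eq, mem_iff C.ts_li, Sum.map_inl, inl_Sle]
          omega
        exact this
    · refine ⟨m.natAbs + 3, fun n hn => ?_⟩
      rw [e1, e2]
      constructor
      · have : mon C.t 1 C.s (Sum.map (· + (n : ℤ)) (· + (n : ℤ)) (Sum.inr m)) ∈
            sm (C.OC false) := by
          rw [TS_OC_false_eq, mem_iff C.ts_li, Sum.map_inr, inr_Sge]
          omega
        exact this
      · have : mon C.t 1 C.s (Sum.map (· + (-(n : ℤ))) (· + (-(n : ℤ))) (Sum.inr m)) ∈
            sm (C.OC true) := by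
          rw [TS_OC_true_eq, mem_iff C.ts_li, Sum.map_inr, inr_Sle]
          omega
        exact this
  | zero => exact ⟨0, fun n _ => by rw [mul_zero, mul_zero]; exact ⟨zero_mem _, zero_mem _⟩⟩
  | add a b _ _ ha hb =>
    obtain ⟨n1, h1⟩ := ha
    obtain ⟨n2, h2⟩ := hb
    refine ⟨max n1 n2, fun n hn => ?_⟩
    rw [mul_add, mul_add]
    exact ⟨add_mem (h1 n (le_trans (le_max_left _ _) hn)).1
      (h2 n (le_trans (le_max_right _ _) hn)).1,
      add_mem (h1 n (le_trans (le_max_left _ _) hn)).2 (h2 n (le_trans (le_max_right _ _) hn)).2⟩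
  | smul c a _ ha =>
    obtain ⟨n1, h1⟩ := ha
    refine ⟨n1, fun n hn => ?_⟩
    rw [mul_smul_comm, mul_smul_comm]
    exact ⟨Subalgebra.smul_mem _ (h1 n hn).1 c, Subalgebra.smul_mem _ (h1 n hn).2 c⟩

/-- localisation at `t` -/
theorem OCs_loc (y : F) (hy : y ∈ C.OCs) : ∃ n : ℕ, C.t ^ n * y ∈ C.OC false ∧
    C.t⁻¹ ^ n * y ∈ C.OC true ∧ C.t⁻¹ ^ n * y ∈ C.N true ∧ C.t⁻¹ ^ n * y ∈ C.N2 true := by
  obtain ⟨n0, h0⟩ := C.OCs_loc_aux y hy
  obtain ⟨n1, h1⟩ := C.OCs_loc_aux (C.g⁻¹ * y) (mul_mem C.g_inv_mem hy)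
  obtain ⟨n2, h2⟩ := C.OCs_loc_aux (C.g⁻¹ ^ 2 * y) (mul_mem (pow_mem C.g_inv_mem 2) hy)
  have hg := C.g_ne
  refine ⟨max n0 (max n1 n2), (h0 _ (le_max_left _ _)).1, (h0 _ (le_max_left _ _)).2, ?_, ?_⟩
  · rw [N, mem_sc]
    refine ⟨_, (h1 (max n0 (max n1 n2)) (le_trans (le_max_left _ _) (le_max_right _ _))).2, ?_⟩
    simp only [if_true]
    field_simp
  · rw [N2, mem_sc]
    refine ⟨_, (h2 (max n0 (max n1 n2)) (le_trans (le_max_right _ _) (le_max_right _ _))).2, ?_⟩
    simp only [if_true]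
    field_simp

theorem finrank_OC (n : ℕ) (hn : 2 ≤ n) :
    Module.finrank ℂ (secs C.t (sm (C.OC false)) (sm (C.OC true)) n) = 2 * n - 1 := by
  rw [TS_OC_false_eq, TS_OC_true_eq, finrank_secs C.TS_t_ne C.ts_li]
  omega

end Cfg

end

end Pool.Agent.EllMod
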