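import Pool.Agent.MP_77976d_ag.Bas

/-! # XS : the curve `F₀` -/

open scoped TensorProduct
open IsLocalRing

namespace Pool.Agent.EllMod

noncomputable section

/-! ### linearly independent families -/

section family

variable {F : Type} [Field F] [Algebra ℂ F] {I : Type} {v : I → F}

theorem xs_inf (hv : LinearIndependent ℂ v) (A B : Set I) :
    Submodule.span ℂ (v '' A) ⊓ Submodule.span ℂ (v '' B) = Submodule.span ℂ (v '' (A ∩ B)) := by
  rw [Finsupp.span_image_eq_map_linearCombination, Finsupp.span_image_eq_map_linearCombination,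
    Finsupp.span_image_eq_map_linearCombination, Finsupp.supported_inter, Submodule.map_inf]
  exact hv

theorem xs_finrank (hv : LinearIndependent ℂ v) (A : Finset I) :
    Module.finrank ℂ (Submodule.span ℂ (v '' (A : Set I))) = A.card := by
  have h1 : v '' (A : Set I) = Set.range (v ∘ (Subtype.val : A → I)) := by
    ext y; simp
  rw [h1, finrank_span_eq_card (hv.comp _ Subtype.val_injective)]
  simp

theorem xs_even (hv : LinearIndependent ℂ v) (A : Set I) (f : F →ₗ[ℂ] F) (ε : I → Prop)
    (h1 : ∀ i, ε i → f (v i) = v i) (h2 : ∀ i, ¬ ε i → f (v i) = -v i) :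
    Submodule.span ℂ (v '' A) ⊓ LinearMap.ker (f - LinearMap.id) =
      Submodule.span ℂ (v '' (A ∩ {i | ε i})) := by
  apply le_antisymm
  · rintro w ⟨hw1, hw2⟩
    rw [SetLike.mem_coe, Finsupp.span_image_eq_map_linearCombination] at hw1
    obtain ⟨c, hc, rfl⟩ := hw1
    classical
    obtain ⟨c', hc'⟩ : ∃ c' : I →₀ ℂ, ∀ i, c' i = if ε i then 0 else -2 * c i := by
      refine ⟨(c.mapRange (fun z => -2 * z) (by simp)).filter (fun i => ¬ ε i), fun i => ?_⟩
      rw [Finsupp.filter_apply, Finsupp.mapRange_apply]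
      by_cases hi : ε i <;> simp [hi]
    have h3 : (f - LinearMap.id : F →ₗ[ℂ] F) (Finsupp.linearCombination ℂ v c) =
        Finsupp.linearCombination ℂ v c' := by
      rw [Finsupp.linearCombination_apply, Finsupp.sum, map_sum, Finsupp.linearCombination_apply,
        Finsupp.sum_of_support_subset _ (s := c.support)]
      · refine Finset.sum_congr rfl fun i _ => ?_
        rw [map_smul, LinearMap.sub_apply, LinearMap.id_apply, hc']
        by_cases hi : ε i
        · rw [h1 i hi, if_pos hi, sub_self, smul_zero, zero_smul]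
        · rw [h2 i hi, if_neg hi]
          module
      · intro i hi
        rw [Finsupp.mem_support_iff] at hi ⊢
        intro h
        apply hi
        rw [hc', h]
        simp
      · intro i _
        rw [zero_smul]
    have h4 : (f - LinearMap.id : F →ₗ[ℂ] F) (Finsupp.linearCombination ℂ v c) = 0 := hw2
    rw [h3] at h4
    have h5 := linearIndependent_iff.1 hv _ h4
    rw [Finsupp.span_image_eq_map_linearCombination]
    refine ⟨c, ?_, rfl⟩
    rw [SetLike.mem_coe, Finsupp.mem_supported] at hc ⊢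
    intro i hi
    refine ⟨hc hi, ?_⟩
    by_contra hcon
    have h6 : c' i = 0 := by rw [h5]; rfl
    have hcon' : ¬ ε i := hcon
    rw [hc', if_neg hcon'] at h6
    have h7 : c i = 0 := by
      rcases mul_eq_zero.1 h6 with h | h
      · norm_num at h
      · exact h
    exact (Finsupp.mem_support_iff.1 hi) h7
  · refine Submodule.span_le.2 ?_
    rintro _ ⟨i, ⟨hi, hε⟩, rfl⟩
    refine ⟨Submodule.subset_span ⟨i, hi, rfl⟩, ?_⟩
    rw [SetLike.mem_coe, LinearMap.mem_ker, LinearMap.sub_apply, h1 i hε]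
    simp

/-- an algebra generated by elements which preserve a subspace containing one -/
theorem xs_adjoin_le (s : Set F) (S : Submodule ℂ F) (h1 : (1 : F) ∈ S)
    (h2 : ∀ y ∈ s, ∀ z ∈ S, y * z ∈ S) : ∀ y ∈ Algebra.adjoin ℂ s, y ∈ S := by
  intro y hy
  have h3 : ∀ z ∈ S, y * z ∈ S := by
    induction hy using Algebra.adjoin_induction with
    | mem y hy => exact h2 y hy
    | algebraMap c => intro z hz; rw [← Algebra.smul_def]; exact S.smul_mem c hz
    | add a b _ _ ha hb => intro z hz; rw [add_mul]; exact S.add_mem (ha z hz) (hb z hz)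
    | mul a b _ _ ha hb => intro z hz; rw [mul_assoc]; exact ha _ (hb z hz)
  have := h3 1 h1
  rwa [mul_one] at this

end family

variable {F : Type} [Field F] [Algebra ℂ F] (C : Cfg F)

namespace Cfg

theorem xs_x_ne : C.x ≠ 0 := by
  intro h
  have h1 := C.indep.ne_zero 1
  exact h1 h

theorem xs_i_sq : (i : F) * i = -1 := by
  rw [i, ← map_mul, Complex.I_mul_I, map_neg, map_one]

theorem xs_P_sq (b : Bool) : C.P b * C.P b = C.Xc b * C.Xc b + 1 := by
  have h := C.hp
  have hx := C.xs_x_ne
  cases b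
  · simp only [P, Xc, coord, Bool.false_eq_true, if_false]
    linear_combination h
  · simp only [P, Xc, coord, if_true]
    field_simp
    linear_combination h

theorem xs_Q_sq (b : Bool) : C.Q b * C.Q b = C.Xc b * C.Xc b - 1 := by
  have h := C.hq
  have hx := C.xs_x_ne
  have hi := xs_i_sq (F := F)
  cases b
  · simp only [Q, Xc, coord, Bool.false_eq_true, if_false]
    linear_combination h
  · simp only [Q, Xc, coord, if_true]
    field_simp
    linear_combination C.q ^ 2 * hi - h

/-- the monomials of the chart `b` -/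
def xs_gam (b : Bool) (m : ℕ × Bool × Bool) : F :=
  C.Xc b ^ m.1 * (if m.2.1 then C.P b else 1) * (if m.2.2 then C.Q b else 1)

theorem xs_OF_span (b : Bool) :
    (sm (C.OF b) : Submodule ℂ F) = Submodule.span ℂ (Set.range (C.xs_gam b)) := by
  have hX : C.Xc b ∈ C.OF b := Algebra.subset_adjoin (by simp)
  have hP : C.P b ∈ C.OF b := Algebra.subset_adjoin (by simp)
  have hQ : C.Q b ∈ C.OF b := Algebra.subset_adjoin (by simp)
  apply le_antisymm
  · intro y hy
    refine xs_adjoin_le _ (Submodule.span ℂ (Set.range (C.xs_gam b)))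
      (Submodule.subset_span ⟨(0, false, false), by simp [xs_gam]⟩) ?_ y hy
    have hg : ∀ m, C.xs_gam b m ∈ Submodule.span ℂ (Set.range (C.xs_gam b)) := fun m =>
      Submodule.subset_span ⟨m, rfl⟩
    intro w hw z hz
    induction hz using Submodule.span_induction with
    | zero => rw [mul_zero]; exact zero_mem _
    | add a c _ _ ha hc => rw [mul_add]; exact add_mem ha hc
    | smul k a _ ha => rw [mul_smul_comm]; exact Submodule.smul_mem _ k ha
    | mem z hz =>
      obtain ⟨⟨n, β, γ⟩, rfl⟩ := hz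
      simp only [Set.mem_insert_iff, Set.mem_singleton_iff] at hw
      rcases hw with rfl | rfl | rfl
      · have : C.Xc b * C.xs_gam b (n, β, γ) = C.xs_gam b (n + 1, β, γ) := by
          simp only [xs_gam]; ring
        rw [this]; exact hg _
      · cases β
        · have : C.P b * C.xs_gam b (n, false, γ) = C.xs_gam b (n, true, γ) := by
            simp only [xs_gam, Bool.false_eq_true, if_false, if_true]; ring
          rw [this]; exact hg _
        · have : C.P b * C.xs_gam b (n, true, γ) =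
              C.xs_gam b (n + 2, false, γ) + C.xs_gam b (n, false, γ) := by
            simp only [xs_gam, Bool.false_eq_true, if_false, if_true]
            linear_combination C.Xc b ^ n * (if γ = true then C.Q b else 1) * C.xs_P_sq b
          rw [this]; exact add_mem (hg _) (hg _)
      · cases γ
        · have : C.Q b * C.xs_gam b (n, β, false) = C.xs_gam b (n, β, true) := by
            simp only [xs_gam, Bool.false_eq_true, if_false, if_true]; ring
          rw [this]; exact hg _
        · have : C.Q b * C.xs_gam b (n, β, true) =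
              C.xs_gam b (n + 2, β, false) - C.xs_gam b (n, β, false) := by
            simp only [xs_gam, Bool.false_eq_true, if_false, if_true]
            linear_combination C.Xc b ^ n * (if β = true then C.P b else 1) * C.xs_Q_sq b
          rw [this]; exact sub_mem (hg _) (hg _)
  · refine Submodule.span_le.2 ?_
    rintro _ ⟨⟨n, β, γ⟩, rfl⟩
    change C.xs_gam b (n, β, γ) ∈ C.OF b
    refine mul_mem (mul_mem (pow_mem hX n) ?_) ?_
    · split_ifs
      · exact hP
      · exact one_mem _
    · split_ifs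
      · exact hQ
      · exact one_mem _

/-- the basis of `OFs` -/
def xs_beta (m : ℤ × Bool × Bool) : F := C.x ^ m.1 * C.e (false, m.2)

theorem xs_li : LinearIndependent ℂ C.xs_beta := by
  have h := C.mono_li.comp (fun m : ℤ × Bool × Bool => ((0 : ℤ), m.1, (false, m.2))) (by
    rintro ⟨a, b, c⟩ ⟨a', b', c'⟩ h
    simp only [Prod.mk.injEq] at h ⊢
    exact ⟨h.2.1, h.2.2.2.1, h.2.2.2.2⟩)
  convert h using 1
  funext m
  simp [xs_beta]

/-- the degree of `p ^ a q ^ b` -/
def xs_deg (m : Bool × Bool) : ℤ := (if m.1 then 1 else 0) + (if m.2 then 1 else 0)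

theorem xs_OF_false : (sm (C.OF false) : Submodule ℂ F) =
    Submodule.span ℂ (C.xs_beta '' {m | 0 ≤ m.1}) := by
  rw [xs_OF_span]
  congr 1
  ext y
  constructor
  · rintro ⟨⟨n, β, γ⟩, rfl⟩
    refine ⟨((n : ℤ), β, γ), Int.natCast_nonneg n, ?_⟩
    simp [xs_beta, xs_gam, e, Xc, coord, P, Q, mul_assoc]
  · rintro ⟨⟨n, β, γ⟩, hn, rfl⟩
    obtain ⟨k, rfl⟩ := Int.eq_ofNat_of_zero_le (a := n) hn
    refine ⟨(k, β, γ), ?_⟩
    simp [xs_beta, xs_gam, e, Xc, coord, P, Q, mul_assoc]

theorem xs_gam_true (n : ℕ) (β γ : Bool) : C.xs_gam true (n, β, γ) =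
    (if γ then (i : F) else 1) * C.xs_beta (-(n : ℤ) - xs_deg (β, γ), β, γ) := by
  have hx := C.xs_x_ne
  have h1 : ∀ k : ℤ, C.x ^ (-(n : ℤ) - k) = (C.x⁻¹) ^ n * C.x ^ (-k) := by
    intro k
    rw [sub_eq_add_neg, zpow_add₀ hx, zpow_neg, zpow_natCast, inv_pow]
  cases β <;> cases γ <;>
    simp [xs_beta, xs_gam, e, Xc, coord, P, Q, xs_deg, h1] <;> field_simp

theorem xs_OF_true : (sm (C.OF true) : Submodule ℂ F) =
    Submodule.span ℂ (C.xs_beta '' {m | m.1 + xs_deg m.2 ≤ 0}) := by
  rw [xs_OF_span]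
  apply le_antisymm
  · refine Submodule.span_le.2 ?_
    rintro _ ⟨⟨n, β, γ⟩, rfl⟩
    rw [SetLike.mem_coe, xs_gam_true]
    have h1 : C.xs_beta (-(n : ℤ) - xs_deg (β, γ), β, γ) ∈
        Submodule.span ℂ (C.xs_beta '' {m | m.1 + xs_deg m.2 ≤ 0}) :=
      Submodule.subset_span ⟨_, by simp, rfl⟩
    split_ifs
    · rw [i, ← Algebra.smul_def]
      exact Submodule.smul_mem _ _ h1
    · rw [one_mul]; exact h1
  · refine Submodule.span_le.2 ?_
    rintro _ ⟨⟨n, β, γ⟩, hn, rfl⟩
    obtain ⟨k, hk⟩ := Int.eq_ofNat_of_zero_le (a := -(n + xs_deg (β, γ))) (by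
      have : n + xs_deg (β, γ) ≤ 0 := hn
      omega)
    have h1 : n = -(k : ℤ) - xs_deg (β, γ) := by
      omega
    subst h1
    have h2 := C.xs_gam_true k β γ
    have h3 : C.xs_gam true (k, β, γ) ∈ Submodule.span ℂ (Set.range (C.xs_gam true)) :=
      Submodule.subset_span ⟨_, rfl⟩
    rw [SetLike.mem_coe]
    cases γ
    · simp only [Bool.false_eq_true, if_false, one_mul] at h2
      rw [← h2]; exact h3
    · simp only [if_true] at h2
      have h4 : C.xs_beta (-(k : ℤ) - xs_deg (β, true), β, true) =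
          (-Complex.I) • C.xs_gam true (k, β, true) := by
        rw [h2, Algebra.smul_def, map_neg, ← mul_assoc]
        change _ = -i * i * _
        rw [neg_mul, xs_i_sq]; ring
      rw [h4]
      exact Submodule.smul_mem _ _ h3

theorem xs_OFs : (sm C.OFs : Submodule ℂ F) = Submodule.span ℂ (Set.range C.xs_beta) := by
  have hx := C.xs_x_ne
  apply le_antisymm
  · intro y hy
    refine xs_adjoin_le _ (Submodule.span ℂ (Set.range C.xs_beta))
      (Submodule.subset_span ⟨(0, false, false), by simp [xs_beta, e]⟩) ?_ y hy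
    have hg : ∀ m, C.xs_beta m ∈ Submodule.span ℂ (Set.range C.xs_beta) := fun m =>
      Submodule.subset_span ⟨m, rfl⟩
    intro w hw z hz
    induction hz using Submodule.span_induction with
    | zero => rw [mul_zero]; exact zero_mem _
    | add a c _ _ ha hc => rw [mul_add]; exact add_mem ha hc
    | smul k a _ ha => rw [mul_smul_comm]; exact Submodule.smul_mem _ k ha
    | mem z hz =>
      obtain ⟨⟨n, β, γ⟩, rfl⟩ := hz
      simp only [Set.mem_insert_iff, Set.mem_singleton_iff] at hw
      have h2 : C.x ^ (n + 2) = C.x ^ n * C.x ^ 2 := by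
        rw [zpow_add₀ hx]; norm_cast
      rcases hw with rfl | rfl | rfl | rfl
      · have : C.x * C.xs_beta (n, β, γ) = C.xs_beta (n + 1, β, γ) := by
          simp only [xs_beta]; rw [zpow_add_one₀ hx]; ring
        rw [this]; exact hg _
      · have : C.x⁻¹ * C.xs_beta (n, β, γ) = C.xs_beta (n - 1, β, γ) := by
          simp only [xs_beta]; rw [zpow_sub_one₀ hx]; ring
        rw [this]; exact hg _
      · cases β
        · have : C.p * C.xs_beta (n, false, γ) = C.xs_beta (n, true, γ) := by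
            simp only [xs_beta, e, Bool.false_eq_true, if_false, if_true]; ring
          rw [this]; exact hg _
        · have : C.p * C.xs_beta (n, true, γ) =
              C.xs_beta (n + 2, false, γ) + C.xs_beta (n, false, γ) := by
            simp only [xs_beta, e, Bool.false_eq_true, if_false, if_true]
            rw [h2]
            linear_combination C.x ^ n * (if γ = true then C.q else 1) * C.hp
          rw [this]; exact add_mem (hg _) (hg _)
      · cases γ
        · have : C.q * C.xs_beta (n, β, false) = C.xs_beta (n, β, true) := by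
            simp only [xs_beta, e, Bool.false_eq_true, if_false, if_true]; ring
          rw [this]; exact hg _
        · have : C.q * C.xs_beta (n, β, true) =
              C.xs_beta (n + 2, β, false) - C.xs_beta (n, β, false) := by
            simp only [xs_beta, e, Bool.false_eq_true, if_false, if_true]
            rw [h2]
            linear_combination C.x ^ n * (if β = true then C.p else 1) * C.hq
          rw [this]; exact sub_mem (hg _) (hg _)
  · refine Submodule.span_le.2 ?_
    rintro _ ⟨⟨n, β, γ⟩, rfl⟩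
    change C.xs_beta (n, β, γ) ∈ C.OFs
    have hX : C.x ∈ C.OFs := Algebra.subset_adjoin (by simp)
    have hX' : C.x⁻¹ ∈ C.OFs := Algebra.subset_adjoin (by simp)
    have hP : C.p ∈ C.OFs := Algebra.subset_adjoin (by simp)
    have hQ : C.q ∈ C.OFs := Algebra.subset_adjoin (by simp)
    have hn : C.x ^ n ∈ C.OFs := by
      cases n with
      | ofNat k => rw [Int.ofNat_eq_natCast, zpow_natCast]; exact pow_mem hX k
      | negSucc k => rw [zpow_negSucc, ← inv_pow]; exact pow_mem hX' _
    simp only [xs_beta, e, Bool.false_eq_true, if_false, one_mul]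
    refine mul_mem hn (mul_mem ?_ ?_)
    · split_ifs
      · exact hP
      · exact one_mem _
    · split_ifs
      · exact hQ
      · exact one_mem _

theorem OF_le (b : Bool) : ∀ y ∈ C.OF b, y ∈ C.KF := by
  intro y hy
  have h1 : C.OF b ≤ C.KF.toSubalgebra := by
    refine Algebra.adjoin_le ?_
    have hX : C.x ∈ C.KF := IntermediateField.subset_adjoin _ _ (by simp)
    have hP : C.p ∈ C.KF := IntermediateField.subset_adjoin _ _ (by simp)
    have hQ : C.q ∈ C.KF := IntermediateField.subset_adjoin _ _ (by simp)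
    have hI : (i : F) ∈ C.KF := C.KF.algebraMap_mem _
    rintro z hz
    simp only [Set.mem_insert_iff, Set.mem_singleton_iff] at hz
    change z ∈ C.KF
    cases b
    · rcases hz with rfl | rfl | rfl
      · exact hX
      · exact hP
      · exact hQ
    · rcases hz with rfl | rfl | rfl
      · exact inv_mem hX
      · exact mul_mem hP (inv_mem hX)
      · exact mul_mem (mul_mem hI hQ) (inv_mem hX)
  exact h1 hy

theorem OFs_le : ∀ y ∈ C.OFs, y ∈ C.KF := by
  intro y hy
  have h1 : C.OFs ≤ C.KF.toSubalgebra := by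
    refine Algebra.adjoin_le ?_
    have hX : C.x ∈ C.KF := IntermediateField.subset_adjoin _ _ (by simp)
    have hP : C.p ∈ C.KF := IntermediateField.subset_adjoin _ _ (by simp)
    have hQ : C.q ∈ C.KF := IntermediateField.subset_adjoin _ _ (by simp)
    rintro z hz
    simp only [Set.mem_insert_iff, Set.mem_singleton_iff] at hz
    change z ∈ C.KF
    rcases hz with rfl | rfl | rfl | rfl
    · exact hX
    · exact inv_mem hX
    · exact hP
    · exact hQ
  exact h1 hy

theorem OF_le_OFs (b : Bool) : C.OF b ≤ C.OFs := by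
  have h1 : (sm (C.OF b) : Submodule ℂ F) ≤ sm C.OFs := by
    rw [xs_OFs]
    cases b
    · rw [xs_OF_false]
      exact Submodule.span_mono (Set.image_subset_range _ _)
    · rw [xs_OF_true]
      exact Submodule.span_mono (Set.image_subset_range _ _)
  exact h1

theorem xs_ι_i : C.ι (i : F) = i := C.ι.commutes _

theorem xs_ι_X (b : Bool) : C.ι (C.Xc b) = C.Xc b := by
  cases b <;> simp [Xc, coord]
theorem xs_ι_P (b : Bool) : C.ι (C.P b) = -C.P b := by
  cases b <;> simp [P]
theorem xs_ι_Q (b : Bool) : C.ι (C.Q b) = -C.Q b := by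
  cases b <;> simp [Q, xs_ι_i]

theorem ι_OF (b : Bool) : ∀ y ∈ C.OF b, C.ι y ∈ C.OF b := by
  intro y hy
  have h1 : C.OF b ≤ (C.OF b).comap C.ι.toAlgHom := by
    refine Algebra.adjoin_le ?_
    rintro z hz
    change C.ι z ∈ C.OF b
    simp only [Set.mem_insert_iff, Set.mem_singleton_iff] at hz
    rcases hz with rfl | rfl | rfl
    · rw [xs_ι_X]; exact Algebra.subset_adjoin (by simp)
    · rw [xs_ι_P]; exact neg_mem (Algebra.subset_adjoin (by simp))
    · rw [xs_ι_Q]; exact neg_mem (Algebra.subset_adjoin (by simp))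
  exact h1 hy

theorem xs_deg_nonneg (m : Bool × Bool) : 0 ≤ xs_deg m := by
  rcases m with ⟨a, b⟩; cases a <;> cases b <;> simp [xs_deg]

theorem OF_inf : C.OF false ⊓ C.OF true = ⊥ := by
  apply Subalgebra.toSubmodule_injective
  have h1 : Subalgebra.toSubmodule (C.OF false ⊓ C.OF true) =
    (sm (C.OF false) ⊓ sm (C.OF true) : Submodule ℂ F) := rfl
  rw [h1, xs_OF_false, xs_OF_true, xs_inf C.xs_li]
  have h2 : ({m : ℤ × Bool × Bool | 0 ≤ m.1} ∩ {m | m.1 + xs_deg m.2 ≤ 0}) =
      {((0 : ℤ), false, false)} := by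
    ext ⟨n, a, b⟩
    simp only [Set.mem_inter_iff, Set.mem_ofPred_eq, Set.mem_singleton_iff, Prod.mk.injEq]
    cases a <;> cases b <;> simp [xs_deg] <;> omega
  rw [h2, Set.image_singleton, Algebra.toSubmodule_bot]
  simp [xs_beta, e, Submodule.one_eq_span]

theorem xs_Yx : C.Y * C.x⁻¹ = C.xs_beta (-1, true, true) := by
  simp [xs_beta, e, Y, mul_comm]

theorem OFs_eq : (sm C.OFs : Submodule ℂ F) =
    sm (C.OF false) ⊔ sm (C.OF true) ⊔ Submodule.span ℂ {C.Y * C.x⁻¹} := by
  rw [xs_OFs, xs_OF_false, xs_OF_true, xs_Yx, ← Submodule.span_union, ← Submodule.span_union]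
  apply le_antisymm
  · refine Submodule.span_le.2 ?_
    rintro _ ⟨⟨n, a, b⟩, rfl⟩
    refine Submodule.subset_span ?_
    by_cases h0 : 0 ≤ n
    · exact Or.inl (Or.inl ⟨_, h0, rfl⟩)
    by_cases h1 : n + xs_deg (a, b) ≤ 0
    · exact Or.inl (Or.inr ⟨_, h1, rfl⟩)
    right
    have h2 : n = -1 ∧ a = true ∧ b = true := by
      cases a <;> cases b <;> simp [xs_deg] at h1 ⊢ <;> omega
    obtain ⟨rfl, rfl, rfl⟩ := h2
    rfl
  · refine Submodule.span_mono ?_
    rintro _ ((⟨m, -, rfl⟩ | ⟨m, -, rfl⟩) | h)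
    · exact ⟨_, rfl⟩
    · exact ⟨_, rfl⟩
    · exact ⟨_, h.symm⟩

theorem OF_indep : C.Y * C.x⁻¹ ∉ (sm (C.OF false) ⊔ sm (C.OF true) : Submodule ℂ F) := by
  rw [xs_OF_false, xs_OF_true, xs_Yx, ← Submodule.span_union, ← Set.image_union]
  refine C.xs_li.notMem_span_image ?_
  rintro (h | h)
  · have : (0 : ℤ) ≤ -1 := h
    omega
  · have : (-1 : ℤ) + xs_deg (true, true) ≤ 0 := h
    simp [xs_deg] at this

theorem xs_x_beta (k n : ℤ) (m : Bool × Bool) : C.x ^ k * C.xs_beta (n, m) = C.xs_beta (k + n, m) := by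
  simp only [xs_beta]
  rw [zpow_add₀ C.xs_x_ne]; ring

theorem OFs_loc (y : F) (hy : y ∈ C.OFs) : ∃ n : ℕ, C.x ^ n * y ∈ C.OF false ∧
    C.x⁻¹ ^ n * y ∈ C.OF true := by
  have hX : C.x ∈ C.OF false := Algebra.subset_adjoin (by simp [Xc, coord])
  have hX' : C.x⁻¹ ∈ C.OF true := Algebra.subset_adjoin (by simp [Xc, coord])
  have hup : ∀ (y : F) (n k : ℕ), C.x ^ n * y ∈ C.OF false → C.x ^ (n + k) * y ∈ C.OF false := by
    intro y n k h
    have : C.x ^ (n + k) * y = C.x ^ k * (C.x ^ n * y) := by rw [pow_add]; ring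
    rw [this]; exact mul_mem (pow_mem hX k) h
  have hup' : ∀ (y : F) (n k : ℕ), C.x⁻¹ ^ n * y ∈ C.OF true → C.x⁻¹ ^ (n + k) * y ∈ C.OF true := by
    intro y n k h
    have : C.x⁻¹ ^ (n + k) * y = C.x⁻¹ ^ k * (C.x⁻¹ ^ n * y) := by rw [pow_add]; ring
    rw [this]; exact mul_mem (pow_mem hX' k) h
  have h1 : y ∈ Submodule.span ℂ (Set.range C.xs_beta) := by rw [← xs_OFs]; exact hy
  clear hy
  induction h1 using Submodule.span_induction with
  | zero => exact ⟨0, by simp, by simp⟩
  | add a b _ _ ha hb =>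
    obtain ⟨n, h1, h2⟩ := ha
    obtain ⟨k, h3, h4⟩ := hb
    refine ⟨n + k, ?_, ?_⟩
    · rw [mul_add]
      exact add_mem (hup _ _ _ h1) (by rw [add_comm n k]; exact hup _ _ _ h3)
    · rw [mul_add]
      exact add_mem (hup' _ _ _ h2) (by rw [add_comm n k]; exact hup' _ _ _ h4)
  | smul c a _ ha =>
    obtain ⟨n, h1, h2⟩ := ha
    refine ⟨n, ?_, ?_⟩
    · rw [mul_smul_comm]; exact Subalgebra.smul_mem _ h1 c
    · rw [mul_smul_comm]; exact Subalgebra.smul_mem _ h2 c
  | mem y hy =>
    obtain ⟨⟨n, m⟩, rfl⟩ := hy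
    refine ⟨n.natAbs + 2, ?_, ?_⟩
    · have h5 : C.x ^ (n.natAbs + 2) * C.xs_beta (n, m) =
          C.xs_beta (((n.natAbs + 2 : ℕ) : ℤ) + n, m) := by
        rw [← zpow_natCast, xs_x_beta]
      have h6 : C.xs_beta (((n.natAbs + 2 : ℕ) : ℤ) + n, m) ∈ (sm (C.OF false) : Submodule ℂ F) := by
        rw [xs_OF_false]
        refine Submodule.subset_span ⟨_, ?_, rfl⟩
        change (0 : ℤ) ≤ ((n.natAbs + 2 : ℕ) : ℤ) + n
        omega
      rw [h5]; exact h6
    · have h5 : C.x⁻¹ ^ (n.natAbs + 2) * C.xs_beta (n, m) =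
          C.xs_beta (-((n.natAbs + 2 : ℕ) : ℤ) + n, m) := by
        rw [← xs_x_beta, zpow_neg, zpow_natCast, inv_pow]
      have h6 : C.xs_beta (-((n.natAbs + 2 : ℕ) : ℤ) + n, m) ∈ (sm (C.OF true) : Submodule ℂ F) := by
        rw [xs_OF_true]
        refine Submodule.subset_span ⟨_, ?_, rfl⟩
        change -((n.natAbs + 2 : ℕ) : ℤ) + n + xs_deg m ≤ 0
        have h7 : xs_deg m ≤ 2 := by
          rcases m with ⟨a, b⟩; cases a <;> cases b <;> simp [xs_deg]
        omega
      rw [h5]; exact h6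

theorem j_mem (b : Bool) : C.j b ∈ C.OF b :=
  add_mem (Algebra.subset_adjoin (by simp)) (Algebra.subset_adjoin (by simp))

theorem j_mul (b : Bool) : C.j b * (C.P b - C.Q b) = 2 := by
  have h1 := C.xs_P_sq b
  have h2 := C.xs_Q_sq b
  rw [j]
  linear_combination h1 - h2

theorem j_inv (b : Bool) : (C.j b)⁻¹ = (1 / 2 : ℂ) • (C.P b - C.Q b) := by
  have h := C.j_mul b
  have h0 : C.j b ≠ 0 := by
    intro h0; rw [h0, zero_mul] at h
    have : CharZero F := charZero_of_injective_algebraMap (algebraMap ℂ F).injective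
    exact two_ne_zero h.symm
  apply inv_eq_of_mul_eq_one_right
  rw [mul_smul_comm, h, Algebra.smul_def]
  rw [show (2 : F) = algebraMap ℂ F 2 from (map_ofNat _ 2).symm, ← map_mul]
  norm_num

theorem j_inv_mem (b : Bool) : (C.j b)⁻¹ ∈ C.OF b := by
  rw [j_inv]
  refine Subalgebra.smul_mem _ (sub_mem ?_ ?_) _
  · exact Algebra.subset_adjoin (by simp)
  · exact Algebra.subset_adjoin (by simp)

theorem ι_j (b : Bool) : C.ι (C.j b) = -C.j b := by
  rw [j, map_add, xs_ι_P, xs_ι_Q]; ring

theorem xs_secs (n : ℕ) : secs C.x (sm (C.OF false)) (sm (C.OF true)) n =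
    Submodule.span ℂ (C.xs_beta '' ({m | 0 ≤ m.1} ∩ {m | m.1 + xs_deg m.2 ≤ n})) := by
  have hx := C.xs_x_ne
  have h1 : (sm (C.OF true) : Submodule ℂ F).comap (LinearMap.mulLeft ℂ (C.x⁻¹ ^ n)) =
      Submodule.span ℂ (C.xs_beta '' {m | m.1 + xs_deg m.2 ≤ n}) := by
    apply le_antisymm
    · intro v hv
      have h2 : C.x⁻¹ ^ n * v ∈ Submodule.span ℂ (C.xs_beta '' {m | m.1 + xs_deg m.2 ≤ 0}) := by
        rw [← xs_OF_true]; exact hv
      have h3 : v = C.x ^ n * (C.x⁻¹ ^ n * v) := by
        rw [← mul_assoc, ← mul_pow, mul_inv_cancel₀ hx, one_pow, one_mul]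
      rw [h3]
      generalize C.x⁻¹ ^ n * v = w at h2
      induction h2 using Submodule.span_induction with
      | zero => rw [mul_zero]; exact zero_mem _
      | add a c _ _ ha hc => rw [mul_add]; exact add_mem ha hc
      | smul k a _ ha => rw [mul_smul_comm]; exact Submodule.smul_mem _ k ha
      | mem z hz =>
        obtain ⟨⟨k, m⟩, hk, rfl⟩ := hz
        rw [← zpow_natCast, xs_x_beta]
        refine Submodule.subset_span ⟨_, ?_, rfl⟩
        have : k + xs_deg m ≤ 0 := hk
        change (n : ℤ) + k + xs_deg m ≤ n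
        omega
    · refine Submodule.span_le.2 ?_
      rintro _ ⟨⟨k, m⟩, hk, rfl⟩
      change C.x⁻¹ ^ n * C.xs_beta (k, m) ∈ (sm (C.OF true) : Submodule ℂ F)
      rw [inv_pow, ← zpow_natCast, ← zpow_neg, xs_x_beta, xs_OF_true]
      refine Submodule.subset_span ⟨_, ?_, rfl⟩
      have : k + xs_deg m ≤ n := hk
      change -(n : ℤ) + k + xs_deg m ≤ 0
      omega
  unfold secs
  rw [h1, xs_OF_false, xs_inf C.xs_li]

theorem xs_deg_set (n : ℕ) : ({m : ℤ × Bool × Bool | 0 ≤ m.1} ∩ {m | m.1 + xs_deg m.2 ≤ n}) =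
    (((Finset.Icc (0 : ℤ) n ×ˢ {(false, false)}) ∪ (Finset.Icc (0 : ℤ) (n - 1) ×ˢ {(true, false)})) ∪
      ((Finset.Icc (0 : ℤ) (n - 1) ×ˢ {(false, true)}) ∪
        (Finset.Icc (0 : ℤ) (n - 2) ×ˢ {(true, true)})) : Finset (ℤ × Bool × Bool)) := by
  ext ⟨k, a, b⟩
  cases a <;> cases b <;> simp [xs_deg] <;> omega

theorem finrank_OF (n : ℕ) (hn : 1 ≤ n) :
    Module.finrank ℂ (secs C.x (sm (C.OF false)) (sm (C.OF true)) n) = 4 * n := by
  rw [xs_secs, xs_deg_set, xs_finrank C.xs_li]
  rw [Finset.card_union_of_disjoint, Finset.card_union_of_disjoint, Finset.card_union_of_disjoint]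
  · simp only [Finset.card_product, Finset.card_singleton, Int.card_Icc]
    omega
  all_goals
    rw [Finset.disjoint_left]
    rintro ⟨k, a, b⟩ h1 h2
    cases a <;> cases b <;> simp at h1 h2

theorem finrank_OF_even (n : ℕ) (hn : 1 ≤ n) :
    Module.finrank ℂ ↥(secs C.x (sm (C.OF false)) (sm (C.OF true)) n ⊓
      LinearMap.ker (C.ι.toLinearMap - LinearMap.id)) = 2 * n := by
  rw [xs_secs, xs_even C.xs_li _ _ (fun m => m.2.1 = m.2.2)]
  · have h1 : (({m : ℤ × Bool × Bool | 0 ≤ m.1} ∩ {m | m.1 + xs_deg m.2 ≤ n}) ∩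
      {m | m.2.1 = m.2.2}) =
      ((Finset.Icc (0 : ℤ) n ×ˢ {(false, false)}) ∪ (Finset.Icc (0 : ℤ) (n - 2) ×ˢ {(true, true)}) :
      Finset (ℤ × Bool × Bool)) := by
      ext ⟨k, a, b⟩
      cases a <;> cases b <;> simp [xs_deg] <;> omega
    rw [h1, xs_finrank C.xs_li, Finset.card_union_of_disjoint]
    · simp only [Finset.card_product, Finset.card_singleton, Int.card_Icc]
      omega
    · rw [Finset.disjoint_left]
      rintro ⟨k, a, b⟩ h1 h2
      cases a <;> cases b <;> simp at h1 h2
  · rintro ⟨n, a, b⟩ h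
    simp only at h
    subst h
    cases a <;> simp [xs_beta, e]
  · rintro ⟨n, a, b⟩ h
    cases a <;> cases b <;> simp [xs_beta, e] at h ⊢

end Cfg

end

end Pool.Agent.EllMod
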