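import Pool.Agent.MP_77976d_ag.Base2
import Pool.Agent.MP_77976d_ag.Ts
import Pool.Agent.MP_77976d_ag.Xs

/-! # PTS : points and residues -/

open scoped TensorProduct
open IsLocalRing

namespace Pool.Agent.EllMod

noncomputable section

variable {F : Type} [Field F] [Algebra ℂ F] (C : Cfg F)

/-- Index type of the monomials. -/
abbrev PtsIx := ℤ × ℤ × (Bool × Bool × Bool)

namespace PtsAux

variable {I : Type*} {v : I → F}

theorem sp_inf (h : LinearIndependent ℂ v) (S T : Set I) :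
    Submodule.span ℂ (v '' S) ⊓ Submodule.span ℂ (v '' T) = Submodule.span ℂ (v '' (S ∩ T)) := by
  rw [Finsupp.span_image_eq_map_linearCombination, Finsupp.span_image_eq_map_linearCombination,
    Finsupp.span_image_eq_map_linearCombination, Finsupp.supported_inter, Submodule.map_inf]
  exact h

theorem sp_sup (S T : Set I) :
    Submodule.span ℂ (v '' S) ⊔ Submodule.span ℂ (v '' T) = Submodule.span ℂ (v '' (S ∪ T)) := by
  rw [Set.image_union, Submodule.span_union]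

theorem sp_mono {S T : Set I} (h : S ⊆ T) :
    Submodule.span ℂ (v '' S) ≤ Submodule.span ℂ (v '' T) :=
  Submodule.span_mono (Set.image_mono h)

theorem sp_map {J : Type*} {w : J → F} {S : Set I} {T : Set J} {g : F}
    (h : ∀ m ∈ S, g * v m ∈ Submodule.span ℂ (w '' T)) {u : F}
    (hu : u ∈ Submodule.span ℂ (v '' S)) : g * u ∈ Submodule.span ℂ (w '' T) := by
  induction hu using Submodule.span_induction with
  | mem u hu => obtain ⟨m, hm, rfl⟩ := hu; exact h m hm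
  | zero => rw [mul_zero]; exact zero_mem _
  | add a b _ _ ha hb => rw [mul_add]; exact add_mem ha hb
  | smul c a _ ha => rw [mul_smul_comm]; exact Submodule.smul_mem _ c ha

/-- A subalgebra generated by `X` is contained in the span of monomials. -/
theorem adj_le {X : Set F} {S : Set I} (h1 : (1 : F) ∈ Submodule.span ℂ (v '' S))
    (h : ∀ g ∈ X, ∀ m ∈ S, g * v m ∈ Submodule.span ℂ (v '' S)) :
    ∀ y ∈ Algebra.adjoin ℂ X, y ∈ Submodule.span ℂ (v '' S) :=
  Cfg.adjoin_le_of_stable X _ h1 fun g hg _ hm => sp_map (h g hg) hm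

end PtsAux

open PtsAux

namespace Cfg

/-- The monomials `t^a x^b e_y`. -/
def pts_mo (m : PtsIx) : F := C.t ^ m.1 * C.x ^ m.2.1 * C.e m.2.2

theorem pts_mo_li : LinearIndependent ℂ C.pts_mo := C.mono_li

/-- span of monomials -/
def pts_sp (S : Set PtsIx) : Submodule ℂ F := Submodule.span ℂ (C.pts_mo '' S)

theorem pts_mo_mem_sp {S : Set PtsIx} {m : PtsIx} (h : m ∈ S) : C.pts_mo m ∈ C.pts_sp S :=
  Submodule.subset_span ⟨m, h, rfl⟩

theorem Pts_t_ne : C.t ≠ 0 := by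
  have := C.indep.ne_zero (0 : Fin 2)
  simpa using this

theorem Pts_x_ne : C.x ≠ 0 := by
  have := C.indep.ne_zero (1 : Fin 2)
  simpa using this

theorem pts_mo_one : C.pts_mo (0, 0, false, false, false) = 1 := by simp [pts_mo, e]

theorem pts_zpow_mo (k l a b : ℤ) (y : Bool × Bool × Bool) :
    C.t ^ k * C.x ^ l * C.pts_mo (a, b, y) = C.pts_mo (k + a, l + b, y) := by
  simp only [pts_mo]
  rw [zpow_add₀ C.Pts_t_ne, zpow_add₀ C.Pts_x_ne]; ring

theorem pts_t_mo (a b : ℤ) (y : Bool × Bool × Bool) : C.t * C.pts_mo (a, b, y) = C.pts_mo (a + 1, b, y) := by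
  simp only [pts_mo]
  rw [zpow_add₀ C.Pts_t_ne, zpow_one]; ring

theorem pts_tinv_mo (a b : ℤ) (y : Bool × Bool × Bool) :
    C.t⁻¹ * C.pts_mo (a, b, y) = C.pts_mo (a + -1, b, y) := by
  simp only [pts_mo]
  rw [zpow_add₀ C.Pts_t_ne, zpow_neg_one]; ring

theorem pts_x_mo (a b : ℤ) (y : Bool × Bool × Bool) : C.x * C.pts_mo (a, b, y) = C.pts_mo (a, b + 1, y) := by
  simp only [pts_mo]
  rw [zpow_add₀ C.Pts_x_ne, zpow_one]; ring

theorem pts_xinv_mo (a b : ℤ) (y : Bool × Bool × Bool) :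
    C.x⁻¹ * C.pts_mo (a, b, y) = C.pts_mo (a, b + -1, y) := by
  simp only [pts_mo]
  rw [zpow_add₀ C.Pts_x_ne, zpow_neg_one]; ring

theorem pts_s_mo_false (a b : ℤ) (y : Bool × Bool) :
    C.s * C.pts_mo (a, b, false, y) = C.pts_mo (a, b, true, y) := by
  simp only [pts_mo, e, if_true, Bool.false_eq_true, if_false]; ring

theorem pts_s_mo_true (a b : ℤ) (y : Bool × Bool) :
    C.s * C.pts_mo (a, b, true, y) = C.pts_mo (a + (6 : ℕ), b, false, y) +
      (-2 : ℂ) • C.pts_mo (a + (5 : ℕ), b, false, y) + C.pts_mo (a + (4 : ℕ), b, false, y) +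
      (2 : ℂ) • C.pts_mo (a + (3 : ℕ), b, false, y) + (2 : ℂ) • C.pts_mo (a + (2 : ℕ), b, false, y) +
      C.pts_mo (a, b, false, y) := by
  simp only [pts_mo, e, if_true, Bool.false_eq_true, if_false, zpow_add₀ C.Pts_t_ne, zpow_natCast,
    Algebra.smul_def, map_neg, map_ofNat]
  linear_combination (C.t ^ a * C.x ^ b * (if y.1 then C.p else 1) *
    (if y.2 then C.q else 1)) * C.hs

theorem pts_p_mo_false (a b : ℤ) (c d : Bool) :
    C.p * C.pts_mo (a, b, c, false, d) = C.pts_mo (a, b, c, true, d) := by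
  simp only [pts_mo, e, if_true, Bool.false_eq_true, if_false]; ring

theorem pts_p_mo_true (a b : ℤ) (c d : Bool) :
    C.p * C.pts_mo (a, b, c, true, d) = C.pts_mo (a, b + (2 : ℕ), c, false, d) +
      C.pts_mo (a, b, c, false, d) := by
  simp only [pts_mo, e, if_true, Bool.false_eq_true, if_false, zpow_add₀ C.Pts_x_ne, zpow_natCast]
  linear_combination (C.t ^ a * C.x ^ b * (if c then C.s else 1) *
    (if d then C.q else 1)) * C.hp

theorem pts_q_mo_false (a b : ℤ) (c d : Bool) :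
    C.q * C.pts_mo (a, b, c, d, false) = C.pts_mo (a, b, c, d, true) := by
  simp only [pts_mo, e, if_true, Bool.false_eq_true, if_false]; ring

theorem pts_q_mo_true (a b : ℤ) (c d : Bool) :
    C.q * C.pts_mo (a, b, c, d, true) = C.pts_mo (a, b + (2 : ℕ), c, d, false) -
      C.pts_mo (a, b, c, d, false) := by
  simp only [pts_mo, e, if_true, Bool.false_eq_true, if_false, zpow_add₀ C.Pts_x_ne, zpow_natCast]
  linear_combination (C.t ^ a * C.x ^ b * (if c then C.s else 1) *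
    (if d then C.p else 1)) * C.hq

/-- index sets given by two conditions -/
def pts_bx (A B : ℤ → Prop) : Set PtsIx := {m | A m.1 ∧ B m.2.1}

/-- multiplication by `s` -/
theorem pts_s_st {A B : ℤ → Prop} (hA : ∀ (a : ℤ) (n : ℕ), A a → A (a + n)) (m : PtsIx)
    (hm : m ∈ pts_bx A B) : C.s * C.pts_mo m ∈ C.pts_sp (pts_bx A B) := by
  obtain ⟨a, b, c, y⟩ := m
  obtain ⟨h1, h2⟩ := hm
  cases c
  · rw [pts_s_mo_false]; exact C.pts_mo_mem_sp ⟨h1, h2⟩
  · rw [pts_s_mo_true]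
    have key : ∀ n : ℕ, C.pts_mo (a + n, b, false, y) ∈ C.pts_sp (pts_bx A B) := fun n =>
      C.pts_mo_mem_sp ⟨hA a n h1, h2⟩
    exact add_mem (add_mem (add_mem (add_mem (add_mem (key 6) (Submodule.smul_mem _ _ (key 5)))
      (key 4)) (Submodule.smul_mem _ _ (key 3))) (Submodule.smul_mem _ _ (key 2)))
      (C.pts_mo_mem_sp ⟨h1, h2⟩)

theorem pts_p_st {A B : ℤ → Prop} (hB : ∀ (a : ℤ) (n : ℕ), B a → B (a + n)) (m : PtsIx)
    (hm : m ∈ pts_bx A B) : C.p * C.pts_mo m ∈ C.pts_sp (pts_bx A B) := by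
  obtain ⟨a, b, c, d, f⟩ := m
  obtain ⟨h1, h2⟩ := hm
  cases d
  · rw [pts_p_mo_false]; exact C.pts_mo_mem_sp ⟨h1, h2⟩
  · rw [pts_p_mo_true]
    exact add_mem (C.pts_mo_mem_sp ⟨h1, hB b 2 h2⟩) (C.pts_mo_mem_sp ⟨h1, h2⟩)

theorem pts_q_st {A B : ℤ → Prop} (hB : ∀ (a : ℤ) (n : ℕ), B a → B (a + n)) (m : PtsIx)
    (hm : m ∈ pts_bx A B) : C.q * C.pts_mo m ∈ C.pts_sp (pts_bx A B) := by
  obtain ⟨a, b, c, d, f⟩ := m
  obtain ⟨h1, h2⟩ := hm
  cases f
  · rw [pts_q_mo_false]; exact C.pts_mo_mem_sp ⟨h1, h2⟩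
  · rw [pts_q_mo_true]
    exact sub_mem (C.pts_mo_mem_sp ⟨h1, hB b 2 h2⟩) (C.pts_mo_mem_sp ⟨h1, h2⟩)

/-- general inclusion -/
theorem pts_adj_bx {A B : ℤ → Prop} (hA : ∀ (a : ℤ) (n : ℕ), A a → A (a + n))
    (hB : ∀ (a : ℤ) (n : ℕ), B a → B (a + n)) (h0 : A 0) (h0' : B 0) {X : Set F}
    (hX : ∀ g ∈ X, g = C.t ∨ g = C.x ∨ g = C.s ∨ g = C.p ∨ g = C.q ∨
      (g = C.t⁻¹ ∧ ∀ a, A a → A (a + -1)) ∨ (g = C.x⁻¹ ∧ ∀ a, B a → B (a + -1))) :
    ∀ y ∈ Algebra.adjoin ℂ X, y ∈ C.pts_sp (pts_bx A B) := by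
  refine adj_le ?_ ?_
  · rw [← C.pts_mo_one]
    exact C.pts_mo_mem_sp ⟨h0, h0'⟩
  · intro g hg m hm
    rcases hX g hg with rfl | rfl | rfl | rfl | rfl | ⟨rfl, h⟩ | ⟨rfl, h⟩
    · obtain ⟨a, b, y⟩ := m
      rw [pts_t_mo]
      exact C.pts_mo_mem_sp ⟨by have := hA a 1 hm.1; simpa using this, hm.2⟩
    · obtain ⟨a, b, y⟩ := m
      rw [pts_x_mo]
      exact C.pts_mo_mem_sp ⟨hm.1, by have := hB b 1 hm.2; simpa using this⟩
    · exact C.pts_s_st hA m hm
    · exact C.pts_p_st hB m hm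
    · exact C.pts_q_st hB m hm
    · obtain ⟨a, b, y⟩ := m
      rw [pts_tinv_mo]
      exact C.pts_mo_mem_sp ⟨h a hm.1, hm.2⟩
    · obtain ⟨a, b, y⟩ := m
      rw [pts_xinv_mo]
      exact C.pts_mo_mem_sp ⟨hm.1, h b hm.2⟩

theorem pts_sp_le_alg {S : Set PtsIx} {A : Subalgebra ℂ F} (h : ∀ m ∈ S, C.pts_mo m ∈ A) :
    C.pts_sp S ≤ sm A := by
  rw [pts_sp, Submodule.span_le]
  rintro _ ⟨m, hm, rfl⟩
  exact h m hm

theorem pts_e_mem {A : Subalgebra ℂ F} (hs : C.s ∈ A) (hp : C.p ∈ A) (hq : C.q ∈ A)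
    (y : Bool × Bool × Bool) : C.e y ∈ A := by
  unfold e
  refine mul_mem (mul_mem ?_ ?_) ?_ <;> split_ifs <;> first | assumption | exact one_mem _

theorem pts_B00_sp : sm (C.B false false) = C.pts_sp (pts_bx (0 ≤ ·) (0 ≤ ·)) := by
  apply le_antisymm
  · intro v hv
    have hv' : v ∈ Algebra.adjoin ℂ {C.t, C.s, C.x, C.p, C.q} := by rw [← B00_eq]; exact hv
    refine C.pts_adj_bx (fun a n h => by omega) (fun a n h => by omega) le_rfl le_rfl ?_ v hv'
    intro g hg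
    simp only [Set.mem_insert_iff, Set.mem_singleton_iff] at hg
    tauto
  · apply C.pts_sp_le_alg
    rintro ⟨a, b, y⟩ ⟨h1, h2⟩
    simp only at h1 h2
    lift a to ℕ using h1
    lift b to ℕ using h2
    simp only [pts_mo, zpow_natCast]
    exact mul_mem (mul_mem (pow_mem C.t_mem a) (pow_mem C.x_mem b))
      (C.pts_e_mem C.s_mem C.p_mem C.q_mem y)

theorem pts_OF_false_adj : C.OF false = Algebra.adjoin ℂ {C.x, C.p, C.q} := by
  simp [OF, Xc, P, Q, coord]

theorem pts_OC_false_adj : C.OC false = Algebra.adjoin ℂ {C.t, C.s} := by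
  simp [OC, T, S, coord]

theorem pts_BT_adj : C.BT false = Algebra.adjoin ℂ ({C.t, C.t⁻¹, C.s} ∪ {C.x, C.p, C.q}) := by
  rw [BT, OCs, pts_OF_false_adj, Algebra.adjoin_union]

theorem pts_BX_adj : C.BX = Algebra.adjoin ℂ ({C.t, C.s} ∪ {C.x, C.x⁻¹, C.p, C.q}) := by
  rw [BX, OFs, pts_OC_false_adj, Algebra.adjoin_union]

theorem pts_BS_adj : C.BS = Algebra.adjoin ℂ ({C.t, C.t⁻¹, C.s} ∪ {C.x, C.x⁻¹, C.p, C.q}) := by
  rw [BS, OFs, OCs, Algebra.adjoin_union]

theorem pts_BT_sp : sm (C.BT false) = C.pts_sp (pts_bx (fun _ => True) (0 ≤ ·)) := by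
  rw [pts_BT_adj]
  apply le_antisymm
  · intro v hv
    refine C.pts_adj_bx (fun a n h => trivial) (fun a n h => by omega) trivial le_rfl ?_ v hv
    intro g hg
    simp only [Set.mem_union, Set.mem_insert_iff, Set.mem_singleton_iff] at hg
    simp only [forall_const, and_true]
    tauto
  · apply C.pts_sp_le_alg
    rintro ⟨a, b, y⟩ ⟨h1, h2⟩
    simp only at h1 h2
    lift b to ℕ using h2
    simp only [pts_mo, zpow_natCast]
    have ht : C.t ∈ Algebra.adjoin ℂ ({C.t, C.t⁻¹, C.s} ∪ {C.x, C.p, C.q}) :=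
      Algebra.subset_adjoin (by simp)
    have ht' : C.t⁻¹ ∈ Algebra.adjoin ℂ ({C.t, C.t⁻¹, C.s} ∪ {C.x, C.p, C.q}) :=
      Algebra.subset_adjoin (by simp)
    refine mul_mem (mul_mem ?_ (pow_mem (Algebra.subset_adjoin (by simp)) b)) (C.pts_e_mem
      (Algebra.subset_adjoin (by simp)) (Algebra.subset_adjoin (by simp))
      (Algebra.subset_adjoin (by simp)) y)
    obtain ⟨n, rfl | rfl⟩ := a.eq_nat_or_neg
    · rw [zpow_natCast]; exact pow_mem ht n
    · rw [zpow_neg, zpow_natCast, ← inv_pow]; exact pow_mem ht' n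

theorem pts_BX_sp : sm C.BX = C.pts_sp (pts_bx (0 ≤ ·) (fun _ => True)) := by
  rw [pts_BX_adj]
  apply le_antisymm
  · intro v hv
    refine C.pts_adj_bx (fun a n h => by omega) (fun a n h => trivial) le_rfl trivial ?_ v hv
    intro g hg
    simp only [Set.mem_union, Set.mem_insert_iff, Set.mem_singleton_iff] at hg
    simp only [forall_const, and_true]
    tauto
  · apply C.pts_sp_le_alg
    rintro ⟨a, b, y⟩ ⟨h1, h2⟩
    simp only at h1 h2
    lift a to ℕ using h1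
    simp only [pts_mo, zpow_natCast]
    have ht : C.x ∈ Algebra.adjoin ℂ ({C.t, C.s} ∪ {C.x, C.x⁻¹, C.p, C.q}) :=
      Algebra.subset_adjoin (by simp)
    have ht' : C.x⁻¹ ∈ Algebra.adjoin ℂ ({C.t, C.s} ∪ {C.x, C.x⁻¹, C.p, C.q}) :=
      Algebra.subset_adjoin (by simp)
    refine mul_mem (mul_mem (pow_mem (Algebra.subset_adjoin (by simp)) a) ?_) (C.pts_e_mem
      (Algebra.subset_adjoin (by simp)) (Algebra.subset_adjoin (by simp))
      (Algebra.subset_adjoin (by simp)) y)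
    obtain ⟨n, rfl | rfl⟩ := b.eq_nat_or_neg
    · rw [zpow_natCast]; exact pow_mem ht n
    · rw [zpow_neg, zpow_natCast, ← inv_pow]; exact pow_mem ht' n

theorem pts_BS_sp_le : sm C.BS ≤ C.pts_sp (pts_bx (fun _ => True) (fun _ => True)) := by
  rw [pts_BS_adj]
  intro v hv
  refine C.pts_adj_bx (fun a n h => trivial) (fun a n h => trivial) trivial trivial ?_ v hv
  intro g hg
  simp only [Set.mem_union, Set.mem_insert_iff, Set.mem_singleton_iff] at hg
  simp only [forall_const, and_true]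
  tauto

theorem BT_inf_BX : C.BT false ⊓ C.BX = C.B false false := by
  have h : sm (C.BT false) ⊓ sm C.BX = sm (C.B false false) := by
    rw [pts_BT_sp, pts_BX_sp, pts_B00_sp]
    unfold pts_sp
    rw [sp_inf C.pts_mo_li]
    congr 2
    ext m
    simp [pts_bx, and_comm]
  apply Subalgebra.toSubmodule_injective
  exact h

theorem pts_BT_sup_BX : sm (C.BT false) ⊔ sm C.BX = C.pts_sp {m | 0 ≤ m.1 ∨ 0 ≤ m.2.1} := by
  rw [pts_BT_sp, pts_BX_sp]
  unfold pts_sp
  rw [sp_sup]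
  congr 2
  ext m
  simp [pts_bx, or_comm]

/-- Division of a span by a monomial. -/
theorem pts_sp_div {S : Set PtsIx} (k l : ℤ) {u : F} (h : C.t ^ k * C.x ^ l * u ∈ C.pts_sp S) :
    u ∈ C.pts_sp {m | ((m.1 + k, m.2.1 + l, m.2.2) : PtsIx) ∈ S} := by
  have h1 : u = (C.t ^ (-k) * C.x ^ (-l)) * (C.t ^ k * C.x ^ l * u) := by
    have ht := C.Pts_t_ne
    have hx := C.Pts_x_ne
    rw [zpow_neg, zpow_neg]
    have h2 : C.t ^ k ≠ 0 := zpow_ne_zero _ ht
    have h3 : C.x ^ l ≠ 0 := zpow_ne_zero _ hx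
    field_simp
  rw [h1]
  refine sp_map (g := C.t ^ (-k) * C.x ^ (-l)) ?_ h
  rintro ⟨a, b, y⟩ hm
  rw [pts_zpow_mo]
  exact C.pts_mo_mem_sp (by
    show ((-k + a + k, -l + b + l, y) : PtsIx) ∈ S
    have : ((-k + a + k, -l + b + l, y) : PtsIx) = (a, b, y) := by ext <;> simp
    rw [this]
    exact hm)

theorem koszul (a b : F) (ha : a ∈ C.B false false) (hb : b ∈ C.B false false)
    (h : C.t * a + C.x * b = 0) : ∃ c ∈ C.B false false, a = C.x * c ∧ b = -(C.t * c) := by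
  have ht := C.Pts_t_ne
  have hx := C.Pts_x_ne
  have ha' : a ∈ C.pts_sp (pts_bx (0 ≤ ·) (0 ≤ ·)) := by rw [← pts_B00_sp]; exact ha
  have hb' : b ∈ C.pts_sp (pts_bx (0 ≤ ·) (0 ≤ ·)) := by rw [← pts_B00_sp]; exact hb
  have h1 : C.t * a ∈ C.pts_sp (pts_bx (1 ≤ ·) (0 ≤ ·)) := by
    refine sp_map ?_ ha'
    rintro ⟨k, l, y⟩ ⟨h1, h2⟩
    simp only at h1 h2
    rw [pts_t_mo]
    exact C.pts_mo_mem_sp ⟨by show 1 ≤ k + 1; omega, h2⟩
  have h2 : C.t * a ∈ C.pts_sp (pts_bx (0 ≤ ·) (1 ≤ ·)) := by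
    have e1 : C.t * a = (-C.x) * b := by linear_combination h
    rw [e1]
    refine sp_map ?_ hb'
    rintro ⟨k, l, y⟩ ⟨h1, h2⟩
    simp only at h1 h2
    rw [neg_mul, pts_x_mo]
    exact neg_mem (C.pts_mo_mem_sp ⟨h1, by show 1 ≤ l + 1; omega⟩)
  have h3 : C.t * a ∈ C.pts_sp (pts_bx (1 ≤ ·) (0 ≤ ·) ∩ pts_bx (0 ≤ ·) (1 ≤ ·)) := by
    unfold pts_sp
    rw [← sp_inf C.pts_mo_li]
    exact ⟨h1, h2⟩
  have h4 : C.t ^ (1 : ℤ) * C.x ^ (1 : ℤ) * (C.x⁻¹ * a) = C.t * a := by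
    rw [zpow_one, zpow_one]; field_simp
  rw [← h4] at h3
  have h5 := C.pts_sp_div 1 1 h3
  refine ⟨C.x⁻¹ * a, ?_, by field_simp, ?_⟩
  · show _ ∈ sm (C.B false false)
    rw [pts_B00_sp]
    refine sp_mono ?_ h5
    rintro ⟨k, l, y⟩ hm
    obtain ⟨⟨h6, h7⟩, h8, h9⟩ := hm
    simp only at h6 h7 h8 h9
    exact ⟨by show 0 ≤ k; omega, by show 0 ≤ l; omega⟩
  · field_simp
    linear_combination h

/-- The linear combinations of the eight elements. -/
theorem pts_sp_zero {u : F} (h : u ∈ C.pts_sp {m | m.1 = 0 ∧ m.2.1 = 0}) :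
    ∃ c : Bool × Bool × Bool → ℂ, u = ∑ y, c y • C.e y := by
  unfold pts_sp at h
  induction h using Submodule.span_induction with
  | mem u hu =>
    obtain ⟨⟨a, b, y⟩, ⟨h1, h2⟩, rfl⟩ := hu
    simp only at h1 h2
    subst h1 h2
    refine ⟨Pi.single y 1, ?_⟩
    rw [Finset.sum_eq_single y]
    · simp [pts_mo]
    · intro z _ hz
      rw [Pi.single_eq_of_ne hz, zero_smul]
    · intro h; exact absurd (Finset.mem_univ _) h
  | zero => exact ⟨0, by simp⟩
  | add a b _ _ ha hb =>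
    obtain ⟨c, rfl⟩ := ha
    obtain ⟨d, rfl⟩ := hb
    exact ⟨c + d, by simp [add_smul, Finset.sum_add_distrib]⟩
  | smul r a _ ha =>
    obtain ⟨c, rfl⟩ := ha
    exact ⟨r • c, by simp [Finset.smul_sum, smul_smul]⟩

/-! ### evaluation -/

theorem ev_mul (y : Bool × Bool × Bool) (v w : F) (hv : v ∈ C.B false false)
    (hw : w ∈ C.B false false) : C.ev y (v * w) = C.ev y v * C.ev y w := by
  rw [C.ev_eq y v hv, C.ev_eq y w hw, C.ev_eq y (v * w) (mul_mem hv hw), ← map_mul]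
  rfl

theorem pts_ev_t (y : Bool × Bool × Bool) : C.ev y C.t = 0 := by
  rw [C.ev_eq y _ C.t_mem, lift_t]; rfl
theorem pts_ev_x (y : Bool × Bool × Bool) : C.ev y C.x = 0 := by
  rw [C.ev_eq y _ C.x_mem, lift_x]; rfl
theorem pts_ev_s (y : Bool × Bool × Bool) : C.ev y C.s = sg y.1 := by
  rw [C.ev_eq y _ C.s_mem, lift_s]; rfl
theorem pts_ev_p (y : Bool × Bool × Bool) : C.ev y C.p = sg y.2.1 := by
  rw [C.ev_eq y _ C.p_mem, lift_p]; rfl
theorem pts_ev_q (y : Bool × Bool × Bool) : C.ev y C.q = sg y.2.2 * Complex.I := by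
  rw [C.ev_eq y _ C.q_mem, lift_q]; rfl
theorem pts_ev_one (y : Bool × Bool × Bool) : C.ev y 1 = 1 := by
  rw [C.ev_eq y _ (one_mem _)]
  exact map_one _

/-- `e_y` at the point `z`. -/
def pts_chi (z y : Bool × Bool × Bool) : ℂ :=
  (if y.1 then sg z.1 else 1) * (if y.2.1 then sg z.2.1 else 1) *
    (if y.2.2 then sg z.2.2 * Complex.I else 1)

/-- the inverse matrix of `pts_chi` up to the factor `8` -/
def pts_psi (z y : Bool × Bool × Bool) : ℂ :=
  (if y.1 then sg z.1 else 1) * (if y.2.1 then sg z.2.1 else 1) *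
    (if y.2.2 then -(sg z.2.2 * Complex.I) else 1)

theorem pts_psi_chi (y w : Bool × Bool × Bool) :
    ∑ z, pts_psi z y * pts_chi z w = if y = w then 8 else 0 := by
  obtain ⟨a, b, c⟩ := y
  obtain ⟨a', b', c'⟩ := w
  simp only [Fintype.sum_prod_type, Fintype.sum_bool]
  cases a <;> cases b <;> cases c <;> cases a' <;> cases b' <;> cases c' <;>
    simp [pts_psi, pts_chi, sg] <;> ring_nf

theorem pts_chi_psi (z w : Bool × Bool × Bool) :
    ∑ y, pts_chi z y * pts_psi w y = if z = w then 8 else 0 := by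
  obtain ⟨a, b, c⟩ := z
  obtain ⟨a', b', c'⟩ := w
  simp only [Fintype.sum_prod_type, Fintype.sum_bool]
  cases a <;> cases b <;> cases c <;> cases a' <;> cases b' <;> cases c' <;>
    simp [pts_psi, pts_chi, sg] <;> ring_nf

theorem pts_e_mem_B (y : Bool × Bool × Bool) : C.e y ∈ C.B false false :=
  C.pts_e_mem C.s_mem C.p_mem C.q_mem y

theorem pts_ev_e (z y : Bool × Bool × Bool) : C.ev z (C.e y) = pts_chi z y := by
  have hs : (if y.1 then C.s else 1) ∈ C.B false false := by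
    split_ifs
    · exact C.s_mem
    · exact one_mem _
  have hp : (if y.2.1 then C.p else 1) ∈ C.B false false := by
    split_ifs
    · exact C.p_mem
    · exact one_mem _
  have hq : (if y.2.2 then C.q else 1) ∈ C.B false false := by
    split_ifs
    · exact C.q_mem
    · exact one_mem _
  unfold e pts_chi
  rw [C.ev_mul z _ _ (mul_mem hs hp) hq, C.ev_mul z _ _ hs hp]
  congr 1
  · congr 1
    · split_ifs
      · exact C.pts_ev_s z
      · exact C.pts_ev_one z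
    · split_ifs
      · exact C.pts_ev_p z
      · exact C.pts_ev_one z
  · split_ifs
    · exact C.pts_ev_q z
    · exact C.pts_ev_one z

/-- The coefficients of a combination of the `e_y` from its values. -/
theorem pts_coef_eq (c : Bool × Bool × Bool → ℂ) (y : Bool × Bool × Bool) :
    ∑ z, pts_psi z y * C.ev z (∑ w, c w • C.e w) = 8 * c y := by
  simp only [map_sum, map_smul, smul_eq_mul, pts_ev_e, Finset.mul_sum]
  rw [Finset.sum_comm]
  have h1 : ∀ w, ∑ z, pts_psi z y * (c w * pts_chi z w) = c w * (if y = w then 8 else 0) := by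
    intro w
    rw [← pts_psi_chi, Finset.mul_sum]
    exact Finset.sum_congr rfl fun z _ => by ring
  simp only [h1]
  simp [mul_comm]

theorem ev_surj (c : Bool × Bool × Bool → ℂ) : ∃ v ∈ C.B false false, ∀ y, C.ev y v = c y := by
  refine ⟨∑ y, ((1 / 8 : ℂ) * ∑ w, pts_psi w y * c w) • C.e y, ?_, ?_⟩
  · exact sum_mem fun y _ => Subalgebra.smul_mem _ (C.pts_e_mem_B y) _
  · intro z
    simp only [map_sum, map_smul, smul_eq_mul, pts_ev_e]
    have h1 : ∀ y, (1 / 8 : ℂ) * (∑ w, pts_psi w y * c w) * pts_chi z y =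
        ∑ w, (1 / 8 : ℂ) * c w * (pts_chi z y * pts_psi w y) := by
      intro y
      rw [Finset.mul_sum, Finset.sum_mul]
      exact Finset.sum_congr rfl fun w _ => by ring
    simp only [h1]
    rw [Finset.sum_comm]
    simp only [← Finset.mul_sum, pts_chi_psi]
    simp only [mul_ite, mul_zero, Finset.sum_ite_eq, Finset.mem_univ, if_true]
    ring

theorem ev_ι (y : Bool × Bool × Bool) (v : F) (hv : v ∈ C.B false false) :
    C.ev y (C.ι v) = C.ev (!y.1, !y.2.1, !y.2.2) v := by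
  have h1 : ∀ w ∈ C.B false false, C.ι w ∈ C.B false false := by
    intro w hw
    have h2 : C.B false false ≤ (C.B false false).comap C.ι.toAlgHom := by
      conv_lhs => rw [B00_eq]
      rw [Algebra.adjoin_le_iff]
      intro g hg
      show C.ι g ∈ C.B false false
      simp only [Set.mem_insert_iff, Set.mem_singleton_iff] at hg
      rcases hg with rfl | rfl | rfl | rfl | rfl
      · rw [ι_t]; exact C.t_mem
      · rw [ι_s]; exact neg_mem C.s_mem
      · rw [ι_x]; exact C.x_mem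
      · rw [ι_p]; exact neg_mem C.p_mem
      · rw [ι_q]; exact neg_mem C.q_mem
    exact h2 hw
  let f : ↥(C.B false false) →ₐ[ℂ] ↥(C.B false false) :=
    (C.ι.toAlgHom.comp (C.B false false).val).codRestrict _ fun w => h1 w w.2
  have hf : ∀ w (hw : w ∈ C.B false false), f ⟨w, hw⟩ = ⟨C.ι w, h1 w hw⟩ := fun w hw => rfl
  have hsg : ∀ b : Bool, sg (!b) = -sg b := by intro b; cases b <;> simp [sg]
  have h3 : (C.lift (pt y)).comp f = C.lift (pt (!y.1, !y.2.1, !y.2.2)) := by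
    apply C.lift_ext
    · rw [AlgHom.comp_apply, hf, lift_t]
      have : (⟨C.ι C.t, h1 _ C.t_mem⟩ : ↥(C.B false false)) = ⟨C.t, C.t_mem⟩ :=
        Subtype.ext C.ι_t
      rw [this, lift_t]; rfl
    · rw [AlgHom.comp_apply, hf, lift_x]
      have : (⟨C.ι C.x, h1 _ C.x_mem⟩ : ↥(C.B false false)) = ⟨C.x, C.x_mem⟩ :=
        Subtype.ext C.ι_x
      rw [this, lift_x]; rfl
    · rw [AlgHom.comp_apply, hf, lift_s]
      have : (⟨C.ι C.s, h1 _ C.s_mem⟩ : ↥(C.B false false)) = -⟨C.s, C.s_mem⟩ :=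
        Subtype.ext C.ι_s
      rw [this, map_neg, lift_s]
      exact (hsg _).symm
    · rw [AlgHom.comp_apply, hf, lift_p]
      have : (⟨C.ι C.p, h1 _ C.p_mem⟩ : ↥(C.B false false)) = -⟨C.p, C.p_mem⟩ :=
        Subtype.ext C.ι_p
      rw [this, map_neg, lift_p]
      exact (hsg _).symm
    · rw [AlgHom.comp_apply, hf, lift_q]
      have : (⟨C.ι C.q, h1 _ C.q_mem⟩ : ↥(C.B false false)) = -⟨C.q, C.q_mem⟩ :=
        Subtype.ext C.ι_q
      rw [this, map_neg, lift_q]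
      show -(sg y.2.2 * Complex.I) = sg (!y.2.2) * Complex.I
      rw [hsg, neg_mul]
  rw [C.ev_eq y _ (h1 v hv), C.ev_eq _ v hv, ← h3]
  rfl

theorem der_mul (α β : ℂ) (v w : F) (hv : v ∈ C.B false false) (hw : w ∈ C.B false false) :
    C.der α β (v * w) = C.ev y0 v * C.der α β w + C.der α β v * C.ev y0 w := by
  rw [C.der_eq α β v hv, C.der_eq α β w hw, C.der_eq α β (v * w) (mul_mem hv hw),
    C.ev_eq y0 v hv, C.ev_eq y0 w hw]
  have h0 : (⟨v * w, mul_mem hv hw⟩ : ↥(C.B false false)) = ⟨v, hv⟩ * ⟨w, hw⟩ := rfl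
  rw [h0, map_mul]
  let g : D 1 →ₐ[ℂ] ℂ :=
    { toFun := fun a => a.fst
      map_one' := rfl
      map_mul' := fun a b => D.fst_mul a b
      map_zero' := rfl
      map_add' := fun a b => D.fst_add a b
      commutes' := fun r => rfl }
  have h1 : g.comp (C.lift (ptE α β)) = C.lift (pt y0) := by
    apply C.lift_ext
    · rw [AlgHom.comp_apply, lift_t, lift_t]; rfl
    · rw [AlgHom.comp_apply, lift_x, lift_x]; rfl
    · rw [AlgHom.comp_apply, lift_s, lift_s]; rfl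
    · rw [AlgHom.comp_apply, lift_p, lift_p]; rfl
    · rw [AlgHom.comp_apply, lift_q, lift_q]
      show Complex.I = sg true * Complex.I
      simp [sg]
  have h2 : ∀ u, (C.lift (ptE α β) u).fst = C.lift (pt y0) u := fun u => by
    rw [← h1]; rfl
  rw [D.snd_mul, Pi.add_apply, Pi.smul_apply, Pi.smul_apply, h2, h2, smul_eq_mul, smul_eq_mul]
  ring

theorem mem_tx (v : F) (hv : v ∈ C.B false false) (h : ∀ y, C.ev y v = 0) :
    ∃ a ∈ C.B false false, ∃ b ∈ C.B false false, v = C.t * a + C.x * b := by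
  have hv' : v ∈ C.pts_sp (pts_bx (0 ≤ ·) (0 ≤ ·)) := by rw [← pts_B00_sp]; exact hv
  have key : ∀ u ∈ C.pts_sp (pts_bx (0 ≤ ·) (0 ≤ ·)), ∃ a ∈ C.B false false, ∃ b ∈ C.B false false,
      ∃ c : Bool × Bool × Bool → ℂ, u = C.t * a + C.x * b + ∑ y, c y • C.e y := by
    intro u hu
    unfold pts_sp at hu
    induction hu using Submodule.span_induction with
    | mem u hu =>
      obtain ⟨⟨a, b, y⟩, ⟨h1, h2⟩, rfl⟩ := hu
      simp only at h1 h2
      by_cases ha : a = 0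
      · by_cases hb : b = 0
        · subst ha hb
          obtain ⟨c, hc⟩ := C.pts_sp_zero (u := C.pts_mo (0, 0, y)) (C.pts_mo_mem_sp ⟨rfl, rfl⟩)
          exact ⟨0, zero_mem _, 0, zero_mem _, c, by rw [hc]; simp⟩
        · refine ⟨0, zero_mem _, C.pts_mo (a, b + -1, y), ?_, 0, ?_⟩
          · show _ ∈ sm (C.B false false)
            rw [pts_B00_sp]
            exact C.pts_mo_mem_sp ⟨h1, by show 0 ≤ b + -1; omega⟩
          · rw [pts_x_mo]; simp
      · refine ⟨C.pts_mo (a + -1, b, y), ?_, 0, zero_mem _, 0, ?_⟩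
        · show _ ∈ sm (C.B false false)
          rw [pts_B00_sp]
          exact C.pts_mo_mem_sp ⟨by show 0 ≤ a + -1; omega, h2⟩
        · rw [pts_t_mo]; simp
    | zero => exact ⟨0, zero_mem _, 0, zero_mem _, 0, by simp⟩
    | add u w _ _ hu hw =>
      obtain ⟨a, ha, b, hb, c, rfl⟩ := hu
      obtain ⟨a', ha', b', hb', c', rfl⟩ := hw
      refine ⟨a + a', add_mem ha ha', b + b', add_mem hb hb', c + c', ?_⟩
      simp only [Pi.add_apply, add_smul, Finset.sum_add_distrib]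
      ring
    | smul r u _ hu =>
      obtain ⟨a, ha, b, hb, c, rfl⟩ := hu
      refine ⟨r • a, Subalgebra.smul_mem _ ha _, r • b, Subalgebra.smul_mem _ hb _, r • c, ?_⟩
      simp only [smul_add, Finset.smul_sum, Pi.smul_apply, smul_eq_mul, smul_smul,
        mul_smul_comm]
  obtain ⟨a, ha, b, hb, c, hc⟩ := key v hv'
  refine ⟨a, ha, b, hb, ?_⟩
  have h1 : ∀ z, C.ev z (∑ y, c y • C.e y) = 0 := by
    intro z
    have h2 := h z
    rw [hc, map_add, map_add, C.ev_mul z _ _ C.t_mem ha, C.ev_mul z _ _ C.x_mem hb, pts_ev_t,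
      pts_ev_x, zero_mul, zero_mul, zero_add, zero_add] at h2
    exact h2
  have h2 : ∀ y, c y = 0 := by
    intro y
    have h3 := C.pts_coef_eq c y
    simp only [h1, mul_zero, Finset.sum_const_zero] at h3
    have h4 : (8 : ℂ) * c y = 0 := h3.symm
    exact (mul_eq_zero.mp h4).resolve_left (by norm_num)
  rw [hc]
  simp [h2]

theorem tors (η : F) (hη : η ∈ C.BS) (ht : C.t * η ∈ sm (C.BT false) ⊔ sm C.BX)
    (hx : C.x * η ∈ sm (C.BT false) ⊔ sm C.BX) :
    ∃ b ∈ C.B false false, η - b * (C.t⁻¹ * C.x⁻¹) ∈ sm (C.BT false) ⊔ sm C.BX := by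
  rw [pts_BT_sup_BX] at ht hx ⊢
  have ht' : C.t ^ (1 : ℤ) * C.x ^ (0 : ℤ) * η ∈ C.pts_sp {m | 0 ≤ m.1 ∨ 0 ≤ m.2.1} := by
    simpa using ht
  have hx' : C.t ^ (0 : ℤ) * C.x ^ (1 : ℤ) * η ∈ C.pts_sp {m | 0 ≤ m.1 ∨ 0 ≤ m.2.1} := by
    simpa using hx
  have h1 := C.pts_sp_div 1 0 ht'
  have h2 := C.pts_sp_div 0 1 hx'
  have h3 : η ∈ C.pts_sp ({m : PtsIx | 0 ≤ m.1 ∨ 0 ≤ m.2.1} ∪ {m | m.1 = -1 ∧ m.2.1 = -1}) := by
    have h4 : η ∈ C.pts_sp ({m : PtsIx | ((m.1 + 1, m.2.1 + 0, m.2.2) : PtsIx) ∈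
        {m : PtsIx | 0 ≤ m.1 ∨ 0 ≤ m.2.1}} ∩ {m : PtsIx | ((m.1 + 0, m.2.1 + 1, m.2.2) : PtsIx) ∈
        {m : PtsIx | 0 ≤ m.1 ∨ 0 ≤ m.2.1}}) := by
      unfold pts_sp
      rw [← sp_inf C.pts_mo_li]
      exact ⟨h1, h2⟩
    refine sp_mono ?_ h4
    rintro ⟨a, b, y⟩ ⟨h5, h6⟩
    simp only [Set.mem_ofPred_eq, Set.mem_union] at h5 h6 ⊢
    omega
  unfold pts_sp at h3 ⊢
  rw [← sp_sup] at h3
  obtain ⟨u, hu, w, hw, rfl⟩ := Submodule.mem_sup.mp h3
  have hw' : C.t ^ (-1 : ℤ) * C.x ^ (-1 : ℤ) * (C.t * C.x * w) ∈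
      C.pts_sp {m | m.1 = -1 ∧ m.2.1 = -1} := by
    have e1 : C.t ^ (-1 : ℤ) * C.x ^ (-1 : ℤ) * (C.t * C.x * w) = w := by
      rw [zpow_neg_one, zpow_neg_one]
      have := C.Pts_t_ne
      have := C.Pts_x_ne
      field_simp
    rw [e1]; exact hw
  have hw2 := C.pts_sp_div _ _ hw'
  refine ⟨C.t * C.x * w, ?_, ?_⟩
  · show _ ∈ sm (C.B false false)
    rw [pts_B00_sp]
    refine sp_mono ?_ hw2
    rintro ⟨a, b, y⟩ ⟨h5, h6⟩
    simp only at h5 h6
    exact ⟨by show 0 ≤ a; omega, by show 0 ≤ b; omega⟩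
  · have e1 : u + w - C.t * C.x * w * (C.t⁻¹ * C.x⁻¹) = u := by
      have := C.Pts_t_ne
      have := C.Pts_x_ne
      field_simp
      ring
    rw [e1]
    exact hu

theorem pts_ev_mo_zero {a b : ℤ} (ha : 0 ≤ a) (hb : 0 ≤ b) (h : 1 ≤ a ∨ 1 ≤ b)
    (y z : Bool × Bool × Bool) : C.ev z (C.pts_mo (a, b, y)) = 0 := by
  have hm : ∀ k l : ℤ, 0 ≤ k → 0 ≤ l → C.pts_mo (k, l, y) ∈ C.B false false := by
    intro k l hk hl
    show _ ∈ sm (C.B false false)
    rw [pts_B00_sp]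
    exact C.pts_mo_mem_sp ⟨hk, hl⟩
  rcases h with h | h
  · have h1 : C.pts_mo (a, b, y) = C.t * C.pts_mo (a + -1, b, y) := by
      rw [pts_t_mo]; simp
    rw [h1, C.ev_mul z _ _ C.t_mem (hm _ _ (by omega) hb), pts_ev_t, zero_mul]
  · have h1 : C.pts_mo (a, b, y) = C.x * C.pts_mo (a, b + -1, y) := by
      rw [pts_x_mo]; simp
    rw [h1, C.ev_mul z _ _ C.x_mem (hm _ _ ha (by omega)), pts_ev_x, zero_mul]

theorem pts_ev_sp_zero (z : Bool × Bool × Bool) {u : F}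
    (hu : u ∈ C.pts_sp {m | 0 ≤ m.1 ∧ 0 ≤ m.2.1 ∧ (1 ≤ m.1 ∨ 1 ≤ m.2.1)}) : C.ev z u = 0 := by
  have h : C.pts_sp {m | 0 ≤ m.1 ∧ 0 ≤ m.2.1 ∧ (1 ≤ m.1 ∨ 1 ≤ m.2.1)} ≤ LinearMap.ker (C.ev z) := by
    rw [pts_sp, Submodule.span_le]
    rintro _ ⟨⟨a, b, y⟩, ⟨h1, h2, h3⟩, rfl⟩
    exact C.pts_ev_mo_zero h1 h2 h3 y z
  exact h hu

theorem ev_eq_zero (b : F) (hb : b ∈ C.B false false)
    (h : b * (C.t⁻¹ * C.x⁻¹) ∈ sm (C.BT false) ⊔ sm C.BX) (y : Bool × Bool × Bool) :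
    C.ev y b = 0 := by
  rw [pts_BT_sup_BX] at h
  have hb' : b ∈ C.pts_sp (pts_bx (0 ≤ ·) (0 ≤ ·)) := by rw [← pts_B00_sp]; exact hb
  have h1 : C.t ^ (-1 : ℤ) * C.x ^ (-1 : ℤ) * b ∈ C.pts_sp {m | 0 ≤ m.1 ∨ 0 ≤ m.2.1} := by
    rw [zpow_neg_one, zpow_neg_one, mul_comm]; exact h
  have h2 := C.pts_sp_div _ _ h1
  apply C.pts_ev_sp_zero
  have h4 : b ∈ C.pts_sp (pts_bx (0 ≤ ·) (0 ≤ ·) ∩ {m : PtsIx |
      ((m.1 + (-1), m.2.1 + (-1), m.2.2) : PtsIx) ∈ {m : PtsIx | 0 ≤ m.1 ∨ 0 ≤ m.2.1}}) := by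
    unfold pts_sp
    rw [← sp_inf C.pts_mo_li]
    exact ⟨hb', h2⟩
  refine sp_mono ?_ h4
  rintro ⟨a, b, y⟩ ⟨⟨h5, h6⟩, h7⟩
  simp only [Set.mem_ofPred_eq] at h5 h6 h7 ⊢
  omega

/-! ### the residue -/

/-- The index of the residue. -/
abbrev pts_m0 : PtsIx := (-1, -1, true, true, true)

theorem pts_exists_cof : ∃ f : F →ₗ[ℂ] ℂ, ∀ m, f (C.pts_mo m) = if m = pts_m0 then 1 else 0 := by
  classical
  obtain ⟨f, hf⟩ := LinearMap.exists_extend (p := Submodule.span ℂ (Set.range C.pts_mo))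
    (Finsupp.lapply pts_m0 ∘ₗ C.pts_mo_li.repr)
  refine ⟨f, fun m => ?_⟩
  have hm : C.pts_mo m ∈ Submodule.span ℂ (Set.range C.pts_mo) := Submodule.subset_span ⟨m, rfl⟩
  have h1 := congrArg (fun g => g ⟨C.pts_mo m, hm⟩) hf
  have h2 : f (C.pts_mo m) = (C.pts_mo_li.repr ⟨C.pts_mo m, hm⟩) pts_m0 := h1
  rw [h2, C.pts_mo_li.repr_eq_single m ⟨C.pts_mo m, hm⟩ rfl, Finsupp.single_apply]

theorem pts_cof_sp {f : F →ₗ[ℂ] ℂ} (hf : ∀ m, f (C.pts_mo m) = if m = pts_m0 then 1 else 0)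
    {S : Set PtsIx} (hS : pts_m0 ∉ S) {v : F} (hv : v ∈ C.pts_sp S) : f v = 0 := by
  have h : C.pts_sp S ≤ LinearMap.ker f := by
    rw [pts_sp, Submodule.span_le]
    rintro _ ⟨m, hm, rfl⟩
    show f (C.pts_mo m) = 0
    rw [hf, if_neg]
    rintro rfl
    exact hS hm
  exact h hv

theorem pts_S_mo (a b : ℤ) (y : Bool × Bool × Bool) :
    C.S true * C.pts_mo (a, b, y) = C.s * C.pts_mo (a + -(3 : ℕ), b, y) := by
  simp only [pts_mo, S, if_true]
  rw [zpow_add₀ C.Pts_t_ne, zpow_neg, zpow_natCast, inv_pow]; ring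

theorem pts_P_mo (a b : ℤ) (y : Bool × Bool × Bool) :
    C.P true * C.pts_mo (a, b, y) = C.p * C.pts_mo (a, b + -1, y) := by
  simp only [pts_mo, P, if_true]
  rw [zpow_add₀ C.Pts_x_ne, zpow_neg_one]; ring

theorem pts_Q_mo (a b : ℤ) (y : Bool × Bool × Bool) :
    C.Q true * C.pts_mo (a, b, y) = Complex.I • (C.q * C.pts_mo (a, b + -1, y)) := by
  simp only [pts_mo, Q, if_true, Algebra.smul_def, i]
  rw [zpow_add₀ C.Pts_x_ne, zpow_neg_one]; ring

/-- index set of `OC true * OFs` -/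
def pts_S1 : Set PtsIx := {m | (m.2.2.1 = false ∧ m.1 ≤ 0) ∨ (m.2.2.1 = true ∧ m.1 ≤ -3)}

/-- index set of `OCs * OF true` -/
def pts_S2 : Set PtsIx := {m | m.2.1 + (if m.2.2.2.1 then 1 else 0) + (if m.2.2.2.2 then 1 else 0) ≤ 0}

theorem pts_OC1_sp : sm (C.OC true) * sm C.OFs ≤ C.pts_sp pts_S1 := by
  have h0 : C.OC true ⊔ C.OFs =
      Algebra.adjoin ℂ ({C.T true, C.S true} ∪ {C.x, C.x⁻¹, C.p, C.q}) := by
    rw [OC, OFs, Algebra.adjoin_union]
  rw [Subalgebra.mul_toSubmodule, h0]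
  refine adj_le ?_ ?_
  · rw [← C.pts_mo_one]
    exact C.pts_mo_mem_sp (Or.inl ⟨rfl, le_rfl⟩)
  · rintro g hg ⟨a, b, c, d, f⟩ hm
    simp only [Set.mem_union, Set.mem_insert_iff, Set.mem_singleton_iff] at hg
    simp only [pts_S1, Set.mem_ofPred_eq] at hm
    rcases hg with (rfl | rfl) | rfl | rfl | rfl | rfl
    · have : C.T true = C.t⁻¹ := by simp [T, coord]
      rw [this, pts_tinv_mo]
      exact C.pts_mo_mem_sp (by
        simp only [pts_S1, Set.mem_ofPred_eq]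
        rcases hm with ⟨h1, h2⟩ | ⟨h1, h2⟩
        · exact Or.inl ⟨h1, by omega⟩
        · exact Or.inr ⟨h1, by omega⟩)
    · rw [pts_S_mo]
      rcases hm with ⟨rfl, h2⟩ | ⟨rfl, h2⟩
      · rw [pts_s_mo_false]
        exact C.pts_mo_mem_sp (Or.inr ⟨rfl, by show a + -((3 : ℕ) : ℤ) ≤ -3; push_cast; omega⟩)
      · rw [pts_s_mo_true]
        have key : ∀ n : ℕ, n ≤ 6 → C.pts_mo (a + -(3 : ℕ) + n, b, false, d, f) ∈ C.pts_sp pts_S1 :=
          fun n hn => C.pts_mo_mem_sp (Or.inl ⟨rfl, by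
            show a + -((3 : ℕ) : ℤ) + n ≤ 0
            have : (n : ℤ) ≤ 6 := by exact_mod_cast hn
            push_cast; omega⟩)
        have key0 : C.pts_mo (a + -(3 : ℕ), b, false, d, f) ∈ C.pts_sp pts_S1 := by
          have := key 0 (by norm_num)
          simpa using this
        exact add_mem (add_mem (add_mem (add_mem (add_mem (key 6 le_rfl)
          (Submodule.smul_mem _ _ (key 5 (by norm_num)))) (key 4 (by norm_num)))
          (Submodule.smul_mem _ _ (key 3 (by norm_num))))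
          (Submodule.smul_mem _ _ (key 2 (by norm_num)))) key0
    · rw [pts_x_mo]; exact C.pts_mo_mem_sp hm
    · rw [pts_xinv_mo]; exact C.pts_mo_mem_sp hm
    · cases d
      · rw [pts_p_mo_false]; exact C.pts_mo_mem_sp hm
      · rw [pts_p_mo_true]; exact add_mem (C.pts_mo_mem_sp hm) (C.pts_mo_mem_sp hm)
    · cases f
      · rw [pts_q_mo_false]; exact C.pts_mo_mem_sp hm
      · rw [pts_q_mo_true]; exact sub_mem (C.pts_mo_mem_sp hm) (C.pts_mo_mem_sp hm)

theorem pts_OF1_sp : sm C.OCs * sm (C.OF true) ≤ C.pts_sp pts_S2 := by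
  have h0 : C.OCs ⊔ C.OF true =
      Algebra.adjoin ℂ ({C.t, C.t⁻¹, C.s} ∪ {C.Xc true, C.P true, C.Q true}) := by
    rw [OCs, OF, Algebra.adjoin_union]
  rw [Subalgebra.mul_toSubmodule, h0]
  refine adj_le ?_ ?_
  · rw [← C.pts_mo_one]
    exact C.pts_mo_mem_sp (by simp [pts_S2])
  · rintro g hg ⟨a, b, c, d, f⟩ hm
    simp only [Set.mem_union, Set.mem_insert_iff, Set.mem_singleton_iff] at hg
    simp only [pts_S2, Set.mem_ofPred_eq] at hm
    rcases hg with (rfl | rfl | rfl) | rfl | rfl | rfl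
    · rw [pts_t_mo]; exact C.pts_mo_mem_sp hm
    · rw [pts_tinv_mo]; exact C.pts_mo_mem_sp hm
    · cases c
      · rw [pts_s_mo_false]; exact C.pts_mo_mem_sp hm
      · rw [pts_s_mo_true]
        exact add_mem (add_mem (add_mem (add_mem (add_mem (C.pts_mo_mem_sp hm)
          (Submodule.smul_mem _ _ (C.pts_mo_mem_sp hm))) (C.pts_mo_mem_sp hm))
          (Submodule.smul_mem _ _ (C.pts_mo_mem_sp hm)))
          (Submodule.smul_mem _ _ (C.pts_mo_mem_sp hm))) (C.pts_mo_mem_sp hm)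
    · have : C.Xc true = C.x⁻¹ := by simp [Xc, coord]
      rw [this, pts_xinv_mo]
      exact C.pts_mo_mem_sp (by simp only [pts_S2, Set.mem_ofPred_eq]; omega)
    · rw [pts_P_mo]
      cases d
      · rw [pts_p_mo_false]
        exact C.pts_mo_mem_sp (by
          simp only [pts_S2, Set.mem_ofPred_eq, if_true, Bool.false_eq_true, if_false] at hm ⊢
          omega)
      · rw [pts_p_mo_true]
        exact add_mem (C.pts_mo_mem_sp (by
            simp only [pts_S2, Set.mem_ofPred_eq, if_true, Bool.false_eq_true, if_false] at hm ⊢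
            push_cast; omega)) (C.pts_mo_mem_sp (by
            simp only [pts_S2, Set.mem_ofPred_eq, if_true, Bool.false_eq_true, if_false] at hm ⊢
            omega))
    · rw [pts_Q_mo]
      refine Submodule.smul_mem _ _ ?_
      cases f
      · rw [pts_q_mo_false]
        exact C.pts_mo_mem_sp (by
          simp only [pts_S2, Set.mem_ofPred_eq, if_true, Bool.false_eq_true, if_false] at hm ⊢
          omega)
      · rw [pts_q_mo_true]
        exact sub_mem (C.pts_mo_mem_sp (by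
            simp only [pts_S2, Set.mem_ofPred_eq, if_true, Bool.false_eq_true, if_false] at hm ⊢
            push_cast; omega)) (C.pts_mo_mem_sp (by
            simp only [pts_S2, Set.mem_ofPred_eq, if_true, Bool.false_eq_true, if_false] at hm ⊢
            omega))

theorem pts_sum_sg_chi (y : Bool × Bool × Bool) :
    ∑ z : Bool × Bool × Bool, sg z.1 * sg z.2.1 * sg z.2.2 * pts_chi z y =
      if y = (true, true, true) then 8 * Complex.I else 0 := by
  obtain ⟨a, b, c⟩ := y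
  simp only [Fintype.sum_prod_type, Fintype.sum_bool]
  cases a <;> cases b <;> cases c <;> simp [pts_chi, sg] <;> ring_nf

theorem exists_Lam : ∃ Λ : F →ₗ[ℂ] ℂ, (∀ v ∈ C.BT false, Λ v = 0) ∧ (∀ v ∈ C.BX, Λ v = 0) ∧
    (∀ v ∈ sm (C.OC true) * sm C.OFs, Λ v = 0) ∧ (∀ v ∈ sm C.OCs * sm (C.OF true), Λ v = 0) ∧
    ∀ b ∈ C.B false false, Λ (b * (C.t⁻¹ * C.x⁻¹)) =
      ∑ y : Bool × Bool × Bool, sg y.1 * sg y.2.1 * sg y.2.2 * C.ev y b := by
  obtain ⟨f, hf⟩ := C.pts_exists_cof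
  refine ⟨(8 * Complex.I) • f, ?_, ?_, ?_, ?_, ?_⟩
  · intro v hv
    have hv' : v ∈ C.pts_sp (pts_bx (fun _ => True) (0 ≤ ·)) := by rw [← pts_BT_sp]; exact hv
    rw [LinearMap.smul_apply, C.pts_cof_sp hf _ hv', smul_zero]
    rintro ⟨_, h⟩
    exact absurd h (by norm_num)
  · intro v hv
    have hv' : v ∈ C.pts_sp (pts_bx (0 ≤ ·) (fun _ => True)) := by rw [← pts_BX_sp]; exact hv
    rw [LinearMap.smul_apply, C.pts_cof_sp hf _ hv', smul_zero]
    rintro ⟨h, _⟩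
    exact absurd h (by norm_num)
  · intro v hv
    rw [LinearMap.smul_apply, C.pts_cof_sp hf _ (C.pts_OC1_sp hv), smul_zero]
    simp [pts_S1]
  · intro v hv
    rw [LinearMap.smul_apply, C.pts_cof_sp hf _ (C.pts_OF1_sp hv), smul_zero]
    simp [pts_S2]
  · intro b hb
    have hb' : b ∈ C.pts_sp (pts_bx (0 ≤ ·) (0 ≤ ·)) := by rw [← pts_B00_sp]; exact hb
    clear hb
    unfold pts_sp at hb'
    induction hb' using Submodule.span_induction with
    | mem u hu =>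
      obtain ⟨⟨a, b, y⟩, ⟨h1, h2⟩, rfl⟩ := hu
      simp only at h1 h2
      have e1 : C.pts_mo (a, b, y) * (C.t⁻¹ * C.x⁻¹) = C.pts_mo (a + -1, b + -1, y) := by
        rw [← pts_tinv_mo, ← pts_xinv_mo]; ring
      rw [e1, LinearMap.smul_apply, hf]
      by_cases hab : 1 ≤ a ∨ 1 ≤ b
      · rw [if_neg (by
          intro h
          have h3 := congrArg Prod.fst h
          have h4 := congrArg (fun m : PtsIx => m.2.1) h
          simp only at h3 h4
          omega)]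
        rw [smul_zero]
        symm
        apply Finset.sum_eq_zero
        intro z _
        rw [C.pts_ev_mo_zero h1 h2 hab y z, mul_zero]
      · have ha : a = 0 := by omega
        have hb : b = 0 := by omega
        subst ha hb
        have e2 : C.pts_mo (0, 0, y) = C.e y := by simp [pts_mo]
        rw [e2]
        simp only [pts_ev_e]
        rw [pts_sum_sg_chi]
        by_cases hy : y = (true, true, true)
        · subst hy
          simp
        · rw [if_neg hy, if_neg (by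
            intro h
            apply hy
            exact congrArg (fun m : PtsIx => m.2.2) h), smul_zero]
    | zero => simp
    | add a b _ _ ha hb =>
      rw [add_mul, map_add, ha, hb, ← Finset.sum_add_distrib]
      exact Finset.sum_congr rfl fun z _ => by rw [map_add]; ring
    | smul r a _ ha =>
      rw [smul_mul_assoc, map_smul, ha, Finset.smul_sum]
      exact Finset.sum_congr rfl fun z _ => by rw [map_smul, smul_eq_mul, smul_eq_mul]; ring

end Cfg

end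

end Pool.Agent.EllMod
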