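import Pool.Agent.MP_77976d_ag.Ic
import Pool.Agent.MP_77976d_ag.Pts

/-! # COH : `E` is coherent, localisation -/

open scoped TensorProduct
open IsLocalRing

namespace Pool.Agent.EllMod

noncomputable section

variable {F : Type} [Field F] [Algebra ℂ F] (C : Cfg F)

namespace Cfg

/-- the factor `1` or `g` -/
def cohG (a : Bool) : F := if a then C.g else 1

theorem coh_t_ne : C.t ≠ 0 := fun h => C.indep.ne_zero (i := (0 : Fin 2)) h

theorem coh_x_ne : C.x ≠ 0 := fun h => C.indep.ne_zero (i := (1 : Fin 2)) h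

theorem coh_G_ne (a : Bool) : C.cohG a ≠ 0 := by
  cases a
  · exact one_ne_zero
  · show C.g ≠ 0
    intro h
    have h1 := C.g_mul
    rw [h, zero_mul] at h1
    have h2 : (4 : F) ≠ 0 := by
      intro h
      have h3 : algebraMap ℂ F 4 = 0 := by rw [map_ofNat]; exact h
      have h4 := (map_eq_zero _).1 h3
      norm_num at h4
    exact h2 (by linear_combination h1)

theorem coh_N_eq (a : Bool) : C.N a = sc (C.cohG a) (sm (C.OC a)) := by
  cases a <;> rfl

/-- `sc` and products -/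
theorem coh_sc_mul (y : F) (P Q : Submodule ℂ F) : sc y P * Q = sc y (P * Q) := by
  apply le_antisymm
  · rw [Submodule.mul_le]
    intro m hm n hn
    obtain ⟨w, hw, rfl⟩ := mem_sc.1 hm
    exact mem_sc.2 ⟨w * n, Submodule.mul_mem_mul hw hn, by ring⟩
  · intro v hv
    obtain ⟨w, hw, rfl⟩ := mem_sc.1 hv
    clear hv
    refine Submodule.mul_induction_on hw (fun m hm n hn => ?_) (fun u u' h1 h2 => ?_)
    · have : y * (m * n) = (y * m) * n := by ring
      rw [this]
      exact Submodule.mul_mem_mul (mem_sc.2 ⟨m, hm, rfl⟩) hn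
    · rw [mul_add]
      exact add_mem h1 h2

theorem coh_V_eq (a b : Bool) : C.V a b = sc (C.cohG a) (sm (C.B a b)) := by
  show C.N a * sm (C.OF b) = _
  rw [coh_N_eq, coh_sc_mul, Subalgebra.mul_toSubmodule]
  rfl

theorem coh_mem_V {a b : Bool} {v : F} : v ∈ C.V a b ↔ ∃ w ∈ C.B a b, C.cohG a * w = v := by
  rw [coh_V_eq, mem_sc]
  rfl

theorem V_le_BT (a b : Bool) : ∀ v ∈ C.V a b, v ∈ C.BT b := by
  intro v hv
  have h : C.V a b ≤ sm C.OCs * sm (C.OF b) := mul_le_mul' (C.N_le a) le_rfl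
  have h2 := h hv
  rw [Subalgebra.mul_toSubmodule] at h2
  exact h2

theorem V_le_VX (a b : Bool) : C.V a b ≤ C.VX a :=
  mul_le_mul' le_rfl (fun _ hv => C.OF_le_OFs b hv)

theorem V_false (b : Bool) : C.V false b = sm (C.B false b) := by
  rw [coh_V_eq]
  ext v
  rw [mem_sc]
  show (∃ w ∈ sm (C.B false b), 1 * w = v) ↔ _
  constructor
  · rintro ⟨w, hw, rfl⟩
    rw [one_mul]; exact hw
  · intro hv
    exact ⟨v, hv, one_mul v⟩

theorem coh_T_mem (a b : Bool) : coord C.t a ∈ C.B a b :=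
  (le_sup_left : C.OC a ≤ _) (Algebra.subset_adjoin (by simp [T]))

theorem coh_X_mem (a b : Bool) : coord C.x b ∈ C.B a b :=
  (le_sup_right : C.OF b ≤ _) (Algebra.subset_adjoin (by simp [Xc]))

theorem coh_B_smul {a b : Bool} {r v : F} (hr : r ∈ C.B a b) (hv : v ∈ C.V a b) :
    r * v ∈ C.V a b := by
  obtain ⟨w, hw, rfl⟩ := (C.coh_mem_V).1 hv
  exact (C.coh_mem_V).2 ⟨r * w, mul_mem hr hw, by ring⟩

theorem V_t (a b : Bool) (v : F) (hv : v ∈ C.BT b) :
    ∃ n : ℕ, (coord C.t a) ^ n * v ∈ C.V a b := by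
  have h : v ∈ sm C.OCs * sm (C.OF b) := by
    rw [Subalgebra.mul_toSubmodule]; exact hv
  refine Submodule.mul_induction_on h (fun m hm n hn => ?_) (fun u u' h1 h2 => ?_)
  · obtain ⟨k, h1, h2, h3, h4⟩ := C.OCs_loc m hm
    refine ⟨k, ?_⟩
    rw [← mul_assoc]
    refine Submodule.mul_mem_mul ?_ hn
    cases a
    · rw [coh_N_eq]
      exact mem_sc.2 ⟨_, h1, one_mul _⟩
    · exact h3
  · obtain ⟨k, hk⟩ := h1
    obtain ⟨l, hl⟩ := h2
    refine ⟨l + k, ?_⟩
    have e : coord C.t a ^ (l + k) * (u + u') = coord C.t a ^ l * (coord C.t a ^ k * u) +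
        coord C.t a ^ k * (coord C.t a ^ l * u') := by ring
    rw [e]
    exact add_mem (C.coh_B_smul (pow_mem (C.coh_T_mem a b) _) hk)
      (C.coh_B_smul (pow_mem (C.coh_T_mem a b) _) hl)

theorem V_x (a b : Bool) (v : F) (hv : v ∈ C.VX a) :
    ∃ n : ℕ, (coord C.x b) ^ n * v ∈ C.V a b := by
  have h : v ∈ C.N a * sm C.OFs := hv
  refine Submodule.mul_induction_on h (fun m hm n hn => ?_) (fun u u' h1 h2 => ?_)
  · obtain ⟨k, h1, h2⟩ := C.OFs_loc n hn
    refine ⟨k, ?_⟩
    have e : coord C.x b ^ k * (m * n) = m * (coord C.x b ^ k * n) := by ring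
    rw [e]
    refine Submodule.mul_mem_mul hm ?_
    cases b
    · exact h1
    · exact h2
  · obtain ⟨k, hk⟩ := h1
    obtain ⟨l, hl⟩ := h2
    refine ⟨l + k, ?_⟩
    have e : coord C.x b ^ (l + k) * (u + u') = coord C.x b ^ l * (coord C.x b ^ k * u) +
        coord C.x b ^ k * (coord C.x b ^ l * u') := by ring
    rw [e]
    exact add_mem (C.coh_B_smul (pow_mem (C.coh_X_mem a b) _) hk)
      (C.coh_B_smul (pow_mem (C.coh_X_mem a b) _) hl)

/-! ### the coordinate rings of `X` -/

theorem coh_even_K {y : F} (h : C.ι y = y) : y ∈ C.K := h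

theorem coh_T_K (a : Bool) : C.T a ∈ C.K := by
  rw [mem_K]
  cases a <;> simp [T, coord]
theorem coh_X_K (b : Bool) : C.Xc b ∈ C.K := by
  rw [mem_K]
  cases b <;> simp [Xc, coord]
theorem coh_Y_K (b : Bool) : C.P b * C.Q b ∈ C.K := by
  rw [mem_K]
  cases b <;> simp [P, Q, i]
theorem coh_r_K (a b : Bool) : C.S a * C.j b ∈ C.K := by
  rw [mem_K, map_mul, ι_j]
  cases a <;> simp [S]

/-- the four generators of the coordinate ring of `U_ab` -/
def genK (a b : Bool) : Fin 4 → ↥C.K :=
  ![⟨C.T a, C.coh_T_K a⟩, ⟨C.Xc b, C.coh_X_K b⟩, ⟨C.P b * C.Q b, C.coh_Y_K b⟩,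
    ⟨C.S a * C.j b, C.coh_r_K a b⟩]

theorem coh_j_mem (a b : Bool) : C.j b ∈ C.B a b := (le_sup_right : C.OF b ≤ _) (C.j_mem b)

theorem coh_gen_mem (a b : Bool) (k : Fin 4) : ((C.genK a b k : ↥C.K) : F) ∈ C.B a b := by
  fin_cases k
  · exact C.coh_T_mem a b
  · exact C.coh_X_mem a b
  · exact mul_mem ((le_sup_right : C.OF b ≤ _) (Algebra.subset_adjoin (by simp)))
      ((le_sup_right : C.OF b ≤ _) (Algebra.subset_adjoin (by simp)))
  · exact mul_mem ((le_sup_left : C.OC a ≤ _) (Algebra.subset_adjoin (by simp)))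
      (C.coh_j_mem a b)

/-- The coordinate rings are generated by four elements. -/
theorem R_eq (a b : Bool) : C.surf.R a b = Algebra.adjoin ℂ (Set.range (C.genK a b)) := by
  apply le_antisymm
  · intro r hr
    have h1 := (C.mem_R a b r).1 hr
    have h2 := C.even_gen a b (r : F) h1 r.2
    have h3 : (Algebra.adjoin ℂ {C.T a, C.Xc b, C.P b * C.Q b, C.S a * C.j b} : Subalgebra ℂ F) =
        (Algebra.adjoin ℂ (Set.range (C.genK a b))).map (C.K.val : ↥C.K →ₐ[ℂ] F) := by
      rw [AlgHom.map_adjoin, ← Set.range_comp]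
      congr 1
      ext y
      simp only [Set.mem_insert_iff, Set.mem_singleton_iff, Set.mem_range, Function.comp_apply]
      constructor
      · rintro (h | h | h | h)
        · exact ⟨0, h.symm⟩
        · exact ⟨1, h.symm⟩
        · exact ⟨2, h.symm⟩
        · exact ⟨3, h.symm⟩
      · rintro ⟨k, rfl⟩
        fin_cases k
        · left; rfl
        · right; left; rfl
        · right; right; left; rfl
        · right; right; right; rfl
    rw [h3] at h2
    obtain ⟨r', hr', hrr⟩ := h2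
    have : r' = r := Subtype.ext hrr
    rw [← this]
    exact hr'
  · rw [Algebra.adjoin_le_iff]
    rintro _ ⟨k, rfl⟩
    exact (C.mem_R a b _).2 (C.coh_gen_mem a b k)

theorem coh_R_ft (a b : Bool) : Algebra.FiniteType ℂ (C.surf.R a b) := by
  rw [R_eq]
  exact (Subalgebra.fg_iff_finiteType _).1
    (Subalgebra.fg_def.2 ⟨Set.range (C.genK a b), Set.finite_range _, rfl⟩)

theorem coh_R_noeth (a b : Bool) : IsNoetherianRing (C.surf.R a b) := by
  have := C.coh_R_ft a b
  exact Algebra.FiniteType.isNoetherianRing ℂ _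

/-- `V_ab` as a module over the coordinate ring -/
def cohVR (a b : Bool) : Submodule (C.surf.R a b) F where
  carrier := (C.V a b : Set F)
  add_mem' := fun h h' => (C.V a b).add_mem h h'
  zero_mem' := (C.V a b).zero_mem
  smul_mem' := fun r v hv => by
    show ((r : ↥C.K) : F) * v ∈ C.V a b
    exact C.coh_B_smul ((C.mem_R a b r).1 r.2) hv

theorem coh_V_span (a b : Bool) : C.cohVR a b =
    Submodule.span (C.surf.R a b) {C.cohG a, C.cohG a * C.j b} := by
  apply le_antisymm
  · intro v hv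
    obtain ⟨w, hw, rfl⟩ := (C.coh_mem_V).1 hv
    obtain ⟨α, β, hα, hβ, hα', hβ', rfl⟩ := C.B_decomp a b w hw
    have h1 : (⟨α, hα'⟩ : ↥C.K) ∈ C.surf.R a b := (C.mem_R a b _).2 hα
    have h2 : (⟨β, hβ'⟩ : ↥C.K) ∈ C.surf.R a b := (C.mem_R a b _).2 hβ
    have e : C.cohG a * (α + β * C.j b) = (⟨⟨α, hα'⟩, h1⟩ : C.surf.R a b) • C.cohG a +
        (⟨⟨β, hβ'⟩, h2⟩ : C.surf.R a b) • (C.cohG a * C.j b) := by
      show _ = α * C.cohG a + β * (C.cohG a * C.j b)
      ring
    rw [e]
    exact add_mem (Submodule.smul_mem _ _ (Submodule.subset_span (by simp)))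
      (Submodule.smul_mem _ _ (Submodule.subset_span (by simp)))
  · rw [Submodule.span_le]
    intro v hv
    rcases hv with h | h
    · rw [h]
      exact (C.coh_mem_V).2 ⟨1, one_mem _, mul_one _⟩
    · rw [Set.mem_singleton_iff.1 h]
      exact (C.coh_mem_V).2 ⟨C.j b, C.coh_j_mem a b, rfl⟩

theorem coh_E_le (a b : Bool) : C.E a b ≤ C.V a b := by
  cases a <;> cases b
  · rw [V_false]; exact inf_le_left
  · exact le_rfl
  · exact le_rfl
  · exact le_rfl

theorem coh_E_eq {a b : Bool} (h : (a || b) = true) : C.E a b = C.V a b := by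
  cases a <;> cases b
  · simp at h
  · rfl
  · rfl
  · rfl

theorem coh_ev_t : C.ev y0 C.t = 0 := by
  rw [ev_eq C y0 C.t C.t_mem, lift_t]; rfl
theorem coh_ev_x : C.ev y0 C.x = 0 := by
  rw [ev_eq C y0 C.x C.x_mem, lift_x]; rfl

theorem coh_t_E00 {v : F} (hv : v ∈ C.V false false) : C.t * v ∈ C.E false false := by
  rw [V_false] at hv
  have hv' : v ∈ C.B false false := hv
  refine ⟨(C.B false false).mul_mem C.t_mem hv', ?_⟩
  show C.ev y0 (C.t * v) = 0
  rw [ev_mul C y0 _ _ C.t_mem hv, coh_ev_t, zero_mul]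
theorem coh_x_E00 {v : F} (hv : v ∈ C.V false false) : C.x * v ∈ C.E false false := by
  rw [V_false] at hv
  have hv' : v ∈ C.B false false := hv
  refine ⟨(C.B false false).mul_mem C.x_mem hv', ?_⟩
  show C.ev y0 (C.x * v) = 0
  rw [ev_mul C y0 _ _ C.x_mem hv, coh_ev_x, zero_mul]

theorem coh_coord_t (a : Bool) : ((coord C.surf.t a : ↥C.K) : F) = coord C.t a := by
  cases a <;> rfl
theorem coh_coord_x (a : Bool) : ((coord C.surf.x a : ↥C.K) : F) = coord C.x a := by
  cases a <;> rfl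

theorem coh_glue_t (a a' b : Bool) (v : F) (hv : v ∈ C.V a b) :
    ∃ n : ℕ, (coord C.t a') ^ n * v ∈ C.E a' b := by
  obtain ⟨n, hn⟩ := C.V_t a' b v (C.V_le_BT a b v hv)
  by_cases h : (a' || b) = true
  · exact ⟨n, by rw [C.coh_E_eq h]; exact hn⟩
  · cases a'
    · cases b
      · refine ⟨n + 1, ?_⟩
        have e : coord C.t false ^ (n + 1) * v = C.t * (coord C.t false ^ n * v) := by
          show C.t ^ (n + 1) * v = C.t * (C.t ^ n * v)
          ring
        rw [e]
        exact C.coh_t_E00 hn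
      · simp at h
    · simp at h

theorem coh_glue_x (a b b' : Bool) (v : F) (hv : v ∈ C.V a b) :
    ∃ n : ℕ, (coord C.x b') ^ n * v ∈ C.E a b' := by
  obtain ⟨n, hn⟩ := C.V_x a b' v (C.V_le_VX a b hv)
  by_cases h : (a || b') = true
  · exact ⟨n, by rw [C.coh_E_eq h]; exact hn⟩
  · cases a
    · cases b'
      · refine ⟨n + 1, ?_⟩
        have e : coord C.x false ^ (n + 1) * v = C.x * (coord C.x false ^ n * v) := by
          show C.x ^ (n + 1) * v = C.x * (C.x ^ n * v)
          ring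
        rw [e]
        exact C.coh_x_E00 hn
      · simp at h
    · simp at h

/-- `E_ab` as a module over the coordinate ring -/
def cohER (a b : Bool) : Submodule (C.surf.R a b) F where
  carrier := (C.E a b : Set F)
  add_mem' := fun h h' => (C.E a b).add_mem h h'
  zero_mem' := (C.E a b).zero_mem
  smul_mem' := fun r v hv => by
    show ((r : ↥C.K) : F) * v ∈ C.E a b
    have hr : ((r : ↥C.K) : F) ∈ C.B a b := (C.mem_R a b r).1 r.2
    have hv' : v ∈ C.E a b := hv
    by_cases h : (a || b) = true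
    · rw [C.coh_E_eq h] at hv' ⊢
      exact C.coh_B_smul hr hv'
    · cases a
      · cases b
        · obtain ⟨h1, h2⟩ := hv'
          have h1' : v ∈ C.B false false := h1
          have h2' : C.ev y0 v = 0 := h2
          refine ⟨(C.B false false).mul_mem hr h1', ?_⟩
          show C.ev y0 (((r : ↥C.K) : F) * v) = 0
          rw [ev_mul C y0 _ _ hr h1', h2', mul_zero]
        · simp at h
      · simp at h

theorem E_coh : IsCoh C.surf C.E := by
  refine ⟨?_, ?_, ?_, ?_⟩
  · intro a b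
    have := C.coh_R_noeth a b
    have hfin : (C.cohVR a b).FG := by
      rw [coh_V_span]
      exact Submodule.fg_span (by simp)
    have : Module.Finite (C.surf.R a b) (C.cohVR a b) := Module.Finite.iff_fg.2 hfin
    have : IsNoetherian (C.surf.R a b) (C.cohVR a b) :=
      isNoetherian_of_isNoetherianRing_of_finite _ _
    have hle : C.cohER a b ≤ C.cohVR a b := fun v hv => C.coh_E_le a b hv
    have hfg : (C.cohER a b).FG := isNoetherian_submodule.1 inferInstance _ hle
    obtain ⟨S, hS⟩ := hfg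
    exact ⟨S, by rw [hS]; rfl⟩
  · intro a a' b v hv
    obtain ⟨n, hn⟩ := C.coh_glue_t a a' b v (C.coh_E_le a b hv)
    refine ⟨n, ?_⟩
    show ((coord C.surf.t a' ^ n : ↥C.K) : F) * v ∈ C.E a' b
    have e : ((coord C.surf.t a' ^ n : ↥C.K) : F) = coord C.t a' ^ n := by
      rw [← coh_coord_t]; rfl
    rw [e]
    exact hn
  · intro a b b' v hv
    obtain ⟨n, hn⟩ := C.coh_glue_x a b b' v (C.coh_E_le a b hv)
    refine ⟨n, ?_⟩
    show ((coord C.surf.x b' ^ n : ↥C.K) : F) * v ∈ C.E a b'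
    have e : ((coord C.surf.x b' ^ n : ↥C.K) : F) = coord C.x b' ^ n := by
      rw [← coh_coord_x]; rfl
    rw [e]
    exact hn
  · intro a b
    rw [eq_top_iff]
    intro v _
    obtain ⟨d, hd, hd0, hdv⟩ := C.exists_denom v
    have h0 : d * v ∈ C.V false false := by rw [V_false]; exact hdv
    obtain ⟨n, hn⟩ := C.coh_glue_t false a false (d * v) h0
    obtain ⟨m, hm⟩ := C.coh_glue_x a false b _ (C.coh_E_le a false hn)
    have hdK : d ∈ C.K := by
      have : Algebra.adjoin ℂ {C.t, C.x} ≤ C.K.toSubalgebra := by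
        rw [Algebra.adjoin_le_iff]
        rintro y (h | h)
        · rw [h]; exact C.ι_t
        · rw [Set.mem_singleton_iff.1 h]; exact C.ι_x
      exact this hd
    set k : ↥C.K := coord C.surf.x b ^ m * coord C.surf.t a ^ n * ⟨d, hdK⟩ with hk
    have hkF : (k : F) = coord C.x b ^ m * coord C.t a ^ n * d := by
      rw [hk, ← coh_coord_x, ← coh_coord_t]; rfl
    have hne : ∀ (y : F) (c : Bool), y ≠ 0 → coord y c ≠ 0 := by
      intro y c hy
      cases c
      · exact hy
      · exact inv_ne_zero hy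
    have hk0 : k ≠ 0 := by
      intro h
      have h1 : (k : F) = 0 := by rw [h]; rfl
      rw [hkF] at h1
      exact (mul_ne_zero (mul_ne_zero (pow_ne_zero _ (hne _ b C.coh_x_ne))
        (pow_ne_zero _ (hne _ a C.coh_t_ne))) hd0) h1
    have h2 : k • v ∈ (C.E a b : Set F) := by
      show (k : F) * v ∈ C.E a b
      rw [hkF]
      have e : coord C.x b ^ m * coord C.t a ^ n * d * v =
          coord C.x b ^ m * (coord C.t a ^ n * (d * v)) := by ring
      rw [e]
      exact hm
    have h3 : v = k⁻¹ • (k • v) := by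
      rw [smul_smul, inv_mul_cancel₀ hk0, one_smul]
    rw [h3]
    exact Submodule.smul_mem _ _ (Submodule.subset_span h2)

end Cfg

end

end Pool.Agent.EllMod
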