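import Pool.Agent.MP_77976d_ag.FODefs

/-! # FO : first order families (general) -/

set_option linter.unusedSectionVars false
set_option linter.unusedVariables false

open scoped TensorProduct
open IsLocalRing

namespace Pool.Agent.EllMod

noncomputable section

section FO

variable {K : Type} [Field K] [Algebra ℂ K] {X : Surf K} {W : Type} [AddCommGroup W]
  [Module ℂ W] [Module K W] [IsScalarTower ℂ K W] {E : Lat W}

/-! ### coordinate rings -/

theorem fo_algebraMap_mem (X : Surf K) (a b : Bool) {y : K}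
    (hy : y ∈ Algebra.adjoin ℂ {coord X.t a, coord X.x b}) : y ∈ X.R a b := by
  have h : algebraMap (Algebra.adjoin ℂ {coord X.t a, coord X.x b}) K ⟨y, hy⟩ ∈
      integralClosure (Algebra.adjoin ℂ {coord X.t a, coord X.x b}) K :=
    Subalgebra.algebraMap_mem _ _
  exact h

theorem fo_t_mem (X : Surf K) (a b : Bool) : coord X.t a ∈ X.R a b :=
  fo_algebraMap_mem X a b (Algebra.subset_adjoin (by simp))

theorem fo_x_mem (X : Surf K) (a b : Bool) : coord X.x b ∈ X.R a b :=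
  fo_algebraMap_mem X a b (Algebra.subset_adjoin (by simp))

theorem fo_smul_mem (hE : IsCoh X E) {a b : Bool} {r : K} (hr : r ∈ X.R a b) {v : W}
    (hv : v ∈ E a b) : r • v ∈ E a b := by
  obtain ⟨S, hS⟩ := hE.fg a b
  have h1 : v ∈ (Submodule.span (X.R a b) (S : Set W) : Set W) := by rw [← hS]; exact hv
  have h2 : (⟨r, hr⟩ : X.R a b) • v ∈ Submodule.span (X.R a b) (S : Set W) :=
    Submodule.smul_mem _ _ h1
  have h3 : r • v ∈ (Submodule.span (X.R a b) (S : Set W) : Set W) := h2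
  rw [← hS] at h3
  exact h3

/-! ### coefficients -/

theorem fo_cf_kact {A : Type} [CommRing A] [Algebra ℂ A] (φ : A →ₗ[ℂ] ℂ) (k : K)
    (z : A ⊗[ℂ] W) : cf φ (kact A k z) = k • cf φ z := by
  induction z using TensorProduct.induction_on with
  | zero => simp
  | add z w hz hw => rw [map_add, map_add, hz, hw, map_add, smul_add]
  | tmul b w =>
    have h : kact A k (b ⊗ₜ[ℂ] w) = b ⊗ₜ[ℂ] (k • w) := by simp [kact]
    rw [h, cf_tmul, cf_tmul, smul_comm]

/-- the element with given coefficients -/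
def foM {n : ℕ} (w : W) (u : Fin n → W) : D n ⊗[ℂ] W :=
  1 ⊗ₜ w + ∑ i, eps i ⊗ₜ u i

@[simp] theorem foM_fst {n : ℕ} (w : W) (u : Fin n → W) : cf (Dfst n) (foM w u) = w := by
  simp [foM]

@[simp] theorem foM_snd {n : ℕ} (w : W) (u : Fin n → W) (i : Fin n) :
    cf (Dsnd n i) (foM w u) = u i := by
  simp only [foM, map_add, map_sum, cf_tmul, Dsnd_apply, D.snd_one, Pi.zero_apply, zero_smul,
    zero_add, eps_snd]
  rw [Finset.sum_eq_single i]
  · simp
  · intro j _ hj
    simp [hj.symm]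
  · intro h; exact absurd (Finset.mem_univ i) h

theorem fo_decomp {n : ℕ} (b : D n) : b = D.fst b • (1 : D n) + ∑ i, D.snd b i • eps i := by
  refine D.ext ?_ fun i => ?_
  · change Dfst n b = Dfst n (D.fst b • (1 : D n) + ∑ i, D.snd b i • eps i)
    simp only [map_add, map_sum, map_smul, Dfst_apply, D.fst_one, eps_fst, mul_zero,
      Finset.sum_const_zero, add_zero, smul_eq_mul, mul_one]
  · change Dsnd n i b = Dsnd n i (D.fst b • (1 : D n) + ∑ i, D.snd b i • eps i)
    simp only [map_add, map_sum, map_smul, Dsnd_apply, D.snd_one, Pi.zero_apply, smul_zero,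
      zero_add, eps_snd]
    rw [Finset.sum_eq_single i]
    · simp
    · intro j _ hj
      simp [hj.symm]
    · intro h; exact absurd (Finset.mem_univ i) h

theorem foM_eta {n : ℕ} (z : D n ⊗[ℂ] W) :
    foM (cf (Dfst n) z) (fun i => cf (Dsnd n i) z) = z := by
  induction z using TensorProduct.induction_on with
  | zero => simp [foM]
  | add z w hz hw =>
    conv_rhs => rw [← hz, ← hw]
    simp only [foM, map_add, TensorProduct.tmul_add, Finset.sum_add_distrib]
    abel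
  | tmul b w =>
    simp only [foM, cf_tmul, Dfst_apply, Dsnd_apply]
    conv_rhs => rw [fo_decomp b]
    rw [TensorProduct.add_tmul, TensorProduct.sum_tmul, ← TensorProduct.smul_tmul]
    congr 1
    exact Finset.sum_congr rfl fun i _ => (TensorProduct.smul_tmul _ _ _).symm

theorem fo_ext {n : ℕ} {z z' : D n ⊗[ℂ] W} (h : cf (Dfst n) z = cf (Dfst n) z')
    (h' : ∀ i, cf (Dsnd n i) z = cf (Dsnd n i) z') : z = z' := by
  rw [← foM_eta z, ← foM_eta z', h]
  congr 1
  funext i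
  exact h' i

theorem mem_foFam {n : ℕ} {E : Lat W} {θ : Fin n → Bool → Bool → (W →ₗ[ℂ] W)} {a b : Bool}
    {z : D n ⊗[ℂ] W} : z ∈ foFam E θ a b ↔ cf (Dfst n) z ∈ E a b ∧
      ∀ i, cf (Dsnd n i) z - θ i a b (cf (Dfst n) z) ∈ E a b := Iff.rfl

/-- the point of `D n` -/
def foPt (n : ℕ) : D n →ₐ[ℂ] ℂ where
  toFun a := a.fst
  map_one' := rfl
  map_mul' a b := by simp
  map_zero' := rfl
  map_add' a b := by simp
  commutes' r := by simp

theorem fo_pt_unique {n : ℕ} (π : D n →ₐ[ℂ] ℂ) : π.toLinearMap = Dfst n := by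
  have heps : ∀ i : Fin n, π (eps i) = 0 := by
    intro i
    have h1 : (eps i : D n) * eps i = 0 := by
      refine D.ext ?_ fun j => ?_
      · simp
      · simp
    have h2 : π (eps i) * π (eps i) = 0 := by rw [← map_mul, h1, map_zero]
    exact mul_self_eq_zero.1 h2
  refine LinearMap.ext fun b => ?_
  rw [fo_decomp b]
  simp only [AlgHom.toLinearMap_apply, map_add, map_sum, map_smul, heps, map_one, Dfst_apply,
    D.fst_one, eps_fst]

theorem fo_redW {n : ℕ} (π : D n →ₐ[ℂ] ℂ) (z : D n ⊗[ℂ] W) : redW π z = cf (Dfst n) z := by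
  rw [redW_eq_cf, fo_pt_unique]

/-! ### families -/

theorem fo_flat {n : ℕ} (V : Submodule ℂ W) (L : Submodule (D n) (D n ⊗[ℂ] W))
    (θ : Fin n → (W →ₗ[ℂ] W))
    (hL : ∀ z, z ∈ L ↔ cf (Dfst n) z ∈ V ∧ ∀ i, cf (Dsnd n i) z - θ i (cf (Dfst n) z) ∈ V) :
    Module.Flat (D n) ((D n ⊗[ℂ] W) ⧸ L) := by
  obtain ⟨C, hC⟩ := Submodule.exists_isCompl V
  let f : (D n ⊗[ℂ] C) →ₗ[D n] ((D n ⊗[ℂ] W) ⧸ L) :=
    L.mkQ ∘ₗ (C.subtype.baseChange (D n))
  have hcf : ∀ (φ : D n →ₗ[ℂ] ℂ) (c : D n ⊗[ℂ] C),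
      cf φ (C.subtype.baseChange (D n) c) = (cf φ c : C) := by
    intro φ c
    induction c using TensorProduct.induction_on with
    | zero => simp
    | add z w hz hw => rw [map_add, map_add, hz, hw, map_add, Submodule.coe_add]
    | tmul b w => simp
  have hinj : Function.Injective f := by
    refine (injective_iff_map_eq_zero f).2 fun c hc => ?_
    have h1 : C.subtype.baseChange (D n) c ∈ L := by
      rw [← Submodule.Quotient.mk_eq_zero]; exact hc
    rw [hL, hcf] at h1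
    have h2 : ((cf (Dfst n) c : C) : W) = 0 := by
      have := Submodule.disjoint_def.1 hC.disjoint _ h1.1 (cf (Dfst n) c : C).2
      exact this
    refine fo_ext ?_ fun i => ?_
    · rw [map_zero]; exact Subtype.ext h2
    · rw [map_zero]
      have h3 := h1.2 i
      rw [hcf, h2, map_zero, sub_zero] at h3
      exact Subtype.ext (Submodule.disjoint_def.1 hC.disjoint _ h3 (cf (Dsnd n i) c : C).2)
  have hsurj : Function.Surjective f := by
    intro q
    obtain ⟨z, rfl⟩ := Submodule.mkQ_surjective L q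
    have hdec : ∀ w : W, ∃ e ∈ V, ∃ c ∈ C, e + c = w := fun w =>
      Submodule.mem_sup.1 (by rw [hC.sup_eq_top]; exact Submodule.mem_top)
    obtain ⟨e, he, c, hc, hec⟩ := hdec (cf (Dfst n) z)
    choose e' he' c' hc' hec' using fun i => hdec (cf (Dsnd n i) z - θ i e)
    refine ⟨foM ⟨c, hc⟩ (fun i => ⟨c' i, hc' i⟩), ?_⟩
    change L.mkQ (C.subtype.baseChange (D n) _) = L.mkQ z
    rw [← sub_eq_zero, ← map_sub, Submodule.mkQ_apply, Submodule.Quotient.mk_eq_zero, hL]
    rw [map_sub, hcf, foM_fst]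
    have h1 : c - cf (Dfst n) z = -e := by rw [← hec]; abel
    refine ⟨by rw [h1]; exact neg_mem he, fun i => ?_⟩
    rw [map_sub, hcf, foM_snd, h1, map_neg]
    have h2 : c' i - cf (Dsnd n i) z - -θ i e = -e' i := by
      have := hec' i
      rw [show cf (Dsnd n i) z = (e' i + c' i) + θ i e by rw [this]; abel]
      abel
    rw [h2]
    exact neg_mem (he' i)
  exact Module.Flat.of_linearEquiv (LinearEquiv.ofBijective f ⟨hinj, hsurj⟩).symm

/-- monotonicity in the exponent -/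
theorem fo_glue_mono {E2 : Submodule ℂ W} {R2 : Subalgebra ℂ K} {τ : K} (hτ : τ ∈ R2)
    {θ1 θ2 : W →ₗ[ℂ] W} (hE : ∀ r ∈ R2, ∀ v ∈ E2, r • v ∈ E2)
    (hlin : ∀ r ∈ R2, ∀ v ∈ E2, θ2 (r • v) - r • θ2 v ∈ E2) {v : W} {m : ℕ}
    (h1 : τ ^ m • v ∈ E2) (h2 : τ ^ m • θ1 v - θ2 (τ ^ m • v) ∈ E2) {m' : ℕ} (hm : m ≤ m') :
    τ ^ m' • v ∈ E2 ∧ τ ^ m' • θ1 v - θ2 (τ ^ m' • v) ∈ E2 := by
  obtain ⟨d, rfl⟩ := Nat.exists_eq_add_of_le hm
  have hp : τ ^ d ∈ R2 := pow_mem hτ d
  rw [add_comm m d, pow_add, mul_smul, mul_smul]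
  refine ⟨hE _ hp _ h1, ?_⟩
  have h3 := sub_mem (hE _ hp _ h2) (hlin _ hp _ h1)
  convert h3 using 1
  rw [smul_sub]
  abel

theorem fo_glue {n : ℕ} {E1 E2 : Submodule ℂ W} {R2 : Subalgebra ℂ K} {τ : K} (hτ : τ ∈ R2)
    {θ1 θ2 : Fin n → (W →ₗ[ℂ] W)} (hE : ∀ r ∈ R2, ∀ v ∈ E2, r • v ∈ E2)
    (hlin : ∀ i, ∀ r ∈ R2, ∀ v ∈ E2, θ2 i (r • v) - r • θ2 i v ∈ E2)
    (hgl : ∀ v ∈ E1, ∃ m : ℕ, τ ^ m • v ∈ E2)
    (hgl' : ∀ i, ∀ v ∈ E1, ∃ m : ℕ, τ ^ m • v ∈ E2 ∧ τ ^ m • θ1 i v - θ2 i (τ ^ m • v) ∈ E2)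
    {z : D n ⊗[ℂ] W} (hz1 : cf (Dfst n) z ∈ E1)
    (hz2 : ∀ i, cf (Dsnd n i) z - θ1 i (cf (Dfst n) z) ∈ E1) :
    ∃ m : ℕ, cf (Dfst n) (kact (D n) (τ ^ m) z) ∈ E2 ∧
      ∀ i, cf (Dsnd n i) (kact (D n) (τ ^ m) z) - θ2 i (cf (Dfst n) (kact (D n) (τ ^ m) z)) ∈ E2 := by
  obtain ⟨m0, hm0⟩ := hgl _ hz1
  choose m1 hm1 using fun i => hgl' i _ hz1
  choose m2 hm2 using fun i => hgl _ (hz2 i)
  have hmono : ∀ {v : W} {m m' : ℕ}, τ ^ m • v ∈ E2 → m ≤ m' → τ ^ m' • v ∈ E2 := by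
    intro v m m' h1 hm
    obtain ⟨d, rfl⟩ := Nat.exists_eq_add_of_le hm
    rw [add_comm m d, pow_add, mul_smul]
    exact hE _ (pow_mem hτ d) _ h1
  let M : ℕ := m0 + ∑ i, m1 i + ∑ i, m2 i
  have hM1 : ∀ i, m1 i ≤ M := fun i =>
    (Finset.single_le_sum (fun j _ => Nat.zero_le (m1 j)) (Finset.mem_univ i)).trans (by
      simp only [M]; omega)
  have hM2 : ∀ i, m2 i ≤ M := fun i =>
    (Finset.single_le_sum (fun j _ => Nat.zero_le (m2 j)) (Finset.mem_univ i)).trans (by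
      simp only [M]; omega)
  refine ⟨M, ?_, fun i => ?_⟩
  · rw [fo_cf_kact]
    exact hmono hm0 (by simp only [M]; omega)
  · rw [fo_cf_kact, fo_cf_kact]
    have h1 := (fo_glue_mono hτ hE (hlin i) (hm1 i).1 (hm1 i).2 (hM1 i)).2
    have h2 := hmono (hm2 i) (hM2 i)
    have h3 := add_mem h2 h1
    convert h3 using 1
    rw [smul_sub]
    abel

theorem foFam_isFam (hE : IsCoh X E) {n : ℕ} (θ : Fin n → Bool → Bool → (W →ₗ[ℂ] W))
    (h : ∀ k, FOData X E (θ k)) : IsFam X E (foFam E θ) where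
  smul_mem a b r hr v hv := by
    rw [mem_foFam] at hv ⊢
    rw [fo_cf_kact]
    refine ⟨fo_smul_mem hE hr hv.1, fun i => ?_⟩
    rw [fo_cf_kact]
    have h1 := sub_mem (fo_smul_mem hE hr (hv.2 i)) ((h i).lin a b r hr _ hv.1)
    convert h1 using 1
    rw [smul_sub]
    abel
  glue_t a a' b v hv :=
    fo_glue (R2 := X.R a' b) (fo_t_mem X a' b) (fun r hr v hv => fo_smul_mem hE hr hv)
      (fun i => (h i).lin a' b) (hE.glue_t a a' b) (fun i => (h i).glue_t a a' b) hv.1 hv.2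
  glue_x a b b' v hv :=
    fo_glue (R2 := X.R a b') (fo_x_mem X a b') (fun r hr v hv => fo_smul_mem hE hr hv)
      (fun i => (h i).lin a b') (hE.glue_x a b b') (fun i => (h i).glue_x a b b') hv.1 hv.2
  flat a b := fo_flat (E a b) (foFam E θ a b) (fun i => θ i a b) fun _ => mem_foFam
  red π a b := by
    ext w
    constructor
    · rintro ⟨z, hz, rfl⟩
      rw [fo_redW]
      exact hz.1
    · intro hw
      refine ⟨foM w (fun i => θ i a b w), ?_, ?_⟩
      · change foM w (fun i => θ i a b w) ∈ foFam E θ a b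
        rw [mem_foFam, foM_fst]
        refine ⟨hw, fun i => ?_⟩
        rw [foM_snd, sub_self]
        exact zero_mem _
      · rw [fo_redW, foM_fst]

/-- one chart of a family over `D n` -/
theorem fo_chart {n : ℕ} (V : Submodule ℂ W) (L : Submodule (D n) (D n ⊗[ℂ] W))
    (hflat : Module.Flat (D n) ((D n ⊗[ℂ] W) ⧸ L))
    (hred : ∀ w, w ∈ V ↔ ∃ z ∈ L, cf (Dfst n) z = w) :
    ∃ θ : Fin n → (W →ₗ[ℂ] W), ∀ z, z ∈ L ↔ cf (Dfst n) z ∈ V ∧
      ∀ i, cf (Dsnd n i) z - θ i (cf (Dfst n) z) ∈ V := by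
  -- the kernel part
  have hk1 : ∀ u : Fin n → W, (∀ i, u i ∈ V) → foM 0 u ∈ L := by
    intro u hu
    choose z hz hzu using fun i => (hred (u i)).1 (hu i)
    have h1 : foM 0 u = ∑ i, (eps i : D n) • z i := by
      refine fo_ext ?_ fun j => ?_
      · rw [foM_fst, map_sum]
        refine (Finset.sum_eq_zero fun i _ => ?_).symm
        rw [cf_fst_smul, eps_fst, zero_smul]
      · rw [foM_snd, map_sum, Finset.sum_eq_single j]
        · rw [cf_snd_smul, eps_fst, zero_smul, zero_add, eps_snd, hzu]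
          simp
        · intro i _ hij
          rw [cf_snd_smul, eps_fst, zero_smul, zero_add, eps_snd]
          simp [hij.symm]
        · intro h; exact absurd (Finset.mem_univ j) h
    rw [h1]
    exact Submodule.sum_mem _ fun i _ => Submodule.smul_mem _ _ (hz i)
  have hk2 : ∀ z ∈ L, cf (Dfst n) z = 0 → ∀ i, cf (Dsnd n i) z ∈ V := by
    intro z hz h0 i
    have h1 : ∑ i, (eps i : D n) • (L.mkQ (1 ⊗ₜ[ℂ] cf (Dsnd n i) z)) = 0 := by
      have h2 : ∑ i, (eps i : D n) • ((1 : D n) ⊗ₜ[ℂ] cf (Dsnd n i) z) = z := by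
        conv_rhs => rw [← foM_eta z, h0]
        simp only [foM, TensorProduct.tmul_zero, zero_add]
        refine Finset.sum_congr rfl fun i _ => ?_
        rw [TensorProduct.smul_tmul', smul_eq_mul, mul_one]
      rw [← (Submodule.Quotient.mk_eq_zero L).2 hz, ← Submodule.mkQ_apply]
      conv_rhs => rw [← h2]
      rw [map_sum]
      exact Finset.sum_congr rfl fun i _ => (map_smul _ _ _).symm
    obtain ⟨κ, a, y, hy1, hy2⟩ := Module.Flat.isTrivialRelation_of_sum_smul_eq_zero h1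
    have h3 : ∀ i j, (a i j).fst = 0 := by
      intro i j
      have h4 := congrArg (Dsnd n i) (hy2 j)
      rw [map_sum, map_zero, Finset.sum_eq_single i] at h4
      · simpa using h4
      · intro k _ hk
        simp [hk.symm]
      · intro h; exact absurd (Finset.mem_univ i) h
    choose y' hy' using fun j => Submodule.mkQ_surjective L (y j)
    have h5 : L.mkQ (1 ⊗ₜ[ℂ] cf (Dsnd n i) z - ∑ j, a i j • y' j) = 0 := by
      rw [map_sub, sub_eq_zero, show L.mkQ (1 ⊗ₜ[ℂ] (cf (Dsnd n i)) z) = ∑ j, a i j • y j from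
        hy1 i, map_sum]
      refine Finset.sum_congr rfl fun j _ => ?_
      rw [map_smul, hy']
    rw [Submodule.mkQ_apply, Submodule.Quotient.mk_eq_zero] at h5
    refine (hred _).2 ⟨_, h5, ?_⟩
    rw [map_sub, map_sum, Finset.sum_eq_zero, sub_zero]
    · simp
    · intro j _
      rw [cf_fst_smul, h3, zero_smul]
  -- the section
  let g : ↥(L.restrictScalars ℂ) →ₗ[ℂ] V := LinearMap.codRestrict V
    ((cf (W := W) (Dfst n)) ∘ₗ (L.restrictScalars ℂ).subtype) (fun z => (hred _).2 ⟨z.1, z.2, rfl⟩)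
  have hg : Function.Surjective g := by
    rintro ⟨w, hw⟩
    obtain ⟨z, hz, hzw⟩ := (hred w).1 hw
    exact ⟨⟨z, hz⟩, Subtype.ext hzw⟩
  obtain ⟨σ, hσ⟩ := g.exists_rightInverse_of_surjective (LinearMap.range_eq_top.2 hg)
  have hσ1 : ∀ v : V, cf (Dfst n) (σ v).1 = v.1 := by
    intro v
    have := LinearMap.congr_fun hσ v
    exact congrArg Subtype.val this
  choose θ hθ using fun i => LinearMap.exists_extend (p := V)
    (cf (W := W) (Dsnd n i) ∘ₗ (L.restrictScalars ℂ).subtype ∘ₗ σ)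
  have hθ1 : ∀ i (v : V), θ i v.1 = cf (Dsnd n i) (σ v).1 := by
    intro i v
    exact LinearMap.congr_fun (hθ i) v
  refine ⟨θ, fun z => ?_⟩
  constructor
  · intro hz
    have hw : cf (Dfst n) z ∈ V := (hred _).2 ⟨z, hz, rfl⟩
    refine ⟨hw, fun i => ?_⟩
    have h1 : z - (σ ⟨_, hw⟩).1 ∈ L := sub_mem hz (σ ⟨_, hw⟩).2
    have h2 := hk2 _ h1 (by rw [map_sub, hσ1, sub_self]) i
    rw [map_sub, ← hθ1 i ⟨_, hw⟩] at h2
    exact h2
  · rintro ⟨hw, hi⟩
    have h1 : foM 0 (fun i => cf (Dsnd n i) z - θ i (cf (Dfst n) z)) ∈ L := hk1 _ hi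
    have h2 : z = (σ ⟨_, hw⟩).1 + foM 0 (fun i => cf (Dsnd n i) z - θ i (cf (Dfst n) z)) := by
      refine fo_ext ?_ fun i => ?_
      · rw [map_add, hσ1, foM_fst, add_zero]
      · rw [map_add, foM_snd, ← hθ1 i ⟨_, hw⟩]
        abel
    rw [h2]
    exact add_mem (σ ⟨_, hw⟩).2 h1

theorem exists_fo (hE : IsCoh X E) {n : ℕ} (L : RawFam (D n) W) (hL : IsFam X E L) :
    ∃ θ : Fin n → Bool → Bool → (W →ₗ[ℂ] W), (∀ k, FOData X E (θ k)) ∧ L = foFam E θ := by
  have hred : ∀ a b w, w ∈ E a b ↔ ∃ z ∈ L a b, cf (Dfst n) z = w := by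
    intro a b w
    have h1 := hL.red (foPt n) a b
    have h2 : w ∈ (E a b : Set W) ↔ w ∈ (redW (foPt n)) '' (L a b).carrier := by rw [h1]
    rw [SetLike.mem_coe] at h2
    rw [h2]
    constructor
    · rintro ⟨z, hz, rfl⟩
      exact ⟨z, hz, (fo_redW _ _).symm⟩
    · rintro ⟨z, hz, rfl⟩
      exact ⟨z, hz, fo_redW _ _⟩
  choose θ hθ using fun a b => fo_chart (E a b) (L a b) (hL.flat a b) (hred a b)
  have hmem : ∀ a b v, v ∈ E a b → foM v (fun i => θ a b i v) ∈ L a b := by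
    intro a b v hv
    rw [hθ, foM_fst]
    refine ⟨hv, fun i => ?_⟩
    rw [foM_snd, sub_self]
    exact zero_mem _
  refine ⟨fun k a b => θ a b k, fun k => ⟨?_, ?_, ?_⟩, ?_⟩
  · intro a b r hr v hv
    have h1 := hL.smul_mem a b r hr _ (hmem a b v hv)
    rw [hθ, fo_cf_kact, foM_fst] at h1
    have h2 := neg_mem (h1.2 k)
    rw [fo_cf_kact, foM_snd, neg_sub] at h2
    exact h2
  · intro a a' b v hv
    obtain ⟨m, hm⟩ := hL.glue_t a a' b _ (hmem a b v hv)
    rw [hθ, fo_cf_kact, foM_fst] at hm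
    refine ⟨m, hm.1, ?_⟩
    have h2 := hm.2 k
    rw [fo_cf_kact, foM_snd] at h2
    exact h2
  · intro a b b' v hv
    obtain ⟨m, hm⟩ := hL.glue_x a b b' _ (hmem a b v hv)
    rw [hθ, fo_cf_kact, foM_fst] at hm
    refine ⟨m, hm.1, ?_⟩
    have h2 := hm.2 k
    rw [fo_cf_kact, foM_snd] at h2
    exact h2
  · funext a b
    ext z
    rw [hθ, mem_foFam]

/-! ### isomorphisms -/

/-- `Σ ε_k Θ_k` -/
def foN {n : ℕ} (Θ : Fin n → (W →ₗ[ℂ] W)) : (D n ⊗[ℂ] W) →ₗ[D n] (D n ⊗[ℂ] W) :=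
  ∑ k, (eps k : D n) • (Θ k).baseChange (D n)

theorem fo_cf_bc {A : Type} [CommRing A] [Algebra ℂ A] (φ : A →ₗ[ℂ] ℂ) (f : W →ₗ[ℂ] W)
    (z : A ⊗[ℂ] W) : cf φ (f.baseChange A z) = f (cf φ z) := by
  induction z using TensorProduct.induction_on with
  | zero => simp
  | add z w hz hw => rw [map_add, map_add, hz, hw, map_add, map_add]
  | tmul b w => simp

theorem foN_fst {n : ℕ} (Θ : Fin n → (W →ₗ[ℂ] W)) (z : D n ⊗[ℂ] W) :
    cf (Dfst n) (foN Θ z) = 0 := by
  rw [foN, LinearMap.sum_apply, map_sum]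
  refine Finset.sum_eq_zero fun k _ => ?_
  rw [LinearMap.smul_apply, cf_fst_smul, eps_fst, zero_smul]

theorem foN_snd {n : ℕ} (Θ : Fin n → (W →ₗ[ℂ] W)) (z : D n ⊗[ℂ] W) (i : Fin n) :
    cf (Dsnd n i) (foN Θ z) = Θ i (cf (Dfst n) z) := by
  rw [foN, LinearMap.sum_apply, map_sum, Finset.sum_eq_single i]
  · rw [LinearMap.smul_apply, cf_snd_smul, eps_fst, zero_smul, zero_add, eps_snd, fo_cf_bc]
    simp
  · intro k _ hk
    rw [LinearMap.smul_apply, cf_snd_smul, eps_fst, zero_smul, zero_add, eps_snd]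
    simp [hk.symm]
  · intro h; exact absurd (Finset.mem_univ i) h

theorem foFam_iso (hE : IsCoh X E) {n : ℕ} (θ θ' : Fin n → Bool → Bool → (W →ₗ[ℂ] W)) :
    FamIso K (foFam E θ) (foFam E θ') ↔ ∃ Θ : Fin n → (W →ₗ[K] W), ∀ k a b, ∀ v ∈ E a b,
      θ' k a b v - θ k a b v - Θ k v ∈ E a b := by
  constructor
  · rintro ⟨g, h1, h2, h3⟩
    have h2' : ∀ v, cf (Dfst n) (g v) = cf (Dfst n) v := by
      intro v
      have := h2 (foPt n) v
      rwa [fo_redW, fo_redW] at this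
    let Θ : Fin n → (W →ₗ[K] W) := fun k =>
      { toFun := fun v => cf (Dsnd n k) (g (1 ⊗ₜ v))
        map_add' := fun v w => by rw [TensorProduct.tmul_add, map_add, map_add]
        map_smul' := fun c v => by
          have h4 : (1 : D n) ⊗ₜ[ℂ] (c • v) = kact (D n) c (1 ⊗ₜ[ℂ] v) := by simp [kact]
          rw [h4, h1, fo_cf_kact]; rfl }
    have hg : ∀ (z : D n ⊗[ℂ] W) k,
        cf (Dsnd n k) (g z) = Θ k (cf (Dfst n) z) + cf (Dsnd n k) z := by
      intro z k
      have h4 : z = (1 : D n) ⊗ₜ[ℂ] cf (Dfst n) z +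
          ∑ i, (eps i : D n) • ((1 : D n) ⊗ₜ[ℂ] cf (Dsnd n i) z) := by
        conv_lhs => rw [← foM_eta z]
        simp only [foM]
        congr 1
        refine Finset.sum_congr rfl fun i _ => ?_
        rw [TensorProduct.smul_tmul', smul_eq_mul, mul_one]
      conv_lhs => rw [h4]
      rw [map_add, map_add, map_sum, map_sum, Finset.sum_eq_single k]
      · rw [map_smul, cf_snd_smul, eps_fst, zero_smul, zero_add, eps_snd, h2']
        simp [Θ]
      · intro i _ hi
        rw [map_smul, cf_snd_smul, eps_fst, zero_smul, zero_add, eps_snd]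
        simp [hi.symm]
      · intro h; exact absurd (Finset.mem_univ k) h
    refine ⟨Θ, fun k a b v hv => ?_⟩
    have h5 : foM v (fun i => θ i a b v) ∈ foFam E θ a b := by
      rw [mem_foFam, foM_fst]
      refine ⟨hv, fun i => ?_⟩
      rw [foM_snd, sub_self]
      exact zero_mem _
    have h6 := (h3 a b _).2 h5
    rw [mem_foFam, h2', foM_fst] at h6
    have h7 := neg_mem (h6.2 k)
    rw [hg, foM_fst, foM_snd] at h7
    convert h7 using 1
    abel
  · rintro ⟨Θ, hΘ⟩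
    let T : Fin n → (W →ₗ[ℂ] W) := fun k => (Θ k).restrictScalars ℂ
    have hT : ∀ k v, T k v = Θ k v := fun _ _ => rfl
    let f : (D n ⊗[ℂ] W) →ₗ[D n] (D n ⊗[ℂ] W) := LinearMap.id + foN T
    let f' : (D n ⊗[ℂ] W) →ₗ[D n] (D n ⊗[ℂ] W) := LinearMap.id - foN T
    have hf1 : ∀ z, cf (Dfst n) (f z) = cf (Dfst n) z := fun z => by
      simp only [f, LinearMap.add_apply, LinearMap.id_apply, map_add, foN_fst, add_zero]
    have hf2 : ∀ z k, cf (Dsnd n k) (f z) = cf (Dsnd n k) z + Θ k (cf (Dfst n) z) := fun z k => by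
      simp only [f, LinearMap.add_apply, LinearMap.id_apply, map_add, foN_snd, hT]
    have hf1' : ∀ z, cf (Dfst n) (f' z) = cf (Dfst n) z := fun z => by
      simp only [f', LinearMap.sub_apply, LinearMap.id_apply, map_sub, foN_fst, sub_zero]
    have hf2' : ∀ z k, cf (Dsnd n k) (f' z) = cf (Dsnd n k) z - Θ k (cf (Dfst n) z) := fun z k => by
      simp only [f', LinearMap.sub_apply, LinearMap.id_apply, map_sub, foN_snd, hT]
    refine ⟨LinearEquiv.ofLinearMap f f' (LinearMap.ext fun z => ?_) (LinearMap.ext fun z => ?_),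
      fun k z => ?_, fun π z => ?_, fun a b z => ?_⟩
    · refine fo_ext ?_ fun k => ?_
      · rw [LinearMap.comp_apply, hf1, hf1', LinearMap.id_apply]
      · rw [LinearMap.comp_apply, hf2, hf2', hf1', LinearMap.id_apply]; abel
    · refine fo_ext ?_ fun k => ?_
      · rw [LinearMap.comp_apply, hf1', hf1, LinearMap.id_apply]
      · rw [LinearMap.comp_apply, hf2', hf2, hf1, LinearMap.id_apply]; abel
    · rw [LinearEquiv.coe_ofLinearMap]
      refine fo_ext ?_ fun i => ?_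
      · rw [hf1, fo_cf_kact, fo_cf_kact, hf1]
      · rw [hf2, fo_cf_kact, fo_cf_kact, fo_cf_kact, hf2, map_smul, smul_add]
    · rw [LinearEquiv.coe_ofLinearMap, fo_redW, fo_redW, hf1]
    · rw [LinearEquiv.coe_ofLinearMap, mem_foFam, mem_foFam, hf1]
      refine and_congr_right fun hw => forall_congr' fun k => ?_
      rw [hf2]
      have h1 := hΘ k a b _ hw
      constructor
      · intro h2
        have h3 := add_mem h2 h1
        convert h3 using 1
        abel
      · intro h2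
        have h3 := sub_mem h2 h1
        convert h3 using 1
        abel

theorem fo_cf_push {n m : ℕ} (ψ : (Fin n → ℂ) →ₗ[ℂ] (Fin m → ℂ)) (z : D n ⊗[ℂ] W) :
    cf (Dfst m) ((Dmap ψ).toLinearMap.rTensor W z) = cf (Dfst n) z := by
  induction z using TensorProduct.induction_on with
  | zero => simp
  | add z w hz hw => rw [map_add, map_add, hz, hw, map_add]
  | tmul b w => simp

theorem fo_cf_push' {n m : ℕ} (ψ : (Fin n → ℂ) →ₗ[ℂ] (Fin m → ℂ)) (z : D n ⊗[ℂ] W)
    (l : Fin m) :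
    cf (Dsnd m l) ((Dmap ψ).toLinearMap.rTensor W z) =
      ∑ k, ψ (Pi.single k 1) l • cf (Dsnd n k) z := by
  induction z using TensorProduct.induction_on with
  | zero => simp
  | add z w hz hw =>
    rw [map_add, map_add, hz, hw, ← Finset.sum_add_distrib]
    exact Finset.sum_congr rfl fun k _ => by rw [map_add, smul_add]
  | tmul b w =>
    simp only [LinearMap.rTensor_tmul, AlgHom.toLinearMap_apply, cf_tmul, Dsnd_apply, Dmap_snd]
    have h : ψ b.snd l = ∑ k, ψ (Pi.single k 1) l * b.snd k := by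
      have h1 : b.snd = ∑ k, b.snd k • (Pi.single k (1 : ℂ) : Fin n → ℂ) := by
        funext i
        rw [Finset.sum_apply, Finset.sum_eq_single i]
        · simp
        · intro j _ hj
          simp [hj.symm]
        · intro h; exact absurd (Finset.mem_univ i) h
      conv_lhs => rw [h1]
      rw [map_sum, Finset.sum_apply]
      refine Finset.sum_congr rfl fun k _ => ?_
      rw [map_smul, Pi.smul_apply, smul_eq_mul, mul_comm]
    rw [h, Finset.sum_smul]
    exact Finset.sum_congr rfl fun k _ => mul_smul _ _ _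

theorem push_foFam {n m : ℕ} (ψ : (Fin n → ℂ) →ₗ[ℂ] (Fin m → ℂ))
    (θ : Fin n → Bool → Bool → (W →ₗ[ℂ] W)) :
    push (Dmap ψ) (foFam E θ) =
      foFam E (fun l a b => ∑ k, ψ (Pi.single k 1) l • θ k a b) := by
  have hmem : ∀ a b v, v ∈ E a b → foM v (fun i => θ i a b v) ∈ foFam E θ a b := by
    intro a b v hv
    rw [mem_foFam, foM_fst]
    refine ⟨hv, fun i => ?_⟩
    rw [foM_snd, sub_self]
    exact zero_mem _
  funext a b
  refine le_antisymm ?_ ?_
  · refine Submodule.span_le.2 ?_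
    rintro _ ⟨z, hz, rfl⟩
    rw [SetLike.mem_coe, mem_foFam, fo_cf_push]
    refine ⟨hz.1, fun l => ?_⟩
    rw [fo_cf_push', LinearMap.sum_apply, ← Finset.sum_sub_distrib]
    refine Submodule.sum_mem _ fun k _ => ?_
    rw [LinearMap.smul_apply, ← smul_sub]
    exact Submodule.smul_mem _ _ (hz.2 k)
  · intro z hz
    rw [mem_foFam] at hz
    have himg : ∀ v ∈ E a b, (Dmap ψ).toLinearMap.rTensor W (foM v (fun i => θ i a b v)) ∈
        push (Dmap ψ) (foFam E θ) a b := fun v hv =>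
      Submodule.subset_span ⟨_, hmem a b v hv, rfl⟩
    have h1 : z = (Dmap ψ).toLinearMap.rTensor W
        (foM (cf (Dfst m) z) (fun i => θ i a b (cf (Dfst m) z))) +
        ∑ l, (eps l : D m) • (Dmap ψ).toLinearMap.rTensor W
          (foM (cf (Dsnd m l) z - ∑ k, ψ (Pi.single k 1) l • θ k a b (cf (Dfst m) z))
            (fun i => θ i a b
              (cf (Dsnd m l) z - ∑ k, ψ (Pi.single k 1) l • θ k a b (cf (Dfst m) z)))) := by
      refine fo_ext ?_ fun l => ?_
      · rw [map_add, fo_cf_push, foM_fst, map_sum, Finset.sum_eq_zero, add_zero]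
        intro l _
        rw [cf_fst_smul, eps_fst, zero_smul]
      · rw [map_add, fo_cf_push', map_sum, Finset.sum_eq_single l]
        · rw [cf_snd_smul, eps_fst, zero_smul, zero_add, eps_snd, fo_cf_push, foM_fst]
          simp only [foM_snd, Pi.single_eq_same, one_smul]
          abel
        · intro l' _ hl'
          rw [cf_snd_smul, eps_fst, zero_smul, zero_add, eps_snd]
          simp [hl'.symm]
        · intro h; exact absurd (Finset.mem_univ l) h
    rw [h1]
    refine add_mem (himg _ hz.1) (Submodule.sum_mem _ fun l _ => Submodule.smul_mem _ _ (himg _ ?_))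
    have h2 := hz.2 l
    rw [LinearMap.sum_apply] at h2
    exact h2

end FO

end

end Pool.Agent.EllMod
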