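import Pool.Agent.MP_77976d_ag.Ic

/-! # OP : endomorphisms -/

open scoped TensorProduct
open IsLocalRing

namespace Pool.Agent.EllMod

noncomputable section

variable {F : Type} [Field F] [Algebra ℂ F] (C : Cfg F)

namespace Cfg

/-- The generator of `N` on the `a`-th chart. -/
def opY (a : Bool) : F := if a then C.g else 1

/-- `opY a * ι (opY a)` -/
def opC (a : Bool) : F := if a then -4 else 1

theorem opY_mul (a : Bool) : C.opY a * C.ι (C.opY a) = opC a := by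
  cases a
  · simp [opY, opC]
  · simp only [opY, opC, if_true]; exact C.g_mul

theorem opC_ne (a : Bool) : (opC a : F) ≠ 0 := by
  have : CharZero F := charZero_of_injective_algebraMap (algebraMap ℂ F).injective
  cases a <;> simp [opC]

theorem opC_mem (D : Subalgebra ℂ F) (a : Bool) : (opC a : F) ∈ D := by
  cases a
  · simp [opC]
  · simp only [opC, if_true]
    have := D.algebraMap_mem (-4 : ℂ)
    rwa [map_neg, map_ofNat] at this

theorem opC_inv_mem (D : Subalgebra ℂ F) (a : Bool) : (opC a : F)⁻¹ ∈ D := by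
  cases a
  · simp [opC]
  · simp only [opC, if_true]
    have := D.algebraMap_mem ((-4 : ℂ)⁻¹)
    rwa [map_inv₀, map_neg, map_ofNat] at this

theorem opY_ne (a : Bool) : C.opY a ≠ 0 := by
  intro h
  apply opC_ne (F := F) a
  rw [← C.opY_mul a, h, zero_mul]

theorem op_ιY_ne (a : Bool) : C.ι (C.opY a) ≠ 0 := by
  intro h
  apply opC_ne (F := F) a
  rw [← C.opY_mul a, h, mul_zero]

theorem op_N (a : Bool) : C.N a = sc (C.opY a) (sm (C.OC a)) := rfl

theorem op_N2 (a : Bool) : C.N2 a = sc (C.opY a ^ 2) (sm (C.OC a)) := by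
  cases a
  · simp [N2, opY]
  · rfl

theorem op_sc_mul (y : F) (P Q : Submodule ℂ F) : sc y P * Q = sc y (P * Q) := by
  apply le_antisymm
  · refine Submodule.mul_le.mpr fun v hv w hw => ?_
    obtain ⟨z, hz, rfl⟩ := mem_sc.mp hv
    exact mem_sc.mpr ⟨z * w, Submodule.mul_mem_mul hz hw, by ring⟩
  · intro v hv
    obtain ⟨z, hz, rfl⟩ := mem_sc.mp hv
    refine Submodule.mul_induction_on hz (fun m hm n hn => ?_) (fun p q hp hq => ?_)
    · rw [← mul_assoc]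
      exact Submodule.mul_mem_mul (mem_sc.mpr ⟨m, hm, rfl⟩) hn
    · rw [mul_add]; exact add_mem hp hq

theorem op_mul_sm (A B : Subalgebra ℂ F) : sm A * sm B = sm (A ⊔ B) :=
  Subalgebra.mul_toSubmodule A B

theorem op_V_eq (a b : Bool) : C.V a b = sc (C.opY a) (sm (C.B a b)) := by
  unfold V B
  rw [op_N, op_sc_mul, op_mul_sm]

theorem op_j_ne (b : Bool) : C.j b ≠ 0 := by
  intro h
  have hP : C.P b ^ 2 - C.Q b ^ 2 = 2 := by
    cases b
    · change C.p ^ 2 - C.q ^ 2 = 2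
      rw [C.hp, C.hq]; ring
    · change (C.p * C.x⁻¹) ^ 2 - (i * C.q * C.x⁻¹) ^ 2 = 2
      have hi : (i : F) ^ 2 = -1 := by
        rw [i, ← map_pow, Complex.I_sq, map_neg, map_one]
      have hx : C.x ≠ 0 := by
        intro hx
        have h1 := C.indep.ne_zero 1
        exact h1 hx
      rw [mul_pow, mul_pow, mul_pow, hi, C.hp, C.hq]
      field_simp
      ring
  have hc : C.j b * (C.P b - C.Q b) = 2 := by
    rw [← hP, j]; ring
  have : CharZero F := charZero_of_injective_algebraMap (algebraMap ℂ F).injective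
  rw [h, zero_mul] at hc
  exact two_ne_zero hc.symm

theorem op_ιι (v : F) : C.ι (C.ι v) = v := C.ιι v

theorem exists_op (Θ : F →ₗ[↥C.K] F) : ∃ u u' : F, ∀ v, Θ v = C.op u u' v := by
  have : CharZero F := charZero_of_injective_algebraMap (algebraMap ℂ F).injective
  set j := C.j false with hj
  have hj0 : j ≠ 0 := C.op_j_ne false
  have hιj : C.ι j = -j := C.ι_j false
  refine ⟨(Θ 1 + Θ j / j) / 2, (Θ 1 - Θ j / j) / 2, fun v => ?_⟩
  have hιι : C.ι (C.ι v) = v := C.op_ιι v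
  have ha : (v + C.ι v) / 2 ∈ C.K := by
    rw [mem_K, map_div₀, map_add, hιι, map_ofNat, add_comm]
  have hb : (v - C.ι v) / (2 * j) ∈ C.K := by
    rw [mem_K, map_div₀, map_sub, hιι, map_mul, map_ofNat, hιj]
    rw [div_eq_div_iff (by simp [hj0]) (by simp [hj0])]
    ring
  have hv : v = (⟨_, ha⟩ : ↥C.K) • (1 : F) + (⟨_, hb⟩ : ↥C.K) • j := by
    change v = (v + C.ι v) / 2 * 1 + (v - C.ι v) / (2 * j) * j
    field_simp
    ring
  have h2 : Θ v = (v + C.ι v) / 2 * Θ 1 + (v - C.ι v) / (2 * j) * Θ j := by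
    conv_lhs => rw [hv, map_add, map_smul, map_smul]
    rfl
  rw [h2, op_apply]
  field_simp
  ring

/-- The general test. -/
theorem op_gen (a b : Bool) (D : Subalgebra ℂ F) (hD : C.B a b ≤ D) (u u' : F) :
    (∀ v ∈ C.V a b, C.op u u' v ∈ sc (C.opY a) (sm D)) ↔
      u ∈ D ∧ u' ∈ sc (C.opY a ^ 2) (sm D) := by
  have : CharZero F := charZero_of_injective_algebraMap (algebraMap ℂ F).injective
  have hj : C.j b ∈ C.B a b := (le_sup_right : C.OF b ≤ _) (C.j_mem b)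
  have hji : (C.j b)⁻¹ ∈ D := hD ((le_sup_right : C.OF b ≤ _) (C.j_inv_mem b))
  have hj0 := C.op_j_ne b
  have hy0 := C.opY_ne a
  have hιy0 := C.op_ιY_ne a
  have hyy := C.opY_mul a
  constructor
  · intro h
    have h1 : C.op u u' (C.opY a) ∈ sc (C.opY a) (sm D) := h _ (by
      rw [op_V_eq]; exact mem_sc.mpr ⟨1, (C.B a b).one_mem, mul_one _⟩)
    have h2 : C.op u u' (C.opY a * C.j b) ∈ sc (C.opY a) (sm D) := h _ (by
      rw [op_V_eq]; exact mem_sc.mpr ⟨C.j b, hj, rfl⟩)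
    obtain ⟨α, hα, e1⟩ := mem_sc.mp h1
    obtain ⟨β, hβ, e2⟩ := mem_sc.mp h2
    rw [op_apply] at e1 e2
    rw [map_mul, C.ι_j] at e2
    have hα' : α ∈ D := hα
    have hβ' : β ∈ D := hβ
    have h12 : ((2 : F)⁻¹) ∈ D := by
      have := D.algebraMap_mem ((2 : ℂ)⁻¹)
      rwa [map_inv₀, map_ofNat] at this
    have hu : u = (α + β * (C.j b)⁻¹) * 2⁻¹ := by
      have : C.opY a * (u * 2) = C.opY a * (α + β * (C.j b)⁻¹) := by
        have h4 : C.opY a * (α + β * (C.j b)⁻¹) = C.opY a * α + C.opY a * β * (C.j b)⁻¹ := by ring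
        rw [h4, e1, e2]
        field_simp
        ring
      have h3 := mul_left_cancel₀ hy0 this
      rw [← h3]; field_simp
    have hu' : u' * C.ι (C.opY a) = C.opY a * ((α - β * (C.j b)⁻¹) * 2⁻¹) := by
      have h4 : C.opY a * ((α - β * (C.j b)⁻¹) * 2⁻¹) =
          (C.opY a * α - C.opY a * β * (C.j b)⁻¹) * 2⁻¹ := by ring
      rw [h4, e1, e2]
      field_simp
      ring
    refine ⟨?_, ?_⟩
    · rw [hu]
      exact D.mul_mem (D.add_mem hα' (D.mul_mem hβ' hji)) h12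
    · refine mem_sc.mpr ⟨(α - β * (C.j b)⁻¹) * 2⁻¹ * (opC a)⁻¹,
        D.mul_mem (D.mul_mem (D.sub_mem hα' (D.mul_mem hβ' hji)) h12) (opC_inv_mem D a), ?_⟩
      have hc := opC_ne (F := F) a
      rw [← hyy] at hc ⊢
      have : C.opY a ^ 2 * ((α - β * (C.j b)⁻¹) * 2⁻¹ * (C.opY a * C.ι (C.opY a))⁻¹) =
          (C.opY a * ((α - β * (C.j b)⁻¹) * 2⁻¹)) * (C.ι (C.opY a))⁻¹ := by
        rw [mul_inv]; field_simp
      rw [this, ← hu']
      field_simp
  · rintro ⟨hu, hu'⟩ v hv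
    rw [op_V_eq] at hv
    obtain ⟨w, hw, rfl⟩ := mem_sc.mp hv
    obtain ⟨β, hβ, rfl⟩ := mem_sc.mp hu'
    have hw1 : w ∈ D := hD hw
    have hw2 : C.ι w ∈ D := hD (C.ι_B a b w hw)
    refine mem_sc.mpr ⟨u * w + β * opC a * C.ι w, ?_, ?_⟩
    · exact D.add_mem (D.mul_mem hu hw1) (D.mul_mem (D.mul_mem hβ (opC_mem D a)) hw2)
    · rw [op_apply, map_mul, ← hyy]; ring

theorem op_V (a b : Bool) (u u' : F) : (∀ v ∈ C.V a b, C.op u u' v ∈ C.V a b) ↔
    u ∈ C.B a b ∧ u' ∈ C.N2 a * sm (C.OF b) := by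
  have h := C.op_gen a b (C.B a b) le_rfl u u'
  rw [op_N2, op_sc_mul, op_mul_sm]
  rw [← op_V_eq] at h
  exact h

theorem op_BT (a b : Bool) (u u' : F) : (∀ v ∈ C.V a b, C.op u u' v ∈ C.BT b) ↔
    u ∈ C.BT b ∧ u' ∈ C.BT b := by
  have hle : C.B a b ≤ C.BT b := sup_le_sup_right (C.OC_le_OCs a) _
  have h := C.op_gen a b (C.BT b) hle u u'
  have hy : C.opY a ∈ C.BT b := by
    cases a
    · exact (C.BT b).one_mem
    · exact (le_sup_left : C.OCs ≤ _) C.g_mem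
  have hyi : (C.opY a)⁻¹ ∈ C.BT b := by
    cases a
    · simp [opY]
    · exact (le_sup_left : C.OCs ≤ _) C.g_inv_mem
  have key : ∀ n : ℕ, sc (C.opY a ^ n) (sm (C.BT b)) = sm (C.BT b) := by
    intro n
    apply le_antisymm
    · intro v hv
      obtain ⟨w, hw, rfl⟩ := mem_sc.mp hv
      exact (C.BT b).mul_mem ((C.BT b).pow_mem hy n) hw
    · intro v hv
      refine mem_sc.mpr ⟨(C.opY a)⁻¹ ^ n * v, (C.BT b).mul_mem ((C.BT b).pow_mem hyi n) hv, ?_⟩
      rw [← mul_assoc, ← mul_pow, mul_inv_cancel₀ (C.opY_ne a), one_pow, one_mul]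
  have key1 := key 1
  rw [pow_one] at key1
  rw [key1, key 2] at h
  exact h

theorem op_VX (a b : Bool) (u u' : F) : (∀ v ∈ C.V a b, C.op u u' v ∈ C.VX a) ↔
    u ∈ sm (C.OC a) * sm C.OFs ∧ u' ∈ C.N2 a * sm C.OFs := by
  have hle : C.B a b ≤ C.OC a ⊔ C.OFs := sup_le_sup_left (C.OF_le_OFs b) _
  have h := C.op_gen a b (C.OC a ⊔ C.OFs) hle u u'
  unfold VX
  rw [op_N2, op_N, op_sc_mul, op_sc_mul, op_mul_sm]
  exact h

theorem exists_op_of_lin (a b : Bool) (θ : F →ₗ[ℂ] F)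
    (h : ∀ r ∈ C.surf.R a b, ∀ v ∈ C.V a b, θ (r • v) - r • θ v ∈ C.V a b) :
    ∃ u u' : F, ∀ v ∈ C.V a b, θ v - C.op u u' v ∈ C.V a b := by
  have : CharZero F := charZero_of_injective_algebraMap (algebraMap ℂ F).injective
  have hj0 := C.op_j_ne b
  have hy0 := C.opY_ne a
  have hιy0 := C.op_ιY_ne a
  have hj : C.j b ∈ C.B a b := (le_sup_right : C.OF b ≤ _) (C.j_mem b)
  set y := C.opY a with hy
  refine ⟨(θ y + θ (y * C.j b) * (C.j b)⁻¹) * 2⁻¹ * y⁻¹,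
    (θ y - θ (y * C.j b) * (C.j b)⁻¹) * 2⁻¹ * (C.ι y)⁻¹, fun v hv => ?_⟩
  rw [op_V_eq] at hv
  obtain ⟨w, hw, rfl⟩ := mem_sc.mp hv
  obtain ⟨α, β, hα, hβ, ha, hb, rfl⟩ := C.B_decomp a b w hw
  have r1 : (⟨α, ha⟩ : ↥C.K) ∈ C.surf.R a b := (C.mem_R a b _).mpr hα
  have r2 : (⟨β, hb⟩ : ↥C.K) ∈ C.surf.R a b := (C.mem_R a b _).mpr hβ
  have v1 : y ∈ C.V a b := by
    rw [op_V_eq]; exact mem_sc.mpr ⟨1, (C.B a b).one_mem, mul_one _⟩
  have v2 : y * C.j b ∈ C.V a b := by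
    rw [op_V_eq]; exact mem_sc.mpr ⟨C.j b, hj, rfl⟩
  have h1 := h _ r1 _ v1
  have h2 := h _ r2 _ v2
  have e1 : (⟨α, ha⟩ : ↥C.K) • y = α * y := rfl
  have e2 : (⟨β, hb⟩ : ↥C.K) • (y * C.j b) = β * (y * C.j b) := rfl
  have e3 : (⟨α, ha⟩ : ↥C.K) • θ y = α * θ y := rfl
  have e4 : (⟨β, hb⟩ : ↥C.K) • θ (y * C.j b) = β * θ (y * C.j b) := rfl
  rw [e1, e3] at h1
  rw [e2, e4] at h2
  have h3 := add_mem h1 h2
  convert h3 using 1
  have e5 : C.opY a * (α + β * C.j b) = α * y + β * (y * C.j b) := by rw [← hy]; ring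
  have e6 : C.ι (α * y + β * (y * C.j b)) = α * C.ι y - β * (C.ι y * C.j b) := by
    rw [map_add, map_mul, map_mul, map_mul, ha, hb, C.ι_j]; ring
  rw [e5, map_add, op_apply, e6]
  field_simp
  ring

end Cfg

end

end Pool.Agent.EllMod
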