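import Pool.Agent.MP_77976d_ag.Base3
import Pool.Agent.MP_77976d_ag.Op

/-! # TH : the `th i` define first order deformations -/

open scoped TensorProduct
open IsLocalRing

namespace Pool.Agent.EllMod

noncomputable section

theorem Th_coh_smul {K : Type} [Field K] [Algebra ℂ K] {X : Surf K} {W : Type} [AddCommGroup W]
    [Module ℂ W] [Module K W] {E : Lat W} (hE : IsCoh X E) {a b : Bool} {r : K}
    (hr : r ∈ X.R a b) {v : W} (hv : v ∈ E a b) : r • v ∈ E a b := by
  obtain ⟨S, hS⟩ := hE.fg a b
  have h1 : v ∈ Submodule.span (X.R a b) (S : Set W) := by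
    rw [← SetLike.mem_coe, ← hS]; exact hv
  have h2 := Submodule.smul_mem _ (⟨r, hr⟩ : X.R a b) h1
  rw [← SetLike.mem_coe, ← hS] at h2
  exact h2

theorem Th_coord_t {K : Type} [Field K] [Algebra ℂ K] (X : Surf K) (a b : Bool) :
    coord X.t a ∈ X.R a b := by
  have h : coord X.t a ∈ Algebra.adjoin ℂ {coord X.t a, coord X.x b} :=
    Algebra.subset_adjoin (by simp)
  exact isIntegral_algebraMap (x := (⟨_, h⟩ : Algebra.adjoin ℂ {coord X.t a, coord X.x b}))

theorem Th_coord_x {K : Type} [Field K] [Algebra ℂ K] (X : Surf K) (a b : Bool) :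
    coord X.x b ∈ X.R a b := by
  have h : coord X.x b ∈ Algebra.adjoin ℂ {coord X.t a, coord X.x b} :=
    Algebra.subset_adjoin (by simp)
  exact isIntegral_algebraMap (x := (⟨_, h⟩ : Algebra.adjoin ℂ {coord X.t a, coord X.x b}))

variable {F : Type} [Field F] [Algebra ℂ F] (C : Cfg F)

namespace Cfg

theorem Th_coe_t (a : Bool) : ((coord C.surf.t a : ↥C.K) : F) = coord C.t a := by
  cases a <;> rfl

theorem Th_coe_x (b : Bool) : ((coord C.surf.x b : ↥C.K) : F) = coord C.x b := by
  cases b <;> rfl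

theorem Th_E_le (a b : Bool) : C.E a b ≤ C.V a b := by
  cases a <;> cases b
  · intro v hv
    rw [C.V_false]
    exact hv.1
  · exact le_rfl
  · exact le_rfl
  · exact le_rfl

theorem Th_mul_t (a b : Bool) {v : F} (hv : v ∈ C.E a b) (n : ℕ) : coord C.t a ^ n * v ∈ C.E a b := by
  have h := Th_coh_smul C.E_coh (pow_mem (Th_coord_t C.surf a b) n) hv
  rw [← C.Th_coe_t a]
  exact h

theorem Th_mul_x (a b : Bool) {v : F} (hv : v ∈ C.E a b) (n : ℕ) : coord C.x b ^ n * v ∈ C.E a b := by
  have h := Th_coh_smul C.E_coh (pow_mem (Th_coord_x C.surf a b) n) hv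
  rw [← C.Th_coe_x b]
  exact h

theorem Th_ev_t (y : Bool × Bool × Bool) : C.ev y C.t = 0 := by
  rw [C.ev_eq y _ C.t_mem, lift_t]
  rfl

theorem Th_ev_x (y : Bool × Bool × Bool) : C.ev y C.x = 0 := by
  rw [C.ev_eq y _ C.x_mem, lift_x]
  rfl

/-- localisation for `E` -/
theorem Th_loc_t (a b : Bool) {v : F} (hv : v ∈ C.BT b) :
    ∃ n : ℕ, ∀ m ≥ n, coord C.t a ^ m * v ∈ C.E a b := by
  obtain ⟨n, hn⟩ := C.V_t a b v hv
  have h1 : coord C.t a ^ (n + 1) * v ∈ C.E a b := by
    cases a <;> cases b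
    · rw [C.V_false] at hn
      have hn' : coord C.t false ^ n * v ∈ C.B false false := hn
      have h2 : coord C.t false ^ (n + 1) * v = C.t * (coord C.t false ^ n * v) := by
        rw [pow_succ]; change _ = coord C.t false * _; ring
      rw [h2]
      have h3 : C.t * (coord C.t false ^ n * v) ∈ C.B false false := mul_mem C.t_mem hn'
      refine ⟨h3, ?_⟩
      change C.ev y0 _ = 0
      rw [C.ev_mul _ _ _ C.t_mem hn', C.Th_ev_t, zero_mul]
    · have h2 := C.Th_mul_t false true (v := coord C.t false ^ n * v) hn 1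
      rw [pow_succ']; rw [pow_one] at h2; rw [mul_assoc]; exact h2
    · have h2 := C.Th_mul_t true false (v := coord C.t true ^ n * v) hn 1
      rw [pow_succ']; rw [pow_one] at h2; rw [mul_assoc]; exact h2
    · have h2 := C.Th_mul_t true true (v := coord C.t true ^ n * v) hn 1
      rw [pow_succ']; rw [pow_one] at h2; rw [mul_assoc]; exact h2
  refine ⟨n + 1, fun m hm => ?_⟩
  obtain ⟨k, rfl⟩ := Nat.exists_eq_add_of_le hm
  rw [add_comm, pow_add, mul_assoc]
  exact C.Th_mul_t a b h1 k

/-- localisation for `E` -/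
theorem Th_loc_x (a b : Bool) {v : F} (hv : v ∈ C.VX a) :
    ∃ n : ℕ, ∀ m ≥ n, coord C.x b ^ m * v ∈ C.E a b := by
  obtain ⟨n, hn⟩ := C.V_x a b v hv
  have h1 : coord C.x b ^ (n + 1) * v ∈ C.E a b := by
    cases a <;> cases b
    · rw [C.V_false] at hn
      have hn' : coord C.x false ^ n * v ∈ C.B false false := hn
      have h2 : coord C.x false ^ (n + 1) * v = C.x * (coord C.x false ^ n * v) := by
        rw [pow_succ]; change _ = coord C.x false * _; ring
      rw [h2]
      have h3 : C.x * (coord C.x false ^ n * v) ∈ C.B false false := mul_mem C.x_mem hn'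
      refine ⟨h3, ?_⟩
      change C.ev y0 _ = 0
      rw [C.ev_mul _ _ _ C.x_mem hn', C.Th_ev_x, zero_mul]
    · have h2 := C.Th_mul_x false true (v := coord C.x true ^ n * v) hn 1
      rw [pow_succ']; rw [pow_one] at h2; rw [mul_assoc]; exact h2
    · have h2 := C.Th_mul_x true false (v := coord C.x false ^ n * v) hn 1
      rw [pow_succ']; rw [pow_one] at h2; rw [mul_assoc]; exact h2
    · have h2 := C.Th_mul_x true true (v := coord C.x true ^ n * v) hn 1
      rw [pow_succ']; rw [pow_one] at h2; rw [mul_assoc]; exact h2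
  refine ⟨n + 1, fun m hm => ?_⟩
  obtain ⟨k, rfl⟩ := Nat.exists_eq_add_of_le hm
  rw [add_comm, pow_add, mul_assoc]
  exact C.Th_mul_x a b h1 k

/-- criterion for first order deformations -/
theorem Th_mk (θ : Bool → Bool → (F →ₗ[ℂ] F))
    (h1 : ∀ a b, (a || b) = true → ∀ r : F, C.ι r = r → ∀ v, θ a b (r * v) = r * θ a b v)
    (h2 : ∀ r ∈ C.B false false, C.ι r = r → ∀ v ∈ C.E00,
      θ false false (r * v) - r * θ false false v ∈ C.E00)
    (h3 : ∀ b, ∀ v ∈ C.E false b, θ false b v - θ true b v ∈ C.BT b)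
    (h4 : ∀ a, ∀ v ∈ C.E a false, θ a false v - θ a true v ∈ C.VX a) :
    FOData C.surf C.E θ := by
  have hKt : ∀ a n, C.ι (coord C.t a ^ n) = coord C.t a ^ n := by
    intro a n
    cases a <;> simp [coord]
  have hKx : ∀ a n, C.ι (coord C.x a ^ n) = coord C.x a ^ n := by
    intro a n
    cases a <;> simp [coord]
  -- linearity in all charts
  have hlin : ∀ a b, ∀ r ∈ C.B a b, C.ι r = r → ∀ v ∈ C.E a b,
      θ a b (r * v) - r * θ a b v ∈ C.E a b := by
    intro a b r hr hιr v hv
    cases a <;> cases b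
    · exact h2 r hr hιr v hv
    · rw [h1 _ _ rfl r hιr, sub_self]; exact zero_mem _
    · rw [h1 _ _ rfl r hιr, sub_self]; exact zero_mem _
    · rw [h1 _ _ rfl r hιr, sub_self]; exact zero_mem _
  have hTB : ∀ a b n, coord C.t a ^ n ∈ C.B a b := by
    intro a b n
    exact pow_mem ((le_sup_left : C.OC a ≤ _) (Algebra.subset_adjoin (by simp [T]))) n
  have hXB : ∀ a b n, coord C.x b ^ n ∈ C.B a b := by
    intro a b n
    exact pow_mem ((le_sup_right : C.OF b ≤ _) (Algebra.subset_adjoin (by simp [Xc]))) n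
  have hEBT : ∀ a b, ∀ v ∈ C.E a b, v ∈ C.BT b := fun a b v hv =>
    C.V_le_BT a b v (C.Th_E_le a b hv)
  have hEVX : ∀ a b, ∀ v ∈ C.E a b, v ∈ C.VX a := fun a b v hv =>
    C.V_le_VX a b (C.Th_E_le a b hv)
  refine ⟨?_, ?_, ?_⟩
  · intro a b r hr v hv
    exact hlin a b r ((C.mem_R a b r).1 hr) r.2 v hv
  · intro a a' b v hv
    suffices h : ∃ n : ℕ, coord C.t a' ^ n * v ∈ C.E a' b ∧
        coord C.t a' ^ n * θ a b v - θ a' b (coord C.t a' ^ n * v) ∈ C.E a' b by
      obtain ⟨n, h5, h6⟩ := h
      refine ⟨n, ?_, ?_⟩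
      · rw [← C.Th_coe_t a'] at h5; exact h5
      · rw [← C.Th_coe_t a'] at h6; exact h6
    rcases Bool.eq_false_or_eq_true a with ha | ha <;>
      rcases Bool.eq_false_or_eq_true a' with ha' | ha' <;> subst ha <;> subst ha'
    · exact ⟨0, by simpa using hv, by simp⟩
    · -- from `true` to `false`
      obtain ⟨n1, hn1⟩ := C.Th_loc_t false b (hEBT _ _ v hv)
      set w := coord C.t false ^ n1 * v with hw
      have hwE : w ∈ C.E false b := hn1 n1 le_rfl
      obtain ⟨m, hm⟩ := C.Th_loc_t false b (h3 b w hwE)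
      refine ⟨m + n1, ?_, ?_⟩
      · rw [pow_add, mul_assoc]; exact C.Th_mul_t false b hwE m
      · have h7 := hm m le_rfl
        have h8 := hlin false b _ (hTB false b m) (hKt false m) w hwE
        have h9 : θ true b w = coord C.t false ^ n1 * θ true b v :=
          h1 true b rfl _ (hKt false n1) v
        have h10 : coord C.t false ^ (m + n1) * θ true b v -
            θ false b (coord C.t false ^ (m + n1) * v) =
            -(coord C.t false ^ m * (θ false b w - θ true b w)) -
            (θ false b (coord C.t false ^ m * w) - coord C.t false ^ m * θ false b w) := by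
          rw [pow_add, mul_assoc, mul_assoc, ← hw, ← h9]
          ring
        rw [h10]
        exact sub_mem (neg_mem h7) h8
    · -- from `false` to `true`
      obtain ⟨n1, hn1⟩ := C.Th_loc_t true b (hEBT _ _ v hv)
      obtain ⟨m, hm⟩ := C.Th_loc_t true b (h3 b v hv)
      refine ⟨m + n1, hn1 _ (by omega), ?_⟩
      rw [h1 true b rfl _ (hKt true _) v, ← mul_sub]
      exact hm _ (by omega)
    · exact ⟨0, by simpa using hv, by simp⟩
  · intro a b b' v hv
    suffices h : ∃ n : ℕ, coord C.x b' ^ n * v ∈ C.E a b' ∧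
        coord C.x b' ^ n * θ a b v - θ a b' (coord C.x b' ^ n * v) ∈ C.E a b' by
      obtain ⟨n, h5, h6⟩ := h
      refine ⟨n, ?_, ?_⟩
      · rw [← C.Th_coe_x b'] at h5; exact h5
      · rw [← C.Th_coe_x b'] at h6; exact h6
    have h1' : ∀ r : F, C.ι r = r → ∀ v, θ a true (r * v) = r * θ a true v :=
      h1 a true (by simp)
    rcases Bool.eq_false_or_eq_true b with ha | ha <;>
      rcases Bool.eq_false_or_eq_true b' with ha' | ha' <;> subst ha <;> subst ha'
    · exact ⟨0, by simpa using hv, by simp⟩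
    · -- from `true` to `false`
      obtain ⟨n1, hn1⟩ := C.Th_loc_x a false (hEVX _ _ v hv)
      set w := coord C.x false ^ n1 * v with hw
      have hwE : w ∈ C.E a false := hn1 n1 le_rfl
      obtain ⟨m, hm⟩ := C.Th_loc_x a false (h4 a w hwE)
      refine ⟨m + n1, ?_, ?_⟩
      · rw [pow_add, mul_assoc]; exact C.Th_mul_x a false hwE m
      · have h7 := hm m le_rfl
        have h8 := hlin a false _ (hXB a false m) (hKx false m) w hwE
        have h9 : θ a true w = coord C.x false ^ n1 * θ a true v :=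
          h1' _ (hKx false n1) v
        have h10 : coord C.x false ^ (m + n1) * θ a true v -
            θ a false (coord C.x false ^ (m + n1) * v) =
            -(coord C.x false ^ m * (θ a false w - θ a true w)) -
            (θ a false (coord C.x false ^ m * w) - coord C.x false ^ m * θ a false w) := by
          rw [pow_add, mul_assoc, mul_assoc, ← hw, ← h9]
          ring
        rw [h10]
        exact sub_mem (neg_mem h7) h8
    · -- from `false` to `true`
      obtain ⟨n1, hn1⟩ := C.Th_loc_x a true (hEVX _ _ v hv)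
      obtain ⟨m, hm⟩ := C.Th_loc_x a true (h4 a v hv)
      refine ⟨m + n1, hn1 _ (by omega), ?_⟩
      rw [h1' _ (hKx true _) v, ← mul_sub]
      exact hm _ (by omega)
    · exact ⟨0, by simpa using hv, by simp⟩

theorem Th_op_lin (u u' r : F) (hr : C.ι r = r) (v : F) : C.op u u' (r * v) = r * C.op u u' v := by
  rw [op_apply, op_apply, map_mul, hr]
  ring

theorem Th_VX_false : C.VX false = sm C.BX := by
  unfold VX N BX
  have h : sc (if false = true then C.g else 1) (sm (C.OC false)) = sm (C.OC false) := by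
    ext v
    rw [mem_sc]
    simp
  rw [h]
  exact Subalgebra.mul_toSubmodule (C.OC false) C.OFs

theorem Th_OCs_BT (b : Bool) {u : F} (hu : u ∈ C.OCs) : u ∈ C.BT b :=
  (le_sup_left : C.OCs ≤ _) hu

theorem Th_typeT {u u' : F} (hu : u ∈ C.OCs) (hu' : u' ∈ C.OCs) :
    FOData C.surf C.E (fun a _ => if a then C.op u u' else 0) := by
  refine C.Th_mk _ ?_ ?_ ?_ ?_
  · intro a b _ r hr v
    cases a
    · simp
    · simp only [if_true]
      exact C.Th_op_lin u u' r hr v
  · intro r _ _ v _
    simp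
  · intro b v hv
    have h := (C.op_BT false b u u').2 ⟨C.Th_OCs_BT b hu, C.Th_OCs_BT b hu'⟩ v (C.Th_E_le _ _ hv)
    simp only [Bool.false_eq_true, if_false, if_true, LinearMap.zero_apply, zero_sub]
    exact neg_mem h
  · intro a v _
    rw [sub_self]
    exact zero_mem _

theorem Th_typeX {u : F} (hu : u ∈ C.OFs) :
    FOData C.surf C.E (fun _ b => if b then C.op u 0 else 0) := by
  refine C.Th_mk _ ?_ ?_ ?_ ?_
  · intro a b _ r hr v
    cases b
    · simp
    · simp only [if_true]
      exact C.Th_op_lin u 0 r hr v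
  · intro r _ _ v _
    simp
  · intro b v _
    rw [sub_self]
    exact zero_mem _
  · intro a v hv
    have h1 : u ∈ sm (C.OC a) * sm C.OFs := by
      have h2 := Submodule.mul_mem_mul (M := sm (C.OC a)) (N := sm C.OFs)
        (show (1 : F) ∈ sm (C.OC a) from one_mem (C.OC a)) (show u ∈ sm C.OFs from hu)
      rw [one_mul] at h2
      exact h2
    have h := (C.op_VX a false u 0).2 ⟨h1, zero_mem _⟩ v (C.Th_E_le _ _ hv)
    simp only [Bool.false_eq_true, if_false, if_true, LinearMap.zero_apply, zero_sub]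
    exact neg_mem h

theorem Th_typeP (f : F →ₗ[ℂ] ℂ) (hf : ∀ r ∈ C.B false false, C.ι r = r → ∀ v ∈ C.E00,
    f (r * v) = C.ev y0 r * f v) :
    FOData C.surf C.E (fun a b => if a || b then 0 else f.smulRight 1) := by
  refine C.Th_mk _ ?_ ?_ ?_ ?_
  · intro a b h r hr v
    simp [h]
  · intro r hr hιr v hv
    simp only [Bool.false_or, Bool.false_eq_true, if_false, LinearMap.smulRight_apply]
    have h1 : f (r * v) • (1 : F) ∈ C.B false false := Subalgebra.smul_mem _ (one_mem _) _
    have h2 : f v • (1 : F) ∈ C.B false false := Subalgebra.smul_mem _ (one_mem _) _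
    have h3 : f (r * v) • (1 : F) - r * (f v • (1 : F)) ∈ C.B false false :=
      sub_mem h1 (mul_mem hr h2)
    refine ⟨h3, ?_⟩
    change C.ev y0 _ = 0
    rw [map_sub, C.ev_mul _ _ _ hr h2, map_smul, map_smul, C.Th7_ev_one, hf r hr hιr v hv]
    simp
  · intro b v _
    cases b
    · simp only [Bool.false_or, Bool.false_eq_true, if_false, LinearMap.smulRight_apply,
        Bool.true_or, if_true, LinearMap.zero_apply, sub_zero]
      exact Subalgebra.smul_mem _ (one_mem _) _
    · simp only [Bool.or_true, if_true, sub_self]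
      exact zero_mem _
  · intro a v _
    cases a
    · simp only [Bool.false_or, Bool.false_eq_true, if_false, LinearMap.smulRight_apply,
        if_true, LinearMap.zero_apply, sub_zero]
      rw [C.Th_VX_false]
      exact Submodule.smul_mem _ _ (show (1 : F) ∈ sm C.BX from one_mem C.BX)
    · simp only [Bool.true_or, if_true, sub_self]
      exact zero_mem _

theorem Th_tinv : C.t⁻¹ ∈ C.OCs := Algebra.subset_adjoin (by simp)

theorem Th_s : C.s ∈ C.OCs := Algebra.subset_adjoin (by simp)

theorem Th_xinv : C.x⁻¹ ∈ C.OFs := Algebra.subset_adjoin (by simp)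

theorem Th_Y : C.Y ∈ C.OFs :=
  mul_mem (Algebra.subset_adjoin (by simp)) (Algebra.subset_adjoin (by simp))

theorem Th_type7 : FOData C.surf C.E (fun a b => match a, b with
    | false, false => C.th7
    | true, false => C.h10
    | false, true => C.h01
    | true, true => 0) := by
  have hi : ∀ A : Subalgebra ℂ F, (i : F) ∈ A := fun A => A.algebraMap_mem _
  have h4 : ∀ A : Subalgebra ℂ F, (1 / 4 : F) ∈ A := fun A => by
    have h := A.algebraMap_mem (1 / 4 : ℂ)
    rw [map_div₀, map_one, map_ofNat] at h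
    exact h
  have hx4 : ∀ A : Subalgebra ℂ F, (i / 4 : F) ∈ A := fun A => by
    have h := mul_mem (hi A) (h4 A)
    have h2 : (i : F) * (1 / 4) = i / 4 := by ring
    rw [h2] at h
    exact h
  refine C.Th_mk _ ?_ ?_ ?_ ?_
  · intro a b h r hr v
    cases a <;> cases b
    · simp at h
    · exact C.Th_op_lin _ _ r hr v
    · exact C.Th_op_lin _ _ r hr v
    · simp
  · exact C.th7_spec.2.2
  · intro b v hv
    cases b
    · exact C.th7_spec.1 v hv
    · have hG : C.G0 ∈ C.BT true := C.Th_OCs_BT true (C.N2_le true C.G0_mem)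
      have h1 : (1 - C.p + i * C.q) * C.x⁻¹ ∈ C.BT true := by
        have h2 : (1 - C.p + i * C.q) * C.x⁻¹ = C.Xc true - C.P true + C.Q true := by
          simp only [Xc, P, Q, coord, if_true]
          ring
        rw [h2]
        refine (le_sup_right : C.OF true ≤ _) ?_
        refine add_mem (sub_mem ?_ ?_) ?_ <;> exact Algebra.subset_adjoin (by simp)
      have h3 : -(1 / 4) * C.G0 * (1 - C.p + i * C.q) * C.x⁻¹ ∈ C.BT true := by
        rw [mul_assoc]
        exact mul_mem (mul_mem (neg_mem (h4 _)) hG) h1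
      have h := (C.op_BT false true 0 (-(1 / 4) * C.G0 * (1 - C.p + i * C.q) * C.x⁻¹)).2
        ⟨zero_mem _, h3⟩ v (C.Th_E_le _ _ hv)
      change C.h01 v - (0 : F →ₗ[ℂ] F) v ∈ _
      rw [LinearMap.zero_apply, sub_zero]
      exact h
  · intro a v hv
    cases a
    · rw [C.Th_VX_false]
      exact C.th7_spec.2.1 v hv
    · have h3 : -(i / 4) * C.G0 * C.Y * C.x⁻¹ ∈ C.N2 true * sm C.OFs := by
        have h5 : -(i / 4) * C.G0 * C.Y * C.x⁻¹ = C.G0 * (-(i / 4) * (C.Y * C.x⁻¹)) := by ring
        rw [h5]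
        refine Submodule.mul_mem_mul C.G0_mem ?_
        have h6 : -(i / 4) * (C.Y * C.x⁻¹) ∈ C.OFs :=
          mul_mem (neg_mem (hx4 _)) (mul_mem C.Th_Y C.Th_xinv)
        exact h6
      have h := (C.op_VX true false 0 (-(i / 4) * C.G0 * C.Y * C.x⁻¹)).2
        ⟨zero_mem _, h3⟩ v (C.Th_E_le _ _ hv)
      change C.h10 v - (0 : F →ₗ[ℂ] F) v ∈ _
      rw [LinearMap.zero_apply, sub_zero]
      exact h

theorem Th_der (α β : ℂ) (r : F) (hr : r ∈ C.B false false) (v : F) (hv : v ∈ C.E00) :
    C.der α β (r * v) = C.ev y0 r * C.der α β v := by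
  rw [C.der_mul α β r v hr hv.1]
  have h : C.ev y0 v = 0 := hv.2
  rw [h, mul_zero, add_zero]

theorem th_fo (k : Fin 8) : FOData C.surf C.E (C.th k) := by
  have h4 : (fun a b => if a || b then 0 else -(C.der 1 0).smulRight 1 :
      Bool → Bool → (F →ₗ[ℂ] F)) = fun a b => if a || b then 0 else (-(C.der 1 0)).smulRight 1 := by
    funext a b
    cases a <;> cases b <;> simp
    ext v; simp
  have h5 : (fun a b => if a || b then 0 else -(C.der 0 1).smulRight 1 :
      Bool → Bool → (F →ₗ[ℂ] F)) = fun a b => if a || b then 0 else (-(C.der 0 1)).smulRight 1 := by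
    funext a b
    cases a <;> cases b <;> simp
    ext v; simp
  fin_cases k
  · exact C.Th_typeT (mul_mem C.Th_s C.Th_tinv) (zero_mem _)
  · exact C.Th_typeT (mul_mem C.Th_s (pow_mem C.Th_tinv 2)) (zero_mem _)
  · exact C.Th_typeT (zero_mem _) C.Th_tinv
  · exact C.Th_typeX (mul_mem C.Th_Y C.Th_xinv)
  · change FOData C.surf C.E (fun a b => if a || b then 0 else -(C.der 1 0).smulRight 1)
    rw [h4]
    refine C.Th_typeP _ fun r hr _ v hv => ?_
    rw [LinearMap.neg_apply, LinearMap.neg_apply, C.Th_der 1 0 r hr v hv]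
    ring
  · change FOData C.surf C.E (fun a b => if a || b then 0 else -(C.der 0 1).smulRight 1)
    rw [h5]
    refine C.Th_typeP _ fun r hr _ v hv => ?_
    rw [LinearMap.neg_apply, LinearMap.neg_apply, C.Th_der 0 1 r hr v hv]
    ring
  · refine C.Th_typeP _ fun r hr hιr v hv => ?_
    rw [C.ev_mul _ _ _ hr hv.1]
    have h6 := C.ev_ι y0 r hr
    rw [hιr] at h6
    rw [h6]
    rfl
  · exact C.Th_type7

end Cfg

end

end Pool.Agent.EllMod
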