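import Pool.Agent.MP_77976d_ag.DetBase
import Pool.Agent.MP_77976d_ag.Th
import Pool.Agent.MP_77976d_ag.Fo

/-! # DFO : the determinant of the first order families -/

open scoped TensorProduct
open IsLocalRing

namespace Pool.Agent.EllMod

noncomputable section

variable {F : Type} [Field F] [Algebra ℂ F] (C : Cfg F)

namespace Cfg

/-! ### the involution and the big charts -/

theorem dfo_OCs : C.OCs ≤ C.OCs.comap C.ι.toAlgHom := by
  refine Algebra.adjoin_le ?_
  rintro z (h | h | h)
  · rw [h]; change C.ι C.t ∈ C.OCs; rw [ι_t]; exact Algebra.subset_adjoin (by simp)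
  · rw [h]; change C.ι C.t⁻¹ ∈ C.OCs; rw [map_inv₀, ι_t]; exact Algebra.subset_adjoin (by simp)
  · rw [Set.mem_singleton_iff.1 h]; change C.ι C.s ∈ C.OCs
    rw [ι_s]; exact neg_mem (Algebra.subset_adjoin (by simp))

theorem dfo_OC0 : C.OC false ≤ (C.OC false).comap C.ι.toAlgHom := by
  refine Algebra.adjoin_le ?_
  rintro z (h | h)
  · rw [h]; change C.ι C.t ∈ C.OC false; rw [ι_t]; exact Algebra.subset_adjoin (by simp [T, coord])
  · rw [Set.mem_singleton_iff.1 h]; change C.ι C.s ∈ C.OC false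
    rw [ι_s]; exact neg_mem (Algebra.subset_adjoin (by simp [S]))

theorem dfo_OF0 : C.OF false ≤ (C.OF false).comap C.ι.toAlgHom := by
  refine Algebra.adjoin_le ?_
  rintro z (h | h | h)
  · rw [h]; change C.ι C.x ∈ C.OF false; rw [ι_x]; exact Algebra.subset_adjoin (by simp [Xc, coord])
  · rw [h]; change C.ι C.p ∈ C.OF false
    rw [ι_p]; exact neg_mem (Algebra.subset_adjoin (by simp [P]))
  · rw [Set.mem_singleton_iff.1 h]; change C.ι C.q ∈ C.OF false
    rw [ι_q]; exact neg_mem (Algebra.subset_adjoin (by simp [Q]))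

theorem dfo_OFs : C.OFs ≤ C.OFs.comap C.ι.toAlgHom := by
  refine Algebra.adjoin_le ?_
  rintro z (h | h | h | h)
  · rw [h]; change C.ι C.x ∈ C.OFs; rw [ι_x]; exact Algebra.subset_adjoin (by simp)
  · rw [h]; change C.ι C.x⁻¹ ∈ C.OFs; rw [map_inv₀, ι_x]; exact Algebra.subset_adjoin (by simp)
  · rw [h]; change C.ι C.p ∈ C.OFs
    rw [ι_p]; exact neg_mem (Algebra.subset_adjoin (by simp))
  · rw [Set.mem_singleton_iff.1 h]; change C.ι C.q ∈ C.OFs
    rw [ι_q]; exact neg_mem (Algebra.subset_adjoin (by simp))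

theorem dfo_BT {y : F} (hy : y ∈ C.BT false) : C.ι y ∈ C.BT false := by
  have h : C.BT false ≤ (C.BT false).comap C.ι.toAlgHom :=
    sup_le (C.dfo_OCs.trans fun z hz => (le_sup_left : C.OCs ≤ C.BT false) hz)
      (C.dfo_OF0.trans fun z hz => (le_sup_right : C.OF false ≤ C.BT false) hz)
  exact h hy

theorem dfo_BX {y : F} (hy : y ∈ C.BX) : C.ι y ∈ C.BX := by
  have h : C.BX ≤ C.BX.comap C.ι.toAlgHom :=
    sup_le (C.dfo_OC0.trans fun z hz => (le_sup_left : C.OC false ≤ C.BX) hz)
      (C.dfo_OFs.trans fun z hz => (le_sup_right : C.OFs ≤ C.BX) hz)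
  exact h hy

/-! ### the form and the operators -/

theorem dfo_op (u u' : F) (hu : u + C.ι u = 0) (v w : F) :
    C.detω (C.op u u' v) w + C.detω v (C.op u u' w) = 0 := by
  apply Subtype.ext
  show C.detF (C.op u u' v) w + C.detF v (C.op u u' w) = 0
  unfold detF
  rw [op_apply, op_apply, map_add, map_add, map_mul, map_mul, map_mul, map_mul, det_ιι, det_ιι]
  linear_combination (v * C.ι w - C.ι v * w) * (C.j false * (C.x + i))⁻¹ * hu

/-- the value of the form after clearing the denominator -/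
theorem dfo_rho (v w : F) : ((C.MbRho false * C.detω v w : ↥C.K) : F) =
    (v * C.ι w - C.ι v * w) * (C.j false)⁻¹ := by
  show (C.MbRho false : F) * C.detF v w = _
  unfold detF
  have h1 := C.det_rho_j false
  have hne := C.det_ne
  rw [← h1]
  have h2 : (C.MbRho false : F) ≠ 0 := by
    intro h
    rw [h, zero_mul] at h1
    exact hne h1.symm
  have h3 : C.j false ≠ 0 := C.op_j_ne false
  field_simp

theorem dfo_big {D : Subalgebra ℂ F} (hD : C.B false false ≤ D) (hι : ∀ y ∈ D, C.ι y ∈ D)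
    {v w : F} (hv : v ∈ D) (hw : w ∈ D) : ((C.MbRho false * C.detω v w : ↥C.K) : F) ∈ D := by
  rw [dfo_rho]
  refine D.mul_mem (D.sub_mem (D.mul_mem hv (hι _ hw)) (D.mul_mem (hι _ hv) hw)) (hD ?_)
  exact (le_sup_right : C.OF false ≤ _) (C.j_inv_mem false)

theorem dfo_th7 (v w : F) (hv : v ∈ C.E false false) (hw : w ∈ C.E false false) :
    C.detω (C.th7 v) w + C.detω v (C.th7 w) ∈ C.detN false false := by
  have hBT : C.B false false ≤ C.BT false := by
    rw [← C.BT_inf_BX]; exact inf_le_left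
  have hBX : C.B false false ≤ C.BX := by
    rw [← C.BT_inf_BX]; exact inf_le_right
  have hv' : v ∈ C.B false false := hv.1
  have hw' : w ∈ C.B false false := hw.1
  rw [mem_detN, mem_R, ← C.BT_inf_BX]
  have key : ∀ (η : F →ₗ[ℂ] F) (u' : F), η = C.op 0 u' →
      C.detω (C.th7 v) w + C.detω v (C.th7 w) =
        C.detω (C.th7 v - η v) w + C.detω v (C.th7 w - η w) := by
    intro η u' hη
    have h1 := C.dfo_op 0 u' (by rw [map_zero, add_zero]) v w
    rw [← hη] at h1
    rw [map_sub, map_sub, LinearMap.sub_apply]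
    linear_combination h1
  refine ⟨?_, ?_⟩
  · rw [key C.h10 _ rfl, mul_add]
    exact add_mem (C.dfo_big hBT (fun y hy => C.dfo_BT hy) (C.th7_spec.1 v hv) (hBT hw'))
      (C.dfo_big hBT (fun y hy => C.dfo_BT hy) (hBT hv') (C.th7_spec.1 w hw))
  · rw [key C.h01 _ rfl, mul_add]
    exact add_mem (C.dfo_big hBX (fun y hy => C.dfo_BX hy) (C.th7_spec.2.1 v hv) (hBX hw'))
      (C.dfo_big hBX (fun y hy => C.dfo_BX hy) (hBX hv') (C.th7_spec.2.1 w hw))

theorem dfo_pt (f : F →ₗ[ℂ] ℂ) (v w : F) (hv : v ∈ C.E false false) (hw : w ∈ C.E false false) :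
    C.detω (f.smulRight (1 : F) v) w + C.detω v (f.smulRight (1 : F) w) ∈ C.detN false false := by
  have h1 : ∀ z, f.smulRight (1 : F) z ∈ C.V false false := by
    intro z
    rw [V_false, LinearMap.smulRight_apply]
    exact Subalgebra.smul_mem _ (one_mem _) _
  exact add_mem (C.detω_V _ _ _ _ (h1 v) (C.Th_E_le _ _ hw))
    (C.detω_V _ _ _ _ (C.Th_E_le _ _ hv) (h1 w))

/-- the infinitesimal determinant of `th k` -/
theorem dfo_der (k : Fin 8) (hk : k ≠ 3) (a b : Bool) (v w : F) (hv : v ∈ C.E a b)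
    (hw : w ∈ C.E a b) :
    C.detω (C.th k a b v) w + C.detω v (C.th k a b w) ∈ C.detN a b := by
  have hz : C.detω ((0 : F →ₗ[ℂ] F) v) w + C.detω v ((0 : F →ₗ[ℂ] F) w) ∈ C.detN a b := by
    simp
  have ho : ∀ u u' : F, u + C.ι u = 0 →
      C.detω (C.op u u' v) w + C.detω v (C.op u u' w) ∈ C.detN a b := by
    intro u u' hu
    rw [C.dfo_op u u' hu]
    exact zero_mem _
  have h0 : (0 : F) + C.ι 0 = 0 := by rw [map_zero, add_zero]
  fin_cases k
  · change C.detω ((if a then C.op (C.s * C.t⁻¹) 0 else 0 : F →ₗ[ℂ] F) v) w +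
      C.detω v ((if a then C.op (C.s * C.t⁻¹) 0 else 0 : F →ₗ[ℂ] F) w) ∈ C.detN a b
    cases a
    · exact hz
    · exact ho _ _ (by rw [map_mul, map_inv₀, ι_s, ι_t]; ring)
  · change C.detω ((if a then C.op (C.s * C.t⁻¹ ^ 2) 0 else 0 : F →ₗ[ℂ] F) v) w +
      C.detω v ((if a then C.op (C.s * C.t⁻¹ ^ 2) 0 else 0 : F →ₗ[ℂ] F) w) ∈ C.detN a b
    cases a
    · exact hz
    · exact ho _ _ (by rw [map_mul, map_pow, map_inv₀, ι_s, ι_t]; ring)
  · change C.detω ((if a then C.op 0 (C.t⁻¹) else 0 : F →ₗ[ℂ] F) v) w +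
      C.detω v ((if a then C.op 0 (C.t⁻¹) else 0 : F →ₗ[ℂ] F) w) ∈ C.detN a b
    cases a
    · exact hz
    · exact ho _ _ h0
  · exact absurd rfl hk
  · change C.detω ((if a || b then 0 else -(C.der 1 0).smulRight 1 : F →ₗ[ℂ] F) v) w +
      C.detω v ((if a || b then 0 else -(C.der 1 0).smulRight 1 : F →ₗ[ℂ] F) w) ∈ C.detN a b
    cases a <;> cases b
    · have h := C.dfo_pt (-(C.der 1 0)) v w hv hw
      have e : ∀ z, (-(C.der 1 0)).smulRight (1 : F) z = (-(C.der 1 0).smulRight (1 : F)) z := by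
        intro z; simp
      rw [e, e] at h
      exact h
    · exact hz
    · exact hz
    · exact hz
  · change C.detω ((if a || b then 0 else -(C.der 0 1).smulRight 1 : F →ₗ[ℂ] F) v) w +
      C.detω v ((if a || b then 0 else -(C.der 0 1).smulRight 1 : F →ₗ[ℂ] F) w) ∈ C.detN a b
    cases a <;> cases b
    · have h := C.dfo_pt (-(C.der 0 1)) v w hv hw
      have e : ∀ z, (-(C.der 0 1)).smulRight (1 : F) z = (-(C.der 0 1).smulRight (1 : F)) z := by
        intro z; simp
      rw [e, e] at h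
      exact h
    · exact hz
    · exact hz
    · exact hz
  · change C.detω ((if a || b then 0 else (C.ev y0').smulRight 1 : F →ₗ[ℂ] F) v) w +
      C.detω v ((if a || b then 0 else (C.ev y0').smulRight 1 : F →ₗ[ℂ] F) w) ∈ C.detN a b
    cases a <;> cases b
    · exact C.dfo_pt (C.ev y0') v w hv hw
    · exact hz
    · exact hz
    · exact hz
  · cases a <;> cases b
    · exact C.dfo_th7 v w hv hw
    · exact ho _ _ h0
    · exact ho _ _ h0
    · exact hz

/-! ### coefficients of the form -/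

theorem dfo_fst {n : ℕ} (z w : D n ⊗[ℂ] F) :
    cf (Dfst n) (C.omA (D n) z w) = C.detω (cf (Dfst n) z) (cf (Dfst n) w) := by
  rw [← fo_redW (foPt n), ← fo_redW (foPt n), ← fo_redW (foPt n), redW_omA]

theorem dfo_snd {n : ℕ} (i : Fin n) (z w : D n ⊗[ℂ] F) :
    cf (Dsnd n i) (C.omA (D n) z w) =
      C.detω (cf (Dsnd n i) z) (cf (Dfst n) w) + C.detω (cf (Dfst n) z) (cf (Dsnd n i) w) := by
  induction z using TensorProduct.induction_on with
  | zero => simp
  | add z z' h h' =>
    simp only [map_add, LinearMap.add_apply, h, h']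
    abel
  | tmul a v =>
    induction w using TensorProduct.induction_on with
    | zero => simp
    | add w w' h h' =>
      simp only [map_add, h, h']
      abel
    | tmul b w =>
      rw [omA_tmul, cf_tmul, cf_tmul, cf_tmul, cf_tmul, cf_tmul]
      have e : ∀ c c' : ℂ, C.detω (c • v) (c' • w) = (c * c') • C.detω v w := by
        intro c c'
        have : C.om (c • v) (c' • w) = (c * c') • C.om v w := by
          rw [map_smul, map_smul, LinearMap.smul_apply, smul_smul, mul_comm]
        exact this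
      rw [e, e, ← add_smul]
      congr 1
      simp only [Dsnd_apply, Dfst_apply, D.snd_mul, Pi.add_apply, Pi.smul_apply, smul_eq_mul]
      ring

theorem dfo_mem {n : ℕ} {N : Submodule ℂ ↥C.K} {y : D n ⊗[ℂ] ↥C.K} (h1 : cf (Dfst n) y ∈ N)
    (h2 : ∀ i, cf (Dsnd n i) y ∈ N) : y ∈ N.baseChange (D n) := by
  rw [← foM_eta y]
  exact add_mem (Submodule.tmul_mem_baseChange_of_mem _ h1)
    (sum_mem fun i _ => Submodule.tmul_mem_baseChange_of_mem _ (h2 i))

theorem hasDet_fo {n : ℕ} (c : Fin n → Fin 8 → ℂ) (hc : ∀ l, c l 3 = 0) :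
    HasDet C.surf C.detN (foFam C.E (fun l a b => ∑ k, c l k • C.th k a b)) := by
  refine ⟨C.omA (D n), C.omA_self (D n), C.omA_kact (D n), ?_, ?_⟩
  · intro a b z hz w hw
    obtain ⟨hz0, hz1⟩ := mem_foFam.1 hz
    obtain ⟨hw0, hw1⟩ := mem_foFam.1 hw
    refine C.dfo_mem ?_ fun i => ?_
    · rw [dfo_fst]
      exact C.detω_E a b _ _ hz0 hw0
    · rw [dfo_snd]
      set z0 := cf (Dfst n) z with hz0'
      set w0 := cf (Dfst n) w with hw0'
      have h1 := C.detω_E a b _ _ (hz1 i) hw0
      have h2 := C.detω_E a b _ _ hz0 (hw1 i)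
      have h3 : C.detω ((∑ k, c i k • C.th k a b) z0) w0 + C.detω z0 ((∑ k, c i k • C.th k a b) w0) ∈
          C.detN a b := by
        have e : C.detω ((∑ k, c i k • C.th k a b) z0) w0 +
            C.detω z0 ((∑ k, c i k • C.th k a b) w0) =
            ∑ k, c i k • (C.detω (C.th k a b z0) w0 + C.detω z0 (C.th k a b w0)) := by
          have e1 : ∀ (f : Fin 8 → F) (w : F), C.detω (∑ k, c i k • f k) w =
              ∑ k, c i k • C.detω (f k) w := by
            intro f w
            change C.om (∑ k, c i k • f k) w = ∑ k, c i k • C.om (f k) w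
            rw [map_sum, LinearMap.sum_apply]
            exact Finset.sum_congr rfl fun k _ => by rw [map_smul, LinearMap.smul_apply]
          have e2 : ∀ (f : Fin 8 → F) (w : F), C.detω w (∑ k, c i k • f k) =
              ∑ k, c i k • C.detω w (f k) := by
            intro f w
            change C.om w (∑ k, c i k • f k) = ∑ k, c i k • C.om w (f k)
            rw [map_sum]
            exact Finset.sum_congr rfl fun k _ => by rw [map_smul]
          rw [LinearMap.sum_apply, LinearMap.sum_apply]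
          simp only [LinearMap.smul_apply]
          rw [e1, e2, ← Finset.sum_add_distrib]
          exact Finset.sum_congr rfl fun k _ => (smul_add _ _ _).symm
        rw [e]
        refine sum_mem fun k _ => ?_
        by_cases hk : k = 3
        · rw [hk, hc, zero_smul]; exact zero_mem _
        · exact Submodule.smul_mem _ _ (C.dfo_der k hk a b _ _ hz0 hw0)
      rw [map_sub, LinearMap.sub_apply] at h1
      rw [map_sub] at h2
      have h4 := add_mem (add_mem h1 h2) h3
      convert h4 using 1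
      abel
  · intro π a b k h
    refine C.detω_hull a b k fun v hv w hw => ?_
    have hlift : ∀ v ∈ C.E a b, ∃ z ∈ foFam C.E (fun l a b => ∑ k, c l k • C.th k a b) a b,
        cf (Dfst n) z = v := by
      intro v hv
      refine ⟨foM v (fun l => (∑ k, c l k • C.th k a b) v), mem_foFam.2 ⟨?_, fun i => ?_⟩, foM_fst _ _⟩
      · rw [foM_fst]; exact hv
      · rw [foM_snd, foM_fst, sub_self]; exact zero_mem _
    obtain ⟨z, hz, rfl⟩ := hlift v hv
    obtain ⟨y, hy, rfl⟩ := hlift w hw
    have h1 := h z hz y hy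
    rw [fo_redW, dfo_fst] at h1
    exact h1

end Cfg

end

end Pool.Agent.EllMod
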