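import Pool.Agent.MP_77976d_ag.FAux

/-! # F1 : injectivity -/

open scoped TensorProduct
open IsLocalRing

namespace Pool.Agent.EllMod

noncomputable section

variable {F : Type} [Field F] [Algebra ℂ F] (C : Cfg F)

namespace Cfg

/-- Differences of two operators preserving `V_{ab}`. -/
theorem F1aux_op (a b : Bool) (θ : F →ₗ[ℂ] F) (u u' w w' : F)
    (hθ : θ = C.op w w') (h : ∀ v ∈ C.V a b, θ v - C.op u u' v ∈ C.V a b) :
    w - u ∈ C.B a b ∧ w' - u' ∈ C.N2 a * sm (C.OF b) := by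
  rw [← C.op_V a b (w - u) (w' - u')]
  intro v hv
  have := h v hv
  rw [hθ] at this
  convert this using 1
  simp; ring

theorem F1 (ψ : Fin 8 → ℂ) (u u' : F)
    (h : ∀ a b, ∀ v ∈ C.E a b, C.thc ψ a b v - C.op u u' v ∈ C.E a b) : ψ = 0 := by
  set h10c : F := -(i / 4) * C.G0 * C.Y * C.x⁻¹ with hh10c
  set h01c : F := -(1 / 4) * C.G0 * (1 - C.p + i * C.q) * C.x⁻¹ with hh01c
  -- the three charts
  have e10 : C.thc ψ true false = C.op (ψ 0 • (C.s * C.t⁻¹) + ψ 1 • (C.s * C.t⁻¹ ^ 2))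
      (ψ 2 • C.t⁻¹ + ψ 7 • h10c) := by
    ext v
    simp [thc, Fin.sum_univ_eight, th, h10, Algebra.smul_def, hh10c]
    ring
  have e01 : C.thc ψ false true = C.op (ψ 3 • (C.Y * C.x⁻¹)) (ψ 7 • h01c) := by
    ext v
    simp [thc, Fin.sum_univ_eight, th, h01, Algebra.smul_def, hh01c]
    ring
  have e11 : C.thc ψ true true = C.op (ψ 0 • (C.s * C.t⁻¹) + ψ 1 • (C.s * C.t⁻¹ ^ 2) +
      ψ 3 • (C.Y * C.x⁻¹)) (ψ 2 • C.t⁻¹) := by
    ext v
    simp [thc, Fin.sum_univ_eight, th, Algebra.smul_def]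
    ring
  obtain ⟨a10, b10⟩ := C.F1aux_op true false _ u u' _ _ e10 (h true false)
  obtain ⟨a01, b01⟩ := C.F1aux_op false true _ u u' _ _ e01 (h false true)
  obtain ⟨a11, b11⟩ := C.F1aux_op true true _ u u' _ _ e11 (h true true)
  have a10' : ψ 0 • (C.s * C.t⁻¹) + ψ 1 • (C.s * C.t⁻¹ ^ 2) - u ∈
      sm (C.OC true) * sm (C.OF false) := by rw [← C.fa_B_eq]; exact a10
  have a01' : ψ 3 • (C.Y * C.x⁻¹) - u ∈ sm (C.OC false) * sm (C.OF true) := by
    rw [← C.fa_B_eq]; exact a01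
  have a11' : ψ 0 • (C.s * C.t⁻¹) + ψ 1 • (C.s * C.t⁻¹ ^ 2) + ψ 3 • (C.Y * C.x⁻¹) - u ∈
      sm (C.OC true) * sm (C.OF true) := by rw [← C.fa_B_eq]; exact a11
  have hOC : ∀ a, ∀ y ∈ sm (C.OC a), y ∈ C.KC := fun a y hy => C.OC_le a y hy
  have hOF : ∀ b, ∀ y ∈ sm (C.OF b), y ∈ C.KF := fun b y hy => C.OF_le b y hy
  have hOCs : ∀ y ∈ (sm (C.OC false) ⊔ sm (C.OC true) : Submodule ℂ F), y ∈ C.KC := by
    intro y hy
    obtain ⟨α, hα, β, hβ, rfl⟩ := Submodule.mem_sup.mp hy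
    exact add_mem (hOC _ α hα) (hOC _ β hβ)
  have hOFs : ∀ y ∈ (sm (C.OF false) ⊔ sm (C.OF true) : Submodule ℂ F), y ∈ C.KF := by
    intro y hy
    obtain ⟨α, hα, β, hβ, rfl⟩ := Submodule.mem_sup.mp hy
    exact add_mem (hOF _ α hα) (hOF _ β hβ)
  have hN2s : ∀ y ∈ (C.N2 false ⊔ C.N2 true : Submodule ℂ F), y ∈ C.KC := by
    intro y hy
    obtain ⟨α, hα, β, hβ, rfl⟩ := Submodule.mem_sup.mp hy
    exact add_mem (C.fa_N2_KC _ α hα) (C.fa_N2_KC _ β hβ)
  have one_OF : ∀ b, (1 : F) ∈ sm (C.OF b) := fun b => one_mem (C.OF b)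
  have one_OC : ∀ a, (1 : F) ∈ sm (C.OC a) := fun a => one_mem (C.OC a)
  -- the value of `h01c`
  have hh01mem : h01c ∈ C.N2 true * sm (C.OF true) := by
    have h1 : (1 - C.p + i * C.q) * C.x⁻¹ ∈ sm (C.OF true) := by
      have hX : C.x⁻¹ ∈ C.OF true := Algebra.subset_adjoin (by simp [Xc, coord])
      have hP : C.p * C.x⁻¹ ∈ C.OF true := Algebra.subset_adjoin (by simp [P])
      have hQ : i * C.q * C.x⁻¹ ∈ C.OF true := Algebra.subset_adjoin (by simp [Q])
      have := add_mem (sub_mem hX hP) hQ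
      have e : (1 - C.p + i * C.q) * C.x⁻¹ = C.x⁻¹ - C.p * C.x⁻¹ + i * C.q * C.x⁻¹ := by ring
      rw [e]; exact this
    have h2 := Submodule.mul_mem_mul C.G0_mem h1
    have h3 := Submodule.smul_mem _ (-(1 / 4) : ℂ) h2
    convert h3 using 1
    rw [hh01c, Algebra.smul_def]
    simp only [map_neg, map_div₀, map_one, map_ofNat]
    ring
  -- ψ 2 = 0
  have p2 : ψ 2 = 0 := by
    by_contra hne
    have h1 : ψ 2 • C.t⁻¹ ∈ (C.N2 false ⊔ C.N2 true) * sm (C.OF true) := by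
      have h2 : ψ 7 • h01c - u' ∈ (C.N2 false ⊔ C.N2 true) * sm (C.OF true) :=
        fa_mul_le_l le_sup_left b01
      have h3 : ψ 2 • C.t⁻¹ - u' ∈ (C.N2 false ⊔ C.N2 true) * sm (C.OF true) :=
        fa_mul_le_l le_sup_right b11
      have h4 : ψ 7 • h01c ∈ (C.N2 false ⊔ C.N2 true) * sm (C.OF true) :=
        Submodule.smul_mem _ _ (fa_mul_le_l le_sup_right hh01mem)
      have := add_mem (sub_mem h3 h2) h4
      convert this using 1
      ring
    have h5 := Submodule.smul_mem _ (ψ 2)⁻¹ h1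
    rw [smul_smul, inv_mul_cancel₀ hne, one_smul] at h5
    exact C.N2_indep (C.fa_mem_left (inv_mem C.fa_t_KC) hN2s (hOF true) (one_OF true) h5)
  -- ψ 7 = 0
  have p7 : ψ 7 = 0 := by
    by_contra hne
    have h1 : ψ 7 • h10c ∈ C.N2 true * (sm (C.OF false) ⊔ sm (C.OF true)) := by
      have h2 : ψ 2 • C.t⁻¹ + ψ 7 • h10c - u' ∈ C.N2 true * (sm (C.OF false) ⊔ sm (C.OF true)) :=
        fa_mul_le_r le_sup_left b10
      have h3 : ψ 2 • C.t⁻¹ - u' ∈ C.N2 true * (sm (C.OF false) ⊔ sm (C.OF true)) :=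
        fa_mul_le_r le_sup_right b11
      have := sub_mem h2 h3
      convert this using 1
      ring
    have h5 := Submodule.smul_mem _ (ψ 7)⁻¹ h1
    rw [smul_smul, inv_mul_cancel₀ hne, one_smul] at h5
    have h6 : h10c = (-(i / 4) * C.G0) * (C.Y * C.x⁻¹) := by rw [hh10c]; ring
    rw [h6] at h5
    apply C.OF_indep
    refine C.fa_mem_right C.fa_Yx_KF (C.fa_N2_KC true) hOFs ?_ ?_ h5
    · have := Submodule.smul_mem _ (-(Complex.I / 4) : ℂ) C.G0_mem
      convert this using 1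
      rw [Algebra.smul_def]
      simp only [map_neg, map_div₀, map_ofNat, i]
    · exact mul_ne_zero (neg_ne_zero.mpr (div_ne_zero fa_i_ne fa_four_ne)) C.fa_G0_ne
  -- ψ 3 = 0
  have p3 : ψ 3 = 0 := by
    by_contra hne
    have h1 : ψ 3 • (C.Y * C.x⁻¹) ∈ sm (C.OC true) * (sm (C.OF false) ⊔ sm (C.OF true)) := by
      have h2 := (fa_mul_le_r (le_sup_left : sm (C.OF false) ≤
        sm (C.OF false) ⊔ sm (C.OF true))) a10'
      have h3 := (fa_mul_le_r (le_sup_right : sm (C.OF true) ≤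
        sm (C.OF false) ⊔ sm (C.OF true))) a11'
      have := sub_mem h3 h2
      convert this using 1
      ring
    have h5 := Submodule.smul_mem _ (ψ 3)⁻¹ h1
    rw [smul_smul, inv_mul_cancel₀ hne, one_smul] at h5
    apply C.OF_indep
    refine C.fa_mem_right C.fa_Yx_KF (hOC true) hOFs (one_OC true) one_ne_zero ?_
    rwa [one_mul]
  -- ψ 0 = ψ 1 = 0
  have p01 : ψ 0 = 0 ∧ ψ 1 = 0 := by
    apply C.OC_indep
    refine C.fa_mem_left ?_ hOCs (hOF true) (one_OF true) ?_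
    · refine add_mem ?_ ?_
      · rw [Algebra.smul_def]
        exact mul_mem (C.KC.algebraMap_mem _) (mul_mem C.fa_s_KC (inv_mem C.fa_t_KC))
      · rw [Algebra.smul_def]
        exact mul_mem (C.KC.algebraMap_mem _) (mul_mem C.fa_s_KC (pow_mem (inv_mem C.fa_t_KC) 2))
    · have h2 := (fa_mul_le_l (Q := sm (C.OF true)) (le_sup_left : sm (C.OC false) ≤
        sm (C.OC false) ⊔ sm (C.OC true))) a01'
      have h3 := (fa_mul_le_l (Q := sm (C.OF true)) (le_sup_right : sm (C.OC true) ≤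
        sm (C.OC false) ⊔ sm (C.OC true))) a11'
      have := sub_mem h3 h2
      convert this using 1
      ring
  obtain ⟨p0, p1⟩ := p01
  rw [p0, p1] at a10'
  rw [p3] at a01'
  rw [p7] at b01
  rw [p2, p7] at b10
  -- u is constant
  have hu : ∃ c : ℂ, u = algebraMap ℂ F c := by
    have h1 : u ∈ (sm (C.OC true) * sm (C.OF false)) ⊓ (sm (C.OC false) * sm (C.OF true)) := by
      constructor
      · have := neg_mem a10'; simpa using this
      · have := neg_mem a01'; simpa using this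
    rw [C.inf_mul _ _ _ _ (hOC true) (hOC false) (hOF false) (hOF true)] at h1
    have e1 : (sm (C.OC true) ⊓ sm (C.OC false) : Submodule ℂ F) = 1 := by
      have : (sm (C.OC true) ⊓ sm (C.OC false) : Submodule ℂ F) = sm (C.OC false ⊓ C.OC true) := by
        ext y; simp [and_comm]
      rw [this, C.OC_inf]
      exact Algebra.toSubmodule_bot
    have e2 : (sm (C.OF false) ⊓ sm (C.OF true) : Submodule ℂ F) = 1 := by
      have : (sm (C.OF false) ⊓ sm (C.OF true) : Submodule ℂ F) = sm (C.OF false ⊓ C.OF true) := by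
        rfl
      rw [this, C.OF_inf]
      exact Algebra.toSubmodule_bot
    rw [e1, e2, one_mul] at h1
    obtain ⟨c, hc⟩ := Submodule.mem_one.mp h1
    exact ⟨c, hc.symm⟩
  obtain ⟨c, rfl⟩ := hu
  have hu' : u' = 0 := by
    refine C.fa_inf_eq_bot_smul (C.fa_N2_KC false) (C.fa_N2_KC true) (hOF true) (hOF false)
      (v := u') ?_ ?_ (Or.inl C.N2_inf)
    · have := neg_mem b01; simpa using this
    · have := neg_mem b10; simpa using this
  subst hu'
  -- the chart (0, 0)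
  have h00 : ∀ v ∈ C.E00, -(ψ 4 * C.der 1 0 v) - ψ 5 * C.der 0 1 v + ψ 6 * C.ev y0' v = 0 := by
    intro v hv
    have h1 := h false false v hv
    have h2 : (algebraMap ℂ F c) * v ∈ C.E00 := by
      rw [← Algebra.smul_def]; exact Submodule.smul_mem _ _ hv
    have h3 := add_mem h1 h2
    have h4 : (algebraMap ℂ F (-(ψ 4 * C.der 1 0 v) - ψ 5 * C.der 0 1 v + ψ 6 * C.ev y0' v)) ∈
        C.E00 := by
      have e : (algebraMap ℂ F (-(ψ 4 * C.der 1 0 v) - ψ 5 * C.der 0 1 v + ψ 6 * C.ev y0' v)) =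
          C.thc ψ false false v - C.op (algebraMap ℂ F c) 0 v + algebraMap ℂ F c * v := by
        simp [thc, Fin.sum_univ_eight, th, p7, Algebra.smul_def]
        ring
      rw [e]; exact h3
    have h5 := ((C.fa_mem_E00 _).mp h4).2
    rw [Algebra.algebraMap_eq_smul_one, map_smul, C.fa_ev_one, smul_eq_mul, mul_one] at h5
    exact h5
  obtain ⟨e, he, he1, he2⟩ := C.fa_exists_e y0
  obtain ⟨f, hf, hf1, hf2⟩ := C.fa_exists_e y0'
  have hne : y0' ≠ y0 := by decide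
  have p4 : ψ 4 = 0 := by
    have h1 := h00 (C.t * e) ((C.fa_mem_E00 _).mpr ⟨mul_mem C.t_mem he, by
      rw [C.ev_mul _ _ _ C.t_mem he, C.fa_ev_t, zero_mul]⟩)
    rw [C.der_mul _ _ _ _ C.t_mem he, C.der_mul _ _ _ _ C.t_mem he, C.ev_mul _ _ _ C.t_mem he,
      C.fa_ev_t, C.fa_ev_t, C.fa_der_t, C.fa_der_t, he1] at h1
    simpa using h1
  have p5 : ψ 5 = 0 := by
    have h1 := h00 (C.x * e) ((C.fa_mem_E00 _).mpr ⟨mul_mem C.x_mem he, by
      rw [C.ev_mul _ _ _ C.x_mem he, C.fa_ev_x, zero_mul]⟩)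
    rw [C.der_mul _ _ _ _ C.x_mem he, C.der_mul _ _ _ _ C.x_mem he, C.ev_mul _ _ _ C.x_mem he,
      C.fa_ev_x, C.fa_ev_x, C.fa_der_x, C.fa_der_x, he1] at h1
    simpa using h1
  have p6 : ψ 6 = 0 := by
    have h1 := h00 f ((C.fa_mem_E00 _).mpr ⟨hf, hf2 _ hne.symm⟩)
    rw [p4, p5, hf1] at h1
    simpa using h1
  funext k
  fin_cases k
  · exact p0
  · exact p1
  · exact p2
  · exact p3
  · exact p4
  · exact p5
  · exact p6
  · exact p7

end Cfg

end

end Pool.Agent.EllMod
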