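import Pool.Agent.MP_77976d_ag.DetBase
import Pool.Agent.MP_77976d_ag.Th
import Pool.Agent.MP_77976d_ag.Ldc
import Pool.Agent.MP_77976d_ag.Dfo
import Pool.Agent.MP_77976d_ag.F1

/-! # DCV : a first order family with determinant `detN` has no component in the direction `th 3` -/

open scoped TensorProduct
open IsLocalRing

namespace Pool.Agent.EllMod

noncomputable section

variable {F : Type} [Field F] [Algebra ℂ F] (C : Cfg F)

namespace Cfg

theorem dcv_two_ne : (2 : F) ≠ 0 := by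
  intro h
  exact fa_four_ne (F := F) (by rw [show (4 : F) = 2 * 2 by norm_num, h, mul_zero])

/-- an alternating `K`-bilinear form on `F` is a multiple of `detω` -/
theorem dcv_form (f : F → F → ↥C.K) (h1 : ∀ v v' w, f (v + v') w = f v w + f v' w)
    (h2 : ∀ v w w', f v (w + w') = f v w + f v w') (h3 : ∀ v, f v v = 0)
    (h4 : ∀ (k : ↥C.K) v w, f (k • v) w = k * f v w) :
    ∃ c : ↥C.K, ∀ v w, f v w = c * C.detω v w := by
  have sk : ∀ v w, f v w = - f w v := by
    intro v w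
    have := h3 (v + w)
    rw [h1, h2, h2, h3, h3] at this
    linear_combination this
  have h4' : ∀ (k : ↥C.K) v w, f v (k • w) = k * f v w := by
    intro k v w
    rw [sk, h4, sk w v]
    ring
  have hj : C.j false ≠ 0 := C.op_j_ne false
  have hdec : ∀ v : F, ∃ k l : ↥C.K, v = k • (1 : F) + l • C.j false := by
    intro v
    refine ⟨⟨(v + C.ι v) / 2, ?_⟩, ⟨(v - C.ι v) / (2 * C.j false), ?_⟩, ?_⟩
    · rw [mem_K, map_div₀, map_add, det_ιι, map_ofNat, add_comm]
    · rw [mem_K, map_div₀, map_sub, det_ιι, map_mul, map_ofNat, ι_j]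
      rw [mul_neg, div_neg, ← neg_div, neg_sub]
    · show v = (v + C.ι v) / 2 * 1 + (v - C.ι v) / (2 * C.j false) * C.j false
      have h2 : (2 : F) ≠ 0 := dcv_two_ne
      field_simp
      ring
  have hne : C.detω 1 (C.j false) ≠ 0 := by
    intro h
    have h' : C.detF 1 (C.j false) = 0 := by
      have := congrArg (fun y : ↥C.K => (y : F)) h
      exact this
    unfold detF at h'
    rw [ι_j, map_one] at h'
    have h5 := C.det_ne
    rcases mul_eq_zero.1 h' with h6 | h6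
    · have : (2 : F) * C.j false = 0 := by linear_combination -h6
      rcases mul_eq_zero.1 this with h7 | h7
      · exact dcv_two_ne h7
      · exact hj h7
    · exact h5 (inv_eq_zero.1 h6)
  refine ⟨f 1 (C.j false) * (C.detω 1 (C.j false))⁻¹, fun v w => ?_⟩
  obtain ⟨k, l, hv⟩ := hdec v
  obtain ⟨k', l', hw⟩ := hdec w
  have e1 : f v w = (k * l' - l * k') * f 1 (C.j false) := by
    rw [hv, hw, h1, h2, h2, h4, h4, h4, h4, h4', h4', h4', h4', h3, h3, sk (C.j false) 1]
    ring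
  have e2 : C.detω v w = (k * l' - l * k') * C.detω 1 (C.j false) := by
    rw [hv, hw]
    simp only [map_add, map_smul, LinearMap.add_apply, LinearMap.smul_apply, smul_eq_mul,
      detω_self]
    rw [detω_swap C (C.j false) 1]
    ring
  rw [e1, e2]
  field_simp

/-- global functions are constant -/
theorem dcv_const {u : F} (h10 : u ∈ C.B true false) (h01 : u ∈ C.B false true) :
    ∃ c : ℂ, u = algebraMap ℂ F c := by
  have a10' : u ∈ sm (C.OC true) * sm (C.OF false) := by rw [← C.fa_B_eq]; exact h10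
  have a01' : u ∈ sm (C.OC false) * sm (C.OF true) := by rw [← C.fa_B_eq]; exact h01
  have hOC : ∀ a, ∀ y ∈ sm (C.OC a), y ∈ C.KC := fun a y hy => C.OC_le a y hy
  have hOF : ∀ b, ∀ y ∈ sm (C.OF b), y ∈ C.KF := fun b y hy => C.OF_le b y hy
  have h1 : u ∈ (sm (C.OC true) * sm (C.OF false)) ⊓ (sm (C.OC false) * sm (C.OF true)) :=
    ⟨a10', a01'⟩
  rw [C.inf_mul _ _ _ _ (hOC true) (hOC false) (hOF false) (hOF true)] at h1
  have e1 : (sm (C.OC true) ⊓ sm (C.OC false) : Submodule ℂ F) = 1 := by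
    have : (sm (C.OC true) ⊓ sm (C.OC false) : Submodule ℂ F) = sm (C.OC false ⊓ C.OC true) := by
      ext y; simp [and_comm]
    rw [this, C.OC_inf]
    exact Algebra.toSubmodule_bot
  have e2 : (sm (C.OF false) ⊓ sm (C.OF true) : Submodule ℂ F) = 1 := by
    have : (sm (C.OF false) ⊓ sm (C.OF true) : Submodule ℂ F) = sm (C.OF false ⊓ C.OF true) := by
      rfl
    rw [this, C.OF_inf]
    exact Algebra.toSubmodule_bot
  rw [e1, e2, one_mul] at h1
  obtain ⟨c, hc⟩ := Submodule.mem_one.mp h1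
  exact ⟨c, hc.symm⟩

theorem dcv_cf_smul {W : Type} [AddCommGroup W] [Module ℂ W] (φ : D 1 →ₗ[ℂ] ℂ) (a : D 1)
    (y : D 1 ⊗[ℂ] W) : cf φ (a • y) = cf (φ ∘ₗ LinearMap.mulLeft ℂ a) y := by
  induction y using TensorProduct.induction_on with
  | zero => simp
  | add y z hy hz => rw [smul_add, map_add, map_add, hy, hz]
  | tmul b w => simp [TensorProduct.smul_tmul']

theorem hasDet_conv (ψ : Fin 8 → ℂ) (h : HasDet C.surf C.detN
    (foFam C.E (fun (_ : Fin 1) a b => ∑ k, ψ k • C.th k a b))) : ψ 3 = 0 := by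
  obtain ⟨ω, hself, hk, hmem, hred⟩ := h
  -- coefficients of the form
  have add1 : ∀ v v' : F, ((1 : D 1) ⊗ₜ[ℂ] (v + v') : D 1 ⊗[ℂ] F) = 1 ⊗ₜ v + 1 ⊗ₜ v' :=
    fun v v' => TensorProduct.tmul_add _ _ _
  have smul1 : ∀ (k : ↥C.K) (v : F), ((1 : D 1) ⊗ₜ[ℂ] (k • v) : D 1 ⊗[ℂ] F) =
      kact (D 1) k (1 ⊗ₜ v) := fun k v => (dt_kact_tmul k 1 v).symm
  have gen : ∀ φ : D 1 →ₗ[ℂ] ℂ, ∃ c : ↥C.K, ∀ v w : F,
      cf φ (ω (1 ⊗ₜ v) (1 ⊗ₜ w)) = c * C.detω v w := by
    intro φ
    refine C.dcv_form (fun v w => cf φ (ω (1 ⊗ₜ v) (1 ⊗ₜ w))) ?_ ?_ ?_ ?_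
    · intro v v' w
      simp only [add1, map_add, LinearMap.add_apply]
    · intro v w w'
      simp only [add1, map_add]
    · intro v
      simp only [hself, map_zero]
    · intro k v w
      simp only [smul1, hk, fo_cf_kact, smul_eq_mul]
  obtain ⟨c0, hc0⟩ := gen (Dfst 1)
  obtain ⟨c1, hc1⟩ := gen (Dsnd 1 0)
  have fm : ∀ (v : F) (u : Fin 1 → F), (foM v u : D 1 ⊗[ℂ] F) =
      1 ⊗ₜ v + (eps 0 : D 1) • (1 ⊗ₜ[ℂ] u 0) := by
    intro v u
    unfold foM
    rw [Fin.sum_univ_one, TensorProduct.smul_tmul', smul_eq_mul, mul_one]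
  have F0 : ∀ (v w : F) (u u' : Fin 1 → F), cf (Dfst 1) (ω (foM v u) (foM w u')) =
      c0 * C.detω v w := by
    intro v w u u'
    rw [fm, fm]
    simp only [map_add, LinearMap.add_apply, map_smul, LinearMap.smul_apply, cf_fst_smul, eps_fst,
      zero_smul, add_zero, hc0, smul_add]
  have F1 : ∀ (v w : F) (u u' : Fin 1 → F), cf (Dsnd 1 0) (ω (foM v u) (foM w u')) =
      c1 * C.detω v w + c0 * (C.detω (u 0) w + C.detω v (u' 0)) := by
    intro v w u u'
    rw [fm, fm]
    simp only [map_add, LinearMap.add_apply, map_smul, LinearMap.smul_apply, cf_snd_smul,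
      cf_fst_smul, eps_fst, eps_snd, zero_smul, zero_add, add_zero, hc0, hc1, smul_add,
      Pi.single_eq_same, one_smul]
    ring
  set θ : Bool → Bool → (F →ₗ[ℂ] F) := fun a b => ∑ k, ψ k • C.th k a b with hθ
  have inFam : ∀ a b, ∀ v ∈ C.E a b, (foM v (fun _ => θ a b v) : D 1 ⊗[ℂ] F) ∈
      foFam C.E (fun (_ : Fin 1) a b => ∑ k, ψ k • C.th k a b) a b := by
    intro a b v hv
    refine mem_foFam.2 ⟨?_, fun i => ?_⟩
    · rw [foM_fst]; exact hv
    · rw [foM_snd, foM_fst, hθ, sub_self]; exact zero_mem _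
  have cfmem : ∀ (N : Submodule ℂ ↥C.K) (φ : D 1 →ₗ[ℂ] ℂ) (y : D 1 ⊗[ℂ] ↥C.K),
      y ∈ N.baseChange (D 1) → cf φ y ∈ N := by
    intro N φ y hy
    rw [Submodule.baseChange_eq_span] at hy
    refine Submodule.span_induction (p := fun y _ => ∀ φ : D 1 →ₗ[ℂ] ℂ, cf φ y ∈ N)
      ?_ ?_ ?_ ?_ hy φ
    · rintro _ ⟨n, hn, rfl⟩ φ
      rw [TensorProduct.mk_apply, cf_tmul]
      exact Submodule.smul_mem _ _ hn
    · intro φ
      rw [map_zero]; exact zero_mem _
    · intro y z _ _ hy hz φ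
      rw [map_add]; exact add_mem (hy φ) (hz φ)
    · intro a y _ hy φ
      rw [dcv_cf_smul]
      exact hy _
  -- the constant term
  have hR0 : ∀ a b, c0 ∈ C.surf.R a b := by
    intro a b
    refine C.detω_hull a b c0 fun v hv w hw => ?_
    rw [← F0 v w (fun _ => θ a b v) (fun _ => θ a b w)]
    exact cfmem _ _ _ (hmem a b _ (inFam a b v hv) _ (inFam a b w hw))
  obtain ⟨γ, hγ⟩ := C.dcv_const (u := (c0 : F)) ((C.mem_R _ _ _).1 (hR0 true false))
    ((C.mem_R _ _ _).1 (hR0 false true))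
  have hγ0 : γ ≠ 0 := by
    intro h0
    have hc : c0 = 0 := by
      apply Subtype.ext
      rw [hγ, h0, map_zero]
      rfl
    have hall : ∀ (a b : Bool) (k : ↥C.K), k ∈ C.surf.R a b := by
      intro a b k
      refine hred (foPt 1) a b k fun v hv w hw => ?_
      rw [fo_redW, ← foM_eta v, ← foM_eta w, F0, hc, zero_mul, mul_zero]
      exact zero_mem _
    obtain ⟨c, hc⟩ := C.dcv_const (u := C.t) ((C.mem_R _ _ C.tK).1 (hall true false _))
      ((C.mem_R _ _ C.tK).1 (hall false true _))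
    have h1 := C.fa_der_t 1 0
    rw [hc, Algebra.algebraMap_eq_smul_one, map_smul, fa_der_one, smul_zero] at h1
    exact zero_ne_one h1
  -- the infinitesimal term
  have hR1 : ∀ a b, ∀ v ∈ C.E a b, ∀ w ∈ C.E a b,
      c1 * C.detω v w + c0 * (C.detω (θ a b v) w + C.detω v (θ a b w)) ∈ C.detN a b := by
    intro a b v hv w hw
    rw [← F1 v w (fun _ => θ a b v) (fun _ => θ a b w)]
    exact cfmem _ _ _ (hmem a b _ (inFam a b v hv) _ (inFam a b w hw))
  have hc0 : ∀ k : ↥C.K, c0 * k = γ • k := by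
    intro k
    apply Subtype.ext
    show (c0 : F) * (k : F) = γ • (k : F)
    rw [hγ, Algebra.smul_def]
  have hθ' : ∀ a b, ∀ v ∈ C.E a b, ∀ w ∈ C.E a b,
      (C.detω (θ a b v) w + C.detω v (θ a b w)) -
        ψ 3 • (C.detω (C.th 3 a b v) w + C.detω v (C.th 3 a b w)) ∈ C.detN a b := by
    intro a b v hv w hw
    have e : C.detω (θ a b v) w + C.detω v (θ a b w) =
        ∑ k, ψ k • (C.detω (C.th k a b v) w + C.detω v (C.th k a b w)) := by
      have e1 : ∀ (f : Fin 8 → F) (w : F), C.detω (∑ k, ψ k • f k) w =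
          ∑ k, ψ k • C.detω (f k) w := by
        intro f w
        change C.om (∑ k, ψ k • f k) w = ∑ k, ψ k • C.om (f k) w
        rw [map_sum, LinearMap.sum_apply]
        exact Finset.sum_congr rfl fun k _ => by rw [map_smul, LinearMap.smul_apply]
      have e2 : ∀ (f : Fin 8 → F) (w : F), C.detω w (∑ k, ψ k • f k) =
          ∑ k, ψ k • C.detω w (f k) := by
        intro f w
        change C.om w (∑ k, ψ k • f k) = ∑ k, ψ k • C.om w (f k)
        rw [map_sum]
        exact Finset.sum_congr rfl fun k _ => by rw [map_smul]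
      rw [hθ]
      simp only [LinearMap.sum_apply, LinearMap.smul_apply]
      rw [e1, e2, ← Finset.sum_add_distrib]
      exact Finset.sum_congr rfl fun k _ => (smul_add _ _ _).symm
    rw [e, ← Finset.sum_erase_eq_sub (Finset.mem_univ 3)]
    refine sum_mem fun k hk => Submodule.smul_mem _ _ ?_
    exact C.dfo_der k (Finset.ne_of_mem_erase hk) a b v w hv hw
  have h10 : c1 ∈ C.surf.R true false := by
    refine C.detω_hull true false c1 fun v hv w hw => ?_
    have h1 := hR1 true false v hv w hw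
    have h2 := hθ' true false v hv w hw
    have e : ∀ z, C.th 3 true false z = 0 := fun z => rfl
    rw [e, e, map_zero, map_zero, LinearMap.zero_apply, add_zero, smul_zero, sub_zero] at h2
    rw [hc0] at h1
    have := sub_mem h1 (Submodule.smul_mem _ γ h2)
    convert this using 1
    ring
  let yx : ↥C.K := ⟨C.Y * C.x⁻¹, by
    rw [mem_K, map_mul, map_inv₀, ι_x]
    exact congrArg (· * C.x⁻¹) C.Y_K⟩
  have h11 : c1 + (2 * γ * ψ 3) • yx ∈ C.surf.R true true := by
    refine C.detω_hull true true _ fun v hv w hw => ?_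
    have h1 := hR1 true true v hv w hw
    have h2 := hθ' true true v hv w hw
    have e : ∀ z, C.th 3 true true z = yx • z := fun z => by
      show C.op (C.Y * C.x⁻¹) 0 z = C.Y * C.x⁻¹ * z
      rw [op_apply, zero_mul, add_zero]
    rw [e, e, map_smul, map_smul, LinearMap.smul_apply] at h2
    rw [hc0] at h1
    have := sub_mem h1 (Submodule.smul_mem _ γ h2)
    convert this using 1
    simp only [smul_eq_mul, add_mul, Algebra.smul_def, map_mul, map_ofNat]
    ring
  rw [C.mem_R] at h10 h11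
  by_contra hne
  have hOC : ∀ a, ∀ y ∈ sm (C.OC a), y ∈ C.KC := fun a y hy => C.OC_le a y hy
  have hOF : ∀ b, ∀ y ∈ sm (C.OF b), y ∈ C.KF := fun b y hy => C.OF_le b y hy
  have hOFs : ∀ y ∈ (sm (C.OF false) ⊔ sm (C.OF true) : Submodule ℂ F), y ∈ C.KF := by
    intro y hy
    obtain ⟨α, hα, β, hβ, rfl⟩ := Submodule.mem_sup.mp hy
    exact add_mem (hOF _ α hα) (hOF _ β hβ)
  have one_OC : ∀ a, (1 : F) ∈ sm (C.OC a) := fun a => one_mem (C.OC a)
  have a10 : (c1 : F) ∈ sm (C.OC true) * sm (C.OF false) := by rw [← C.fa_B_eq]; exact h10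
  have a11 : (c1 : F) + (2 * γ * ψ 3) • (C.Y * C.x⁻¹) ∈ sm (C.OC true) * sm (C.OF true) := by
    rw [← C.fa_B_eq]; exact h11
  have h1 : (2 * γ * ψ 3) • (C.Y * C.x⁻¹) ∈ sm (C.OC true) * (sm (C.OF false) ⊔ sm (C.OF true)) := by
    have h2 := (fa_mul_le_r (le_sup_left : sm (C.OF false) ≤
      sm (C.OF false) ⊔ sm (C.OF true))) a10
    have h3 := (fa_mul_le_r (le_sup_right : sm (C.OF true) ≤
      sm (C.OF false) ⊔ sm (C.OF true))) a11
    have := sub_mem h3 h2
    convert this using 1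
    ring
  have h5 := Submodule.smul_mem _ (2 * γ * ψ 3)⁻¹ h1
  rw [smul_smul, inv_mul_cancel₀ (mul_ne_zero (mul_ne_zero two_ne_zero hγ0) hne), one_smul] at h5
  apply C.OF_indep
  refine C.fa_mem_right C.fa_Yx_KF (hOC true) hOFs (one_OC true) one_ne_zero ?_
  rwa [one_mul]

end Cfg

end

end Pool.Agent.EllMod
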