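import Mathlib

/-!
# Rank two sheaves on normalisations of `P¹ × P¹` : definitions

`K` is a finite extension field of `ℂ(t, x)`; `X` is the normalisation of `P¹ × P¹` in `K`, a
normal projective surface with a finite map `(t, x) : X → P¹ × P¹`.  `X` is covered by four
affine charts `U_{ab}`, `a, b : Bool`: on `U_{ab}` the coordinate of the first factor is `t`
(`a = false`) or `1/t` (`a = true`), the coordinate of the second factor is `x` (`b = false`)
or `1/x` (`b = true`).  The fibration is `π = t : X → P¹`.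
-/

open scoped TensorProduct
open IsLocalRing Filter

namespace Pool.Agent.EllMod

noncomputable section

/-- The affine coordinate `t` or `1/t` of a chart of `P¹`. -/
def coord {K : Type} [Field K] (t : K) : Bool → K
  | false => t
  | true => t⁻¹

/-- The scalar `1` (`a = false`) or `t⁻ⁿ` (`a = true`). -/
def twc {K : Type} [Field K] (t : K) (n : ℕ) : Bool → K
  | false => 1
  | true => (t⁻¹) ^ n

/-- A finite extension `K` of `ℂ(t, x)`; it defines the surface `X`, the normalisation of
`P¹ × P¹` in `K`. -/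
structure Surf (K : Type) [Field K] [Algebra ℂ K] where
  /-- coordinate on the first factor -/
  t : K
  /-- coordinate on the second factor -/
  x : K
  indep : AlgebraicIndependent ℂ ![t, x]
  fin : FiniteDimensional (IntermediateField.adjoin ℂ {t, x}) K

variable {K : Type} [Field K] [Algebra ℂ K] (X : Surf K)

/-- The coordinate ring of the chart `U_{ab}`: the integral closure in `K` of the polynomial
ring in the two coordinates. -/
def Surf.R (a b : Bool) : Subalgebra ℂ K :=
  (integralClosure (Algebra.adjoin ℂ {coord X.t a, coord X.x b}) K).restrictScalars ℂ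

/-- `ℂ`-subspaces of `W` indexed by the four charts (the sections over the charts of a subsheaf
of the constant sheaf `W`). -/
abbrev Lat (W : Type) [AddCommGroup W] [Module ℂ W] := Bool → Bool → Submodule ℂ W

/-- The structure sheaf of `X`. -/
def Surf.O : Lat K := fun a b => Subalgebra.toSubmodule (X.R a b)

section sheaf

variable {W : Type} [AddCommGroup W] [Module ℂ W] [Module K W]

/-- `E` is a torsion free coherent sheaf on `X` with generic stalk `W`: on every chart it is
the module spanned over the coordinate ring by finitely many elements of `W`, these modules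
agree over the intersections of the charts, and they span `W` over `K`. -/
structure IsCoh (E : Lat W) : Prop where
  fg : ∀ a b, ∃ S : Finset W, (E a b : Set W) = Submodule.span (X.R a b) (S : Set W)
  glue_t : ∀ a a' b, ∀ v ∈ E a b, ∃ n : ℕ, (coord X.t a') ^ n • v ∈ E a' b
  glue_x : ∀ a b b', ∀ v ∈ E a b, ∃ n : ℕ, (coord X.x b') ^ n • v ∈ E a b'
  top : ∀ a b, Submodule.span K (E a b : Set W) = ⊤

variable [IsScalarTower ℂ K W]

/-- Global sections of `E(m, n) = E ⊗ O(m, n)`. -/
def H0 (E : Lat W) (m n : ℕ) : Submodule ℂ W where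
  carrier := {v | ∀ a b, (twc X.t m a * twc X.x n b) • v ∈ E a b}
  zero_mem' := fun a b => by simp
  add_mem' := fun {v w} hv hw a b => by
    rw [smul_add]; exact add_mem (hv a b) (hw a b)
  smul_mem' := fun c v hv a b => by
    rw [smul_comm]; exact Submodule.smul_mem _ c (hv a b)

/-- The field `ℂ(t)`. -/
abbrev Surf.kt : IntermediateField ℂ K := IntermediateField.adjoin ℂ {X.t}

/-- The field `ℂ(x)`. -/
abbrev Surf.kx : IntermediateField ℂ K := IntermediateField.adjoin ℂ {X.x}

/-- Sections of `E` over the two charts of the generic fibre of `π = t : X → P¹`, a curve over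
`ℂ(t)`. -/
def fibT (E : Lat W) (b : Bool) : Submodule X.kt W := Submodule.span X.kt (E false b : Set W)

/-- Sections of `E` over the two charts of the generic fibre of `x : X → P¹`, a curve over
`ℂ(x)`. -/
def fibX (E : Lat W) (a : Bool) : Submodule X.kx W := Submodule.span X.kx (E a false : Set W)

/-- `h⁰` (over `ℂ(t)`) of the restriction of `E(0, n)` to the generic fibre of `t`. -/
def h0t (E : Lat W) (n : ℕ) : ℕ :=
  Module.finrank X.kt ↥(⨅ b, (fibT X E b).comap (Module.toModuleEnd X.kt W (twc X.x n b)))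

/-- `h⁰` (over `ℂ(x)`) of the restriction of `E(n, 0)` to the generic fibre of `x`. -/
def h0x (E : Lat W) (n : ℕ) : ℕ :=
  Module.finrank X.kx ↥(⨅ a, (fibX X E a).comap (Module.toModuleEnd X.kx W (twc X.t n a)))

/-- The saturated rank one subsheaf `E ∩ K v` of `E`. -/
def line (E : Lat W) (v : W) : Lat W := fun a b =>
  E a b ⊓ (Submodule.span K {v}).restrictScalars ℂ

/-- `E` (of rank two, with `c₁(E) = 0`) is slope stable for the polarisation `O(a, b)`: every
saturated rank one subsheaf `S = E ∩ K v` has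
`deg S = a * deg (S | generic fibre of t) + b * deg (S | generic fibre of x) < 0`.
By Riemann-Roch on the generic fibres the degrees are `h⁰(S(n)) - h⁰(O(n))` for large `n`. -/
def MuStable (E : Lat W) (a b : ℕ) : Prop :=
  ∀ v : W, v ≠ 0 → ∀ᶠ n : ℕ in atTop,
    (a : ℤ) * ((h0t X (line (K := K) E v) n : ℤ) - h0t X X.O n) +
      (b : ℤ) * ((h0x X (line (K := K) E v) n : ℤ) - h0x X X.O n) < 0

/-- `c₂(E) = c` for a sheaf `E` of rank two with `c₁(E) = 0`: by Riemann-Roch
`χ(E(m, n)) = 2 χ(O(m, n)) - c₂(E)`, and there is no higher cohomology for large `m`, `n`. -/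
def C2 (E : Lat W) (c : ℤ) : Prop :=
  ∃ N : ℕ, ∀ m ≥ N, ∀ n ≥ N,
    (Module.finrank ℂ (H0 X E m n) : ℤ) + c = 2 * Module.finrank ℂ (H0 X X.O m n)

/-- The determinant of `E` (of rank two) is trivial: there is an alternating form on the
generic stalk such that on each chart the reflexive hull of the module generated by its values
on `E` is the coordinate ring. -/
def DetTrivial (E : Lat W) : Prop :=
  ∃ ω : W →ₗ[K] W →ₗ[K] K, (∀ v, ω v v = 0) ∧
    ∀ a b, ∀ k : K, (∀ v ∈ E a b, ∀ w ∈ E a b, k * ω v w ∈ X.R a b) ↔ k ∈ X.R a b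

end sheaf

/-- `X` is smooth over `ℂ`. -/
def SmoothSurf : Prop := ∀ a b, Algebra.Smooth ℂ (X.R a b)

/-- The generic fibre of `π = t : X → P¹` is geometrically connected of genus one:
`h⁰(O) = 1` and `h⁰(O(n)) = d n` for `n ≥ 1`, where `d > 0` is the degree of `O(1)`. -/
def EllipticFib : Prop :=
  h0t X X.O 0 = 1 ∧ ∃ d : ℕ, 0 < d ∧ ∀ n : ℕ, 1 ≤ n → h0t X X.O n = d * n

/-- Sections over `U_{ab}` of the canonical sheaf, `k` standing for `k dt ∧ dx`: these are the
`k` such that `(k dt ∧ dx)(D₁, D₂)` is regular on `U_{ab}` for all vector fields `D₁, D₂` on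
`U_{ab}`. -/
def canon (a b : Bool) : Set K :=
  {k | ∀ D₁ D₂ : Derivation ℂ K K, (∀ r ∈ X.R a b, D₁ r ∈ X.R a b) →
    (∀ r ∈ X.R a b, D₂ r ∈ X.R a b) → k * (D₁ X.t * D₂ X.x - D₁ X.x * D₂ X.t) ∈ X.R a b}

/-- Some power `ω_X^m`, `m > 0`, of the canonical sheaf is isomorphic to `π^* O(k)`, `k > 0`,
where `π = t : X → P¹`.  (If the general fibre of `π` is a smooth curve of genus one this says
that `X` is minimal of Kodaira dimension one.) -/
def CanonFibre : Prop :=
  ∃ c : Bool → Bool → K, (∀ a b, c a b ≠ 0 ∧ ∀ k : K, k ∈ canon X a b ↔ k * (c a b)⁻¹ ∈ X.R a b) ∧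
    ∃ δ : K, δ ≠ 0 ∧ ∃ m k : ℕ, 0 < m ∧ 0 < k ∧
      ∀ a b, (c a b) ^ m * δ * twc X.t k a ∈ X.R a b ∧ ((c a b) ^ m * δ * twc X.t k a)⁻¹ ∈ X.R a b

section families

variable {W : Type} [AddCommGroup W] [Module ℂ W] [Module K W] [IsScalarTower ℂ K W]
variable (A : Type) [CommRing A] [Algebra ℂ A]

/-- The action of `k ∈ K` on `A ⊗ W`. -/
def kact (k : K) : (A ⊗[ℂ] W) →ₗ[A] (A ⊗[ℂ] W) :=
  (Algebra.lsmul ℂ ℂ W k).baseChange A

variable {A}

/-- Reduction `A ⊗ W → W` along a point `π : A → ℂ`. -/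
def redW (π : A →ₐ[ℂ] ℂ) : (A ⊗[ℂ] W) →ₗ[ℂ] W :=
  (TensorProduct.lid ℂ W).toLinearMap ∘ₗ (π.toLinearMap.rTensor W)

/-- `A`-submodules of `A ⊗ W` indexed by the charts. -/
abbrev RawFam (A W : Type) [CommRing A] [Algebra ℂ A] [AddCommGroup W] [Module ℂ W] :=
  Bool → Bool → Submodule A (A ⊗[ℂ] W)

/-- `L` is a deformation of the torsion free sheaf `E` over the finite local `ℂ`-algebra `A`:
an `A`-flat coherent sheaf `L` on `X × Spec A` with `L ⊗_A ℂ = E`.  As `E` is torsion free such
an `L` is a subsheaf of its generic stalk, which is free and can be identified with `A ⊗ W`;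
given the inclusion `L ⊆ A ⊗ W`, `L` is flat over `A` with `L ⊗_A ℂ → W` injective if and only
if `(A ⊗ W) / L` is flat over `A`. -/
structure IsFam (E : Lat W) (L : RawFam A W) : Prop where
  smul_mem : ∀ a b, ∀ r ∈ X.R a b, ∀ v ∈ L a b, kact A r v ∈ L a b
  glue_t : ∀ a a' b, ∀ v ∈ L a b, ∃ n : ℕ, kact A ((coord X.t a') ^ n) v ∈ L a' b
  glue_x : ∀ a b b', ∀ v ∈ L a b, ∃ n : ℕ, kact A ((coord X.x b') ^ n) v ∈ L a b'
  flat : ∀ a b, Module.Flat A ((A ⊗[ℂ] W) ⧸ L a b)
  red : ∀ π : A →ₐ[ℂ] ℂ, ∀ a b, (L a b).carrier.image (redW π) = E a b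

/-- Isomorphism of deformations of `E` (as subsheaves of `A ⊗ W`): an `A ⊗ K`-linear
automorphism of the generic stalk reducing to the identity of `W`, mapping `L` onto `L'`. -/
def FamIso (K : Type) [Field K] [Algebra ℂ K] {W : Type} [AddCommGroup W] [Module ℂ W]
    [Module K W] [IsScalarTower ℂ K W] {A : Type} [CommRing A] [Algebra ℂ A]
    (L L' : RawFam A W) : Prop :=
  ∃ g : (A ⊗[ℂ] W) ≃ₗ[A] (A ⊗[ℂ] W), (∀ (k : K) v, g (kact A k v) = kact A k (g v)) ∧
    (∀ (π : A →ₐ[ℂ] ℂ) v, redW π (g v) = redW π v) ∧ ∀ a b v, g v ∈ L' a b ↔ v ∈ L a b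

/-- Base change of a family along `α : A → A'`. -/
def push {A' : Type} [CommRing A'] [Algebra ℂ A'] (α : A →ₐ[ℂ] A') (L : RawFam A W) :
    RawFam A' W :=
  fun a b => Submodule.span A' ((α.toLinearMap.rTensor W) '' (L a b : Set (A ⊗[ℂ] W)))

/-- `R` pro-represents the deformation functor of `E`: natural bijections between `ℂ`-algebra
homomorphisms `R → A` and isomorphism classes of deformations of `E` over `A`, for all finite
local `ℂ`-algebras `A`.  The local ring at `[E]` of a moduli scheme of stable sheaves on `X` has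
this property. -/
structure ProRep (E : Lat W) (R : Type) [CommRing R] [Algebra ℂ R] where
  /-- the deformation defined by a homomorphism -/
  fam : ∀ (A : Type) [CommRing A] [Algebra ℂ A] [Module.Finite ℂ A] [IsLocalRing A],
    (R →ₐ[ℂ] A) → RawFam A W
  isFam : ∀ (A : Type) [CommRing A] [Algebra ℂ A] [Module.Finite ℂ A] [IsLocalRing A]
    (f : R →ₐ[ℂ] A), IsFam X E (fam A f)
  inj : ∀ (A : Type) [CommRing A] [Algebra ℂ A] [Module.Finite ℂ A] [IsLocalRing A]
    (f g : R →ₐ[ℂ] A), FamIso K (fam A f) (fam A g) → f = g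
  surj : ∀ (A : Type) [CommRing A] [Algebra ℂ A] [Module.Finite ℂ A] [IsLocalRing A]
    (L : RawFam A W), IsFam X E L → ∃ f : R →ₐ[ℂ] A, FamIso K (fam A f) L
  nat : ∀ (A A' : Type) [CommRing A] [Algebra ℂ A] [Module.Finite ℂ A] [IsLocalRing A]
    [CommRing A'] [Algebra ℂ A'] [Module.Finite ℂ A'] [IsLocalRing A']
    (α : A →ₐ[ℂ] A') (f : R →ₐ[ℂ] A), FamIso K (push α (fam A f)) (fam A' (α.comp f))

end families


end

end Pool.Agent.EllMod
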