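import Pool.Agent.MP_77976d_ag.Mb

/-! # DET : the determinant of `E'` is trivial -/

open scoped TensorProduct
open IsLocalRing

namespace Pool.Agent.EllMod

noncomputable section

variable {F : Type} [Field F] [Algebra ℂ F] (C : Cfg F)

namespace Cfg

theorem det_i_sq : (i : F) * i = -1 := by
  unfold i
  rw [← map_mul, Complex.I_mul_I, map_neg, map_one]

theorem det_ι_i : C.ι (i : F) = i := C.ι.commutes _

/-- `ι` is an involution. -/
theorem det_ιι (y : F) : C.ι (C.ι y) = y := by
  have hy : y ∈ IntermediateField.adjoin ℂ {C.t, C.x, C.s, C.p, C.q} := by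
    rw [C.gen]; exact IntermediateField.mem_top
  refine IntermediateField.adjoin_induction (F := ℂ) (E := F)
    (p := fun y _ => C.ι (C.ι y) = y) ?_ ?_ ?_ ?_ ?_ hy
  · rintro z (h | h | h | h | h)
    · rw [h]; simp
    · rw [h]; simp
    · rw [h]; simp
    · rw [h]; simp
    · rw [Set.mem_singleton_iff.1 h]; simp
  · intro z
    rw [C.ι.commutes, C.ι.commutes]
  · intro a b _ _ ha hb
    rw [map_add, map_add, ha, hb]
  · intro a _ ha
    rw [map_inv₀, map_inv₀, ha]
  · intro a b _ _ ha hb
    rw [map_mul, map_mul, ha, hb]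

/-- the alternating form on `F` -/
def detF (v w : F) : F := (v * C.ι w - C.ι v * w) * (C.j false * (C.x + i))⁻¹

theorem det_K (v w : F) : C.detF v w ∈ C.K := by
  rw [mem_K]
  unfold detF
  rw [map_mul, map_inv₀, map_mul, map_sub, map_mul, map_mul, det_ιι, det_ιι, ι_j, map_add, ι_x,
    det_ι_i]
  have : (-C.j false * (C.x + i))⁻¹ = -(C.j false * (C.x + i))⁻¹ := by
    rw [neg_mul, inv_neg]
  rw [this]
  ring

theorem det_ne : C.j false * (C.x + i) ≠ 0 := by
  apply mul_ne_zero
  · intro h
    have h1 := C.j_inv_mem false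
    have h2 : C.j false * (C.p - C.q) = 2 := by
      show (C.p + C.q) * (C.p - C.q) = 2
      linear_combination C.hp - C.hq
    rw [h, zero_mul] at h2
    have h3 : algebraMap ℂ F 2 = 0 := by rw [map_ofNat]; exact h2.symm
    have h4 := (map_eq_zero _).1 h3
    norm_num at h4
  · intro h
    have h0 := C.Mb_rho_ne false
    apply h0
    apply Subtype.ext
    exact h

theorem det_rho_j (b : Bool) : ((C.MbRho b : ↥C.K) : F) * C.j b = C.j false * (C.x + i) := by
  have hi := det_i_sq (F := F)
  have hx := C.Mb_x_ne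
  cases b
  · show (C.x + i) * C.j false = _
    ring
  · show (C.x + i) * (1 - i) * (C.x ^ 2 + i + C.p * C.q) * (2⁻¹ * C.x⁻¹) *
      (C.p * C.x⁻¹ + i * C.q * C.x⁻¹) = (C.p + C.q) * (C.x + i)
    have h2 : (2 : F) ≠ 0 := by
      intro h2
      have h3 : algebraMap ℂ F 2 = 0 := by rw [map_ofNat]; exact h2
      have h4 := (map_eq_zero _).1 h3
      norm_num at h4
    have key : (C.x ^ 2 + i + C.p * C.q) * (C.p + i * C.q) =
        (1 + i) * C.x ^ 2 * (C.p + C.q) := by
      linear_combination C.q * hi + C.q * C.hp + i * C.p * C.hq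
    field_simp
    linear_combination (C.x + i) * (1 - i) * key - (C.x + i) * C.x ^ 2 * (C.p + C.q) * hi

theorem det_smul (m m' : ↥C.K) (v w : F) :
    C.detF (m • v) (m' • w) = (m : F) * m' * C.detF v w := by
  have hm : C.ι (m : F) = m := m.2
  have hm' : C.ι (m' : F) = m' := m'.2
  unfold detF
  show ((m : F) * v * C.ι ((m' : F) * w) - C.ι ((m : F) * v) * ((m' : F) * w)) * _ = _
  rw [map_mul, map_mul, hm, hm']
  ring

/-- the form as a bilinear map -/
def detω : F →ₗ[↥C.K] F →ₗ[↥C.K] ↥C.K :=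
  LinearMap.mk₂ ↥C.K (fun v w => ⟨C.detF v w, C.det_K v w⟩)
    (fun a b c => by
      apply Subtype.ext
      show C.detF (a + b) c = C.detF a c + C.detF b c
      unfold detF
      rw [map_add]; ring)
    (fun r a b => by
      apply Subtype.ext
      have h := C.det_smul r 1 a b
      rw [one_smul] at h
      show C.detF (r • a) b = (r : F) * C.detF a b
      rw [h]
      show (r : F) * 1 * _ = _
      ring)
    (fun a b c => by
      apply Subtype.ext
      show C.detF a (b + c) = C.detF a b + C.detF a c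
      unfold detF
      rw [map_add]; ring)
    (fun r a b => by
      apply Subtype.ext
      have h := C.det_smul 1 r a b
      rw [one_smul] at h
      show C.detF a (r • b) = (r : F) * C.detF a b
      rw [h]
      show 1 * (r : F) * _ = _
      ring)

theorem detω_apply (v w : F) : ((C.detω v w : ↥C.K) : F) = C.detF v w := rfl

/-- `G_a * ι G_a` is a nonzero constant -/
theorem det_G (a : Bool) : ∃ c : ℂ, c ≠ 0 ∧ C.cohG a * C.ι (C.cohG a) = algebraMap ℂ F c := by
  cases a
  · refine ⟨1, one_ne_zero, ?_⟩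
    show (1 : F) * C.ι 1 = _
    rw [map_one, map_one, one_mul]
  · refine ⟨-4, by norm_num, ?_⟩
    show C.g * C.ι C.g = _
    rw [C.g_mul, map_neg, map_ofNat]

/-- values on generators -/
theorem det_val (a b : Bool) (m m' : ↥C.K) (hm : m ∈ C.M a b) (hm' : m' ∈ C.M a b) (v w : F)
    (hv : v ∈ C.V a b) (hw : w ∈ C.V a b) : C.detF (m • v) (m' • w) ∈ C.B a b := by
  obtain ⟨r, hr, e⟩ := C.Mb_mul_M a b m m' hm hm'
  obtain ⟨v', hv', rfl⟩ := (C.coh_mem_V).1 hv
  obtain ⟨w', hw', rfl⟩ := (C.coh_mem_V).1 hw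
  obtain ⟨α, β, hα, hβ, eα, eβ, rfl⟩ := C.B_decomp a b v' hv'
  obtain ⟨γ, δ, hγ, hδ, eγ, eδ, rfl⟩ := C.B_decomp a b w' hw'
  obtain ⟨c, -, hc⟩ := C.det_G a
  have e' : (m : F) * m' = (C.MbRho b : F) * r := by
    have := congrArg (Subtype.val) e
    exact this
  have hne := C.det_ne
  have hρ := C.det_rho_j b
  have key : C.detF (m • (C.cohG a * (α + β * C.j b))) (m' • (C.cohG a * (γ + δ * C.j b))) =
      (r : F) * algebraMap ℂ F c * (2 * (β * γ - α * δ)) := by
    rw [det_smul, e']
    unfold detF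
    rw [map_mul, map_mul, map_add, map_add, map_mul, map_mul, eα, eβ, eγ, eδ, ι_j, ← hc]
    have h1 : C.j false * (C.x + i) * (C.j false * (C.x + i))⁻¹ = 1 := mul_inv_cancel₀ hne
    rw [← hρ] at h1 ⊢
    linear_combination ((r : F) * (C.cohG a * C.ι (C.cohG a)) * (2 * (β * γ - α * δ))) * h1
  rw [key]
  have hr' : (r : F) ∈ C.B a b := (C.mem_R a b r).1 hr
  have h2 : (2 : F) ∈ C.B a b := by
    have := (C.B a b).algebraMap_mem 2
    rwa [map_ofNat] at this
  exact mul_mem (mul_mem hr' ((C.B a b).algebraMap_mem c))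
    (mul_mem h2 (sub_mem (mul_mem hβ hγ) (mul_mem hα hδ)))

theorem det_mem (a b : Bool) (v w : F) (hv : v ∈ C.E' a b) (hw : w ∈ C.E' a b) :
    C.detF v w ∈ C.B a b := by
  have hadd1 : ∀ u u' w : F, C.detF (u + u') w = C.detF u w + C.detF u' w := by
    intro u u' w; unfold detF; rw [map_add]; ring
  have hadd2 : ∀ w u u' : F, C.detF w (u + u') = C.detF w u + C.detF w u' := by
    intro u u' w; unfold detF; rw [map_add]; ring
  have hsm1 : ∀ (c : ℂ) (u w : F), C.detF (c • u) w = c • C.detF u w := by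
    intro c u w
    unfold detF
    rw [map_smul, Algebra.smul_def, Algebra.smul_def, Algebra.smul_def]; ring
  have hsm2 : ∀ (c : ℂ) (w u : F), C.detF w (c • u) = c • C.detF w u := by
    intro c w u
    unfold detF
    rw [map_smul, Algebra.smul_def, Algebra.smul_def, Algebra.smul_def]; ring
  refine Submodule.span_induction (p := fun v _ => C.detF v w ∈ C.B a b) ?_ ?_ ?_ ?_ hv
  · rintro _ ⟨m, hm, v', hv', rfl⟩
    refine Submodule.span_induction (p := fun w _ => C.detF (m • v') w ∈ C.B a b) ?_ ?_ ?_ ?_ hw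
    · rintro _ ⟨m', hm', w', hw', rfl⟩
      exact C.det_val a b m m' hm hm' v' w' (C.coh_E_le a b hv') (C.coh_E_le a b hw')
    · have : C.detF (m • v') 0 = 0 := by unfold detF; rw [map_zero]; ring
      rw [this]; exact zero_mem _
    · intro x y _ _ hx hy
      rw [hadd2]; exact add_mem hx hy
    · intro c x _ hx
      rw [hsm2]; exact Subalgebra.smul_mem _ hx c
  · have : C.detF 0 w = 0 := by unfold detF; rw [map_zero]; ring
    rw [this]; exact zero_mem _
  · intro x y _ _ hx hy
    rw [hadd1]; exact add_mem hx hy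
  · intro c x _ hx
    rw [hsm1]; exact Subalgebra.smul_mem _ hx c

/-- test on multiples of the generators -/
theorem det_test (a b : Bool) (k : ↥C.K)
    (h : ∀ v ∈ C.E' a b, ∀ w ∈ C.E' a b, k * C.detω v w ∈ C.surf.R a b) (c : F)
    (hc : C.ι c = c) (h1 : c * C.cohG a ∈ C.E a b) (h2 : c * (C.cohG a * C.j b) ∈ C.E a b) :
    (k : F) * (c * c) ∈ C.B a b := by
  obtain ⟨r1, hr1, r2, hr2, r3, hr3, e⟩ := C.Mb_rho a b
  obtain ⟨γ, hγ, hG⟩ := C.det_G a
  have hval : ∀ m ∈ C.M a b, ∀ m' ∈ C.M a b,
      (k : F) * C.detF (m • (c * C.cohG a)) (m' • (c * (C.cohG a * C.j b))) ∈ C.B a b := by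
    intro m hm m' hm'
    have h3 := h _ (Submodule.subset_span ⟨m, hm, _, h1, rfl⟩) _
      (Submodule.subset_span ⟨m', hm', _, h2, rfl⟩)
    exact (C.mem_R a b _).1 h3
  have hform : ∀ m m' : ↥C.K,
      C.detF (m • (c * C.cohG a)) (m' • (c * (C.cohG a * C.j b))) =
        (m : F) * m' * (algebraMap ℂ F γ * (-2) * (c * c) * C.j b) *
          (C.j false * (C.x + i))⁻¹ := by
    intro m m'
    rw [det_smul, ← hG]
    unfold detF
    rw [map_mul, map_mul, map_mul, ι_j, hc]
    ring
  have m1 := C.Mb_m1_mem a b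
  have m2 := C.Mb_m2_mem a b
  have a1 := hval _ m1 _ m1
  have a2 := hval _ m1 _ m2
  have a3 := hval _ m2 _ m2
  have hne := C.det_ne
  have hρ := C.det_rho_j b
  have e' : (C.MbRho b : F) = (r1 : F) * ((C.m1 b : F) * C.m1 b) +
      (r2 : F) * ((C.m1 b : F) * C.m2 b) + (r3 : F) * ((C.m2 b : F) * C.m2 b) :=
    congrArg Subtype.val e
  have hsum : (k : F) * (algebraMap ℂ F γ * (-2) * (c * c)) =
      (r1 : F) * ((k : F) * C.detF (C.m1 b • (c * C.cohG a)) (C.m1 b • (c * (C.cohG a * C.j b)))) +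
      (r2 : F) * ((k : F) * C.detF (C.m1 b • (c * C.cohG a)) (C.m2 b • (c * (C.cohG a * C.j b)))) +
      (r3 : F) * ((k : F) * C.detF (C.m2 b • (c * C.cohG a))
        (C.m2 b • (c * (C.cohG a * C.j b)))) := by
    rw [hform, hform, hform]
    have h1 : C.j false * (C.x + i) * (C.j false * (C.x + i))⁻¹ = 1 := mul_inv_cancel₀ hne
    rw [← hρ] at h1 ⊢
    set z := ((C.MbRho b : F) * C.j b)⁻¹ with hz
    linear_combination (-(k : F) * (algebraMap ℂ F γ * (-2) * (c * c))) * h1 +
      ((k : F) * (algebraMap ℂ F γ * (-2) * (c * c)) * C.j b * z) * e'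
  have hmem : (k : F) * (algebraMap ℂ F γ * (-2) * (c * c)) ∈ C.B a b := by
    rw [hsum]
    exact add_mem (add_mem (mul_mem ((C.mem_R a b r1).1 hr1) a1)
      (mul_mem ((C.mem_R a b r2).1 hr2) a2)) (mul_mem ((C.mem_R a b r3).1 hr3) a3)
  have hc0 : algebraMap ℂ F ((γ * (-2))⁻¹) * (algebraMap ℂ F γ * (-2)) = 1 := by
    have e2 : algebraMap ℂ F γ * (-2) = algebraMap ℂ F (γ * (-2)) := by
      rw [map_mul, map_neg, map_ofNat]
    rw [e2, ← map_mul, inv_mul_cancel₀ (mul_ne_zero hγ (by norm_num)), map_one]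
  have hfin : (k : F) * (c * c) = algebraMap ℂ F ((γ * (-2))⁻¹) *
      ((k : F) * (algebraMap ℂ F γ * (-2) * (c * c))) := by
    linear_combination (-(k : F) * (c * c)) * hc0
  rw [hfin]
  exact mul_mem ((C.B a b).algebraMap_mem _) hmem

theorem E'_det : DetTrivial C.surf C.E' := by
  refine ⟨C.detω, ?_, ?_⟩
  · intro v
    apply Subtype.ext
    rw [detω_apply]
    unfold detF
    show _ = (0 : F)
    ring
  · intro a b k
    constructor
    · intro h
      rw [C.mem_R]
      by_cases hab : (a || b) = true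
      · have h1 := C.det_test a b k h 1 (map_one _)
          (by
            rw [C.coh_E_eq hab, one_mul]
            exact (C.coh_mem_V).2 ⟨1, one_mem _, mul_one _⟩)
          (by
            rw [C.coh_E_eq hab, one_mul]
            exact (C.coh_mem_V).2 ⟨C.j b, C.coh_j_mem a b, rfl⟩)
        rw [one_mul, mul_one] at h1
        exact h1
      · have ha : a = false := by
          cases a
          · rfl
          · simp at hab
        have hb : b = false := by
          cases b
          · rfl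
          · simp at hab
        subst ha
        subst hb
        have g1 : C.cohG false ∈ C.V false false := (C.coh_mem_V).2 ⟨1, one_mem _, mul_one _⟩
        have g2 : C.cohG false * C.j false ∈ C.V false false :=
          (C.coh_mem_V).2 ⟨C.j false, C.coh_j_mem false false, rfl⟩
        have h1 := C.det_test false false k h C.t C.ι_t (C.coh_t_E00 g1) (C.coh_t_E00 g2)
        have h2 := C.det_test false false k h C.x C.ι_x (C.coh_x_E00 g1) (C.coh_x_E00 g2)
        have ht := C.coh_t_ne
        have hx := C.coh_x_ne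
        have t1 : C.t⁻¹ ∈ C.BT false :=
          (le_sup_left : C.OCs ≤ _) (Algebra.subset_adjoin (by simp))
        have x1 : C.x⁻¹ ∈ C.BX :=
          (le_sup_right : C.OFs ≤ _) (Algebra.subset_adjoin (by simp))
        have le1 : C.B false false ≤ C.BT false := by
          rw [← C.BT_inf_BX]; exact inf_le_left
        have le2 : C.B false false ≤ C.BX := by
          rw [← C.BT_inf_BX]; exact inf_le_right
        have e1 : (k : F) = C.t⁻¹ * C.t⁻¹ * ((k : F) * (C.t * C.t)) := by
          field_simp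
        have e2 : (k : F) = C.x⁻¹ * C.x⁻¹ * ((k : F) * (C.x * C.x)) := by
          field_simp
        rw [← C.BT_inf_BX]
        refine ⟨?_, ?_⟩
        · rw [e1]
          exact (C.BT false).mul_mem ((C.BT false).mul_mem t1 t1) (le1 h1)
        · rw [e2]
          exact C.BX.mul_mem (C.BX.mul_mem x1 x1) (le2 h2)
    · intro hk v hv w hw
      rw [C.mem_R]
      show (k : F) * C.detF v w ∈ C.B a b
      exact mul_mem ((C.mem_R a b k).1 hk) (C.det_mem a b v w hv hw)

end Cfg

end

end Pool.Agent.EllMod
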