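import Pool.Agent.MP_77976d_ag.DetDefs
import Pool.Agent.MP_77976d_ag.Det

/-!
# The alternating form and the line bundle `det E`
-/

open scoped TensorProduct
open IsLocalRing

namespace Pool.Agent.EllMod

noncomputable section

section general

variable {A : Type} [CommRing A] [Algebra ℂ A]
variable {K : Type} [Field K] [Algebra ℂ K] {W : Type} [AddCommGroup W] [Module ℂ W]
  [Module K W] [IsScalarTower ℂ K W]

theorem dt_kact_tmul (k : K) (a : A) (w : W) : kact A k (a ⊗ₜ w) = a ⊗ₜ[ℂ] (k • w) := by
  simp [kact]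

theorem dt_redW_tmul (π : A →ₐ[ℂ] ℂ) (a : A) (w : W) : redW π (a ⊗ₜ w) = π a • w := by
  simp [redW]

end general

variable {F : Type} [Field F] [Algebra ℂ F] (C : Cfg F)

namespace Cfg

/-- The line bundle `det E = M⁻²`. -/
def detN : Lat ↥C.K := fun a b => (C.surf.O a b).comap (LinearMap.mulLeft ℂ (C.MbRho b))

theorem mem_detN {a b : Bool} {k : ↥C.K} : k ∈ C.detN a b ↔ C.MbRho b * k ∈ C.surf.R a b :=
  Iff.rfl

theorem detN_smul {a b : Bool} {r k : ↥C.K} (hr : r ∈ C.surf.R a b) (hk : k ∈ C.detN a b) :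
    r * k ∈ C.detN a b := by
  rw [mem_detN] at *
  have : C.MbRho b * (r * k) = r * (C.MbRho b * k) := by ring
  rw [this]
  exact mul_mem hr hk

theorem detω_self (v : F) : C.detω v v = 0 := by
  apply Subtype.ext
  rw [detω_apply]
  unfold detF
  show _ = (0 : F)
  ring

theorem detω_swap (v w : F) : C.detω v w = - C.detω w v := by
  apply Subtype.ext
  show C.detF v w = - C.detF w v
  unfold detF
  ring

/-- values of the form on `V` -/
theorem detω_V (a b : Bool) (v w : F) (hv : v ∈ C.V a b) (hw : w ∈ C.V a b) :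
    C.detω v w ∈ C.detN a b := by
  rw [mem_detN, mem_R]
  obtain ⟨v', hv', rfl⟩ := (C.coh_mem_V).1 hv
  obtain ⟨w', hw', rfl⟩ := (C.coh_mem_V).1 hw
  obtain ⟨α, β, hα, hβ, eα, eβ, rfl⟩ := C.B_decomp a b v' hv'
  obtain ⟨γ, δ, hγ, hδ, eγ, eδ, rfl⟩ := C.B_decomp a b w' hw'
  obtain ⟨c, -, hc⟩ := C.det_G a
  have hne := C.det_ne
  have hρ := C.det_rho_j b
  have key : ((C.MbRho b * C.detω (C.cohG a * (α + β * C.j b)) (C.cohG a * (γ + δ * C.j b)) :
      ↥C.K) : F) = algebraMap ℂ F c * (2 * (β * γ - α * δ)) := by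
    show (C.MbRho b : F) * C.detF _ _ = _
    unfold detF
    rw [map_mul, map_mul, map_add, map_add, map_mul, map_mul, eα, eβ, eγ, eδ, ι_j, ← hc]
    have h1 : C.j false * (C.x + i) * (C.j false * (C.x + i))⁻¹ = 1 := mul_inv_cancel₀ hne
    rw [← hρ] at h1 ⊢
    linear_combination ((C.cohG a * C.ι (C.cohG a)) * (2 * (β * γ - α * δ))) * h1
  rw [key]
  have h2 : (2 : F) ∈ C.B a b := by
    have := (C.B a b).algebraMap_mem 2
    rwa [map_ofNat] at this
  exact mul_mem ((C.B a b).algebraMap_mem c)
    (mul_mem h2 (sub_mem (mul_mem hβ hγ) (mul_mem hα hδ)))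

theorem detω_E (a b : Bool) (v w : F) (hv : v ∈ C.E a b) (hw : w ∈ C.E a b) :
    C.detω v w ∈ C.detN a b :=
  C.detω_V a b v w (C.coh_E_le a b hv) (C.coh_E_le a b hw)

/-- The hull of the module of values of the form on `E'`. -/
theorem detω_hull' (a b : Bool) (k : ↥C.K) :
    (∀ v ∈ C.E' a b, ∀ w ∈ C.E' a b, k * C.detω v w ∈ C.surf.R a b) → k ∈ C.surf.R a b := by
  intro h
  rw [C.mem_R]
  by_cases hab : (a || b) = true
  · have h1 := C.det_test a b k h 1 (map_one _)
      (by
        rw [C.coh_E_eq hab, one_mul]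
        exact (C.coh_mem_V).2 ⟨1, one_mem _, mul_one _⟩)
      (by
        rw [C.coh_E_eq hab, one_mul]
        exact (C.coh_mem_V).2 ⟨C.j b, C.coh_j_mem a b, rfl⟩)
    rw [one_mul, mul_one] at h1
    exact h1
  · have ha : a = false := by
      cases a
      · rfl
      · simp at hab
    have hb : b = false := by
      cases b
      · rfl
      · simp at hab
    subst ha
    subst hb
    have g1 : C.cohG false ∈ C.V false false := (C.coh_mem_V).2 ⟨1, one_mem _, mul_one _⟩
    have g2 : C.cohG false * C.j false ∈ C.V false false :=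
      (C.coh_mem_V).2 ⟨C.j false, C.coh_j_mem false false, rfl⟩
    have h1 := C.det_test false false k h C.t C.ι_t (C.coh_t_E00 g1) (C.coh_t_E00 g2)
    have h2 := C.det_test false false k h C.x C.ι_x (C.coh_x_E00 g1) (C.coh_x_E00 g2)
    have ht := C.coh_t_ne
    have hx := C.coh_x_ne
    have t1 : C.t⁻¹ ∈ C.BT false :=
      (le_sup_left : C.OCs ≤ _) (Algebra.subset_adjoin (by simp))
    have x1 : C.x⁻¹ ∈ C.BX :=
      (le_sup_right : C.OFs ≤ _) (Algebra.subset_adjoin (by simp))
    have le1 : C.B false false ≤ C.BT false := by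
      rw [← C.BT_inf_BX]; exact inf_le_left
    have le2 : C.B false false ≤ C.BX := by
      rw [← C.BT_inf_BX]; exact inf_le_right
    have e1 : (k : F) = C.t⁻¹ * C.t⁻¹ * ((k : F) * (C.t * C.t)) := by
      field_simp
    have e2 : (k : F) = C.x⁻¹ * C.x⁻¹ * ((k : F) * (C.x * C.x)) := by
      field_simp
    rw [← C.BT_inf_BX]
    refine ⟨?_, ?_⟩
    · rw [e1]
      exact (C.BT false).mul_mem ((C.BT false).mul_mem t1 t1) (le1 h1)
    · rw [e2]
      exact C.BX.mul_mem (C.BX.mul_mem x1 x1) (le2 h2)

/-- The hull of the module of values of the form on `E`. -/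
theorem detω_hull (a b : Bool) (k : ↥C.K)
    (h : ∀ v ∈ C.E a b, ∀ w ∈ C.E a b, k * C.detω v w ∈ C.detN a b) : k ∈ C.surf.R a b := by
  apply C.detω_hull'
  intro v hv w hw
  refine Submodule.span_induction (p := fun v _ => k * C.detω v w ∈ C.surf.R a b) ?_ ?_ ?_ ?_ hv
  · rintro _ ⟨m, hm, v', hv', rfl⟩
    refine Submodule.span_induction (p := fun w _ => k * C.detω (m • v') w ∈ C.surf.R a b)
      ?_ ?_ ?_ ?_ hw
    · rintro _ ⟨m', hm', w', hw', rfl⟩
      obtain ⟨r, hr, e⟩ := C.Mb_mul_M a b m m' hm hm'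
      have h1 := h v' hv' w' hw'
      rw [mem_detN] at h1
      have : k * C.detω (m • v') (m' • w') = r * (C.MbRho b * (k * C.detω v' w')) := by
        rw [map_smul, map_smul, LinearMap.smul_apply, smul_eq_mul, smul_eq_mul]
        linear_combination (k * C.detω v' w') * e
      rw [this]
      exact mul_mem hr h1
    · rw [map_zero, mul_zero]; exact zero_mem _
    · intro x y _ _ hx hy
      rw [map_add, mul_add]; exact add_mem hx hy
    · intro c x _ hx
      have : C.detω (m • v') (c • x) = (algebraMap ℂ ↥C.K c) * C.detω (m • v') x := by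
        rw [← smul_eq_mul, ← map_smul, algebraMap_smul]
      rw [this, mul_left_comm]
      exact mul_mem ((C.surf.R a b).algebraMap_mem c) hx
  · rw [map_zero, LinearMap.zero_apply, mul_zero]; exact zero_mem _
  · intro x y _ _ hx hy
    rw [map_add, LinearMap.add_apply, mul_add]; exact add_mem hx hy
  · intro c x _ hx
    have : C.detω (c • x) w = (algebraMap ℂ ↥C.K c) * C.detω x w := by
      rw [← algebraMap_smul ↥C.K c x, map_smul, LinearMap.smul_apply, smul_eq_mul]
    rw [this, mul_left_comm]
    exact mul_mem ((C.surf.R a b).algebraMap_mem c) hx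

/-- The form `detω` as a `ℂ`-bilinear map. -/
def om : F →ₗ[ℂ] F →ₗ[ℂ] ↥C.K :=
  LinearMap.mk₂ ℂ (fun v w => C.detω v w)
    (fun v v' w => by rw [map_add, LinearMap.add_apply])
    (fun c v w => by
      rw [← algebraMap_smul ↥C.K c v, map_smul, LinearMap.smul_apply, algebraMap_smul])
    (fun v w w' => by rw [map_add])
    (fun c v w => by
      rw [← algebraMap_smul ↥C.K c w, map_smul, algebraMap_smul])

@[simp] theorem om_apply (v w : F) : C.om v w = C.detω v w := rfl

variable (A : Type) [CommRing A] [Algebra ℂ A]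

/-- The `A`-bilinear extension of `detω`. -/
def omA : (A ⊗[ℂ] F) →ₗ[A] (A ⊗[ℂ] F) →ₗ[A] (A ⊗[ℂ] ↥C.K) :=
  LinearMap.BilinMap.baseChange A C.om

@[simp] theorem omA_tmul (a b : A) (v w : F) :
    C.omA A (a ⊗ₜ v) (b ⊗ₜ w) = (a * b) ⊗ₜ C.detω v w := by
  simp [omA, mul_comm]

theorem omA_swap (z w : A ⊗[ℂ] F) : C.omA A z w = - C.omA A w z := by
  induction z using TensorProduct.induction_on with
  | zero => simp
  | add z z' h h' => rw [map_add, LinearMap.add_apply, h, h', map_add]; abel
  | tmul a v =>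
    induction w using TensorProduct.induction_on with
    | zero => simp
    | add w w' h h' => rw [map_add, h, h', map_add, LinearMap.add_apply]; abel
    | tmul b w =>
      rw [omA_tmul, omA_tmul, detω_swap, TensorProduct.tmul_neg, mul_comm]

theorem omA_self (z : A ⊗[ℂ] F) : C.omA A z z = 0 := by
  induction z using TensorProduct.induction_on with
  | zero => simp
  | add z w h h' =>
    rw [map_add, map_add, LinearMap.add_apply, LinearMap.add_apply, h, h', C.omA_swap A z w]
    abel
  | tmul a v => rw [omA_tmul, detω_self, TensorProduct.tmul_zero]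

theorem omA_kact (k : ↥C.K) (z w : A ⊗[ℂ] F) :
    C.omA A (kact A k z) w = kact A k (C.omA A z w) := by
  induction z using TensorProduct.induction_on with
  | zero => simp
  | add z z' h h' => simp only [map_add, LinearMap.add_apply, h, h']
  | tmul a v =>
    induction w using TensorProduct.induction_on with
    | zero => simp
    | add w w' h h' => rw [map_add, h, h', map_add, map_add]
    | tmul b w =>
      rw [dt_kact_tmul, omA_tmul, omA_tmul, dt_kact_tmul, map_smul, LinearMap.smul_apply]

theorem redW_omA (π : A →ₐ[ℂ] ℂ) (z w : A ⊗[ℂ] F) :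
    redW π (C.omA A z w) = C.detω (redW π z) (redW π w) := by
  induction z using TensorProduct.induction_on with
  | zero => simp
  | add z z' h h' => simp only [map_add, LinearMap.add_apply, h, h']
  | tmul a v =>
    induction w using TensorProduct.induction_on with
    | zero => simp
    | add w w' h h' => rw [map_add, map_add, h, h', map_add, map_add]
    | tmul b w =>
      rw [omA_tmul, dt_redW_tmul, dt_redW_tmul, dt_redW_tmul, map_mul]
      have : C.om (π a • v) (π b • w) = (π a * π b) • C.om v w := by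
        rw [map_smul, map_smul, LinearMap.smul_apply, smul_smul, mul_comm]
      exact this.symm

end Cfg

end

end Pool.Agent.EllMod
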