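import Pool.Agent.MP_77976d_ag.Defs

/-!
# Deformations with fixed determinant : definitions
-/

open scoped TensorProduct
open IsLocalRing

namespace Pool.Agent.EllMod

noncomputable section

variable {K : Type} [Field K] [Algebra ℂ K] (X : Surf K)
variable {W : Type} [AddCommGroup W] [Module ℂ W] [Module K W] [IsScalarTower ℂ K W]
variable {A : Type} [CommRing A] [Algebra ℂ A]

/-- The determinant of the deformation `L` (of a sheaf of rank two) is isomorphic to the line
bundle `N ⊗ A` on `X × Spec A`: there is an `A ⊗ K`-bilinear alternating form on the generic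
stalk `A ⊗ W` with values in `N ⊗ A` on `L`, whose reduction `Λ² E → N` is an isomorphism
outside a finite set (so that the map `det L → N ⊗ A` is an isomorphism). -/
def HasDet (N : Lat K) (L : RawFam A W) : Prop :=
  ∃ ω : (A ⊗[ℂ] W) →ₗ[A] (A ⊗[ℂ] W) →ₗ[A] (A ⊗[ℂ] K),
    (∀ v, ω v v = 0) ∧ (∀ (k : K) v w, ω (kact A k v) w = kact A k (ω v w)) ∧
    (∀ a b, ∀ v ∈ L a b, ∀ w ∈ L a b, ω v w ∈ (N a b).baseChange A) ∧
    ∀ (π : A →ₐ[ℂ] ℂ) (a b : Bool) (k : K),
      (∀ v ∈ L a b, ∀ w ∈ L a b, k * redW π (ω v w) ∈ N a b) → k ∈ X.R a b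

/-- `R` pro-represents the functor of deformations of `E` with determinant `N`.  For `N = O` the
local ring at `[E]` of a moduli scheme of stable sheaves on `X` with determinant `O` has this
property. -/
structure ProRepDet (N : Lat K) (E : Lat W) (R : Type) [CommRing R] [Algebra ℂ R] where
  /-- the deformation defined by a homomorphism -/
  fam : ∀ (A : Type) [CommRing A] [Algebra ℂ A] [Module.Finite ℂ A] [IsLocalRing A],
    (R →ₐ[ℂ] A) → RawFam A W
  isFam : ∀ (A : Type) [CommRing A] [Algebra ℂ A] [Module.Finite ℂ A] [IsLocalRing A]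
    (f : R →ₐ[ℂ] A), IsFam X E (fam A f)
  det : ∀ (A : Type) [CommRing A] [Algebra ℂ A] [Module.Finite ℂ A] [IsLocalRing A]
    (f : R →ₐ[ℂ] A), HasDet X N (fam A f)
  inj : ∀ (A : Type) [CommRing A] [Algebra ℂ A] [Module.Finite ℂ A] [IsLocalRing A]
    (f g : R →ₐ[ℂ] A), FamIso K (fam A f) (fam A g) → f = g
  surj : ∀ (A : Type) [CommRing A] [Algebra ℂ A] [Module.Finite ℂ A] [IsLocalRing A]
    (L : RawFam A W), IsFam X E L → HasDet X N L → ∃ f : R →ₐ[ℂ] A, FamIso K (fam A f) L
  nat : ∀ (A A' : Type) [CommRing A] [Algebra ℂ A] [Module.Finite ℂ A] [IsLocalRing A]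
    [CommRing A'] [Algebra ℂ A'] [Module.Finite ℂ A'] [IsLocalRing A']
    (α : A →ₐ[ℂ] A') (f : R →ₐ[ℂ] A), FamIso K (push α (fam A f)) (fam A' (α.comp f))

end

end Pool.Agent.EllMod
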