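import Pool.Agent.MP_77976d_ag.DetDefs

/-! # DISO : `HasDet` is invariant under isomorphism -/

open scoped TensorProduct
open IsLocalRing

namespace Pool.Agent.EllMod

noncomputable section

variable {K : Type} [Field K] [Algebra ℂ K] {X : Surf K}
variable {W : Type} [AddCommGroup W] [Module ℂ W] [Module K W] [IsScalarTower ℂ K W]
variable {A : Type} [CommRing A] [Algebra ℂ A]

theorem HasDet.famIso {N : Lat K} {L L' : RawFam A W} (h : HasDet X N L) (e : FamIso K L L') :
    HasDet X N L' := by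
  obtain ⟨ω, h1, h2, h3, h4⟩ := h
  obtain ⟨g, g1, -, g3⟩ := e
  have hmem : ∀ a b (v : A ⊗[ℂ] W), v ∈ L' a b → g.symm v ∈ L a b := fun a b v hv => by
    rw [← g3 a b, g.apply_symm_apply]; exact hv
  have hk : ∀ (k : K) (v : A ⊗[ℂ] W), g.symm (kact A k v) = kact A k (g.symm v) := fun k v => by
    rw [LinearEquiv.symm_apply_eq, g1, g.apply_symm_apply]
  refine ⟨ω.compl₁₂ g.symm.toLinearMap g.symm.toLinearMap, fun v => ?_, fun k v w => ?_,
    fun a b v hv w hw => ?_, fun π a b k hkk => h4 π a b k fun v hv w hw => ?_⟩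
  · simp only [LinearMap.compl₁₂_apply, LinearEquiv.coe_coe]
    exact h1 _
  · simp only [LinearMap.compl₁₂_apply, LinearEquiv.coe_coe]
    rw [hk, h2]
  · simp only [LinearMap.compl₁₂_apply, LinearEquiv.coe_coe]
    exact h3 a b _ (hmem a b v hv) _ (hmem a b w hw)
  · have := hkk (g v) ((g3 a b v).2 hv) (g w) ((g3 a b w).2 hw)
    simpa only [LinearMap.compl₁₂_apply, LinearEquiv.coe_coe, g.symm_apply_apply] using this

end

end Pool.Agent.EllMod
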