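import Pool.Agent.MP_77976d_ag.T1Aux
import Pool.Agent.MP_77976d_ag.Coh

/-! # T1A : the family `T1` is a deformation of `E` -/

open scoped TensorProduct
open IsLocalRing

namespace Pool.Agent.EllMod

noncomputable section

section gen

variable {A : Type} [CommRing A] [Algebra ℂ A]

theorem t1a_nil [Module.Finite ℂ A] [IsLocalRing A] {M : Type} [AddCommGroup M] [Module A M]
    (N : M →ₗ[A] M) (h : LinearMap.range N ≤ (maximalIdeal A) • (⊤ : Submodule A M)) :
    IsNilpotent N := by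
  have : IsArtinianRing A := IsArtinianRing.of_finite ℂ A
  obtain ⟨n, hn⟩ := (isArtinianRing_iff_isNilpotent_maximalIdeal A).1 this
  have key : ∀ k : ℕ, LinearMap.range (N ^ k) ≤ (maximalIdeal A) ^ k • (⊤ : Submodule A M) := by
    intro k
    induction k with
    | zero => simp
    | succ k ih =>
      rw [pow_succ' (maximalIdeal A), mul_smul, pow_succ]
      have e : LinearMap.range (N ^ k * N) = (LinearMap.range N).map (N ^ k) := by
        rw [Module.End.mul_eq_comp, LinearMap.range_comp]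
      rw [e]
      refine (Submodule.map_mono h).trans ?_
      rw [Submodule.map_smul'', Submodule.map_top]
      exact smul_mono_right _ ih
  refine ⟨n, ?_⟩
  have := key n
  rw [hn] at this
  have h2 : LinearMap.range (N ^ n) = ⊥ := by
    rw [eq_bot_iff]
    refine this.trans ?_
    simp
  exact LinearMap.range_eq_bot.1 h2

omit [Algebra ℂ A] in
theorem t1a_surj {M : Type} [AddCommGroup M] [Module A M] {N : M →ₗ[A] M} (hN : IsNilpotent N)
    {p : Submodule A M} (hp : ∀ z ∈ p, N z ∈ p) {z : M} (hz : z ∈ p) : ∃ w ∈ p, w + N w = z := by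
  obtain ⟨n, hn⟩ := hN
  have hpk : ∀ (k : ℕ), ∀ z ∈ p, ((-N) ^ k) z ∈ p := by
    intro k
    induction k with
    | zero => intro z hz; simpa using hz
    | succ k ih =>
      intro z hz
      rw [pow_succ, Module.End.mul_apply]
      exact ih _ (by rw [LinearMap.neg_apply]; exact neg_mem (hp z hz))
  refine ⟨(∑ i ∈ Finset.range n, (-N) ^ i) z, ?_, ?_⟩
  · rw [LinearMap.sum_apply]
    exact sum_mem fun i _ => hpk i z hz
  · have h := mul_neg_geom_sum (-N) n
    have h2 : (-N) ^ n = 0 := by rw [neg_pow, hn, mul_zero]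
    rw [h2, sub_zero, sub_neg_eq_add] at h
    have h3 := congrArg (fun f => f z) h
    simpa [Module.End.mul_apply, add_mul] using h3

omit [Algebra ℂ A] in
theorem t1a_inj {M : Type} [AddCommGroup M] [Module A M] {N : M →ₗ[A] M} (hN : IsNilpotent N) :
    Function.Bijective (LinearMap.id + N : M →ₗ[A] M) := by
  have h : IsUnit (1 + N) := hN.isUnit_one_add
  exact (Module.End.isUnit_iff _).1 h

variable {W : Type} [AddCommGroup W] [Module ℂ W]

theorem t1a_flat {M : Type} [AddCommGroup M] [Module A M] [Module.Flat A M]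
    (f : (A ⊗[ℂ] W) →ₗ[A] M) (hf : Function.Surjective f) (L : Submodule A (A ⊗[ℂ] W))
    (hk : LinearMap.ker f = L) : Module.Flat A ((A ⊗[ℂ] W) ⧸ L) := by
  subst hk
  exact Module.Flat.of_linearEquiv (f.quotKerEquivOfSurjective hf)

theorem t1a_ker (p : Submodule ℂ W) :
    LinearMap.ker (p.mkQ.baseChange A) = p.baseChange A := by
  have h : Function.Exact p.subtype p.mkQ := LinearMap.exact_subtype_mkQ p
  have h2 := lTensor_exact A h (Submodule.mkQ_surjective p)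
  ext z
  have h3 := h2 z
  rw [LinearMap.mem_ker]
  exact h3

theorem t1a_flat_map (p : Submodule ℂ W) (U : (A ⊗[ℂ] W) →ₗ[A] (A ⊗[ℂ] W))
    (hU : Function.Bijective U) : Module.Flat A ((A ⊗[ℂ] W) ⧸ (p.baseChange A).map U) := by
  set e := LinearEquiv.ofBijective U hU with he
  refine t1a_flat ((p.mkQ.baseChange A) ∘ₗ e.symm.toLinearMap) ?_ _ ?_
  · rw [LinearMap.coe_comp]
    refine Function.Surjective.comp ?_ e.symm.surjective
    exact LinearMap.lTensor_surjective A (Submodule.mkQ_surjective p)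
  · rw [LinearMap.ker_comp, t1a_ker]
    ext z
    rw [Submodule.mem_comap, Submodule.mem_map]
    constructor
    · intro h
      exact ⟨_, h, e.apply_symm_apply z⟩
    · rintro ⟨w, hw, rfl⟩
      have : e.symm (U w) = w := e.symm_apply_apply w
      show e.symm (U w) ∈ _
      rw [this]; exact hw

end gen

variable {F : Type} [Field F] [Algebra ℂ F] (C : Cfg F)

namespace Cfg

section op

variable {A : Type} [CommRing A] [Algebra ℂ A]

/-- Multiplication by `y ∈ F` on `A ⊗ F`. -/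
def KM (A : Type) [CommRing A] [Algebra ℂ A] {F : Type} [Field F] [Algebra ℂ F] (y : F) :
    (A ⊗[ℂ] F) →ₗ[A] (A ⊗[ℂ] F) := (LinearMap.mulLeft ℂ y).baseChange A

theorem KM_tmul (y : F) (c : A) (v : F) : KM A y (c ⊗ₜ v) = c ⊗ₜ[ℂ] (y * v) := by
  simp [KM]

theorem kact_eq (r : ↥C.K) (z : A ⊗[ℂ] F) : kact A r z = KM A (r : F) z := rfl

theorem KM_one (z : A ⊗[ℂ] F) : KM A (1 : F) z = z := by
  induction z using TensorProduct.induction_on with
  | zero => simp
  | add z w hz hw => rw [map_add, hz, hw]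
  | tmul c v => rw [KM_tmul, one_mul]

theorem KM_mul (y y' : F) (z : A ⊗[ℂ] F) : KM A (y * y') z = KM A y (KM A y' z) := by
  induction z using TensorProduct.induction_on with
  | zero => simp
  | add z w hz hw => rw [map_add, map_add, map_add, hz, hw]
  | tmul c v => rw [KM_tmul, KM_tmul, KM_tmul, mul_assoc]

theorem KM_mem {p q : Submodule ℂ F} {y : F} (h : ∀ v ∈ p, y * v ∈ q) {z : A ⊗[ℂ] F}
    (hz : z ∈ p.baseChange A) : KM A y z ∈ q.baseChange A := by
  refine t1_ind (P := fun z => KM A y z ∈ q.baseChange A) ?_ ?_ ?_ hz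
  · rw [map_zero]; exact zero_mem _
  · intro a v hv
    rw [KM_tmul]; exact Submodule.tmul_mem_baseChange_of_mem _ (h v hv)
  · intro z w h1 h2
    rw [map_add]; exact add_mem h1 h2

theorem t1a_mono {p q : Submodule ℂ F} (h : p ≤ q) {z : A ⊗[ℂ] F}
    (hz : z ∈ p.baseChange A) : z ∈ q.baseChange A := by
  have := KM_mem (A := A) (y := (1 : F)) (p := p) (q := q) (fun v hv => by
    rw [one_mul]; exact h hv) hz
  rwa [KM_one] at this

theorem t1a_loc {p q : Submodule ℂ F} {y : F} (hy : ∀ v ∈ q, y * v ∈ q)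
    (h : ∀ v ∈ p, ∃ n : ℕ, y ^ n * v ∈ q) {z : A ⊗[ℂ] F} (hz : z ∈ p.baseChange A) :
    ∃ n : ℕ, KM A (y ^ n) z ∈ q.baseChange A := by
  have hpow : ∀ (n : ℕ), ∀ v ∈ q, y ^ n * v ∈ q := by
    intro n
    induction n with
    | zero => intro v hv; simpa using hv
    | succ n ih => intro v hv; rw [pow_succ, mul_assoc]; exact ih _ (hy v hv)
  refine t1_ind (P := fun z => ∃ n : ℕ, KM A (y ^ n) z ∈ q.baseChange A) ?_ ?_ ?_ hz
  · exact ⟨0, by rw [map_zero]; exact zero_mem _⟩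
  · intro a v hv
    obtain ⟨n, hn⟩ := h v hv
    exact ⟨n, by rw [KM_tmul]; exact Submodule.tmul_mem_baseChange_of_mem _ hn⟩
  · rintro z w ⟨n, hn⟩ ⟨m, hm⟩
    refine ⟨n + m, ?_⟩
    rw [map_add]
    refine add_mem ?_ ?_
    · rw [add_comm, pow_add, KM_mul]; exact KM_mem (hpow m) hn
    · rw [pow_add, KM_mul]; exact KM_mem (hpow n) hm

theorem Xi_KM (ξ : Fin 7 → A) {y : F} (hy : C.ι y = y) (z : A ⊗[ℂ] F) :
    C.Xi ξ (KM A y z) = KM A y (C.Xi ξ z) := by
  induction z using TensorProduct.induction_on with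
  | zero => simp
  | add z w hz hw => rw [map_add, map_add, map_add, map_add, hz, hw]
  | tmul c v =>
    have e1 : C.s * C.t⁻¹ * (y * v) = y * (C.s * C.t⁻¹ * v) := by ring
    have e2 : C.s * C.t⁻¹ ^ 2 * (y * v) = y * (C.s * C.t⁻¹ ^ 2 * v) := by ring
    have e3 : C.t⁻¹ * (y * C.ι v) = y * (C.t⁻¹ * C.ι v) := by ring
    rw [KM_tmul, Xi_tmul, Xi_tmul, map_add, map_add, KM_tmul, KM_tmul, KM_tmul, map_mul, hy,
      e1, e2, e3]

theorem GG_KM (b : A) (y : F) (z : A ⊗[ℂ] F) :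
    C.GG b (KM A y z) = KM A y (C.GG b z) := by
  induction z using TensorProduct.induction_on with
  | zero => simp
  | add z w hz hw => rw [map_add, map_add, map_add, map_add, hz, hw]
  | tmul c v =>
    rw [KM_tmul, GG_tmul, GG_tmul, map_add, KM_tmul, KM_tmul]
    congr 2
    ring

theorem YX_K : C.ι (C.Y * C.x⁻¹) = C.Y * C.x⁻¹ := by
  simp [Y]

/-- `GG b = 1 + b (Y/x)`. -/
theorem GG_eq (b : A) (z : A ⊗[ℂ] F) : C.GG b z = z + b • KM A (C.Y * C.x⁻¹) z := by
  induction z using TensorProduct.induction_on with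
  | zero => simp
  | add z w hz hw => rw [map_add, map_add, hz, hw, smul_add]; abel
  | tmul c v => rw [GG_tmul, KM_tmul, TensorProduct.smul_tmul', smul_eq_mul]

theorem Xi_GG (ξ : Fin 7 → A) (b : A) (z : A ⊗[ℂ] F) :
    C.Xi ξ (C.GG b z) = C.GG b (C.Xi ξ z) := by
  rw [GG_eq, GG_eq, map_add, map_smul, Xi_KM C ξ (YX_K C)]

theorem Xi_mem (ξ : Fin 7 → A) {p : Submodule ℂ F} (h1 : ∀ v ∈ p, C.s * C.t⁻¹ * v ∈ p)
    (h2 : ∀ v ∈ p, C.s * C.t⁻¹ ^ 2 * v ∈ p) (h3 : ∀ v ∈ p, C.t⁻¹ * C.ι v ∈ p) (z : A ⊗[ℂ] F)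
    (hz : z ∈ p.baseChange A) : C.Xi ξ z ∈ p.baseChange A := by
  refine t1_ind (P := fun z => C.Xi ξ z ∈ p.baseChange A) ?_ ?_ ?_ hz
  · rw [map_zero]; exact zero_mem _
  · intro a v hv
    rw [Xi_tmul]
    exact add_mem (add_mem (Submodule.tmul_mem_baseChange_of_mem _ (h1 v hv))
      (Submodule.tmul_mem_baseChange_of_mem _ (h2 v hv)))
      (Submodule.tmul_mem_baseChange_of_mem _ (h3 v hv))
  · intro z w h1 h2
    rw [map_add]; exact add_mem h1 h2

variable [Module.Finite ℂ A] [IsLocalRing A]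

omit [Module.Finite ℂ A] in
theorem t1a_max (c : A) (hc : c ∈ maximalIdeal A) (b : A) (v : F) :
    (c * b) ⊗ₜ[ℂ] v ∈ (maximalIdeal A) • (⊤ : Submodule A (A ⊗[ℂ] F)) := by
  have : (c * b) ⊗ₜ[ℂ] v = c • (b ⊗ₜ[ℂ] v) := by
    rw [TensorProduct.smul_tmul', smul_eq_mul]
  rw [this]
  exact Submodule.smul_mem_smul hc trivial

theorem Xi_nil (ξ : Fin 7 → A) (h : ∀ k, ξ k ∈ maximalIdeal A) : IsNilpotent (C.Xi ξ) := by
  refine t1a_nil _ ?_
  rintro _ ⟨z, rfl⟩
  induction z using TensorProduct.induction_on with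
  | zero => rw [map_zero]; exact zero_mem _
  | add z w hz hw => rw [map_add]; exact add_mem hz hw
  | tmul c v =>
    rw [Xi_tmul]
    exact add_mem (add_mem (t1a_max _ (h 0) _ _) (t1a_max _ (h 1) _ _)) (t1a_max _ (h 2) _ _)

/-- The nilpotent part of `GG`. -/
def GN (b : A) : (A ⊗[ℂ] F) →ₗ[A] (A ⊗[ℂ] F) := b • KM A (C.Y * C.x⁻¹)

omit [Module.Finite ℂ A] [IsLocalRing A] in
theorem GG_GN (b : A) : C.GG b = LinearMap.id + C.GN b := by
  ext z
  simp [GG_eq, GN]

theorem GN_nil (b : A) (h : b ∈ maximalIdeal A) : IsNilpotent (C.GN b) := by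
  refine t1a_nil _ ?_
  rintro _ ⟨z, rfl⟩
  show b • KM A (C.Y * C.x⁻¹) z ∈ _
  exact Submodule.smul_mem_smul h Submodule.mem_top

theorem GG_bij (b : A) (h : b ∈ maximalIdeal A) : Function.Bijective (C.GG b) := by
  rw [GG_GN]; exact t1a_inj (GN_nil C b h)

theorem Xi_bij (ξ : Fin 7 → A) (h : ∀ k, ξ k ∈ maximalIdeal A) :
    Function.Bijective (LinearMap.id + C.Xi ξ : (A ⊗[ℂ] F) →ₗ[A] (A ⊗[ℂ] F)) :=
  t1a_inj (Xi_nil C ξ h)

theorem GG_surj (b : A) (h : b ∈ maximalIdeal A) {p : Submodule ℂ F}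
    (hp : ∀ v ∈ p, C.Y * C.x⁻¹ * v ∈ p) {z : A ⊗[ℂ] F} (hz : z ∈ p.baseChange A) :
    ∃ w ∈ p.baseChange A, C.GG b w = z := by
  obtain ⟨w, hw, e⟩ := t1a_surj (GN_nil C b h) (p := p.baseChange A) (fun z hz => by
    exact Submodule.smul_mem _ _ (KM_mem hp hz)) hz
  refine ⟨w, hw, ?_⟩
  rw [GG_GN]; exact e

omit [Module.Finite ℂ A] [IsLocalRing A] in
theorem GG_mem (b : A) {p : Submodule ℂ F}
    (hp : ∀ v ∈ p, C.Y * C.x⁻¹ * v ∈ p) {z : A ⊗[ℂ] F} (hz : z ∈ p.baseChange A) :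
    C.GG b z ∈ p.baseChange A := by
  rw [GG_eq]
  exact add_mem hz (Submodule.smul_mem _ _ (KM_mem hp hz))

end op

section alg

theorem t1a_subalg {S T : Subalgebra ℂ F} {p : Submodule ℂ F} (hS : ∀ r ∈ S, ∀ v ∈ p, r * v ∈ p)
    (hT : ∀ r ∈ T, ∀ v ∈ p, r * v ∈ p) : ∀ r ∈ S ⊔ T, ∀ v ∈ p, r * v ∈ p := by
  intro r hr
  have hr' : r ∈ sm S * sm T := by
    rw [Subalgebra.mul_toSubmodule]; exact hr
  refine Submodule.mul_induction_on hr' (fun s hs t ht v hv => ?_) (fun a b ha hb v hv => ?_)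
  · rw [mul_assoc]; exact hS s hs _ (hT t ht v hv)
  · rw [add_mul]; exact add_mem (ha v hv) (hb v hv)

theorem t1a_mulR (p : Submodule ℂ F) (T : Subalgebra ℂ F) :
    ∀ r ∈ T, ∀ v ∈ p * sm T, r * v ∈ p * sm T := by
  intro r hr v hv
  refine Submodule.mul_induction_on hv (fun s hs t ht => ?_) (fun a b ha hb => ?_)
  · rw [mul_left_comm]
    exact Submodule.mul_mem_mul hs (T.mul_mem hr ht)
  · rw [mul_add]; exact add_mem ha hb

theorem t1a_N (a : Bool) : ∀ r ∈ C.OC a, ∀ v ∈ C.N a, r * v ∈ C.N a := by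
  intro r hr v hv
  obtain ⟨w, hw, rfl⟩ := mem_sc.1 hv
  exact mem_sc.2 ⟨r * w, (C.OC a).mul_mem hr hw, by ring⟩

theorem V_mul (a b : Bool) : ∀ r ∈ C.B a b, ∀ v ∈ C.V a b, r * v ∈ C.V a b := by
  refine t1a_subalg ?_ ?_
  · intro r hr v hv
    refine Submodule.mul_induction_on hv (fun s hs t ht => ?_) (fun a b ha hb => ?_)
    · rw [← mul_assoc]
      exact Submodule.mul_mem_mul (t1a_N C a r hr s hs) ht
    · rw [mul_add]; exact add_mem ha hb
  · exact t1a_mulR _ _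

theorem VX_mul (a : Bool) : ∀ v ∈ C.VX a, C.Y * C.x⁻¹ * v ∈ C.VX a := by
  refine t1a_mulR _ _ _ ?_
  have hx : C.x⁻¹ ∈ C.OFs := Algebra.subset_adjoin (by simp)
  have hp : C.p ∈ C.OFs := Algebra.subset_adjoin (by simp)
  have hq : C.q ∈ C.OFs := Algebra.subset_adjoin (by simp)
  exact mul_mem (mul_mem hp hq) hx

theorem ι_OCs : ∀ y ∈ C.OCs, C.ι y ∈ C.OCs := by
  intro y hy
  have h : C.OCs ≤ C.OCs.comap (C.ι : F →ₐ[ℂ] F) := by
    refine Algebra.adjoin_le ?_
    intro z hz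
    have ht : C.t ∈ C.OCs := Algebra.subset_adjoin (by simp)
    have ht' : C.t⁻¹ ∈ C.OCs := Algebra.subset_adjoin (by simp)
    have hs : C.s ∈ C.OCs := Algebra.subset_adjoin (by simp)
    simp only [Set.mem_insert_iff, Set.mem_singleton_iff] at hz
    show C.ι z ∈ C.OCs
    rcases hz with rfl | rfl | rfl
    · rw [C.ι_t]; exact ht
    · rw [map_inv₀, C.ι_t]; exact ht'
    · rw [C.ι_s]; exact neg_mem hs
  exact h hy

theorem ι_BT (b : Bool) : ∀ y ∈ C.BT b, C.ι y ∈ C.BT b := by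
  intro y hy
  have hr' : y ∈ sm C.OCs * sm (C.OF b) := by
    rw [Subalgebra.mul_toSubmodule]; exact hy
  refine Submodule.mul_induction_on hr' (fun s hs t ht => ?_) (fun a b ha hb => ?_)
  · rw [map_mul]
    exact mul_mem ((le_sup_left : C.OCs ≤ C.BT b) (C.ι_OCs s hs))
      ((le_sup_right : C.OF b ≤ C.BT b) (C.ι_OF b t ht))
  · rw [map_add]; exact add_mem ha hb

theorem BT_Xi {A : Type} [CommRing A] [Algebra ℂ A] (ξ : Fin 7 → A) (b : Bool)
    (z : A ⊗[ℂ] F) (hz : z ∈ (sm (C.BT b)).baseChange A) :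
    C.Xi ξ z ∈ (sm (C.BT b)).baseChange A := by
  have ht' : C.t⁻¹ ∈ C.BT b := (le_sup_left : C.OCs ≤ C.BT b) (Algebra.subset_adjoin (by simp))
  have hs : C.s ∈ C.BT b := (le_sup_left : C.OCs ≤ C.BT b) (Algebra.subset_adjoin (by simp))
  refine Xi_mem C ξ ?_ ?_ ?_ z hz
  · intro v hv
    exact (C.BT b).mul_mem (mul_mem hs ht') hv
  · intro v hv
    exact (C.BT b).mul_mem (mul_mem hs (pow_mem ht' 2)) hv
  · intro v hv
    exact (C.BT b).mul_mem ht' (C.ι_BT b v hv)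

theorem coord_t_mem (a b : Bool) : coord C.t a ∈ C.B a b :=
  (le_sup_left : C.OC a ≤ _) (Algebra.subset_adjoin (by simp [T]))

theorem coord_x_mem (a b : Bool) : coord C.x b ∈ C.B a b :=
  (le_sup_right : C.OF b ≤ _) (Algebra.subset_adjoin (by simp [Xc]))

theorem ι_coord_t (a : Bool) (n : ℕ) : C.ι (coord C.t a ^ n) = coord C.t a ^ n := by
  cases a <;> simp [coord]

theorem ι_coord_x (a : Bool) (n : ℕ) : C.ι (coord C.x a ^ n) = coord C.x a ^ n := by
  cases a <;> simp [coord]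

end alg

section chart

variable {A : Type} [CommRing A] [Algebra ℂ A]

/-- Multiplication on `A ⊗ B₀₀`. -/
def KB (A : Type) [CommRing A] [Algebra ℂ A] {F : Type} [Field F] [Algebra ℂ F] (C : Cfg F)
    (r : ↥(C.B false false)) :
    (A ⊗[ℂ] ↥(C.B false false)) →ₗ[A] (A ⊗[ℂ] ↥(C.B false false)) :=
  (LinearMap.mulLeft ℂ r).baseChange A

theorem KB_tmul (r : ↥(C.B false false)) (c : A) (v : ↥(C.B false false)) :
    KB A C r (c ⊗ₜ v) = c ⊗ₜ[ℂ] (r * v) := by
  simp [KB]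

theorem incl_KB (r : ↥(C.B false false)) (w : A ⊗[ℂ] ↥(C.B false false)) :
    C.incl.baseChange A (KB A C r w) = KM A (r : F) (C.incl.baseChange A w) := by
  induction w using TensorProduct.induction_on with
  | zero => simp
  | add z w hz hw => rw [map_add, map_add, map_add, map_add, hz, hw]
  | tmul c v => rw [KB_tmul, incl_tmul, incl_tmul, KM_tmul]; rfl

theorem phi_KB (P : Pt A) (ξ6 : A) (r : ↥(C.B false false)) (hr : C.ι r = r)
    (w : A ⊗[ℂ] ↥(C.B false false)) : C.phi P ξ6 (KB A C r w) = C.lift P r * C.phi P ξ6 w := by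
  induction w using TensorProduct.induction_on with
  | zero => simp
  | add z w hz hw => rw [map_add, map_add, map_add, hz, hw, mul_add]
  | tmul c v =>
    have e : C.ιB (r * v) = r * C.ιB v := by
      ext
      show C.ι ((r : F) * (v : F)) = (r : F) * C.ι (v : F)
      rw [map_mul, hr]
    rw [KB_tmul, phi_tmul, phi_tmul, e, map_mul, map_mul]
    ring

theorem t1a_smul00 (P : Pt A) (ξ6 : A) {y : F} (hy : y ∈ C.B false false) (hι : C.ι y = y)
    {z : A ⊗[ℂ] F} (hz : z ∈ C.T100 P ξ6) : KM A y z ∈ C.T100 P ξ6 := by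
  obtain ⟨w, hw, rfl⟩ := hz
  have hw' : C.phi P ξ6 w = 0 := hw
  refine ⟨KB A C ⟨y, hy⟩ w, ?_, incl_KB C ⟨y, hy⟩ w⟩
  show C.phi P ξ6 _ = 0
  rw [phi_KB C P ξ6 ⟨y, hy⟩ hι, hw', mul_zero]

theorem t1a_incl {z : A ⊗[ℂ] F} (hz : z ∈ (sm (C.B false false)).baseChange A) :
    ∃ w, C.incl.baseChange A w = z := hz

theorem t1a_incl' (w : A ⊗[ℂ] ↥(C.B false false)) :
    C.incl.baseChange A w ∈ (sm (C.B false false)).baseChange A := ⟨w, rfl⟩

theorem t1a_T100_le (P : Pt A) (ξ6 : A) {z : A ⊗[ℂ] F} (hz : z ∈ C.T100 P ξ6) :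
    z ∈ (sm (C.B false false)).baseChange A := by
  obtain ⟨w, -, rfl⟩ := hz
  exact t1a_incl' C w

theorem t1a_to00 (P : Pt A) (ξ6 : A) {y : F} (hy : y ∈ C.B false false) (hι : C.ι y = y)
    (hn : IsNilpotent (C.lift P ⟨y, hy⟩)) {z : A ⊗[ℂ] F}
    (hz : z ∈ (sm (C.B false false)).baseChange A) : ∃ n : ℕ, KM A (y ^ n) z ∈ C.T100 P ξ6 := by
  obtain ⟨w, rfl⟩ := t1a_incl C hz
  obtain ⟨n, hn⟩ := hn
  have h := incl_KB C (⟨y, hy⟩ ^ n) w
  have e : ((⟨y, hy⟩ ^ n : ↥(C.B false false)) : F) = y ^ n := by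
    rw [SubmonoidClass.coe_pow]
  rw [e] at h
  refine ⟨n, KB A C (⟨y, hy⟩ ^ n) w, ?_, h⟩
  have h2 := phi_KB C P ξ6 (⟨y, hy⟩ ^ n) (by rw [e, map_pow, hι]) w
  rw [map_pow, hn, zero_mul] at h2
  exact h2

theorem t1a_flat00 (P : Pt A) (ξ6 : A) (hu : IsUnit (1 - ξ6)) :
    Module.Flat A ((A ⊗[ℂ] F) ⧸ C.T100 P ξ6) := by
  obtain ⟨e, he⟩ := hu.exists_left_inv
  obtain ⟨ρ, hρ⟩ := LinearMap.exists_leftInverse_of_injective C.incl
    (LinearMap.ker_eq_bot.2 (fun a b h => Subtype.ext h))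
  have hρA : ∀ w, ρ.baseChange A (C.incl.baseChange A w) = w := by
    intro w
    have := congrArg (fun f => (LinearMap.baseChange A f) w) hρ
    simp only [LinearMap.baseChange_comp, LinearMap.baseChange_id] at this
    exact this
  set q := (sm (C.B false false)).mkQ.baseChange A with hq
  have hqi : ∀ w, q (C.incl.baseChange A w) = 0 := by
    intro w
    have : C.incl.baseChange A w ∈ LinearMap.ker q := by
      rw [hq, t1a_ker]; exact t1a_incl' C w
    exact this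
  refine t1a_flat ((C.phi P ξ6 ∘ₗ ρ.baseChange A).prod q) ?_ _ ?_
  · rintro ⟨a, y⟩
    obtain ⟨z0, rfl⟩ := LinearMap.lTensor_surjective A
      (Submodule.mkQ_surjective (sm (C.B false false))) y
    refine ⟨z0 + C.incl.baseChange A
      (((a - C.phi P ξ6 (ρ.baseChange A z0)) * e) • ((1 : A) ⊗ₜ (1 : ↥(C.B false false)))), ?_⟩
    refine Prod.ext ?_ ?_
    · show C.phi P ξ6 (ρ.baseChange A (z0 + C.incl.baseChange A _)) = a
      rw [map_add, map_add, hρA, map_smul, phi_one, smul_eq_mul, mul_assoc, he]; ring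
    · show q (z0 + C.incl.baseChange A _) = _
      rw [map_add, hqi, add_zero]; rfl
  · ext z
    have e1 : z ∈ LinearMap.ker ((C.phi P ξ6 ∘ₗ ρ.baseChange A).prod q) ↔
        (C.phi P ξ6 ∘ₗ ρ.baseChange A) z = 0 ∧ q z = 0 := Prod.mk_eq_zero
    rw [e1]
    constructor
    · rintro ⟨h1, h2⟩
      have h3 : z ∈ (sm (C.B false false)).baseChange A := by
        rw [← t1a_ker]; exact h2
      obtain ⟨w, rfl⟩ := t1a_incl C h3
      rw [LinearMap.comp_apply, hρA] at h1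
      exact ⟨w, h1, rfl⟩
    · rintro ⟨w, hw, rfl⟩
      refine ⟨?_, hqi w⟩
      rw [LinearMap.comp_apply, hρA]; exact hw

end chart

section red

variable {A : Type} [CommRing A] [Algebra ℂ A]

theorem redW_tmul (π : A →ₐ[ℂ] ℂ) (c : A) (v : F) : redW π (c ⊗ₜ[ℂ] v) = π c • v := by
  simp [redW]

theorem t1a_red (π : A →ₐ[ℂ] ℂ) (p : Submodule ℂ F) (U : (A ⊗[ℂ] F) →ₗ[A] (A ⊗[ℂ] F))
    (hU : ∀ z, redW π (U z) = redW π z) :
    ((p.baseChange A).map U).carrier.image (redW π) = (p : Set F) := by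
  ext v
  constructor
  · rintro ⟨_, ⟨z, hz, rfl⟩, rfl⟩
    rw [hU]
    refine t1_ind (P := fun z => redW π z ∈ (p : Set F)) ?_ ?_ ?_ hz
    · rw [map_zero]; exact zero_mem p
    · intro a v hv
      rw [redW_tmul]; exact Submodule.smul_mem _ _ hv
    · intro z w h1 h2
      rw [map_add]; exact add_mem (S := Submodule ℂ F) (s := p) h1 h2
  · intro hv
    refine ⟨U (1 ⊗ₜ v), ⟨1 ⊗ₜ v, Submodule.tmul_mem_baseChange_of_mem _ hv, rfl⟩, ?_⟩
    rw [hU, redW_tmul, map_one, one_smul]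

theorem t1a_redXi (π : A →ₐ[ℂ] ℂ) (ξ : Fin 7 → A) (h : ∀ k, π (ξ k) = 0) (z : A ⊗[ℂ] F) :
    redW π (C.Xi ξ z) = 0 := by
  induction z using TensorProduct.induction_on with
  | zero => simp
  | add z w hz hw => rw [map_add, map_add, hz, hw, add_zero]
  | tmul c v => simp [Xi_tmul, redW_tmul, h]

theorem t1a_redGG (π : A →ₐ[ℂ] ℂ) (b : A) (h : π b = 0) (z : A ⊗[ℂ] F) :
    redW π (C.GG b z) = redW π z := by
  induction z using TensorProduct.induction_on with
  | zero => simp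
  | add z w hz hw => rw [map_add, map_add, map_add, hz, hw]
  | tmul c v => simp [GG_tmul, redW_tmul, h]

theorem t1a_red_incl (π : A →ₐ[ℂ] ℂ) (w : A ⊗[ℂ] ↥(C.B false false)) :
    redW π (C.incl.baseChange A w) ∈ C.B false false := by
  induction w using TensorProduct.induction_on with
  | zero => rw [map_zero, map_zero]; exact zero_mem _
  | add z w hz hw => rw [map_add, map_add]; exact add_mem hz hw
  | tmul c v => rw [incl_tmul, redW_tmul]; exact Subalgebra.smul_mem _ v.2 _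

theorem t1a_red_phi (π : A →ₐ[ℂ] ℂ) (P : Pt A) (ξ6 : A) (hP : P.map π = pt y0)
    (h6 : π ξ6 = 0) (w : A ⊗[ℂ] ↥(C.B false false)) :
    C.ev y0 (redW π (C.incl.baseChange A w)) = π (C.phi P ξ6 w) := by
  induction w using TensorProduct.induction_on with
  | zero => simp
  | add z w hz hw => rw [map_add, map_add, map_add, map_add, map_add, hz, hw]
  | tmul c v =>
    rw [incl_tmul, redW_tmul, map_smul, C.ev_eq y0 v v.2, ← hP, lift_map, phi_tmul]
    simp [h6]

theorem t1a_red00 (π : A →ₐ[ℂ] ℂ) (P : Pt A) (ξ6 : A) (hP : P.map π = pt y0)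
    (h6 : π ξ6 = 0) (hu : IsUnit (1 - ξ6)) :
    (C.T100 P ξ6).carrier.image (redW π) = (C.E00 : Set F) := by
  obtain ⟨e, he⟩ := hu.exists_left_inv
  ext v
  constructor
  · rintro ⟨_, ⟨w, hw, rfl⟩, rfl⟩
    have hw' : C.phi P ξ6 w = 0 := hw
    refine Submodule.mem_inf.2 ⟨t1a_red_incl C π w, ?_⟩
    rw [LinearMap.mem_ker, t1a_red_phi C π P ξ6 hP h6, hw', map_zero]
  · intro hv
    obtain ⟨h1, h2⟩ := Submodule.mem_inf.1 hv
    rw [LinearMap.mem_ker] at h2
    set w : A ⊗[ℂ] ↥(C.B false false) := 1 ⊗ₜ ⟨v, h1⟩ with hw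
    have hπ : π (C.phi P ξ6 w) = 0 := by
      rw [← t1a_red_phi C π P ξ6 hP h6, hw, incl_tmul, redW_tmul, map_one, one_smul]
      exact h2
    refine ⟨C.incl.baseChange A (w - (C.phi P ξ6 w * e) • (1 ⊗ₜ 1)), ⟨_, ?_, rfl⟩, ?_⟩
    · show C.phi P ξ6 _ = 0
      rw [map_sub, map_smul, phi_one, smul_eq_mul, mul_assoc, he, mul_one, sub_self]
    · have e1 : redW π (C.incl.baseChange A w) = v := by
        rw [hw, incl_tmul, redW_tmul, map_one, one_smul]
      have e2 : redW π (C.incl.baseChange A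
          ((C.phi P ξ6 w * e) • ((1 : A) ⊗ₜ[ℂ] (1 : ↥(C.B false false))))) = 0 := by
        rw [TensorProduct.smul_tmul', incl_tmul, redW_tmul, smul_eq_mul, mul_one, map_mul, hπ,
          zero_mul, zero_smul]
      rw [map_sub, map_sub, e1, e2, sub_zero]

end red

theorem T1_isFam (A : Type) [CommRing A] [Algebra ℂ A] [Module.Finite ℂ A] [IsLocalRing A]
    (ξ : Fin 7 → A) (h : ∀ k, ξ k ∈ maximalIdeal A) : IsFam C.surf C.E (C.T1 ξ h) := by
  have hu : IsUnit (1 - ξ 6) := by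
    by_contra hc
    have h1 : 1 - ξ 6 ∈ maximalIdeal A := (mem_maximalIdeal _).2 hc
    have h2 : (1 : A) ∈ maximalIdeal A := by
      have := add_mem h1 (h 6)
      rwa [sub_add_cancel] at this
    exact (Ideal.ne_top_iff_one _).1 (maximalIdeal.isMaximal A).ne_top h2
  set P := ptA (ξ 4) (ξ 5) (h 4) (h 5) with hP
  obtain ⟨hPτ, hPχ, -, -, -⟩ := ptA_spec (ξ 4) (ξ 5) (h 4) (h 5)
  have hnt : IsNilpotent (C.lift P ⟨C.t, C.t_mem⟩) := by
    rw [C.lift_t, hPτ]; exact t1pt_nil (h 4)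
  have hnx : IsNilpotent (C.lift P ⟨C.x, C.x_mem⟩) := by
    rw [C.lift_x, hPχ]; exact t1pt_nil (h 5)
  -- the charts
  have Lff : ∀ z, z ∈ C.T1 ξ h false false ↔ z ∈ C.T100 P (ξ 6) := fun z => Iff.rfl
  have Ltf : ∀ z, z ∈ C.T1 ξ h true false ↔ ∃ w ∈ (C.V true false).baseChange A,
      w + C.Xi ξ w = z := by
    intro z
    show z ∈ ((C.V true false).baseChange A).map (C.Uop ξ true false) ↔ _
    rw [Uop_tf]; rfl
  have Lft : ∀ z, z ∈ C.T1 ξ h false true ↔ ∃ w ∈ (C.V false true).baseChange A,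
      C.GG (ξ 3) w = z := by
    intro z
    show z ∈ ((C.V false true).baseChange A).map (C.Uop ξ false true) ↔ _
    rw [Uop_ft]; rfl
  have Ltt : ∀ z, z ∈ C.T1 ξ h true true ↔ ∃ w ∈ (C.V true true).baseChange A,
      C.GG (ξ 3) (w + C.Xi ξ w) = z := by
    intro z
    show z ∈ ((C.V true true).baseChange A).map (C.Uop ξ true true) ↔ _
    rw [Uop_tt]; rfl
  have Vff : C.V false false = sm (C.B false false) := C.V_false false
  have Vft : C.V false true = sm (C.B false true) := C.V_false true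
  -- inclusions
  have hVB : ∀ a b (z : A ⊗[ℂ] F), z ∈ (C.V a b).baseChange A →
      z ∈ (sm (C.BT b)).baseChange A := fun a b z hz => t1a_mono (fun v hv => C.V_le_BT a b v hv) hz
  have hVX : ∀ a b (z : A ⊗[ℂ] F), z ∈ (C.V a b).baseChange A →
      z ∈ (C.VX a).baseChange A := fun a b z hz => t1a_mono (C.V_le_VX a b) hz
  have hlt : ∀ a b (z : A ⊗[ℂ] F), z ∈ (sm (C.BT b)).baseChange A →
      ∃ n : ℕ, KM A (coord C.t a ^ n) z ∈ (C.V a b).baseChange A := fun a b z hz =>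
    t1a_loc (fun v hv => C.V_mul a b _ (C.coord_t_mem a b) v hv)
      (fun v hv => C.V_t a b v hv) hz
  have hlx : ∀ a b (z : A ⊗[ℂ] F), z ∈ (C.VX a).baseChange A →
      ∃ n : ℕ, KM A (coord C.x b ^ n) z ∈ (C.V a b).baseChange A := fun a b z hz =>
    t1a_loc (fun v hv => C.V_mul a b _ (C.coord_x_mem a b) v hv)
      (fun v hv => C.V_x a b v hv) hz
  have hXi1 : ∀ b (z : A ⊗[ℂ] F), z ∈ (sm (C.BT b)).baseChange A →
      z + C.Xi ξ z ∈ (sm (C.BT b)).baseChange A := fun b z hz => add_mem hz (C.BT_Xi ξ b z hz)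
  have hXi2 : ∀ b (z : A ⊗[ℂ] F), z ∈ (sm (C.BT b)).baseChange A →
      ∃ w ∈ (sm (C.BT b)).baseChange A, w + C.Xi ξ w = z := fun b z hz =>
    t1a_surj (C.Xi_nil ξ h) (fun z hz => C.BT_Xi ξ b z hz) hz
  have hG1 : ∀ a (z : A ⊗[ℂ] F), z ∈ (C.VX a).baseChange A →
      C.GG (ξ 3) z ∈ (C.VX a).baseChange A := fun a z hz => C.GG_mem _ (C.VX_mul a) hz
  have hG2 : ∀ a (z : A ⊗[ℂ] F), z ∈ (C.VX a).baseChange A →
      ∃ w ∈ (C.VX a).baseChange A, C.GG (ξ 3) w = z := fun a z hz =>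
    C.GG_surj _ (h 3) (C.VX_mul a) hz
  have h00B : ∀ z ∈ C.T100 P (ξ 6), z ∈ (C.V false false).baseChange A := fun z hz => by
    rw [Vff]; exact t1a_T100_le C P (ξ 6) hz
  have hct : ∀ a (n : ℕ), ((coord C.surf.t a ^ n : ↥C.K) : F) = coord C.t a ^ n := by
    intro a n
    rw [SubmonoidClass.coe_pow]
    cases a <;> rfl
  have hcx : ∀ a (n : ℕ), ((coord C.surf.x a ^ n : ↥C.K) : F) = coord C.x a ^ n := by
    intro a n
    rw [SubmonoidClass.coe_pow]
    cases a <;> rfl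
  have hone : ∀ z : A ⊗[ℂ] F, KM A ((1 : ↥C.K) : F) z = z := fun z => KM_one z
  refine ⟨?_, ?_, ?_, ?_, ?_⟩
  · -- smul_mem
    intro a b r hr v hv
    rw [kact_eq]
    have hrB : (r : F) ∈ C.B a b := (C.mem_R a b r).1 hr
    have hrι : C.ι (r : F) = r := r.2
    have hV : ∀ w ∈ (C.V a b).baseChange A, KM A (r : F) w ∈ (C.V a b).baseChange A :=
      fun w hw => KM_mem (fun v hv => C.V_mul a b _ hrB v hv) hw
    cases a <;> cases b
    · exact t1a_smul00 C P (ξ 6) hrB hrι hv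
    · obtain ⟨w, hw, rfl⟩ := (Lft v).1 hv
      exact (Lft _).2 ⟨_, hV w hw, C.GG_KM _ _ _⟩
    · obtain ⟨w, hw, rfl⟩ := (Ltf v).1 hv
      refine (Ltf _).2 ⟨_, hV w hw, ?_⟩
      rw [C.Xi_KM ξ hrι, map_add]
    · obtain ⟨w, hw, rfl⟩ := (Ltt v).1 hv
      refine (Ltt _).2 ⟨_, hV w hw, ?_⟩
      rw [C.Xi_KM ξ hrι, ← map_add, C.GG_KM]
  · -- glue_t
    intro a a' b v hv
    by_cases haa : a' = a
    · subst haa
      refine ⟨0, ?_⟩
      rw [pow_zero, kact_eq, hone]; exact hv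
    · cases a <;> cases a' <;> try exact absurd rfl haa
      · cases b
        · obtain ⟨w, hw, e⟩ := hXi2 false v (hVB false false v (h00B v hv))
          obtain ⟨n, hn⟩ := hlt true false w hw
          refine ⟨n, ?_⟩
          rw [kact_eq, hct]
          refine (Ltf _).2 ⟨_, hn, ?_⟩
          rw [C.Xi_KM ξ (C.ι_coord_t true n), ← map_add, e]
        · obtain ⟨w, hw, rfl⟩ := (Lft v).1 hv
          obtain ⟨w', hw', rfl⟩ := hXi2 true w (hVB false true w hw)
          obtain ⟨n, hn⟩ := hlt true true w' hw'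
          refine ⟨n, ?_⟩
          rw [kact_eq, hct]
          refine (Ltt _).2 ⟨_, hn, ?_⟩
          rw [C.Xi_KM ξ (C.ι_coord_t true n), ← map_add, C.GG_KM]
      · cases b
        · obtain ⟨w, hw, rfl⟩ := (Ltf v).1 hv
          obtain ⟨n, hn⟩ := hlt false false _ (hXi1 false w (hVB true false w hw))
          rw [Vff] at hn
          obtain ⟨m, hm⟩ := t1a_to00 C P (ξ 6) C.t_mem (C.ι_t) hnt hn
          refine ⟨m + n, ?_⟩
          rw [kact_eq, hct, pow_add, KM_mul]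
          exact hm
        · obtain ⟨w, hw, rfl⟩ := (Ltt v).1 hv
          obtain ⟨n, hn⟩ := hlt false true _ (hXi1 true w (hVB true true w hw))
          refine ⟨n, ?_⟩
          rw [kact_eq, hct]
          refine (Lft _).2 ⟨_, hn, ?_⟩
          rw [C.GG_KM]
  · -- glue_x
    intro a b b' v hv
    by_cases hbb : b' = b
    · subst hbb
      refine ⟨0, ?_⟩
      rw [pow_zero, kact_eq, hone]; exact hv
    · cases b <;> cases b' <;> try exact absurd rfl hbb
      · cases a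
        · obtain ⟨w, hw, e⟩ := hG2 false v (hVX false false v (h00B v hv))
          obtain ⟨n, hn⟩ := hlx false true w hw
          refine ⟨n, ?_⟩
          rw [kact_eq, hcx]
          refine (Lft _).2 ⟨_, hn, ?_⟩
          rw [C.GG_KM, e]
        · obtain ⟨w, hw, rfl⟩ := (Ltf v).1 hv
          obtain ⟨w', hw', rfl⟩ := hG2 true w (hVX true false w hw)
          obtain ⟨n, hn⟩ := hlx true true w' hw'
          refine ⟨n, ?_⟩
          rw [kact_eq, hcx]
          refine (Ltt _).2 ⟨_, hn, ?_⟩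
          rw [C.Xi_KM ξ (C.ι_coord_x true n), ← map_add, C.GG_KM, map_add, C.Xi_GG]
      · cases a
        · obtain ⟨w, hw, rfl⟩ := (Lft v).1 hv
          obtain ⟨n, hn⟩ := hlx false false _ (hG1 false w (hVX false true w hw))
          rw [Vff] at hn
          obtain ⟨m, hm⟩ := t1a_to00 C P (ξ 6) C.x_mem (C.ι_x) hnx hn
          refine ⟨m + n, ?_⟩
          rw [kact_eq, hcx, pow_add, KM_mul]
          exact hm
        · obtain ⟨w, hw, rfl⟩ := (Ltt v).1 hv
          obtain ⟨n, hn⟩ := hlx true false _ (hG1 true w (hVX true true w hw))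
          refine ⟨n, ?_⟩
          rw [kact_eq, hcx]
          refine (Ltf _).2 ⟨_, hn, ?_⟩
          rw [C.Xi_KM ξ (C.ι_coord_x false n), ← map_add, C.Xi_GG, ← map_add]
  · -- flat
    intro a b
    cases a <;> cases b
    · exact t1a_flat00 C P (ξ 6) hu
    · refine t1a_flat_map _ _ ?_
      rw [Uop_ft]; exact C.GG_bij _ (h 3)
    · refine t1a_flat_map _ _ ?_
      rw [Uop_tf]; exact C.Xi_bij ξ h
    · refine t1a_flat_map _ _ ?_
      rw [Uop_tt, LinearMap.coe_comp]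
      exact (C.GG_bij _ (h 3)).comp (C.Xi_bij ξ h)
  · -- red
    intro π a b
    have hπ : ∀ k, π (ξ k) = 0 := fun k => by
      have := t1_max π (h k)
      rwa [maximalIdeal_eq_bot, Ideal.mem_bot] at this
    cases a <;> cases b
    · exact t1a_red00 C π P (ξ 6) (ptA_map_C π _ _ (h 4) (h 5)) (hπ 6) hu
    · refine t1a_red π _ _ fun z => ?_
      rw [Uop_ft]; exact t1a_redGG C π _ (hπ 3) z
    · refine t1a_red π _ _ fun z => ?_
      rw [Uop_tf, LinearMap.add_apply, map_add, t1a_redXi C π ξ hπ, add_zero]; rfl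
    · refine t1a_red π _ _ fun z => ?_
      rw [Uop_tt, LinearMap.comp_apply, t1a_redGG C π _ (hπ 3), LinearMap.add_apply, map_add,
        t1a_redXi C π ξ hπ, add_zero]; rfl

end Cfg

end

end Pool.Agent.EllMod
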