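import Pool.Agent.MP_77976d_ag.DetBase
import Pool.Agent.MP_77976d_ag.T1a

/-! # DT1 : the determinant of the family `T1` -/

open scoped TensorProduct
open IsLocalRing

namespace Pool.Agent.EllMod

noncomputable section

section birk

variable {A R : Type} [CommRing A] [CommRing R] [Algebra A R]

theorem dt1_mul {I J : Ideal A} {X Y Z : Submodule A R} (hXY : ∀ x ∈ X, ∀ y ∈ Y, x * y ∈ Z)
    {x y : R} (hx : x ∈ I • X) (hy : y ∈ J • Y) : x * y ∈ (I * J) • Z := by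
  refine Submodule.smul_induction_on hx ?_ ?_
  · intro a ha u hu
    refine Submodule.smul_induction_on hy ?_ ?_
    · intro b hb v hv
      rw [smul_mul_smul_comm]
      exact Submodule.smul_mem_smul (Ideal.mul_mem_mul ha hb) (hXY u hu v hv)
    · intro v w hv hw
      rw [mul_add]
      exact add_mem hv hw
  · intro u v hu hv
    rw [add_mul]
    exact add_mem hu hv

theorem dt1_mul' {J : Ideal A} {X Y Z : Submodule A R} (hXY : ∀ x ∈ X, ∀ y ∈ Y, x * y ∈ Z)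
    {x y : R} (hx : x ∈ X) (hy : y ∈ J • Y) : x * y ∈ J • Z := by
  refine Submodule.smul_induction_on hy ?_ ?_
  · intro b hb v hv
    rw [mul_smul_comm]
    exact Submodule.smul_mem_smul hb (hXY x hx v hv)
  · intro v w hv hw
    rw [mul_add]
    exact add_mem hv hw

/-- Birkhoff factorisation for nilpotent coefficients. -/
theorem dt1_birk (J : Ideal A) (N : ℕ) (hJ : J ^ N = ⊥) (P M : Submodule A R) (Λ : Submodule A R)
    (hΛ : Λ = P ⊔ M) (hP1 : (1 : R) ∈ P) (hM1 : (1 : R) ∈ M) (hPP : ∀ x ∈ P, ∀ y ∈ P, x * y ∈ P)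
    (hMM : ∀ x ∈ M, ∀ y ∈ M, x * y ∈ M) (hΛΛ : ∀ x ∈ Λ, ∀ y ∈ Λ, x * y ∈ Λ) (f : R)
    (hf : f - 1 ∈ J • Λ) : ∃ c ∈ P, c - 1 ∈ J • P ∧ c * f ∈ M := by
  have hPΛ : P ≤ Λ := by rw [hΛ]; exact le_sup_left
  have hMΛ : M ≤ Λ := by rw [hΛ]; exact le_sup_right
  have key : ∀ n : ℕ, ∃ c d : R, c ∈ P ∧ d ∈ M ∧ c - 1 ∈ J • P ∧ d - 1 ∈ J • M ∧
      c * f * d - 1 ∈ J ^ (n + 1) • Λ := by
    intro n
    induction n with
    | zero =>
      refine ⟨1, 1, hP1, hM1, by rw [sub_self]; exact zero_mem _,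
        by rw [sub_self]; exact zero_mem _, ?_⟩
      rw [one_mul, mul_one, zero_add, pow_one]
      exact hf
    | succ n ih =>
      obtain ⟨c, d, hc, hd, hc1, hd1, h⟩ := ih
      set h0 := c * f * d - 1 with hh0
      have h1 : h0 ∈ J ^ (n + 1) • P ⊔ J ^ (n + 1) • M := by
        rw [← Submodule.smul_sup, ← hΛ]
        exact h
      obtain ⟨u, hu, w, hw, huw⟩ := Submodule.mem_sup.1 h1
      have hle : J ^ (n + 1) ≤ J := Ideal.pow_le_self (by omega)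
      have huJ : u ∈ J • P := Submodule.smul_mono_left hle hu
      have hwJ : w ∈ J • M := Submodule.smul_mono_left hle hw
      have huP : u ∈ P := Submodule.smul_le_right huJ
      have hwM : w ∈ M := Submodule.smul_le_right hwJ
      refine ⟨(1 - u) * c, d * (1 - w), hPP _ (sub_mem hP1 huP) _ hc,
        hMM _ hd _ (sub_mem hM1 hwM), ?_, ?_, ?_⟩
      · have e : (1 - u) * c - 1 = (c - 1) - c * u := by ring
        rw [e]
        exact sub_mem hc1 (dt1_mul' hPP hc huJ)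
      · have e : d * (1 - w) - 1 = (d - 1) - d * w := by ring
        rw [e]
        exact sub_mem hd1 (dt1_mul' hMM hd hwJ)
      · have e : (1 - u) * c * f * (d * (1 - w)) - 1 =
            h0 * u * w - h0 * u - h0 * w + u * w := by
          have e2 : c * f * d = 1 + h0 := by rw [hh0]; ring
          have e3 : (1 - u) * c * f * (d * (1 - w)) - 1 = (1 - u) * (1 - w) * (c * f * d) - 1 := by
            ring
          rw [e3, e2, ← huw]
          ring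
        have huΛ : u ∈ J ^ (n + 1) • Λ := smul_mono_right _ hPΛ hu
        have hwΛ : w ∈ J ^ (n + 1) • Λ := smul_mono_right _ hMΛ hw
        have hww : w ∈ Λ := hMΛ hwM
        have hle2 : J ^ (n + 1) * J ^ (n + 1) ≤ J ^ (n + 1 + 1) := by
          rw [← pow_add]
          exact Ideal.pow_le_pow_right (by omega)
        have m1 : h0 * u ∈ J ^ (n + 1 + 1) • Λ := Submodule.smul_mono_left hle2 (dt1_mul hΛΛ h huΛ)
        have m2 : h0 * w ∈ J ^ (n + 1 + 1) • Λ := Submodule.smul_mono_left hle2 (dt1_mul hΛΛ h hwΛ)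
        have m3 : u * w ∈ J ^ (n + 1 + 1) • Λ := Submodule.smul_mono_left hle2 (dt1_mul hΛΛ huΛ hwΛ)
        have m4 : h0 * u * w ∈ J ^ (n + 1 + 1) • Λ := by
          rw [mul_comm]
          exact dt1_mul' hΛΛ hww m1
        rw [e]
        exact add_mem (sub_mem (sub_mem m4 m1) m2) m3
  obtain ⟨c, d, hc, hd, hc1, hd1, h⟩ := key N
  refine ⟨c, hc, hc1, ?_⟩
  have h0 : c * f * d = 1 := by
    rw [pow_succ, hJ, Ideal.bot_mul, Submodule.bot_smul, Submodule.mem_bot, sub_eq_zero] at h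
    exact h
  -- the inverse of `d`
  set y := 1 - d with hy
  have hyM : y ∈ M := sub_mem hM1 hd
  have hyJ : y ∈ J • M := by
    have : y = -(d - 1) := by rw [hy]; ring
    rw [this]
    exact neg_mem hd1
  have hpow : ∀ n : ℕ, y ^ n ∈ M ∧ y ^ (n + 1) ∈ J ^ (n + 1) • M := by
    intro n
    induction n with
    | zero =>
      refine ⟨by rw [pow_zero]; exact hM1, ?_⟩
      rw [zero_add, pow_one, pow_one]
      exact hyJ
    | succ n ih =>
      refine ⟨Submodule.smul_le_right ih.2, ?_⟩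
      rw [pow_succ y, pow_succ J]
      exact dt1_mul hMM ih.2 hyJ
  have hyN : y ^ (N + 1) = 0 := by
    have := (hpow N).2
    rw [pow_succ J, hJ, Ideal.bot_mul, Submodule.bot_smul, Submodule.mem_bot] at this
    exact this
  have hg : d * ∑ i ∈ Finset.range (N + 1), y ^ i = 1 := by
    have h2 := mul_neg_geom_sum y (N + 1)
    rw [hyN, sub_zero] at h2
    have : d = 1 - y := by rw [hy]; ring
    rw [this]
    exact h2
  have e : c * f = ∑ i ∈ Finset.range (N + 1), y ^ i := by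
    calc c * f = c * f * (d * ∑ i ∈ Finset.range (N + 1), y ^ i) := by rw [hg, mul_one]
      _ = (c * f * d) * ∑ i ∈ Finset.range (N + 1), y ^ i := by ring
      _ = _ := by rw [h0, one_mul]
  rw [e]
  exact sum_mem fun i _ => (hpow i).1

end birk

variable {F : Type} [Field F] [Algebra ℂ F] (C : Cfg F)

namespace Cfg

variable {A : Type} [CommRing A] [Algebra ℂ A]

/-- The element `1 ⊗ tⁿ`. -/
def dt1θ (A : Type) [CommRing A] [Algebra ℂ A] (n : ℤ) : A ⊗[ℂ] ↥C.K := 1 ⊗ₜ (C.tK ^ n)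

theorem dt1_tK_ne : C.tK ≠ 0 := by
  intro h
  exact C.coh_t_ne (congrArg Subtype.val h)

theorem dt1θ_mul (m n : ℤ) : C.dt1θ A m * C.dt1θ A n = C.dt1θ A (m + n) := by
  rw [dt1θ, dt1θ, dt1θ, Algebra.TensorProduct.tmul_mul_tmul, one_mul, zpow_add₀ C.dt1_tK_ne]

theorem dt1θ_zero : C.dt1θ A 0 = 1 := by
  rw [dt1θ, zpow_zero]; rfl

/-- `A ⊗ ℂ[t]`, `A ⊗ ℂ[1/t]`, `A ⊗ ℂ[t, 1/t]`: spans of powers of `t`. -/
def dt1L (A : Type) [CommRing A] [Algebra ℂ A] (I : Set ℤ) : Submodule A (A ⊗[ℂ] ↥C.K) :=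
  Submodule.span A (C.dt1θ A '' I)

theorem dt1L_mul {I J Z : Set ℤ} (h : ∀ i ∈ I, ∀ j ∈ J, i + j ∈ Z) (x : A ⊗[ℂ] ↥C.K)
    (hx : x ∈ C.dt1L A I) (y : A ⊗[ℂ] ↥C.K) (hy : y ∈ C.dt1L A J) : x * y ∈ C.dt1L A Z := by
  refine Submodule.span_induction (p := fun x _ => x * y ∈ C.dt1L A Z) ?_ ?_ ?_ ?_ hx
  · rintro _ ⟨i, hi, rfl⟩
    refine Submodule.span_induction (p := fun y _ => C.dt1θ A i * y ∈ C.dt1L A Z) ?_ ?_ ?_ ?_ hy
    · rintro _ ⟨j, hj, rfl⟩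
      rw [dt1θ_mul]
      exact Submodule.subset_span ⟨_, h i hi j hj, rfl⟩
    · rw [mul_zero]; exact zero_mem _
    · intro u v _ _ hu hv
      rw [mul_add]; exact add_mem hu hv
    · intro a u _ hu
      rw [mul_smul_comm]; exact Submodule.smul_mem _ a hu
  · rw [zero_mul]; exact zero_mem _
  · intro u v _ _ hu hv
    rw [add_mul]; exact add_mem hu hv
  · intro a u _ hu
    rw [smul_mul_assoc]; exact Submodule.smul_mem _ a hu

theorem dt1L_univ : C.dt1L A Set.univ = C.dt1L A {n | 0 ≤ n} ⊔ C.dt1L A {n | n ≤ 0} := by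
  rw [dt1L, dt1L, dt1L, ← Submodule.span_union, ← Set.image_union]
  congr 2
  ext n
  simp only [Set.mem_univ, Set.mem_union, Set.mem_ofPred_eq, true_iff]
  exact le_total 0 n

theorem dt1_mem (n : ℤ) : C.dt1θ A n ∈ C.dt1L A Set.univ := Submodule.subset_span ⟨n, trivial, rfl⟩

/-- multiplication by powers of `t` on the base change of a lattice -/
theorem dt1_act {I : Set ℤ} {N : Submodule ℂ ↥C.K} (h : ∀ n ∈ I, ∀ k ∈ N, C.tK ^ n * k ∈ N)
    {c : A ⊗[ℂ] ↥C.K} (hc : c ∈ C.dt1L A I) {z : A ⊗[ℂ] ↥C.K} (hz : z ∈ N.baseChange A) :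
    c * z ∈ N.baseChange A := by
  refine Submodule.span_induction (p := fun c _ => c * z ∈ N.baseChange A) ?_ ?_ ?_ ?_ hc
  · rintro _ ⟨n, hn, rfl⟩
    refine t1_ind (P := fun z => C.dt1θ A n * z ∈ N.baseChange A) ?_ ?_ ?_ hz
    · rw [mul_zero]; exact zero_mem _
    · intro a k hk
      rw [dt1θ, Algebra.TensorProduct.tmul_mul_tmul, one_mul]
      exact Submodule.tmul_mem_baseChange_of_mem a (h n hn k hk)
    · intro z w hz hw
      rw [mul_add]; exact add_mem hz hw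
  · rw [zero_mul]; exact zero_mem _
  · intro x y _ _ hx hy
    rw [add_mul]; exact add_mem hx hy
  · intro a x _ hx
    rw [smul_mul_assoc]; exact Submodule.smul_mem _ a hx

theorem dt1_redW_mul (π : A →ₐ[ℂ] ℂ) (x y : A ⊗[ℂ] ↥C.K) :
    redW π (x * y) = redW π x * redW π y := by
  induction x using TensorProduct.induction_on with
  | zero => simp
  | add x x' h h' => rw [add_mul, map_add, map_add, h, h', add_mul]
  | tmul a k =>
    induction y using TensorProduct.induction_on with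
    | zero => simp
    | add y y' h h' => rw [mul_add, map_add, map_add, h, h', mul_add]
    | tmul b l =>
      rw [Algebra.TensorProduct.tmul_mul_tmul, dt_redW_tmul, dt_redW_tmul, dt_redW_tmul, map_mul,
        smul_mul_smul_comm]

theorem dt1_redW_smul (π : A →ₐ[ℂ] ℂ) (a : A) (y : A ⊗[ℂ] ↥C.K) :
    redW π (a • y) = π a • redW π y := by
  induction y using TensorProduct.induction_on with
  | zero => simp
  | add y y' h h' => rw [smul_add, map_add, map_add, h, h', smul_add]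
  | tmul b l => rw [TensorProduct.smul_tmul', dt_redW_tmul, dt_redW_tmul, smul_eq_mul, map_mul,
      mul_smul]

/-- The embedding `A ⊗ K → A ⊗ F`. -/
def dt1e (A : Type) [CommRing A] [Algebra ℂ A] : (A ⊗[ℂ] ↥C.K) →ₐ[A] (A ⊗[ℂ] F) :=
  Algebra.TensorProduct.map (AlgHom.id A A) C.K.val

theorem dt1e_tmul (a : A) (k : ↥C.K) : C.dt1e A (a ⊗ₜ k) = a ⊗ₜ[ℂ] (k : F) := by
  simp [dt1e]

theorem dt1e_inj : Function.Injective (C.dt1e A) := by
  have h : Function.Injective (LinearMap.lTensor A (C.K.val.toLinearMap)) :=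
    Module.Flat.lTensor_preserves_injective_linearMap _ Subtype.val_injective
  have e : ∀ z : A ⊗[ℂ] ↥C.K, C.dt1e A z = LinearMap.lTensor A (C.K.val.toLinearMap) z := by
    intro z
    induction z using TensorProduct.induction_on with
    | zero => simp
    | add x y hx hy => rw [map_add, map_add, hx, hy]
    | tmul a k => rw [dt1e_tmul, LinearMap.lTensor_tmul]; rfl
  intro x y hxy
  apply h
  rw [← e, ← e, hxy]

theorem dt1_ιA_mul (x y : A ⊗[ℂ] F) : C.ιA A (x * y) = C.ιA A x * C.ιA A y := by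
  induction x using TensorProduct.induction_on with
  | zero => simp
  | add x x' h h' => rw [add_mul, map_add, map_add, h, h', add_mul]
  | tmul a k =>
    induction y using TensorProduct.induction_on with
    | zero => simp
    | add y y' h h' => rw [mul_add, map_add, map_add, h, h', mul_add]
    | tmul b l =>
      rw [Algebra.TensorProduct.tmul_mul_tmul, ιA_tmul, ιA_tmul, ιA_tmul,
        Algebra.TensorProduct.tmul_mul_tmul, map_mul]

theorem dt1_ιA_ιA (x : A ⊗[ℂ] F) : C.ιA A (C.ιA A x) = x := by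
  induction x using TensorProduct.induction_on with
  | zero => simp
  | add x x' h h' => rw [map_add, map_add, h, h']
  | tmul a k => rw [ιA_tmul, ιA_tmul, C.det_ιι]

/-- The form in `A ⊗ F`. -/
theorem dt1_om (z w : A ⊗[ℂ] F) : C.dt1e A (C.omA A z w) =
    (z * C.ιA A w - C.ιA A z * w) * (1 ⊗ₜ (C.j false * (C.x + i))⁻¹) := by
  induction z using TensorProduct.induction_on with
  | zero => simp
  | add z z' h h' =>
    rw [map_add, LinearMap.add_apply, map_add, h, h', map_add]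
    ring
  | tmul a v =>
    induction w using TensorProduct.induction_on with
    | zero => simp
    | add w w' h h' =>
      rw [map_add, map_add, h, h', map_add]
      ring
    | tmul b w =>
      rw [omA_tmul, dt1e_tmul, ιA_tmul, ιA_tmul, Algebra.TensorProduct.tmul_mul_tmul,
        Algebra.TensorProduct.tmul_mul_tmul, ← TensorProduct.tmul_sub,
        Algebra.TensorProduct.tmul_mul_tmul, mul_one, detω_apply]
      rfl

/-- The factor `f`. -/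
def dt1f (ξ : Fin 7 → A) : A ⊗[ℂ] ↥C.K :=
  1 - (ξ 0 ^ 2) • (C.dt1θ A 4 - (2 : A) • C.dt1θ A 3 + C.dt1θ A 2 + (2 : A) • C.dt1θ A 1
        + (2 : A) • C.dt1θ A 0 + C.dt1θ A (-2))
    - (2 * ξ 0 * ξ 1) • (C.dt1θ A 3 - (2 : A) • C.dt1θ A 2 + C.dt1θ A 1 + (2 : A) • C.dt1θ A 0
        + (2 : A) • C.dt1θ A (-1) + C.dt1θ A (-3))
    - (ξ 1 ^ 2) • (C.dt1θ A 2 - (2 : A) • C.dt1θ A 1 + C.dt1θ A 0 + (2 : A) • C.dt1θ A (-1)
        + (2 : A) • C.dt1θ A (-2) + C.dt1θ A (-4))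
    - (ξ 2 ^ 2) • C.dt1θ A (-2)

theorem dt1f_mem (J : Ideal A) (ξ : Fin 7 → A) (h : ∀ k, ξ k ∈ J) :
    C.dt1f ξ - 1 ∈ J • C.dt1L A Set.univ := by
  have m : ∀ a ∈ J, ∀ x ∈ C.dt1L A Set.univ, a • x ∈ J • C.dt1L A Set.univ := fun a ha x hx =>
    Submodule.smul_mem_smul ha hx
  have t := fun n => C.dt1_mem (A := A) n
  have t2 : ∀ n, (2 : A) • C.dt1θ A n ∈ C.dt1L A Set.univ := fun n =>
    Submodule.smul_mem _ _ (t n)
  have e : C.dt1f ξ - 1 = -(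
    (ξ 0 ^ 2) • (C.dt1θ A 4 - (2 : A) • C.dt1θ A 3 + C.dt1θ A 2 + (2 : A) • C.dt1θ A 1
        + (2 : A) • C.dt1θ A 0 + C.dt1θ A (-2))
    + (2 * ξ 0 * ξ 1) • (C.dt1θ A 3 - (2 : A) • C.dt1θ A 2 + C.dt1θ A 1 + (2 : A) • C.dt1θ A 0
        + (2 : A) • C.dt1θ A (-1) + C.dt1θ A (-3))
    + (ξ 1 ^ 2) • (C.dt1θ A 2 - (2 : A) • C.dt1θ A 1 + C.dt1θ A 0 + (2 : A) • C.dt1θ A (-1)
        + (2 : A) • C.dt1θ A (-2) + C.dt1θ A (-4))
    + (ξ 2 ^ 2) • C.dt1θ A (-2)) := by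
    rw [dt1f]; abel
  rw [e]
  refine neg_mem (add_mem (add_mem (add_mem ?_ ?_) ?_) ?_)
  · refine m _ (Ideal.pow_mem_of_mem _ (h 0) 2 (by norm_num)) _ ?_
    exact add_mem (add_mem (add_mem (add_mem (sub_mem (t _) (t2 _)) (t _)) (t2 _)) (t2 _)) (t _)
  · refine m _ (Ideal.mul_mem_left _ _ (h 1)) _ ?_
    exact add_mem (add_mem (add_mem (add_mem (sub_mem (t _) (t2 _)) (t _)) (t2 _)) (t2 _)) (t _)
  · refine m _ (Ideal.pow_mem_of_mem _ (h 1) 2 (by norm_num)) _ ?_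
    exact add_mem (add_mem (add_mem (add_mem (sub_mem (t _) (t2 _)) (t _)) (t2 _)) (t2 _)) (t _)
  · exact m _ (Ideal.pow_mem_of_mem _ (h 2) 2 (by norm_num)) _ (t _)

/-- the element `u` -/
def dt1u (ξ : Fin 7 → A) : A ⊗[ℂ] F := ξ 0 ⊗ₜ (C.s * C.t⁻¹) + ξ 1 ⊗ₜ (C.s * C.t⁻¹ ^ 2)

theorem dt1_ιu (ξ : Fin 7 → A) : C.ιA A (C.dt1u ξ) = - C.dt1u ξ := by
  have h1 : C.ι (C.s * C.t⁻¹) = -(C.s * C.t⁻¹) := by simp
  have h2 : C.ι (C.s * C.t⁻¹ ^ 2) = -(C.s * C.t⁻¹ ^ 2) := by simp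
  rw [dt1u, map_add, ιA_tmul, ιA_tmul, h1, h2, TensorProduct.tmul_neg, TensorProduct.tmul_neg]
  abel

theorem dt1_ιu' (c : A) : C.ιA A (c ⊗ₜ[ℂ] C.t⁻¹) = c ⊗ₜ[ℂ] C.t⁻¹ := by
  have h : C.ι C.t⁻¹ = C.t⁻¹ := by simp
  rw [ιA_tmul, h]

theorem dt1e_θ (n : ℤ) : C.dt1e A (C.dt1θ A n) = 1 ⊗ₜ[ℂ] (C.t ^ n) := by
  rw [dt1θ, dt1e_tmul]
  congr 1

theorem dt1e_f (ξ : Fin 7 → A) : C.dt1e A (C.dt1f ξ) =
    1 - C.dt1u ξ ^ 2 - (ξ 2 ⊗ₜ[ℂ] C.t⁻¹) ^ 2 := by
  have ht := C.coh_t_ne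
  have h2 : C.s ^ 2 * (C.t⁻¹) ^ 2 = C.t ^ 4 - 2 * C.t ^ 3 + C.t ^ 2 + 2 * C.t + 2 + (C.t⁻¹) ^ 2 := by
    rw [C.hs]; field_simp
  have h3 : C.s ^ 2 * (C.t⁻¹) ^ 3 = C.t ^ 3 - 2 * C.t ^ 2 + C.t + 2 + 2 * C.t⁻¹ + (C.t⁻¹) ^ 3 := by
    rw [C.hs]; field_simp
  have h4 : C.s ^ 2 * (C.t⁻¹) ^ 4 = C.t ^ 2 - 2 * C.t + 1 + 2 * C.t⁻¹ + 2 * (C.t⁻¹) ^ 2 +
      (C.t⁻¹) ^ 4 := by
    rw [C.hs]; field_simp
  set ρ : F →ₐ[ℂ] (A ⊗[ℂ] F) := Algebra.TensorProduct.includeRight with hρ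
  have hρa : ∀ y : F, ρ y = 1 ⊗ₜ[ℂ] y := fun y => rfl
  have k2 := congrArg ρ h2
  have k3 := congrArg ρ h3
  have k4 := congrArg ρ h4
  simp only [map_mul, map_add, map_sub, map_pow, map_ofNat, map_one] at k2 k3 k4
  have hs : ∀ (a : A) (y : F), a ⊗ₜ[ℂ] y = a • ρ y := by
    intro a y
    rw [hρa, TensorProduct.smul_tmul', smul_eq_mul, mul_one]
  have z4 : C.t ^ (4 : ℤ) = C.t ^ 4 := by norm_cast
  have z3 : C.t ^ (3 : ℤ) = C.t ^ 3 := by norm_cast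
  have z2 : C.t ^ (2 : ℤ) = C.t ^ 2 := by norm_cast
  have z1 : C.t ^ (1 : ℤ) = C.t := zpow_one _
  have z0 : C.t ^ (0 : ℤ) = 1 := zpow_zero _
  have y1 : C.t ^ (-1 : ℤ) = C.t⁻¹ := by rw [zpow_neg, zpow_one]
  have y2 : C.t ^ (-2 : ℤ) = (C.t⁻¹) ^ 2 := by rw [zpow_neg, z2, inv_pow]
  have y3 : C.t ^ (-3 : ℤ) = (C.t⁻¹) ^ 3 := by rw [zpow_neg, z3, inv_pow]
  have y4 : C.t ^ (-4 : ℤ) = (C.t⁻¹) ^ 4 := by rw [zpow_neg, z4, inv_pow]
  have e1 : C.dt1e A 1 = 1 := by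
    rw [Algebra.TensorProduct.one_def, dt1e_tmul]
    rfl
  rw [dt1f, dt1u]
  simp only [map_sub, map_add, map_smul, e1, dt1e_θ, z4, z3, z2, z1, z0, y1, y2, y3, y4]
  simp only [hs, one_smul, map_mul, map_pow, map_one]
  simp only [Algebra.smul_def, map_mul, map_pow, map_ofNat]
  linear_combination (algebraMap A (A ⊗[ℂ] F) (ξ 0) ^ 2) * k2 +
    (2 * algebraMap A (A ⊗[ℂ] F) (ξ 0) * algebraMap A (A ⊗[ℂ] F) (ξ 1)) * k3 +
    (algebraMap A (A ⊗[ℂ] F) (ξ 1) ^ 2) * k4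

theorem dt1_Xi (ξ : Fin 7 → A) (z : A ⊗[ℂ] F) :
    C.Xi ξ z = C.dt1u ξ * z + (ξ 2 ⊗ₜ[ℂ] C.t⁻¹) * C.ιA A z := rfl

theorem dt1_U (ξ : Fin 7 → A) (z w : A ⊗[ℂ] F) :
    C.omA A (z + C.Xi ξ z) (w + C.Xi ξ w) = C.dt1f ξ * C.omA A z w := by
  apply C.dt1e_inj
  rw [map_mul, dt1_om, dt1_om, dt1e_f, dt1_Xi, dt1_Xi]
  simp only [map_add, dt1_ιA_mul, dt1_ιA_ιA, dt1_ιu, dt1_ιu']
  ring

/-- Values of the form on `A ⊗ V`. -/
theorem dt1_V (a b : Bool) {z w : A ⊗[ℂ] F} (hz : z ∈ (C.V a b).baseChange A)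
    (hw : w ∈ (C.V a b).baseChange A) : C.omA A z w ∈ (C.detN a b).baseChange A := by
  refine t1_ind (P := fun z => C.omA A z w ∈ (C.detN a b).baseChange A) ?_ ?_ ?_ hz
  · rw [map_zero]; exact zero_mem _
  · intro c v hv
    refine t1_ind (P := fun w => C.omA A (c ⊗ₜ v) w ∈ (C.detN a b).baseChange A) ?_ ?_ ?_ hw
    · rw [map_zero]; exact zero_mem _
    · intro d v' hv'
      rw [omA_tmul]
      exact Submodule.tmul_mem_baseChange_of_mem _ (C.detω_V a b v v' hv hv')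
    · intro w w' h h'
      rw [map_add]; exact add_mem h h'
  · intro z z' h h'
    rw [map_add]; exact add_mem h h'

theorem dt1_tK_mem (a b : Bool) : coord C.tK a ∈ C.surf.R a b := by
  rw [C.mem_R]
  have h := C.coh_T_mem a b
  cases a <;> exact h

theorem dt1_one (I : Set ℤ) (h : (0 : ℤ) ∈ I) : (1 : A ⊗[ℂ] ↥C.K) ∈ C.dt1L A I := by
  rw [← C.dt1θ_zero]
  exact Submodule.subset_span ⟨0, h, rfl⟩

theorem dt1_fac (J : Ideal A) (N : ℕ) (hJ : J ^ N = ⊥) (ξ : Fin 7 → A) (h : ∀ k, ξ k ∈ J) :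
    ∃ c ∈ C.dt1L A {n | 0 ≤ n}, c - 1 ∈ J • C.dt1L A {n | 0 ≤ n} ∧
      c * C.dt1f ξ ∈ C.dt1L A {n | n ≤ 0} := by
  have o1 : (1 : A ⊗[ℂ] ↥C.K) ∈ C.dt1L A {n : ℤ | 0 ≤ n} := C.dt1_one _ (le_refl (0 : ℤ))
  have o2 : (1 : A ⊗[ℂ] ↥C.K) ∈ C.dt1L A {n : ℤ | n ≤ 0} := C.dt1_one _ (le_refl (0 : ℤ))
  have m1 : ∀ x ∈ C.dt1L A {n : ℤ | 0 ≤ n}, ∀ y ∈ C.dt1L A {n : ℤ | 0 ≤ n},
      x * y ∈ C.dt1L A {n : ℤ | 0 ≤ n} := fun x hx y hy =>
    C.dt1L_mul (fun i hi j hj => add_nonneg (a := i) (b := j) hi hj) x hx y hy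
  have m2 : ∀ x ∈ C.dt1L A {n : ℤ | n ≤ 0}, ∀ y ∈ C.dt1L A {n : ℤ | n ≤ 0},
      x * y ∈ C.dt1L A {n : ℤ | n ≤ 0} := fun x hx y hy =>
    C.dt1L_mul (fun i hi j hj => add_nonpos (a := i) (b := j) hi hj) x hx y hy
  have m3 : ∀ x ∈ C.dt1L A (Set.univ : Set ℤ), ∀ y ∈ C.dt1L A (Set.univ : Set ℤ),
      x * y ∈ C.dt1L A (Set.univ : Set ℤ) := fun x hx y hy =>
    C.dt1L_mul (Z := (Set.univ : Set ℤ)) (fun i _ j _ => Set.mem_univ (i + j)) x hx y hy
  exact dt1_birk J N hJ _ _ _ C.dt1L_univ o1 o2 m1 m2 m3 (C.dt1f ξ) (C.dt1f_mem J ξ h)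

theorem dt1_lc (a b c : A ⊗[ℂ] ↥C.K) : a * (b * c) = b * (a * c) := mul_left_comm a b c

theorem dt1_kact (k : ↥C.K) (z : A ⊗[ℂ] ↥C.K) : kact A k z = (1 ⊗ₜ k) * z := by
  induction z using TensorProduct.induction_on with
  | zero => rw [map_zero, mul_zero]
  | add x y hx hy => rw [map_add, hx, hy, mul_add]
  | tmul a l => rw [dt_kact_tmul, Algebra.TensorProduct.tmul_mul_tmul, one_mul, smul_eq_mul]

theorem dt1_red (c : A ⊗[ℂ] ↥C.K) (J : Ideal A) (X : Submodule A (A ⊗[ℂ] ↥C.K))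
    (π : A →ₐ[ℂ] ℂ) (hπ : ∀ a ∈ J, π a = 0) (hc : c - 1 ∈ J • X) : redW π c = 1 := by
  have h1 : redW π (c - 1) = 0 := by
    refine Submodule.smul_induction_on hc ?_ ?_
    · intro a ha x _
      rw [dt1_redW_smul, hπ a ha, zero_smul]
    · intro x y hx hy
      rw [map_add, hx, hy, add_zero]
  rw [map_sub, sub_eq_zero] at h1
  rw [h1, ← C.dt1θ_zero, dt1θ, dt_redW_tmul, zpow_zero, map_one, one_smul]

theorem dt1_pos (b : Bool) (n : ℤ) (hn : n ∈ {n : ℤ | 0 ≤ n}) (k : ↥C.K)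
    (hk : k ∈ C.detN false b) : C.tK ^ n * k ∈ C.detN false b := by
  refine C.detN_smul ?_ hk
  have hn' : 0 ≤ n := hn
  lift n to ℕ using hn'
  have h : C.tK ∈ C.surf.R false b := C.dt1_tK_mem false b
  rw [zpow_natCast]
  exact pow_mem h n

theorem dt1_neg (b : Bool) (n : ℤ) (hn : n ∈ {n : ℤ | n ≤ 0}) (k : ↥C.K)
    (hk : k ∈ C.detN true b) : C.tK ^ n * k ∈ C.detN true b := by
  refine C.detN_smul ?_ hk
  obtain ⟨m, rfl⟩ : ∃ m : ℕ, n = -(m : ℤ) := ⟨n.natAbs, by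
    have : n ≤ 0 := hn
    omega⟩
  have h : C.tK⁻¹ ∈ C.surf.R true b := C.dt1_tK_mem true b
  rw [zpow_neg, zpow_natCast, ← inv_pow]
  exact pow_mem h m

/-- The determinant form. -/
def dt1w (c : A ⊗[ℂ] ↥C.K) : (A ⊗[ℂ] F) →ₗ[A] (A ⊗[ℂ] F) →ₗ[A] (A ⊗[ℂ] ↥C.K) :=
  (C.omA A).compr₂ (LinearMap.mulLeft A c)

theorem dt1w_apply (c : A ⊗[ℂ] ↥C.K) (v w : A ⊗[ℂ] F) : C.dt1w c v w = c * C.omA A v w := rfl

theorem hasDet_T1 (A : Type) [CommRing A] [Algebra ℂ A] [Module.Finite ℂ A] [IsLocalRing A]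
    (ξ : Fin 7 → A) (h : ∀ k, ξ k ∈ maximalIdeal A) (h3 : ξ 3 = 0) :
    HasDet C.surf C.detN (C.T1 ξ h) := by
  have : IsArtinianRing A := IsArtinianRing.of_finite ℂ A
  obtain ⟨n, hn⟩ := (isArtinianRing_iff_isNilpotent_maximalIdeal A).1 this
  obtain ⟨c, hc, hc1, hcf⟩ := C.dt1_fac (maximalIdeal A) n hn ξ h
  have hπ0 : ∀ (π : A →ₐ[ℂ] ℂ), ∀ a ∈ maximalIdeal A, π a = 0 := fun π a ha => by
    have := t1_max π ha
    rwa [maximalIdeal_eq_bot, Ideal.mem_bot] at this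
  have hred : ∀ (π : A →ₐ[ℂ] ℂ), redW π c = 1 := fun π =>
    C.dt1_red c (maximalIdeal A) _ π (hπ0 π) hc1
  have hfam := C.T1_isFam A ξ h
  refine ⟨C.dt1w c, ?_, ?_, ?_, ?_⟩
  · intro v
    rw [dt1w_apply, omA_self, mul_zero]
  · intro k v w
    rw [dt1w_apply, dt1w_apply, omA_kact, dt1_kact, dt1_kact]
    exact C.dt1_lc _ _ _
  · intro a b v hv w hw
    rw [dt1w_apply]
    have hG : ∀ z : A ⊗[ℂ] F, C.GG (ξ 3) z = z := by
      intro z
      rw [h3, GG_eq, zero_smul, add_zero]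
    cases a
    · refine C.dt1_act (C.dt1_pos b) hc ?_
      cases b
      · have hv' := t1a_T100_le C _ (ξ 6) hv
        have hw' := t1a_T100_le C _ (ξ 6) hw
        rw [← C.V_false false] at hv' hw'
        exact C.dt1_V false false hv' hw'
      · obtain ⟨v', hv', rfl⟩ := hv
        obtain ⟨w', hw', rfl⟩ := hw
        rw [Uop_ft, hG, hG]
        exact C.dt1_V false true hv' hw'
    · have key : ∀ v' ∈ (C.V true b).baseChange A, ∀ w' ∈ (C.V true b).baseChange A,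
          c * C.omA A (v' + C.Xi ξ v') (w' + C.Xi ξ w') ∈ (C.detN true b).baseChange A := by
        intro v' hv' w' hw'
        rw [dt1_U, ← mul_assoc]
        exact C.dt1_act (C.dt1_neg b) hcf (C.dt1_V true b hv' hw')
      cases b
      · obtain ⟨v', hv', rfl⟩ := hv
        obtain ⟨w', hw', rfl⟩ := hw
        rw [Uop_tf]
        exact key v' hv' w' hw'
      · obtain ⟨v', hv', rfl⟩ := hv
        obtain ⟨w', hw', rfl⟩ := hw
        rw [Uop_tt, LinearMap.comp_apply, LinearMap.comp_apply, hG, hG]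
        exact key v' hv' w' hw'
  · intro π a b k hk
    refine C.detω_hull a b k ?_
    intro v hv w hw
    have hr := hfam.red π a b
    have hv' : v ∈ (C.T1 ξ h a b).carrier.image (redW π) := by rw [hr]; exact hv
    have hw' : w ∈ (C.T1 ξ h a b).carrier.image (redW π) := by rw [hr]; exact hw
    obtain ⟨v', hv1, rfl⟩ := hv'
    obtain ⟨w', hw1, rfl⟩ := hw'
    have h1 := hk v' hv1 w' hw1
    rw [dt1w_apply, dt1_redW_mul, hred, one_mul, redW_omA] at h1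
    exact h1

end Cfg

end

end Pool.Agent.EllMod
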