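import Pool.Agent.MP_77976d_ag.FODefs

/-! # FB : general facts on families -/

open scoped TensorProduct
open IsLocalRing

namespace Pool.Agent.EllMod

noncomputable section

section FB

variable {K : Type} [Field K] [Algebra ℂ K] {X : Surf K} {W : Type} [AddCommGroup W]
  [Module ℂ W] [Module K W] [IsScalarTower ℂ K W] {E : Lat W}

theorem fb_kact_tmul {A : Type} [CommRing A] [Algebra ℂ A] (k : K) (a : A) (w : W) :
    kact A k (a ⊗ₜ[ℂ] w) = a ⊗ₜ[ℂ] (k • w) := by
  simp [kact]

theorem fb_redW_tmul {A : Type} [CommRing A] [Algebra ℂ A] (π : A →ₐ[ℂ] ℂ) (a : A) (w : W) :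
    redW π (a ⊗ₜ[ℂ] w) = π a • w := by
  simp [redW]

theorem fb_redW_smul {A : Type} [CommRing A] [Algebra ℂ A] (π : A →ₐ[ℂ] ℂ) (a : A)
    (z : A ⊗[ℂ] W) : redW π (a • z) = π a • redW π z := by
  induction z using TensorProduct.induction_on with
  | zero => simp
  | add z w hz hw => rw [smul_add, map_add, hz, hw, map_add, smul_add]
  | tmul b w => rw [TensorProduct.smul_tmul', fb_redW_tmul, fb_redW_tmul, smul_eq_mul, map_mul,
      mul_smul]

/-- the map `A ⊗ W → A' ⊗ W` -/
abbrev fbT {A A' : Type} [CommRing A] [Algebra ℂ A] [CommRing A'] [Algebra ℂ A']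
    (α : A →ₐ[ℂ] A') (W : Type) [AddCommGroup W] [Module ℂ W] : (A ⊗[ℂ] W) →ₗ[ℂ] (A' ⊗[ℂ] W) :=
  α.toLinearMap.rTensor W

section

variable {A A' : Type} [CommRing A] [Algebra ℂ A] [CommRing A'] [Algebra ℂ A'] (α : A →ₐ[ℂ] A')

theorem fbT_tmul (a : A) (w : W) : fbT α W (a ⊗ₜ w) = α a ⊗ₜ w := by
  simp [fbT]

theorem fbT_smul (a : A) (z : A ⊗[ℂ] W) : fbT α W (a • z) = α a • fbT α W z := by
  induction z using TensorProduct.induction_on with
  | zero => simp
  | add z w hz hw => rw [smul_add, map_add, hz, hw, map_add, smul_add]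
  | tmul b w =>
    rw [TensorProduct.smul_tmul', fbT_tmul, fbT_tmul, smul_eq_mul, map_mul,
      TensorProduct.smul_tmul', smul_eq_mul]

theorem fbT_kact (k : K) (z : A ⊗[ℂ] W) : fbT α W (kact A k z) = kact A' k (fbT α W z) := by
  induction z using TensorProduct.induction_on with
  | zero => simp
  | add z w hz hw => rw [map_add, map_add, hz, hw, map_add, map_add]
  | tmul b w => rw [fb_kact_tmul, fbT_tmul, fbT_tmul, fb_kact_tmul]

theorem redW_fbT (π : A' →ₐ[ℂ] ℂ) (z : A ⊗[ℂ] W) : redW π (fbT α W z) = redW (π.comp α) z := by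
  induction z using TensorProduct.induction_on with
  | zero => simp
  | add z w hz hw => rw [map_add, map_add, hz, hw, map_add]
  | tmul b w => rw [fbT_tmul, fb_redW_tmul, fb_redW_tmul]; rfl

/-- base change of an endomorphism -/
def fbB (f : (A ⊗[ℂ] W) →ₗ[A] (A ⊗[ℂ] W)) : (A' ⊗[ℂ] W) →ₗ[A'] (A' ⊗[ℂ] W) :=
  TensorProduct.AlgebraTensorModule.lift
    { toFun := fun a' =>
        { toFun := fun w => a' • fbT α W (f (1 ⊗ₜ w))
          map_add' := fun w w' => by
            rw [TensorProduct.tmul_add, map_add, map_add, smul_add]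
          map_smul' := fun c w => by
            rw [TensorProduct.tmul_smul, ← algebraMap_smul A c (1 ⊗ₜ[ℂ] w), map_smul, fbT_smul]
            rw [RingHom.id_apply, AlgHom.commutes, algebraMap_smul, smul_comm] }
      map_add' := fun a' b' => by
        ext w
        simp only [LinearMap.coe_mk, AddHom.coe_mk, LinearMap.add_apply, add_smul]
      map_smul' := fun c a' => by
        ext w
        simp only [LinearMap.coe_mk, AddHom.coe_mk, LinearMap.smul_apply, RingHom.id_apply,
          smul_eq_mul, mul_smul] }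

theorem fbB_tmul (f : (A ⊗[ℂ] W) →ₗ[A] (A ⊗[ℂ] W)) (a' : A') (w : W) :
    fbB α f (a' ⊗ₜ w) = a' • fbT α W (f (1 ⊗ₜ w)) := rfl

theorem fbB_fbT (f : (A ⊗[ℂ] W) →ₗ[A] (A ⊗[ℂ] W)) (z : A ⊗[ℂ] W) :
    fbB α f (fbT α W z) = fbT α W (f z) := by
  induction z using TensorProduct.induction_on with
  | zero => simp
  | add z w hz hw => simp only [map_add, hz, hw]
  | tmul b w =>
    rw [fbT_tmul, fbB_tmul, ← fbT_smul, ← map_smul, TensorProduct.smul_tmul', smul_eq_mul, mul_one]

theorem fbB_comp (f g : (A ⊗[ℂ] W) →ₗ[A] (A ⊗[ℂ] W)) (h : ∀ z, f (g z) = z) (z : A' ⊗[ℂ] W) :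
    fbB α f (fbB α g z) = z := by
  induction z using TensorProduct.induction_on with
  | zero => simp
  | add z w hz hw => rw [map_add, map_add, hz, hw]
  | tmul b w =>
    rw [fbB_tmul, map_smul, fbB_fbT, h, fbT_tmul, map_one, TensorProduct.smul_tmul', smul_eq_mul,
      mul_one]

end

theorem famIso_refl {A : Type} [CommRing A] [Algebra ℂ A] (L : RawFam A W) : FamIso K L L :=
  ⟨LinearEquiv.refl A _, fun _ _ => rfl, fun _ _ => rfl, fun _ _ _ => Iff.rfl⟩

theorem famIso_symm {A : Type} [CommRing A] [Algebra ℂ A] {L L' : RawFam A W}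
    (h : FamIso K L L') : FamIso K L' L := by
  obtain ⟨g, h1, h2, h3⟩ := h
  refine ⟨g.symm, fun k v => ?_, fun π v => ?_, fun a b v => ?_⟩
  · rw [LinearEquiv.symm_apply_eq, h1, LinearEquiv.apply_symm_apply]
  · rw [← h2 π (g.symm v), LinearEquiv.apply_symm_apply]
  · rw [← h3 a b (g.symm v), LinearEquiv.apply_symm_apply]

theorem famIso_trans {A : Type} [CommRing A] [Algebra ℂ A] {L L' L'' : RawFam A W}
    (h : FamIso K L L') (h' : FamIso K L' L'') : FamIso K L L'' := by
  obtain ⟨g, h1, h2, h3⟩ := h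
  obtain ⟨g', h1', h2', h3'⟩ := h'
  refine ⟨g.trans g', fun k v => ?_, fun π v => ?_, fun a b v => ?_⟩
  · rw [LinearEquiv.trans_apply, LinearEquiv.trans_apply, h1, h1']
  · rw [LinearEquiv.trans_apply, h2', h2]
  · rw [LinearEquiv.trans_apply, h3', h3]

theorem fb_push_aux {A A' : Type} [CommRing A] [Algebra ℂ A] [CommRing A'] [Algebra ℂ A']
    (α : A →ₐ[ℂ] A') {L L' : RawFam A W} (f : (A ⊗[ℂ] W) →ₗ[A] (A ⊗[ℂ] W)) (a b : Bool)
    (h : ∀ v ∈ L a b, f v ∈ L' a b) {v : A' ⊗[ℂ] W} (hv : v ∈ push α L a b) :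
    fbB α f v ∈ push α L' a b := by
  unfold push at hv ⊢
  induction hv using Submodule.span_induction with
  | mem x hx =>
    obtain ⟨z, hz, rfl⟩ := hx
    rw [show (α.toLinearMap.rTensor W) z = fbT α W z from rfl, fbB_fbT]
    exact Submodule.subset_span ⟨f z, h z hz, rfl⟩
  | zero => rw [map_zero]; exact zero_mem _
  | add x y _ _ hx hy => rw [map_add]; exact add_mem hx hy
  | smul c x _ hx => rw [map_smul]; exact Submodule.smul_mem _ _ hx

theorem famIso_push {A A' : Type} [CommRing A] [Algebra ℂ A] [CommRing A'] [Algebra ℂ A']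
    (α : A →ₐ[ℂ] A') {L L' : RawFam A W} (h : FamIso K L L') :
    FamIso K (push α L) (push α L') := by
  obtain ⟨g, h1, h2, h3⟩ := h
  have hgs : ∀ z, fbB α g.symm.toLinearMap (fbB α g.toLinearMap z) = z :=
    fbB_comp α g.symm.toLinearMap g.toLinearMap g.symm_apply_apply
  have hsg : ∀ z, fbB α g.toLinearMap (fbB α g.symm.toLinearMap z) = z :=
    fbB_comp α g.toLinearMap g.symm.toLinearMap g.apply_symm_apply
  refine ⟨LinearEquiv.ofLinearMap (fbB α g.toLinearMap) (fbB α g.symm.toLinearMap)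
    (LinearMap.ext hsg) (LinearMap.ext hgs), fun k v => ?_, fun π v => ?_, fun a b v => ?_⟩
  · rw [LinearEquiv.coe_ofLinearMap]
    induction v using TensorProduct.induction_on with
    | zero => simp
    | add z w hz hw => rw [map_add, map_add, hz, hw, map_add, map_add]
    | tmul b w =>
      rw [fb_kact_tmul, fbB_tmul, fbB_tmul, ← fb_kact_tmul, LinearEquiv.coe_coe, h1, fbT_kact,
        map_smul]
  · rw [LinearEquiv.coe_ofLinearMap]
    induction v using TensorProduct.induction_on with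
    | zero => simp
    | add z w hz hw => rw [map_add, map_add, hz, hw, map_add]
    | tmul b w =>
      rw [fbB_tmul, fb_redW_smul, redW_fbT, LinearEquiv.coe_coe, h2, fb_redW_tmul, fb_redW_tmul,
        map_one, one_smul]
  · rw [LinearEquiv.coe_ofLinearMap]
    constructor
    · intro hv
      have := fb_push_aux α (L := L') (L' := L) g.symm.toLinearMap a b
        (fun w hw => (h3 a b _).1 (by
          rw [LinearEquiv.coe_coe, LinearEquiv.apply_symm_apply]; exact hw)) hv
      rwa [hgs] at this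
    · exact fb_push_aux α g.toLinearMap a b (fun w hw => (h3 a b w).2 hw)

/-- If `z` is in the flat family `L` modulo the kernel of `α : A → A'` (surjective) then ... -/
theorem push_surj {A A' : Type} [CommRing A] [Algebra ℂ A] [CommRing A'] [Algebra ℂ A']
    (α : A →ₐ[ℂ] A') (hα : Function.Surjective α) (L : RawFam A W) (a b : Bool)
    (w : A' ⊗[ℂ] W) :
    w ∈ push α L a b ↔ ∃ z ∈ L a b, (α.toLinearMap.rTensor W) z = w := by
  constructor
  · intro hw
    unfold push at hw
    induction hw using Submodule.span_induction with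
    | mem x hx => exact hx
    | zero => exact ⟨0, zero_mem _, map_zero _⟩
    | add x y _ _ hx hy =>
      obtain ⟨z, hz, rfl⟩ := hx
      obtain ⟨z', hz', rfl⟩ := hy
      exact ⟨z + z', add_mem hz hz', map_add _ _ _⟩
    | smul c x _ hx =>
      obtain ⟨z, hz, rfl⟩ := hx
      obtain ⟨c, rfl⟩ := hα c
      exact ⟨c • z, Submodule.smul_mem _ _ hz, fbT_smul α c z⟩
  · rintro ⟨z, hz, rfl⟩
    exact Submodule.subset_span ⟨z, hz, rfl⟩

end FB

end

end Pool.Agent.EllMod
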