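import Pool.Agent.MP_77976d_ag.Base2
import Pool.Agent.MP_77976d_ag.Fb

/-! # TW : twisting by a line bundle -/

set_option linter.unusedSectionVars false
set_option linter.unusedVariables false

open scoped TensorProduct
open IsLocalRing

namespace Pool.Agent.EllMod

noncomputable section

section TW

variable {K : Type} [Field K] [Algebra ℂ K] {X : Surf K} {W : Type} [AddCommGroup W]
  [Module ℂ W] [Module K W] [IsScalarTower ℂ K W] {E : Lat W}

/-- `M` and `M'` are inverse invertible lattices in `K`. -/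
structure IsInv (X : Surf K) (M M' : Lat K) : Prop where
  smul : ∀ a b, ∀ r ∈ X.R a b, ∀ m ∈ M a b, r * m ∈ M a b
  smul' : ∀ a b, ∀ r ∈ X.R a b, ∀ m ∈ M' a b, r * m ∈ M' a b
  glue_t : ∀ a a' b, ∀ m ∈ M a b, ∃ n : ℕ, (coord X.t a') ^ n * m ∈ M a' b
  glue_t' : ∀ a a' b, ∀ m ∈ M' a b, ∃ n : ℕ, (coord X.t a') ^ n * m ∈ M' a' b
  glue_x : ∀ a b b', ∀ m ∈ M a b, ∃ n : ℕ, (coord X.x b') ^ n * m ∈ M a b'
  glue_x' : ∀ a b b', ∀ m ∈ M' a b, ∃ n : ℕ, (coord X.x b') ^ n * m ∈ M' a b'
  mul : ∀ a b, M a b * M' a b = Subalgebra.toSubmodule (X.R a b)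

theorem IsInv.tw_symm {M M' : Lat K} (h : IsInv X M M') : IsInv X M' M where
  smul := h.smul'
  smul' := h.smul
  glue_t := h.glue_t'
  glue_t' := h.glue_t
  glue_x := h.glue_x'
  glue_x' := h.glue_x
  mul a b := by rw [mul_comm, h.mul]

/-! ### coordinate rings -/

theorem tw_algebraMap_mem (X : Surf K) (a b : Bool) {y : K}
    (hy : y ∈ Algebra.adjoin ℂ {coord X.t a, coord X.x b}) : y ∈ X.R a b := by
  have h : algebraMap (Algebra.adjoin ℂ {coord X.t a, coord X.x b}) K ⟨y, hy⟩ ∈
      integralClosure (Algebra.adjoin ℂ {coord X.t a, coord X.x b}) K :=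
    Subalgebra.algebraMap_mem _ _
  exact h

theorem tw_t_mem (X : Surf K) (a b : Bool) : coord X.t a ∈ X.R a b :=
  tw_algebraMap_mem X a b (Algebra.subset_adjoin (by simp))

theorem tw_x_mem (X : Surf K) (a b : Bool) : coord X.x b ∈ X.R a b :=
  tw_algebraMap_mem X a b (Algebra.subset_adjoin (by simp))

theorem tw_smul_mem (hE : IsCoh X E) {a b : Bool} {r : K} (hr : r ∈ X.R a b) {v : W}
    (hv : v ∈ E a b) : r • v ∈ E a b := by
  obtain ⟨S, hS⟩ := hE.fg a b
  have h1 : v ∈ (Submodule.span (X.R a b) (S : Set W) : Set W) := by rw [← hS]; exact hv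
  have h2 : (⟨r, hr⟩ : X.R a b) • v ∈ Submodule.span (X.R a b) (S : Set W) :=
    Submodule.smul_mem _ _ h1
  have h3 : r • v ∈ (Submodule.span (X.R a b) (S : Set W) : Set W) := h2
  rw [← hS] at h3
  exact h3

/-! ### the action -/

section act

variable {A : Type} [CommRing A] [Algebra ℂ A]

theorem tw_kact_mul (k k' : K) (z : A ⊗[ℂ] W) : kact A k (kact A k' z) = kact A (k * k') z := by
  induction z using TensorProduct.induction_on with
  | zero => simp
  | add z w hz hw => rw [map_add, map_add, hz, hw, map_add]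
  | tmul b w => rw [fb_kact_tmul, fb_kact_tmul, fb_kact_tmul, mul_smul]

theorem tw_kact_one (z : A ⊗[ℂ] W) : kact A (1 : K) z = z := by
  induction z using TensorProduct.induction_on with
  | zero => simp
  | add z w hz hw => rw [map_add, hz, hw]
  | tmul b w => rw [fb_kact_tmul, one_smul]

theorem tw_kact_sum {ι : Type} (s : Finset ι) (k : ι → K) (z : A ⊗[ℂ] W) :
    kact A (∑ i ∈ s, k i) z = ∑ i ∈ s, kact A (k i) z := by
  induction z using TensorProduct.induction_on with
  | zero => simp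
  | add z w hz hw =>
    rw [map_add, hz, hw, ← Finset.sum_add_distrib]
    exact Finset.sum_congr rfl fun i _ => (map_add _ _ _).symm
  | tmul b w =>
    rw [fb_kact_tmul, Finset.sum_smul, TensorProduct.tmul_sum]
    exact Finset.sum_congr rfl fun i _ => (fb_kact_tmul _ _ _).symm

theorem tw_redW_kact (π : A →ₐ[ℂ] ℂ) (k : K) (z : A ⊗[ℂ] W) :
    redW π (kact A k z) = k • redW π z := by
  induction z using TensorProduct.induction_on with
  | zero => simp
  | add z w hz hw => rw [map_add, map_add, hz, hw, map_add, smul_add]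
  | tmul b w => rw [fb_kact_tmul, fb_redW_tmul, fb_redW_tmul, smul_comm]

end act

/-- a finite decomposition of an element of a product -/
theorem tw_decomp {M M' : Submodule ℂ K} {r : K} (hr : r ∈ M * M') :
    ∃ (ι : Type) (_ : Fintype ι) (f g : ι → K), (∀ i, f i ∈ M) ∧ (∀ i, g i ∈ M') ∧
      ∑ i, f i * g i = r := by
  induction hr using Submodule.mul_induction_on' with
  | mem_mul_mem m hm n hn =>
    exact ⟨Unit, inferInstance, fun _ => m, fun _ => n, fun _ => hm, fun _ => hn, by simp⟩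
  | add x _ y _ hx hy =>
    obtain ⟨ι, _, f, g, h1, h2, h3⟩ := hx
    obtain ⟨ι', _, f', g', h1', h2', h3'⟩ := hy
    refine ⟨ι ⊕ ι', inferInstance, Sum.elim f f', Sum.elim g g', ?_, ?_, ?_⟩
    · rintro (i | i)
      · exact h1 i
      · exact h1' i
    · rintro (i | i)
      · exact h2 i
      · exact h2' i
    · rw [Fintype.sum_sum_type]
      simp only [Sum.elim_inl, Sum.elim_inr]
      rw [h3, h3']

theorem IsInv.tw_dec {M M' : Lat K} (h : IsInv X M M') (a b : Bool) :
    ∃ (ι : Type) (_ : Fintype ι) (f g : ι → K), (∀ i, f i ∈ M a b) ∧ (∀ i, g i ∈ M' a b) ∧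
      ∑ i, f i * g i = 1 := by
  refine tw_decomp ?_
  rw [h.mul]
  exact one_mem (X.R a b)

theorem IsInv.tw_mul_mem {M M' : Lat K} (h : IsInv X M M') {a b : Bool} {m m' : K}
    (hm : m ∈ M a b) (hm' : m' ∈ M' a b) : m * m' ∈ X.R a b := by
  have h1 : m * m' ∈ M a b * M' a b := Submodule.mul_mem_mul hm hm'
  rw [h.mul] at h1
  exact h1

/-! ### products -/

section fam

variable {A : Type} [CommRing A] [Algebra ℂ A]

/-- The product `M L` of a lattice in `K` and a family. -/
def mulFam (M : Lat K) (L : RawFam A W) : RawFam A W := fun a b =>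
  Submodule.span A {z | ∃ m ∈ M a b, ∃ v ∈ L a b, z = kact A m v}

theorem tw_mem {M : Lat K} {L : RawFam A W} {a b : Bool} {m : K} {v : A ⊗[ℂ] W}
    (hm : m ∈ M a b) (hv : v ∈ L a b) : kact A m v ∈ mulFam M L a b :=
  Submodule.subset_span ⟨m, hm, v, hv, rfl⟩

/-- to check that a linear map sends `M L` to `N` it suffices to check products -/
theorem tw_map {M : Lat K} {L : RawFam A W} {a b : Bool} {N : Submodule A (A ⊗[ℂ] W)}
    (f : (A ⊗[ℂ] W) →ₗ[A] (A ⊗[ℂ] W))
    (h : ∀ m ∈ M a b, ∀ v ∈ L a b, f (kact A m v) ∈ N) {v : A ⊗[ℂ] W}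
    (hv : v ∈ mulFam M L a b) : f v ∈ N := by
  have h1 : mulFam M L a b ≤ N.comap f := by
    refine Submodule.span_le.2 ?_
    rintro _ ⟨m, hm, v, hv, rfl⟩
    exact h m hm v hv
  exact h1 hv

theorem mulFam_mulFam {M M' : Lat K} (hM : IsInv X M M') {L : RawFam A W}
    (hL : ∀ a b, ∀ r ∈ X.R a b, ∀ v ∈ L a b, kact A r v ∈ L a b) :
    mulFam M' (mulFam M L) = L := by
  funext a b
  refine le_antisymm ?_ ?_
  · refine Submodule.span_le.2 ?_
    rintro _ ⟨m', hm', v, hv, rfl⟩
    refine tw_map (kact A m') (fun m hm z hz => ?_) hv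
    rw [tw_kact_mul]
    exact hL a b _ (by rw [mul_comm]; exact hM.tw_mul_mem hm hm') z hz
  · intro z hz
    obtain ⟨ι, _, f, g, hf, hg, hfg⟩ := hM.tw_dec a b
    rw [← tw_kact_one (K := K) z, ← hfg, tw_kact_sum]
    refine Submodule.sum_mem _ fun i _ => ?_
    rw [mul_comm, ← tw_kact_mul]
    exact tw_mem (hg i) (tw_mem (hf i) hz)

theorem mulLat_mulLat {M M' : Lat K} (hM : IsInv X M M')
    (hE : ∀ a b, ∀ r ∈ X.R a b, ∀ v ∈ E a b, r • v ∈ E a b) :
    mulLat M' (mulLat M E) = E := by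
  funext a b
  refine le_antisymm ?_ ?_
  · refine Submodule.span_le.2 ?_
    rintro _ ⟨m', hm', v, hv, rfl⟩
    have h1 : mulLat M E a b ≤ (E a b).comap ((Algebra.lsmul ℂ ℂ W) m') := by
      refine Submodule.span_le.2 ?_
      rintro _ ⟨m, hm, z, hz, rfl⟩
      change m' • m • z ∈ E a b
      rw [← mul_smul, mul_comm]
      exact hE a b _ (hM.tw_mul_mem hm hm') z hz
    exact h1 hv
  · intro z hz
    obtain ⟨ι, _, f, g, hf, hg, hfg⟩ := hM.tw_dec a b
    rw [← one_smul K z, ← hfg, Finset.sum_smul]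
    refine Submodule.sum_mem _ fun i _ => ?_
    rw [mul_comm, mul_smul]
    exact Submodule.subset_span ⟨_, hg i, _, Submodule.subset_span ⟨_, hf i, _, hz, rfl⟩, rfl⟩

theorem tw_flat (L1 L2 : Submodule A (A ⊗[ℂ] W)) (h1 : Module.Flat A ((A ⊗[ℂ] W) ⧸ L1))
    {ι : Type} [Fintype ι] (m m' : ι → K) (hm : ∀ i, ∀ z ∈ L1, kact A (m i) z ∈ L2)
    (hm' : ∀ i, ∀ z ∈ L2, kact A (m' i) z ∈ L1) (h : ∑ i, m i * m' i = 1) :
    Module.Flat A ((A ⊗[ℂ] W) ⧸ L2) := by
  classical
  let f : ((A ⊗[ℂ] W) ⧸ L2) →ₗ[A] (ι → ((A ⊗[ℂ] W) ⧸ L1)) :=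
    LinearMap.pi fun i => L2.mapQ L1 (kact A (m' i)) (hm' i)
  let r : (ι → ((A ⊗[ℂ] W) ⧸ L1)) →ₗ[A] ((A ⊗[ℂ] W) ⧸ L2) :=
    ∑ i, (L1.mapQ L2 (kact A (m i)) (hm i)) ∘ₗ LinearMap.proj i
  have hpi : Module.Flat A (ι → ((A ⊗[ℂ] W) ⧸ L1)) :=
    Module.Flat.of_linearEquiv
      (DirectSum.linearEquivFunOnFintype A ι (fun _ => ((A ⊗[ℂ] W) ⧸ L1))).symm
  refine Module.Flat.of_retract f r (LinearMap.ext fun q => ?_)
  obtain ⟨z, rfl⟩ := Submodule.mkQ_surjective L2 q
  rw [LinearMap.comp_apply, LinearMap.id_apply]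
  have h2 : r (f (L2.mkQ z)) = ∑ i, L2.mkQ (kact A (m i * m' i) z) := by
    simp only [r, LinearMap.sum_apply, LinearMap.comp_apply]
    refine Finset.sum_congr rfl fun i _ => ?_
    rw [← tw_kact_mul]
    rfl
  rw [h2, ← map_sum, ← tw_kact_sum, h, tw_kact_one]

theorem tw_isFam {M M' : Lat K} (hM : IsInv X M M') {L : RawFam A W} (hL : IsFam X E L) :
    IsFam X (mulLat M E) (mulFam M L) where
  smul_mem a b r hr v hv := by
    refine tw_map (kact A r) (fun m hm z hz => ?_) hv
    rw [tw_kact_mul]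
    exact tw_mem (hM.smul a b r hr m hm) hz
  glue_t a a' b v hv := by
    have key : ∃ n : ℕ, ∀ n' ≥ n, kact A ((coord X.t a') ^ n') v ∈ mulFam M L a' b := by
      unfold mulFam at hv
      induction hv using Submodule.span_induction with
      | mem x hx =>
        obtain ⟨m, hm, z, hz, rfl⟩ := hx
        obtain ⟨n1, hn1⟩ := hM.glue_t a a' b m hm
        obtain ⟨n2, hn2⟩ := hL.glue_t a a' b z hz
        refine ⟨n1 + n2, fun n' hn' => ?_⟩
        obtain ⟨d, rfl⟩ := Nat.exists_eq_add_of_le hn'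
        have h1 : kact A ((coord X.t a') ^ (n1 + n2 + d)) (kact A m z) =
            kact A ((coord X.t a') ^ d * ((coord X.t a') ^ n1 * m))
              (kact A ((coord X.t a') ^ n2) z) := by
          rw [tw_kact_mul, tw_kact_mul, pow_add, pow_add]
          congr 2
          ring
        rw [h1]
        exact tw_mem (hM.smul a' b _ (pow_mem (tw_t_mem X a' b) d) _ hn1) hn2
      | zero => exact ⟨0, fun _ _ => by rw [map_zero]; exact zero_mem _⟩
      | add x y _ _ hx hy =>
        obtain ⟨n1, hn1⟩ := hx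
        obtain ⟨n2, hn2⟩ := hy
        refine ⟨n1 + n2, fun n' hn' => ?_⟩
        rw [map_add]
        exact add_mem (hn1 n' (by omega)) (hn2 n' (by omega))
      | smul c x _ hx =>
        obtain ⟨n1, hn1⟩ := hx
        refine ⟨n1, fun n' hn' => ?_⟩
        rw [map_smul]
        exact Submodule.smul_mem _ _ (hn1 n' hn')
    obtain ⟨n, hn⟩ := key
    exact ⟨n, hn n le_rfl⟩
  glue_x a b b' v hv := by
    have key : ∃ n : ℕ, ∀ n' ≥ n, kact A ((coord X.x b') ^ n') v ∈ mulFam M L a b' := by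
      unfold mulFam at hv
      induction hv using Submodule.span_induction with
      | mem x hx =>
        obtain ⟨m, hm, z, hz, rfl⟩ := hx
        obtain ⟨n1, hn1⟩ := hM.glue_x a b b' m hm
        obtain ⟨n2, hn2⟩ := hL.glue_x a b b' z hz
        refine ⟨n1 + n2, fun n' hn' => ?_⟩
        obtain ⟨d, rfl⟩ := Nat.exists_eq_add_of_le hn'
        have h1 : kact A ((coord X.x b') ^ (n1 + n2 + d)) (kact A m z) =
            kact A ((coord X.x b') ^ d * ((coord X.x b') ^ n1 * m))
              (kact A ((coord X.x b') ^ n2) z) := by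
          rw [tw_kact_mul, tw_kact_mul, pow_add, pow_add]
          congr 2
          ring
        rw [h1]
        exact tw_mem (hM.smul a b' _ (pow_mem (tw_x_mem X a b') d) _ hn1) hn2
      | zero => exact ⟨0, fun _ _ => by rw [map_zero]; exact zero_mem _⟩
      | add x y _ _ hx hy =>
        obtain ⟨n1, hn1⟩ := hx
        obtain ⟨n2, hn2⟩ := hy
        refine ⟨n1 + n2, fun n' hn' => ?_⟩
        rw [map_add]
        exact add_mem (hn1 n' (by omega)) (hn2 n' (by omega))
      | smul c x _ hx =>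
        obtain ⟨n1, hn1⟩ := hx
        refine ⟨n1, fun n' hn' => ?_⟩
        rw [map_smul]
        exact Submodule.smul_mem _ _ (hn1 n' hn')
    obtain ⟨n, hn⟩ := key
    exact ⟨n, hn n le_rfl⟩
  flat a b := by
    obtain ⟨ι, _, f, g, hf, hg, hfg⟩ := hM.tw_dec a b
    refine tw_flat (L a b) (mulFam M L a b) (hL.flat a b) f g (fun i z hz => tw_mem (hf i) hz)
      (fun i z hz => tw_map (kact A (g i)) (fun m hm v hv => ?_) hz) hfg
    rw [tw_kact_mul]
    exact hL.smul_mem a b _ (by rw [mul_comm]; exact hM.tw_mul_mem hm (hg i)) v hv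
  red π a b := by
    refine Set.Subset.antisymm ?_ ?_
    · rintro _ ⟨z, hz, rfl⟩
      have hz' : z ∈ mulFam M L a b := hz
      change redW π z ∈ mulLat M E a b
      unfold mulFam at hz'
      induction hz' using Submodule.span_induction with
      | mem x hx =>
        obtain ⟨m, hm, v, hv, rfl⟩ := hx
        rw [tw_redW_kact]
        have h1 : redW π v ∈ (E a b : Set W) := by
          rw [← hL.red π a b]; exact ⟨v, hv, rfl⟩
        exact Submodule.subset_span ⟨m, hm, _, h1, rfl⟩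
      | zero => rw [map_zero]; exact zero_mem _
      | add x y hx' hy' hx hy =>
        rw [map_add]
        exact add_mem (hx hx') (hy hy')
      | smul c x hx' hx =>
        rw [fb_redW_smul]
        exact Submodule.smul_mem _ _ (hx hx')
    · have h1 : mulLat M E a b ≤ Submodule.map (redW π) ((mulFam M L a b).restrictScalars ℂ) := by
        refine Submodule.span_le.2 ?_
        rintro _ ⟨m, hm, v, hv, rfl⟩
        have h2 : v ∈ (redW π) '' (L a b).carrier := by rw [hL.red π a b]; exact hv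
        obtain ⟨z, hz, rfl⟩ := h2
        exact ⟨kact A m z, tw_mem hm hz, tw_redW_kact π m z⟩
      intro w hw
      obtain ⟨z, hz, rfl⟩ := h1 hw
      exact ⟨z, hz, rfl⟩

theorem tw_famIso (M : Lat K) {L L' : RawFam A W} (h : FamIso K L L') :
    FamIso K (mulFam M L) (mulFam M L') := by
  obtain ⟨g, h1, h2, h3⟩ := h
  refine ⟨g, h1, h2, fun a b v => ⟨fun hv => ?_, fun hv => ?_⟩⟩
  · have h4 := tw_map (N := mulFam M L a b) g.symm.toLinearMap (fun m hm z hz => ?_) hv
    · rwa [LinearEquiv.coe_coe, LinearEquiv.symm_apply_apply] at h4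
    · have h5 : g.symm (kact A m z) = kact A m (g.symm z) := by
        rw [LinearEquiv.symm_apply_eq, h1, LinearEquiv.apply_symm_apply]
      rw [LinearEquiv.coe_coe, h5]
      exact tw_mem hm ((h3 a b _).1 (by rw [LinearEquiv.apply_symm_apply]; exact hz))
  · refine tw_map g.toLinearMap (fun m hm z hz => ?_) hv
    rw [LinearEquiv.coe_coe, h1]
    exact tw_mem hm ((h3 a b z).2 hz)

end fam

theorem push_mulFam {A A' : Type} [CommRing A] [Algebra ℂ A] [CommRing A'] [Algebra ℂ A']
    (α : A →ₐ[ℂ] A') (M : Lat K) (L : RawFam A W) :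
    push α (mulFam M L) = mulFam M (push α L) := by
  funext a b
  refine le_antisymm ?_ ?_
  · refine Submodule.span_le.2 ?_
    rintro _ ⟨z, hz, rfl⟩
    have hz' : z ∈ mulFam M L a b := hz
    change fbT α W z ∈ mulFam M (push α L) a b
    unfold mulFam at hz'
    induction hz' using Submodule.span_induction with
    | mem x hx =>
      obtain ⟨m, hm, v, hv, rfl⟩ := hx
      rw [fbT_kact]
      exact tw_mem hm (Submodule.subset_span ⟨v, hv, rfl⟩)
    | zero => rw [map_zero]; exact zero_mem _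
    | add x y hx' hy' hx hy =>
      rw [map_add]
      exact add_mem (hx hx') (hy hy')
    | smul c x hx' hx =>
      rw [fbT_smul]
      exact Submodule.smul_mem _ _ (hx hx')
  · refine Submodule.span_le.2 ?_
    rintro _ ⟨m, hm, w, hw, rfl⟩
    change kact A' m w ∈ push α (mulFam M L) a b
    unfold push at hw
    induction hw using Submodule.span_induction with
    | mem x hx =>
      obtain ⟨z, hz, rfl⟩ := hx
      rw [show (α.toLinearMap.rTensor W) z = fbT α W z from rfl, ← fbT_kact]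
      exact Submodule.subset_span ⟨_, tw_mem hm hz, rfl⟩
    | zero => rw [map_zero]; exact zero_mem _
    | add x y _ _ hx hy =>
      rw [map_add]
      exact add_mem hx hy
    | smul c x _ hx =>
      rw [map_smul]
      exact Submodule.smul_mem _ _ hx

theorem twist {M M' : Lat K} (hM : IsInv X M M') (hE : IsCoh X E) (R : Type) [CommRing R]
    [Algebra ℂ R] (P : ProRep X (mulLat M E) R) : Nonempty (ProRep X E R) := by
  have hEE : mulLat M' (mulLat M E) = E :=
    mulLat_mulLat hM fun a b r hr v hv => tw_smul_mem hE hr hv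
  refine ⟨{
    fam := fun A _ _ _ _ f => mulFam M' (P.fam A f)
    isFam := fun A _ _ _ _ f => ?_
    inj := fun A _ _ _ _ f g h => ?_
    surj := fun A _ _ _ _ L hL => ?_
    nat := fun A A' _ _ _ _ _ _ _ _ α f => ?_ }⟩
  · have h := tw_isFam hM.tw_symm (P.isFam A f)
    rwa [hEE] at h
  · refine P.inj A f g ?_
    have h1 := tw_famIso M h
    rwa [mulFam_mulFam hM.tw_symm (P.isFam A f).smul_mem,
      mulFam_mulFam hM.tw_symm (P.isFam A g).smul_mem] at h1
  · obtain ⟨f, hf⟩ := P.surj A (mulFam M L) (tw_isFam hM hL)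
    refine ⟨f, ?_⟩
    have h1 := tw_famIso M' hf
    rwa [mulFam_mulFam hM hL.smul_mem] at h1
  · rw [push_mulFam]
    exact tw_famIso M' (P.nat A A' α f)

end TW

end

end Pool.Agent.EllMod
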