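import Pool.Agent.MP_77976d_ag.DetDefs
import Pool.Agent.MP_77976d_ag.Tw

/-! # DTW : twisting by a line bundle, families with fixed determinant -/

open scoped TensorProduct
open IsLocalRing

namespace Pool.Agent.EllMod

noncomputable section

variable {K : Type} [Field K] [Algebra ℂ K] {X : Surf K}
variable {W : Type} [AddCommGroup W] [Module ℂ W] [Module K W] [IsScalarTower ℂ K W]
variable {A : Type} [CommRing A] [Algebra ℂ A] {E : Lat W}

/-- multiplication by `k` maps `N ⊗ A` to `N' ⊗ A` if `k N ≤ N'` -/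
theorem dtw_kact_mem {N N' : Submodule ℂ K} {k : K} (h : ∀ n ∈ N, k * n ∈ N') {z : A ⊗[ℂ] K}
    (hz : z ∈ N.baseChange A) : kact A k z ∈ N'.baseChange A := by
  rw [Submodule.baseChange_eq_span] at hz
  induction hz using Submodule.span_induction with
  | mem x hx =>
    obtain ⟨n, hn, rfl⟩ := hx
    rw [TensorProduct.mk_apply, fb_kact_tmul]
    exact Submodule.tmul_mem_baseChange_of_mem _ (h n hn)
  | zero => rw [map_zero]; exact zero_mem _
  | add x y _ _ hx hy => rw [map_add]; exact add_mem hx hy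
  | smul c x _ hx => rw [map_smul]; exact Submodule.smul_mem _ _ hx

theorem dtw_skew (ω : (A ⊗[ℂ] W) →ₗ[A] (A ⊗[ℂ] W) →ₗ[A] (A ⊗[ℂ] K)) (h : ∀ v, ω v v = 0)
    (v w : A ⊗[ℂ] W) : ω v w = - ω w v := by
  have h1 := h (v + w)
  simp only [map_add, LinearMap.add_apply, h, zero_add, add_zero] at h1
  exact eq_neg_of_add_eq_zero_right h1

theorem dtw_right (ω : (A ⊗[ℂ] W) →ₗ[A] (A ⊗[ℂ] W) →ₗ[A] (A ⊗[ℂ] K)) (h : ∀ v, ω v v = 0)
    (hk : ∀ (k : K) v w, ω (kact A k v) w = kact A k (ω v w)) (k : K) (v w : A ⊗[ℂ] W) :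
    ω v (kact A k w) = kact A k (ω v w) := by
  rw [dtw_skew ω h, hk, dtw_skew ω h w v, map_neg, neg_neg]

theorem dtw_both (ω : (A ⊗[ℂ] W) →ₗ[A] (A ⊗[ℂ] W) →ₗ[A] (A ⊗[ℂ] K)) (h : ∀ v, ω v v = 0)
    (hk : ∀ (k : K) v w, ω (kact A k v) w = kact A k (ω v w)) (m m' : K) (v w : A ⊗[ℂ] W) :
    ω (kact A m v) (kact A m' w) = kact A (m * m') (ω v w) := by
  rw [hk, dtw_right ω h hk, tw_kact_mul]

theorem hasDet_mulFam {M M' N N' : Lat K} (hM : IsInv X M M')
    (h1 : ∀ a b, ∀ m ∈ M a b, ∀ m' ∈ M a b, ∀ k ∈ N a b, m * m' * k ∈ N' a b)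
    (h2 : ∀ a b, ∀ m ∈ M' a b, ∀ m' ∈ M' a b, ∀ k ∈ N' a b, m * m' * k ∈ N a b)
    {L : RawFam A W} (hL : HasDet X N L) : HasDet X N' (mulFam M L) := by
  obtain ⟨ω, ha, hk, hmem, hdet⟩ := hL
  refine ⟨ω, ha, hk, fun a b v hv w hw => ?_, fun π a b k h => ?_⟩
  · have h3 : mulFam M L a b ≤ ((N' a b).baseChange A).comap (ω.flip w) := by
      refine Submodule.span_le.2 ?_
      rintro _ ⟨m, hm, v0, hv0, rfl⟩
      change ω (kact A m v0) w ∈ (N' a b).baseChange A
      have h4 : mulFam M L a b ≤ ((N' a b).baseChange A).comap (ω (kact A m v0)) := by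
        refine Submodule.span_le.2 ?_
        rintro _ ⟨m', hm', w0, hw0, rfl⟩
        change ω (kact A m v0) (kact A m' w0) ∈ (N' a b).baseChange A
        rw [dtw_both ω ha hk]
        exact dtw_kact_mem (fun n hn => h1 a b m hm m' hm' n hn) (hmem a b v0 hv0 w0 hw0)
      exact h4 hw
    exact h3 hv
  · refine hdet π a b k fun v hv w hw => ?_
    obtain ⟨ι, _, f, g, hf, hg, hfg⟩ := hM.tw_dec a b
    have h3 : k * redW π (ω v w) =
        ∑ i, ∑ j, g i * g j * (k * redW π (ω (kact A (f i) v) (kact A (f j) w))) := by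
      calc k * redW π (ω v w) = (∑ i, f i * g i) * (∑ j, f j * g j) * (k * redW π (ω v w)) := by
            rw [hfg, one_mul, one_mul]
        _ = _ := by
            rw [Finset.sum_mul_sum, Finset.sum_mul]
            refine Finset.sum_congr rfl fun i _ => ?_
            rw [Finset.sum_mul]
            refine Finset.sum_congr rfl fun j _ => ?_
            rw [dtw_both ω ha hk, tw_redW_kact, smul_eq_mul]
            ring
    rw [h3]
    refine Submodule.sum_mem _ fun i _ => Submodule.sum_mem _ fun j _ => ?_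
    exact h2 a b _ (hg i) _ (hg j) _ (h _ (tw_mem (hf i) hv) _ (tw_mem (hf j) hw))

/-- Compare `twist` in `Tw.lean`. -/
theorem twistDet {M M' N N' : Lat K} (hM : IsInv X M M') (hE : IsCoh X E)
    (h1 : ∀ a b, ∀ m ∈ M a b, ∀ m' ∈ M a b, ∀ k ∈ N a b, m * m' * k ∈ N' a b)
    (h2 : ∀ a b, ∀ m ∈ M' a b, ∀ m' ∈ M' a b, ∀ k ∈ N' a b, m * m' * k ∈ N a b)
    (R : Type) [CommRing R] [Algebra ℂ R]
    (P : ProRepDet X N' (mulLat M E) R) : Nonempty (ProRepDet X N E R) := by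
  have hEE : mulLat M' (mulLat M E) = E :=
    mulLat_mulLat hM fun a b r hr v hv => tw_smul_mem hE hr hv
  refine ⟨{
    fam := fun A _ _ _ _ f => mulFam M' (P.fam A f)
    isFam := fun A _ _ _ _ f => ?_
    det := fun A _ _ _ _ f => ?_
    inj := fun A _ _ _ _ f g h => ?_
    surj := fun A _ _ _ _ L hL hd => ?_
    nat := fun A A' _ _ _ _ _ _ _ _ α f => ?_ }⟩
  · have h := tw_isFam hM.tw_symm (P.isFam A f)
    rwa [hEE] at h
  · exact hasDet_mulFam hM.tw_symm h2 h1 (P.det A f)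
  · refine P.inj A f g ?_
    have h3 := tw_famIso M h
    rwa [mulFam_mulFam hM.tw_symm (P.isFam A f).smul_mem,
      mulFam_mulFam hM.tw_symm (P.isFam A g).smul_mem] at h3
  · obtain ⟨f, hf⟩ := P.surj A (mulFam M L) (tw_isFam hM hL) (hasDet_mulFam hM h1 h2 hd)
    refine ⟨f, ?_⟩
    have h3 := tw_famIso M' hf
    rwa [mulFam_mulFam hM hL.smul_mem] at h3
  · rw [push_mulFam]
    exact tw_famIso M' (P.nat A A' α f)

end

end Pool.Agent.EllMod
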