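import Pool.Agent.MP_77976d_ag.Fin
import Pool.Agent.MP_77976d_ag.Diso
import Pool.Agent.MP_77976d_ag.Dtw
import Pool.Agent.MP_77976d_ag.Dt1
import Pool.Agent.MP_77976d_ag.Dfo
import Pool.Agent.MP_77976d_ag.Dcv
import Pool.Agent.MP_77976d_ag.Al6

/-! # The completed local ring of the fixed determinant functor is not a domain -/

open scoped TensorProduct
open IsLocalRing

namespace Pool.Agent.EllMod

noncomputable section

variable {F : Type} [Field F] [Algebra ℂ F] (C : Cfg F)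

/-- Insert a zero in the third place. -/
def ins3 {A : Type} [Zero A] (ξ : Fin 6 → A) : Fin 7 → A :=
  Fin.insertNth (α := fun _ => A) 3 0 ξ

theorem ins3_three {A : Type} [Zero A] (ξ : Fin 6 → A) : ins3 ξ 3 = 0 := by
  simp only [ins3, Fin.insertNth_apply_same]

theorem ins3_succAbove {A : Type} [Zero A] (ξ : Fin 6 → A) (k : Fin 6) :
    ins3 ξ (Fin.succAbove 3 k) = ξ k := by
  simp only [ins3, Fin.insertNth_apply_succAbove]

theorem ins3_forall {P : Fin 7 → Prop} (h3 : P 3) (h : ∀ k : Fin 6, P (Fin.succAbove 3 k)) :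
    ∀ k, P k := fun k => Fin.succAboveCases 3 h3 h k

theorem ins3_map {A A' : Type} [Zero A] [Zero A'] (α : A → A') (h0 : α 0 = 0) (ξ : Fin 6 → A) :
    (fun k => α (ins3 ξ k)) = ins3 (fun k => α (ξ k)) := by
  funext k
  revert k
  apply ins3_forall
  · rw [ins3_three, ins3_three, h0]
  · intro k
    rw [ins3_succAbove, ins3_succAbove]

theorem ins3_mem {A : Type} [CommRing A] [IsLocalRing A] {ξ : Fin 6 → A}
    (h : ∀ k, ξ k ∈ maximalIdeal A) : ∀ k, ins3 ξ k ∈ maximalIdeal A := by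
  apply ins3_forall
  · rw [ins3_three]; exact zero_mem _
  · intro k; rw [ins3_succAbove]; exact h k

theorem sum_skip3 {M : Type} [AddCommMonoid M] (f : Fin 8 → M) (h : f 3 = 0) :
    ∑ k, f k = ∑ k : Fin 7, f (Fin.succAbove 3 k) := by
  rw [Fin.sum_univ_succAbove f 3, h, zero_add]

theorem not_domainDet (R : Type) [CommRing R] [IsLocalRing R] [IsNoetherianRing R] [Algebra ℂ R]
    (P : ProRepDet C.surf C.detN C.E R) :
    ¬ IsDomain (AdicCompletion (maximalIdeal R) R) := by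
  intro hdom
  obtain ⟨T, hfam, hdet, hpush, hD6⟩ : ∃ T : ∀ (A : Type) [CommRing A] [Algebra ℂ A]
      [Module.Finite ℂ A] [IsLocalRing A] (ξ : Fin 6 → A), (∀ k, ξ k ∈ maximalIdeal A) →
      RawFam A F,
    (∀ (A : Type) [CommRing A] [Algebra ℂ A] [Module.Finite ℂ A] [IsLocalRing A]
      (ξ : Fin 6 → A) (h : ∀ k, ξ k ∈ maximalIdeal A), IsFam C.surf C.E (T A ξ h)) ∧
    (∀ (A : Type) [CommRing A] [Algebra ℂ A] [Module.Finite ℂ A] [IsLocalRing A]
      (ξ : Fin 6 → A) (h : ∀ k, ξ k ∈ maximalIdeal A), HasDet C.surf C.detN (T A ξ h)) ∧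
    (∀ (A A' : Type) [CommRing A] [Algebra ℂ A] [Module.Finite ℂ A] [IsLocalRing A]
      [CommRing A'] [Algebra ℂ A'] [Module.Finite ℂ A'] [IsLocalRing A'] (α : A →ₐ[ℂ] A')
      (ξ : Fin 6 → A) (h : ∀ k, ξ k ∈ maximalIdeal A) (h' : ∀ k, α (ξ k) ∈ maximalIdeal A'),
      push α (T A ξ h) = T A' (fun k => α (ξ k)) h') ∧
    ∀ h, T (D 6) eps h =
      foFam C.E (fun k : Fin 6 => C.th (Fin.castSucc (Fin.succAbove 3 k))) := by
    refine ⟨fun A _ _ _ _ ξ h => C.T1 (ins3 ξ) (ins3_mem h),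
      fun A _ _ _ _ ξ h => C.T1_isFam A _ _,
      fun A _ _ _ _ ξ h => C.hasDet_T1 A _ _ (ins3_three ξ), ?_, ?_⟩
    · intro A A' _ _ _ _ _ _ _ _ α ξ h h'
      have h1 := ins3_map α (map_zero α) ξ
      have h2 : ∀ k, α (ins3 ξ k) ∈ maximalIdeal A' := by
        intro k
        have := congrFun h1 k
        rw [this]
        exact ins3_mem h' k
      rw [C.T1_push A A' α (ins3 ξ) (ins3_mem h) h2]
      have h3 : ∀ (ξ ξ' : Fin 7 → A') (_ : ξ = ξ') (h : ∀ k, ξ k ∈ maximalIdeal A')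
        (h' : ∀ k, ξ' k ∈ maximalIdeal A'), C.T1 ξ h = C.T1 ξ' h' := by
        rintro ξ _ rfl _ _; rfl
      exact h3 _ _ h1 _ _
    · intro h
      let φ : (Fin 7 → ℂ) →ₗ[ℂ] (Fin 6 → ℂ) := LinearMap.funLeft ℂ ℂ (Fin.succAbove 3)
      have h7 : ∀ k, (eps k : D 7) ∈ maximalIdeal (D 7) := by
        intro k; rw [mem_max_D]; simp
      have h1 : (fun k => Dmap φ (eps k)) = ins3 (eps : Fin 6 → D 6) := by
        funext k
        revert k
        apply ins3_forall
        · rw [ins3_three]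
          ext l
          · simp
          · simp only [Dmap_snd, eps_snd, φ, LinearMap.funLeft_apply, D.snd_zero, Pi.zero_apply]
            rw [Pi.single_apply, if_neg (Fin.succAbove_ne 3 l)]
        · intro k
          rw [ins3_succAbove]
          ext l
          · simp
          · simp only [Dmap_snd, eps_snd, φ, LinearMap.funLeft_apply]
            rw [Pi.single_apply, Pi.single_apply]
            simp only [Fin.succAbove_right_inj]
      have h2 : ∀ k, Dmap φ (eps k) ∈ maximalIdeal (D 6) := by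
        intro k; rw [mem_max_D]; simp
      have h3 := C.T1_push (D 7) (D 6) (Dmap φ) eps h7 h2
      rw [C.T1_first h7, push_foFam] at h3
      have h4 : ∀ (ξ ξ' : Fin 7 → D 6) (_ : ξ = ξ') (h : ∀ k, ξ k ∈ maximalIdeal (D 6))
        (h' : ∀ k, ξ' k ∈ maximalIdeal (D 6)), C.T1 ξ h = C.T1 ξ' h' := by
        rintro ξ _ rfl _ _; rfl
      rw [h4 _ _ h1 h2 (ins3_mem h)] at h3
      show C.T1 (ins3 eps) (ins3_mem h) = _
      rw [← h3]
      refine foFam_congr (K := ↥C.K) C.E ?_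
      funext l a b
      rw [Finset.sum_eq_single (Fin.succAbove 3 l)]
      · simp [φ, LinearMap.funLeft_apply]
      · intro k _ hk
        simp [φ, LinearMap.funLeft_apply, Pi.single_apply, Ne.symm hk]
      · simp
  have hLu : IsFam C.surf C.E (foFam C.E (fun k : Fin 7 => C.th (Fin.succAbove 3 k))) :=
    foFam_isFam C.E_coh _ (fun k => C.th_fo _)
  have hLd : HasDet C.surf C.detN (foFam C.E (fun k : Fin 7 => C.th (Fin.succAbove 3 k))) := by
    have h1 := C.hasDet_fo (n := 7) (fun l k => if k = Fin.succAbove 3 l then 1 else 0)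
      (fun l => by rw [if_neg (Fin.succAbove_ne 3 l).symm])
    have h2 : (fun k : Fin 7 => C.th (Fin.succAbove 3 k)) =
        (fun l a b => ∑ k : Fin 8, (if k = Fin.succAbove 3 l then (1 : ℂ) else 0) • C.th k a b) := by
      funext l a b
      rw [Finset.sum_eq_single (Fin.succAbove 3 l)]
      · simp
      · intro k _ hk
        simp [hk]
      · simp
    rw [h2]
    exact h1
  obtain ⟨U, hU⟩ := P.surj (D 7) _ hLu hLd
  have key : ∀ {m : ℕ} (ψ : (Fin 7 → ℂ) →ₗ[ℂ] (Fin m → ℂ)),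
      FamIso ↥C.K (P.fam (D m) ((Dmap ψ).comp U))
        (foFam C.E (fun l a b => ∑ k, ψ (Pi.single k 1) l • C.th (Fin.succAbove 3 k) a b)) := by
    intro m ψ
    have h1 := P.nat (D 7) (D m) (Dmap ψ) U
    have h2 := famIso_push (Dmap ψ) hU
    rw [push_foFam] at h2
    exact famIso_trans (famIso_symm h1) h2
  have hU1 : ∀ χ : R →ₐ[ℂ] D 1, ∃ ψ : (Fin 7 → ℂ) →ₗ[ℂ] (Fin 1 → ℂ), χ = (Dmap ψ).comp U := by
    intro χ
    obtain ⟨θ, hθ, hL⟩ := exists_fo C.E_coh _ (P.isFam (D 1) χ)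
    obtain ⟨ψ', u, u', h⟩ := C.F2 (θ 0) (hθ 0)
    have hiso : FamIso ↥C.K (P.fam (D 1) χ)
        (foFam C.E (fun (_ : Fin 1) a b => ∑ k, ψ' k • C.th k a b)) := by
      rw [hL, foFam_iso C.E_coh]
      refine ⟨fun _ => -C.opK u u', fun k a b v hv => ?_⟩
      have hk : k = 0 := Subsingleton.elim _ _
      subst hk
      have := neg_mem (h a b v hv)
      convert this using 1
      simp [Cfg.thc, Cfg.opK]
      ring
    have h3 : ψ' 3 = 0 := C.hasDet_conv ψ' ((P.det (D 1) χ).famIso hiso)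
    refine ⟨LinearMap.pi (fun _ => ∑ k, ψ' (Fin.succAbove 3 k) • LinearMap.proj k), ?_⟩
    apply P.inj (D 1)
    refine famIso_trans hiso ?_
    refine famIso_trans ?_ (famIso_symm (key _))
    have h4 : (fun (_ : Fin 1) a b => ∑ k, ψ' k • C.th k a b) = (fun l a b => ∑ k,
        (LinearMap.pi (fun _ => ∑ k, ψ' (Fin.succAbove 3 k) • LinearMap.proj k) :
        (Fin 7 → ℂ) →ₗ[ℂ] (Fin 1 → ℂ)) (Pi.single k 1) l • C.th (Fin.succAbove 3 k) a b) := by
      funext l a b
      rw [sum_skip3 _ (by rw [h3, zero_smul])]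
      simp [Pi.single_apply]
    rw [h4]
    exact famIso_refl _
  have hU2 : ∀ ψ : (Fin 7 → ℂ) →ₗ[ℂ] (Fin 1 → ℂ),
      (Dmap ψ).comp U = (Dmap 0).comp U → ψ = 0 := by
    intro ψ hψ
    have h1 := key ψ
    have h2 := key (0 : (Fin 7 → ℂ) →ₗ[ℂ] (Fin 1 → ℂ))
    rw [hψ] at h1
    have h3 := famIso_trans (famIso_symm h2) h1
    rw [foFam_iso C.E_coh] at h3
    obtain ⟨Θ, hΘ⟩ := h3
    obtain ⟨u, u', hu⟩ := C.exists_op (Θ 0)
    have := C.F1 (Fin.insertNth (α := fun _ => ℂ) 3 0 (fun k => ψ (Pi.single k 1) 0)) u u'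
      (fun a b v hv => by
        have := hΘ 0 a b v hv
        rw [hu] at this
        convert this using 1
        have h5 : C.thc (Fin.insertNth (α := fun _ => ℂ) 3 0 (fun k => ψ (Pi.single k 1) 0)) a b =
            ∑ k : Fin 7, ψ (Pi.single k 1) 0 • C.th (Fin.succAbove 3 k) a b := by
          unfold Cfg.thc
          rw [sum_skip3 _ (by rw [Fin.insertNth_apply_same, zero_smul])]
          refine Finset.sum_congr rfl fun k _ => ?_
          rw [Fin.insertNth_apply_succAbove]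
        rw [h5]
        simp)
    refine LinearMap.pi_ext' (fun k => ?_)
    ext l
    have hl : l = 0 := Subsingleton.elim _ _
    subst hl
    have h6 := congrFun this (Fin.succAbove 3 k)
    rw [Fin.insertNth_apply_succAbove] at h6
    simpa using h6
  have hspec : ∀ (A : Type) [CommRing A] [Algebra ℂ A] [Module.Finite ℂ A] [IsLocalRing A]
      (ξ : Fin 6 → A) (h : ∀ k, ξ k ∈ maximalIdeal A),
      ∃ f : R →ₐ[ℂ] A, FamIso ↥C.K (P.fam A f) (T A ξ h) :=
    fun A _ _ _ _ ξ h => P.surj A _ (hfam A ξ h) (hdet A ξ h)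
  choose f hf using hspec
  have hnat : ∀ (A A' : Type) [CommRing A] [Algebra ℂ A] [Module.Finite ℂ A] [IsLocalRing A]
      [CommRing A'] [Algebra ℂ A'] [Module.Finite ℂ A'] [IsLocalRing A'] (α : A →ₐ[ℂ] A')
      (ξ : Fin 6 → A) (h : ∀ k, ξ k ∈ maximalIdeal A) (h' : ∀ k, α (ξ k) ∈ maximalIdeal A'),
      α.comp (f A ξ h) = f A' (fun k => α (ξ k)) h' := by
    intro A A' _ _ _ _ _ _ _ _ α ξ h h'
    apply P.inj A'
    refine famIso_trans (famIso_symm (P.nat A A' α (f A ξ h))) ?_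
    refine famIso_trans (famIso_push α (hf A ξ h)) ?_
    rw [hpush A A' α ξ h h']
    exact famIso_symm (hf A' _ h')
  have hf6 : ∀ h, f (D 6) eps h =
      (Dmap (LinearMap.funLeft ℂ ℂ (Fin.castSucc : Fin 6 → Fin 7))).comp U := by
    intro h
    apply P.inj (D 6)
    refine famIso_trans (hf (D 6) eps h) ?_
    refine famIso_trans ?_ (famIso_symm (key _))
    rw [hD6]
    have : (fun k : Fin 6 => C.th (Fin.castSucc (Fin.succAbove 3 k))) = (fun l a b => ∑ k,
        (LinearMap.funLeft ℂ ℂ (Fin.castSucc : Fin 6 → Fin 7)) (Pi.single k 1) l •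
          C.th (Fin.succAbove 3 k) a b) := by
      funext l a b
      have hl : (Fin.succAbove 3 l.castSucc : Fin 8) = Fin.castSucc (Fin.succAbove 3 l) := by
        revert l; decide
      simp [LinearMap.funLeft_apply, Pi.single_apply, hl]
    rw [this]
    exact famIso_refl _
  obtain ⟨χ, h1, h2⟩ := AL6 R hdom U hU1 hU2 f hnat hf6
  have heps : ∀ k, (eps k : D 6) ∈ maximalIdeal (D 6) := by
    intro k
    rw [mem_max_D]; simp
  let ψ5 : (Fin 6 → ℂ) →ₗ[ℂ] (Fin 1 → ℂ) := LinearMap.funLeft ℂ ℂ (fun _ : Fin 1 => (5 : Fin 6))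
  have hψ5 : ∀ k, (Dmap ψ5) (eps k) = if k = 5 then eps 0 else 0 := by
    intro k
    ext l
    · split_ifs <;> simp
    · have hl : l = 0 := Subsingleton.elim _ _
      subst hl
      by_cases hk : k = 5
      · subst hk; simp [ψ5, LinearMap.funLeft_apply]
      · simp [ψ5, LinearMap.funLeft_apply, hk, Pi.single_apply, Ne.symm hk]
  have h' : ∀ k : Fin 6, (if k = 5 then eps 0 else 0 : D 1) ∈ maximalIdeal (D 1) := by
    intro k
    split_ifs
    · rw [mem_max_D]; simp
    · exact zero_mem _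
  have hF : IsFam C.surf C.E (P.fam A2 χ) := P.isFam A2 χ
  refine C.F3 (P.fam A2 χ) hF ?_ ?_
  · refine famIso_trans (P.nat A2 (D 1) rho1 χ) ?_
    rw [h1 h']
    refine famIso_trans (hf (D 1) _ h') ?_
    have h'' : ∀ k, (Dmap ψ5) (eps k) ∈ maximalIdeal (D 1) := fun k => by rw [hψ5]; exact h' k
    have := hpush (D 6) (D 1) (Dmap ψ5) eps heps h''
    rw [hD6, push_foFam] at this
    have hT : ∀ (ξ ξ' : Fin 6 → D 1) (_ : ξ = ξ') (h : ∀ k, ξ k ∈ maximalIdeal (D 1))
        (h' : ∀ k, ξ' k ∈ maximalIdeal (D 1)), T (D 1) ξ h = T (D 1) ξ' h' := by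
      rintro ξ _ rfl _ _; rfl
    rw [hT _ _ (funext hψ5) h'' h'] at this
    rw [← this]
    have h3 : (fun l a b => ∑ k, ψ5 (Pi.single k 1) l • C.th (Fin.castSucc (Fin.succAbove 3 k)) a b)
        = (fun _ : Fin 1 => C.th 6) := by
      funext l a b
      simp only [ψ5, LinearMap.funLeft_apply]
      rw [Finset.sum_eq_single 5]
      · have : (Fin.castSucc (Fin.succAbove 3 5) : Fin 8) = 6 := by decide
        simp [this]
      · intro k _ hk
        simp [Pi.single_apply, Ne.symm hk]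
      · simp
    rw [h3]
    exact famIso_refl _
  · refine famIso_trans (P.nat A2 (D 1) rho2 χ) ?_
    rw [h2]
    have := key (LinearMap.funLeft ℂ ℂ (fun _ : Fin 1 => (6 : Fin 7)))
    have h3 : (fun l a b => ∑ k, (LinearMap.funLeft ℂ ℂ (fun _ : Fin 1 => (6 : Fin 7)))
        (Pi.single k 1) l • C.th (Fin.succAbove 3 k) a b) = (fun _ : Fin 1 => C.th 7) := by
      funext l a b
      simp only [LinearMap.funLeft_apply]
      rw [Finset.sum_eq_single 6]
      · have : (Fin.succAbove 3 6 : Fin 8) = 7 := by decide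
        simp [this]
      · intro k _ hk
        simp [Pi.single_apply, Ne.symm hk]
      · simp
    rw [h3] at this
    exact this

theorem detN_twist {M' : Lat ↥C.K} (hM : IsInv C.surf C.M M') :
    (∀ a b, ∀ m ∈ C.M a b, ∀ m' ∈ C.M a b, ∀ k ∈ C.detN a b, m * m' * k ∈ C.surf.O a b) ∧
    (∀ a b, ∀ m ∈ M' a b, ∀ m' ∈ M' a b, ∀ k ∈ C.surf.O a b, m * m' * k ∈ C.detN a b) := by
  constructor
  · intro a b m hm m' hm' k hk
    obtain ⟨r, hr, e⟩ := C.Mb_mul_M a b m m' hm hm'
    have : m * m' * k = r * (C.MbRho b * k) := by rw [e]; ring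
    rw [this]
    have hk' : C.MbRho b * k ∈ C.surf.R a b := hk
    exact (C.surf.R a b).mul_mem hr hk'
  · intro a b m hm m' hm' k hk
    rw [C.mem_detN]
    obtain ⟨r1, hr1, r2, hr2, r3, hr3, e⟩ := C.Mb_rho a b
    have hMM : ∀ n ∈ C.M a b, ∀ n' ∈ M' a b, n * n' ∈ C.surf.R a b := by
      intro n hn n' hn'
      have : n * n' ∈ C.M a b * M' a b := Submodule.mul_mem_mul hn hn'
      rw [hM.mul] at this
      exact this
    have m1 := C.Mb_m1_mem a b
    have m2 := C.Mb_m2_mem a b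
    have h1 := hMM _ m1 _ hm
    have h2 := hMM _ m2 _ hm
    have h1' := hMM _ m1 _ hm'
    have h2' := hMM _ m2 _ hm'
    have hk' : k ∈ C.surf.R a b := hk
    have : C.MbRho b * (m * m' * k) = (r1 * ((C.m1 b * m) * (C.m1 b * m')) +
        r2 * ((C.m1 b * m) * (C.m2 b * m')) + r3 * ((C.m2 b * m) * (C.m2 b * m'))) * k := by
      rw [e]; ring
    rw [this]
    exact mul_mem (add_mem (add_mem (mul_mem hr1 (mul_mem h1 h1')) (mul_mem hr2 (mul_mem h1 h2')))
      (mul_mem hr3 (mul_mem h2 h2'))) hk'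

theorem not_domainDet' (R : Type) [CommRing R] [IsLocalRing R] [IsNoetherianRing R] [Algebra ℂ R]
    (P : ProRepDet C.surf C.surf.O C.E' R) :
    ¬ IsDomain (AdicCompletion (maximalIdeal R) R) := by
  obtain ⟨M', hM'⟩ := C.M_inv
  obtain ⟨h1, h2⟩ := detN_twist C hM'
  obtain ⟨P'⟩ := twistDet hM' C.E_coh h1 h2 R P
  exact not_domainDet C R P'

end

end Pool.Agent.EllMod
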