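import Pool.Agent.MP_77976d_ag.Base

/-! # EX : existence of the configuration -/

open scoped TensorProduct
open IsLocalRing

namespace Pool.Agent.EllMod

noncomputable section

/-- Adjoining a square root. -/
theorem ex_step (E : Type) [Field E] [Algebra ℂ E] (a : E) (ha : ¬ IsSquare a) :
    ∃ (E' : Type) (_ : Field E') (_ : Algebra ℂ E') (i : E →ₐ[ℂ] E') (r : E'),
      r ^ 2 = i a ∧ (∀ z : E', ∃ u v, z = i u + i v * r) ∧
      (∃ τ : E' ≃ₐ[ℂ] E', τ r = -r ∧ ∀ e, τ (i e) = i e) ∧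
      (∀ φ : E ≃ₐ[ℂ] E, φ a = a → ∃ φ' : E' ≃ₐ[ℂ] E', φ' r = r ∧ ∀ e, φ' (i e) = i (φ e)) ∧
      (∀ b, ¬ IsSquare b → ¬ IsSquare (a * b) → ¬ IsSquare (i b)) := by
  have : Fact (∀ r : E, r ^ 2 ≠ a + 0 * r) := ⟨fun r h => ha ⟨r, by rw [← pow_two, h]; ring⟩⟩
  have hi : ∀ e : E, (IsScalarTower.toAlgHom ℂ E (QuadraticAlgebra E a 0)) e = ⟨e, 0⟩ := fun e => rfl
  refine ⟨QuadraticAlgebra E a 0, inferInstance, inferInstance,
    IsScalarTower.toAlgHom ℂ E (QuadraticAlgebra E a 0), ⟨0, 1⟩, ?_, ?_, ?_, ?_, ?_⟩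
  · rw [hi, pow_two]
    ext <;> simp
  · intro z
    refine ⟨z.re, z.im, ?_⟩
    rw [hi, hi]
    ext <;> simp
  · refine ⟨AlgEquiv.ofAlgHom
      { toFun := fun z => ⟨z.re, -z.im⟩
        map_one' := by ext <;> simp [QuadraticAlgebra.re_one, QuadraticAlgebra.im_one]
        map_mul' := fun z w => by ext <;> simp <;> ring
        map_zero' := by ext <;> simp
        map_add' := fun z w => by ext <;> simp <;> ring
        commutes' := fun c => by
          change (⟨algebraMap ℂ E c, -0⟩ : QuadraticAlgebra E a 0) = ⟨algebraMap ℂ E c, 0⟩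
          rw [neg_zero] }
      { toFun := fun z => ⟨z.re, -z.im⟩
        map_one' := by ext <;> simp [QuadraticAlgebra.re_one, QuadraticAlgebra.im_one]
        map_mul' := fun z w => by ext <;> simp <;> ring
        map_zero' := by ext <;> simp
        map_add' := fun z w => by ext <;> simp <;> ring
        commutes' := fun c => by
          change (⟨algebraMap ℂ E c, -0⟩ : QuadraticAlgebra E a 0) = ⟨algebraMap ℂ E c, 0⟩
          rw [neg_zero] } ?_ ?_, ?_, ?_⟩
    · ext z <;> simp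
    · ext z <;> simp
    · change (⟨0, -1⟩ : QuadraticAlgebra E a 0) = -⟨0, 1⟩
      ext <;> simp
    · intro e
      rw [hi]
      change (⟨e, -0⟩ : QuadraticAlgebra E a 0) = ⟨e, 0⟩
      rw [neg_zero]
  · intro φ hφ
    have hφ' : φ.symm a = a := by rw [AlgEquiv.symm_apply_eq, hφ]
    refine ⟨AlgEquiv.ofAlgHom
      { toFun := fun z => ⟨φ z.re, φ z.im⟩
        map_one' := by ext <;> simp [QuadraticAlgebra.re_one, QuadraticAlgebra.im_one]
        map_mul' := fun z w => by ext <;> simp [hφ]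
        map_zero' := by ext <;> simp
        map_add' := fun z w => by ext <;> simp
        commutes' := fun c => by
          change (⟨φ (algebraMap ℂ E c), φ 0⟩ : QuadraticAlgebra E a 0) = ⟨algebraMap ℂ E c, 0⟩
          rw [AlgEquiv.commutes, map_zero] }
      { toFun := fun z => ⟨φ.symm z.re, φ.symm z.im⟩
        map_one' := by ext <;> simp [QuadraticAlgebra.re_one, QuadraticAlgebra.im_one]
        map_mul' := fun z w => by ext <;> simp [hφ']
        map_zero' := by ext <;> simp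
        map_add' := fun z w => by ext <;> simp
        commutes' := fun c => by
          change (⟨φ.symm (algebraMap ℂ E c), φ.symm 0⟩ : QuadraticAlgebra E a 0) =
            ⟨algebraMap ℂ E c, 0⟩
          rw [AlgEquiv.commutes, map_zero] } ?_ ?_, ?_, ?_⟩
    · ext z <;> simp
    · ext z <;> simp
    · change (⟨φ 0, φ 1⟩ : QuadraticAlgebra E a 0) = ⟨0, 1⟩
      rw [map_zero, map_one]
    · intro e
      rw [hi, hi]
      change (⟨φ e, φ 0⟩ : QuadraticAlgebra E a 0) = ⟨φ e, 0⟩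
      rw [map_zero]
  · rintro b hb hab ⟨z, hz⟩
    rw [hi] at hz
    have h1 : b = z.re * z.re + a * z.im * z.im := by
      have := congrArg QuadraticAlgebra.re hz
      simpa using this
    have h2 : 0 = z.re * z.im + z.im * z.re := by
      have := congrArg QuadraticAlgebra.im hz
      simpa using this
    have h3 : z.re * z.im = 0 := by
      have h4 : (2 : E) * (z.re * z.im) = 0 := by linear_combination -h2
      have : CharZero E := charZero_of_injective_algebraMap (algebraMap ℂ E).injective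
      exact (mul_eq_zero.1 h4).resolve_left two_ne_zero
    rcases mul_eq_zero.1 h3 with h | h
    · refine hab ⟨a * z.im, ?_⟩
      rw [h1, h]; ring
    · refine hb ⟨z.re, ?_⟩
      rw [h1, h]; ring

/-- Automorphisms extend to rational functions. -/
theorem ex_ratfunc (E : Type) [Field E] [Algebra ℂ E] (φ : E ≃ₐ[ℂ] E) :
    ∃ φ' : RatFunc E ≃ₐ[ℂ] RatFunc E, φ' RatFunc.X = RatFunc.X ∧
      ∀ e, φ' (RatFunc.C e) = RatFunc.C (φ e) := by
  refine ⟨IsFractionRing.algEquivOfAlgEquiv (Polynomial.mapAlgEquiv φ), ?_, fun e => ?_⟩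
  · rw [← RatFunc.algebraMap_X, IsFractionRing.algEquivOfAlgEquiv_algebraMap]
    simp
  · rw [← RatFunc.algebraMap_C, IsFractionRing.algEquivOfAlgEquiv_algebraMap]
    simp

open Polynomial in
/-- `A ^ 2 + c` is not a square if `c` has smaller degree than `A`. -/
theorem ex_nonsq (E : Type) [Field E] [CharZero E] (A c : E[X]) (hc : c ≠ 0)
    (hd : c.natDegree < A.natDegree) : ¬ IsSquare (algebraMap E[X] (RatFunc E) (A ^ 2 + c)) := by
  rintro ⟨r, hr⟩
  have hint : IsIntegral E[X] r := by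
    refine ⟨X ^ 2 - C (A ^ 2 + c), monic_X_pow_sub_C _ two_ne_zero, ?_⟩
    rw [eval₂_sub, eval₂_pow, eval₂_X, eval₂_C, hr]
    ring
  obtain ⟨B, hB⟩ := (IsIntegrallyClosed.isIntegral_iff (R := E[X]) (K := RatFunc E)).1 hint
  have h1 : A ^ 2 + c = B * B := by
    apply RatFunc.algebraMap_injective E
    rw [hr, map_mul, hB]
  have h2 : (B - A) * (B + A) = c := by linear_combination -h1
  have h3 : B - A ≠ 0 := fun h => hc (by rw [← h2, h, zero_mul])
  have h4 : B + A ≠ 0 := fun h => hc (by rw [← h2, h, mul_zero])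
  have h5 : (B - A).natDegree + (B + A).natDegree = c.natDegree := by
    rw [← h2, natDegree_mul h3 h4]
  have h6 : (B + A) - (B - A) = C 2 * A := by
    rw [show (C 2 : E[X]) = 2 from rfl]; ring
  have h7 : (C 2 * A).natDegree = A.natDegree := natDegree_C_mul two_ne_zero
  have h8 := natDegree_sub_le (B + A) (B - A)
  rw [h6, h7] at h8
  omega

theorem ex_indep {E F : Type} [Field E] [Algebra ℂ E] [Field F] [Algebra ℂ F]
    (i : RatFunc E →ₐ[ℂ] F) (x : E) (hx : Transcendental ℂ x) :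
    AlgebraicIndependent ℂ ![i RatFunc.X, i (RatFunc.C x)] := by
  rw [algebraicIndependent_iff_injective_aeval]
  have h1 : Function.Injective (MvPolynomial.aeval (R := ℂ) ![x]) := by
    rw [← algebraicIndependent_iff_injective_aeval]
    rw [algebraicIndependent_unique_type_iff]
    exact hx
  have h2 : (MvPolynomial.aeval (R := ℂ) ![i RatFunc.X, i (RatFunc.C x)]) =
      (i.comp (IsScalarTower.toAlgHom ℂ (Polynomial E) (RatFunc E))).comp
        ((Polynomial.mapAlgHom (MvPolynomial.aeval (R := ℂ) ![x])).comp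
          (MvPolynomial.finSuccEquiv ℂ 1).toAlgHom) := by
    refine MvPolynomial.algHom_ext fun k => ?_
    fin_cases k
    · simp [MvPolynomial.finSuccEquiv_X_zero]
    · have : (1 : Fin 2) = Fin.succ (0 : Fin 1) := rfl
      simp only [Fin.mk_one, MvPolynomial.aeval_X]
      simp only [AlgHom.comp_apply, AlgEquiv.toAlgHom_apply]
      rw [this, MvPolynomial.finSuccEquiv_X_succ]
      simp
  rw [h2]
  simp only [AlgHom.coe_comp]
  refine (i.toRingHom.injective.comp (RatFunc.algebraMap_injective E)).comp ?_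
  refine Function.Injective.comp ?_ (MvPolynomial.finSuccEquiv ℂ 1).injective
  exact Polynomial.map_injective _ h1

theorem ex_mem {E F : Type} [Field E] [Algebra ℂ E] [Field F] [Algebra ℂ F]
    (j : RatFunc E →ₐ[ℂ] F) (L : IntermediateField ℂ F) (hX : j RatFunc.X ∈ L)
    (hC : ∀ e, j (RatFunc.C e) ∈ L) (z : RatFunc E) : j z ∈ L := by
  have h1 : ∀ p : Polynomial E, j (algebraMap _ _ p) ∈ L := by
    intro p
    induction p using Polynomial.induction_on' with
    | add p q hp hq => rw [map_add, map_add]; exact add_mem hp hq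
    | monomial n a =>
      rw [← Polynomial.C_mul_X_pow_eq_monomial, map_mul, map_mul, map_pow, map_pow,
        RatFunc.algebraMap_C, RatFunc.algebraMap_X]
      exact mul_mem (hC a) (pow_mem hX n)
  induction z using RatFunc.induction_on with
  | f p q hq => rw [map_div₀]; exact div_mem (h1 p) (h1 q)

open Polynomial in
theorem exists_cfg : ∃ (F : Type) (_ : Field F) (_ : Algebra ℂ F), Nonempty (Cfg F) := by
  have h1 : ¬ IsSquare ((RatFunc.X : RatFunc ℂ) ^ 2 + 1) := by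
    have := ex_nonsq ℂ X 1 one_ne_zero (by simp)
    simpa using this
  have h2 : ¬ IsSquare ((RatFunc.X : RatFunc ℂ) ^ 2 - 1) := by
    have := ex_nonsq ℂ X (-1) (by simp) (by simp)
    simpa [sub_eq_add_neg] using this
  have h12 : ¬ IsSquare (((RatFunc.X : RatFunc ℂ) ^ 2 + 1) * ((RatFunc.X : RatFunc ℂ) ^ 2 - 1)) := by
    have := ex_nonsq ℂ (X ^ 2) (-1) (by simp) (by simp)
    have h3 : ((RatFunc.X : RatFunc ℂ) ^ 2 + 1) * ((RatFunc.X : RatFunc ℂ) ^ 2 - 1) =
      algebraMap ℂ[X] (RatFunc ℂ) ((X ^ 2) ^ 2 + -1) := by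
      simp only [map_add, map_pow, map_neg, map_one, RatFunc.algebraMap_X]
      ring
    rw [h3]
    exact this
  obtain ⟨E1, _, _, i1, p1, hp1, g1, ⟨τp, hτp, hτp'⟩, ext1, ns1⟩ := ex_step (RatFunc ℂ) _ h1
  obtain ⟨E2, _, _, i2, q2, hq2, g2, ⟨τq, hτq, hτq'⟩, ext2, -⟩ := ex_step E1 _ (ns1 _ h2 h12)
  have : CharZero E2 := charZero_of_injective_algebraMap (algebraMap ℂ E2).injective
  have hf : ¬ IsSquare ((RatFunc.X : RatFunc E2) ^ 6 - 2 * RatFunc.X ^ 5 + RatFunc.X ^ 4 +
      2 * RatFunc.X ^ 3 + 2 * RatFunc.X ^ 2 + 1) := by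
    have h4 : (X ^ 3 - X ^ 2 + 1 : E2[X]).natDegree = 3 := by compute_degree!
    have h5 : (C 4 * X ^ 2 : E2[X]).natDegree = 2 := natDegree_C_mul_X_pow 2 4 (by norm_num)
    have h6 := ex_nonsq E2 (X ^ 3 - X ^ 2 + 1) (C 4 * X ^ 2) (by
      intro h; rw [h] at h5; simp at h5) (by rw [h4, h5]; norm_num)
    have h7 : ((RatFunc.X : RatFunc E2) ^ 6 - 2 * RatFunc.X ^ 5 + RatFunc.X ^ 4 +
      2 * RatFunc.X ^ 3 + 2 * RatFunc.X ^ 2 + 1) =
      algebraMap E2[X] (RatFunc E2) ((X ^ 3 - X ^ 2 + 1) ^ 2 + C 4 * X ^ 2) := by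
      rw [show (C 4 : E2[X]) = 4 from rfl]
      simp only [map_add, map_mul, map_sub, map_pow, map_one, map_ofNat, RatFunc.algebraMap_X]
      ring
    rw [h7]
    exact h6
  obtain ⟨F, _, _, i4, s, hs, g4, ⟨τs, hτs, hτs'⟩, ext4, -⟩ := ex_step (RatFunc E2) _ hf
  have hfix : ∀ φ : RatFunc E2 ≃ₐ[ℂ] RatFunc E2, φ RatFunc.X = RatFunc.X →
      φ ((RatFunc.X : RatFunc E2) ^ 6 - 2 * RatFunc.X ^ 5 + RatFunc.X ^ 4 +
      2 * RatFunc.X ^ 3 + 2 * RatFunc.X ^ 2 + 1) = (RatFunc.X : RatFunc E2) ^ 6 - 2 * RatFunc.X ^ 5 +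
      RatFunc.X ^ 4 + 2 * RatFunc.X ^ 3 + 2 * RatFunc.X ^ 2 + 1 := by
    intro φ hφ
    simp only [map_add, map_mul, map_sub, map_pow, map_one, map_ofNat, hφ]
  -- the automorphisms
  obtain ⟨τp2, hp2a, hp2b⟩ := ext2 τp (hτp' _)
  obtain ⟨τp3, hp3a, hp3b⟩ := ex_ratfunc E2 τp2
  obtain ⟨τp4, hp4a, hp4b⟩ := ext4 τp3 (hfix _ hp3a)
  obtain ⟨τq3, hq3a, hq3b⟩ := ex_ratfunc E2 τq
  obtain ⟨τq4, hq4a, hq4b⟩ := ext4 τq3 (hfix _ hq3a)
  refine ⟨F, inferInstance, inferInstance, ⟨{
    t := i4 RatFunc.X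
    x := i4 (RatFunc.C (i2 (i1 RatFunc.X)))
    s := s
    p := i4 (RatFunc.C (i2 p1))
    q := i4 (RatFunc.C q2)
    hs := ?_
    hp := ?_
    hq := ?_
    indep := ?_
    gen := ?_
    σs := τs
    σp := τp4
    σq := τq4
    σs_t := hτs' _
    σs_x := hτs' _
    σs_s := hτs
    σs_p := hτs' _
    σs_q := hτs' _
    σp_t := by rw [hp4b, hp3a]
    σp_x := by rw [hp4b, hp3b, hp2b, hτp']
    σp_s := hp4a
    σp_p := by rw [hp4b, hp3b, hp2b, hτp, map_neg, map_neg, map_neg]
    σp_q := by rw [hp4b, hp3b, hp2a]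
    σq_t := by rw [hq4b, hq3a]
    σq_x := by rw [hq4b, hq3b, hτq']
    σq_s := hq4a
    σq_p := by rw [hq4b, hq3b, hτq']
    σq_q := by rw [hq4b, hq3b, hτq, map_neg, map_neg] }⟩⟩
  · rw [hs]
    simp only [map_add, map_mul, map_sub, map_pow, map_one, map_ofNat]
  · rw [← map_pow, ← map_pow, ← map_pow, hp1]
    simp only [map_add, map_pow, map_one]
  · rw [← map_pow, ← map_pow, hq2]
    simp only [map_sub, map_pow, map_one]
  · refine ex_indep i4 _ ?_
    rintro ⟨P, hP0, hP⟩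
    refine RatFunc.transcendental_X (K := ℂ) ⟨P, hP0, ?_⟩
    rw [Polynomial.aeval_algHom_apply, Polynomial.aeval_algHom_apply] at hP
    exact i1.toRingHom.injective (i2.toRingHom.injective (by simpa using hP))
  · refine eq_top_iff.2 fun z _ => ?_
    set L := IntermediateField.adjoin ℂ {i4 RatFunc.X, i4 (RatFunc.C (i2 (i1 RatFunc.X))), s,
      i4 (RatFunc.C (i2 p1)), i4 (RatFunc.C q2)} with hL
    have hsub : ∀ y ∈ ({i4 RatFunc.X, i4 (RatFunc.C (i2 (i1 RatFunc.X))), s,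
      i4 (RatFunc.C (i2 p1)), i4 (RatFunc.C q2)} : Set F), y ∈ L := fun y hy =>
      IntermediateField.subset_adjoin _ _ hy
    have hcC : ∀ c : ℂ, RatFunc.C (algebraMap ℂ E2 c) = algebraMap ℂ (RatFunc E2) c := by
      intro c
      rw [IsScalarTower.algebraMap_apply ℂ E2[X] (RatFunc E2), Polynomial.algebraMap_apply,
        RatFunc.algebraMap_C]
    let cC : E2 →ₐ[ℂ] RatFunc E2 := { (RatFunc.C : E2 →+* RatFunc E2) with commutes' := hcC }
    have hc1 : ∀ e : RatFunc ℂ, i4 (RatFunc.C (i2 (i1 e))) ∈ L := by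
      intro e
      refine ex_mem (((i4.comp cC).comp i2).comp i1) L (hsub _ (Or.inr (Or.inl rfl))) (fun c => ?_) e
      have h9 : (((i4.comp cC).comp i2).comp i1) (RatFunc.C c) = algebraMap ℂ F c := by
        rw [← RatFunc.algebraMap_eq_C]
        exact (((i4.comp cC).comp i2).comp i1).commutes c
      rw [h9]
      exact L.algebraMap_mem c
    have hc2 : ∀ e : E1, i4 (RatFunc.C (i2 e)) ∈ L := by
      intro e
      obtain ⟨u, v, rfl⟩ := g1 e
      rw [map_add, map_mul, map_add, map_mul, map_add, map_mul]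
      exact add_mem (hc1 u) (mul_mem (hc1 v) (hsub _ (by simp)))
    have hc3 : ∀ e : E2, i4 (RatFunc.C e) ∈ L := by
      intro e
      obtain ⟨u, v, rfl⟩ := g2 e
      rw [map_add, map_mul, map_add, map_mul]
      exact add_mem (hc2 u) (mul_mem (hc2 v) (hsub _ (by simp)))
    have hc4 : ∀ e : RatFunc E2, i4 e ∈ L := ex_mem i4 L (hsub _ (by simp)) hc3
    obtain ⟨u, v, rfl⟩ := g4 z
    exact add_mem (hc4 u) (mul_mem (hc4 v) (hsub _ (by simp)))

end

end Pool.Agent.EllMod
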