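import Pool.Agent.MP_77976d_ag.FAux
import Pool.Agent.MP_77976d_ag.Th

/-! # F2 : classification of the first order deformations of `E` -/

open scoped TensorProduct
open IsLocalRing

namespace Pool.Agent.EllMod

noncomputable section

variable {F : Type} [Field F] [Algebra ℂ F] (C : Cfg F)

namespace Cfg

/-- `R₀₀`-linear functionals on `E₀₀` with values in the residue field at the point below `y₀`. -/
theorem E00_functional (φ : F →ₗ[ℂ] ℂ)
    (h : ∀ r ∈ C.B false false, C.ι r = r → ∀ v ∈ C.E00, φ (r * v) = C.ev y0 r * φ v) :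
    ∃ α β γ : ℂ, ∀ v ∈ C.E00, φ v = α * C.der 1 0 v + β * C.der 0 1 v + γ * C.ev y0' v := by
  obtain ⟨e, he, he1, he2⟩ := C.fa_exists_e y0
  obtain ⟨f, hf, hf1, hf2⟩ := C.fa_exists_e y0'
  have hne : y0' ≠ y0 := by decide
  -- the vanishing statement
  have key : ∀ v ∈ C.E00, C.der 1 0 v = 0 → C.der 0 1 v = 0 → C.ev y0' v = 0 → φ v = 0 := by
    intro v hv h1 h2 h3
    obtain ⟨hvB, hv0⟩ := (C.fa_mem_E00 v).mp hv
    -- the part `v e`
    have hve : φ (v * e) = 0 := by
      obtain ⟨a, ha, c, hc, hac⟩ := C.mem_tx (v * e) (mul_mem hvB he) (by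
        intro y
        rw [C.ev_mul _ _ _ hvB he]
        by_cases hy : y = y0
        · rw [hy, hv0, zero_mul]
        · rw [he2 y hy, mul_zero])
      have hta : C.t * a ∈ C.B false false := mul_mem C.t_mem ha
      have hxc : C.x * c ∈ C.B false false := mul_mem C.x_mem hc
      have ha0 : C.ev y0 a = 0 := by
        have h4 := congrArg (C.der 1 0) hac
        rw [map_add, C.der_mul _ _ _ _ hvB he, C.der_mul _ _ _ _ C.t_mem ha,
          C.der_mul _ _ _ _ C.x_mem hc, hv0, h1, C.fa_ev_t, C.fa_ev_x, C.fa_der_t, C.fa_der_x] at h4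
        simpa using h4.symm
      have hc0 : C.ev y0 c = 0 := by
        have h4 := congrArg (C.der 0 1) hac
        rw [map_add, C.der_mul _ _ _ _ hvB he, C.der_mul _ _ _ _ C.t_mem ha,
          C.der_mul _ _ _ _ C.x_mem hc, hv0, h2, C.fa_ev_t, C.fa_ev_x, C.fa_der_t, C.fa_der_x] at h4
        simpa using h4.symm
      rw [hac, map_add, h _ C.t_mem C.ι_t a ((C.fa_mem_E00 a).mpr ⟨ha, ha0⟩),
        h _ C.x_mem C.ι_x c ((C.fa_mem_E00 c).mpr ⟨hc, hc0⟩), C.fa_ev_t, C.fa_ev_x]
      ring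
    -- the part `v (1 - e)`
    have hve' : φ (v * (1 - e)) = 0 := by
      obtain ⟨α, β, hα, hβ, hια, hιβ, hv'⟩ := C.B_decomp false false v hvB
      have hj := C.fa_j_mem
      have h1e : (1 - e) ∈ C.B false false := sub_mem (one_mem _) he
      have evι : C.ev y0' v = C.ev y0 (C.ι v) := by
        rw [C.ev_ι _ _ hvB]; rfl
      have hιv : C.ι v = α - β * C.j false := by
        rw [hv', map_add, map_mul, hια, hιβ, C.ι_j]; ring
      have q1 : C.ev y0 α + C.ev y0 β * C.ev y0 (C.j false) = 0 := by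
        rw [← C.ev_mul _ _ _ hβ hj, ← map_add, ← hv', hv0]
      have q2 : C.ev y0 α - C.ev y0 β * C.ev y0 (C.j false) = 0 := by
        rw [← C.ev_mul _ _ _ hβ hj, ← map_sub, ← hιv, ← evι, h3]
      have qα : C.ev y0 α = 0 := by linear_combination (1 / 2 : ℂ) * q1 + (1 / 2 : ℂ) * q2
      have hjne : C.ev y0 (C.j false) ≠ 0 := by
        intro h0
        have h5 : C.ev y0 (C.j false * (C.j false)⁻¹) = 1 := by
          have hj0 : C.j false ≠ 0 := by
            intro h6
            have h2 : C.ev y0 (C.j false) = 1 + Complex.I := by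
              have e1 : C.j false = C.p + C.q := by simp [j, P, Q]
              rw [e1, map_add, C.ev_eq _ _ C.p_mem, C.ev_eq _ _ C.q_mem, C.lift_p, C.lift_q]
              simp [pt, sg]
            rw [h6, map_zero] at h2
            have := congrArg Complex.re h2
            simp at this
          rw [mul_inv_cancel₀ hj0, C.fa_ev_one]
        rw [C.ev_mul _ _ _ hj C.fa_jinv_mem, h0, zero_mul] at h5
        exact zero_ne_one h5
      have qβ : C.ev y0 β = 0 := by
        have : C.ev y0 β * C.ev y0 (C.j false) = 0 := by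
          linear_combination (1 / 2 : ℂ) * q1 - (1 / 2 : ℂ) * q2
        exact (mul_eq_zero.mp this).resolve_right hjne
      have m1 : (1 - e) ∈ C.E00 := (C.fa_mem_E00 _).mpr ⟨h1e, by
        rw [map_sub, C.fa_ev_one, he1, sub_self]⟩
      have m2 : C.j false * (1 - e) ∈ C.E00 := (C.fa_mem_E00 _).mpr ⟨mul_mem hj h1e, by
        rw [C.ev_mul _ _ _ hj h1e, map_sub, C.fa_ev_one, he1, sub_self, mul_zero]⟩
      have e1 : v * (1 - e) = α * (1 - e) + β * (C.j false * (1 - e)) := by rw [hv']; ring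
      rw [e1, map_add, h α hα hια _ m1, h β hβ hιβ _ m2, qα, qβ]
      ring
    have e3 : v = v * e + v * (1 - e) := by ring
    rw [e3, map_add, hve, hve', add_zero]
  -- dual basis
  have hte : C.t * e ∈ C.E00 := (C.fa_mem_E00 _).mpr ⟨mul_mem C.t_mem he, by
    rw [C.ev_mul _ _ _ C.t_mem he, C.fa_ev_t, zero_mul]⟩
  have hxe : C.x * e ∈ C.E00 := (C.fa_mem_E00 _).mpr ⟨mul_mem C.x_mem he, by
    rw [C.ev_mul _ _ _ C.x_mem he, C.fa_ev_x, zero_mul]⟩
  have hfE : f ∈ C.E00 := (C.fa_mem_E00 _).mpr ⟨hf, hf2 _ hne.symm⟩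
  have d1 : ∀ α β : ℂ, C.der α β (C.t * e) = α := by
    intro α β
    rw [C.der_mul _ _ _ _ C.t_mem he, C.fa_ev_t, C.fa_der_t, he1]; ring
  have d2 : ∀ α β : ℂ, C.der α β (C.x * e) = β := by
    intro α β
    rw [C.der_mul _ _ _ _ C.x_mem he, C.fa_ev_x, C.fa_der_x, he1]; ring
  have d3 : C.ev y0' (C.t * e) = 0 := by
    rw [C.ev_mul _ _ _ C.t_mem he, C.fa_ev_t, zero_mul]
  have d4 : C.ev y0' (C.x * e) = 0 := by
    rw [C.ev_mul _ _ _ C.x_mem he, C.fa_ev_x, zero_mul]
  refine ⟨φ (C.t * e), φ (C.x * e), φ f - C.der 1 0 f * φ (C.t * e) - C.der 0 1 f * φ (C.x * e),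
    fun v hv => ?_⟩
  have h1 := key (v - (C.der 1 0 v - C.ev y0' v * C.der 1 0 f) • (C.t * e) -
    (C.der 0 1 v - C.ev y0' v * C.der 0 1 f) • (C.x * e) - C.ev y0' v • f)
    (sub_mem (sub_mem (sub_mem hv (Submodule.smul_mem _ _ hte)) (Submodule.smul_mem _ _ hxe))
      (Submodule.smul_mem _ _ hfE))
    (by simp only [map_sub, map_smul, d1, d2, smul_eq_mul]; ring)
    (by simp only [map_sub, map_smul, d1, d2, smul_eq_mul]; ring)
    (by simp only [map_sub, map_smul, d3, d4, hf1, smul_eq_mul]; ring)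
  simp only [map_sub, map_smul, smul_eq_mul] at h1
  linear_combination h1

theorem F2aux_glue_t {θ : Bool → Bool → (F →ₗ[ℂ] F)} (h : FOData C.surf C.E θ) (a a' b : Bool)
    (w w' : F) (hw : ∀ v ∈ C.E a' b, θ a' b v - C.op w w' v ∈ C.E a' b) :
    ∀ v ∈ C.E a b, θ a b v - C.op w w' v ∈ C.BT b := by
  intro v hv
  obtain ⟨n, h1, h2⟩ := h.glue_t a a' b v hv
  have e0 : ((coord C.surf.t a' : ↥C.K) ^ n) • v = coord C.t a' ^ n * v := by
    show (((coord C.surf.t a' : ↥C.K) ^ n : ↥C.K) : F) * v = _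
    rw [IntermediateField.coe_pow, C.fa_coord_t]
  have e1 : ((coord C.surf.t a' : ↥C.K) ^ n) • θ a b v = coord C.t a' ^ n * θ a b v := by
    show (((coord C.surf.t a' : ↥C.K) ^ n : ↥C.K) : F) * _ = _
    rw [IntermediateField.coe_pow, C.fa_coord_t]
  rw [e0] at h1 h2
  rw [e1] at h2
  have h3 := add_mem h2 (hw _ h1)
  have hι : C.ι (coord C.t a' ^ n) = coord C.t a' ^ n := by rw [map_pow, C.fa_ι_coord_t]
  have e2 : coord C.t a' ^ n * θ a b v - θ a' b (coord C.t a' ^ n * v) +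
      (θ a' b (coord C.t a' ^ n * v) - C.op w w' (coord C.t a' ^ n * v)) =
      coord C.t a' ^ n * (θ a b v - C.op w w' v) := by
    rw [C.fa_op_mul _ _ _ _ hι]; ring
  rw [e2] at h3
  have h4 := mul_mem (C.fa_coord_t_BT a' b n) (C.fa_E_le_BT a' b _ h3)
  have hne := C.fa_coord_t_ne a'
  have e3 : (coord C.t a')⁻¹ ^ n * (coord C.t a' ^ n * (θ a b v - C.op w w' v)) =
      θ a b v - C.op w w' v := by
    rw [← mul_assoc, ← mul_pow, inv_mul_cancel₀ hne, one_pow, one_mul]
  rwa [e3] at h4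

theorem F2aux_glue_x {θ : Bool → Bool → (F →ₗ[ℂ] F)} (h : FOData C.surf C.E θ) (a b b' : Bool)
    (w w' : F) (hw : ∀ v ∈ C.E a b', θ a b' v - C.op w w' v ∈ C.E a b') :
    ∀ v ∈ C.E a b, θ a b v - C.op w w' v ∈ C.VX a := by
  intro v hv
  obtain ⟨n, h1, h2⟩ := h.glue_x a b b' v hv
  have e0 : ((coord C.surf.x b' : ↥C.K) ^ n) • v = coord C.x b' ^ n * v := by
    show (((coord C.surf.x b' : ↥C.K) ^ n : ↥C.K) : F) * v = _
    rw [IntermediateField.coe_pow, C.fa_coord_x]
  have e1 : ((coord C.surf.x b' : ↥C.K) ^ n) • θ a b v = coord C.x b' ^ n * θ a b v := by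
    show (((coord C.surf.x b' : ↥C.K) ^ n : ↥C.K) : F) * _ = _
    rw [IntermediateField.coe_pow, C.fa_coord_x]
  rw [e0] at h1 h2
  rw [e1] at h2
  have h3 := add_mem h2 (hw _ h1)
  have hι : C.ι (coord C.x b' ^ n) = coord C.x b' ^ n := by rw [map_pow, C.fa_ι_coord_x]
  have e2 : coord C.x b' ^ n * θ a b v - θ a b' (coord C.x b' ^ n * v) +
      (θ a b' (coord C.x b' ^ n * v) - C.op w w' (coord C.x b' ^ n * v)) =
      coord C.x b' ^ n * (θ a b v - C.op w w' v) := by
    rw [C.fa_op_mul _ _ _ _ hι]; ring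
  rw [e2] at h3
  have h4 := C.fa_VX_mul a _ _ (C.fa_coord_x_OFs b' n) (C.fa_E_le_VX a b' _ h3)
  have hne := C.fa_coord_x_ne b'
  have e3 : (coord C.x b')⁻¹ ^ n * (coord C.x b' ^ n * (θ a b v - C.op w w' v)) =
      θ a b v - C.op w w' v := by
    rw [← mul_assoc, ← mul_pow, inv_mul_cancel₀ hne, one_pow, one_mul]
  rwa [e3] at h4

/-- The data describing `θ` by operators on the charts different from `(0, 0)`. -/
structure F2Op (θ : Bool → Bool → (F →ₗ[ℂ] F)) (w10 w10' w01 w01' w11 w11' : F) : Prop where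
  h10 : ∀ v ∈ C.V true false, θ true false v - C.op w10 w10' v ∈ C.V true false
  h01 : ∀ v ∈ C.V false true, θ false true v - C.op w01 w01' v ∈ C.V false true
  h11 : ∀ v ∈ C.V true true, θ true true v - C.op w11 w11' v ∈ C.V true true

/-- The differences of the operators. -/
theorem F2aux_diff {θ : Bool → Bool → (F →ₗ[ℂ] F)} (h : FOData C.surf C.E θ)
    {w10 w10' w01 w01' w11 w11' : F} (H : C.F2Op θ w10 w10' w01 w01' w11 w11') :
    (w01 - w11 ∈ C.BT true ∧ w01' - w11' ∈ C.BT true) ∧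
    (w10 - w11 ∈ sm (C.OC true) * sm C.OFs ∧ w10' - w11' ∈ C.N2 true * sm C.OFs) ∧
    (∀ v ∈ C.E00, θ false false v - C.op w10 w10' v ∈ C.BT false) ∧
    (∀ v ∈ C.E00, θ false false v - C.op w01 w01' v ∈ C.BX) := by
  refine ⟨?_, ?_, ?_, ?_⟩
  · rw [← C.op_BT false true]
    intro v hv
    have h1 := C.F2aux_glue_t h false true true w11 w11' H.h11 v hv
    have h2 := C.V_le_BT false true _ (H.h01 v hv)
    have := sub_mem h1 h2
    convert this using 1
    simp; ring
  · rw [← C.op_VX true false]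
    intro v hv
    have h1 := C.F2aux_glue_x h true false true w11 w11' H.h11 v hv
    have h2 := C.V_le_VX true false (H.h10 v hv)
    have := sub_mem h1 h2
    convert this using 1
    simp; ring
  · exact C.F2aux_glue_t h false true false w10 w10' H.h10
  · intro v hv
    have := C.F2aux_glue_x h false false true w01 w01' H.h01 v hv
    rw [C.fa_VX_false] at this
    exact this

theorem F2aux_BS {w10 w01 w11 : F} (h1 : w01 - w11 ∈ C.BT true)
    (h2 : w10 - w11 ∈ C.BS) : w10 - w01 ∈ C.BS := by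
  have := sub_mem h2 (C.fa_BT_le_BS true h1)
  convert this using 1
  ring

/-- The class of a first order deformation. -/
theorem F2aux_class {θ : Bool → Bool → (F →ₗ[ℂ] F)} (h : FOData C.surf C.E θ)
    {w10 w10' w01 w01' w11 w11' : F} (H : C.F2Op θ w10 w10' w01 w01' w11 w11') :
    w10 - w01 ∈ (sm (C.BT false) ⊔ sm C.BX : Submodule ℂ F) ∧
    ∃ b' ∈ C.B false false, (∀ y, y ≠ y0' → C.ev y b' = 0) ∧
      w10' - w01' - b' * (C.t⁻¹ * C.x⁻¹) ∈ (sm (C.BT false) ⊔ sm C.BX : Submodule ℂ F) := by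
  obtain ⟨⟨g1, g1'⟩, ⟨g2, g2'⟩, g3, g4⟩ := C.F2aux_diff h H
  have hBS1 : (sm (C.OC true) * sm C.OFs : Submodule ℂ F) ≤ sm C.BS := by
    rw [C.fa_BS_eq]; exact fa_mul_le_l (C.OC_le_OCs true)
  have hBS2 : (C.N2 true * sm C.OFs : Submodule ℂ F) ≤ sm C.BS := by
    rw [C.fa_BS_eq]; exact fa_mul_le_l (C.N2_le true)
  have hdiff : ∀ v ∈ C.E00, C.op (w10 - w01) (w10' - w01') v ∈
      (sm (C.BT false) ⊔ sm C.BX : Submodule ℂ F) := by
    intro v hv
    have h1 : θ false false v - C.op w10 w10' v ∈ (sm (C.BT false) ⊔ sm C.BX : Submodule ℂ F) :=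
      Submodule.mem_sup_left (g3 v hv)
    have h2 : θ false false v - C.op w01 w01' v ∈ (sm (C.BT false) ⊔ sm C.BX : Submodule ℂ F) :=
      Submodule.mem_sup_right (g4 v hv)
    have := sub_mem h2 h1
    convert this using 1
    simp; ring
  obtain ⟨b, hb, b', hb', hbu, hbu'⟩ := C.fa_classes (w10 - w01) (w10' - w01')
    (C.F2aux_BS g1 (hBS1 g2)) (C.F2aux_BS g1' (hBS2 g2')) (by
      intro w hw
      constructor
      · exact hdiff _ ((C.fa_mem_E00 _).mpr ⟨mul_mem C.t_mem hw, by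
          rw [C.ev_mul _ _ _ C.t_mem hw, C.fa_ev_t, zero_mul]⟩)
      · exact hdiff _ ((C.fa_mem_E00 _).mpr ⟨mul_mem C.x_mem hw, by
          rw [C.ev_mul _ _ _ C.x_mem hw, C.fa_ev_x, zero_mul]⟩))
  obtain ⟨hv1, hv2⟩ := C.fa_points b b' hb hb' (by
    intro v hv
    have hvB := ((C.fa_mem_E00 v).mp hv).1
    have h1 := hdiff v hv
    have h2 := C.fa_sum_mul v _ hvB hbu
    have h3 := C.fa_sum_mul (C.ι v) _ (C.ι_B _ _ v hvB) hbu'
    have := sub_mem h1 (add_mem h2 h3)
    convert this using 1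
    simp; ring)
  -- exact operators
  obtain ⟨α, hα, β, hβ, hαβ⟩ := Submodule.mem_sup.mp hbu
  obtain ⟨α', hα', β', hβ', hαβ'⟩ := Submodule.mem_sup.mp hbu'
  obtain ⟨e, he, he1, he2⟩ := C.fa_exists_e y0
  have hte : C.t * e ∈ C.E00 := (C.fa_mem_E00 _).mpr ⟨mul_mem C.t_mem he, by
    rw [C.ev_mul _ _ _ C.t_mem he, C.fa_ev_t, zero_mul]⟩
  have hxe : C.x * e ∈ C.E00 := (C.fa_mem_E00 _).mpr ⟨mul_mem C.x_mem he, by
    rw [C.ev_mul _ _ _ C.x_mem he, C.fa_ev_x, zero_mul]⟩
  have k1 : ∀ v ∈ C.E00, θ false false v - C.op (w10 - α) (w10' - α') v ∈ C.BT false := by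
    intro v hv
    have hvB := ((C.fa_mem_E00 v).mp hv).1
    have h1 := g3 v hv
    have h2 : α * v + α' * C.ι v ∈ C.BT false :=
      add_mem (mul_mem hα (C.fa_B_le_BT false hvB))
        (mul_mem hα' (C.fa_B_le_BT false (C.ι_B _ _ v hvB)))
    have := add_mem h1 h2
    convert this using 1
    simp; ring
  have k2 : ∀ v ∈ C.E00, θ false false v - C.op (w01 + β) (w01' + β') v ∈ C.BX := by
    intro v hv
    have hvB := ((C.fa_mem_E00 v).mp hv).1
    have h1 := g4 v hv
    have h2 : β * v + β' * C.ι v ∈ C.BX :=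
      add_mem (mul_mem hβ (C.fa_B_le_BX hvB))
        (mul_mem hβ' (C.fa_B_le_BX (C.ι_B _ _ v hvB)))
    have := sub_mem h1 h2
    convert this using 1
    simp; ring
  obtain ⟨_, K⟩ := C.fa_koszul (w10 - α) (w10' - α') (w01 + β) (w01' + β') b b' e
    (θ false false (C.t * e)) (θ false false (C.x * e)) hb hb' he
    (by linear_combination -hαβ) (by linear_combination -hαβ')
    (k1 _ hte) (k2 _ hte) (k1 _ hxe) (k2 _ hxe)
  have hE : C.x * θ false false (C.t * e) - C.t * θ false false (C.x * e) ∈ C.E00 := by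
    have h1 := h.lin false false C.xK ((C.mem_R false false _).mpr C.x_mem) _ hte
    have h2 := h.lin false false C.tK ((C.mem_R false false _).mpr C.t_mem) _ hxe
    have h3 := sub_mem h2 h1
    have e1 : C.xK • (C.t * e) = C.x * (C.t * e) := rfl
    have e2 : C.tK • (C.x * e) = C.t * (C.x * e) := rfl
    have e3 : C.xK • θ false false (C.t * e) = C.x * θ false false (C.t * e) := rfl
    have e4 : C.tK • θ false false (C.x * e) = C.t * θ false false (C.x * e) := rfl
    rw [e1, e2, e3, e4] at h3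
    have e5 : C.t * (C.x * e) = C.x * (C.t * e) := by ring
    rw [e5] at h3
    have e6 : C.x * θ false false (C.t * e) - C.t * θ false false (C.x * e) =
        θ false false (C.x * (C.t * e)) - C.t * θ false false (C.x * e) -
          (θ false false (C.x * (C.t * e)) - C.x * θ false false (C.t * e)) := by ring
    rw [e6]
    exact h3
  have hb0 : C.ev y0 b = 0 := by
    have h1 := K y0
    rw [((C.fa_mem_E00 _).mp hE).2, he1, he2 _ (by decide)] at h1
    linear_combination -h1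
  have hball : ∀ y, C.ev y b = 0 := by
    intro y
    by_cases hy : y = y0
    · rw [hy]; exact hb0
    · exact hv1 y hy
  obtain ⟨c, hc, d, hd, hcd⟩ := C.mem_tx b hb hball
  refine ⟨?_, b', hb', hv2, hbu'⟩
  have h5 : b * (C.t⁻¹ * C.x⁻¹) ∈ (sm (C.BT false) ⊔ sm C.BX : Submodule ℂ F) := by
    have ht := C.fa_t_ne
    have hx := C.fa_x_ne
    have e1 : b * (C.t⁻¹ * C.x⁻¹) = d * C.t⁻¹ + c * C.x⁻¹ := by
      rw [hcd]; field_simp; ring
    rw [e1]
    exact Submodule.add_mem_sup (S := sm (C.BT false)) (T := sm C.BX)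
      ((C.BT false).mul_mem (C.fa_B_le_BT false hd) (C.fa_tinv_BT false))
      (C.BX.mul_mem (C.fa_B_le_BX hc) C.fa_xinv_BX)
  have := add_mem hbu h5
  convert this using 1
  ring

/-- The case without class. -/
theorem F2aux_main {θ : Bool → Bool → (F →ₗ[ℂ] F)} (h : FOData C.surf C.E θ)
    {w10 w10' w01 w01' w11 w11' : F} (H : C.F2Op θ w10 w10' w01 w01' w11 w11')
    (hu : w10 - w01 ∈ (sm (C.BT false) ⊔ sm C.BX : Submodule ℂ F))
    (hu' : w10' - w01' ∈ (sm (C.BT false) ⊔ sm C.BX : Submodule ℂ F)) :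
    ∃ (ψ : Fin 8 → ℂ) (u u' : F), ∀ a b, ∀ v ∈ C.E a b,
      θ a b v - C.thc ψ a b v - C.op u u' v ∈ C.E a b := by
  obtain ⟨⟨g1, g1'⟩, ⟨g2, g2'⟩, g3, g4⟩ := C.F2aux_diff h H
  obtain ⟨α, hα, β, hβ, hαβ⟩ := Submodule.mem_sup.mp hu
  obtain ⟨α', hα', β', hβ', hαβ'⟩ := Submodule.mem_sup.mp hu'
  -- Künneth for the first component
  obtain ⟨c, hh, hhm, k, hk, c00, c10, c01, c11⟩ := C.kunneth (sm C.OCs) (sm (C.OC false))
    (sm (C.OC true)) (Submodule.span ℂ {C.s * C.t⁻¹, C.s * C.t⁻¹ ^ 2}) (sm C.OFs)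
    (sm (C.OF false)) (sm (C.OF true)) (Submodule.span ℂ {C.Y * C.x⁻¹})
    (fun y hy => C.OCs_le y hy) (fun y hy => C.OFs_le y hy) C.OCs_eq C.OFs_eq
    (by
      rw [Submodule.disjoint_def]
      intro y hy1 hy2
      obtain ⟨a, b, rfl⟩ := Submodule.mem_span_pair.mp hy2
      obtain ⟨ha, hb⟩ := C.OC_indep a b hy1
      rw [ha, hb]; simp)
    (by
      rw [Submodule.disjoint_def]
      intro y hy1 hy2
      obtain ⟨a, rfl⟩ := Submodule.mem_span_singleton.mp hy2
      by_cases ha : a = 0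
      · rw [ha, zero_smul]
      · exfalso
        have := Submodule.smul_mem _ a⁻¹ hy1
        rw [smul_smul, inv_mul_cancel₀ ha, one_smul] at this
        exact C.OF_indep this)
    (w10 - α) w10 w01 w11
    (by rw [← C.fa_BT_eq]; have e : w10 - (w10 - α) = α := by ring
        rw [e]; exact hα)
    (by rw [← C.fa_BT_eq]; have := neg_mem g1; rwa [neg_sub] at this)
    (by rw [← C.fa_BX_eq]; have e : w01 - (w10 - α) = -β := by linear_combination hαβ
        rw [e]; exact neg_mem (S := Submodule ℂ F) hβ)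
    (by have := neg_mem (S := Submodule ℂ F) g2; rwa [neg_sub] at this)
  -- Künneth for the second component
  obtain ⟨c', hh', hhm', k', hk', c00', c10', c01', c11'⟩ := C.kunneth (sm C.OCs) (C.N2 false)
    (C.N2 true) (Submodule.span ℂ {C.t⁻¹}) (sm C.OFs)
    (sm (C.OF false)) (sm (C.OF true)) (Submodule.span ℂ {C.Y * C.x⁻¹})
    (fun y hy => C.OCs_le y hy) (fun y hy => C.OFs_le y hy) C.N2_eq C.OFs_eq
    (by
      rw [Submodule.disjoint_def]
      intro y hy1 hy2
      obtain ⟨a, rfl⟩ := Submodule.mem_span_singleton.mp hy2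
      by_cases ha : a = 0
      · rw [ha, zero_smul]
      · exfalso
        have := Submodule.smul_mem _ a⁻¹ hy1
        rw [smul_smul, inv_mul_cancel₀ ha, one_smul] at this
        exact C.N2_indep this)
    (by
      rw [Submodule.disjoint_def]
      intro y hy1 hy2
      obtain ⟨a, rfl⟩ := Submodule.mem_span_singleton.mp hy2
      by_cases ha : a = 0
      · rw [ha, zero_smul]
      · exfalso
        have := Submodule.smul_mem _ a⁻¹ hy1
        rw [smul_smul, inv_mul_cancel₀ ha, one_smul] at this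
        exact C.OF_indep this)
    (w10' - α') w10' w01' w11'
    (by rw [← C.fa_BT_eq]; have e : w10' - (w10' - α') = α' := by ring
        rw [e]; exact hα')
    (by rw [← C.fa_BT_eq]; have := neg_mem g1'; rwa [neg_sub] at this)
    (by rw [C.fa_N2_false, ← C.fa_BX_eq]
        have e : w01' - (w10' - α') = -β' := by linear_combination hαβ'
        rw [e]; exact neg_mem (S := Submodule ℂ F) hβ')
    (by have := neg_mem (S := Submodule ℂ F) g2'; rwa [neg_sub] at this)
  have eOF : (sm (C.OF false) ⊓ sm (C.OF true) : Submodule ℂ F) = 1 := by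
    have : (sm (C.OF false) ⊓ sm (C.OF true) : Submodule ℂ F) = sm (C.OF false ⊓ C.OF true) := rfl
    rw [this, C.OF_inf]
    exact Algebra.toSubmodule_bot
  have eOC : (sm (C.OC false) ⊓ sm (C.OC true) : Submodule ℂ F) = 1 := by
    have : (sm (C.OC false) ⊓ sm (C.OC true) : Submodule ℂ F) = sm (C.OC false ⊓ C.OC true) := rfl
    rw [this, C.OC_inf]
    exact Algebra.toSubmodule_bot
  rw [eOF, mul_one] at hhm hhm'
  rw [eOC, one_mul] at hk
  rw [C.N2_inf, Submodule.bot_mul, Submodule.mem_bot] at hk'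
  subst hk'
  obtain ⟨ψ0, ψ1, rfl⟩ := Submodule.mem_span_pair.mp hhm
  obtain ⟨ψ2, rfl⟩ := Submodule.mem_span_singleton.mp hhm'
  obtain ⟨ψ3, rfl⟩ := Submodule.mem_span_singleton.mp hk
  -- the chart (0, 0)
  rw [C.fa_N2_false, ← C.fa_B_eq] at c00'
  rw [← C.fa_B_eq] at c00
  have m00 : ∀ v ∈ C.E00, θ false false v - C.op c c' v ∈ C.B false false := by
    intro v hv
    have hvB := ((C.fa_mem_E00 v).mp hv).1
    have hιB := C.ι_B _ _ v hvB
    have h1 : θ false false v - C.op (w10 - α) (w10' - α') v ∈ C.B false false := by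
      rw [← C.BT_inf_BX]
      constructor
      · have h2 : α * v + α' * C.ι v ∈ C.BT false :=
          add_mem (mul_mem hα (C.fa_B_le_BT false hvB))
            (mul_mem hα' (C.fa_B_le_BT false hιB))
        have := add_mem (g3 v hv) h2
        have e : θ false false v - C.op (w10 - α) (w10' - α') v =
            θ false false v - C.op w10 w10' v + (α * v + α' * C.ι v) := by
          simp only [op_apply]; ring
        rw [e]; exact this
      · have h2 : β * v + β' * C.ι v ∈ C.BX :=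
          add_mem (mul_mem hβ (C.fa_B_le_BX hvB))
            (mul_mem hβ' (C.fa_B_le_BX hιB))
        have := sub_mem (g4 v hv) h2
        have e : θ false false v - C.op (w10 - α) (w10' - α') v =
            θ false false v - C.op w01 w01' v - (β * v + β' * C.ι v) := by
          simp only [op_apply]
          linear_combination v * hαβ + C.ι v * hαβ'
        rw [e]; exact this
    have h2 : (w10 - α - c) * v + (w10' - α' - c') * C.ι v ∈ C.B false false :=
      add_mem (mul_mem c00 hvB) (mul_mem c00' hιB)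
    have := add_mem h1 h2
    convert this using 1
    simp only [op_apply]; ring
  obtain ⟨a4, a5, a6, h456⟩ := C.E00_functional (C.ev y0 ∘ₗ (θ false false - C.op c c')) (by
    intro r hr hι v hv
    have hrv : r * v ∈ C.E00 := by
      rw [C.fa_mem_E00] at hv ⊢
      refine ⟨mul_mem hr hv.1, ?_⟩
      rw [C.ev_mul _ _ _ hr hv.1, hv.2, mul_zero]
    have h1 := h.lin false false ⟨r, hι⟩ ((C.mem_R false false _).mpr hr) v hv
    have e1 : ((⟨r, hι⟩ : ↥C.K) • v) = r * v := rfl
    have e2 : ((⟨r, hι⟩ : ↥C.K) • θ false false v) = r * θ false false v := rfl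
    rw [e1, e2] at h1
    have h2 := ((C.fa_mem_E00 _).mp h1).2
    have e3 : θ false false (r * v) - C.op c c' (r * v) =
        (θ false false (r * v) - r * θ false false v) + r * (θ false false v - C.op c c' v) := by
      rw [C.fa_op_mul _ _ _ _ hι]; ring
    simp only [LinearMap.comp_apply, LinearMap.sub_apply]
    rw [e3, map_add, h2, zero_add, C.ev_mul _ _ _ hr (m00 v hv)])
  refine ⟨![ψ0, ψ1, ψ2, ψ3, -a4, -a5, a6, 0], c, c', ?_⟩
  have e10 : C.thc ![ψ0, ψ1, ψ2, ψ3, -a4, -a5, a6, 0] true false =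
      C.op (ψ0 • (C.s * C.t⁻¹) + ψ1 • (C.s * C.t⁻¹ ^ 2)) (ψ2 • C.t⁻¹) := by
    ext v
    simp [thc, Fin.sum_univ_eight, th, Algebra.smul_def]
    ring
  have e01 : C.thc ![ψ0, ψ1, ψ2, ψ3, -a4, -a5, a6, 0] false true =
      C.op (ψ3 • (C.Y * C.x⁻¹)) 0 := by
    ext v
    simp [thc, Fin.sum_univ_eight, th, Algebra.smul_def]
    ring
  have e11 : C.thc ![ψ0, ψ1, ψ2, ψ3, -a4, -a5, a6, 0] true true =
      C.op (ψ0 • (C.s * C.t⁻¹) + ψ1 • (C.s * C.t⁻¹ ^ 2) + ψ3 • (C.Y * C.x⁻¹)) (ψ2 • C.t⁻¹) := by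
    ext v
    simp [thc, Fin.sum_univ_eight, th, Algebra.smul_def]
    ring
  have e00 : ∀ v, C.thc ![ψ0, ψ1, ψ2, ψ3, -a4, -a5, a6, 0] false false v =
      algebraMap ℂ F (a4 * C.der 1 0 v + a5 * C.der 0 1 v + a6 * C.ev y0' v) := by
    intro v
    simp [thc, Fin.sum_univ_eight, th, Algebra.smul_def]
  intro a b v hv
  cases a <;> cases b
  · -- (0, 0)
    have hv' : v ∈ C.E00 := hv
    show _ ∈ C.E00
    rw [C.fa_mem_E00, e00]
    have hB : θ false false v - algebraMap ℂ F (a4 * C.der 1 0 v + a5 * C.der 0 1 v +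
        a6 * C.ev y0' v) - C.op c c' v = (θ false false v - C.op c c' v) -
        algebraMap ℂ F (a4 * C.der 1 0 v + a5 * C.der 0 1 v + a6 * C.ev y0' v) := by ring
    rw [hB]
    refine ⟨sub_mem (m00 v hv') ((C.B false false).algebraMap_mem _), ?_⟩
    rw [map_sub, Algebra.algebraMap_eq_smul_one, map_smul, C.fa_ev_one]
    have := h456 v hv'
    simp only [LinearMap.comp_apply, LinearMap.sub_apply] at this
    rw [this]; simp
  · -- (0, 1)
    have hv' : v ∈ C.V false true := hv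
    show _ ∈ C.V false true
    have h1 := H.h01 v hv'
    have h2 := (C.op_V false true (w01 - c - ψ3 • (C.Y * C.x⁻¹)) (w01' - c')).mpr (by
      refine ⟨?_, ?_⟩
      · have : w01 - c - ψ3 • (C.Y * C.x⁻¹) ∈ (sm (C.B false true) : Submodule ℂ F) := by
          rw [C.fa_B_eq]; exact c01
        exact this
      · simpa using c01') v hv'
    have := add_mem h1 h2
    rw [e01]
    convert this using 1
    simp only [op_apply]; ring
  · -- (1, 0)
    have hv' : v ∈ C.V true false := hv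
    show _ ∈ C.V true false
    have h1 := H.h10 v hv'
    have h2 := (C.op_V true false (w10 - c - (ψ0 • (C.s * C.t⁻¹) + ψ1 • (C.s * C.t⁻¹ ^ 2)))
      (w10' - c' - ψ2 • C.t⁻¹)).mpr (by
      refine ⟨?_, c10'⟩
      have : w10 - c - (ψ0 • (C.s * C.t⁻¹) + ψ1 • (C.s * C.t⁻¹ ^ 2)) ∈
          (sm (C.B true false) : Submodule ℂ F) := by
        rw [C.fa_B_eq]; exact c10
      exact this) v hv'
    have := add_mem h1 h2
    rw [e10]
    convert this using 1
    simp only [op_apply]; ring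
  · -- (1, 1)
    have hv' : v ∈ C.V true true := hv
    show _ ∈ C.V true true
    have h1 := H.h11 v hv'
    have h2 := (C.op_V true true (w11 - c - (ψ0 • (C.s * C.t⁻¹) + ψ1 • (C.s * C.t⁻¹ ^ 2)) -
      ψ3 • (C.Y * C.x⁻¹)) (w11' - c' - ψ2 • C.t⁻¹)).mpr (by
      refine ⟨?_, ?_⟩
      · have : w11 - c - (ψ0 • (C.s * C.t⁻¹) + ψ1 • (C.s * C.t⁻¹ ^ 2)) - ψ3 • (C.Y * C.x⁻¹) ∈
            (sm (C.B true true) : Submodule ℂ F) := by
          rw [C.fa_B_eq]; exact c11
        exact this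
      · simpa using c11') v hv'
    have := add_mem h1 h2
    rw [e11]
    convert this using 1
    simp only [op_apply]; ring

theorem F2aux_smul (a b : Bool) (r : ↥C.K) (hr : r ∈ C.surf.R a b) (v : F) (hv : v ∈ C.E a b) :
    r • v ∈ C.E a b := by
  obtain ⟨S, hS⟩ := C.E_coh.fg a b
  have h1 : v ∈ (Submodule.span (C.surf.R a b) (S : Set F) : Set F) := by rw [← hS]; exact hv
  have h2 := Submodule.smul_mem _ (⟨r, hr⟩ : C.surf.R a b) h1
  have h3 : (r • v) ∈ (Submodule.span (C.surf.R a b) (S : Set F) : Set F) := h2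
  rw [← hS] at h3
  exact h3

theorem F2aux_coord_t (a b : Bool) (n : ℕ) : (coord C.surf.t a) ^ n ∈ C.surf.R a b := by
  apply pow_mem
  rw [C.mem_R, C.fa_coord_t]
  exact (le_sup_left : C.OC a ≤ _) (Algebra.subset_adjoin (by simp [T]))

theorem F2aux_coord_x (a b : Bool) (n : ℕ) : (coord C.surf.x b) ^ n ∈ C.surf.R a b := by
  apply pow_mem
  rw [C.mem_R, C.fa_coord_x]
  exact (le_sup_right : C.OF b ≤ _) (Algebra.subset_adjoin (by simp [Xc]))

/-- Enlarging the exponent in the gluing condition. -/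
theorem F2aux_add {θ : Bool → Bool → (F →ₗ[ℂ] F)} (h : FOData C.surf C.E θ) (a b : Bool)
    (r s : ↥C.K) (hr : r ∈ C.surf.R a b) (v w : F) (h1 : s • v ∈ C.E a b)
    (h2 : s • w - θ a b (s • v) ∈ C.E a b) :
    (r * s) • v ∈ C.E a b ∧ (r * s) • w - θ a b ((r * s) • v) ∈ C.E a b := by
  refine ⟨by rw [mul_smul]; exact C.F2aux_smul a b r hr _ h1, ?_⟩
  have h3 := C.F2aux_smul a b r hr _ h2
  have h4 := h.lin a b r hr _ h1
  have := sub_mem h3 h4
  rw [mul_smul, mul_smul]
  convert this using 1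
  rw [smul_sub]; abel

/-- Differences of first order deformations. -/
theorem F2aux_sub {θ θ' : Bool → Bool → (F →ₗ[ℂ] F)} (h : FOData C.surf C.E θ)
    (h' : FOData C.surf C.E θ') (c : ℂ) :
    FOData C.surf C.E (fun a b => θ a b - c • θ' a b) := by
  refine ⟨?_, ?_, ?_⟩
  · intro a b r hr v hv
    have h1 := h.lin a b r hr v hv
    have h2 := Submodule.smul_mem _ c (h'.lin a b r hr v hv)
    have := sub_mem h1 h2
    convert this using 1
    simp only [LinearMap.sub_apply, LinearMap.smul_apply, smul_sub]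
    rw [smul_comm r c]
    abel
  · intro a a' b v hv
    obtain ⟨n, h1, h2⟩ := h.glue_t a a' b v hv
    obtain ⟨m, h3, h4⟩ := h'.glue_t a a' b v hv
    obtain ⟨k1, k2⟩ := C.F2aux_add h a' b _ _ (C.F2aux_coord_t a' b m) v (θ a b v) h1 h2
    obtain ⟨k3, k4⟩ := C.F2aux_add h' a' b _ _ (C.F2aux_coord_t a' b n) v (θ' a b v) h3 h4
    rw [← pow_add] at k1 k2 k3 k4
    rw [add_comm n m] at k4
    refine ⟨m + n, k1, ?_⟩
    have := sub_mem k2 (Submodule.smul_mem _ c k4)
    convert this using 1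
    simp only [LinearMap.sub_apply, LinearMap.smul_apply, smul_sub]
    rw [smul_comm c]
    abel
  · intro a b b' v hv
    obtain ⟨n, h1, h2⟩ := h.glue_x a b b' v hv
    obtain ⟨m, h3, h4⟩ := h'.glue_x a b b' v hv
    obtain ⟨k1, k2⟩ := C.F2aux_add h a b' _ _ (C.F2aux_coord_x a b' m) v (θ a b v) h1 h2
    obtain ⟨k3, k4⟩ := C.F2aux_add h' a b' _ _ (C.F2aux_coord_x a b' n) v (θ' a b v) h3 h4
    rw [← pow_add] at k1 k2 k3 k4
    rw [add_comm n m] at k4
    refine ⟨m + n, k1, ?_⟩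
    have := sub_mem k2 (Submodule.smul_mem _ c k4)
    convert this using 1
    simp only [LinearMap.sub_apply, LinearMap.smul_apply, smul_sub]
    rw [smul_comm c]
    abel

theorem F2 (θ : Bool → Bool → (F →ₗ[ℂ] F)) (h : FOData C.surf C.E θ) :
    ∃ (ψ : Fin 8 → ℂ) (u u' : F), ∀ a b, ∀ v ∈ C.E a b,
      θ a b v - C.thc ψ a b v - C.op u u' v ∈ C.E a b := by
  obtain ⟨w10, w10', h10⟩ := C.exists_op_of_lin true false (θ true false)
    (fun r hr v hv => h.lin true false r hr v hv)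
  obtain ⟨w01, w01', h01⟩ := C.exists_op_of_lin false true (θ false true)
    (fun r hr v hv => h.lin false true r hr v hv)
  obtain ⟨w11, w11', h11⟩ := C.exists_op_of_lin true true (θ true true)
    (fun r hr v hv => h.lin true true r hr v hv)
  obtain ⟨hu, b', hb', hbv, hu'⟩ := C.F2aux_class h ⟨h10, h01, h11⟩
  obtain ⟨b7, hb7, hb72, hc7⟩ := C.class_th7
  set h10c : F := -(i / 4) * C.G0 * C.Y * C.x⁻¹ with hh10c
  set h01c : F := -(1 / 4) * C.G0 * (1 - C.p + i * C.q) * C.x⁻¹ with hh01c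
  set ψ7 : ℂ := C.ev y0' b' / 2 with hψ7
  have hθ' := C.F2aux_sub h (C.th_fo 7) ψ7
  have t10 : C.th 7 true false = C.op 0 h10c := rfl
  have t01 : C.th 7 false true = C.op 0 h01c := rfl
  have t11 : C.th 7 true true = 0 := rfl
  have H' : C.F2Op (fun a b => θ a b - ψ7 • C.th 7 a b) w10 (w10' - ψ7 • h10c) w01
      (w01' - ψ7 • h01c) w11 w11' := by
    refine ⟨?_, ?_, ?_⟩
    · intro v hv
      have := h10 v hv
      convert this using 1
      simp only [t10, LinearMap.sub_apply, LinearMap.smul_apply, op_apply]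
      simp only [Algebra.smul_def]
      ring
    · intro v hv
      have := h01 v hv
      convert this using 1
      simp only [t01, LinearMap.sub_apply, LinearMap.smul_apply, op_apply]
      simp only [Algebra.smul_def]
      ring
    · intro v hv
      have := h11 v hv
      convert this using 1
      simp only [t11, LinearMap.sub_apply, LinearMap.smul_apply, op_apply]
      simp
  obtain ⟨hu2, b2, hb2, hb2v, hu2'⟩ := C.F2aux_class hθ' H'
  -- the new class vanishes
  have hz : (b' - ψ7 • b7 - b2) * (C.t⁻¹ * C.x⁻¹) ∈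
      (sm (C.BT false) ⊔ sm C.BX : Submodule ℂ F) := by
    have := sub_mem hu2' hu'
    convert this using 1
    simp only [Algebra.smul_def]
    linear_combination algebraMap ℂ F ψ7 * hc7
  have hbB : b' - ψ7 • b7 - b2 ∈ C.B false false :=
    sub_mem (sub_mem hb' (Subalgebra.smul_mem _ hb7 _)) hb2
  have hb20 : C.ev y0' b2 = 0 := by
    have h1 := C.ev_eq_zero _ hbB hz y0'
    rw [map_sub, map_sub, map_smul, hb72, smul_eq_mul, hψ7] at h1
    linear_combination -h1
  have hb2all : ∀ y, C.ev y b2 = 0 := by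
    intro y
    by_cases hy : y = y0'
    · rw [hy]; exact hb20
    · exact hb2v y hy
  obtain ⟨c, hc, d, hd, hcd⟩ := C.mem_tx b2 hb2 hb2all
  have h5 : b2 * (C.t⁻¹ * C.x⁻¹) ∈ (sm (C.BT false) ⊔ sm C.BX : Submodule ℂ F) := by
    have ht := C.fa_t_ne
    have hx := C.fa_x_ne
    have e1 : b2 * (C.t⁻¹ * C.x⁻¹) = d * C.t⁻¹ + c * C.x⁻¹ := by
      rw [hcd]; field_simp; ring
    rw [e1]
    exact Submodule.add_mem_sup (S := sm (C.BT false)) (T := sm C.BX)
      ((C.BT false).mul_mem (C.fa_B_le_BT false hd) (C.fa_tinv_BT false))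
      (C.BX.mul_mem (C.fa_B_le_BX hc) C.fa_xinv_BX)
  have h6 : w10' - ψ7 • h10c - (w01' - ψ7 • h01c) ∈
      (sm (C.BT false) ⊔ sm C.BX : Submodule ℂ F) := by
    have := add_mem hu2' h5
    convert this using 1
    ring
  obtain ⟨ψ, u, u', hψ⟩ := C.F2aux_main hθ' H' hu2 h6
  refine ⟨ψ + ψ7 • Pi.single 7 1, u, u', fun a b v hv => ?_⟩
  have := hψ a b v hv
  convert this using 1
  have e1 : C.thc (ψ + ψ7 • Pi.single 7 1) a b v = C.thc ψ a b v + ψ7 • C.th 7 a b v := by
    simp [thc, Fin.sum_univ_eight, add_smul]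
    abel
  rw [e1]
  simp only [LinearMap.sub_apply, LinearMap.smul_apply]
  abel

end Cfg

end

end Pool.Agent.EllMod
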