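import Pool.Agent.MP_77976d_ag.F3Core
import Pool.Agent.MP_77976d_ag.Fb
import Pool.Agent.MP_77976d_ag.Fo

/-! # F3 : the obstruction -/

open scoped TensorProduct
open IsLocalRing

namespace Pool.Agent.EllMod

noncomputable section

/-- `ε₁` -/
def F3e1 : A2 := A2.mk (eps 0) 0
/-- `ε₂` -/
def F3e2 : A2 := A2.mk 0 1
/-- `ε₁ ε₂` -/
def F3e12 : A2 := A2.mk 0 (eps 0)

theorem F3_eps_sq : (eps 0 : D 1) * eps 0 = 0 := by
  ext <;> simp

theorem F3e1_e1 : F3e1 * F3e1 = 0 := by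
  apply A2.ext
  · simp [F3e1, F3_eps_sq]
  · simp [F3e1]
theorem F3e1_e2 : F3e1 * F3e2 = F3e12 := by
  apply A2.ext <;> simp [F3e1, F3e2, F3e12]
theorem F3e1_e12 : F3e1 * F3e12 = 0 := by
  apply A2.ext
  · simp [F3e1, F3e12]
  · simp [F3e1, F3e12, F3_eps_sq]
theorem F3e2_e1 : F3e2 * F3e1 = F3e12 := by rw [mul_comm, F3e1_e2]
theorem F3e2_e2 : F3e2 * F3e2 = 0 := by
  apply A2.ext <;> simp [F3e2]
theorem F3e2_e12 : F3e2 * F3e12 = 0 := by
  apply A2.ext <;> simp [F3e2, F3e12]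

/-- coefficient of `1` -/
def F3f00 : A2 →ₗ[ℂ] ℂ where
  toFun a := a.fst.fst
  map_add' a b := by simp
  map_smul' a b := by simp
/-- coefficient of `ε₁` -/
def F3f10 : A2 →ₗ[ℂ] ℂ where
  toFun a := a.fst.snd 0
  map_add' a b := by simp
  map_smul' a b := by simp
/-- coefficient of `ε₂` -/
def F3f01 : A2 →ₗ[ℂ] ℂ where
  toFun a := a.snd.fst
  map_add' a b := by simp
  map_smul' a b := by simp
/-- coefficient of `ε₁ ε₂` -/
def F3f11 : A2 →ₗ[ℂ] ℂ where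
  toFun a := a.snd.snd 0
  map_add' a b := by simp
  map_smul' a b := by simp

section

variable {W : Type} [AddCommGroup W] [Module ℂ W]

/-- The element `v + ε₁ v₁ + ε₂ w₀ + ε₁ ε₂ w₁`. -/
def F3mk (v v₁ w₀ w₁ : W) : A2 ⊗[ℂ] W :=
  (1 : A2) ⊗ₜ v + F3e1 ⊗ₜ v₁ + F3e2 ⊗ₜ w₀ + F3e12 ⊗ₜ w₁

theorem F3mk_cf (z : A2 ⊗[ℂ] W) : F3mk (cf F3f00 z) (cf F3f10 z) (cf F3f01 z) (cf F3f11 z) = z := by
  induction z using TensorProduct.induction_on with
  | zero => simp [F3mk]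
  | add z w hz hw =>
    conv_rhs => rw [← hz, ← hw]
    simp only [F3mk, map_add, TensorProduct.tmul_add]
    abel
  | tmul a w =>
    simp only [F3mk, cf_tmul]
    rw [TensorProduct.tmul_smul, TensorProduct.tmul_smul, TensorProduct.tmul_smul,
      TensorProduct.tmul_smul, TensorProduct.smul_tmul', TensorProduct.smul_tmul',
      TensorProduct.smul_tmul', TensorProduct.smul_tmul', ← TensorProduct.add_tmul,
      ← TensorProduct.add_tmul, ← TensorProduct.add_tmul]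
    congr 1
    apply A2.ext
    · ext k
      · simp [F3f00, F3f10, F3f01, F3f11, F3e1, F3e2, F3e12]
      · have hk : k = 0 := Subsingleton.elim _ _
        subst hk
        simp [F3f00, F3f10, F3f01, F3f11, F3e1, F3e2, F3e12]
    · ext k
      · simp [F3f00, F3f10, F3f01, F3f11, F3e1, F3e2, F3e12]
      · have hk : k = 0 := Subsingleton.elim _ _
        subst hk
        simp [F3f00, F3f10, F3f01, F3f11, F3e1, F3e2, F3e12]

theorem F3mk_e1 (v v₁ w₀ w₁ : W) : F3e1 • F3mk v v₁ w₀ w₁ = F3mk 0 v 0 w₀ := by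
  simp only [F3mk, smul_add, TensorProduct.smul_tmul', smul_eq_mul, mul_one, F3e1_e1, F3e1_e2,
    F3e1_e12, TensorProduct.zero_tmul, TensorProduct.tmul_zero, add_zero, zero_add]

theorem F3mk_e2 (v v₁ w₀ w₁ : W) : F3e2 • F3mk v v₁ w₀ w₁ = F3mk 0 0 v v₁ := by
  simp only [F3mk, smul_add, TensorProduct.smul_tmul', smul_eq_mul, mul_one, F3e2_e1, F3e2_e2,
    F3e2_e12, TensorProduct.zero_tmul, TensorProduct.tmul_zero, add_zero, zero_add]

theorem F3mk_add (v v₁ w₀ w₁ v' v₁' w₀' w₁' : W) :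
    F3mk v v₁ w₀ w₁ + F3mk v' v₁' w₀' w₁' = F3mk (v + v') (v₁ + v₁') (w₀ + w₀') (w₁ + w₁') := by
  simp only [F3mk, TensorProduct.tmul_add]; abel

theorem F3mk_kact {K : Type} [Field K] [Algebra ℂ K] [Module K W] [IsScalarTower ℂ K W] (k : K)
    (v v₁ w₀ w₁ : W) : kact A2 k (F3mk v v₁ w₀ w₁) = F3mk (k • v) (k • v₁) (k • w₀) (k • w₁) := by
  simp only [F3mk, map_add, fb_kact_tmul]

theorem F3cf_fbT {A A' : Type} [CommRing A] [Algebra ℂ A] [CommRing A'] [Algebra ℂ A']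
    (α : A →ₐ[ℂ] A') (φ : A' →ₗ[ℂ] ℂ) (z : A ⊗[ℂ] W) :
    cf φ (fbT α W z) = cf (φ ∘ₗ α.toLinearMap) z := by
  induction z using TensorProduct.induction_on with
  | zero => simp
  | add z w hz hw => rw [map_add, map_add, hz, hw, map_add]
  | tmul b w => rw [fbT_tmul, cf_tmul, cf_tmul]; rfl

theorem F3cf_kact {A : Type} [CommRing A] [Algebra ℂ A] {K : Type} [Field K] [Algebra ℂ K]
    [Module K W] [IsScalarTower ℂ K W] (φ : A →ₗ[ℂ] ℂ) (k : K) (z : A ⊗[ℂ] W) :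
    cf φ (kact A k z) = k • cf φ z := by
  induction z using TensorProduct.induction_on with
  | zero => simp
  | add z w hz hw => rw [map_add, map_add, hz, hw, map_add, smul_add]
  | tmul b w => rw [fb_kact_tmul, cf_tmul, cf_tmul, smul_comm]

theorem F3f00_mk (v v₁ w₀ w₁ : W) : cf F3f00 (F3mk v v₁ w₀ w₁) = v := by
  simp [F3mk, F3f00, F3e1, F3e2, F3e12]
theorem F3f10_mk (v v₁ w₀ w₁ : W) : cf F3f10 (F3mk v v₁ w₀ w₁) = v₁ := by
  simp [F3mk, F3f10, F3e1, F3e2, F3e12]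
theorem F3f01_mk (v v₁ w₀ w₁ : W) : cf F3f01 (F3mk v v₁ w₀ w₁) = w₀ := by
  simp [F3mk, F3f01, F3e1, F3e2, F3e12]
theorem F3f11_mk (v v₁ w₀ w₁ : W) : cf F3f11 (F3mk v v₁ w₀ w₁) = w₁ := by
  simp [F3mk, F3f11, F3e1, F3e2, F3e12]

theorem F3rho1_fst : (Dfst 1) ∘ₗ rho1.toLinearMap = F3f00 := by
  ext a; rfl
theorem F3rho1_snd : (Dsnd 1 0) ∘ₗ rho1.toLinearMap = F3f10 := by
  ext a; rfl
theorem F3rho2_fst : (Dfst 1) ∘ₗ rho2.toLinearMap = F3f00 := by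
  ext a; rfl
theorem F3rho2_snd : (Dsnd 1 0) ∘ₗ rho2.toLinearMap = F3f01 := by
  ext a; rfl

/-- Elements of `D 1 ⊗ W`. -/
theorem F3D_cf (z : D 1 ⊗[ℂ] W) : (1 : D 1) ⊗ₜ cf (Dfst 1) z + (eps 0 : D 1) ⊗ₜ cf (Dsnd 1 0) z =
    z := by
  induction z using TensorProduct.induction_on with
  | zero => simp
  | add z w hz hw =>
    conv_rhs => rw [← hz, ← hw]
    simp only [map_add, TensorProduct.tmul_add]
    abel
  | tmul a w =>
    simp only [cf_tmul]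
    rw [TensorProduct.tmul_smul, TensorProduct.tmul_smul, TensorProduct.smul_tmul',
      TensorProduct.smul_tmul', ← TensorProduct.add_tmul]
    congr 1
    ext k
    · simp
    · have hk : k = 0 := Subsingleton.elim _ _
      subst hk
      simp

theorem F3D_ext {z w : D 1 ⊗[ℂ] W} (h : cf (Dfst 1) z = cf (Dfst 1) w)
    (h' : cf (Dsnd 1 0) z = cf (Dsnd 1 0) w) : z = w := by
  rw [← F3D_cf z, ← F3D_cf w, h, h']

/-- The augmentation of `D 1`. -/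
def F3aug : D 1 →ₐ[ℂ] ℂ where
  toFun a := a.fst
  map_one' := rfl
  map_mul' a b := by simp
  map_zero' := rfl
  map_add' a b := by simp
  commutes' r := by simp

theorem F3_flat (L : Submodule A2 (A2 ⊗[ℂ] W)) (hL : Module.Flat A2 ((A2 ⊗[ℂ] W) ⧸ L))
    (z : A2 ⊗[ℂ] W) (h : F3e2 • z ∈ L) : ∃ y : A2 ⊗[ℂ] W, z + F3e2 • y ∈ L := by
  have h1 : ∑ i : Unit, (fun _ => F3e2) i • (fun _ => L.mkQ z) i = 0 := by
    simp only [Finset.univ_unique, Finset.sum_const, Finset.card_singleton, one_smul]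
    rw [← map_smul, Submodule.mkQ_apply, Submodule.Quotient.mk_eq_zero]
    exact h
  obtain ⟨k, a, y, h2, h3⟩ := Module.Flat.isTrivialRelation_of_sum_smul_eq_zero h1
  have h4 : ∀ j, a () j = F3e2 * A2.mk (a () j).snd 0 := by
    intro j
    have h5 := h3 j
    simp only [Finset.univ_unique, Finset.sum_singleton] at h5
    have h6 := congrArg A2.snd h5
    simp only [F3e2, A2.snd_mul, A2.fst_mk, A2.snd_mk, zero_mul, zero_add, A2.snd_zero] at h6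
    have h7 : (a () j).fst = 0 := by
      have : (a () j).fst • (1 : D 1) = (a () j).fst := by simp
      simpa using h6
    apply A2.ext
    · rw [h7]; simp [F3e2]
    · simp [F3e2]
  have h5 := h2 ()
  choose y' hy' using fun j => L.mkQ_surjective (y j)
  refine ⟨-∑ j, A2.mk (a () j).snd 0 • y' j, ?_⟩
  rw [← Submodule.Quotient.mk_eq_zero L, ← Submodule.mkQ_apply, map_add, map_smul, map_neg,
    map_sum, smul_neg, Finset.smul_sum]
  have h6 : L.mkQ z = ∑ j, F3e2 • L.mkQ (A2.mk (a () j).snd 0 • y' j) := by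
    have : L.mkQ z = ∑ j, a () j • y j := h5
    rw [this]
    refine Finset.sum_congr rfl (fun j _ => ?_)
    rw [map_smul, smul_smul, ← h4 j, hy' j]
  rw [h6]
  exact add_neg_cancel _

end

variable {F : Type} [Field F] [Algebra ℂ F] (C : Cfg F)

namespace Cfg

theorem F3aux_iso (L' : RawFam (D 1) F) (θ : Bool → Bool → (F →ₗ[ℂ] F))
    (h : FamIso ↥C.K L' (foFam C.E (fun _ : Fin 1 => θ))) :
    ∃ u u' : F, ∀ a b z, z ∈ L' a b ↔ cf (Dfst 1) z ∈ C.E a b ∧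
      cf (Dsnd 1 0) z + C.op u u' (cf (Dfst 1) z) - θ a b (cf (Dfst 1) z) ∈ C.E a b := by
  obtain ⟨g, hg1, hg2, hg3⟩ := h
  let Θ : F →ₗ[↥C.K] F :=
    { toFun := fun v => cf (Dsnd 1 0) (g ((1 : D 1) ⊗ₜ v))
      map_add' := fun v w => by rw [TensorProduct.tmul_add, map_add, map_add]
      map_smul' := fun k v => by
        rw [← fb_kact_tmul, hg1, F3cf_kact]; rfl }
  obtain ⟨u, u', hu⟩ := C.exists_op Θ
  have hfst : ∀ z, cf (Dfst 1) (g z) = cf (Dfst 1) z := fun z => hg2 F3aug z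
  have hsnd : ∀ z, cf (Dsnd 1 0) (g z) = cf (Dsnd 1 0) z + C.op u u' (cf (Dfst 1) z) := by
    intro z
    have e : z = (1 : D 1) ⊗ₜ cf (Dfst 1) z + (eps 0 : D 1) • ((1 : D 1) ⊗ₜ cf (Dsnd 1 0) z) := by
      rw [TensorProduct.smul_tmul', smul_eq_mul, mul_one]; exact (F3D_cf z).symm
    conv_lhs => rw [e]
    rw [map_add, map_add, map_smul, cf_snd_smul, hfst]
    have h1 : cf (Dsnd 1 0) (g ((1 : D 1) ⊗ₜ cf (Dfst 1) z)) = C.op u u' (cf (Dfst 1) z) := hu _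
    rw [h1]
    simp
    ring
  refine ⟨u, u', fun a b z => ?_⟩
  rw [← hg3 a b z]
  constructor
  · rintro ⟨h1, h2⟩
    have h3 := h2 0
    rw [hfst] at h1 h3
    rw [hsnd] at h3
    exact ⟨h1, h3⟩
  · rintro ⟨h1, h2⟩
    refine ⟨by rw [hfst]; exact h1, fun k => ?_⟩
    have hk : k = 0 := Subsingleton.elim _ _
    subst hk
    rw [hfst, hsnd]
    exact h2

theorem F3 (L : RawFam A2 F) (hL : IsFam C.surf C.E L)
    (h1 : FamIso ↥C.K (push rho1 L) (foFam C.E (fun _ : Fin 1 => C.th 6)))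
    (h2 : FamIso ↥C.K (push rho2 L) (foFam C.E (fun _ : Fin 1 => C.th 7))) : False := by
  obtain ⟨u, u', hu⟩ := C.F3aux_iso _ _ h1
  obtain ⟨c, c', hc⟩ := C.F3aux_iso _ _ h2
  have hs1 : Function.Surjective rho1 := fun a => ⟨A2.mk a 0, rfl⟩
  have hs2 : Function.Surjective rho2 := fun a => ⟨A2.mk (D.mk a.fst 0) (D.mk (a.snd 0) 0), by
    ext k
    · rfl
    · have hk : k = 0 := Subsingleton.elim _ _
      subst hk; rfl⟩
  have push1 : ∀ a b (w : D 1 ⊗[ℂ] F), w ∈ push rho1 L a b ↔ ∃ z ∈ L a b, fbT rho1 F z = w :=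
    fun a b w => push_surj rho1 hs1 L a b w
  have push2 : ∀ a b (w : D 1 ⊗[ℂ] F), w ∈ push rho2 L a b ↔ ∃ z ∈ L a b, fbT rho2 F z = w :=
    fun a b w => push_surj rho2 hs2 L a b w
  -- reduction modulo `ε₂`
  have r1 : ∀ a b v v₁ w₀ w₁, F3mk v v₁ w₀ w₁ ∈ L a b →
      v ∈ C.E a b ∧ v₁ + C.op u u' v - C.th 6 a b v ∈ C.E a b := by
    intro a b v v₁ w₀ w₁ h
    have h3 := (hu a b _).mp ((push1 a b _).mpr ⟨_, h, rfl⟩)
    rw [F3cf_fbT, F3cf_fbT, F3rho1_fst, F3rho1_snd, F3f00_mk, F3f10_mk] at h3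
    exact h3
  have r1' : ∀ a b v v₁, v ∈ C.E a b → v₁ + C.op u u' v - C.th 6 a b v ∈ C.E a b →
      ∃ w₀ w₁, F3mk v v₁ w₀ w₁ ∈ L a b := by
    intro a b v v₁ hv hv₁
    have h3 : (1 : D 1) ⊗ₜ v + (eps 0 : D 1) ⊗ₜ v₁ ∈ push rho1 L a b := by
      rw [hu]
      simpa using And.intro hv hv₁
    obtain ⟨z, hz, hzz⟩ := (push1 a b _).mp h3
    have h4 : cf F3f00 z = v := by
      rw [← F3rho1_fst, ← F3cf_fbT, hzz]; simp
    have h5 : cf F3f10 z = v₁ := by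
      rw [← F3rho1_snd, ← F3cf_fbT, hzz]; simp
    refine ⟨cf F3f01 z, cf F3f11 z, ?_⟩
    rw [← h4, ← h5, F3mk_cf]
    exact hz
  -- reduction modulo `ε₁`
  have r2 : ∀ a b v v₁ w₀ w₁, F3mk v v₁ w₀ w₁ ∈ L a b →
      w₀ + C.op c c' v - C.th 7 a b v ∈ C.E a b := by
    intro a b v v₁ w₀ w₁ h
    have h3 := (hc a b _).mp ((push2 a b _).mpr ⟨_, h, rfl⟩)
    rw [F3cf_fbT, F3cf_fbT, F3rho2_fst, F3rho2_snd, F3f00_mk, F3f01_mk] at h3
    exact h3.2
  have z0 : C.op u u' 0 = 0 := map_zero _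
  refine C.F3core (P := fun a b v v₁ w₀ w₁ =>
    F3mk v (v₁ - C.op u u' v) w₀ (w₁ - C.op u u' w₀) ∈ L a b) (c := c) (c' := c') ?_
  refine ⟨?_, ?_, ?_, ?_, ?_, ?_, ?_, ?_, ?_, ?_⟩
  · intro a b v v₁ w₀ w₁ v' v₁' w₀' w₁' h h'
    have := add_mem h h'
    rw [F3mk_add] at this
    convert this using 2
    · rw [map_add]; ring
    · rw [map_add]; ring
  · intro a b v v₁ w₀ w₁ r hr hrB h
    have h3 := hL.smul_mem a b ⟨r, hr⟩ ((C.mem_R a b _).mpr hrB) _ h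
    rw [F3mk_kact] at h3
    have e : ∀ y : F, (⟨r, hr⟩ : ↥C.K) • y = r * y := fun y => rfl
    rw [e, e, e, e] at h3
    rw [C.fa_op_mul _ _ _ _ hr, C.fa_op_mul _ _ _ _ hr, ← mul_sub, ← mul_sub]
    exact h3
  · intro a b v v₁ w₀ w₁ h
    have h3 := (L a b).smul_mem F3e1 h
    rw [F3mk_e1] at h3
    simpa [z0] using h3
  · intro a b v v₁ w₀ w₁ h
    have h3 := (L a b).smul_mem F3e2 h
    rw [F3mk_e2] at h3
    simpa [z0] using h3
  · intro a b v v₁ w₀ w₁ h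
    have h3 := r1 a b _ _ _ _ h
    rwa [sub_add_cancel] at h3
  · intro a b v v₁ hv hv₁
    obtain ⟨w₀, w₁, h⟩ := r1' a b v (v₁ - C.op u u' v) hv (by rwa [sub_add_cancel])
    refine ⟨w₀, w₁ + C.op u u' w₀, ?_⟩
    rwa [add_sub_cancel_right]
  · intro a b v v₁ w₀ w₁ h
    exact r2 a b _ _ _ _ h
  · intro a b w₀ w₁ h
    have h3 : F3e2 • F3mk w₀ (w₁ - C.op u u' w₀) 0 0 ∈ L a b := by
      rw [F3mk_e2]
      simpa [z0] using h
    obtain ⟨y, hy⟩ := F3_flat (L a b) (hL.flat a b) _ h3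
    rw [← F3mk_cf y, F3mk_e2, F3mk_add] at hy
    have h4 := r1 a b _ _ _ _ hy
    simp only [add_zero, sub_add_cancel] at h4
    exact h4
  · intro a a' b v v₁ w₀ w₁ h
    obtain ⟨n, hn⟩ := hL.glue_t a a' b _ h
    refine ⟨n, ?_⟩
    rw [F3mk_kact] at hn
    have hι : C.ι (coord C.t a' ^ n) = coord C.t a' ^ n := by rw [map_pow, C.fa_ι_coord_t]
    have e : ∀ y : F, ((coord C.surf.t a' : ↥C.K) ^ n) • y = coord C.t a' ^ n * y := by
      intro y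
      show (((coord C.surf.t a' : ↥C.K) ^ n : ↥C.K) : F) * y = _
      rw [IntermediateField.coe_pow, C.fa_coord_t]
    rw [e, e, e, e] at hn
    rw [C.fa_op_mul _ _ _ _ hι, C.fa_op_mul _ _ _ _ hι, ← mul_sub, ← mul_sub]
    exact hn
  · intro a b b' v v₁ w₀ w₁ h
    obtain ⟨n, hn⟩ := hL.glue_x a b b' _ h
    refine ⟨n, ?_⟩
    rw [F3mk_kact] at hn
    have hι : C.ι (coord C.x b' ^ n) = coord C.x b' ^ n := by rw [map_pow, C.fa_ι_coord_x]
    have e : ∀ y : F, ((coord C.surf.x b' : ↥C.K) ^ n) • y = coord C.x b' ^ n * y := by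
      intro y
      show (((coord C.surf.x b' : ↥C.K) ^ n : ↥C.K) : F) * y = _
      rw [IntermediateField.coe_pow, C.fa_coord_x]
    rw [e, e, e, e] at hn
    rw [C.fa_op_mul _ _ _ _ hι, C.fa_op_mul _ _ _ _ hι, ← mul_sub, ← mul_sub]
    exact hn

end Cfg

end

end Pool.Agent.EllMod
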