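import Pool.Agent.MP_77976d_ag.FAux

/-! # F3 : the obstruction, coordinate form -/

open scoped TensorProduct
open IsLocalRing

namespace Pool.Agent.EllMod

noncomputable section

variable {F : Type} [Field F] [Algebra ℂ F] (C : Cfg F)

namespace Cfg

/-- A family over `A2` in coordinates: `P a b v v₁ w₀ w₁` stands for
`v + ε₁ v₁ + ε₂ w₀ + ε₁ ε₂ w₁ ∈ L_{ab}`. -/
structure F3P (P : Bool → Bool → F → F → F → F → Prop) (c c' : F) : Prop where
  add : ∀ a b v v₁ w₀ w₁ v' v₁' w₀' w₁', P a b v v₁ w₀ w₁ → P a b v' v₁' w₀' w₁' →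
    P a b (v + v') (v₁ + v₁') (w₀ + w₀') (w₁ + w₁')
  mul : ∀ a b v v₁ w₀ w₁ r, C.ι r = r → r ∈ C.B a b → P a b v v₁ w₀ w₁ →
    P a b (r * v) (r * v₁) (r * w₀) (r * w₁)
  e1 : ∀ a b v v₁ w₀ w₁, P a b v v₁ w₀ w₁ → P a b 0 v 0 w₀
  e2 : ∀ a b v v₁ w₀ w₁, P a b v v₁ w₀ w₁ → P a b 0 0 v v₁
  mod2 : ∀ a b v v₁ w₀ w₁, P a b v v₁ w₀ w₁ → v ∈ C.E a b ∧ v₁ - C.th 6 a b v ∈ C.E a b
  mod2' : ∀ a b v v₁, v ∈ C.E a b → v₁ - C.th 6 a b v ∈ C.E a b → ∃ w₀ w₁, P a b v v₁ w₀ w₁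
  mod1 : ∀ a b v v₁ w₀ w₁, P a b v v₁ w₀ w₁ → w₀ + C.op c c' v - C.th 7 a b v ∈ C.E a b
  flat : ∀ a b w₀ w₁, P a b 0 0 w₀ w₁ → w₀ ∈ C.E a b ∧ w₁ - C.th 6 a b w₀ ∈ C.E a b
  glue_t : ∀ a a' b v v₁ w₀ w₁, P a b v v₁ w₀ w₁ → ∃ n : ℕ, P a' b (coord C.t a' ^ n * v)
    (coord C.t a' ^ n * v₁) (coord C.t a' ^ n * w₀) (coord C.t a' ^ n * w₁)
  glue_x : ∀ a b b' v v₁ w₀ w₁, P a b v v₁ w₀ w₁ → ∃ n : ℕ, P a b' (coord C.x b' ^ n * v)
    (coord C.x b' ^ n * v₁) (coord C.x b' ^ n * w₀) (coord C.x b' ^ n * w₁)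

/-- A linear section. -/
theorem F3aux_lin (S : Submodule ℂ (F × F × F)) (V : Submodule ℂ F)
    (h : ∀ v ∈ V, ∃ w : F × F, (v, w) ∈ S) :
    ∃ θ ψ : F →ₗ[ℂ] F, ∀ v ∈ V, (v, θ v, ψ v) ∈ S := by
  let S' : Submodule ℂ (F × F × F) := S ⊓ V.comap (LinearMap.fst ℂ F (F × F))
  let p : ↥S' →ₗ[ℂ] ↥V := ((LinearMap.fst ℂ F (F × F)) ∘ₗ S'.subtype).codRestrict V
    (fun x => x.2.2)
  have hp : LinearMap.range p = ⊤ := by
    rw [LinearMap.range_eq_top]
    rintro ⟨v, hv⟩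
    obtain ⟨w, hw⟩ := h v hv
    exact ⟨⟨(v, w), hw, hv⟩, Subtype.ext rfl⟩
  obtain ⟨g, hg⟩ := p.exists_rightInverse_of_surjective hp
  obtain ⟨θ, hθ⟩ := LinearMap.exists_extend
    ((LinearMap.fst ℂ F F) ∘ₗ (LinearMap.snd ℂ F (F × F)) ∘ₗ S'.subtype ∘ₗ g)
  obtain ⟨ψ, hψ⟩ := LinearMap.exists_extend
    ((LinearMap.snd ℂ F F) ∘ₗ (LinearMap.snd ℂ F (F × F)) ∘ₗ S'.subtype ∘ₗ g)
  refine ⟨θ, ψ, fun v hv => ?_⟩
  have h1 : θ v = (g ⟨v, hv⟩ : F × F × F).2.1 := congrArg (fun f => f ⟨v, hv⟩) hθ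
  have h2 : ψ v = (g ⟨v, hv⟩ : F × F × F).2.2 := congrArg (fun f => f ⟨v, hv⟩) hψ
  have h3 : (g ⟨v, hv⟩ : F × F × F).1 = v := by
    have := congrArg (fun f => ((f ⟨v, hv⟩ : ↥V) : F)) hg
    exact this
  have h4 : (v, θ v, ψ v) = (g ⟨v, hv⟩ : F × F × F) := by
    rw [h1, h2]
    ext <;> simp [h3]
  rw [h4]
  exact (g ⟨v, hv⟩).2.1

variable {P : Bool → Bool → F → F → F → F → Prop} {c c' : F} (H : C.F3P P c c')

include H

theorem F3aux_smul (a b : Bool) (v v₁ w₀ w₁ : F) (r : ℂ) (h : P a b v v₁ w₀ w₁) :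
    P a b (r • v) (r • v₁) (r • w₀) (r • w₁) := by
  simp only [Algebra.smul_def]
  exact H.mul a b _ _ _ _ _ (by simp) ((C.B a b).algebraMap_mem r) h

theorem F3aux_sub (a b : Bool) (v v₁ w₀ w₁ v' v₁' w₀' w₁' : F) (h : P a b v v₁ w₀ w₁)
    (h' : P a b v' v₁' w₀' w₁') : P a b (v - v') (v₁ - v₁') (w₀ - w₀') (w₁ - w₁') := by
  have h1 := C.F3aux_smul H a b v' v₁' w₀' w₁' (-1) h'
  have h2 := H.add a b _ _ _ _ _ _ _ _ h h1
  have e : ∀ x y : F, x + (-1 : ℂ) • y = x - y := fun x y => by rw [neg_one_smul]; ring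
  simpa only [e] using h2

/-- On the charts different from `(0, 0)` the family is given by operators. -/
theorem F3aux_op (a b : Bool) (hE : C.E a b = C.V a b) (h6 : C.th 6 a b = 0) :
    ∃ u u' z z' : F, (∀ v ∈ C.V a b, P a b v 0 (C.op u u' v) (C.op z z' v)) ∧
      ∀ v v₁ w₀ w₁, P a b v v₁ w₀ w₁ → w₀ - C.op u u' v ∈ C.V a b ∧
        w₁ - C.op z z' v - C.op u u' v₁ ∈ C.V a b := by
  have hP0 : P a b 0 0 0 0 := by
    obtain ⟨w₀, w₁, h⟩ := H.mod2' a b 0 0 (zero_mem _) (by rw [h6]; simp)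
    have := C.F3aux_smul H a b _ _ _ _ 0 h
    simpa using this
  let S : Submodule ℂ (F × F × F) :=
    { carrier := {x | P a b x.1 0 x.2.1 x.2.2}
      zero_mem' := hP0
      add_mem' := fun {x y} hx hy => by
        have := H.add a b _ _ _ _ _ _ _ _ hx hy
        simpa using this
      smul_mem' := fun r x hx => by
        have := C.F3aux_smul H a b _ _ _ _ r hx
        simpa using this }
  have hVV : ∀ m₀ ∈ C.V a b, ∀ m₁ ∈ C.V a b, P a b 0 0 m₀ m₁ := by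
    intro m₀ h0 m₁ h1
    obtain ⟨w₀, w₁, h⟩ := H.mod2' a b m₀ m₁ (hE ▸ h0) (by rw [h6]; simpa using (hE ▸ h1))
    exact H.e2 a b _ _ _ _ h
  obtain ⟨θ, ψ, hS⟩ := F3aux_lin S (C.V a b) (by
    intro v hv
    obtain ⟨w₀, w₁, h⟩ := H.mod2' a b v 0 (hE ▸ hv) (by rw [h6]; simp)
    exact ⟨(w₀, w₁), h⟩)
  have hSP : ∀ v ∈ C.V a b, P a b v 0 (θ v) (ψ v) := hS
  have hVmul : ∀ r ∈ C.surf.R a b, ∀ v ∈ C.V a b, r • v ∈ C.V a b := by
    intro r hr v hv
    have h1 := (C.mem_R a b r).mp hr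
    have h2 : v * (r : F) ∈ C.N a * sm (C.OF b) * (sm (C.OC a) * sm (C.OF b)) := by
      apply Submodule.mul_mem_mul hv
      rw [← C.fa_B_eq]; exact h1
    have h3 : C.N a * sm (C.OC a) ≤ C.N a := by
      rw [Submodule.mul_le]
      intro m hm n hn
      obtain ⟨w, hw, rfl⟩ := mem_sc.mp hm
      exact mem_sc.mpr ⟨w * n, (C.OC a).mul_mem hw hn, by ring⟩
    have h4 : C.N a * sm (C.OF b) * (sm (C.OC a) * sm (C.OF b)) ≤ C.V a b := by
      calc C.N a * sm (C.OF b) * (sm (C.OC a) * sm (C.OF b))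
          = (C.N a * sm (C.OC a)) * (sm (C.OF b) * sm (C.OF b)) := by
            rw [mul_mul_mul_comm]
        _ ≤ C.N a * sm (C.OF b) := by
            refine fa_mul_le h3 ?_
            rw [Subalgebra.mul_toSubmodule, sup_idem]
    have h5 := h4 h2
    rw [mul_comm] at h5
    exact h5
  have hlin : ∀ r ∈ C.surf.R a b, ∀ v ∈ C.V a b,
      θ (r • v) - r • θ v ∈ C.V a b ∧ ψ (r • v) - r • ψ v ∈ C.V a b := by
    intro r hr v hv
    have h1 := hSP _ (hVmul r hr v hv)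
    have h2 := H.mul a b _ _ _ _ (r : F) r.2 ((C.mem_R a b r).mp hr) (hSP v hv)
    have h3 := C.F3aux_sub H a b _ _ _ _ _ _ _ _ h1 h2
    have e : (r • v) - (r : F) * v = 0 := sub_self _
    rw [e, mul_zero, sub_zero] at h3
    have h4 := H.flat a b _ _ h3
    rw [h6, hE] at h4
    refine ⟨h4.1, ?_⟩
    have h5 := h4.2
    simp only [LinearMap.zero_apply, sub_zero] at h5
    exact h5
  obtain ⟨u, u', hu⟩ := C.exists_op_of_lin a b θ (fun r hr v hv => (hlin r hr v hv).1)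
  obtain ⟨z, z', hz⟩ := C.exists_op_of_lin a b ψ (fun r hr v hv => (hlin r hr v hv).2)
  have hop : ∀ v ∈ C.V a b, P a b v 0 (C.op u u' v) (C.op z z' v) := by
    intro v hv
    have h1 := C.F3aux_sub H a b _ _ _ _ _ _ _ _ (hSP v hv) (hVV _ (hu v hv) _ (hz v hv))
    simpa using h1
  refine ⟨u, u', z, z', hop, ?_⟩
  intro v v₁ w₀ w₁ h
  have hm := H.mod2 a b _ _ _ _ h
  rw [h6, hE] at hm
  have hv : v ∈ C.V a b := hm.1
  have hv₁ : v₁ ∈ C.V a b := by simpa using hm.2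
  have h1 := C.F3aux_sub H a b _ _ _ _ _ _ _ _ h (hop v hv)
  have h2 := C.F3aux_sub H a b _ _ _ _ _ _ _ _ h1 (H.e1 a b _ _ _ _ (hop v₁ hv₁))
  have e1 : v - v - 0 = 0 := by ring
  have e2 : v₁ - 0 - v₁ = 0 := by ring
  rw [e1, e2] at h2
  have h3 := H.flat a b _ _ h2
  rw [h6, hE] at h3
  refine ⟨?_, ?_⟩
  · simpa using h3.1
  · simpa using h3.2

theorem F3aux_glue_t (a a' b : Bool) (u u' z z' : F)
    (hop : ∀ v v₁ w₀ w₁, P a' b v v₁ w₀ w₁ → w₀ - C.op u u' v ∈ C.V a' b ∧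
        w₁ - C.op z z' v - C.op u u' v₁ ∈ C.V a' b) (v v₁ w₀ w₁ : F) (h : P a b v v₁ w₀ w₁) :
    w₀ - C.op u u' v ∈ C.BT b ∧ w₁ - C.op z z' v - C.op u u' v₁ ∈ C.BT b := by
  obtain ⟨n, hn⟩ := H.glue_t a a' b v v₁ w₀ w₁ h
  obtain ⟨h1, h2⟩ := hop _ _ _ _ hn
  have hι : C.ι (coord C.t a' ^ n) = coord C.t a' ^ n := by rw [map_pow, C.fa_ι_coord_t]
  have hne := C.fa_coord_t_ne a'
  have hinv : ∀ w : F, (coord C.t a')⁻¹ ^ n * (coord C.t a' ^ n * w) = w := by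
    intro w
    rw [← mul_assoc, ← mul_pow, inv_mul_cancel₀ hne, one_pow, one_mul]
  constructor
  · have e1 : coord C.t a' ^ n * w₀ - C.op u u' (coord C.t a' ^ n * v) =
        coord C.t a' ^ n * (w₀ - C.op u u' v) := by
      rw [C.fa_op_mul _ _ _ _ hι]; ring
    rw [e1] at h1
    have h4 := mul_mem (C.fa_coord_t_BT a' b n) (C.V_le_BT a' b _ h1)
    rwa [hinv] at h4
  · have e1 : coord C.t a' ^ n * w₁ - C.op z z' (coord C.t a' ^ n * v) -
        C.op u u' (coord C.t a' ^ n * v₁) =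
        coord C.t a' ^ n * (w₁ - C.op z z' v - C.op u u' v₁) := by
      rw [C.fa_op_mul _ _ _ _ hι, C.fa_op_mul _ _ _ _ hι]; ring
    rw [e1] at h2
    have h4 := mul_mem (C.fa_coord_t_BT a' b n) (C.V_le_BT a' b _ h2)
    rwa [hinv] at h4

theorem F3aux_glue_x (a b b' : Bool) (u u' z z' : F)
    (hop : ∀ v v₁ w₀ w₁, P a b' v v₁ w₀ w₁ → w₀ - C.op u u' v ∈ C.V a b' ∧
        w₁ - C.op z z' v - C.op u u' v₁ ∈ C.V a b') (v v₁ w₀ w₁ : F) (h : P a b v v₁ w₀ w₁) :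
    w₀ - C.op u u' v ∈ C.VX a ∧ w₁ - C.op z z' v - C.op u u' v₁ ∈ C.VX a := by
  obtain ⟨n, hn⟩ := H.glue_x a b b' v v₁ w₀ w₁ h
  obtain ⟨h1, h2⟩ := hop _ _ _ _ hn
  have hι : C.ι (coord C.x b' ^ n) = coord C.x b' ^ n := by rw [map_pow, C.fa_ι_coord_x]
  have hne := C.fa_coord_x_ne b'
  have hinv : ∀ w : F, (coord C.x b')⁻¹ ^ n * (coord C.x b' ^ n * w) = w := by
    intro w
    rw [← mul_assoc, ← mul_pow, inv_mul_cancel₀ hne, one_pow, one_mul]
  constructor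
  · have e1 : coord C.x b' ^ n * w₀ - C.op u u' (coord C.x b' ^ n * v) =
        coord C.x b' ^ n * (w₀ - C.op u u' v) := by
      rw [C.fa_op_mul _ _ _ _ hι]; ring
    rw [e1] at h1
    have h4 := C.fa_VX_mul a _ _ (C.fa_coord_x_OFs b' n) (C.V_le_VX a b' h1)
    rwa [hinv] at h4
  · have e1 : coord C.x b' ^ n * w₁ - C.op z z' (coord C.x b' ^ n * v) -
        C.op u u' (coord C.x b' ^ n * v₁) =
        coord C.x b' ^ n * (w₁ - C.op z z' v - C.op u u' v₁) := by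
      rw [C.fa_op_mul _ _ _ _ hι, C.fa_op_mul _ _ _ _ hι]; ring
    rw [e1] at h2
    have h4 := C.fa_VX_mul a _ _ (C.fa_coord_x_OFs b' n) (C.V_le_VX a b' h2)
    rwa [hinv] at h4

/-- The obstruction. -/
theorem F3core : False := by
  obtain ⟨u10, u10', z10, z10', o10, k10⟩ := C.F3aux_op H true false rfl rfl
  obtain ⟨u01, u01', z01, z01', o01, k01⟩ := C.F3aux_op H false true rfl rfl
  obtain ⟨u11, u11', z11, z11', o11, k11⟩ := C.F3aux_op H true true rfl rfl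
  obtain ⟨b7, hb7, hb72, hc7⟩ := C.class_th7
  set h10c : F := -(i / 4) * C.G0 * C.Y * C.x⁻¹ with hh10c
  set h01c : F := -(1 / 4) * C.G0 * (1 - C.p + i * C.q) * C.x⁻¹ with hh01c
  have t10 : C.th 7 true false = C.op 0 h10c := rfl
  have t01 : C.th 7 false true = C.op 0 h01c := rfl
  -- (D) reduction modulo `ε₁`
  have D10 := (C.op_V true false (u10 + c) (u10' + c' - h10c)).mp (by
    intro v hv
    have h1 := H.mod1 true false _ _ _ _ (o10 v hv)
    rw [t10] at h1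
    have e : C.op (u10 + c) (u10' + c' - h10c) v = C.op u10 u10' v + C.op c c' v -
        C.op 0 h10c v := by simp only [op_apply]; ring
    rw [e]; exact h1)
  have D01 := (C.op_V false true (u01 + c) (u01' + c' - h01c)).mp (by
    intro v hv
    have h1 := H.mod1 false true _ _ _ _ (o01 v hv)
    rw [t01] at h1
    have e : C.op (u01 + c) (u01' + c' - h01c) v = C.op u01 u01' v + C.op c c' v -
        C.op 0 h01c v := by simp only [op_apply]; ring
    rw [e]; exact h1)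
  have hB10 : (sm (C.B true false) : Submodule ℂ F) ≤ sm (C.BT false) := by
    rw [C.fa_B_eq, C.fa_BT_eq]; exact fa_mul_le_l (C.OC_le_OCs true)
  have hB01 : (sm (C.B false true) : Submodule ℂ F) ≤ sm C.BX := by
    rw [C.fa_B_eq, C.fa_BX_eq]; exact fa_mul_le_r (C.OF_le_OFs true)
  have hN10 : (C.N2 true * sm (C.OF false) : Submodule ℂ F) ≤ sm (C.BT false) := by
    rw [C.fa_BT_eq]; exact fa_mul_le_l (C.N2_le true)
  have hN01 : (C.N2 false * sm (C.OF true) : Submodule ℂ F) ≤ sm C.BX := by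
    rw [C.fa_N2_false, C.fa_BX_eq]; exact fa_mul_le_r (C.OF_le_OFs true)
  have hu : u10 - u01 ∈ (sm (C.BT false) ⊔ sm C.BX : Submodule ℂ F) := by
    have h1 : u10 + c ∈ (sm (C.BT false) ⊔ sm C.BX : Submodule ℂ F) :=
      Submodule.mem_sup_left (hB10 D10.1)
    have h2 : u01 + c ∈ (sm (C.BT false) ⊔ sm C.BX : Submodule ℂ F) :=
      Submodule.mem_sup_right (hB01 D01.1)
    have h3 := sub_mem h1 h2
    have e : u10 - u01 = u10 + c - (u01 + c) := by ring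
    rw [e]; exact h3
  have hu' : u10' - u01' - b7 * (C.t⁻¹ * C.x⁻¹) ∈
      (sm (C.BT false) ⊔ sm C.BX : Submodule ℂ F) := by
    have h1 : u10' + c' - h10c ∈ (sm (C.BT false) ⊔ sm C.BX : Submodule ℂ F) :=
      Submodule.mem_sup_left (hN10 D10.2)
    have h2 : u01' + c' - h01c ∈ (sm (C.BT false) ⊔ sm C.BX : Submodule ℂ F) :=
      Submodule.mem_sup_right (hN01 D01.2)
    have h3 := sub_mem h1 h2
    have e : u10' - u01' - b7 * (C.t⁻¹ * C.x⁻¹) = u10' + c' - h10c - (u01' + c' - h01c) := by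
      linear_combination hc7
    rw [e]; exact h3
  -- differences on the overlaps
  have X1 := (C.op_VX true false (z10 - z11) (z10' - z11')).mp (by
    intro v hv
    have h1 := (C.F3aux_glue_x H true false true u11 u11' z11 z11' k11 _ _ _ _ (o10 v hv)).2
    have e : C.op (z10 - z11) (z10' - z11') v = C.op z10 z10' v - C.op z11 z11' v -
        C.op u11 u11' 0 := by simp only [op_apply, map_zero]; ring
    rw [e]; exact h1)
  have X2 := (C.op_BT false true (z01 - z11) (z01' - z11')).mp (by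
    intro v hv
    have h1 := (C.F3aux_glue_t H false true true u11 u11' z11 z11' k11 _ _ _ _ (o01 v hv)).2
    have e : C.op (z01 - z11) (z01' - z11') v = C.op z01 z01' v - C.op z11 z11' v -
        C.op u11 u11' 0 := by simp only [op_apply, map_zero]; ring
    rw [e]; exact h1)
  have hBS1 : (sm (C.OC true) * sm C.OFs : Submodule ℂ F) ≤ sm C.BS := by
    rw [C.fa_BS_eq]; exact fa_mul_le_l (C.OC_le_OCs true)
  have hBS2 : (C.N2 true * sm C.OFs : Submodule ℂ F) ≤ sm C.BS := by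
    rw [C.fa_BS_eq]; exact fa_mul_le_l (C.N2_le true)
  have hzS : z10 - z01 ∈ C.BS := by
    have h3 := sub_mem (hBS1 X1.1) (C.fa_BT_le_BS true X2.1)
    have e : z10 - z01 = z10 - z11 - (z01 - z11) := by ring
    rw [e]; exact h3
  have hzS' : z10' - z01' ∈ C.BS := by
    have h3 := sub_mem (hBS2 X1.2) (C.fa_BT_le_BS true X2.2)
    have e : z10' - z01' = z10' - z11' - (z01' - z11') := by ring
    rw [e]; exact h3
  -- the chart (0, 0)
  have m00 : ∀ v₁, C.th 6 false false v₁ = algebraMap ℂ F (C.ev y0' v₁) := by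
    intro v; simp [th, Algebra.smul_def]
  have G10 := fun v v₁ w₀ w₁ (h : P false false v v₁ w₀ w₁) =>
    C.F3aux_glue_t H false true false u10 u10' z10 z10' k10 v v₁ w₀ w₁ h
  have G01 : ∀ v v₁ w₀ w₁, P false false v v₁ w₀ w₁ → w₀ - C.op u01 u01' v ∈ C.BX ∧
      w₁ - C.op z01 z01' v - C.op u01 u01' v₁ ∈ C.BX := by
    intro v v₁ w₀ w₁ h
    have := C.F3aux_glue_x H false false true u01 u01' z01 z01' k01 v v₁ w₀ w₁ h
    rw [C.fa_VX_false] at this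
    exact this
  -- condition on pairs
  have pair : ∀ v ∈ C.E00, ∀ v₁ ∈ C.B false false, C.ev y0 v₁ = C.ev y0' v →
      C.op (z10 - z01) (z10' - z01') v + C.op (u10 - u01) (u10' - u01') v₁ ∈
        (sm (C.BT false) ⊔ sm C.BX : Submodule ℂ F) := by
    intro v hv v₁ hv₁ hvv
    obtain ⟨w₀, w₁, h⟩ := H.mod2' false false v v₁ hv (by
      rw [m00]
      show _ ∈ C.E00
      rw [C.fa_mem_E00]
      refine ⟨sub_mem hv₁ ((C.B false false).algebraMap_mem _), ?_⟩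
      rw [map_sub, Algebra.algebraMap_eq_smul_one, map_smul, C.fa_ev_one, hvv]
      simp)
    have h1 : w₁ - C.op z10 z10' v - C.op u10 u10' v₁ ∈
        (sm (C.BT false) ⊔ sm C.BX : Submodule ℂ F) := Submodule.mem_sup_left (G10 _ _ _ _ h).2
    have h2 : w₁ - C.op z01 z01' v - C.op u01 u01' v₁ ∈
        (sm (C.BT false) ⊔ sm C.BX : Submodule ℂ F) := Submodule.mem_sup_right (G01 _ _ _ _ h).2
    have h3 := sub_mem h2 h1
    have e : C.op (z10 - z01) (z10' - z01') v + C.op (u10 - u01) (u10' - u01') v₁ =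
        w₁ - C.op z01 z01' v - C.op u01 u01' v₁ - (w₁ - C.op z10 z10' v - C.op u10 u10' v₁) := by
      simp only [op_apply]; ring
    rw [e]; exact h3
  have hzero : ∀ w : F, C.op w w 0 = 0 := fun w => by simp
  obtain ⟨d, hd, d', hd', hz, hz'⟩ := C.fa_classes (z10 - z01) (z10' - z01') hzS hzS' (by
    intro w hw
    constructor
    · have hB : C.t * w ∈ C.B false false := mul_mem C.t_mem hw
      have h1 := pair (C.t * w) ((C.fa_mem_E00 _).mpr ⟨hB, by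
        rw [C.ev_mul _ _ _ C.t_mem hw, C.fa_ev_t, zero_mul]⟩) 0 (zero_mem _) (by
          rw [map_zero, C.ev_mul _ _ _ C.t_mem hw, C.fa_ev_t, zero_mul])
      simpa using h1
    · have hB : C.x * w ∈ C.B false false := mul_mem C.x_mem hw
      have h1 := pair (C.x * w) ((C.fa_mem_E00 _).mpr ⟨hB, by
        rw [C.ev_mul _ _ _ C.x_mem hw, C.fa_ev_x, zero_mul]⟩) 0 (zero_mem _) (by
          rw [map_zero, C.ev_mul _ _ _ C.x_mem hw, C.fa_ev_x, zero_mul])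
      simpa using h1)
  -- pointwise conditions
  have pts : ∀ v ∈ C.E00, ∀ v₁ ∈ C.B false false, C.ev y0 v₁ = C.ev y0' v →
      ∀ y : Bool × Bool × Bool, C.ev y d * C.ev y v + C.ev y d' * C.ev (!y.1, !y.2.1, !y.2.2) v +
        C.ev y b7 * C.ev (!y.1, !y.2.1, !y.2.2) v₁ = 0 := by
    intro v hv v₁ hv₁ hvv y
    have hvB := ((C.fa_mem_E00 v).mp hv).1
    have hιv := C.ι_B _ _ v hvB
    have hιv₁ := C.ι_B _ _ v₁ hv₁
    have h1 := pair v hv v₁ hv₁ hvv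
    have h2 := C.fa_sum_mul v _ hvB hz
    have h3 := C.fa_sum_mul (C.ι v) _ hιv hz'
    have h4 := C.fa_sum_mul v₁ _ hv₁ hu
    have h5 := C.fa_sum_mul (C.ι v₁) _ hιv₁ hu'
    have h6 := sub_mem h1 (add_mem (add_mem h2 h3) (add_mem h4 h5))
    have e : (d * v + d' * C.ι v + b7 * C.ι v₁) * (C.t⁻¹ * C.x⁻¹) =
        C.op (z10 - z01) (z10' - z01') v + C.op (u10 - u01) (u10' - u01') v₁ -
        (v * (z10 - z01 - d * (C.t⁻¹ * C.x⁻¹)) + C.ι v * (z10' - z01' - d' * (C.t⁻¹ * C.x⁻¹)) +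
          (v₁ * (u10 - u01) + C.ι v₁ * (u10' - u01' - b7 * (C.t⁻¹ * C.x⁻¹)))) := by
      simp only [op_apply]; ring
    rw [← e] at h6
    have h7 := C.ev_eq_zero _ (add_mem (add_mem (mul_mem hd hvB) (mul_mem hd' hιv))
      (mul_mem hb7 hιv₁)) h6 y
    rw [map_add, map_add, C.ev_mul _ _ _ hd hvB, C.ev_mul _ _ _ hd' hιv,
      C.ev_mul _ _ _ hb7 hιv₁, C.ev_ι _ _ hvB, C.ev_ι _ _ hv₁] at h7
    exact h7
  obtain ⟨e, he, he1, he2⟩ := C.fa_exists_e y0
  obtain ⟨f, hf, hf1, hf2⟩ := C.fa_exists_e y0'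
  have hne : y0' ≠ y0 := by decide
  have hfE : f ∈ C.E00 := (C.fa_mem_E00 _).mpr ⟨hf, hf2 _ hne.symm⟩
  -- `b₇(y₀) = 0`
  have hb70 : C.ev y0 b7 = 0 := by
    have h1 := pts 0 (zero_mem _) f hf (by rw [hf2 _ hne.symm, map_zero]) y0
    have h2 : ((!y0.1, !y0.2.1, !y0.2.2) : Bool × Bool × Bool) = y0' := rfl
    rw [h2, hf1] at h1
    simpa using h1
  -- `d(ι y₀) = -2`
  have hd1 : C.ev y0' d = -2 := by
    have h1 := pts f hfE e he (by rw [he1, hf1]) y0'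
    have h2 : ((!y0'.1, !y0'.2.1, !y0'.2.2) : Bool × Bool × Bool) = y0 := rfl
    rw [h2, hf1, hf2 _ hne.symm, he1, hb72] at h1
    linear_combination h1
  have hd'0 : C.ev y0 d' = 0 := by
    have h1 := pts f hfE e he (by rw [he1, hf1]) y0
    have h2 : ((!y0.1, !y0.2.1, !y0.2.2) : Bool × Bool × Bool) = y0' := rfl
    rw [h2, hf1, hf2 _ hne.symm, hb70] at h1
    linear_combination h1
  have hdo : ∀ y, y ≠ y0 → y ≠ y0' → C.ev y d = 0 := by
    intro y hy hy'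
    obtain ⟨v, hv, h1, h2⟩ := C.fa_exists_e y
    have h3 := pts v ((C.fa_mem_E00 v).mpr ⟨hv, h2 _ hy.symm⟩) 0 (zero_mem _)
      (by rw [map_zero, h2 _ hy'.symm]) y
    have hyne : ((!y.1, !y.2.1, !y.2.2) : Bool × Bool × Bool) ≠ y := by
      intro h
      have := congrArg Prod.fst h
      simp at this
    rw [h1, h2 _ hyne, map_zero] at h3
    linear_combination h3
  -- the residue
  have hd0 : C.ev y0 d = -2 := by
    obtain ⟨Λ, l1, l2, l3, l4, l5⟩ := C.exists_Lam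
    have q1 : Λ (z10 - z01) = 0 := by
      have e1 : z10 - z01 = z10 - z11 - (z01 - z11) := by ring
      rw [e1, map_sub, l3 _ X1.1, l4 _ (by rw [← C.fa_BT_eq]; exact X2.1), sub_zero]
    have q2 : Λ (z10 - z01 - d * (C.t⁻¹ * C.x⁻¹)) = 0 := by
      obtain ⟨α, hα, β, hβ, hαβ⟩ := Submodule.mem_sup.mp hz
      rw [← hαβ, map_add, l1 α hα, l2 β hβ, add_zero]
    rw [map_sub, q1, l5 d hd, zero_sub, neg_eq_zero] at q2
    simp only [Fintype.sum_prod_type, Fintype.sum_bool] at q2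
    rw [hdo (true, true, false) (by decide) (by decide),
      hdo (true, false, true) (by decide) (by decide),
      hdo (true, false, false) (by decide) (by decide),
      hdo (false, true, true) (by decide) (by decide),
      hdo (false, true, false) (by decide) (by decide),
      hdo (false, false, true) (by decide) (by decide)] at q2
    have h3 : C.ev (false, false, false) d = -2 := hd1
    rw [h3] at q2
    simp only [sg] at q2
    have h4 : C.ev y0 d = C.ev (true, true, true) d := rfl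
    rw [h4]
    simp at q2
    linear_combination q2
  -- Koszul
  obtain ⟨α, hα, β, hβ, hαβ⟩ := Submodule.mem_sup.mp hu
  obtain ⟨α', hα', β', hβ', hαβ'⟩ := Submodule.mem_sup.mp hu'
  obtain ⟨γ, hγ, δ, hδ, hγδ⟩ := Submodule.mem_sup.mp hz
  obtain ⟨γ', hγ', δ', hδ', hγδ'⟩ := Submodule.mem_sup.mp hz'
  have hteB : C.t * e ∈ C.B false false := mul_mem C.t_mem he
  have hxeB : C.x * e ∈ C.B false false := mul_mem C.x_mem he
  have hte : C.t * e ∈ C.E00 := (C.fa_mem_E00 _).mpr ⟨hteB, by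
    rw [C.ev_mul _ _ _ C.t_mem he, C.fa_ev_t, zero_mul]⟩
  have hxe : C.x * e ∈ C.E00 := (C.fa_mem_E00 _).mpr ⟨hxeB, by
    rw [C.ev_mul _ _ _ C.x_mem he, C.fa_ev_x, zero_mul]⟩
  obtain ⟨a₀, a₁, ha⟩ := H.mod2' false false (C.t * e) 0 hte (by
    rw [m00, C.ev_mul _ _ _ C.t_mem he, C.fa_ev_t, zero_mul, map_zero, sub_zero]
    exact zero_mem _)
  obtain ⟨c₀, c₁, hcc⟩ := H.mod2' false false (C.x * e) 0 hxe (by
    rw [m00, C.ev_mul _ _ _ C.x_mem he, C.fa_ev_x, zero_mul, map_zero, sub_zero]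
    exact zero_mem _)
  have hfin : C.x * a₀ - C.t * c₀ ∈ C.E false false ∧
      (C.x * a₁ - C.t * c₁) - C.th 6 false false (C.x * a₀ - C.t * c₀) ∈ C.E false false := by
    have h1 := H.mul false false _ _ _ _ C.x C.ι_x C.x_mem ha
    have h2 := H.mul false false _ _ _ _ C.t C.ι_t C.t_mem hcc
    have h3 := C.F3aux_sub H false false _ _ _ _ _ _ _ _ h1 h2
    have e1 : C.x * (C.t * e) - C.t * (C.x * e) = 0 := by ring
    rw [e1, mul_zero, mul_zero, sub_zero] at h3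
    exact H.flat false false _ _ h3
  -- corrections
  have cBT : ∀ (p p' q q' v w : F), p ∈ C.BT false → p' ∈ C.BT false → v ∈ C.B false false →
      w - C.op q q' v ∈ C.BT false → w - C.op (q - p) (q' - p') v ∈ C.BT false := by
    intro p p' q q' v w hp hp' hv hw
    have h2 : p * v + p' * C.ι v ∈ C.BT false :=
      add_mem (mul_mem hp (C.fa_B_le_BT false hv))
        (mul_mem hp' (C.fa_B_le_BT false (C.ι_B _ _ v hv)))
    have := add_mem hw h2
    have e1 : w - C.op (q - p) (q' - p') v = w - C.op q q' v + (p * v + p' * C.ι v) := by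
      simp only [op_apply]; ring
    rw [e1]; exact this
  have cBX : ∀ (p p' q q' v w : F), p ∈ C.BX → p' ∈ C.BX → v ∈ C.B false false →
      w - C.op q q' v ∈ C.BX → w - C.op (q + p) (q' + p') v ∈ C.BX := by
    intro p p' q q' v w hp hp' hv hw
    have h2 : p * v + p' * C.ι v ∈ C.BX :=
      add_mem (mul_mem hp (C.fa_B_le_BX hv))
        (mul_mem hp' (C.fa_B_le_BX (C.ι_B _ _ v hv)))
    have := sub_mem hw h2
    have e1 : w - C.op (q + p) (q' + p') v = w - C.op q q' v - (p * v + p' * C.ι v) := by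
      simp only [op_apply]; ring
    rw [e1]; exact this
  have z0 : ∀ w w' : F, C.op w w' 0 = 0 := fun w w' => by simp
  have A1 := G10 _ _ _ _ ha
  have A2' := G01 _ _ _ _ ha
  have A3 := G10 _ _ _ _ hcc
  have A4 := G01 _ _ _ _ hcc
  rw [z0, sub_zero] at A1 A2' A3 A4
  obtain ⟨hH0, K0⟩ := C.fa_koszul (u10 - α) (u10' - α') (u01 + β) (u01' + β') 0 b7 e a₀ c₀
    (zero_mem _) hb7 he (by linear_combination -hαβ) (by linear_combination -hαβ')
    (cBT _ _ _ _ _ _ hα hα' hteB A1.1) (cBX _ _ _ _ _ _ hβ hβ' hteB A2'.1)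
    (cBT _ _ _ _ _ _ hα hα' hxeB A3.1) (cBX _ _ _ _ _ _ hβ hβ' hxeB A4.1)
  obtain ⟨hH1, K1⟩ := C.fa_koszul (z10 - γ) (z10' - γ') (z01 + δ) (z01' + δ') d d' e a₁ c₁
    hd hd' he (by linear_combination -hγδ) (by linear_combination -hγδ')
    (cBT _ _ _ _ _ _ hγ hγ' hteB A1.2) (cBX _ _ _ _ _ _ hδ hδ' hteB A2'.2)
    (cBT _ _ _ _ _ _ hγ hγ' hxeB A3.2) (cBX _ _ _ _ _ _ hδ hδ' hxeB A4.2)
  have r0 : C.ev y0' (C.x * a₀ - C.t * c₀) = 2 := by
    rw [K0]
    have h2 : ((!y0'.1, !y0'.2.1, !y0'.2.2) : Bool × Bool × Bool) = y0 := rfl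
    rw [h2, he1, hb72, map_zero]; ring
  have r1 : C.ev y0 (C.x * a₁ - C.t * c₁) = -2 := by
    rw [K1, he1, hd0, hd'0]; ring
  have r2 := ((C.fa_mem_E00 _).mp hfin.2).2
  rw [m00, map_sub, r1, r0, Algebra.algebraMap_eq_smul_one, map_smul, C.fa_ev_one] at r2
  norm_num at r2

end Cfg

end

end Pool.Agent.EllMod
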