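import Pool.Agent.MP_77976d_ag.Base3
import Pool.Agent.MP_77976d_ag.Op
import Pool.Agent.MP_77976d_ag.Ldc

/-! # Auxiliary facts for the modules F1, F2, F3 -/

open scoped TensorProduct
open IsLocalRing

namespace Pool.Agent.EllMod

noncomputable section

variable {F : Type} [Field F] [Algebra ℂ F] (C : Cfg F)

namespace Cfg

theorem fa_B_eq (a b : Bool) : (sm (C.B a b) : Submodule ℂ F) = sm (C.OC a) * sm (C.OF b) :=
  (Subalgebra.mul_toSubmodule _ _).symm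

theorem fa_BT_eq (b : Bool) : (sm (C.BT b) : Submodule ℂ F) = sm C.OCs * sm (C.OF b) :=
  (Subalgebra.mul_toSubmodule _ _).symm

theorem fa_BX_eq : (sm C.BX : Submodule ℂ F) = sm (C.OC false) * sm C.OFs :=
  (Subalgebra.mul_toSubmodule _ _).symm

theorem fa_BS_eq : (sm C.BS : Submodule ℂ F) = sm C.OCs * sm C.OFs :=
  (Subalgebra.mul_toSubmodule _ _).symm

theorem fa_N2_false : C.N2 false = sm (C.OC false) := by
  ext v; simp [N2, mem_sc]

theorem fa_N_false : C.N false = sm (C.OC false) := by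
  ext v; simp [N, mem_sc]

theorem fa_B_le_BT (b : Bool) : C.B false b ≤ C.BT b :=
  sup_le ((C.OC_le_OCs false).trans le_sup_left) le_sup_right

theorem fa_B_le_BX : C.B false false ≤ C.BX :=
  sup_le le_sup_left ((C.OF_le_OFs false).trans le_sup_right)

theorem fa_BX_le_BS : C.BX ≤ C.BS :=
  sup_le ((C.OC_le_OCs false).trans le_sup_left) le_sup_right

theorem fa_BT_le_BS (b : Bool) : C.BT b ≤ C.BS :=
  sup_le le_sup_left ((C.OF_le_OFs b).trans le_sup_right)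

theorem fa_t_mem : C.t ∈ C.B false false := C.t_mem
theorem fa_x_mem : C.x ∈ C.B false false := C.x_mem

theorem fa_ev_t (y : Bool × Bool × Bool) : C.ev y C.t = 0 := by
  rw [C.ev_eq y C.t C.t_mem, C.lift_t]; rfl

theorem fa_ev_x (y : Bool × Bool × Bool) : C.ev y C.x = 0 := by
  rw [C.ev_eq y C.x C.x_mem, C.lift_x]; rfl

theorem fa_ev_one (y : Bool × Bool × Bool) : C.ev y 1 = 1 := by
  rw [C.ev_eq y 1 (one_mem _)]
  exact map_one (C.lift (pt y))

theorem fa_der_one (α β : ℂ) : C.der α β 1 = 0 := by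
  rw [C.der_eq α β 1 (one_mem _)]
  have : C.lift (ptE α β) ⟨1, one_mem _⟩ = 1 := map_one (C.lift (ptE α β))
  rw [this]; simp

theorem fa_der_t (α β : ℂ) : C.der α β C.t = α := by
  rw [C.der_eq α β C.t C.t_mem, C.lift_t]; rfl

theorem fa_der_x (α β : ℂ) : C.der α β C.x = β := by
  rw [C.der_eq α β C.x C.x_mem, C.lift_x]; rfl

theorem fa_t_ne : C.t ≠ 0 := by
  have h := C.indep.ne_zero 0
  simpa using h

theorem fa_x_ne : C.x ≠ 0 := by
  have h := C.indep.ne_zero 1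
  simpa using h

theorem fa_tinv_mem : C.t⁻¹ ∈ C.OCs := Algebra.subset_adjoin (by simp)
theorem fa_xinv_mem : C.x⁻¹ ∈ C.OFs := Algebra.subset_adjoin (by simp)
theorem fa_tinv_BT (b : Bool) : C.t⁻¹ ∈ C.BT b := (le_sup_left : C.OCs ≤ _) C.fa_tinv_mem
theorem fa_xinv_BX : C.x⁻¹ ∈ C.BX := (le_sup_right : C.OFs ≤ _) C.fa_xinv_mem

/-- The sum `BT + BX` is stable under `B₀₀`. -/
theorem fa_sum_mul (b v : F) (hb : b ∈ C.B false false)
    (hv : v ∈ (sm (C.BT false) ⊔ sm C.BX : Submodule ℂ F)) :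
    b * v ∈ (sm (C.BT false) ⊔ sm C.BX : Submodule ℂ F) := by
  rw [Submodule.mem_sup] at hv ⊢
  obtain ⟨α, hα, β, hβ, rfl⟩ := hv
  exact ⟨b * α, (C.BT false).mul_mem (C.fa_B_le_BT false hb) hα, b * β,
    C.BX.mul_mem (C.fa_B_le_BX hb) hβ, by ring⟩

theorem fa_mem_E00 (v : F) : v ∈ C.E00 ↔ v ∈ C.B false false ∧ C.ev y0 v = 0 := by
  simp [E00]

/-- The function `e` with `e(y₀) = 1` vanishing at the seven other points. -/
theorem fa_exists_e (y : Bool × Bool × Bool) :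
    ∃ e ∈ C.B false false, C.ev y e = 1 ∧ ∀ z, z ≠ y → C.ev z e = 0 := by
  obtain ⟨v, hv, h⟩ := C.ev_surj (fun z => if z = y then 1 else 0)
  exact ⟨v, hv, by rw [h]; simp, fun z hz => by rw [h]; simp [hz]⟩

theorem fa_j_mem : C.j false ∈ C.B false false := (le_sup_right : C.OF false ≤ _) (C.j_mem false)
theorem fa_jinv_mem : (C.j false)⁻¹ ∈ C.B false false :=
  (le_sup_right : C.OF false ≤ _) (C.j_inv_mem false)

theorem fa_inf_eq_bot_smul {P0 P1 Q0 Q1 : Submodule ℂ F} (hP0 : ∀ y ∈ P0, y ∈ C.KC)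
    (hP1 : ∀ y ∈ P1, y ∈ C.KC) (hQ0 : ∀ y ∈ Q0, y ∈ C.KF) (hQ1 : ∀ y ∈ Q1, y ∈ C.KF)
    {v : F} (h0 : v ∈ P0 * Q0) (h1 : v ∈ P1 * Q1) (h : P0 ⊓ P1 = ⊥ ∨ Q0 ⊓ Q1 = ⊥) : v = 0 := by
  have h2 : v ∈ (P0 * Q0) ⊓ (P1 * Q1) := ⟨h0, h1⟩
  rw [C.inf_mul P0 P1 Q0 Q1 hP0 hP1 hQ0 hQ1] at h2
  rcases h with h | h
  · rw [h, Submodule.bot_mul, Submodule.mem_bot] at h2; exact h2
  · rw [h, Submodule.mul_bot, Submodule.mem_bot] at h2; exact h2

theorem fa_mul_le {P P' Q Q' : Submodule ℂ F} (h : P ≤ P') (h' : Q ≤ Q') : P * Q ≤ P' * Q' :=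
  mul_le_mul' h h'

theorem fa_mul_le_l {P P' Q : Submodule ℂ F} (h : P ≤ P') : P * Q ≤ P' * Q :=
  mul_le_mul' h le_rfl

theorem fa_mul_le_r {P Q Q' : Submodule ℂ F} (h : Q ≤ Q') : P * Q ≤ P * Q' :=
  mul_le_mul' le_rfl h

theorem fa_four_ne : (4 : F) ≠ 0 := by
  have : (4 : F) = algebraMap ℂ F 4 := (map_ofNat (algebraMap ℂ F) 4).symm
  rw [this]
  exact (map_ne_zero _).mpr (by norm_num)

theorem fa_span_inf {v : F} {P : Submodule ℂ F} (h : v ∉ P) :
    Submodule.span ℂ {v} ⊓ P = ⊥ := by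
  rw [Submodule.eq_bot_iff]
  rintro w ⟨h1, h2⟩
  obtain ⟨c, rfl⟩ := Submodule.mem_span_singleton.mp h1
  by_cases hc : c = 0
  · simp [hc]
  · exfalso
    apply h
    have := P.smul_mem c⁻¹ h2
    rwa [smul_smul, inv_mul_cancel₀ hc, one_smul] at this

theorem fa_mem_left {w : F} {P Q : Submodule ℂ F} (hw : w ∈ C.KC) (hP : ∀ y ∈ P, y ∈ C.KC)
    (hQ : ∀ y ∈ Q, y ∈ C.KF) (h1 : (1 : F) ∈ Q) (h : w ∈ P * Q) : w ∈ P := by
  by_contra hn
  have h2 : w ∈ Submodule.span ℂ {w} * Q := by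
    have := Submodule.mul_mem_mul (Submodule.mem_span_singleton_self (R := ℂ) w) h1
    rwa [mul_one] at this
  have h3 : w = 0 := C.fa_inf_eq_bot_smul (P0 := Submodule.span ℂ {w}) (by
    intro y hy
    obtain ⟨c, rfl⟩ := Submodule.mem_span_singleton.mp hy
    rw [Algebra.smul_def]
    exact mul_mem (C.KC.algebraMap_mem c) hw) hP hQ hQ h2 h (Or.inl (fa_span_inf hn))
  exact hn (h3 ▸ P.zero_mem)

theorem fa_mem_right {w : F} {P Q : Submodule ℂ F} (hw : w ∈ C.KF) (hP : ∀ y ∈ P, y ∈ C.KC)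
    (hQ : ∀ y ∈ Q, y ∈ C.KF) {p : F} (hp : p ∈ P) (hp0 : p ≠ 0) (h : p * w ∈ P * Q) : w ∈ Q := by
  by_contra hn
  have h2 : p * w ∈ P * Submodule.span ℂ {w} :=
    Submodule.mul_mem_mul hp (Submodule.mem_span_singleton_self (R := ℂ) w)
  have h3 : p * w = 0 := C.fa_inf_eq_bot_smul (Q0 := Submodule.span ℂ {w}) hP hP (by
    intro y hy
    obtain ⟨c, rfl⟩ := Submodule.mem_span_singleton.mp hy
    rw [Algebra.smul_def]
    exact mul_mem (C.KF.algebraMap_mem c) hw) hQ h2 h (Or.inr (fa_span_inf hn))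
  have h4 : w = 0 := (mul_eq_zero.mp h3).resolve_left hp0
  exact hn (h4 ▸ Q.zero_mem)

theorem fa_G0_ne : C.G0 ≠ 0 := by
  intro h
  obtain ⟨b', hb', h1, h2⟩ := C.class_th7
  rw [h] at h2
  have h3 : b' * (C.t⁻¹ * C.x⁻¹) = 0 := by rw [← h2]; ring
  have h4 : b' = 0 := by
    rcases mul_eq_zero.mp h3 with h5 | h5
    · exact h5
    · exfalso
      exact mul_ne_zero (inv_ne_zero C.fa_t_ne) (inv_ne_zero C.fa_x_ne) h5
  rw [h4, map_zero] at h1
  norm_num at h1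

theorem fa_Y_ne : C.Y ≠ 0 := by
  intro h
  apply C.OF_indep
  rw [h, zero_mul]
  exact zero_mem _

theorem fa_i_ne : (i : F) ≠ 0 := by
  intro h
  have : Complex.I = 0 := (map_eq_zero (algebraMap ℂ F)).mp h
  exact Complex.I_ne_zero this

theorem fa_s_KC : C.s ∈ C.KC := IntermediateField.subset_adjoin _ _ (by simp)
theorem fa_t_KC : C.t ∈ C.KC := IntermediateField.subset_adjoin _ _ (by simp)
theorem fa_x_KF : C.x ∈ C.KF := IntermediateField.subset_adjoin _ _ (by simp)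
theorem fa_p_KF : C.p ∈ C.KF := IntermediateField.subset_adjoin _ _ (by simp)
theorem fa_q_KF : C.q ∈ C.KF := IntermediateField.subset_adjoin _ _ (by simp)
theorem fa_Y_KF : C.Y ∈ C.KF := mul_mem C.fa_p_KF C.fa_q_KF
theorem fa_Yx_KF : C.Y * C.x⁻¹ ∈ C.KF := mul_mem C.fa_Y_KF (inv_mem C.fa_x_KF)

theorem fa_N_KC (a : Bool) : ∀ y ∈ C.N a, y ∈ C.KC := fun y hy => C.OCs_le y (C.N_le a hy)
theorem fa_N2_KC (a : Bool) : ∀ y ∈ C.N2 a, y ∈ C.KC := fun y hy => C.OCs_le y (C.N2_le a hy)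

theorem fa_coord_t (a : Bool) : ((coord C.surf.t a : ↥C.K) : F) = coord C.t a := by
  cases a
  · rfl
  · exact IntermediateField.coe_inv C.K C.tK

theorem fa_coord_x (b : Bool) : ((coord C.surf.x b : ↥C.K) : F) = coord C.x b := by
  cases b
  · rfl
  · exact IntermediateField.coe_inv C.K C.xK

theorem fa_ι_coord_t (a : Bool) : C.ι (coord C.t a) = coord C.t a := by
  cases a <;> simp [coord]

theorem fa_ι_coord_x (a : Bool) : C.ι (coord C.x a) = coord C.x a := by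
  cases a <;> simp [coord]

theorem fa_coord_t_BT (a b : Bool) (n : ℕ) : (coord C.t a)⁻¹ ^ n ∈ C.BT b := by
  apply pow_mem
  cases a
  · exact C.fa_tinv_BT b
  · simp only [coord, inv_inv]
    exact (le_sup_left : C.OCs ≤ _) (Algebra.subset_adjoin (by simp))

theorem fa_coord_x_OFs (b : Bool) (n : ℕ) : (coord C.x b)⁻¹ ^ n ∈ C.OFs := by
  apply pow_mem
  cases b
  · exact C.fa_xinv_mem
  · simp only [coord, inv_inv]
    exact Algebra.subset_adjoin (by simp)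

theorem fa_coord_t_ne (a : Bool) : coord C.t a ≠ 0 := by
  cases a
  · exact C.fa_t_ne
  · exact inv_ne_zero C.fa_t_ne

theorem fa_coord_x_ne (a : Bool) : coord C.x a ≠ 0 := by
  cases a
  · exact C.fa_x_ne
  · exact inv_ne_zero C.fa_x_ne

theorem fa_VX_mul (a : Bool) (r v : F) (hr : r ∈ C.OFs) (hv : v ∈ C.VX a) : r * v ∈ C.VX a := by
  unfold VX at hv ⊢
  have h1 : v * r ∈ C.N a * sm C.OFs * sm C.OFs := Submodule.mul_mem_mul hv hr
  rw [mul_assoc, Subalgebra.mul_toSubmodule, sup_idem] at h1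
  rw [mul_comm r v]
  exact h1

theorem fa_VX_false : C.VX false = sm C.BX := by
  unfold VX; rw [C.fa_N_false, C.fa_BX_eq]

theorem fa_E_le_BT (a b : Bool) : ∀ v ∈ C.E a b, v ∈ C.BT b := by
  intro v hv
  cases a <;> cases b
  · exact C.fa_B_le_BT false ((C.fa_mem_E00 v).mp hv).1
  · exact C.V_le_BT false true v hv
  · exact C.V_le_BT true false v hv
  · exact C.V_le_BT true true v hv

theorem fa_E_le_VX (a b : Bool) : ∀ v ∈ C.E a b, v ∈ C.VX a := by
  intro v hv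
  cases a <;> cases b
  · rw [C.fa_VX_false]; exact C.fa_B_le_BX ((C.fa_mem_E00 v).mp hv).1
  · exact C.V_le_VX false true hv
  · exact C.V_le_VX true false hv
  · exact C.V_le_VX true true hv

theorem fa_op_mul (u u' r v : F) (hr : C.ι r = r) : C.op u u' (r * v) = r * C.op u u' v := by
  simp [hr]; ring

/-- Extraction of the values at the eight points. -/
theorem fa_points (b b' : F) (hb : b ∈ C.B false false) (hb' : b' ∈ C.B false false)
    (h : ∀ v ∈ C.E00, (b * v + b' * C.ι v) * (C.t⁻¹ * C.x⁻¹) ∈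
      (sm (C.BT false) ⊔ sm C.BX : Submodule ℂ F)) :
    (∀ y, y ≠ y0 → C.ev y b = 0) ∧ (∀ y, y ≠ y0' → C.ev y b' = 0) := by
  have key : ∀ v ∈ C.E00, ∀ y : Bool × Bool × Bool,
      C.ev y b * C.ev y v + C.ev y b' * C.ev (!y.1, !y.2.1, !y.2.2) v = 0 := by
    intro v hv y
    have hvB := ((C.fa_mem_E00 v).mp hv).1
    have hι : C.ι v ∈ C.B false false := C.ι_B false false v hvB
    have := C.ev_eq_zero (b * v + b' * C.ι v)
      (add_mem (mul_mem hb hvB) (mul_mem hb' hι)) (h v hv) y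
    rw [map_add, C.ev_mul _ _ _ hb hvB, C.ev_mul _ _ _ hb' hι, C.ev_ι _ _ hvB] at this
    exact this
  constructor
  · intro y hy
    obtain ⟨v, hv, h1, h2⟩ := C.fa_exists_e y
    have h3 := key v ((C.fa_mem_E00 v).mpr ⟨hv, h2 _ hy.symm⟩) y
    have hne : ((!y.1, !y.2.1, !y.2.2) : Bool × Bool × Bool) ≠ y := by
      intro h
      have := congrArg Prod.fst h
      simp at this
    rw [h1, h2 _ hne] at h3
    simpa using h3
  · intro y hy
    have hy' : ((!y.1, !y.2.1, !y.2.2) : Bool × Bool × Bool) ≠ y0 := by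
      intro h
      apply hy
      obtain ⟨y1, y2, y3⟩ := y
      cases y1 <;> cases y2 <;> cases y3 <;> simp_all
    obtain ⟨v, hv, h1, h2⟩ := C.fa_exists_e (!y.1, !y.2.1, !y.2.2)
    have h3 := key v ((C.fa_mem_E00 v).mpr ⟨hv, h2 _ hy'.symm⟩) y
    have hne : y ≠ ((!y.1, !y.2.1, !y.2.2) : Bool × Bool × Bool) := by
      intro h
      have := congrArg Prod.fst h
      simp at this
    rw [h1, h2 _ hne] at h3
    simpa using h3

/-- The Koszul argument. -/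
theorem fa_koszul (p p' q q' b b' e wt wx : F) (hb : b ∈ C.B false false)
    (hb' : b' ∈ C.B false false) (he : e ∈ C.B false false)
    (h : p - q = b * (C.t⁻¹ * C.x⁻¹)) (h' : p' - q' = b' * (C.t⁻¹ * C.x⁻¹))
    (h1 : wt - C.op p p' (C.t * e) ∈ C.BT false) (h2 : wt - C.op q q' (C.t * e) ∈ C.BX)
    (h3 : wx - C.op p p' (C.x * e) ∈ C.BT false) (h4 : wx - C.op q q' (C.x * e) ∈ C.BX) :
    C.x * wt - C.t * wx ∈ C.B false false ∧ ∀ y : Bool × Bool × Bool,
      C.ev y (C.x * wt - C.t * wx) =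
        C.ev y b * C.ev y e + C.ev y b' * C.ev (!y.1, !y.2.1, !y.2.2) e := by
  have ht := C.fa_t_ne
  have hx := C.fa_x_ne
  have hιe : C.ι e ∈ C.B false false := C.ι_B false false e he
  have hbe : b * e + b' * C.ι e ∈ C.B false false := add_mem (mul_mem hb he) (mul_mem hb' hιe)
  have hp : p = q + b * (C.t⁻¹ * C.x⁻¹) := by rw [← h]; ring
  have hp' : p' = q' + b' * (C.t⁻¹ * C.x⁻¹) := by rw [← h']; ring
  have hA : wt - C.op p p' (C.t * e) ∈ C.B false false := by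
    rw [← C.BT_inf_BX]
    refine ⟨h1, ?_⟩
    have e1 : wt - C.op p p' (C.t * e) =
        (wt - C.op q q' (C.t * e)) - (b * e + b' * C.ι e) * C.x⁻¹ := by
      rw [hp, hp']; simp; field_simp; ring
    rw [e1]
    exact sub_mem h2 (mul_mem (C.fa_B_le_BX hbe) C.fa_xinv_BX)
  have hD : wx - C.op q q' (C.x * e) ∈ C.B false false := by
    rw [← C.BT_inf_BX]
    refine ⟨?_, h4⟩
    have e1 : wx - C.op q q' (C.x * e) =
        (wx - C.op p p' (C.x * e)) + (b * e + b' * C.ι e) * C.t⁻¹ := by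
      rw [hp, hp']; simp; field_simp; ring
    rw [e1]
    exact add_mem h3 (mul_mem (C.fa_B_le_BT false hbe) (C.fa_tinv_BT false))
  have e2 : C.x * wt - C.t * wx = C.x * (wt - C.op p p' (C.t * e)) -
      C.t * (wx - C.op q q' (C.x * e)) + (b * e + b' * C.ι e) := by
    rw [hp, hp']; simp; field_simp; ring
  refine ⟨?_, fun y => ?_⟩
  · rw [e2]
    exact add_mem (sub_mem (mul_mem C.x_mem hA) (mul_mem C.t_mem hD)) hbe
  · rw [e2, map_add, map_sub, C.ev_mul _ _ _ C.x_mem hA, C.ev_mul _ _ _ C.t_mem hD, C.fa_ev_x,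
      C.fa_ev_t, map_add, C.ev_mul _ _ _ hb he, C.ev_mul _ _ _ hb' hιe, C.ev_ι _ _ he]
    ring

/-- From the operator condition on `t B₀₀`, `x B₀₀` to the classes. -/
theorem fa_classes (u u' : F) (hu : u ∈ C.BS) (hu' : u' ∈ C.BS)
    (h : ∀ w ∈ C.B false false, C.op u u' (C.t * w) ∈ (sm (C.BT false) ⊔ sm C.BX : Submodule ℂ F) ∧
      C.op u u' (C.x * w) ∈ (sm (C.BT false) ⊔ sm C.BX : Submodule ℂ F)) :
    ∃ b ∈ C.B false false, ∃ b' ∈ C.B false false,
      u - b * (C.t⁻¹ * C.x⁻¹) ∈ (sm (C.BT false) ⊔ sm C.BX : Submodule ℂ F) ∧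
      u' - b' * (C.t⁻¹ * C.x⁻¹) ∈ (sm (C.BT false) ⊔ sm C.BX : Submodule ℂ F) := by
  have hj0 : C.j false ≠ 0 := by
    intro h0
    have h1 := C.ι_j false
    obtain ⟨e, he, he1, he2⟩ := C.fa_exists_e y0
    have hj := C.fa_j_mem
    have hji := C.fa_jinv_mem
    -- `ev y0 j = 1 + i`
    have h2 : C.ev y0 (C.j false) = 1 + Complex.I := by
      have e1 : C.j false = C.p + C.q := by simp [j, P, Q]
      rw [e1, map_add, C.ev_eq _ _ C.p_mem, C.ev_eq _ _ C.q_mem, C.lift_p, C.lift_q]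
      simp [pt, sg]
    rw [h0, map_zero] at h2
    have := congrArg Complex.re h2
    simp at this
  have two : (2 : F) ≠ 0 := by
    have : (2 : F) = algebraMap ℂ F 2 := (map_ofNat (algebraMap ℂ F) 2).symm
    rw [this]; exact (map_ne_zero _).mpr (by norm_num)
  have key : ∀ r : F, C.ι r = r → (C.op u u' (r * 1) ∈ (sm (C.BT false) ⊔ sm C.BX : Submodule ℂ F)) →
      (C.op u u' (r * C.j false) ∈ (sm (C.BT false) ⊔ sm C.BX : Submodule ℂ F)) →
      r * u ∈ (sm (C.BT false) ⊔ sm C.BX : Submodule ℂ F) ∧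
      r * u' ∈ (sm (C.BT false) ⊔ sm C.BX : Submodule ℂ F) := by
    intro r hr h1 h2
    have h3 := C.fa_sum_mul (C.j false)⁻¹ _ C.fa_jinv_mem h2
    have e1 : C.op u u' (r * 1) = r * u + r * u' := by simp [hr]; ring
    have e2 : (C.j false)⁻¹ * C.op u u' (r * C.j false) = r * u - r * u' := by
      rw [C.op_apply, map_mul, hr, C.ι_j]
      field_simp
      ring
    rw [e1] at h1
    rw [e2] at h3
    have h4 := Submodule.smul_mem _ (1 / 2 : ℂ) (add_mem h1 h3)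
    have h5 := Submodule.smul_mem _ (1 / 2 : ℂ) (sub_mem h1 h3)
    have e3 : (1 / 2 : ℂ) • (r * u + r * u' + (r * u - r * u')) = r * u := by
      rw [Algebra.smul_def]
      simp only [map_div₀, map_one, map_ofNat]
      field_simp; ring
    have e4 : (1 / 2 : ℂ) • (r * u + r * u' - (r * u - r * u')) = r * u' := by
      rw [Algebra.smul_def]
      simp only [map_div₀, map_one, map_ofNat]
      field_simp; ring
    rw [e3] at h4
    rw [e4] at h5
    exact ⟨h4, h5⟩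
  obtain ⟨t1, t2⟩ := key C.t C.ι_t (h 1 (one_mem _)).1 (h _ C.fa_j_mem).1
  obtain ⟨x1, x2⟩ := key C.x C.ι_x (h 1 (one_mem _)).2 (h _ C.fa_j_mem).2
  obtain ⟨b, hb, hb2⟩ := C.tors u hu t1 x1
  obtain ⟨b', hb', hb2'⟩ := C.tors u' hu' t2 x2
  exact ⟨b, hb, b', hb', hb2, hb2'⟩

end Cfg

end

end Pool.Agent.EllMod
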