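import Pool.Agent.MP_77976d_ag.Base2
import Pool.Agent.MP_77976d_ag.Ts
import Pool.Agent.MP_77976d_ag.Xs
import Pool.Agent.MP_77976d_ag.Ldc

/-! # IC : integral closures -/

open scoped TensorProduct
open IsLocalRing

namespace Pool.Agent.EllMod

noncomputable section

/-! ### algebra in `ℂ[X][T]` -/

section alg

open Polynomial

theorem ic_closed {R : Type} [CommRing R] [IsDomain R] [IsIntegrallyClosed R] {F : Type} [Field F]
    (Ψ : R →+* F) (hΨ : Function.Injective Ψ) (z : F) (hz : Ψ.IsIntegralElem z) (D a : R)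
    (hD : D ≠ 0) (h : Ψ D * z = Ψ a) : ∃ c, Ψ c = z := by
  let _ := Ψ.toAlgebra
  let K := FractionRing R
  have hinj : Function.Injective (Algebra.ofId R F) := hΨ
  let L : K →ₐ[R] F := IsFractionRing.liftAlgHom (K := K) hinj
  have hL : ∀ r : R, L (algebraMap R K r) = Ψ r := fun r => L.commutes r
  have hD' : Ψ D ≠ 0 := fun h0 => hD (hΨ (by rw [h0, map_zero]))
  have h1 : L (algebraMap R K a / algebraMap R K D) = z := by
    rw [map_div₀, hL, hL, ← h, mul_comm, mul_div_assoc, div_self hD', mul_one]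
  have h2 : IsIntegral R (algebraMap R K a / algebraMap R K D) := by
    rw [← isIntegral_algHom_iff L L.toRingHom.injective, h1]
    exact hz
  obtain ⟨c, hc⟩ := IsIntegrallyClosed.isIntegral_iff.1 h2
  exact ⟨c, by rw [← h1, ← hc, hL]⟩

theorem ic_dvd {R : Type} [CommRing R] [IsDomain R] [UniqueFactorizationMonoid R] (h : R)
    (hh : Squarefree h) (D : R) : ∀ a, D * D ∣ a * a * h → D ∣ a := by
  have h0 : h ≠ 0 := hh.ne_zero
  induction D using UniqueFactorizationMonoid.induction_on_prime with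
  | h₁ =>
    intro a ha
    rw [mul_zero, zero_dvd_iff] at ha
    rcases mul_eq_zero.1 ha with h1 | h1
    · rw [mul_self_eq_zero.1 h1]
    · exact absurd h1 h0
  | h₂ x hx => exact fun a _ => hx.dvd
  | h₃ D π hD hπ ih =>
    intro a ha
    have h1 : π ∣ a := by
      by_contra hcon
      have h2 : π ^ 2 ∣ (a * a) * h := (Dvd.intro (D * D) (by ring)).trans ha
      have h3 : ¬ π ∣ a * a := fun h4 => (hπ.dvd_or_dvd h4).elim hcon hcon
      have h4 := hπ.pow_dvd_of_dvd_mul_left 2 h3 h2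
      rw [pow_two] at h4
      exact hπ.not_isUnit (hh π h4)
    obtain ⟨b, rfl⟩ := h1
    refine mul_dvd_mul_left π (ih b ?_)
    have h5 : (π * π) * (D * D) ∣ (π * π) * (b * b * h) := by
      convert ha using 1 <;> ring
    exact (mul_dvd_mul_iff_left (mul_ne_zero hπ.ne_zero hπ.ne_zero)).1 h5

theorem ic_sqf (u : ℂ[X][X]) (w : ℂ[X]) (hw : Squarefree w) (hu : u.Monic) (α β : ℂ[X][X]) (c : ℂ)
    (hc : c ≠ 0) (h : α * u + β * derivative u = C (C c)) : Squarefree (u * C w) := by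
  rintro π ⟨g, hg⟩
  have hw0 : (C w : ℂ[X][X]) ≠ 0 := by rw [Ne, C_eq_zero]; exact hw.ne_zero
  have h1 : π ∣ u * C w := ⟨π * g, by rw [hg]; ring⟩
  have h2 : π ∣ derivative u * C w := by
    have h3 : derivative (u * C w) = derivative u * C w := by simp
    rw [← h3, hg]
    refine ⟨derivative π * g + derivative π * g + π * derivative g, ?_⟩
    simp only [derivative_mul]
    ring
  have h3 : π ∣ C (C c) * C w := by
    rw [← h, add_mul, mul_assoc, mul_assoc]
    exact dvd_add (h1.mul_left α) (h2.mul_left β)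
  have h4 : (C (C c) : ℂ[X][X]) * C w ≠ 0 := mul_ne_zero (by simpa using hc) hw0
  obtain ⟨k, hk⟩ := h3
  have h5 : π ≠ 0 := fun h => h4 (by rw [hk, h, zero_mul])
  have h6 : k ≠ 0 := fun h => h4 (by rw [hk, h, mul_zero])
  have h7 : π.natDegree = 0 := by
    have h8 := congrArg natDegree hk
    rw [natDegree_mul h5 h6, ← C_mul, natDegree_C] at h8
    omega
  rw [eq_C_of_natDegree_eq_zero h7] at hg ⊢
  have h8 : C (π.coeff 0 * π.coeff 0) ∣ u * C w := ⟨g, by rw [hg, C_mul]⟩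
  have h9 := (C_dvd_iff_dvd_coeff _ _).1 h8 u.natDegree
  rw [coeff_mul_C, hu.coeff_natDegree, one_mul] at h9
  exact (hw _ h9).map C

/-- the polynomial `f_a` -/
def ic_f (a : Bool) : ℂ[X][X] :=
  if a then X ^ 6 + 2 * X ^ 4 + 2 * X ^ 3 + X ^ 2 - 2 * X + 1
  else X ^ 6 - 2 * X ^ 5 + X ^ 4 + 2 * X ^ 3 + 2 * X ^ 2 + 1

theorem ic_f_monic (a : Bool) : (ic_f a).Monic := by
  cases a
  · simp only [ic_f, Bool.false_eq_true, if_false]
    monicity!
  · simp only [ic_f, if_true]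
    monicity!

theorem ic_f_bezout (a : Bool) : ∃ α β : ℂ[X][X], ∃ c : ℂ, c ≠ 0 ∧
    α * ic_f a + β * derivative (ic_f a) = C (C c) := by
  cases a
  · refine ⟨1494 * X ^ 4 - 336 * X ^ 3 - 2630 * X ^ 2 + 1484 * X + 5960,
      -249 * X ^ 5 + 139 * X ^ 4 + 475 * X ^ 3 - 618 * X ^ 2 - 1766 * X - 371, 5960, by norm_num, ?_⟩
    simp only [ic_f, Bool.false_eq_true, if_false]
    have h0 : (C (C 5960) : ℂ[X][X]) = 5960 := rfl
    have h2 : (C 2 : ℂ[X][X]) = 2 := rfl
    have h3 : (C 3 : ℂ[X][X]) = 3 := rfl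
    have h4 : (C 4 : ℂ[X][X]) = 4 := rfl
    have h5 : (C 5 : ℂ[X][X]) = 5 := rfl
    rw [h0]
    simp [h2, h3, h4, h5]
    ring
  · refine ⟨3894 * X ^ 4 + 3174 * X ^ 3 + 6746 * X ^ 2 + 8270 * X + 6868,
      -649 * X ^ 5 - 529 * X ^ 4 - 1557 * X ^ 3 - 2380 * X ^ 2 - 2279 * X + 454, 5960,
      by norm_num, ?_⟩
    simp only [ic_f, if_true]
    have h0 : (C (C 5960) : ℂ[X][X]) = 5960 := rfl
    have h2 : (C 2 : ℂ[X][X]) = 2 := rfl
    have h3 : (C 3 : ℂ[X][X]) = 3 := rfl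
    have h5 : (C 5 : ℂ[X][X]) = 5 := rfl
    rw [h0]
    simp [h2, h3, h5]
    ring

/-- the polynomial part of `e_χ ^ 2` in `X` -/
def ic_w (m : Bool × Bool) : ℂ[X] :=
  (if m.1 then X ^ 2 + 1 else 1) * (if m.2 then X ^ 2 - 1 else 1)

theorem ic_w_sqf (m : Bool × Bool) : Squarefree (ic_w m) := by
  have h1 : Squarefree ((X ^ 2 + 1) * (X ^ 2 - 1) : ℂ[X]) := by
    apply Separable.squarefree
    refine ⟨C (-1), C (1 / 4) * X, ?_⟩
    simp only [derivative_mul, derivative_add, derivative_sub, derivative_X_pow, derivative_one]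
    have h2 : (C (1 / 4) : ℂ[X]) * 4 = 1 := by
      rw [show (4 : ℂ[X]) = C 4 from rfl, ← C_mul]; norm_num
    simp only [C_neg, C_1]
    push_cast
    norm_num
    have h3 : (C 2 : ℂ[X]) = 2 := rfl
    rw [h3]
    linear_combination X ^ 4 * h2
  refine h1.squarefree_of_dvd ?_
  rcases m with ⟨a, b⟩
  cases a <;> cases b <;> simp [ic_w]

/-- the polynomial `e_χ ^ 2` -/
def ic_h (a : Bool) (χ : Bool × Bool × Bool) : ℂ[X][X] :=
  (if χ.1 then ic_f a else 1) * C (ic_w χ.2)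

theorem ic_h_sqf (a : Bool) (χ : Bool × Bool × Bool) : Squarefree (ic_h a χ) := by
  unfold ic_h
  split_ifs
  · obtain ⟨α, β, c, hc, h⟩ := ic_f_bezout a
    exact ic_sqf _ _ (ic_w_sqf _) (ic_f_monic a) α β c hc h
  · refine ic_sqf 1 _ (ic_w_sqf _) monic_one 1 0 1 one_ne_zero ?_
    simp

end alg

variable {F : Type} [Field F] [Algebra ℂ F] (C : Cfg F)

namespace Cfg

/-- the evaluation `ℂ[X][T] → F` of the chart `(a, b)` -/
def ic_Psi (a b : Bool) : Polynomial (Polynomial ℂ) →ₐ[ℂ] F :=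
  Polynomial.eval₂AlgHom (Polynomial.aeval (C.Xc b)) (C.T a) (fun _ => Commute.all _ _)

theorem ic_Psi_X (a b : Bool) : C.ic_Psi a b Polynomial.X = C.T a := by
  simp [ic_Psi]

theorem ic_Psi_C (a b : Bool) (p : Polynomial ℂ) :
    C.ic_Psi a b (Polynomial.C p) = Polynomial.aeval (C.Xc b) p := by
  simp [ic_Psi]

theorem ic_Psi_mem (a b : Bool) (A : Polynomial (Polynomial ℂ)) :
    C.ic_Psi a b A ∈ Algebra.adjoin ℂ {C.T a, C.Xc b} := by
  have hT : C.T a ∈ Algebra.adjoin ℂ {C.T a, C.Xc b} := Algebra.subset_adjoin (by simp)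
  have hX : C.Xc b ∈ Algebra.adjoin ℂ {C.T a, C.Xc b} := Algebra.subset_adjoin (by simp)
  have h1 : ∀ p : Polynomial ℂ, Polynomial.aeval (C.Xc b) p ∈ Algebra.adjoin ℂ {C.T a, C.Xc b} := by
    intro p
    induction p using Polynomial.induction_on' with
    | add p q hp hq => rw [map_add]; exact add_mem hp hq
    | monomial n c =>
      rw [Polynomial.aeval_monomial]
      exact mul_mem (Subalgebra.algebraMap_mem _ c) (pow_mem hX n)
  induction A using Polynomial.induction_on' with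
  | add p q hp hq => rw [map_add]; exact add_mem hp hq
  | monomial n c =>
    rw [← Polynomial.C_mul_X_pow_eq_monomial, map_mul, map_pow, ic_Psi_C, ic_Psi_X]
    exact mul_mem (h1 c) (pow_mem hT n)

theorem ic_range (a b : Bool) : (C.ic_Psi a b).range = Algebra.adjoin ℂ {C.T a, C.Xc b} := by
  apply le_antisymm
  · rintro _ ⟨A, rfl⟩
    exact C.ic_Psi_mem a b A
  · refine Algebra.adjoin_le ?_
    rintro z hz
    simp only [Set.mem_insert_iff, Set.mem_singleton_iff] at hz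
    rcases hz with rfl | rfl
    · exact ⟨Polynomial.X, C.ic_Psi_X a b⟩
    · exact ⟨Polynomial.C Polynomial.X, by
        change C.ic_Psi a b _ = _
        rw [ic_Psi_C, Polynomial.aeval_X]⟩

theorem ic_t_ne : C.t ≠ 0 := by
  intro h
  exact C.indep.ne_zero 0 h

/-- the exponent `± n` -/
def ic_exp (a : Bool) (n : ℕ) : ℤ := if a then -n else n

theorem ic_T_pow (a : Bool) (n : ℕ) : C.T a ^ n = C.t ^ ic_exp a n := by
  cases a <;> simp [T, coord, ic_exp]

theorem ic_X_pow (a : Bool) (n : ℕ) : C.Xc a ^ n = C.x ^ ic_exp a n := by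
  cases a <;> simp [Xc, coord, ic_exp]

theorem ic_li (a b : Bool) :
    LinearIndependent ℂ (fun m : ℕ × ℕ => C.T a ^ m.1 * C.Xc b ^ m.2) := by
  have h := C.mono_li.comp (fun m : ℕ × ℕ => (ic_exp a m.1, ic_exp b m.2, (false, false, false))) (by
    rintro ⟨m, n⟩ ⟨m', n'⟩ h
    simp only [Prod.mk.injEq, ic_exp] at h ⊢
    cases a <;> cases b <;> simpa using h)
  convert h using 1
  funext m
  simp [ic_T_pow, ic_X_pow, e]

theorem ic_Psi_inj (a b : Bool) : Function.Injective (C.ic_Psi a b) := by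
  rw [injective_iff_map_eq_zero]
  intro A hA
  obtain ⟨N, hN⟩ : ∃ N, ∀ m, (A.coeff m).natDegree < N := by
    refine ⟨(A.support.sup fun m => (A.coeff m).natDegree) + 1, fun m => ?_⟩
    by_cases hm : m ∈ A.support
    · exact Nat.lt_succ_of_le (Finset.le_sup (f := fun m => (A.coeff m).natDegree) hm)
    · rw [Polynomial.notMem_support_iff.1 hm]
      simp
  have h1 : C.ic_Psi a b A = ∑ m ∈ Finset.range (A.natDegree + 1), ∑ n ∈ Finset.range N,
      (A.coeff m).coeff n • (C.T a ^ m * C.Xc b ^ n) := by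
    conv_lhs => rw [A.as_sum_range_C_mul_X_pow]
    rw [map_sum]
    refine Finset.sum_congr rfl fun m _ => ?_
    rw [map_mul, map_pow, ic_Psi_C, ic_Psi_X, Polynomial.aeval_eq_sum_range' (hN m), Finset.sum_mul]
    refine Finset.sum_congr rfl fun n _ => ?_
    rw [smul_mul_assoc, mul_comm]
  rw [h1, ← Finset.sum_product'] at hA
  have h2 := linearIndependent_iff'.1 (C.ic_li a b) _ (fun m => (A.coeff m.1).coeff m.2) hA
  refine Polynomial.ext fun m => Polynomial.ext fun n => ?_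
  rw [Polynomial.coeff_zero, Polynomial.coeff_zero]
  by_cases hm : m < A.natDegree + 1
  · by_cases hn : n < N
    · exact h2 (m, n) (by simp [hn]; omega)
    · exact Polynomial.coeff_eq_zero_of_natDegree_lt ((hN m).trans_le (not_lt.1 hn))
  · have h3 : A.coeff m = 0 := Polynomial.coeff_eq_zero_of_natDegree_lt (by omega)
    rw [h3, Polynomial.coeff_zero]

/-- the eight monomials of the chart `(a, b)` -/
def ic_e (a b : Bool) (χ : Bool × Bool × Bool) : F :=
  (if χ.1 then C.S a else 1) * (if χ.2.1 then C.P b else 1) * (if χ.2.2 then C.Q b else 1)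

theorem ic_S_sq (a b : Bool) : C.S a * C.S a = C.ic_Psi a b (ic_f a) := by
  have h := C.hs
  have ht := C.ic_t_ne
  cases a
  · simp only [ic_f, Bool.false_eq_true, if_false, map_add, map_sub, map_mul, map_pow, map_one,
      map_ofNat, ic_Psi_X, S, T, coord]
    linear_combination h
  · simp only [ic_f, if_true, map_add, map_sub, map_mul, map_pow, map_one, map_ofNat, ic_Psi_X, S, T,
      coord]
    field_simp
    linear_combination h

theorem ic_e_sq (a b : Bool) (χ : Bool × Bool × Bool) :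
    C.ic_e a b χ * C.ic_e a b χ = C.ic_Psi a b (ic_h a χ) := by
  have h1 := C.ic_S_sq a b
  have h2 := C.xs_P_sq b
  have h3 := C.xs_Q_sq b
  rcases χ with ⟨x, y, z⟩
  have h4 : (if x then C.S a else 1) * (if x then C.S a else 1) =
      C.ic_Psi a b (if x then ic_f a else 1) := by
    cases x <;> simp [h1]
  have h5 : (if y then C.P b else 1) * (if y then C.P b else 1) =
      Polynomial.aeval (C.Xc b) (if y then Polynomial.X ^ 2 + 1 else (1 : Polynomial ℂ)) := by
    cases y <;> simp [h2, pow_two]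
  have h6 : (if z then C.Q b else 1) * (if z then C.Q b else 1) =
      Polynomial.aeval (C.Xc b) (if z then Polynomial.X ^ 2 - 1 else (1 : Polynomial ℂ)) := by
    cases z <;> simp [h3, pow_two]
  simp only [ic_e, ic_h, map_mul, ic_Psi_C, ic_w]
  rw [← h4, ← h5, ← h6]
  ring

theorem ic_B_adjoin (a b : Bool) :
    C.B a b = Algebra.adjoin ℂ ({C.T a, C.S a} ∪ {C.Xc b, C.P b, C.Q b}) := by
  rw [Algebra.adjoin_union]; rfl

theorem ic_A_le (a b : Bool) : Algebra.adjoin ℂ {C.T a, C.Xc b} ≤ C.B a b := by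
  rw [ic_B_adjoin]
  refine Algebra.adjoin_mono ?_
  rintro z hz
  simp only [Set.mem_insert_iff, Set.mem_singleton_iff] at hz
  rcases hz with rfl | rfl <;> simp

theorem ic_e_mem (a b : Bool) (χ : Bool × Bool × Bool) : C.ic_e a b χ ∈ C.B a b := by
  rw [ic_B_adjoin]
  refine mul_mem (mul_mem ?_ ?_) ?_
  · split_ifs
    · exact Algebra.subset_adjoin (by simp)
    · exact one_mem _
  · split_ifs
    · exact Algebra.subset_adjoin (by simp)
    · exact one_mem _
  · split_ifs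
    · exact Algebra.subset_adjoin (by simp)
    · exact one_mem _

theorem ic_rep (a b : Bool) (y : F) (hy : y ∈ C.B a b) :
    ∃ A : Bool × Bool × Bool → Polynomial (Polynomial ℂ), y = ∑ χ, C.ic_Psi a b (A χ) * C.ic_e a b χ := by
  set Sb : Submodule ℂ F := Submodule.span ℂ (Set.range fun z : Polynomial (Polynomial ℂ) ×
    (Bool × Bool × Bool) => C.ic_Psi a b z.1 * C.ic_e a b z.2) with hSb
  have hg : ∀ A χ, C.ic_Psi a b A * C.ic_e a b χ ∈ Sb := fun A χ => Submodule.subset_span ⟨(A, χ), rfl⟩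
  have h1 : y ∈ Sb := by
    rw [ic_B_adjoin] at hy
    refine xs_adjoin_le _ Sb ?_ ?_ y hy
    · have := hg 1 (false, false, false)
      simpa [ic_e] using this
    · intro w hw z hz
      induction hz using Submodule.span_induction with
      | zero => rw [mul_zero]; exact zero_mem _
      | add a c _ _ ha hc => rw [mul_add]; exact add_mem ha hc
      | smul k a _ ha => rw [mul_smul_comm]; exact Submodule.smul_mem _ k ha
      | mem z hz =>
        obtain ⟨⟨A, χ1, χ2, χ3⟩, rfl⟩ := hz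
        simp only [Set.mem_union, Set.mem_insert_iff, Set.mem_singleton_iff] at hw
        simp only
        rcases hw with (rfl | rfl) | (rfl | rfl | rfl)
        · have : C.T a * (C.ic_Psi a b A * C.ic_e a b (χ1, χ2, χ3)) =
              C.ic_Psi a b (Polynomial.X * A) * C.ic_e a b (χ1, χ2, χ3) := by
            rw [map_mul, ic_Psi_X]; ring
          rw [this]; exact hg _ _
        · cases χ1
          · have : C.S a * (C.ic_Psi a b A * C.ic_e a b (false, χ2, χ3)) =
                C.ic_Psi a b A * C.ic_e a b (true, χ2, χ3) := by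
              simp only [ic_e, Bool.false_eq_true, if_false, if_true]; ring
            rw [this]; exact hg _ _
          · have : C.S a * (C.ic_Psi a b A * C.ic_e a b (true, χ2, χ3)) =
                C.ic_Psi a b (ic_f a * A) * C.ic_e a b (false, χ2, χ3) := by
              rw [map_mul, ← ic_S_sq]
              simp only [ic_e, Bool.false_eq_true, if_false, if_true]; ring
            rw [this]; exact hg _ _
        · have : C.Xc b * (C.ic_Psi a b A * C.ic_e a b (χ1, χ2, χ3)) =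
              C.ic_Psi a b (Polynomial.C Polynomial.X * A) * C.ic_e a b (χ1, χ2, χ3) := by
            rw [map_mul, ic_Psi_C, Polynomial.aeval_X]; ring
          rw [this]; exact hg _ _
        · cases χ2
          · have : C.P b * (C.ic_Psi a b A * C.ic_e a b (χ1, false, χ3)) =
                C.ic_Psi a b A * C.ic_e a b (χ1, true, χ3) := by
              simp only [ic_e, Bool.false_eq_true, if_false, if_true]; ring
            rw [this]; exact hg _ _
          · have : C.P b * (C.ic_Psi a b A * C.ic_e a b (χ1, true, χ3)) =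
                C.ic_Psi a b (Polynomial.C (Polynomial.X * Polynomial.X + 1) * A) *
                  C.ic_e a b (χ1, false, χ3) := by
              rw [map_mul, ic_Psi_C, map_add, map_mul, map_one, Polynomial.aeval_X, ← xs_P_sq]
              simp only [ic_e, Bool.false_eq_true, if_false, if_true]; ring
            rw [this]; exact hg _ _
        · cases χ3
          · have : C.Q b * (C.ic_Psi a b A * C.ic_e a b (χ1, χ2, false)) =
                C.ic_Psi a b A * C.ic_e a b (χ1, χ2, true) := by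
              simp only [ic_e, Bool.false_eq_true, if_false, if_true]; ring
            rw [this]; exact hg _ _
          · have : C.Q b * (C.ic_Psi a b A * C.ic_e a b (χ1, χ2, true)) =
                C.ic_Psi a b (Polynomial.C (Polynomial.X * Polynomial.X - 1) * A) *
                  C.ic_e a b (χ1, χ2, false) := by
              rw [map_mul, ic_Psi_C, map_sub, map_mul, map_one, Polynomial.aeval_X, ← xs_Q_sq]
              simp only [ic_e, Bool.false_eq_true, if_false, if_true]; ring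
            rw [this]; exact hg _ _
  clear hy
  induction h1 using Submodule.span_induction with
  | zero => exact ⟨fun _ => 0, by simp⟩
  | add u v _ _ hu hv =>
    obtain ⟨A, rfl⟩ := hu
    obtain ⟨A', rfl⟩ := hv
    exact ⟨A + A', by simp [add_mul, Finset.sum_add_distrib]⟩
  | smul c u _ hu =>
    obtain ⟨A, rfl⟩ := hu
    exact ⟨fun χ => c • A χ, by simp [Finset.smul_sum]⟩
  | mem z hz =>
    obtain ⟨⟨A, χ⟩, rfl⟩ := hz
    refine ⟨fun χ' => if χ' = χ then A else 0, ?_⟩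
    rw [Finset.sum_eq_single χ]
    · simp
    · intro χ' _ h; simp [h]
    · intro h; exact absurd (Finset.mem_univ _) h

/-! ### characters -/

/-- the projection to the `ε`-part for the involution `σ` -/
def ic_pr (σ : F ≃ₐ[ℂ] F) (ε : Bool) : F →ₗ[ℂ] F :=
  (1 / 2 : ℂ) • (LinearMap.id + (if ε then (-1 : ℂ) else 1) • σ.toLinearMap)

omit C in
theorem ic_pr_apply (σ : F ≃ₐ[ℂ] F) (ε : Bool) (y : F) :
    ic_pr σ ε y = (1 / 2 : ℂ) • (y + (if ε then (-1 : ℂ) else 1) • σ y) := rfl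

omit C in
theorem ic_pr_sum (σ : F ≃ₐ[ℂ] F) (y : F) : ic_pr σ false y + ic_pr σ true y = y := by
  simp only [ic_pr_apply, if_true, Bool.false_eq_true, if_false]
  module

omit C in
theorem ic_pr_eq (σ : F ≃ₐ[ℂ] F) (ε ε' : Bool) (y : F) (h : σ y = (if ε' then (-1 : ℂ) else 1) • y) :
    ic_pr σ ε y = if ε = ε' then y else 0 := by
  rw [ic_pr_apply, h]
  cases ε <;> cases ε' <;> simp <;> module

omit C in
theorem ic_pr_mul (σ : F ≃ₐ[ℂ] F) (ε : Bool) (D y : F) (h : σ D = D) :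
    ic_pr σ ε (D * y) = D * ic_pr σ ε y := by
  rw [ic_pr_apply, ic_pr_apply, map_mul, h, mul_smul_comm, mul_add, mul_smul_comm]

/-- the projection to the `χ`-part -/
def ic_E (χ : Bool × Bool × Bool) : F →ₗ[ℂ] F :=
  ic_pr C.σs χ.1 ∘ₗ ic_pr C.σp χ.2.1 ∘ₗ ic_pr C.σq χ.2.2

theorem ic_E_sum (y : F) : ∑ χ, C.ic_E χ y = y := by
  have h : ∑ χ, C.ic_E χ y =
      (C.ic_E (false, false, false) y + C.ic_E (true, false, false) y) +
      (C.ic_E (false, true, false) y + C.ic_E (true, true, false) y) +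
      ((C.ic_E (false, false, true) y + C.ic_E (true, false, true) y) +
      (C.ic_E (false, true, true) y + C.ic_E (true, true, true) y)) := by
    simp only [Fintype.sum_prod_type, Fintype.sum_bool]
    abel
  rw [h]
  simp only [ic_E, LinearMap.comp_apply]
  rw [ic_pr_sum, ic_pr_sum, ic_pr_sum, ic_pr_sum, ic_pr_sum, ic_pr_sum, ic_pr_sum]

theorem ic_fix (σ : F ≃ₐ[ℂ] F) (a b : Bool) (ht : σ C.t = C.t) (hx : σ C.x = C.x)
    (A : Polynomial (Polynomial ℂ)) : σ (C.ic_Psi a b A) = C.ic_Psi a b A := by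
  have hT : σ (C.T a) = C.T a := by cases a <;> simp [T, coord, ht]
  have hX : σ (C.Xc b) = C.Xc b := by cases b <;> simp [Xc, coord, hx]
  induction A using Polynomial.induction_on' with
  | add p q hp hq => rw [map_add, map_add, hp, hq]
  | monomial n c =>
    rw [← Polynomial.C_mul_X_pow_eq_monomial, map_mul, map_mul, map_pow, map_pow, ic_Psi_C, ic_Psi_X,
      hT]
    congr 1
    have h1 := Polynomial.aeval_algHom_apply σ.toAlgHom (C.Xc b) c
    have h2 : (σ.toAlgHom : F →ₐ[ℂ] F) (C.Xc b) = C.Xc b := hX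
    rw [h2] at h1
    exact h1.symm

theorem ic_σs_e (a b : Bool) (χ : Bool × Bool × Bool) :
    C.σs (C.ic_e a b χ) = (if χ.1 then (-1 : ℂ) else 1) • C.ic_e a b χ := by
  have h0 : C.σs (i : F) = i := C.σs.commutes _
  have h1 : C.σs (C.S a) = -C.S a := by cases a <;> simp [S, C.σs_s, C.σs_t]
  have h2 : C.σs (C.P b) = C.P b := by cases b <;> simp [P, C.σs_p, C.σs_x]
  have h3 : C.σs (C.Q b) = C.Q b := by cases b <;> simp [Q, C.σs_q, C.σs_x, h0]
  rcases χ with ⟨x, y, z⟩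
  cases x <;> cases y <;> cases z <;> simp [ic_e, h1, h2, h3]

theorem ic_σp_e (a b : Bool) (χ : Bool × Bool × Bool) :
    C.σp (C.ic_e a b χ) = (if χ.2.1 then (-1 : ℂ) else 1) • C.ic_e a b χ := by
  have h0 : C.σp (i : F) = i := C.σp.commutes _
  have h1 : C.σp (C.S a) = C.S a := by cases a <;> simp [S, C.σp_s, C.σp_t]
  have h2 : C.σp (C.P b) = -C.P b := by cases b <;> simp [P, C.σp_p, C.σp_x]
  have h3 : C.σp (C.Q b) = C.Q b := by cases b <;> simp [Q, C.σp_q, C.σp_x, h0]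
  rcases χ with ⟨x, y, z⟩
  cases x <;> cases y <;> cases z <;> simp [ic_e, h1, h2, h3]

theorem ic_σq_e (a b : Bool) (χ : Bool × Bool × Bool) :
    C.σq (C.ic_e a b χ) = (if χ.2.2 then (-1 : ℂ) else 1) • C.ic_e a b χ := by
  have h0 : C.σq (i : F) = i := C.σq.commutes _
  have h1 : C.σq (C.S a) = C.S a := by cases a <;> simp [S, C.σq_s, C.σq_t]
  have h2 : C.σq (C.P b) = C.P b := by cases b <;> simp [P, C.σq_p, C.σq_x]
  have h3 : C.σq (C.Q b) = -C.Q b := by cases b <;> simp [Q, C.σq_q, C.σq_x, h0]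
  rcases χ with ⟨x, y, z⟩
  cases x <;> cases y <;> cases z <;> simp [ic_e, h1, h2, h3]

theorem ic_E_eq (a b : Bool) (χ χ' : Bool × Bool × Bool) (A : Polynomial (Polynomial ℂ)) :
    C.ic_E χ (C.ic_Psi a b A * C.ic_e a b χ') =
      if χ = χ' then C.ic_Psi a b A * C.ic_e a b χ' else 0 := by
  have hs := ic_pr_eq C.σs χ.1 χ'.1 (C.ic_Psi a b A * C.ic_e a b χ') (by
    rw [map_mul, C.ic_fix C.σs a b C.σs_t C.σs_x, ic_σs_e, mul_smul_comm])
  have hp := ic_pr_eq C.σp χ.2.1 χ'.2.1 (C.ic_Psi a b A * C.ic_e a b χ') (by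
    rw [map_mul, C.ic_fix C.σp a b C.σp_t C.σp_x, ic_σp_e, mul_smul_comm])
  have hq := ic_pr_eq C.σq χ.2.2 χ'.2.2 (C.ic_Psi a b A * C.ic_e a b χ') (by
    rw [map_mul, C.ic_fix C.σq a b C.σq_t C.σq_x, ic_σq_e, mul_smul_comm])
  rcases χ with ⟨x, y, z⟩
  rcases χ' with ⟨x', y', z'⟩
  simp only [ic_E, LinearMap.comp_apply] at hs hp hq ⊢
  rw [hq]
  by_cases h3 : z = z'
  · rw [if_pos h3, hp]
    by_cases h2 : y = y'
    · rw [if_pos h2, hs]
      by_cases h1 : x = x'
      · rw [if_pos h1, if_pos (by rw [h1, h2, h3])]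
      · rw [if_neg h1, if_neg (by simp [h1])]
    · rw [if_neg h2, map_zero, if_neg (by simp [h2])]
  · rw [if_neg h3, map_zero, map_zero, if_neg (by simp [h3])]

theorem ic_E_rep (a b : Bool) (χ : Bool × Bool × Bool)
    (A : Bool × Bool × Bool → Polynomial (Polynomial ℂ)) :
    C.ic_E χ (∑ χ', C.ic_Psi a b (A χ') * C.ic_e a b χ') = C.ic_Psi a b (A χ) * C.ic_e a b χ := by
  rw [map_sum, Finset.sum_eq_single χ]
  · rw [ic_E_eq, if_pos rfl]
  · intro χ' _ h
    rw [ic_E_eq, if_neg (Ne.symm h)]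
  · intro h; exact absurd (Finset.mem_univ _) h

theorem ic_E_mul (a b : Bool) (χ : Bool × Bool × Bool) (D : Polynomial (Polynomial ℂ)) (y : F) :
    C.ic_E χ (C.ic_Psi a b D * y) = C.ic_Psi a b D * C.ic_E χ y := by
  simp only [ic_E, LinearMap.comp_apply]
  rw [ic_pr_mul _ _ _ _ (C.ic_fix C.σq a b C.σq_t C.σq_x D),
    ic_pr_mul _ _ _ _ (C.ic_fix C.σp a b C.σp_t C.σp_x D),
    ic_pr_mul _ _ _ _ (C.ic_fix C.σs a b C.σs_t C.σs_x D)]

/-! ### integrality -/

/-- the elements integral over the coordinate ring of the chart -/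
def ic_J (a b : Bool) : Subalgebra ℂ F :=
  (integralClosure ↥(Algebra.adjoin ℂ {C.T a, C.Xc b}) F).restrictScalars ℂ

theorem ic_mem_J {a b : Bool} {y : F} :
    y ∈ C.ic_J a b ↔ IsIntegral ↥(Algebra.adjoin ℂ {C.T a, C.Xc b}) y := Iff.rfl

theorem ic_A_fix (σ : F ≃ₐ[ℂ] F) (a b : Bool) (ht : σ C.t = C.t) (hx : σ C.x = C.x) (z : F)
    (hz : z ∈ Algebra.adjoin ℂ {C.T a, C.Xc b}) : σ z = z := by
  rw [← ic_range] at hz
  obtain ⟨A, rfl⟩ := hz
  exact C.ic_fix σ a b ht hx A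

theorem ic_J_σ (σ : F ≃ₐ[ℂ] F) (a b : Bool) (ht : σ C.t = C.t) (hx : σ C.x = C.x) (y : F)
    (hy : y ∈ C.ic_J a b) : σ y ∈ C.ic_J a b := by
  rw [ic_mem_J] at hy ⊢
  exact IsIntegral.map_of_comp_eq (RingHom.id _) (σ : F →+* F) (by
    refine RingHom.ext fun z => ?_
    exact (C.ic_A_fix σ a b ht hx z.1 z.2).symm) hy

theorem ic_J_pr (σ : F ≃ₐ[ℂ] F) (ε a b : Bool) (ht : σ C.t = C.t) (hx : σ C.x = C.x) (y : F)
    (hy : y ∈ C.ic_J a b) : ic_pr σ ε y ∈ C.ic_J a b := by
  rw [ic_pr_apply]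
  exact Subalgebra.smul_mem _ (add_mem hy (Subalgebra.smul_mem _ (C.ic_J_σ σ a b ht hx y hy) _)) _

theorem ic_J_E (a b : Bool) (χ : Bool × Bool × Bool) (y : F) (hy : y ∈ C.ic_J a b) :
    C.ic_E χ y ∈ C.ic_J a b :=
  C.ic_J_pr _ _ a b C.σs_t C.σs_x _ (C.ic_J_pr _ _ a b C.σp_t C.σp_x _
    (C.ic_J_pr _ _ a b C.σq_t C.σq_x _ hy))

theorem ic_elem (a b : Bool) (y : F) (hy : y ∈ C.ic_J a b) :
    (C.ic_Psi a b : Polynomial (Polynomial ℂ) →+* F).IsIntegralElem y := by
  obtain ⟨p, hp1, hp2⟩ := ic_mem_J _ |>.1 hy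
  let f : Polynomial (Polynomial ℂ) →+* ↥(Algebra.adjoin ℂ {C.T a, C.Xc b}) :=
    (C.ic_Psi a b : Polynomial (Polynomial ℂ) →+* F).codRestrict _ (C.ic_Psi_mem a b)
  have hf : Function.Surjective f := by
    rintro ⟨z, hz⟩
    rw [← ic_range] at hz
    obtain ⟨A, hA⟩ := hz
    exact ⟨A, Subtype.ext hA⟩
  have h1 : p ∈ Polynomial.lifts f := by
    rw [Polynomial.lifts_iff_coeff_lifts]
    intro n
    exact hf _
  obtain ⟨q, hq1, -, hq2⟩ := Polynomial.lifts_and_natDegree_eq_and_monic h1 hp1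
  refine ⟨q, hq2, ?_⟩
  rw [← hq1, Polynomial.eval₂_map] at hp2
  exact hp2

theorem ic_B_le_J (a b : Bool) : C.B a b ≤ C.ic_J a b := by
  have hA : ∀ z ∈ Algebra.adjoin ℂ {C.T a, C.Xc b}, z ∈ C.ic_J a b := fun z hz =>
    (isIntegral_algebraMap (R := ↥(Algebra.adjoin ℂ {C.T a, C.Xc b})) (A := F) (x := ⟨z, hz⟩))
  have hsq : ∀ z : F, z * z ∈ Algebra.adjoin ℂ {C.T a, C.Xc b} → z ∈ C.ic_J a b := fun z hz => by
    have h1 := hA _ hz
    rw [← pow_two] at h1
    exact IsIntegral.of_pow two_pos h1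
  have hT : C.T a ∈ Algebra.adjoin ℂ {C.T a, C.Xc b} := Algebra.subset_adjoin (by simp)
  have hX : C.Xc b ∈ Algebra.adjoin ℂ {C.T a, C.Xc b} := Algebra.subset_adjoin (by simp)
  rw [ic_B_adjoin]
  refine Algebra.adjoin_le ?_
  rintro z hz
  simp only [Set.mem_union, Set.mem_insert_iff, Set.mem_singleton_iff] at hz
  rcases hz with (rfl | rfl) | (rfl | rfl | rfl)
  · exact hA _ hT
  · refine hsq _ ?_
    rw [C.ic_S_sq a b]
    exact C.ic_Psi_mem a b _
  · exact hA _ hX
  · refine hsq _ ?_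
    rw [xs_P_sq]
    exact add_mem (mul_mem hX hX) (one_mem _)
  · refine hsq _ ?_
    rw [xs_Q_sq]
    exact sub_mem (mul_mem hX hX) (one_mem _)

theorem ic_component (a b : Bool) (χ : Bool × Bool × Bool) (z : F) (hz : z ∈ C.ic_J a b)
    (D A : Polynomial (Polynomial ℂ)) (hD : D ≠ 0)
    (h : C.ic_Psi a b D * z = C.ic_Psi a b A * C.ic_e a b χ) : z ∈ C.B a b := by
  have hinj := C.ic_Psi_inj a b
  have h1 := C.ic_elem a b (z * z) (mul_mem hz hz)
  have h2 : C.ic_Psi a b (D * D) * (z * z) = C.ic_Psi a b (A * A * ic_h a χ) := by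
    rw [map_mul, map_mul, map_mul, ← ic_e_sq]
    linear_combination (C.ic_Psi a b D * z + C.ic_Psi a b A * C.ic_e a b χ) * h
  obtain ⟨c, hc⟩ := ic_closed (C.ic_Psi a b : Polynomial (Polynomial ℂ) →+* F) hinj (z * z) h1
    (D * D) (A * A * ic_h a χ) (mul_ne_zero hD hD) h2
  have hc' : C.ic_Psi a b c = z * z := hc
  have h3 : D * D * c = A * A * ic_h a χ := by
    apply hinj
    rw [map_mul, hc', h2]
  obtain ⟨A', rfl⟩ := ic_dvd _ (ic_h_sqf a χ) D A ⟨c, h3.symm⟩
  have hD' : C.ic_Psi a b D ≠ 0 := fun h0 => hD (hinj (by rw [h0, map_zero]))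
  have h4 : z = C.ic_Psi a b A' * C.ic_e a b χ := by
    apply mul_left_cancel₀ hD'
    rw [h, map_mul, mul_assoc]
  rw [h4]
  exact mul_mem (C.ic_A_le a b (C.ic_Psi_mem a b A')) (C.ic_e_mem a b χ)

/-- localisation -/
theorem ic_loc (a b : Bool) (B' : Subalgebra ℂ F) (hT : C.T a ∈ B') (hX : C.Xc b ∈ B') (s : Set F)
    (hs : ∀ w ∈ s, ∃ N : ℕ, C.T a ^ N * C.Xc b ^ N * w ∈ B') (w : F) (hw : w ∈ Algebra.adjoin ℂ s) :
    ∃ N : ℕ, C.T a ^ N * C.Xc b ^ N * w ∈ B' := by
  have hup : ∀ N, C.T a ^ N * C.Xc b ^ N ∈ B' := fun N => mul_mem (pow_mem hT N) (pow_mem hX N)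
  induction hw using Algebra.adjoin_induction with
  | mem w hw => exact hs w hw
  | algebraMap c => exact ⟨0, by simp⟩
  | add u v _ _ hu hv =>
    obtain ⟨N, hN⟩ := hu
    obtain ⟨M, hM⟩ := hv
    refine ⟨N + M, ?_⟩
    have : C.T a ^ (N + M) * C.Xc b ^ (N + M) * (u + v) =
        (C.T a ^ M * C.Xc b ^ M) * (C.T a ^ N * C.Xc b ^ N * u) +
        (C.T a ^ N * C.Xc b ^ N) * (C.T a ^ M * C.Xc b ^ M * v) := by
      rw [pow_add, pow_add]; ring
    rw [this]
    exact add_mem (mul_mem (hup M) hN) (mul_mem (hup N) hM)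
  | mul u v _ _ hu hv =>
    obtain ⟨N, hN⟩ := hu
    obtain ⟨M, hM⟩ := hv
    refine ⟨N + M, ?_⟩
    have : C.T a ^ (N + M) * C.Xc b ^ (N + M) * (u * v) =
        (C.T a ^ N * C.Xc b ^ N * u) * (C.T a ^ M * C.Xc b ^ M * v) := by
      rw [pow_add, pow_add]; ring
    rw [this]
    exact mul_mem hN hM

theorem ic_loc_t (a b : Bool) (B' : Subalgebra ℂ F) (hT : C.T a ∈ B') (hX : C.Xc b ∈ B') :
    ∃ N : ℕ, C.T a ^ N * C.Xc b ^ N * C.t ∈ B' := by
  cases a
  · exact ⟨0, by simpa [T, coord] using hT⟩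
  · refine ⟨1, ?_⟩
    have : C.T true ^ 1 * C.Xc b ^ 1 * C.t = C.Xc b := by
      have := C.ic_t_ne
      simp only [T, coord]; field_simp
    rw [this]; exact hX

theorem ic_loc_x (a b : Bool) (B' : Subalgebra ℂ F) (hT : C.T a ∈ B') (hX : C.Xc b ∈ B') :
    ∃ N : ℕ, C.T a ^ N * C.Xc b ^ N * C.x ∈ B' := by
  cases b
  · exact ⟨0, by simpa [Xc, coord] using hX⟩
  · refine ⟨1, ?_⟩
    have : C.T a ^ 1 * C.Xc true ^ 1 * C.x = C.T a := by
      have := C.xs_x_ne
      simp only [Xc, coord]; field_simp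
    rw [this]; exact hT

theorem ic_denom (a b : Bool) (y : F) :
    ∃ D : Polynomial (Polynomial ℂ), D ≠ 0 ∧ C.ic_Psi a b D * y ∈ C.B a b := by
  obtain ⟨d, hd1, hd2, hd3⟩ := C.exists_denom y
  have hTA : C.T a ∈ Algebra.adjoin ℂ {C.T a, C.Xc b} := Algebra.subset_adjoin (by simp)
  have hXA : C.Xc b ∈ Algebra.adjoin ℂ {C.T a, C.Xc b} := Algebra.subset_adjoin (by simp)
  have hTB : C.T a ∈ C.B a b := C.ic_A_le a b hTA
  have hXB : C.Xc b ∈ C.B a b := C.ic_A_le a b hXA
  obtain ⟨N, hN⟩ := C.ic_loc a b (Algebra.adjoin ℂ {C.T a, C.Xc b}) hTA hXA {C.t, C.x} (by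
    rintro w hw
    simp only [Set.mem_insert_iff, Set.mem_singleton_iff] at hw
    rcases hw with rfl | rfl
    · exact C.ic_loc_t a b _ hTA hXA
    · exact C.ic_loc_x a b _ hTA hXA) d hd1
  obtain ⟨M, hM⟩ := C.ic_loc a b (C.B a b) hTB hXB
    ({C.T false, C.S false} ∪ {C.Xc false, C.P false, C.Q false}) (by
    rintro w hw
    simp only [Set.mem_union, Set.mem_insert_iff, Set.mem_singleton_iff] at hw
    have hSB : C.S a ∈ C.B a b := by rw [ic_B_adjoin]; exact Algebra.subset_adjoin (by simp)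
    have hPB : C.P b ∈ C.B a b := by rw [ic_B_adjoin]; exact Algebra.subset_adjoin (by simp)
    have hQB : C.Q b ∈ C.B a b := by rw [ic_B_adjoin]; exact Algebra.subset_adjoin (by simp)
    have ht := C.ic_t_ne
    have hx := C.xs_x_ne
    rcases hw with (rfl | rfl) | (rfl | rfl | rfl)
    · exact C.ic_loc_t a b _ hTB hXB
    · cases a
      · exact ⟨0, by simpa using hSB⟩
      · refine ⟨3, ?_⟩
        have : C.T true ^ 3 * C.Xc b ^ 3 * C.S false = C.Xc b ^ 3 * C.S true := by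
          simp only [T, coord, S, Bool.false_eq_true, if_false, if_true]; ring
        rw [this]; exact mul_mem (pow_mem hXB 3) hSB
    · exact C.ic_loc_x a b _ hTB hXB
    · cases b
      · exact ⟨0, by simpa using hPB⟩
      · refine ⟨1, ?_⟩
        have : C.T a ^ 1 * C.Xc true ^ 1 * C.P false = C.T a * C.P true := by
          simp only [Xc, coord, P, Bool.false_eq_true, if_false, if_true]; ring
        rw [this]; exact mul_mem hTB hPB
    · cases b
      · exact ⟨0, by simpa using hQB⟩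
      · refine ⟨1, ?_⟩
        have : C.T a ^ 1 * C.Xc true ^ 1 * C.Q false = (-i) * (C.T a * C.Q true) := by
          simp only [Xc, coord, Q, Bool.false_eq_true, if_false, if_true]
          linear_combination (C.T a * C.q * C.x⁻¹) * xs_i_sq (F := F)
        rw [this]
        exact mul_mem (neg_mem (Subalgebra.algebraMap_mem _ _)) (mul_mem hTB hQB)) (d * y) (by
    rw [← ic_B_adjoin]; exact hd3)
  rw [← ic_range] at hN
  obtain ⟨D', hD'⟩ := hN
  have hD'' : C.ic_Psi a b D' = C.T a ^ N * C.Xc b ^ N * d := hD'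
  have hT0 : C.T a ≠ 0 := by cases a <;> simp [T, coord, C.ic_t_ne]
  have hX0 : C.Xc b ≠ 0 := by cases b <;> simp [Xc, coord, C.xs_x_ne]
  have hne : C.ic_Psi a b (Polynomial.X ^ M * Polynomial.C Polynomial.X ^ M * D') ≠ 0 := by
    rw [map_mul, map_mul, map_pow, map_pow, ic_Psi_X, ic_Psi_C, Polynomial.aeval_X, hD'']
    exact mul_ne_zero (mul_ne_zero (pow_ne_zero _ hT0) (pow_ne_zero _ hX0))
      (mul_ne_zero (mul_ne_zero (pow_ne_zero _ hT0) (pow_ne_zero _ hX0)) hd2)
  refine ⟨Polynomial.X ^ M * Polynomial.C Polynomial.X ^ M * D', fun h => hne (by rw [h, map_zero]), ?_⟩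
  rw [map_mul, map_mul, map_pow, map_pow, ic_Psi_X, ic_Psi_C, Polynomial.aeval_X, hD'']
  have : C.T a ^ M * C.Xc b ^ M * (C.T a ^ N * C.Xc b ^ N * d) * y =
      (C.T a ^ N * C.Xc b ^ N) * (C.T a ^ M * C.Xc b ^ M * (d * y)) := by ring
  rw [this]
  exact mul_mem (mul_mem (pow_mem hTB N) (pow_mem hXB N)) hM

theorem IC (a b : Bool) (y : F) :
    IsIntegral ↥(Algebra.adjoin ℂ {C.T a, C.Xc b}) y ↔ y ∈ C.B a b := by
  constructor
  · intro hy
    have hy' : y ∈ C.ic_J a b := hy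
    obtain ⟨D, hD, hDy⟩ := C.ic_denom a b y
    obtain ⟨A, hA⟩ := C.ic_rep a b _ hDy
    rw [← C.ic_E_sum y]
    refine sum_mem fun χ _ => ?_
    refine C.ic_component a b χ _ (C.ic_J_E a b χ y hy') D (A χ) hD ?_
    rw [← ic_E_mul, hA, ic_E_rep]
  · intro hy
    exact C.ic_B_le_J a b hy

theorem ic_map (a b : Bool) : (Algebra.adjoin ℂ {coord C.surf.t a, coord C.surf.x b}).map
    C.K.val = Algebra.adjoin ℂ {C.T a, C.Xc b} := by
  rw [AlgHom.map_adjoin]
  congr 1
  rw [Set.image_pair]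
  have h1 : C.K.val (coord C.surf.t a) = C.T a := by cases a <;> rfl
  have h2 : C.K.val (coord C.surf.x b) = C.Xc b := by cases b <;> rfl
  rw [h1, h2]

theorem mem_R (a b : Bool) (r : ↥C.K) : r ∈ C.surf.R a b ↔ (r : F) ∈ C.B a b := by
  rw [← IC]
  have h0 : r ∈ C.surf.R a b ↔
      IsIntegral ↥(Algebra.adjoin ℂ {coord C.surf.t a, coord C.surf.x b}) r := Iff.rfl
  rw [h0]
  let f : ↥(Algebra.adjoin ℂ {coord C.surf.t a, coord C.surf.x b}) →+*
      ↥(Algebra.adjoin ℂ {C.T a, C.Xc b}) :=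
    ((C.K.val : ↥C.K →+* F).comp (algebraMap _ ↥C.K)).codRestrict _ (fun z => by
      rw [← ic_map]; exact ⟨z.1, z.2, rfl⟩)
  have hf : Function.Surjective f := by
    rintro ⟨z, hz⟩
    have hz' := hz
    rw [← ic_map] at hz'
    obtain ⟨w, hw, rfl⟩ := hz'
    exact ⟨⟨w, hw⟩, rfl⟩
  constructor
  · intro h
    exact IsIntegral.map_of_comp_eq f (C.K.val : ↥C.K →+* F) (by ext z; rfl) h
  · rintro ⟨p, hp1, hp2⟩
    have h1 : p ∈ Polynomial.lifts f := by
      rw [Polynomial.lifts_iff_coeff_lifts]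
      intro n
      exact hf _
    obtain ⟨q, hq1, -, hq2⟩ := Polynomial.lifts_and_natDegree_eq_and_monic h1 hp1
    refine ⟨q, hq2, ?_⟩
    rw [← hq1, Polynomial.eval₂_map] at hp2
    have h2 := Polynomial.hom_eval₂ q (algebraMap _ ↥C.K) (C.K.val : ↥C.K →+* F) r
    have h3 : (C.K.val : ↥C.K →+* F) (Polynomial.eval₂ (algebraMap _ ↥C.K) r q) = 0 := by
      rw [h2]; exact hp2
    exact (map_eq_zero_iff _ (C.K.val : ↥C.K →+* F).injective).1 h3

theorem ι_B (a b : Bool) (y : F) (hy : y ∈ C.B a b) : C.ι y ∈ C.B a b := by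
  have h1 : C.B a b ≤ (C.B a b).comap C.ι.toAlgHom := by
    refine sup_le ?_ ?_
    · intro z hz
      exact (le_sup_left : C.OC a ≤ C.B a b) (C.ι_OC a z hz)
    · intro z hz
      exact (le_sup_right : C.OF b ≤ C.B a b) (C.ι_OF b z hz)
  exact h1 hy

theorem ic_ι_e (a b : Bool) (χ : Bool × Bool × Bool) (A : Polynomial (Polynomial ℂ)) :
    C.ι (C.ic_Psi a b A * C.ic_e a b χ) =
      (if (xor χ.1 (xor χ.2.1 χ.2.2)) then (-1 : ℂ) else 1) • (C.ic_Psi a b A * C.ic_e a b χ) := by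
  have h1 : C.ι (C.S a) = -C.S a := by cases a <;> simp [S]
  have h2 := C.xs_ι_P b
  have h3 := C.xs_ι_Q b
  rw [map_mul, C.ic_fix C.ι a b C.ι_t C.ι_x]
  rcases χ with ⟨x, y, z⟩
  cases x <;> cases y <;> cases z <;> simp [ic_e, h1, h2, h3]

theorem ic_ι_ι (a b : Bool) (y : F) (hy : y ∈ C.B a b) : C.ι (C.ι y) = y := by
  obtain ⟨A, rfl⟩ := C.ic_rep a b y hy
  rw [map_sum, map_sum]
  refine Finset.sum_congr rfl fun χ _ => ?_
  rw [ic_ι_e, map_smul, ic_ι_e, smul_smul]
  split_ifs <;> simp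

theorem B_decomp (a b : Bool) (y : F) (hy : y ∈ C.B a b) :
    ∃ α β : F, α ∈ C.B a b ∧ β ∈ C.B a b ∧ C.ι α = α ∧ C.ι β = β ∧ y = α + β * C.j b := by
  have hj : C.j b ≠ 0 := by
    intro h0
    have h := C.j_mul b
    rw [h0, zero_mul] at h
    have : CharZero F := charZero_of_injective_algebraMap (algebraMap ℂ F).injective
    exact two_ne_zero h.symm
  have hιι : C.ι (C.ι y) = y := C.ic_ι_ι a b y hy
  have hji : (C.j b)⁻¹ ∈ C.B a b := (le_sup_right : C.OF b ≤ C.B a b) (C.j_inv_mem b)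
  refine ⟨(1 / 2 : ℂ) • (y + C.ι y), (1 / 2 : ℂ) • ((y - C.ι y) * (C.j b)⁻¹), ?_, ?_, ?_, ?_, ?_⟩
  · exact Subalgebra.smul_mem _ (add_mem hy (C.ι_B a b y hy)) _
  · exact Subalgebra.smul_mem _ (mul_mem (sub_mem hy (C.ι_B a b y hy)) hji) _
  · rw [map_smul, map_add, hιι, add_comm]
  · rw [map_smul, map_mul, map_sub, map_inv₀, ι_j, hιι]
    congr 1
    rw [inv_neg]; ring
  · rw [smul_mul_assoc, mul_assoc, inv_mul_cancel₀ hj, mul_one, ← smul_add,
      show y + C.ι y + (y - C.ι y) = (2 : ℂ) • y by rw [two_smul]; ring, smul_smul]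
    norm_num

theorem even_gen (a b : Bool) (y : F) (hy : y ∈ C.B a b) (h : C.ι y = y) :
    y ∈ Algebra.adjoin ℂ {C.T a, C.Xc b, C.P b * C.Q b, C.S a * C.j b} := by
  obtain ⟨A, hA⟩ := C.ic_rep a b y hy
  set G := Algebra.adjoin ℂ {C.T a, C.Xc b, C.P b * C.Q b, C.S a * C.j b} with hG
  have hle : Algebra.adjoin ℂ {C.T a, C.Xc b} ≤ G := Algebra.adjoin_mono (by
    rintro z hz
    simp only [Set.mem_insert_iff, Set.mem_singleton_iff] at hz
    rcases hz with rfl | rfl <;> simp)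
  have hX : C.Xc b ∈ G := Algebra.subset_adjoin (by simp)
  have hY : C.P b * C.Q b ∈ G := Algebra.subset_adjoin (by simp)
  have hr : C.S a * C.j b ∈ G := Algebra.subset_adjoin (by simp)
  have hP := C.xs_P_sq b
  have hQ := C.xs_Q_sq b
  have h1 : y = (1 / 2 : ℂ) • (y + C.ι y) := by
    rw [h, ← two_smul ℂ y, smul_smul]; norm_num
  have hsum : y + C.ι y = ∑ χ, (C.ic_Psi a b (A χ) * C.ic_e a b χ +
      (if (xor χ.1 (xor χ.2.1 χ.2.2)) then (-1 : ℂ) else 1) •
        (C.ic_Psi a b (A χ) * C.ic_e a b χ)) := by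
    rw [Finset.sum_add_distrib]
    conv_lhs => rw [hA]
    rw [map_sum]
    congr 1
    exact Finset.sum_congr rfl fun χ _ => C.ic_ι_e a b χ (A χ)
  rw [h1, hsum]
  refine Subalgebra.smul_mem _ (sum_mem fun χ _ => ?_) _
  by_cases hχ : (xor χ.1 (xor χ.2.1 χ.2.2)) = true
  · rw [if_pos hχ, neg_one_smul, add_neg_cancel]
    exact zero_mem _
  rw [if_neg hχ, one_smul]
  have hA' : C.ic_Psi a b (A χ) ∈ G := hle (C.ic_Psi_mem a b _)
  have he : C.ic_e a b χ ∈ G := by
    rcases χ with ⟨x, y, z⟩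
    have hSP : C.S a * C.P b ∈ G := by
      have : C.S a * C.P b = (1 / 2 : ℂ) • ((C.S a * C.j b) *
          (C.Xc b * C.Xc b + 1 - C.P b * C.Q b)) := by
        rw [← xs_P_sq, j, Algebra.smul_def]
        have h2 : (algebraMap ℂ F (1 / 2)) * 2 = 1 := by
          rw [show (2 : F) = algebraMap ℂ F 2 from (map_ofNat _ 2).symm, ← map_mul]; norm_num
        linear_combination -(C.S a * C.P b) * h2 -
          (algebraMap ℂ F (1 / 2)) * C.S a * C.P b * (hP - hQ)
      rw [this]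
      exact Subalgebra.smul_mem _ (mul_mem hr (sub_mem (add_mem (mul_mem hX hX) (one_mem _)) hY)) _
    have hSQ : C.S a * C.Q b ∈ G := by
      have : C.S a * C.Q b = (1 / 2 : ℂ) • ((C.S a * C.j b) *
          (C.P b * C.Q b - (C.Xc b * C.Xc b - 1))) := by
        rw [← xs_Q_sq, j, Algebra.smul_def]
        have h2 : (algebraMap ℂ F (1 / 2)) * 2 = 1 := by
          rw [show (2 : F) = algebraMap ℂ F 2 from (map_ofNat _ 2).symm, ← map_mul]; norm_num
        linear_combination -(C.S a * C.Q b) * h2 -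
          (algebraMap ℂ F (1 / 2)) * C.S a * C.Q b * (hP - hQ)
      rw [this]
      exact Subalgebra.smul_mem _ (mul_mem hr (sub_mem hY (sub_mem (mul_mem hX hX) (one_mem _)))) _
    cases x <;> cases y <;> cases z <;> simp at hχ
    · simp only [ic_e, Bool.false_eq_true, if_false, mul_one]; exact one_mem _
    · simp only [ic_e, Bool.false_eq_true, if_false, if_true, one_mul]; exact hY
    · simp only [ic_e, Bool.false_eq_true, if_false, if_true, mul_one]; exact hSQ
    · simp only [ic_e, Bool.false_eq_true, if_false, if_true, mul_one]; exact hSP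
  exact add_mem (mul_mem hA' he) (mul_mem hA' he)

open scoped IntermediateField.algebraAdjoinAdjoin in
theorem alg_KC (γ : F) (h : IsAlgebraic ↥(IntermediateField.adjoin ℂ {C.t}) γ) : γ ∈ C.KC := by
  have h1 : IsAlgebraic ↥(Algebra.adjoin ℂ {C.t}) γ :=
    (IsFractionRing.isAlgebraic_iff ↥(Algebra.adjoin ℂ {C.t})
      ↥(IntermediateField.adjoin ℂ {C.t}) F).2 h
  obtain ⟨d, hd0, hd⟩ := h1.exists_integral_multiple
  have hd0' : (d : F) ≠ 0 := fun h0 => hd0 (Subtype.ext h0)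
  have h2 : ∀ b, (d : F) * γ ∈ C.B false b := by
    intro b
    rw [← IC]
    have hle : Algebra.adjoin ℂ {C.t} ≤ Algebra.adjoin ℂ {C.T false, C.Xc b} :=
      Algebra.adjoin_mono (by
        rintro z hz
        rw [Set.mem_singleton_iff] at hz
        subst hz
        exact Or.inl rfl)
    exact IsIntegral.map_of_comp_eq (Subalgebra.inclusion hle).toRingHom (RingHom.id F)
      (by ext z; rfl) hd
  have hB : ∀ b, (sm (C.B false b) : Submodule ℂ F) = sm (C.OC false) * sm (C.OF b) := fun b => by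
    rw [Subalgebra.mul_toSubmodule]; rfl
  have h3 : (d : F) * γ ∈ (sm (C.OC false) * sm (C.OF false)) ⊓ (sm (C.OC false) * sm (C.OF true)) := by
    rw [← hB, ← hB]
    exact ⟨h2 false, h2 true⟩
  rw [C.inf_mul _ _ _ _ (C.OC_le false) (C.OC_le false) (C.OF_le false) (C.OF_le true),
    inf_idem] at h3
  have h4 : (sm (C.OF false) ⊓ sm (C.OF true) : Submodule ℂ F) = 1 := by
    have h5 : (sm (C.OF false) ⊓ sm (C.OF true) : Submodule ℂ F) =
        Subalgebra.toSubmodule (C.OF false ⊓ C.OF true) := rfl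
    rw [h5, OF_inf, Algebra.toSubmodule_bot]
  rw [h4, mul_one] at h3
  have h6 : (d : F) * γ ∈ C.KC := C.OC_le false _ h3
  have h7 : (d : F) ∈ C.KC := by
    have hle : Algebra.adjoin ℂ {C.t} ≤ C.KC.toSubalgebra := Algebra.adjoin_le (by
      rintro z hz
      rw [Set.mem_singleton_iff] at hz
      subst hz
      exact IntermediateField.subset_adjoin _ _ (by simp))
    exact hle d.2
  have h8 : γ = (d : F) * γ * (d : F)⁻¹ := by field_simp
  rw [h8]
  exact mul_mem h6 (inv_mem h7)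

end Cfg

end

end Pool.Agent.EllMod
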