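import Pool.Agent.MP_77976d_ag.Xs

/-! # XM : the twisted lattices `QM_b = M_b OF_b` on `F₀` -/

open scoped TensorProduct
open IsLocalRing

namespace Pool.Agent.EllMod

noncomputable section

variable {F : Type} [Field F] [Algebra ℂ F] (C : Cfg F)

namespace Cfg

theorem xm_m1f : ((C.m1 false : ↥C.K) : F) = C.x + i := rfl
theorem xm_m2f : ((C.m2 false : ↥C.K) : F) = C.p * C.q := rfl
theorem xm_m1t : ((C.m1 true : ↥C.K) : F) = C.x + i + C.p * C.q * C.x⁻¹ := rfl
theorem xm_m2t : ((C.m2 true : ↥C.K) : F) = (C.x + i) * C.x⁻¹ := rfl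

theorem xm_le {b : Bool} {S : Submodule ℂ F} (h1 : ∀ w ∈ C.OF b, (C.m1 b : F) * w ∈ S)
    (h2 : ∀ w ∈ C.OF b, (C.m2 b : F) * w ∈ S) : C.QM b ≤ S := by
  refine Submodule.mul_le.2 ?_
  intro m hm w hw
  rw [Submodule.mem_span_pair] at hm
  obtain ⟨c, d, rfl⟩ := hm
  rw [add_mul, smul_mul_assoc, smul_mul_assoc]
  exact S.add_mem (S.smul_mem _ (h1 w hw)) (S.smul_mem _ (h2 w hw))

theorem xm_mem1 {b : Bool} {w : F} (hw : w ∈ C.OF b) : (C.m1 b : F) * w ∈ C.QM b :=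
  Submodule.mul_mem_mul (Submodule.subset_span (by simp)) hw

theorem xm_mem2 {b : Bool} {w : F} (hw : w ∈ C.OF b) : (C.m2 b : F) * w ∈ C.QM b :=
  Submodule.mul_mem_mul (Submodule.subset_span (by simp)) hw

theorem xm_mul {b : Bool} {w v : F} (hw : w ∈ C.OF b) (hv : v ∈ C.QM b) : w * v ∈ C.QM b := by
  have h1 : C.QM b ≤ (C.QM b).comap (LinearMap.mulLeft ℂ w) := by
    refine C.xm_le (fun u hu => ?_) (fun u hu => ?_)
    · change w * ((C.m1 b : F) * u) ∈ C.QM b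
      rw [mul_left_comm]; exact C.xm_mem1 (mul_mem hw hu)
    · change w * ((C.m2 b : F) * u) ∈ C.QM b
      rw [mul_left_comm]; exact C.xm_mem2 (mul_mem hw hu)
  exact h1 hv

theorem QM_le (b : Bool) : ∀ y ∈ C.QM b, y ∈ C.KF := by
  have hX : C.x ∈ C.KF := IntermediateField.subset_adjoin _ _ (by simp)
  have hP : C.p ∈ C.KF := IntermediateField.subset_adjoin _ _ (by simp)
  have hQ : C.q ∈ C.KF := IntermediateField.subset_adjoin _ _ (by simp)
  have hI : (i : F) ∈ C.KF := C.KF.algebraMap_mem _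
  have h1 : (C.m1 b : F) ∈ C.KF := by
    cases b
    · rw [xm_m1f]; exact add_mem hX hI
    · rw [xm_m1t]; exact add_mem (add_mem hX hI) (mul_mem (mul_mem hP hQ) (inv_mem hX))
  have h2 : (C.m2 b : F) ∈ C.KF := by
    cases b
    · rw [xm_m2f]; exact mul_mem hP hQ
    · rw [xm_m2t]; exact mul_mem (add_mem hX hI) (inv_mem hX)
  have h3 : C.QM b ≤ Subalgebra.toSubmodule C.KF.toSubalgebra :=
    C.xm_le (fun w hw => (mul_mem h1 (C.OF_le b w hw) : (C.m1 b : F) * w ∈ C.KF))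
      (fun w hw => (mul_mem h2 (C.OF_le b w hw) : (C.m2 b : F) * w ∈ C.KF))
  exact fun y hy => h3 hy

theorem QM_false_le : C.QM false ≤ sm (C.OF false) := by
  have hX : C.x ∈ C.OF false := Algebra.subset_adjoin (by simp [Xc, coord])
  have hP : C.p ∈ C.OF false := Algebra.subset_adjoin (by simp [P])
  have hQ : C.q ∈ C.OF false := Algebra.subset_adjoin (by simp [Q])
  have hI : (i : F) ∈ C.OF false := Subalgebra.algebraMap_mem _ _
  refine C.xm_le (fun w hw => ?_) (fun w hw => ?_)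
  · rw [xm_m1f]
    change (C.x + i) * w ∈ C.OF false
    exact mul_mem (add_mem hX hI) hw
  · rw [xm_m2f]
    change (C.p * C.q) * w ∈ C.OF false
    exact mul_mem (mul_mem hP hQ) hw

theorem QM_ι (b : Bool) (y : F) (hy : y ∈ C.QM b) : C.ι y ∈ C.QM b := by
  have h1 : C.QM b ≤ (C.QM b).comap C.ι.toLinearMap := by
    refine C.xm_le (fun w hw => ?_) (fun w hw => ?_)
    · change C.ι ((C.m1 b : F) * w) ∈ C.QM b
      rw [map_mul, (C.m1 b).2]
      exact C.xm_mem1 (C.ι_OF b w hw)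
    · change C.ι ((C.m2 b : F) * w) ∈ C.QM b
      rw [map_mul, (C.m2 b).2]
      exact C.xm_mem2 (C.ι_OF b w hw)
  exact h1 hy

/-! ### linear independence -/

open Polynomial in
theorem xm_poly_of_li {κ : Type} [Fintype κ] (u : κ → F)
    (h : LinearIndependent ℂ (fun m : ℤ × κ => C.x ^ m.1 * u m.2)) (c : κ → ℂ[X])
    (hc : ∑ k, aeval C.x (c k) * u k = 0) (k : κ) : c k = 0 := by
  obtain ⟨N, hN⟩ : ∃ N, ∀ k, (c k).natDegree < N :=
    ⟨(Finset.univ.sup fun k => (c k).natDegree) + 1, fun k =>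
      Nat.lt_succ_of_le (Finset.le_sup (f := fun k => (c k).natDegree) (Finset.mem_univ k))⟩
  have h1 := h.comp (fun m : ℕ × κ => ((m.1 : ℤ), m.2)) (by
    rintro ⟨a, b⟩ ⟨a', b'⟩ h
    simp only [Prod.mk.injEq, Nat.cast_inj] at h ⊢
    exact h)
  have h2 : ∑ m ∈ (Finset.range N) ×ˢ (Finset.univ : Finset κ),
      (c m.2).coeff m.1 • (C.x ^ (m.1 : ℤ) * u m.2) = 0 := by
    rw [Finset.sum_product_right, ← hc]
    refine Finset.sum_congr rfl fun k _ => ?_
    rw [aeval_eq_sum_range' (hN k), Finset.sum_mul]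
    refine Finset.sum_congr rfl fun n _ => ?_
    rw [zpow_natCast, smul_mul_assoc]
  have h3 := linearIndependent_iff'.1 h1 _ (fun m => (c m.2).coeff m.1) h2
  refine Polynomial.ext fun n => ?_
  rw [coeff_zero]
  by_cases hn : n < N
  · exact h3 (n, k) (by simp [hn])
  · exact coeff_eq_zero_of_natDegree_lt ((hN k).trans_le (not_lt.1 hn))

open Polynomial in
theorem xm_li_of_poly {κ : Type} [Fintype κ] (u : κ → F)
    (h : ∀ c : κ → ℂ[X], ∑ k, aeval C.x (c k) * u k = 0 → ∀ k, c k = 0) :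
    LinearIndependent ℂ (fun m : ℤ × κ => C.x ^ m.1 * u m.2) := by
  classical
  have hx := C.xs_x_ne
  rw [linearIndependent_iff']
  intro s g hg m0 hm0
  obtain ⟨M, hM⟩ : ∃ M : ℕ, ∀ m ∈ s, 0 ≤ m.1 + M := by
    refine ⟨s.sup fun m => m.1.natAbs, fun m hm => ?_⟩
    have := Finset.le_sup (f := fun m : ℤ × κ => m.1.natAbs) hm
    omega
  have h1 := h (fun k => ∑ m ∈ s with m.2 = k, monomial (m.1 + M).toNat (g m)) (by
    have h2 : ∑ k, aeval C.x (∑ m ∈ s with m.2 = k, monomial (m.1 + M).toNat (g m)) * u k =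
        ∑ m ∈ s, g m • (C.x ^ (m.1 + M) * u m.2) := by
      rw [← Finset.sum_fiberwise s (fun m => m.2)]
      refine Finset.sum_congr rfl fun k _ => ?_
      rw [map_sum, Finset.sum_mul]
      refine Finset.sum_congr rfl fun m hm => ?_
      rw [Finset.mem_filter] at hm
      rw [aeval_monomial, ← hm.2, Algebra.smul_def, mul_assoc]
      congr 2
      rw [← zpow_natCast, Int.toNat_of_nonneg (hM m hm.1)]
    rw [h2]
    have h3 : ∑ m ∈ s, g m • (C.x ^ (m.1 + M) * u m.2) =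
        C.x ^ (M : ℤ) * ∑ m ∈ s, g m • (C.x ^ m.1 * u m.2) := by
      rw [Finset.mul_sum]
      refine Finset.sum_congr rfl fun m _ => ?_
      rw [zpow_add₀ hx, mul_smul_comm]
      congr 1
      ring
    rw [h3, hg, mul_zero]) m0.2
  have h2 := congrArg (fun P : ℂ[X] => P.coeff (m0.1 + M).toNat) h1
  simp only [finsetSum_coeff, coeff_zero, coeff_monomial] at h2
  rw [Finset.sum_eq_single m0] at h2
  · simpa using h2
  · intro m hm hne
    rw [Finset.mem_filter] at hm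
    rw [if_neg]
    intro h3
    apply hne
    have h4 := hM m hm.1
    have h5 := hM m0 hm0
    refine Prod.ext ?_ hm.2
    omega
  · intro h3
    exact absurd (show m0 ∈ Finset.filter (fun m => m.2 = m0.2) s from
      Finset.mem_filter.2 ⟨hm0, rfl⟩) h3

/-- the common basis of the two lattices -/
def xm_u (k : Fin 4) : F :=
  ![C.x * (C.x + i) + C.p * C.q, C.x + i, C.x * C.p + (C.x + i) * C.q, C.p] k

/-- the basis over `ℂ` -/
def xm_w (m : ℤ × Fin 4) : F := C.x ^ m.1 * C.xm_u m.2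

open Polynomial in
theorem xm_li : LinearIndependent ℂ C.xm_w := by
  refine C.xm_li_of_poly C.xm_u fun c hc => ?_
  have h1 := C.xm_poly_of_li (κ := Bool × Bool) (fun m => C.e (false, m)) C.xs_li
    (fun m => if m.1 then (if m.2 then c 0 else X * c 2 + c 3)
      else (if m.2 then (X + Polynomial.C Complex.I) * c 2
        else X * (X + Polynomial.C Complex.I) * c 0 + (X + Polynomial.C Complex.I) * c 1)) (by
    rw [← hc, Fin.sum_univ_four, Fintype.sum_prod_type]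
    simp only [Fintype.sum_bool, e, if_true, Bool.false_eq_true, if_false, xm_u,
      Matrix.cons_val_zero, Matrix.cons_val_one, Matrix.cons_val, map_add, map_mul, aeval_X, aeval_C]
    change _ = _
    rw [show (algebraMap ℂ F Complex.I) = i from rfl]
    ring)
  have hXi : (X + Polynomial.C Complex.I : ℂ[X]) ≠ 0 := X_add_C_ne_zero _
  have h2 : c 0 = 0 := by simpa using h1 (true, true)
  have h3 : X * c 2 + c 3 = 0 := by simpa using h1 (true, false)
  have h4 : (X + Polynomial.C Complex.I) * c 2 = 0 := by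
    have := h1 (false, true)
    simpa only [Bool.false_eq_true, if_false, if_true] using this
  have h5 : X * (X + Polynomial.C Complex.I) * c 0 + (X + Polynomial.C Complex.I) * c 1 = 0 := by
    have := h1 (false, false)
    simpa only [Bool.false_eq_true, if_false, if_true] using this
  have h6 : c 2 = 0 := (mul_eq_zero.1 h4).resolve_left hXi
  have h7 : c 3 = 0 := by rw [h6, mul_zero, zero_add] at h3; exact h3
  have h8 : c 1 = 0 := by
    rw [h2, mul_zero, zero_add] at h5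
    exact (mul_eq_zero.1 h5).resolve_left hXi
  intro k
  fin_cases k
  · exact h2
  · exact h8
  · exact h6
  · exact h7

theorem xm_x_w (k n : ℤ) (m : Fin 4) : C.x ^ k * C.xm_w (n, m) = C.xm_w (k + n, m) := by
  simp only [xm_w]
  rw [zpow_add₀ C.xs_x_ne]; ring

/-- multiplication by monomials -/
theorem xm_stable (A B : Set (ℤ × Fin 4)) (k : ℤ) (h : ∀ m ∈ A, (k + m.1, m.2) ∈ B) (v : F)
    (hv : v ∈ Submodule.span ℂ (C.xm_w '' A)) : C.x ^ k * v ∈ Submodule.span ℂ (C.xm_w '' B) := by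
  induction hv using Submodule.span_induction with
  | zero => rw [mul_zero]; exact zero_mem _
  | add a c _ _ ha hc => rw [mul_add]; exact add_mem ha hc
  | smul k a _ ha => rw [mul_smul_comm]; exact Submodule.smul_mem _ k ha
  | mem z hz =>
    obtain ⟨⟨n, m⟩, hm, rfl⟩ := hz
    rw [xm_x_w]
    exact Submodule.subset_span ⟨_, h _ hm, rfl⟩

theorem xm_stable_x (v : F) (hv : v ∈ Submodule.span ℂ (C.xm_w '' {m | 0 ≤ m.1})) :
    C.x * v ∈ Submodule.span ℂ (C.xm_w '' {m | 0 ≤ m.1}) := by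
  have h1 := C.xm_stable {m | 0 ≤ m.1} {m | 0 ≤ m.1} 1 (fun m hm => by
    change 0 ≤ 1 + m.1
    have : 0 ≤ m.1 := hm
    omega) v hv
  rwa [zpow_one] at h1

theorem xm_stable_z (v : F) (hv : v ∈ Submodule.span ℂ (C.xm_w '' {m | m.1 ≤ -1})) :
    C.x⁻¹ * v ∈ Submodule.span ℂ (C.xm_w '' {m | m.1 ≤ -1}) := by
  have h1 := C.xm_stable {m | m.1 ≤ -1} {m | m.1 ≤ -1} (-1) (fun m hm => by
    change -1 + m.1 ≤ -1
    have : m.1 ≤ -1 := hm
    omega) v hv
  rwa [zpow_neg_one] at h1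

theorem xm_stable_i (A : Set (ℤ × Fin 4)) (v : F)
    (hv : v ∈ Submodule.span ℂ (C.xm_w '' A)) : i * v ∈ Submodule.span ℂ (C.xm_w '' A) := by
  rw [i, ← Algebra.smul_def]
  exact Submodule.smul_mem _ _ hv

theorem xm_gam_eq (b : Bool) (n : ℕ) (β γ : Bool) :
    C.xs_gam b (n, β, γ) = C.Xc b ^ n * C.xs_gam b (0, β, γ) := by
  simp only [xs_gam, pow_zero]; ring

/-- reduction to the four monomials of degree zero in `X` -/
theorem xm_le' (b : Bool) (S : Submodule ℂ F) (hS : ∀ v ∈ S, C.Xc b * v ∈ S)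
    (h1 : ∀ β γ, (C.m1 b : F) * C.xs_gam b (0, β, γ) ∈ S)
    (h2 : ∀ β γ, (C.m2 b : F) * C.xs_gam b (0, β, γ) ∈ S) : C.QM b ≤ S := by
  have hS' : ∀ n : ℕ, ∀ v ∈ S, C.Xc b ^ n * v ∈ S := by
    intro n
    induction n with
    | zero => intro v hv; rwa [pow_zero, one_mul]
    | succ n ih => intro v hv; rw [pow_succ', mul_assoc]; exact hS _ (ih v hv)
  have key : ∀ m : F, (∀ β γ, m * C.xs_gam b (0, β, γ) ∈ S) → ∀ w ∈ C.OF b, m * w ∈ S := by
    intro m hm w hw
    have hw' : w ∈ Submodule.span ℂ (Set.range (C.xs_gam b)) := by rw [← xs_OF_span]; exact hw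
    clear hw
    induction hw' using Submodule.span_induction with
    | zero => rw [mul_zero]; exact zero_mem _
    | add a c _ _ ha hc => rw [mul_add]; exact add_mem ha hc
    | smul k a _ ha => rw [mul_smul_comm]; exact Submodule.smul_mem _ k ha
    | mem z hz =>
      obtain ⟨⟨n, β, γ⟩, rfl⟩ := hz
      rw [xm_gam_eq, mul_left_comm]
      exact hS' n _ (hm β γ)
  exact C.xm_le (key _ h1) (key _ h2)

theorem xm_false : C.QM false = Submodule.span ℂ (C.xm_w '' {m | 0 ≤ m.1}) := by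
  have hp := C.hp
  have hq := C.hq
  have hi := xs_i_sq (F := F)
  set S := Submodule.span ℂ (C.xm_w '' {m | 0 ≤ m.1}) with hS
  have hx : ∀ v ∈ S, C.x * v ∈ S := C.xm_stable_x
  have hI : ∀ v ∈ S, i * v ∈ S := C.xm_stable_i _
  have hu : ∀ k, C.xm_u k ∈ S := fun k => by
    have h1 : C.xm_u k = C.xm_w (0, k) := by simp [xm_w]
    rw [h1]
    exact Submodule.subset_span ⟨(0, k), by simp, rfl⟩
  have u0 : C.x * (C.x + i) + C.p * C.q ∈ S := hu 0
  have u1 : C.x + i ∈ S := hu 1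
  have u2 : C.x * C.p + (C.x + i) * C.q ∈ S := hu 2
  have u3 : C.p ∈ S := hu 3
  have hxi : ∀ v ∈ S, (C.x + i) * v ∈ S := fun v hv => by
    rw [add_mul]; exact add_mem (hx v hv) (hI v hv)
  have hxi' : ∀ v ∈ S, (C.x - i) * v ∈ S := fun v hv => by
    rw [sub_mul]; exact sub_mem (hx v hv) (hI v hv)
  have hxx : ∀ v ∈ S, (C.x * C.x - 1) * v ∈ S := fun v hv => by
    rw [sub_mul, one_mul, mul_assoc]; exact sub_mem (hx _ (hx v hv)) hv
  apply le_antisymm
  · refine C.xm_le' false S ?_ ?_ ?_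
    · intro v hv; exact hx v hv
    · intro β γ
      rw [xm_m1f]
      cases β <;> cases γ <;>
        simp only [xs_gam, Xc, coord, P, Q, pow_zero, one_mul, mul_one, if_true, Bool.false_eq_true,
          if_false]
      · exact u1
      · have : (C.x + i) * C.q = (C.x * C.p + (C.x + i) * C.q) - C.x * C.p := by ring
        rw [this]; exact sub_mem u2 (hx _ u3)
      · exact hxi _ u3
      · have : (C.x + i) * (C.p * C.q) = (C.x + i) * ((C.x * (C.x + i) + C.p * C.q) -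
            C.x * (C.x + i)) := by ring
        rw [this]; exact hxi _ (sub_mem u0 (hx _ u1))
    · intro β γ
      rw [xm_m2f]
      cases β <;> cases γ <;>
        simp only [xs_gam, Xc, coord, P, Q, pow_zero, one_mul, mul_one, if_true, Bool.false_eq_true,
          if_false]
      · have : C.p * C.q = (C.x * (C.x + i) + C.p * C.q) - C.x * (C.x + i) := by ring
        rw [this]; exact sub_mem u0 (hx _ u1)
      · have : C.p * C.q * C.q = (C.x * C.x - 1) * C.p := by linear_combination C.p * hq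
        rw [this]; exact hxx _ u3
      · have : C.p * C.q * C.p = (C.x - i) * ((C.x * C.p + (C.x + i) * C.q) - C.x * C.p) := by
          linear_combination C.q * hp + C.q * hi
        rw [this]; exact hxi' _ (sub_mem u2 (hx _ u3))
      · have : C.p * C.q * (C.p * C.q) = (C.x - i) * ((C.x * C.x - 1) * (C.x + i)) := by
          linear_combination C.q ^ 2 * hp + (C.x ^ 2 + 1) * hq + (C.x ^ 2 - 1) * hi
        rw [this]; exact hxi' _ (hxx _ u1)
  · refine Submodule.span_le.2 ?_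
    rintro _ ⟨⟨n, k⟩, hn, rfl⟩
    obtain ⟨j, hj⟩ := Int.eq_ofNat_of_zero_le (a := n) hn
    subst hj
    have hX : C.x ∈ C.OF false := Algebra.subset_adjoin (by simp [Xc, coord])
    have hP : C.p ∈ C.OF false := Algebra.subset_adjoin (by simp [P])
    have hQ : C.q ∈ C.OF false := Algebra.subset_adjoin (by simp [Q])
    have hII : (i : F) ∈ C.OF false := Subalgebra.algebraMap_mem _ _
    have h1 : C.xm_w ((j : ℤ), k) = C.x ^ j * C.xm_u k := by simp [xm_w]
    rw [SetLike.mem_coe, h1]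
    refine C.xm_mul (pow_mem hX j) ?_
    have g1 : ∀ w ∈ C.OF false, (C.x + i) * w ∈ C.QM false := fun w hw => by
      rw [← xm_m1f]; exact C.xm_mem1 hw
    have g2 : ∀ w ∈ C.OF false, (C.p * C.q) * w ∈ C.QM false := fun w hw => by
      rw [← xm_m2f]; exact C.xm_mem2 hw
    have v3 : C.p ∈ C.QM false := by
      have : C.p = (-1 / 2 : ℂ) • ((C.p * C.q) * C.q - (C.x + i) * ((C.x - i) * C.p)) := by
        rw [Algebra.smul_def]
        have h2 : (algebraMap ℂ F (-1 / 2)) * 2 = -1 := by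
          rw [show (2 : F) = algebraMap ℂ F 2 from (map_ofNat _ 2).symm, ← map_mul]; norm_num
        linear_combination C.p * h2 - (algebraMap ℂ F (-1 / 2)) * C.p * hq -
          (algebraMap ℂ F (-1 / 2)) * C.p * hi
      rw [this]
      exact Submodule.smul_mem _ _ (sub_mem (g2 _ hQ) (g1 _ (mul_mem (sub_mem hX hII) hP)))
    fin_cases k
    · change C.x * (C.x + i) + C.p * C.q ∈ C.QM false
      have : C.x * (C.x + i) + C.p * C.q = (C.x + i) * C.x + (C.p * C.q) * 1 := by ring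
      rw [this]; exact add_mem (g1 _ hX) (g2 _ (one_mem _))
    · change C.x + i ∈ C.QM false
      have : C.x + i = (C.x + i) * 1 := by ring
      rw [this]; exact g1 _ (one_mem _)
    · change C.x * C.p + (C.x + i) * C.q ∈ C.QM false
      exact add_mem (C.xm_mul hX v3) (g1 _ hQ)
    · exact v3

theorem xm_true : C.QM true = Submodule.span ℂ (C.xm_w '' {m | m.1 ≤ -1}) := by
  have hp := C.hp
  have hq := C.hq
  have hi := xs_i_sq (F := F)
  have hxz : C.x * C.x⁻¹ = 1 := mul_inv_cancel₀ C.xs_x_ne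
  set S := Submodule.span ℂ (C.xm_w '' {m | m.1 ≤ -1}) with hS
  have hz : ∀ v ∈ S, C.x⁻¹ * v ∈ S := C.xm_stable_z
  have hI : ∀ v ∈ S, i * v ∈ S := C.xm_stable_i _
  have hu : ∀ k, C.x⁻¹ * C.xm_u k ∈ S := fun k => by
    have h1 : C.x⁻¹ * C.xm_u k = C.xm_w (-1, k) := by simp [xm_w]
    rw [h1]
    exact Submodule.subset_span ⟨(-1, k), by simp, rfl⟩
  have u0 : C.x⁻¹ * (C.x * (C.x + i) + C.p * C.q) ∈ S := hu 0
  have u1 : C.x⁻¹ * (C.x + i) ∈ S := hu 1
  have u2 : C.x⁻¹ * (C.x * C.p + (C.x + i) * C.q) ∈ S := hu 2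
  have u3 : C.x⁻¹ * C.p ∈ S := hu 3
  have h1iz : ∀ v ∈ S, (1 + i * C.x⁻¹) * v ∈ S := fun v hv => by
    rw [add_mul, one_mul, mul_assoc]; exact add_mem hv (hI _ (hz v hv))
  have h1iz' : ∀ v ∈ S, (1 - i * C.x⁻¹) * v ∈ S := fun v hv => by
    rw [sub_mul, one_mul, mul_assoc]; exact sub_mem hv (hI _ (hz v hv))
  have hziz : ∀ v ∈ S, (C.x⁻¹ + i * C.x⁻¹ * C.x⁻¹) * v ∈ S := fun v hv => by
    rw [add_mul, mul_assoc, mul_assoc]; exact add_mem (hz v hv) (hI _ (hz _ (hz v hv)))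
  have h2i : ∀ v ∈ S, (2 * i) * v ∈ S := fun v hv => by
    rw [mul_assoc, two_mul]; exact add_mem (hI v hv) (hI v hv)
  have hbig : ∀ v ∈ S, (-2 * i - C.x⁻¹ + i * C.x⁻¹ * C.x⁻¹) * v ∈ S := fun v hv => by
    have : (-2 * i - C.x⁻¹ + i * C.x⁻¹ * C.x⁻¹) * v =
      -((2 * i) * v) - C.x⁻¹ * v + i * (C.x⁻¹ * (C.x⁻¹ * v)) := by ring
    rw [this]
    exact add_mem (sub_mem (neg_mem (h2i v hv)) (hz v hv)) (hI _ (hz _ (hz v hv)))
  apply le_antisymm
  · refine C.xm_le' true S ?_ ?_ ?_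
    · intro v hv; exact hz v hv
    · intro β γ
      rw [xm_m1t]
      cases β <;> cases γ <;>
        simp only [xs_gam, Xc, coord, P, Q, pow_zero, one_mul, mul_one, if_true, Bool.false_eq_true,
          if_false]
      · have : C.x + i + C.p * C.q * C.x⁻¹ = C.x⁻¹ * (C.x * (C.x + i) + C.p * C.q) := by
          linear_combination ((-1) * C.x + (-1) * i) * hxz
        rw [this]; exact u0
      · have : (C.x + i + C.p * C.q * C.x⁻¹) * (i * C.q * C.x⁻¹) =
            i * (C.x⁻¹ * (C.x * C.p + (C.x + i) * C.q)) - i * (C.x⁻¹ * (C.x⁻¹ * C.p)) := by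
          linear_combination ((1) * C.x * C.x⁻¹ * C.p * i) * hxz + ((1) * C.x⁻¹ ^ 2 * C.p * i) * hq
        rw [this]; exact sub_mem (hI _ u2) (hI _ (hz _ u3))
      · have : (C.x + i + C.p * C.q * C.x⁻¹) * (C.p * C.x⁻¹) =
            (1 - i * C.x⁻¹) * (C.x⁻¹ * (C.x * C.p + (C.x + i) * C.q)) +
              (2 * i) * (C.x⁻¹ * C.p) := by
          linear_combination ((1) * C.x * C.x⁻¹ * C.q + (1) * C.x⁻¹ * C.p * i +
            (1) * C.x⁻¹ * C.q * i) * hxz + ((1) * C.x⁻¹ ^ 2 * C.q) * hp +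
            ((1) * C.x⁻¹ ^ 2 * C.q) * hi
        rw [this]; exact add_mem (h1iz' _ u2) (h2i _ u3)
      · have : (C.x + i + C.p * C.q * C.x⁻¹) * (C.p * C.x⁻¹ * (i * C.q * C.x⁻¹)) =
            i * ((1 + i * C.x⁻¹) * (C.x⁻¹ * (C.x * (C.x + i) + C.p * C.q)) +
              (-2 * i - C.x⁻¹ + i * C.x⁻¹ * C.x⁻¹) * (C.x⁻¹ * (C.x + i))) := by
          linear_combination ((1) * C.x * C.x⁻¹ ^ 2 * C.q ^ 2 * i + (1) * C.x * C.x⁻¹ ^ 2 * i +
            (-1) * C.x * C.x⁻¹ * i ^ 2 + (-1) * C.x⁻¹ ^ 2 * i ^ 2 + (1) * C.x⁻¹ * C.p * C.q * i +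
            (1) * C.x⁻¹ * C.q ^ 2 * i + (-1) * C.x⁻¹ * i ^ 3 + (2) * C.x⁻¹ * i) * hxz +
            ((1) * C.x⁻¹ ^ 3 * C.q ^ 2 * i) * hp + ((1) * C.x⁻¹ ^ 3 * i + (1) * C.x⁻¹ * i) * hq +
            ((-1) * C.x⁻¹ ^ 3 * i + (1) * C.x⁻¹ * i) * hi
        rw [this]; exact hI _ (add_mem (h1iz _ u0) (hbig _ u1))
    · intro β γ
      rw [xm_m2t]
      cases β <;> cases γ <;>
        simp only [xs_gam, Xc, coord, P, Q, pow_zero, one_mul, mul_one, if_true, Bool.false_eq_true,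
          if_false]
      · have : (C.x + i) * C.x⁻¹ = C.x⁻¹ * (C.x + i) := by ring
        rw [this]; exact u1
      · have : (C.x + i) * C.x⁻¹ * (i * C.q * C.x⁻¹) =
            i * (C.x⁻¹ * (C.x⁻¹ * (C.x * C.p + (C.x + i) * C.q)) - C.x⁻¹ * C.p) := by
          linear_combination ((-1) * C.x⁻¹ * C.p * i) * hxz
        rw [this]; exact hI _ (sub_mem (hz _ u2) u3)
      · have : (C.x + i) * C.x⁻¹ * (C.p * C.x⁻¹) = (1 + i * C.x⁻¹) * (C.x⁻¹ * C.p) := by
          linear_combination ((1) * C.x⁻¹ * C.p) * hxz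
        rw [this]; exact h1iz _ u3
      · have : (C.x + i) * C.x⁻¹ * (C.p * C.x⁻¹ * (i * C.q * C.x⁻¹)) =
            i * ((C.x⁻¹ + i * C.x⁻¹ * C.x⁻¹) * (C.x⁻¹ * (C.x * (C.x + i) + C.p * C.q)) -
              (1 + i * C.x⁻¹) * (C.x⁻¹ * (C.x + i))) := by
          linear_combination ((-1) * C.x * C.x⁻¹ ^ 2 * i ^ 2 + (-1) * C.x * C.x⁻¹ * i +
            (1) * C.x⁻¹ ^ 2 * C.p * C.q * i + (-1) * C.x⁻¹ ^ 2 * i ^ 3 +
            (-1) * C.x⁻¹ * i ^ 2) * hxz
        rw [this]; exact hI _ (sub_mem (hziz _ u0) (h1iz _ u1))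
  · refine Submodule.span_le.2 ?_
    rintro _ ⟨⟨n, k⟩, hn, rfl⟩
    obtain ⟨j, hj⟩ := Int.eq_ofNat_of_zero_le (a := -1 - n) (by
      have : n ≤ -1 := hn
      omega)
    have hn' : n = -(j : ℤ) + -1 := by omega
    subst hn'
    have hZ : C.x⁻¹ ∈ C.OF true := Algebra.subset_adjoin (by simp [Xc, coord])
    have hP : C.p * C.x⁻¹ ∈ C.OF true := Algebra.subset_adjoin (by simp [P])
    have hQ : i * C.q * C.x⁻¹ ∈ C.OF true := Algebra.subset_adjoin (by simp [Q])
    have hII : (i : F) ∈ C.OF true := Subalgebra.algebraMap_mem _ _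
    have h1 : C.xm_w (-(j : ℤ) + -1, k) = C.x⁻¹ ^ j * (C.x⁻¹ * C.xm_u k) := by
      simp only [xm_w]
      rw [zpow_add₀ C.xs_x_ne, zpow_neg, zpow_natCast, zpow_neg_one, inv_pow]
      ring
    rw [SetLike.mem_coe, h1]
    refine C.xm_mul (pow_mem hZ j) ?_
    have g1 : ∀ w ∈ C.OF true, (C.x + i + C.p * C.q * C.x⁻¹) * w ∈ C.QM true := fun w hw => by
      rw [← xm_m1t]; exact C.xm_mem1 hw
    have g2 : ∀ w ∈ C.OF true, ((C.x + i) * C.x⁻¹) * w ∈ C.QM true := fun w hw => by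
      rw [← xm_m2t]; exact C.xm_mem2 hw
    have v3 : C.x⁻¹ * C.p ∈ C.QM true := by
      have : C.x⁻¹ * C.p = (-1 / 2 : ℂ) • (((C.x + i) * C.x⁻¹) * (-i * (i * C.q * C.x⁻¹)) +
          (C.x + i + C.p * C.q * C.x⁻¹) * (i * C.x⁻¹ * (i * C.q * C.x⁻¹)) -
          ((C.x + i) * C.x⁻¹) * ((1 - i * C.x⁻¹) * (C.p * C.x⁻¹))) := by
        rw [Algebra.smul_def]
        have h2 : (algebraMap ℂ F (-1 / 2)) * 2 = -1 := by
          rw [show (2 : F) = algebraMap ℂ F 2 from (map_ofNat _ 2).symm, ← map_mul]; norm_num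
        linear_combination (C.x⁻¹ * C.p) * h2 + (algebraMap ℂ F (-1 / 2)) *
          (((-1) * C.x * C.x⁻¹ ^ 2 * C.p * i ^ 2 + (-1) * C.x⁻¹ ^ 2 * C.p * i +
            (-1) * C.x⁻¹ * C.p * i ^ 2 + (1) * C.x⁻¹ * C.p) * hxz +
            ((-1) * C.x⁻¹ ^ 3 * C.p * i ^ 2) * hq + ((-1) * C.x⁻¹ * C.p) * hi)
      rw [this]
      refine Submodule.smul_mem _ _ (sub_mem (add_mem (g2 _ ?_) (g1 _ ?_)) (g2 _ ?_))
      · exact mul_mem (neg_mem hII) hQ
      · exact mul_mem (mul_mem hII hZ) hQ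
      · exact mul_mem (sub_mem (one_mem _) (mul_mem hII hZ)) hP
    fin_cases k
    · change C.x⁻¹ * (C.x * (C.x + i) + C.p * C.q) ∈ C.QM true
      have : C.x⁻¹ * (C.x * (C.x + i) + C.p * C.q) = (C.x + i + C.p * C.q * C.x⁻¹) * 1 := by
        linear_combination ((1) * C.x + (1) * i) * hxz
      rw [this]; exact g1 _ (one_mem _)
    · change C.x⁻¹ * (C.x + i) ∈ C.QM true
      have : C.x⁻¹ * (C.x + i) = ((C.x + i) * C.x⁻¹) * 1 := by ring
      rw [this]; exact g2 _ (one_mem _)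
    · change C.x⁻¹ * (C.x * C.p + (C.x + i) * C.q) ∈ C.QM true
      have : C.x⁻¹ * (C.x * C.p + (C.x + i) * C.q) =
          (C.x + i + C.p * C.q * C.x⁻¹) * (-i * (i * C.q * C.x⁻¹)) + C.x⁻¹ * (C.x⁻¹ * C.p) := by
        linear_combination ((1) * C.x * C.x⁻¹ * C.p * i ^ 2 + (1) * C.p * i ^ 2 + (1) * C.p +
          (1) * C.q * i ^ 2 + (1) * C.q) * hxz + ((1) * C.x⁻¹ ^ 2 * C.p * i ^ 2) * hq +
          ((-1) * C.x⁻¹ ^ 2 * C.p + (1) * C.x⁻¹ * C.q * i + (1) * C.p + (1) * C.q) * hi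
      rw [this]
      exact add_mem (g1 _ (mul_mem (neg_mem hII) hQ)) (C.xm_mul hZ v3)
    · exact v3

theorem finrank_QM (n : ℕ) (hn : 1 ≤ n) :
    Module.finrank ℂ (secs C.x (C.QM false) (C.QM true) n) = 4 * n := by
  have hx := C.xs_x_ne
  have h1 : (C.QM true).comap (LinearMap.mulLeft ℂ (C.x⁻¹ ^ n)) =
      Submodule.span ℂ (C.xm_w '' {m | m.1 ≤ (n : ℤ) - 1}) := by
    apply le_antisymm
    · intro v hv
      have h2 : C.x⁻¹ ^ n * v ∈ Submodule.span ℂ (C.xm_w '' {m | m.1 ≤ -1}) := by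
        rw [← xm_true]; exact hv
      have h3 : v = C.x ^ (n : ℤ) * (C.x⁻¹ ^ n * v) := by
        rw [zpow_natCast, ← mul_assoc, ← mul_pow, mul_inv_cancel₀ hx, one_pow, one_mul]
      rw [h3]
      refine C.xm_stable _ _ _ (fun m hm => ?_) _ h2
      have : m.1 ≤ -1 := hm
      change (n : ℤ) + m.1 ≤ n - 1
      omega
    · intro v hv
      change C.x⁻¹ ^ n * v ∈ C.QM true
      rw [inv_pow, ← zpow_natCast, ← zpow_neg, xm_true]
      refine C.xm_stable _ _ _ (fun m hm => ?_) _ hv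
      have : m.1 ≤ (n : ℤ) - 1 := hm
      change -(n : ℤ) + m.1 ≤ -1
      omega
  unfold secs
  rw [h1, xm_false, xs_inf C.xm_li]
  have h2 : ({m : ℤ × Fin 4 | 0 ≤ m.1} ∩ {m | m.1 ≤ (n : ℤ) - 1}) =
      ((Finset.Icc (0 : ℤ) (n - 1) ×ˢ Finset.univ : Finset (ℤ × Fin 4)) : Set (ℤ × Fin 4)) := by
    ext ⟨k, a⟩
    simp
  rw [h2, xs_finrank C.xm_li, Finset.card_product, Int.card_Icc]
  simp only [Finset.card_univ, Fintype.card_fin]
  omega

end Cfg

end

end Pool.Agent.EllMod
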