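import Pool.Agent.MP_77976d_ag.Tw
import Pool.Agent.MP_77976d_ag.Ic
import Pool.Agent.MP_77976d_ag.Xm
import Pool.Agent.MP_77976d_ag.Coh

/-! # MB : the line bundle `M`; coherence and determinant of `E' = M E` -/

open scoped TensorProduct
open IsLocalRing

namespace Pool.Agent.EllMod

noncomputable section

section MbGen

variable {K : Type} [Field K] [Algebra ℂ K] {X : Surf K} {W : Type} [AddCommGroup W]
  [Module ℂ W] [Module K W] [IsScalarTower ℂ K W]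

theorem Mb_smul_mem {M : Lat K} {E : Lat W} {a b : Bool}
    (hM : ∀ r ∈ X.R a b, ∀ m ∈ M a b, r * m ∈ M a b) (r : K) (hr : r ∈ X.R a b)
    (w : W) (hw : w ∈ mulLat M E a b) : r • w ∈ mulLat M E a b := by
  unfold mulLat at hw ⊢
  induction hw using Submodule.span_induction with
  | mem x hx =>
    obtain ⟨m, hm, v, hv, rfl⟩ := hx
    exact Submodule.subset_span ⟨r * m, hM r hr m hm, v, hv, by rw [mul_smul]⟩
  | zero => rw [smul_zero]; exact Submodule.zero_mem _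
  | add x y _ _ hx hy => rw [smul_add]; exact Submodule.add_mem _ hx hy
  | smul c x _ hx => rw [smul_comm]; exact Submodule.smul_mem _ c hx

theorem Mb_fg {M : Lat K} {E : Lat W} {a b : Bool}
    (hM : ∀ r ∈ X.R a b, ∀ m ∈ M a b, r * m ∈ M a b)
    (h1 : ∃ S : Finset K, (M a b : Set K) = Submodule.span (X.R a b) (S : Set K))
    (h2 : ∃ S : Finset W, (E a b : Set W) = Submodule.span (X.R a b) (S : Set W)) :
    ∃ S : Finset W, (mulLat M E a b : Set W) = Submodule.span (X.R a b) (S : Set W) := by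
  classical
  obtain ⟨S, hS⟩ := h1
  obtain ⟨T, hT⟩ := h2
  refine ⟨(S ×ˢ T).image (fun z => z.1 • z.2), ?_⟩
  apply Set.Subset.antisymm
  · intro w hw
    have key : mulLat M E a b ≤ (Submodule.span (X.R a b)
        (((S ×ˢ T).image (fun z => z.1 • z.2) : Finset W) : Set W)).restrictScalars ℂ := by
      unfold mulLat
      rw [Submodule.span_le]
      rintro _ ⟨m, hm, v, hv, rfl⟩
      have hm' : m ∈ Submodule.span (X.R a b) (S : Set K) := by
        rw [← SetLike.mem_coe, ← hS]; exact hm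
      have hv' : v ∈ Submodule.span (X.R a b) (T : Set W) := by
        rw [← SetLike.mem_coe, ← hT]; exact hv
      simp only [SetLike.mem_coe, Submodule.restrictScalars_mem]
      induction hm' using Submodule.span_induction with
      | mem x hx =>
        clear hv hm
        induction hv' using Submodule.span_induction with
        | mem y hy =>
          apply Submodule.subset_span
          rw [Finset.mem_coe, Finset.mem_image]
          exact ⟨(x, y), Finset.mem_product.2 ⟨hx, hy⟩, rfl⟩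
        | zero => rw [smul_zero]; exact Submodule.zero_mem _
        | add y z _ _ hy hz => rw [smul_add]; exact Submodule.add_mem _ hy hz
        | smul c y _ hy =>
          rw [Subalgebra.smul_def, smul_comm]
          exact Submodule.smul_mem _ c hy
      | zero => rw [zero_smul]; exact Submodule.zero_mem _
      | add x y _ _ hx hy => 
        rw [add_smul]
        refine Submodule.add_mem _ (hx ?_) (hy ?_)
        · rw [← SetLike.mem_coe, hS]; assumption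
        · rw [← SetLike.mem_coe, hS]; assumption
      | smul c x h hx =>
        rw [Subalgebra.smul_def, smul_eq_mul, mul_smul]
        refine Submodule.smul_mem _ c (hx ?_)
        rw [← SetLike.mem_coe, hS]; exact h
    exact key hw
  · intro w hw
    rw [SetLike.mem_coe] at hw ⊢
    induction hw using Submodule.span_induction with
    | mem x hx =>
      rw [Finset.mem_coe, Finset.mem_image] at hx
      obtain ⟨⟨m, v⟩, hz, rfl⟩ := hx
      rw [Finset.mem_product] at hz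
      refine Submodule.subset_span ⟨m, ?_, v, ?_, rfl⟩
      · rw [← SetLike.mem_coe, hS]; exact Submodule.subset_span hz.1
      · rw [← SetLike.mem_coe, hT]; exact Submodule.subset_span hz.2
    | zero => exact Submodule.zero_mem _
    | add x y _ _ hx hy => exact Submodule.add_mem _ hx hy
    | smul c x _ hx => exact Mb_smul_mem hM c c.2 x hx

theorem Mb_glue {M : Lat K} {E : Lat W} {a b a' b' : Bool} {c : K}
    (hE1 : ∀ v ∈ E a b, ∃ n : ℕ, c ^ n • v ∈ E a' b')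
    (hM1 : ∀ m ∈ M a b, ∃ n : ℕ, c ^ n * m ∈ M a' b')
    (hc : ∀ w ∈ mulLat M E a' b', c • w ∈ mulLat M E a' b')
    (w : W) (hw : w ∈ mulLat M E a b) : ∃ n : ℕ, c ^ n • w ∈ mulLat M E a' b' := by
  have hcn : ∀ (n : ℕ) (w : W), w ∈ mulLat M E a' b' → c ^ n • w ∈ mulLat M E a' b' := by
    intro n
    induction n with
    | zero => intro w hw; simpa using hw
    | succ n ih => intro w hw; rw [pow_succ, mul_smul]; exact ih _ (hc w hw)
  unfold mulLat at hw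
  induction hw using Submodule.span_induction with
  | mem x hx =>
    obtain ⟨m, hm, v, hv, rfl⟩ := hx
    obtain ⟨n, hn⟩ := hE1 v hv
    obtain ⟨k, hk⟩ := hM1 m hm
    refine ⟨k + n, Submodule.subset_span ⟨c ^ k * m, hk, c ^ n • v, hn, ?_⟩⟩
    rw [smul_smul, smul_smul]
    congr 1
    ring
  | zero => exact ⟨0, by rw [smul_zero]; exact Submodule.zero_mem _⟩
  | add x y _ _ hx hy =>
    obtain ⟨n, hn⟩ := hx
    obtain ⟨k, hk⟩ := hy
    refine ⟨n + k, ?_⟩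
    rw [smul_add]
    refine Submodule.add_mem _ ?_ ?_
    · rw [add_comm, pow_add, mul_smul]; exact hcn k _ hn
    · rw [pow_add, mul_smul]; exact hcn n _ hk
  | smul d x _ hx =>
    obtain ⟨n, hn⟩ := hx
    exact ⟨n, by rw [smul_comm]; exact Submodule.smul_mem _ d hn⟩

end MbGen

section MbId

variable {k : Type} [Field k] [CharZero k] {x Y I z : k}

theorem Mb_id1 (hx : x * z = 1) (hY : Y ^ 2 = x ^ 4 - 1) (hI : I ^ 2 = -1) :
    (x + I + Y * z) * (x + I + Y * z) = ((x + I) * (1 - I) * (x ^ 2 + I + Y) * (2⁻¹ * z)) *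
      ((1 - I) * 2⁻¹ * ((-1 + 2 * I) + I * z + (2 - I) * z ^ 2 - z ^ 3 +
        (1 + 2 * I) * (Y * z ^ 2) - I * z * (Y * z ^ 2))) := by
  grind
theorem Mb_id2 (hx : x * z = 1) (hY : Y ^ 2 = x ^ 4 - 1) (hI : I ^ 2 = -1) :
    (x + I + Y * z) * ((x + I) * z) = ((x + I) * (1 - I) * (x ^ 2 + I + Y) * (2⁻¹ * z)) *
      ((1 - I) * 2⁻¹ * (I + I * z - z ^ 2 + z ^ 3 - I * (Y * z ^ 2) +
        I * z * (Y * z ^ 2))) := by
  grind
theorem Mb_id3 (hx : x * z = 1) (hY : Y ^ 2 = x ^ 4 - 1) (hI : I ^ 2 = -1) :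
    ((x + I) * z) * ((x + I) * z) = ((x + I) * (1 - I) * (x ^ 2 + I + Y) * (2⁻¹ * z)) *
      ((1 - I) * 2⁻¹ * ((1 + I * z) * (1 + I * z ^ 2 - (Y * z ^ 2)))) := by
  grind
theorem Mb_id4 (hx : x * z = 1) (hY : Y ^ 2 = x ^ 4 - 1) (hI : I ^ 2 = -1) :
    ((x + I) * (1 - I) * (x ^ 2 + I + Y) * (2⁻¹ * z)) =
      (1 + I) * (-(1 + I) * 8⁻¹ + (1 - I) * 8⁻¹ * (Y * z ^ 2)) *
          ((x + I + Y * z) * (x + I + Y * z)) +
        (1 + I) * ((1 - I) * 4⁻¹ * z) * ((x + I + Y * z) * ((x + I) * z)) +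
        (1 + I) * ((1 + I) * 8⁻¹ - (1 - I) * 8⁻¹ * (Y * z ^ 2) - (1 + I) * 4⁻¹ * z) *
          (((x + I) * z) * ((x + I) * z)) := by
  grind
theorem Mb_id5 (hY : Y ^ 2 = x ^ 4 - 1) (hI : I ^ 2 = -1) :
    x + I = 4⁻¹ * I * (x ^ 2 - 2 * I * x - 3) * ((x + I) * (x + I)) + 0 * ((x + I) * Y) +
      (-(4⁻¹ * I)) * (Y * Y) := by
  grind
theorem Mb_id6 (hY : Y ^ 2 = x ^ 4 - 1) (hI : I ^ 2 = -1) :
    Y * Y = (x + I) * ((x ^ 2 - 1) * (x - I)) := by
  grind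
theorem Mb_id7 (hx : x * z = 1) :
    ((x + I) * (1 - I) * (x ^ 2 + I + Y) * (2⁻¹ * z)) * z =
      ((1 - I) * 2⁻¹ * (1 + I * z ^ 2 + Y * z ^ 2)) * (x + I) := by
  grind
theorem Mb_id8 (hx : x * z = 1) (hY : Y ^ 2 = x ^ 4 - 1) (hI : I ^ 2 = -1) :
    (x + I) * x = ((1 - I) * 2⁻¹ * (x ^ 2 + I - Y)) *
      ((x + I) * (1 - I) * (x ^ 2 + I + Y) * (2⁻¹ * z)) := by
  grind
theorem Mb_id9 (hY : Y ^ 2 = x ^ 4 - 1) (hI : I ^ 2 = -1) :
    (x ^ 2 + I + Y) * (x ^ 2 + I - Y) = 2 * I * x ^ 2 := by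
  grind

end MbId

variable {F : Type} [Field F] [Algebra ℂ F] (C : Cfg F)

namespace Cfg

theorem Mb_t_ne : C.t ≠ 0 := C.indep.ne_zero 0
theorem Mb_x_ne : C.x ≠ 0 := C.indep.ne_zero 1

theorem Mb_coord_t (a : Bool) : ((coord C.surf.t a : ↥C.K) : F) = C.T a := by
  cases a <;> rfl
theorem Mb_coord_x (b : Bool) : ((coord C.surf.x b : ↥C.K) : F) = C.Xc b := by
  cases b <;> rfl

theorem Mb_B_mem {a b : Bool} {y : F} : y ∈ C.B a b ↔ y ∈ sm (C.OC a) * sm (C.OF b) := by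
  rw [Subalgebra.mul_toSubmodule]; rfl

theorem Mb_OC_le_B (a b : Bool) : C.OC a ≤ C.B a b := le_sup_left
theorem Mb_OF_le_B (a b : Bool) : C.OF b ≤ C.B a b := le_sup_right

theorem Mb_T_mem (a b : Bool) : C.T a ∈ C.B a b :=
  C.Mb_OC_le_B a b (Algebra.subset_adjoin (by simp))
theorem Mb_X_mem (a b : Bool) : C.Xc b ∈ C.B a b :=
  C.Mb_OF_le_B a b (Algebra.subset_adjoin (by simp))

theorem Mb_loc {A : Subalgebra ℂ F} {c : F} (hc : c ∈ A) {n : ℕ} (k : ℕ) {y : F}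
    (h : c ^ n * y ∈ A) : c ^ (n + k) * y ∈ A := by
  rw [pow_add, mul_comm (c ^ n), mul_assoc]
  exact A.mul_mem (A.pow_mem hc k) h

theorem Mb_B_glue {A' P P' Q Q' : Subalgebra ℂ F} {c : F}
    (hP : P' ≤ A') (hQ : Q' ≤ A') (hc : c ∈ A')
    (h1 : ∀ y ∈ P, ∃ n : ℕ, c ^ n * y ∈ P') (h2 : ∀ y ∈ Q, ∃ n : ℕ, c ^ n * y ∈ Q') (y : F)
    (hy : y ∈ sm P * sm Q) : ∃ n : ℕ, c ^ n * y ∈ A' := by
  refine Submodule.mul_induction_on hy ?_ ?_
  · intro m hm n hn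
    obtain ⟨k, hk⟩ := h1 m hm
    obtain ⟨l, hl⟩ := h2 n hn
    refine ⟨k + l, ?_⟩
    have : c ^ (k + l) * (m * n) = (c ^ k * m) * (c ^ l * n) := by ring
    rw [this]
    exact A'.mul_mem (hP hk) (hQ hl)
  · rintro u v ⟨k, hk⟩ ⟨l, hl⟩
    refine ⟨k + l, ?_⟩
    rw [mul_add]
    refine A'.add_mem (Mb_loc hc l hk) ?_
    rw [add_comm]
    exact Mb_loc hc k hl

theorem Mb_B_glue_t (a a' b : Bool) (y : F) (hy : y ∈ C.B a b) :
    ∃ n : ℕ, C.T a' ^ n * y ∈ C.B a' b := by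
  refine Mb_B_glue (C.Mb_OC_le_B a' b) (C.Mb_OF_le_B a' b) (C.Mb_T_mem a' b) (P := C.OC a)
    (Q := C.OF b) ?_ (fun z hz => ⟨0, by simpa using hz⟩) y (C.Mb_B_mem.1 hy)
  intro z hz
  obtain ⟨n, h0, h1, -⟩ := C.OCs_loc z (C.OC_le_OCs a hz)
  cases a'
  · exact ⟨n, h0⟩
  · exact ⟨n, h1⟩

theorem Mb_B_glue_x (a b b' : Bool) (y : F) (hy : y ∈ C.B a b) :
    ∃ n : ℕ, C.Xc b' ^ n * y ∈ C.B a b' := by
  refine Mb_B_glue (C.Mb_OC_le_B a b') (C.Mb_OF_le_B a b') (C.Mb_X_mem a b') (P := C.OC a)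
    (Q := C.OF b) (fun z hz => ⟨0, by simpa using hz⟩) ?_ y (C.Mb_B_mem.1 hy)
  intro z hz
  obtain ⟨n, h0, h1⟩ := C.OFs_loc z (C.OF_le_OFs b hz)
  cases b'
  · exact ⟨n, h0⟩
  · exact ⟨n, h1⟩

theorem Mb_R_glue_t (a a' b : Bool) (r : ↥C.K) (hr : r ∈ C.surf.R a b) :
    ∃ n : ℕ, coord C.surf.t a' ^ n * r ∈ C.surf.R a' b := by
  obtain ⟨n, hn⟩ := C.Mb_B_glue_t a a' b _ ((C.mem_R a b r).1 hr)
  refine ⟨n, (C.mem_R a' b _).2 ?_⟩
  simpa [Mb_coord_t] using hn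

theorem Mb_R_glue_x (a b b' : Bool) (r : ↥C.K) (hr : r ∈ C.surf.R a b) :
    ∃ n : ℕ, coord C.surf.x b' ^ n * r ∈ C.surf.R a b' := by
  obtain ⟨n, hn⟩ := C.Mb_B_glue_x a b b' _ ((C.mem_R a b r).1 hr)
  refine ⟨n, (C.mem_R a b' _).2 ?_⟩
  simpa [Mb_coord_x] using hn

/-- `√-1` in `K` -/
def MbI : ↥C.K := ⟨i, C.i_K⟩
/-- the function `Y` (or `Y/x²`) in `K` -/
def MbY (b : Bool) : ↥C.K := if b then ⟨C.Y, C.Y_K⟩ * C.xK⁻¹ ^ 2 else ⟨C.Y, C.Y_K⟩
/-- the coordinate `x` (or `1/x`) in `K` -/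
def MbX (b : Bool) : ↥C.K := coord C.surf.x b

theorem Mb_I_sq : C.MbI ^ 2 = -1 := by
  apply Subtype.ext
  change (algebraMap ℂ F Complex.I) ^ 2 = -1
  rw [← map_pow, Complex.I_sq, map_neg, map_one]

theorem Mb_Y_sq : C.MbY false ^ 2 = C.xK ^ 4 - 1 := by
  apply Subtype.ext
  change C.Y ^ 2 = C.x ^ 4 - 1
  rw [Y, mul_pow, C.hp, C.hq]; ring

theorem Mb_xK_ne : C.xK ≠ 0 := by
  intro h
  exact C.Mb_x_ne (congrArg Subtype.val h)

theorem Mb_X_memR (a b : Bool) : C.MbX b ∈ C.surf.R a b := by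
  rw [mem_R, MbX, Mb_coord_x]; exact C.Mb_X_mem a b
theorem Mb_T_memR (a b : Bool) : coord C.surf.t a ∈ C.surf.R a b := by
  rw [mem_R, Mb_coord_t]; exact C.Mb_T_mem a b
theorem Mb_I_memR (a b : Bool) : C.MbI ∈ C.surf.R a b := by
  rw [mem_R]; exact (C.B a b).algebraMap_mem _
theorem Mb_Y_memR (a b : Bool) : C.MbY b ∈ C.surf.R a b := by
  rw [mem_R]
  have hP : C.P b ∈ C.B a b := C.Mb_OF_le_B a b (Algebra.subset_adjoin (by simp))
  have hQ : C.Q b ∈ C.B a b := C.Mb_OF_le_B a b (Algebra.subset_adjoin (by simp))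
  have hi : (i : F) ∈ C.B a b := (C.B a b).algebraMap_mem _
  cases b
  · have : ((C.MbY false : ↥C.K) : F) = C.P false * C.Q false := rfl
    rw [this]
    exact (C.B _ _).mul_mem hP hQ
  · have hi2 : (i : F) ^ 2 = -1 := congrArg Subtype.val C.Mb_I_sq
    have : ((C.MbY true : ↥C.K) : F) = -i * (C.P true * C.Q true) := by
      change C.Y * C.x⁻¹ ^ 2 = -i * ((C.p * C.x⁻¹) * (i * C.q * C.x⁻¹))
      rw [Y]
      linear_combination (C.p * C.q * C.x⁻¹ ^ 2) * hi2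
    rw [this]
    exact (C.B _ _).mul_mem ((C.B _ _).neg_mem hi) ((C.B _ _).mul_mem hP hQ)

/-- The unit `ρ_b` with `M_b ^ 2 = ρ_b R_b`. -/
def MbRho (b : Bool) : ↥C.K := if b then
  (C.xK + C.MbI) * (1 - C.MbI) * (C.xK ^ 2 + C.MbI + C.MbY false) * (2⁻¹ * C.xK⁻¹)
  else C.xK + C.MbI

theorem Mb_xz : C.xK * C.xK⁻¹ = 1 := mul_inv_cancel₀ C.Mb_xK_ne

theorem Mb_num_mem (a b : Bool) (n : ℕ) : (n : ↥C.K) ∈ C.surf.R a b := natCast_mem _ n

theorem Mb_inv_mem (a b : Bool) (n : ℕ) [n.AtLeastTwo] :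
    ((OfNat.ofNat n : ↥C.K))⁻¹ ∈ C.surf.R a b := by
  have h := (C.surf.R a b).algebraMap_mem ((OfNat.ofNat n : ℂ)⁻¹)
  rwa [map_inv₀, map_ofNat] at h

theorem Mb_ofNat_mem (a b : Bool) (n : ℕ) [n.AtLeastTwo] :
    (OfNat.ofNat n : ↥C.K) ∈ C.surf.R a b := ofNat_mem _ n

theorem Mb_m1_false : C.m1 false = C.xK + C.MbI := rfl
theorem Mb_m2_false : C.m2 false = C.MbY false := rfl
theorem Mb_m1_true : C.m1 true = C.xK + C.MbI + C.MbY false * C.xK⁻¹ := rfl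
theorem Mb_m2_true : C.m2 true = (C.xK + C.MbI) * C.xK⁻¹ := rfl

theorem Mb_sq (a b : Bool) : (∃ r ∈ C.surf.R a b, C.m1 b * C.m1 b = C.MbRho b * r) ∧
    (∃ r ∈ C.surf.R a b, C.m1 b * C.m2 b = C.MbRho b * r) ∧
    (∃ r ∈ C.surf.R a b, C.m2 b * C.m2 b = C.MbRho b * r) := by
  have hI := C.Mb_I_sq
  have hY := C.Mb_Y_sq
  have hz := C.Mb_xz
  have mI := C.Mb_I_memR a b
  have mX := C.Mb_X_memR a b
  have mY := C.Mb_Y_memR a b
  have m2 := C.Mb_inv_mem a b 2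
  have m1 : (1 : ↥C.K) ∈ C.surf.R a b := one_mem _
  have n2 := C.Mb_ofNat_mem a b 2
  cases b
  · change C.xK ∈ _ at mX
    refine ⟨⟨C.xK + C.MbI, add_mem mX mI, rfl⟩, ⟨C.MbY false, mY, rfl⟩,
      ⟨(C.xK ^ 2 - 1) * (C.xK - C.MbI), ?_, ?_⟩⟩
    · exact mul_mem (sub_mem (pow_mem mX 2) m1) (sub_mem mX mI)
    · exact Mb_id6 hY hI
  · change C.xK⁻¹ ∈ _ at mX
    change C.MbY false * C.xK⁻¹ ^ 2 ∈ _ at mY
    have e1 := Mb_id1 hz hY hI
    have e2 := Mb_id2 hz hY hI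
    have e3 := Mb_id3 hz hY hI
    refine ⟨⟨_, ?_, e1⟩, ⟨_, ?_, e2⟩, ⟨_, ?_, e3⟩⟩
    · generalize C.MbY false * C.xK⁻¹ ^ 2 = y at *
      generalize C.xK⁻¹ = z at *
      apply_rules [add_mem, mul_mem, sub_mem, neg_mem, pow_mem]
    · generalize C.MbY false * C.xK⁻¹ ^ 2 = y at *
      generalize C.xK⁻¹ = z at *
      apply_rules [add_mem, mul_mem, sub_mem, neg_mem, pow_mem]
    · generalize C.MbY false * C.xK⁻¹ ^ 2 = y at *
      generalize C.xK⁻¹ = z at *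
      apply_rules [add_mem, mul_mem, sub_mem, neg_mem, pow_mem]

theorem Mb_rho (a b : Bool) : ∃ r1 ∈ C.surf.R a b, ∃ r2 ∈ C.surf.R a b, ∃ r3 ∈ C.surf.R a b,
    C.MbRho b = r1 * (C.m1 b * C.m1 b) + r2 * (C.m1 b * C.m2 b) + r3 * (C.m2 b * C.m2 b) := by
  have hI := C.Mb_I_sq
  have hY := C.Mb_Y_sq
  have hz := C.Mb_xz
  have mI := C.Mb_I_memR a b
  have mX := C.Mb_X_memR a b
  have mY := C.Mb_Y_memR a b
  have m2 := C.Mb_inv_mem a b 2
  have m4 := C.Mb_inv_mem a b 4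
  have m8 := C.Mb_inv_mem a b 8
  have m1 : (1 : ↥C.K) ∈ C.surf.R a b := one_mem _
  have n2 := C.Mb_ofNat_mem a b 2
  have n3 := C.Mb_ofNat_mem a b 3
  cases b
  · change C.xK ∈ _ at mX
    have e5 := Mb_id5 hY hI
    refine ⟨_, ?_, _, ?_, _, ?_, e5⟩
    · generalize C.xK = x at *
      apply_rules [add_mem, mul_mem, sub_mem, neg_mem, pow_mem]
    · exact zero_mem _
    · apply_rules [add_mem, mul_mem, sub_mem, neg_mem, pow_mem]
  · change C.xK⁻¹ ∈ _ at mX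
    change C.MbY false * C.xK⁻¹ ^ 2 ∈ _ at mY
    have e4 := Mb_id4 hz hY hI
    refine ⟨_, ?_, _, ?_, _, ?_, e4⟩
    · generalize C.MbY false * C.xK⁻¹ ^ 2 = y at *
      generalize C.xK⁻¹ = z at *
      apply_rules [add_mem, mul_mem, sub_mem, neg_mem, pow_mem]
    · generalize C.MbY false * C.xK⁻¹ ^ 2 = y at *
      generalize C.xK⁻¹ = z at *
      apply_rules [add_mem, mul_mem, sub_mem, neg_mem, pow_mem]
    · generalize C.MbY false * C.xK⁻¹ ^ 2 = y at *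
      generalize C.xK⁻¹ = z at *
      apply_rules [add_mem, mul_mem, sub_mem, neg_mem, pow_mem]

theorem Mb_rho_ne (b : Bool) : C.MbRho b ≠ 0 := by
  have hI := C.Mb_I_sq
  have hY := C.Mb_Y_sq
  have hx := C.Mb_xK_ne
  have h1 : C.xK + C.MbI ≠ 0 := by
    intro h
    have h' : C.x = algebraMap ℂ F (-Complex.I) := by
      have := congrArg Subtype.val h
      change C.x + algebraMap ℂ F Complex.I = 0 at this
      rw [map_neg]
      linear_combination this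
    have h2 := C.indep.transcendental 1
    exact h2 (h' ▸ isAlgebraic_algebraMap _)
  cases b
  · exact h1
  · have h2 : (1 - C.MbI) ≠ 0 := by
      intro h
      have : (2 : ↥C.K) = 0 := by linear_combination (1 + C.MbI) * h + hI
      exact two_ne_zero this
    have hI0 : C.MbI ≠ 0 := by
      intro h
      rw [h] at hI
      norm_num at hI
    have h3 : C.xK ^ 2 + C.MbI + C.MbY false ≠ 0 := by
      intro h
      have := Mb_id9 hY hI
      rw [h, zero_mul] at this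
      exact mul_ne_zero (mul_ne_zero two_ne_zero hI0) (pow_ne_zero 2 hx) this.symm
    exact mul_ne_zero (mul_ne_zero (mul_ne_zero h1 h2) h3)
      (mul_ne_zero (inv_ne_zero two_ne_zero) (inv_ne_zero hx))

theorem Mb_mem_M {a b : Bool} {m : ↥C.K} : m ∈ C.M a b ↔
    ∃ r1 ∈ C.surf.R a b, ∃ r2 ∈ C.surf.R a b, m = r1 * C.m1 b + r2 * C.m2 b := by
  unfold M
  rw [Submodule.restrictScalars_mem, Submodule.mem_span_pair]
  constructor
  · rintro ⟨r1, r2, h⟩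
    exact ⟨r1, r1.2, r2, r2.2, h.symm⟩
  · rintro ⟨r1, h1, r2, h2, h⟩
    exact ⟨⟨r1, h1⟩, ⟨r2, h2⟩, h.symm⟩

theorem Mb_M_smul (a b : Bool) (r : ↥C.K) (hr : r ∈ C.surf.R a b) (m : ↥C.K)
    (hm : m ∈ C.M a b) : r * m ∈ C.M a b := by
  rw [Mb_mem_M] at hm ⊢
  obtain ⟨r1, h1, r2, h2, rfl⟩ := hm
  exact ⟨r * r1, mul_mem hr h1, r * r2, mul_mem hr h2, by ring⟩

theorem Mb_m1_mem (a b : Bool) : C.m1 b ∈ C.M a b :=
  C.Mb_mem_M.2 ⟨1, one_mem _, 0, zero_mem _, by ring⟩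
theorem Mb_m2_mem (a b : Bool) : C.m2 b ∈ C.M a b :=
  C.Mb_mem_M.2 ⟨0, zero_mem _, 1, one_mem _, by ring⟩

theorem Mb_M_up {a b : Bool} {c m : ↥C.K} (hc : c ∈ C.surf.R a b) {n : ℕ} (k : ℕ)
    (h : c ^ n * m ∈ C.M a b) : c ^ (n + k) * m ∈ C.M a b := by
  rw [pow_add, mul_comm (c ^ n), mul_assoc]
  exact C.Mb_M_smul a b _ (pow_mem hc k) _ h

theorem Mb_M_glue_t (a a' b : Bool) (m : ↥C.K) (hm : m ∈ C.M a b) :
    ∃ n : ℕ, coord C.surf.t a' ^ n * m ∈ C.M a' b := by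
  obtain ⟨r1, h1, r2, h2, rfl⟩ := C.Mb_mem_M.1 hm
  obtain ⟨n1, h1⟩ := C.Mb_R_glue_t a a' b _ h1
  obtain ⟨n2, h2⟩ := C.Mb_R_glue_t a a' b _ h2
  have hT := C.Mb_T_memR a' b
  refine ⟨n1 + n2, C.Mb_mem_M.2 ⟨_, mul_mem (pow_mem hT n2) h1, _,
    mul_mem (pow_mem hT n1) h2, ?_⟩⟩
  ring

theorem Mb_gen_x (a b b' : Bool) : (coord C.surf.x b') ^ 2 * C.m1 b ∈ C.M a b' ∧
    (coord C.surf.x b') ^ 2 * C.m2 b ∈ C.M a b' := by
  have hX : coord C.surf.x b' ∈ C.surf.R a b' := C.Mb_X_memR a b'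
  have hz := C.Mb_xz
  by_cases hb : b = b'
  · subst hb
    exact ⟨C.Mb_M_smul _ _ _ (pow_mem hX 2) _ (C.Mb_m1_mem a b),
      C.Mb_M_smul _ _ _ (pow_mem hX 2) _ (C.Mb_m2_mem a b)⟩
  · cases b <;> cases b'
    · exact absurd rfl hb
    · change C.xK⁻¹ ∈ _ at hX
      change C.xK⁻¹ ^ 2 * (C.xK + C.MbI) ∈ _ ∧ C.xK⁻¹ ^ 2 * (C.MbY false) ∈ _
      constructor
      · refine C.Mb_mem_M.2 ⟨0, zero_mem _, C.xK⁻¹, hX, ?_⟩
        rw [Mb_m2_true]; ring
      · refine C.Mb_mem_M.2 ⟨C.xK⁻¹, hX, -1, neg_mem (one_mem _), ?_⟩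
        rw [Mb_m1_true, Mb_m2_true]; ring
    · change C.xK ∈ _ at hX
      change C.xK ^ 2 * (C.xK + C.MbI + C.MbY false * C.xK⁻¹) ∈ _ ∧
        C.xK ^ 2 * ((C.xK + C.MbI) * C.xK⁻¹) ∈ _
      constructor
      · refine C.Mb_mem_M.2 ⟨C.xK ^ 2, pow_mem hX 2, C.xK, hX, ?_⟩
        rw [Mb_m1_false, Mb_m2_false]
        linear_combination (C.xK * C.MbY false) * hz
      · refine C.Mb_mem_M.2 ⟨C.xK, hX, 0, zero_mem _, ?_⟩
        rw [Mb_m1_false, Mb_m2_false]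
        linear_combination (C.xK * (C.xK + C.MbI)) * hz
    · exact absurd rfl hb

theorem Mb_M_glue_x (a b b' : Bool) (m : ↥C.K) (hm : m ∈ C.M a b) :
    ∃ n : ℕ, coord C.surf.x b' ^ n * m ∈ C.M a b' := by
  obtain ⟨r1, h1, r2, h2, rfl⟩ := C.Mb_mem_M.1 hm
  obtain ⟨n1, h1⟩ := C.Mb_R_glue_x a b b' _ h1
  obtain ⟨n2, h2⟩ := C.Mb_R_glue_x a b b' _ h2
  obtain ⟨g1, g2⟩ := C.Mb_gen_x a b b'
  have hX : coord C.surf.x b' ∈ C.surf.R a b' := C.Mb_X_memR a b'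
  refine ⟨n1 + n2 + 2, ?_⟩
  have : coord C.surf.x b' ^ (n1 + n2 + 2) * (r1 * C.m1 b + r2 * C.m2 b) =
      (coord C.surf.x b' ^ n2 * (coord C.surf.x b' ^ n1 * r1)) *
        (coord C.surf.x b' ^ 2 * C.m1 b) +
      (coord C.surf.x b' ^ n1 * (coord C.surf.x b' ^ n2 * r2)) *
        (coord C.surf.x b' ^ 2 * C.m2 b) := by ring
  rw [this]
  exact add_mem (C.Mb_M_smul _ _ _ (mul_mem (pow_mem hX _) h1) _ g1)
    (C.Mb_M_smul _ _ _ (mul_mem (pow_mem hX _) h2) _ g2)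

theorem Mb_mul_M (a b : Bool) (m m' : ↥C.K) (hm : m ∈ C.M a b) (hm' : m' ∈ C.M a b) :
    ∃ r ∈ C.surf.R a b, m * m' = C.MbRho b * r := by
  obtain ⟨r1, h1, r2, h2, rfl⟩ := C.Mb_mem_M.1 hm
  obtain ⟨s1, k1, s2, k2, rfl⟩ := C.Mb_mem_M.1 hm'
  obtain ⟨⟨α, hα, eα⟩, ⟨β, hβ, eβ⟩, ⟨γ, hγ, eγ⟩⟩ := C.Mb_sq a b
  refine ⟨r1 * s1 * α + (r1 * s2 + r2 * s1) * β + r2 * s2 * γ, ?_, ?_⟩
  · exact add_mem (add_mem (mul_mem (mul_mem h1 k1) hα)
      (mul_mem (add_mem (mul_mem h1 k2) (mul_mem h2 k1)) hβ)) (mul_mem (mul_mem h2 k2) hγ)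
  · linear_combination (r1 * s1) * eα + (r1 * s2 + r2 * s1) * eβ + r2 * s2 * eγ

/-- the inverse of `M` -/
def MbM' : Lat ↥C.K := fun a b => (C.M a b).comap (LinearMap.mulLeft ℂ (C.MbRho b))

theorem Mb_mem_M' {a b : Bool} {m : ↥C.K} : m ∈ C.MbM' a b ↔ C.MbRho b * m ∈ C.M a b :=
  Iff.rfl

theorem Mb_ratio (a b b' : Bool) : ∃ κ ∈ C.surf.R a b',
    C.MbRho b' * coord C.surf.x b' = κ * C.MbRho b := by
  have hI := C.Mb_I_sq
  have hY := C.Mb_Y_sq
  have hz := C.Mb_xz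
  have mI := C.Mb_I_memR a b'
  have mX : coord C.surf.x b' ∈ C.surf.R a b' := C.Mb_X_memR a b'
  have mY := C.Mb_Y_memR a b'
  have m2 := C.Mb_inv_mem a b' 2
  have m1 : (1 : ↥C.K) ∈ C.surf.R a b' := one_mem _
  by_cases hb : b = b'
  · subst hb
    exact ⟨_, mX, mul_comm _ _⟩
  · cases b <;> cases b'
    · exact absurd rfl hb
    · change C.xK⁻¹ ∈ _ at mX
      change C.MbY false * C.xK⁻¹ ^ 2 ∈ _ at mY
      have e7 := Mb_id7 (Y := C.MbY false) (I := C.MbI) hz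
      refine ⟨_, ?_, e7⟩
      generalize C.MbY false * C.xK⁻¹ ^ 2 = y at *
      generalize C.xK⁻¹ = z at *
      apply_rules [add_mem, mul_mem, sub_mem, neg_mem, pow_mem]
    · change C.xK ∈ _ at mX
      have e8 := Mb_id8 hz hY hI
      refine ⟨_, ?_, e8⟩
      generalize C.xK = x at *
      apply_rules [add_mem, mul_mem, sub_mem, neg_mem, pow_mem]
    · exact absurd rfl hb

theorem M_inv : ∃ M' : Lat ↥C.K, IsInv C.surf C.M M' := by
  refine ⟨C.MbM', ?_, ?_, ?_, ?_, ?_, ?_, ?_⟩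
  · exact fun a b r hr m hm => C.Mb_M_smul a b r hr m hm
  · intro a b r hr m hm
    rw [Mb_mem_M'] at hm ⊢
    have : C.MbRho b * (r * m) = r * (C.MbRho b * m) := by ring
    rw [this]
    exact C.Mb_M_smul a b r hr _ hm
  · exact fun a a' b m hm => C.Mb_M_glue_t a a' b m hm
  · intro a a' b m hm
    rw [Mb_mem_M'] at hm
    obtain ⟨n, hn⟩ := C.Mb_M_glue_t a a' b _ hm
    refine ⟨n, ?_⟩
    rw [Mb_mem_M']
    convert hn using 1
    ring
  · exact fun a b b' m hm => C.Mb_M_glue_x a b b' m hm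
  · intro a b b' m hm
    rw [Mb_mem_M'] at hm
    obtain ⟨n, hn⟩ := C.Mb_M_glue_x a b b' _ hm
    obtain ⟨κ, hκ, e⟩ := C.Mb_ratio a b b'
    refine ⟨n + 1, ?_⟩
    rw [Mb_mem_M']
    have : C.MbRho b' * (coord C.surf.x b' ^ (n + 1) * m) =
        κ * (coord C.surf.x b' ^ n * (C.MbRho b * m)) := by
      linear_combination (coord C.surf.x b' ^ n * m) * e
    rw [this]
    exact C.Mb_M_smul a b' _ hκ _ hn
  · intro a b
    apply le_antisymm
    · rw [Submodule.mul_le]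
      intro m hm m' hm'
      rw [Mb_mem_M'] at hm'
      obtain ⟨r, hr, e⟩ := C.Mb_mul_M a b _ _ hm hm'
      have h0 := C.Mb_rho_ne b
      have : m * m' = r := by
        apply mul_left_cancel₀ h0
        linear_combination e
      rw [this]
      exact hr
    · intro r hr
      obtain ⟨r1, h1, r2, h2, r3, h3, e⟩ := C.Mb_rho a b
      have h0 := C.Mb_rho_ne b
      have g1 : (C.MbRho b)⁻¹ * C.m1 b ∈ C.MbM' a b := by
        rw [Mb_mem_M', mul_inv_cancel_left₀ h0]; exact C.Mb_m1_mem a b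
      have g2 : (C.MbRho b)⁻¹ * C.m2 b ∈ C.MbM' a b := by
        rw [Mb_mem_M', mul_inv_cancel_left₀ h0]; exact C.Mb_m2_mem a b
      have : r = (r * r1 * C.m1 b + r * r2 * C.m2 b) * ((C.MbRho b)⁻¹ * C.m1 b) +
          (r * r3 * C.m2 b) * ((C.MbRho b)⁻¹ * C.m2 b) := by
        have hh := mul_inv_cancel₀ h0
        linear_combination (-r) * hh + r * (C.MbRho b)⁻¹ * e
      rw [this]
      refine add_mem (Submodule.mul_mem_mul ?_ g1) (Submodule.mul_mem_mul ?_ g2)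
      · exact C.Mb_mem_M.2 ⟨_, mul_mem hr h1, _, mul_mem hr h2, rfl⟩
      · exact C.Mb_mem_M.2 ⟨0, zero_mem _, _, mul_mem hr h3, by ring⟩

theorem Mb_smul_eq (m : ↥C.K) (v : F) : m • v = (m : F) * v := rfl

theorem Mb_OC_N (a : Bool) : sm (C.OC a) * C.N a ≤ C.N a := by
  rw [Submodule.mul_le]
  intro c hc n hn
  unfold N at hn ⊢
  rw [mem_sc] at hn ⊢
  obtain ⟨w, hw, rfl⟩ := hn
  exact ⟨c * w, (C.OC a).mul_mem hc hw, by ring⟩

theorem Mb_V_smul (a b : Bool) (r v : F) (hr : r ∈ C.B a b) (hv : v ∈ C.V a b) :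
    r * v ∈ C.V a b := by
  have h1 : r * v ∈ (sm (C.OC a) * sm (C.OF b)) * (C.N a * sm (C.OF b)) :=
    Submodule.mul_mem_mul (C.Mb_B_mem.1 hr) hv
  rw [mul_mul_mul_comm] at h1
  refine (mul_le_mul' (C.Mb_OC_N a) ?_) h1
  rw [Submodule.mul_le]
  exact fun x hx y hy => (C.OF b).mul_mem hx hy

theorem Mb_gen_mul (a b : Bool) (m v : F) (hm : m ∈ ({(C.m1 b : F), (C.m2 b : F)} : Set F))
    (hv : v ∈ C.V a b) : m * v ∈ C.N a * C.QM b := by
  have h1 : m * v ∈ Submodule.span ℂ {(C.m1 b : F), (C.m2 b : F)} * (C.N a * sm (C.OF b)) :=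
    Submodule.mul_mem_mul (Submodule.subset_span hm) hv
  rw [mul_left_comm] at h1
  exact h1

theorem Mb_mulV_le (a b : Bool) (m : ↥C.K) (v : F) (hm : m ∈ C.M a b) (hv : v ∈ C.V a b) :
    m • v ∈ C.N a * C.QM b := by
  obtain ⟨r1, h1, r2, h2, rfl⟩ := C.Mb_mem_M.1 hm
  have e : (r1 * C.m1 b + r2 * C.m2 b) • v = (C.m1 b : F) * ((r1 : F) * v) +
      (C.m2 b : F) * ((r2 : F) * v) := by
    rw [Mb_smul_eq]
    push_cast
    ring
  rw [e]
  refine add_mem (C.Mb_gen_mul a b _ _ (by simp) ?_) (C.Mb_gen_mul a b _ _ (by simp) ?_)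
  · exact C.Mb_V_smul a b _ _ ((C.mem_R a b r1).1 h1) hv
  · exact C.Mb_V_smul a b _ _ ((C.mem_R a b r2).1 h2) hv

theorem Mb_span_gen {b : Bool} {m : F}
    (hm : m ∈ Submodule.span ℂ {(C.m1 b : F), (C.m2 b : F)}) (a : Bool) :
    ∃ m' ∈ C.M a b, (m' : F) = m := by
  rw [Submodule.mem_span_pair] at hm
  obtain ⟨c1, c2, rfl⟩ := hm
  exact ⟨c1 • C.m1 b + c2 • C.m2 b, add_mem (Submodule.smul_mem _ _ (C.Mb_m1_mem a b))
    (Submodule.smul_mem _ _ (C.Mb_m2_mem a b)), rfl⟩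

theorem Mb_mulV_ge (a b : Bool) : C.N a * C.QM b ≤ mulLat C.M C.V a b := by
  unfold QM
  rw [mul_left_comm, Submodule.mul_le]
  intro m hm v hv
  obtain ⟨m', hm', rfl⟩ := C.Mb_span_gen hm a
  exact Submodule.subset_span ⟨m', hm', v, hv, rfl⟩

theorem Mb_mulV (a b : Bool) : mulLat C.M C.V a b = C.N a * C.QM b := by
  apply le_antisymm _ (C.Mb_mulV_ge a b)
  unfold mulLat
  rw [Submodule.span_le]
  rintro _ ⟨m, hm, v, hv, rfl⟩
  exact C.Mb_mulV_le a b m v hm hv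

theorem E'_eq (a b : Bool) (h : a || b) : C.E' a b = C.N a * C.QM b := by
  rw [← Mb_mulV]
  have : C.E a b = C.V a b := by
    cases a <;> cases b <;> first | rfl | simp at h
  unfold E' mulLat
  rw [this]

theorem Mb_ev_mul (y : Bool × Bool × Bool) (u v : F) (hu : u ∈ C.B false false)
    (hv : v ∈ C.B false false) : C.ev y (u * v) = C.ev y u * C.ev y v := by
  rw [C.ev_eq y u hu, C.ev_eq y v hv, C.ev_eq y (u * v) ((C.B false false).mul_mem hu hv),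
    ← map_mul]
  rfl

theorem Mb_m_mem_B (m : ↥C.K) (hm : m ∈ C.M false false) :
    (m : F) ∈ C.B false false := by
  obtain ⟨r1, h1, r2, h2, rfl⟩ := C.Mb_mem_M.1 hm
  have k1 := (C.mem_R _ _ _).1 h1
  have k2 := (C.mem_R _ _ _).1 h2
  have k3 : (C.m1 false : F) ∈ C.B false false :=
    (C.mem_R _ _ _).1 (add_mem (C.Mb_X_memR false false) (C.Mb_I_memR false false))
  have k4 : (C.m2 false : F) ∈ C.B false false := (C.mem_R _ _ _).1 (C.Mb_Y_memR false false)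
  push_cast
  exact add_mem (mul_mem k1 k3) (mul_mem k2 k4)

theorem Mb_V_B : C.V false false = sm (C.B false false) := C.V_false false

theorem Mb_xv (v : F) (hv : v ∈ C.N false * C.QM false) : C.x * v ∈ C.E' false false := by
  rw [← Mb_mulV] at hv
  unfold mulLat at hv
  induction hv using Submodule.span_induction with
  | mem w hw =>
    obtain ⟨m, hm, u, hu, rfl⟩ := hw
    rw [Mb_V_B] at hu
    refine Submodule.subset_span ⟨m, hm, C.x * u, ⟨?_, ?_⟩, ?_⟩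
    · exact (C.B false false).mul_mem C.x_mem hu
    · change C.ev y0 (C.x * u) = 0
      rw [C.Mb_ev_mul y0 _ _ C.x_mem hu, C.ev_eq y0 C.x C.x_mem, C.lift_x]
      simp [pt]
    · rw [Mb_smul_eq, Mb_smul_eq]; ring
  | zero => rw [mul_zero]; exact Submodule.zero_mem _
  | add x y _ _ hx hy => rw [mul_add]; exact Submodule.add_mem _ hx hy
  | smul c x _ hx => rw [mul_smul_comm]; exact Submodule.smul_mem _ c hx

theorem E'_00 : C.E' false false = (C.N false * C.QM false) ⊓ LinearMap.ker (C.ev y0) := by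
  apply le_antisymm
  · unfold E' mulLat
    rw [Submodule.span_le]
    rintro _ ⟨m, hm, v, hv, rfl⟩
    have hv' : v ∈ sm (C.B false false) ⊓ LinearMap.ker (C.ev y0) := hv
    obtain ⟨hv1, hv2⟩ := hv'
    refine ⟨?_, ?_⟩
    · refine C.Mb_mulV_le false false m v hm ?_
      rw [Mb_V_B]; exact hv1
    · rw [Mb_smul_eq]
      change C.ev y0 ((m : F) * v) = 0
      rw [C.Mb_ev_mul y0 _ _ (C.Mb_m_mem_B m hm) hv1]
      have : C.ev y0 v = 0 := hv2
      rw [this, mul_zero]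
  · rintro v ⟨hv1, hv2⟩
    have hv2' : C.ev y0 v = 0 := hv2
    -- `v ∈ B₀₀`
    have hvB : v ∈ C.B false false := by
      have h1 := hv1
      rw [SetLike.mem_coe, ← Mb_mulV] at h1
      unfold mulLat at h1
      have : Submodule.span ℂ {w | ∃ m ∈ C.M false false, ∃ v ∈ C.V false false, w = m • v} ≤
          sm (C.B false false) := by
        rw [Submodule.span_le]
        rintro _ ⟨m, hm, v, hv, rfl⟩
        rw [Mb_V_B] at hv
        rw [Mb_smul_eq]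
        exact (C.B false false).mul_mem (C.Mb_m_mem_B m hm) hv
      exact this h1
    -- `(x + i) v ∈ E'`
    have k1 : (C.m1 false : F) * v ∈ C.E' false false :=
      Submodule.subset_span ⟨C.m1 false, C.Mb_m1_mem false false, v, ⟨hvB, hv2'⟩, rfl⟩
    have k2 := C.Mb_xv v hv1
    have e : v = (-Complex.I) • ((C.m1 false : F) * v - C.x * v) := by
      have : (C.m1 false : F) = C.x + algebraMap ℂ F Complex.I := rfl
      rw [this, Algebra.smul_def, map_neg]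
      have hI : (algebraMap ℂ F Complex.I) ^ 2 = -1 := congrArg Subtype.val C.Mb_I_sq
      linear_combination v * hI
    rw [e]
    exact Submodule.smul_mem _ _ (sub_mem k1 k2)

theorem E'_coh : IsCoh C.surf C.E' := by
  have hE := C.E_coh
  refine ⟨fun a b => ?_, fun a a' b v hv => ?_, fun a b b' v hv => ?_, fun a b => ?_⟩
  · refine Mb_fg (C.Mb_M_smul a b) ?_ (hE.fg a b)
    classical
    refine ⟨{C.m1 b, C.m2 b}, ?_⟩
    rw [Finset.coe_pair]
    rfl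
  · refine Mb_glue (hE.glue_t a a' b) (C.Mb_M_glue_t a a' b) ?_ v hv
    exact fun w hw => Mb_smul_mem (C.Mb_M_smul a' b) _ (C.Mb_T_memR a' b) w hw
  · refine Mb_glue (hE.glue_x a b b') (C.Mb_M_glue_x a b b') ?_ v hv
    exact fun w hw => Mb_smul_mem (C.Mb_M_smul a b') _ (C.Mb_X_memR a b') w hw
  · rw [eq_top_iff, ← hE.top a b, Submodule.span_le]
    intro v hv
    have : ∃ m ∈ C.M a b, m ≠ 0 := by
      by_contra hcon
      push Not at hcon
      have h1 := hcon _ (C.Mb_m1_mem a b)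
      have h2 := hcon _ (C.Mb_m2_mem a b)
      obtain ⟨r1, -, r2, -, r3, -, e⟩ := C.Mb_rho a b
      rw [h1, h2] at e
      exact C.Mb_rho_ne b (by rw [e]; ring)
    obtain ⟨m, hm, hm0⟩ := this
    have e : v = m⁻¹ • (m • v) := by rw [smul_smul, inv_mul_cancel₀ hm0, one_smul]
    rw [SetLike.mem_coe, e]
    exact Submodule.smul_mem _ _ (Submodule.subset_span (Submodule.subset_span
      ⟨m, hm, v, hv, rfl⟩))

end Cfg

end

end Pool.Agent.EllMod
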