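import Pool.Agent.MP_77976d_ag.Gf
import Pool.Agent.MP_77976d_ag.Mb
import Pool.Agent.MP_77976d_ag.Tn

/-! # STB : stability -/

open scoped TensorProduct
open IsLocalRing

namespace Pool.Agent.EllMod

noncomputable section

/-! ### quadratic extensions inside a field -/

/-- the fixed field of an automorphism -/
def stbFix {F : Type} [Field F] [Algebra ℂ F] (σ : F ≃ₐ[ℂ] F) : IntermediateField ℂ F where
  carrier := {y | σ y = y}
  mul_mem' := fun {a b} ha hb => by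
    simp only [Set.mem_ofPred_eq, map_mul] at *; rw [ha, hb]
  add_mem' := fun {a b} ha hb => by
    simp only [Set.mem_ofPred_eq, map_add] at *; rw [ha, hb]
  algebraMap_mem' := fun r => by simp
  inv_mem' := fun a ha => by
    simp only [Set.mem_ofPred_eq, map_inv₀] at *; rw [ha]

theorem stb_mem_fix {F : Type} [Field F] [Algebra ℂ F] {σ : F ≃ₐ[ℂ] F} {y : F} :
    y ∈ stbFix σ ↔ σ y = y := Iff.rfl

/-- the field `k₀ + k₀ z` -/
def stbQ {F : Type} [Field F] [Algebra ℂ F] (k₀ : IntermediateField ℂ F) (σ : F ≃ₐ[ℂ] F)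
    (hk : ∀ y ∈ k₀, σ y = y) (z : F) (hz : z ^ 2 ∈ k₀) (hσ : σ z = -z) :
    IntermediateField ℂ F where
  carrier := {y | ∃ a ∈ k₀, ∃ b ∈ k₀, y = a + b * z}
  mul_mem' := by
    rintro _ _ ⟨a, ha, b, hb, rfl⟩ ⟨a', ha', b', hb', rfl⟩
    refine ⟨a * a' + b * b' * z ^ 2, add_mem (mul_mem ha ha') (mul_mem (mul_mem hb hb') hz),
      a * b' + b * a', add_mem (mul_mem ha hb') (mul_mem hb ha'), by ring⟩
  add_mem' := by
    rintro _ _ ⟨a, ha, b, hb, rfl⟩ ⟨a', ha', b', hb', rfl⟩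
    exact ⟨a + a', add_mem ha ha', b + b', add_mem hb hb', by ring⟩
  algebraMap_mem' := fun r => ⟨algebraMap ℂ F r, k₀.algebraMap_mem r, 0, zero_mem _, by simp⟩
  inv_mem' := by
    rintro _ ⟨a, ha, b, hb, rfl⟩
    by_cases h : a + b * z = 0
    · rw [h, inv_zero]
      exact ⟨0, zero_mem _, 0, zero_mem _, by simp⟩
    · have h1 : a - b * z ≠ 0 := by
        intro h1
        apply h
        have h2 : σ (a - b * z) = a + b * z := by
          rw [map_sub, map_mul, hk a ha, hk b hb, hσ]; ring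
        rw [← h2, h1, map_zero]
      have hN : (a + b * z) * (a - b * z) = a ^ 2 - b ^ 2 * z ^ 2 := by ring
      have hN0 : a ^ 2 - b ^ 2 * z ^ 2 ≠ 0 := by rw [← hN]; exact mul_ne_zero h h1
      have hNk : (a ^ 2 - b ^ 2 * z ^ 2)⁻¹ ∈ k₀ :=
        inv_mem (sub_mem (pow_mem ha 2) (mul_mem (pow_mem hb 2) hz))
      refine ⟨a * (a ^ 2 - b ^ 2 * z ^ 2)⁻¹, mul_mem ha hNk,
        -(b * (a ^ 2 - b ^ 2 * z ^ 2)⁻¹), neg_mem (mul_mem hb hNk), ?_⟩
      refine inv_eq_of_mul_eq_one_right ?_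
      have : (a + b * z) * (a - b * z) * (a ^ 2 - b ^ 2 * z ^ 2)⁻¹ = 1 := by
        rw [hN, mul_inv_cancel₀ hN0]
      rw [← this]; ring

theorem stb_mem_Q {F : Type} [Field F] [Algebra ℂ F] {k₀ : IntermediateField ℂ F}
    {σ : F ≃ₐ[ℂ] F} {hk : ∀ y ∈ k₀, σ y = y} {z : F} {hz : z ^ 2 ∈ k₀} {hσ : σ z = -z} {y : F} :
    y ∈ stbQ k₀ σ hk z hz hσ ↔ ∃ a ∈ k₀, ∃ b ∈ k₀, y = a + b * z := Iff.rfl

variable {F : Type} [Field F] [Algebra ℂ F] (C : Cfg F)

namespace Cfg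

/-- `ℂ(t)` in `F` -/
def stbKt : IntermediateField ℂ F := IntermediateField.adjoin ℂ {C.t}
/-- `ℂ(x)` in `F` -/
def stbKx : IntermediateField ℂ F := IntermediateField.adjoin ℂ {C.x}

theorem stb_t_mem : C.t ∈ C.stbKt := IntermediateField.subset_adjoin _ _ rfl
theorem stb_x_mem : C.x ∈ C.stbKx := IntermediateField.subset_adjoin _ _ rfl

theorem stb_kt_fix (σ : F ≃ₐ[ℂ] F) (h : σ C.t = C.t) : ∀ y ∈ C.stbKt, σ y = y := by
  have : C.stbKt ≤ stbFix σ := by
    unfold stbKt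
    rw [IntermediateField.adjoin_le_iff, Set.singleton_subset_iff]
    exact h
  exact fun y hy => this hy

theorem stb_kx_fix (σ : F ≃ₐ[ℂ] F) (h : σ C.x = C.x) : ∀ y ∈ C.stbKx, σ y = y := by
  have : C.stbKx ≤ stbFix σ := by
    unfold stbKx
    rw [IntermediateField.adjoin_le_iff, Set.singleton_subset_iff]
    exact h
  exact fun y hy => this hy

theorem stb_s2 : C.s ^ 2 ∈ C.stbKt := by
  have ht := C.stb_t_mem
  rw [C.hs]
  have h2 : (2 : F) ∈ C.stbKt := ofNat_mem _ 2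
  exact add_mem (add_mem (add_mem (add_mem (sub_mem (pow_mem ht 6) (mul_mem h2 (pow_mem ht 5)))
    (pow_mem ht 4)) (mul_mem h2 (pow_mem ht 3))) (mul_mem h2 (pow_mem ht 2))) (one_mem _)

theorem stb_p2 : C.p ^ 2 ∈ C.stbKx := by
  rw [C.hp]
  exact add_mem (pow_mem C.stb_x_mem 2) (one_mem _)

theorem stb_q2 : C.q ^ 2 ∈ C.stbKx := by
  rw [C.hq]
  exact sub_mem (pow_mem C.stb_x_mem 2) (one_mem _)

theorem stb_KC (y : F) (hy : y ∈ C.KC) : ∃ a ∈ C.stbKt, ∃ b ∈ C.stbKt, y = a + b * C.s := by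
  have : C.KC ≤ stbQ C.stbKt C.ι (C.stb_kt_fix C.ι C.ι_t) C.s C.stb_s2 C.ι_s := by
    unfold KC
    rw [IntermediateField.adjoin_le_iff]
    rintro z (rfl | hz)
    · exact ⟨C.t, C.stb_t_mem, 0, zero_mem _, by simp⟩
    · rw [Set.mem_singleton_iff.1 hz]
      exact ⟨0, zero_mem _, 1, one_mem _, by simp⟩
  exact this hy

theorem stb_KF (y : F) (hy : y ∈ C.KF) : ∃ a ∈ C.stbKx, ∃ b ∈ C.stbKx, ∃ c ∈ C.stbKx,
    ∃ d ∈ C.stbKx, y = a + b * C.Y + c * C.p + d * C.q := by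
  have hfix : ∀ y ∈ stbQ C.stbKx C.σp (C.stb_kx_fix C.σp C.σp_x) C.p C.stb_p2 C.σp_p,
      C.σq y = y := by
    rintro _ ⟨a, ha, b, hb, rfl⟩
    rw [map_add, map_mul, C.stb_kx_fix C.σq C.σq_x a ha, C.stb_kx_fix C.σq C.σq_x b hb, C.σq_p]
  have hq2 : C.q ^ 2 ∈ stbQ C.stbKx C.σp (C.stb_kx_fix C.σp C.σp_x) C.p C.stb_p2 C.σp_p :=
    ⟨_, C.stb_q2, 0, zero_mem _, by simp⟩
  have : C.KF ≤ stbQ _ C.σq hfix C.q hq2 C.σq_q := by
    unfold KF
    rw [IntermediateField.adjoin_le_iff]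
    rintro z (rfl | rfl | hz)
    · exact ⟨C.x, ⟨C.x, C.stb_x_mem, 0, zero_mem _, by simp⟩, 0, zero_mem _, by simp⟩
    · exact ⟨C.p, ⟨0, zero_mem _, 1, one_mem _, by simp⟩, 0, zero_mem _, by simp⟩
    · rw [Set.mem_singleton_iff.1 hz]
      exact ⟨0, zero_mem _, 1, one_mem _, by simp⟩
  obtain ⟨_, ⟨a, ha, c, hc, rfl⟩, _, ⟨d, hd, b, hb, rfl⟩, rfl⟩ := this hy
  exact ⟨a, ha, b, hb, c, hc, d, hd, by unfold Y; ring⟩

/-- elements of `ℂ(t)` in `K` and in `F` -/
theorem stb_kt_coe (r : C.surf.kt) : ((r : ↥C.K) : F) ∈ C.stbKt := by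
  have h : (IntermediateField.adjoin ℂ {C.tK}).map C.K.val = C.stbKt := by
    rw [IntermediateField.adjoin_map, Set.image_singleton]; rfl
  rw [← h]
  exact ⟨(r : ↥C.K), r.2, rfl⟩

theorem stb_kt_exists (α : F) (hα : α ∈ C.stbKt) : ∃ r : C.surf.kt, ((r : ↥C.K) : F) = α := by
  have h : (IntermediateField.adjoin ℂ {C.tK}).map C.K.val = C.stbKt := by
    rw [IntermediateField.adjoin_map, Set.image_singleton]; rfl
  rw [← h] at hα
  obtain ⟨r, hr, h1⟩ := hα
  exact ⟨⟨r, hr⟩, h1⟩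

theorem stb_kx_coe (r : C.surf.kx) : ((r : ↥C.K) : F) ∈ C.stbKx := by
  have h : (IntermediateField.adjoin ℂ {C.xK}).map C.K.val = C.stbKx := by
    rw [IntermediateField.adjoin_map, Set.image_singleton]; rfl
  rw [← h]
  exact ⟨(r : ↥C.K), r.2, rfl⟩

theorem stb_kx_exists (α : F) (hα : α ∈ C.stbKx) : ∃ r : C.surf.kx, ((r : ↥C.K) : F) = α := by
  have h : (IntermediateField.adjoin ℂ {C.xK}).map C.K.val = C.stbKx := by
    rw [IntermediateField.adjoin_map, Set.image_singleton]; rfl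
  rw [← h] at hα
  obtain ⟨r, hr, h1⟩ := hα
  exact ⟨⟨r, hr⟩, h1⟩

theorem stb_t_ne : C.t ≠ 0 := C.indep.ne_zero 0
theorem stb_x_ne : C.x ≠ 0 := C.indep.ne_zero 1

theorem stb_s_ne : C.s ≠ 0 := by
  have h := C.mono_li.ne_zero (0, 0, (true, false, false))
  simpa [e] using h
theorem stb_p_ne : C.p ≠ 0 := by
  have h := C.mono_li.ne_zero (0, 0, (false, true, false))
  simpa [e] using h

theorem stb_kt_le : C.stbKt ≤ C.KC := by
  unfold stbKt KC
  exact IntermediateField.adjoin.mono _ _ _ (by simp)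
theorem stb_kx_le : C.stbKx ≤ C.KF := by
  unfold stbKx KF
  exact IntermediateField.adjoin.mono _ _ _ (by simp)
theorem stb_s_mem : C.s ∈ C.KC := IntermediateField.subset_adjoin _ _ (by simp)
theorem stb_p_mem : C.p ∈ C.KF := IntermediateField.subset_adjoin _ _ (by simp)
theorem stb_q_mem : C.q ∈ C.KF := IntermediateField.subset_adjoin _ _ (by simp)

theorem stb_smul (k : IntermediateField ℂ ↥C.K) (r : k) (w : F) : r • w = ((r : ↥C.K) : F) * w := rfl

theorem stb_ιι (y : F) : C.ι (C.ι y) = y := by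
  have h : (⊤ : IntermediateField ℂ F) ≤ stbFix (C.ι.trans C.ι) := by
    rw [← C.gen, IntermediateField.adjoin_le_iff]
    rintro z (rfl | rfl | rfl | rfl | hz)
    · show C.ι (C.ι C.t) = C.t
      simp
    · show C.ι (C.ι C.x) = C.x
      simp
    · show C.ι (C.ι C.s) = C.s
      simp
    · show C.ι (C.ι C.p) = C.p
      simp
    · rw [Set.mem_singleton_iff.1 hz]
      show C.ι (C.ι C.q) = C.q
      simp
  exact h (show y ∈ (⊤ : IntermediateField ℂ F) from trivial)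

theorem stb_ι_Y : C.ι C.Y = C.Y := C.Y_K

theorem stb_ι_K (κ : ↥C.K) : C.ι (κ : F) = κ := κ.2

/-- `v ↦ v + ι v` -/
def stbPl : F →ₗ[ℂ] F := LinearMap.id + C.ι.toLinearMap
/-- `v ↦ v - ι v` -/
def stbMi : F →ₗ[ℂ] F := LinearMap.id - C.ι.toLinearMap

@[simp] theorem stbPl_apply (v : F) : C.stbPl v = v + C.ι v := rfl
@[simp] theorem stbMi_apply (v : F) : C.stbMi v = v - C.ι v := rfl

section dims

/-- dimension of a span -/
theorem stb_span (k : IntermediateField ℂ ↥C.K) (A : Submodule ℂ F) [FiniteDimensional ℂ A] :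
    FiniteDimensional k (Submodule.span k (A : Set F)) ∧
      Module.finrank k (Submodule.span k (A : Set F)) ≤ Module.finrank ℂ A := by
  let b := Module.finBasis ℂ A
  have h : Submodule.span k (A : Set F) = Submodule.span k (Set.range fun i => (b i : F)) := by
    refine le_antisymm (Submodule.span_le.2 fun a ha => ?_) (Submodule.span_mono ?_)
    · have h1 := b.sum_repr ⟨a, ha⟩
      have h2 : a = ∑ i, (b.repr ⟨a, ha⟩ i) • (b i : F) := by
        have h4 := congrArg (Subtype.val) h1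
        rw [AddSubmonoidClass.coe_finset_sum] at h4
        exact h4.symm
      rw [SetLike.mem_coe, h2]
      refine Submodule.sum_mem _ fun i _ => ?_
      have h3 : (b.repr ⟨a, ha⟩ i) • (b i : F) = (algebraMap ℂ k (b.repr ⟨a, ha⟩ i)) • (b i : F) := by
        rw [algebraMap_smul]
      rw [h3]
      exact Submodule.smul_mem _ _ (Submodule.subset_span ⟨i, rfl⟩)
    · rintro _ ⟨i, rfl⟩
      exact (b i).2
  rw [h]
  refine ⟨FiniteDimensional.span_of_finite k (Set.finite_range _), ?_⟩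
  have h1 := finrank_range_le_card (R := k) (fun i => (b i : F))
  rw [Fintype.card_fin] at h1
  exact h1

/-- the map `w ↦ u w + ι (u w)` -/
def stbPhi (k : IntermediateField ℂ ↥C.K) (u : F) : F →ₗ[k] F where
  toFun w := u * w + C.ι (u * w)
  map_add' v w := by rw [mul_add, map_add]; ring
  map_smul' r w := by
    rw [RingHom.id_apply, stb_smul, stb_smul, mul_left_comm, map_mul, C.stb_ι_K]; ring

@[simp] theorem stbPhi_apply (k : IntermediateField ℂ ↥C.K) (u w : F) :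
    C.stbPhi k u w = u * w + C.ι (u * w) := rfl

/-- the restricted map -/
def stbPsi (k : IntermediateField ℂ ↥C.K) (H : Submodule k F) (u : F) (A : Submodule ℂ F)
    (h : ∀ w ∈ H, u * w + C.ι (u * w) ∈ Submodule.span k (A : Set F)) :
    H →ₗ[k] Submodule.span k (A : Set F) :=
  ((C.stbPhi k u).domRestrict H).codRestrict _ fun w => h w w.2

theorem stbPsi_apply (k : IntermediateField ℂ ↥C.K) (H : Submodule k F) (u : F)
    (A : Submodule ℂ F) (h : ∀ w ∈ H, u * w + C.ι (u * w) ∈ Submodule.span k (A : Set F))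
    (w : H) : (C.stbPsi k H u A h w : F) = u * w + C.ι (u * w) := rfl

theorem stbPsi_inj (k : IntermediateField ℂ ↥C.K) (H : Submodule k F) (v u : F)
    (hH : ∀ w ∈ H, ∃ κ : ↥C.K, w = κ * v) (hu : u * v + C.ι (u * v) ≠ 0) (A : Submodule ℂ F)
    (h : ∀ w ∈ H, u * w + C.ι (u * w) ∈ Submodule.span k (A : Set F)) :
    Function.Injective (C.stbPsi k H u A h) := by
  rw [← LinearMap.ker_eq_bot, LinearMap.ker_eq_bot']
  intro w hw
  obtain ⟨κ, hκ⟩ := hH w w.2
  have h1 := congrArg (fun z : Submodule.span k (A : Set F) => (z : F)) hw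
  simp only [stbPsi_apply, ZeroMemClass.coe_zero] at h1
  rw [hκ, mul_left_comm, map_mul, C.stb_ι_K, ← mul_add] at h1
  rcases mul_eq_zero.1 h1 with h2 | h2
  · apply Subtype.ext
    rw [hκ, h2, zero_mul]; rfl
  · exact absurd h2 hu

theorem stb_dim (k : IntermediateField ℂ ↥C.K) (H : Submodule k F) (v u : F)
    (hH : ∀ w ∈ H, ∃ κ : ↥C.K, w = κ * v) (hu : u * v + C.ι (u * v) ≠ 0) (A : Submodule ℂ F)
    [FiniteDimensional ℂ A]
    (h : ∀ w ∈ H, u * w + C.ι (u * w) ∈ Submodule.span k (A : Set F)) :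
    Module.finrank k H ≤ Module.finrank ℂ A := by
  have := (C.stb_span k A).1
  exact (LinearMap.finrank_le_finrank_of_injective (C.stbPsi_inj k H v u hH hu A h)).trans
    (C.stb_span k A).2

end dims

/-- the function field of `C` as a subspace -/
def kcS : Submodule ℂ F := sm C.KC.toSubalgebra
/-- the function field of `F₀` as a subspace -/
def kfS : Submodule ℂ F := sm C.KF.toSubalgebra

theorem mem_kcS {y : F} : y ∈ C.kcS ↔ y ∈ C.KC := Iff.rfl
theorem mem_kfS {y : F} : y ∈ C.kfS ↔ y ∈ C.KF := Iff.rfl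

theorem stb_mul_mono {P P' Q Q' : Submodule ℂ F} (hP : ∀ y ∈ P, y ∈ P') (hQ : ∀ y ∈ Q, y ∈ Q')
    {y : F} (hy : y ∈ P * Q) : y ∈ P' * Q' := by
  induction hy using Submodule.mul_induction_on' with
  | mem_mul_mem m hm n hn => exact Submodule.mul_mem_mul (hP m hm) (hQ n hn)
  | add x _ y _ hx hy => exact add_mem hx hy

theorem stb_mul_left {P : Submodule ℂ F} {r y : F} (hr : r ∈ C.KC) (hy : y ∈ C.kcS * P) :
    r * y ∈ C.kcS * P := by
  induction hy using Submodule.mul_induction_on' with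
  | mem_mul_mem m hm n hn =>
    rw [← mul_assoc]
    exact Submodule.mul_mem_mul (show r * m ∈ C.KC from mul_mem hr hm) hn
  | add x _ y _ hx hy => rw [mul_add]; exact add_mem hx hy

theorem stb_mul_right {P : Submodule ℂ F} {r y : F} (hr : r ∈ C.KF) (hy : y ∈ P * C.kfS) :
    r * y ∈ P * C.kfS := by
  induction hy using Submodule.mul_induction_on' with
  | mem_mul_mem m hm n hn =>
    rw [mul_left_comm]
    exact Submodule.mul_mem_mul hm (show r * n ∈ C.KF from mul_mem hr hn)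
  | add x _ y _ hx hy => rw [mul_add]; exact add_mem hx hy

theorem stb_E'_le (a b : Bool) : C.E' a b ≤ C.N a * C.QM b := by
  by_cases h : a || b
  · rw [C.E'_eq a b h]
  · simp only [Bool.or_eq_true, not_or, Bool.not_eq_true] at h
    rw [h.1, h.2, C.E'_00]
    exact inf_le_left

theorem stb_N_KC (a : Bool) : C.N a ≤ C.kcS := fun y hy => C.OCs_le y (C.N_le a hy)

theorem stb_inv_pow_mul {t : F} (ht : t ≠ 0) (n : ℕ) (w : F) : t ^ n * (t⁻¹ ^ n * w) = w := by
  rw [← mul_assoc, ← mul_pow, mul_inv_cancel₀ ht, one_pow, one_mul]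

theorem stb_inv_pow_mul' {t : F} (ht : t ≠ 0) (n : ℕ) (w : F) : t⁻¹ ^ n * (t ^ n * w) = w := by
  rw [← mul_assoc, ← mul_pow, inv_mul_cancel₀ ht, one_pow, one_mul]

theorem stb_sc_mul (P Q : Submodule ℂ F) (z y : F) (hy : y ∈ P * Q) : z * y ∈ P * sc z Q := by
  induction hy using Submodule.mul_induction_on' with
  | mem_mul_mem m hm n hn =>
    rw [mul_left_comm]
    exact Submodule.mul_mem_mul hm (mem_sc.2 ⟨n, hn, rfl⟩)
  | add x _ y _ hx hy => rw [mul_add]; exact add_mem hx hy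

theorem stb_sc_mul' (P Q : Submodule ℂ F) (z y : F) (hy : y ∈ P * Q) : z * y ∈ sc z P * Q := by
  induction hy using Submodule.mul_induction_on' with
  | mem_mul_mem m hm n hn =>
    rw [← mul_assoc]
    exact Submodule.mul_mem_mul (mem_sc.2 ⟨m, hm, rfl⟩) hn
  | add x _ y _ hx hy => rw [mul_add]; exact add_mem hx hy

/-- sections over the generic fibre of `t` -/
theorem stb_memHt (v : F) (n : ℕ) (w : F)
    (hw : w ∈ (⨅ b, (fibT C.surf (line (K := ↥C.K) C.E' v) b).comap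
      (Module.toModuleEnd C.surf.kt F (twc C.surf.x n b)))) :
    (∃ κ : ↥C.K, w = κ * v) ∧ w ∈ C.kcS * secs C.x (C.QM false) (C.QM true) n := by
  rw [Submodule.mem_iInf] at hw
  have key : ∀ b y, y ∈ fibT C.surf (line (K := ↥C.K) C.E' v) b →
      (∃ κ : ↥C.K, y = κ * v) ∧ y ∈ C.kcS * C.QM b := by
    intro b y hy
    unfold fibT at hy
    induction hy using Submodule.span_induction with
    | mem y hy =>
      have h1 : y ∈ C.E' false b := hy.1
      have h2 : y ∈ Submodule.span ↥C.K {v} := hy.2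
      obtain ⟨κ, hκ⟩ := Submodule.mem_span_singleton.1 h2
      exact ⟨⟨κ, hκ.symm⟩, stb_mul_mono (C.stb_N_KC false) (fun _ h => h) (C.stb_E'_le false b h1)⟩
    | zero => exact ⟨⟨0, by simp⟩, zero_mem _⟩
    | add y z _ _ hy hz =>
      obtain ⟨⟨κ, hκ⟩, h1⟩ := hy
      obtain ⟨⟨κ', hκ'⟩, h1'⟩ := hz
      exact ⟨⟨κ + κ', by rw [hκ, hκ']; push_cast; ring⟩, add_mem h1 h1'⟩
    | smul r y _ hy =>
      obtain ⟨⟨κ, hκ⟩, h1⟩ := hy
      rw [stb_smul]
      exact ⟨⟨(r : ↥C.K) * κ, by rw [hκ]; push_cast; ring⟩,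
        C.stb_mul_left (C.stb_kt_le (C.stb_kt_coe r)) h1⟩
  have h0 := key false w (by
    have := hw false
    rw [Submodule.mem_comap] at this
    simpa [twc] using this)
  have h1 := key true (C.x⁻¹ ^ n * w) (by
    have := hw true
    rw [Submodule.mem_comap] at this
    exact this)
  refine ⟨h0.1, ?_⟩
  have h2 := stb_sc_mul _ _ (C.x ^ n) _ h1.2
  rw [stb_inv_pow_mul C.stb_x_ne] at h2
  have h3 : w ∈ (C.kcS * C.QM false) ⊓ (C.kcS * sc (C.x ^ n) (C.QM true)) := ⟨h0.2, h2⟩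
  rw [C.inf_mul C.kcS C.kcS _ _ (fun y hy => hy) (fun y hy => hy) (C.QM_le false) (by
    intro y hy
    obtain ⟨z, hz, rfl⟩ := mem_sc.1 hy
    exact mul_mem (pow_mem (C.stb_kx_le C.stb_x_mem) n) (C.QM_le true z hz))] at h3
  refine stb_mul_mono (inf_le_left : C.kcS ⊓ C.kcS ≤ C.kcS) ?_ h3
  rintro y ⟨hy1, hy2⟩
  obtain ⟨z, hz, rfl⟩ := mem_sc.1 hy2
  refine mem_secs.2 ⟨hy1, ?_⟩
  rw [stb_inv_pow_mul' C.stb_x_ne]
  exact hz

/-- sections over the generic fibre of `x` -/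
theorem stb_memHx (v : F) (n : ℕ) (w : F)
    (hw : w ∈ (⨅ a, (fibX C.surf (line (K := ↥C.K) C.E' v) a).comap
      (Module.toModuleEnd C.surf.kx F (twc C.surf.t n a)))) :
    (∃ κ : ↥C.K, w = κ * v) ∧ w ∈ secs C.t (C.N false) (C.N true) n * C.kfS := by
  rw [Submodule.mem_iInf] at hw
  have key : ∀ a y, y ∈ fibX C.surf (line (K := ↥C.K) C.E' v) a →
      (∃ κ : ↥C.K, y = κ * v) ∧ y ∈ C.N a * C.kfS := by
    intro a y hy
    unfold fibX at hy
    induction hy using Submodule.span_induction with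
    | mem y hy =>
      have h1 : y ∈ C.E' a false := hy.1
      have h2 : y ∈ Submodule.span ↥C.K {v} := hy.2
      obtain ⟨κ, hκ⟩ := Submodule.mem_span_singleton.1 h2
      exact ⟨⟨κ, hκ.symm⟩, stb_mul_mono (fun _ h => h) (C.QM_le false) (C.stb_E'_le a false h1)⟩
    | zero => exact ⟨⟨0, by simp⟩, zero_mem _⟩
    | add y z _ _ hy hz =>
      obtain ⟨⟨κ, hκ⟩, h1⟩ := hy
      obtain ⟨⟨κ', hκ'⟩, h1'⟩ := hz
      exact ⟨⟨κ + κ', by rw [hκ, hκ']; push_cast; ring⟩, add_mem h1 h1'⟩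
    | smul r y _ hy =>
      obtain ⟨⟨κ, hκ⟩, h1⟩ := hy
      rw [stb_smul]
      exact ⟨⟨(r : ↥C.K) * κ, by rw [hκ]; push_cast; ring⟩,
        C.stb_mul_right (C.stb_kx_le (C.stb_kx_coe r)) h1⟩
  have h0 := key false w (by
    have := hw false
    rw [Submodule.mem_comap] at this
    simpa [twc] using this)
  have h1 := key true (C.t⁻¹ ^ n * w) (by
    have := hw true
    rw [Submodule.mem_comap] at this
    exact this)
  refine ⟨h0.1, ?_⟩
  have h2 := stb_sc_mul' _ _ (C.t ^ n) _ h1.2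
  rw [stb_inv_pow_mul C.stb_t_ne] at h2
  have h3 : w ∈ (C.N false * C.kfS) ⊓ (sc (C.t ^ n) (C.N true) * C.kfS) := ⟨h0.2, h2⟩
  rw [C.inf_mul _ _ C.kfS C.kfS (C.stb_N_KC false) (by
    intro y hy
    obtain ⟨z, hz, rfl⟩ := mem_sc.1 hy
    exact mul_mem (pow_mem (C.stb_kt_le C.stb_t_mem) n) (C.stb_N_KC true hz))
    (fun y hy => hy) (fun y hy => hy)] at h3
  refine stb_mul_mono ?_ (inf_le_left : C.kfS ⊓ C.kfS ≤ C.kfS) h3
  rintro y ⟨hy1, hy2⟩
  obtain ⟨z, hz, rfl⟩ := mem_sc.1 hy2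
  refine mem_secs.2 ⟨hy1, ?_⟩
  rw [stb_inv_pow_mul' C.stb_t_ne]
  exact hz

/-- the invariant part of `KC * A` -/
theorem stb_plus_t (A : Submodule ℂ F) (hA : ∀ a ∈ A, C.ι a ∈ A) (w : F)
    (hw : w ∈ C.kcS * A) :
    w + C.ι w ∈ Submodule.span C.surf.kt
      ((A.map (C.stbPl + (LinearMap.mulLeft ℂ C.s) ∘ₗ C.stbMi) : Submodule ℂ F) : Set F) := by
  induction hw using Submodule.mul_induction_on' with
  | mem_mul_mem c hc a ha =>
    obtain ⟨α, hα, β, hβ, rfl⟩ := C.stb_KC c hc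
    obtain ⟨r, rfl⟩ := C.stb_kt_exists α hα
    obtain ⟨r', rfl⟩ := C.stb_kt_exists β hβ
    have h1 : a + C.ι a ∈ A.map (C.stbPl + (LinearMap.mulLeft ℂ C.s) ∘ₗ C.stbMi) := by
      refine ⟨(2 : ℂ)⁻¹ • (a + C.ι a), Submodule.smul_mem _ _ (add_mem ha (hA a ha)), ?_⟩
      have : (C.stbPl + (LinearMap.mulLeft ℂ C.s) ∘ₗ C.stbMi) (a + C.ι a) = (2 : ℂ) • (a + C.ι a) := by
        simp only [LinearMap.add_apply, LinearMap.comp_apply, stbPl_apply, stbMi_apply, map_add,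
          stb_ιι, LinearMap.mulLeft_apply, two_smul]
        ring
      rw [map_smul, this, smul_smul]
      norm_num
    have h2 : C.s * (a - C.ι a) ∈ A.map (C.stbPl + (LinearMap.mulLeft ℂ C.s) ∘ₗ C.stbMi) := by
      refine ⟨(2 : ℂ)⁻¹ • (a - C.ι a), Submodule.smul_mem _ _ (sub_mem ha (hA a ha)), ?_⟩
      have : (C.stbPl + (LinearMap.mulLeft ℂ C.s) ∘ₗ C.stbMi) (a - C.ι a) =
          (2 : ℂ) • (C.s * (a - C.ι a)) := by
        simp only [LinearMap.add_apply, LinearMap.comp_apply, stbPl_apply, stbMi_apply, map_sub,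
          stb_ιι, LinearMap.mulLeft_apply, two_smul]
        ring
      rw [map_smul, this, smul_smul]
      norm_num
    have h3 : (((r : ↥C.K) : F) + ((r' : ↥C.K) : F) * C.s) * a +
        C.ι ((((r : ↥C.K) : F) + ((r' : ↥C.K) : F) * C.s) * a) =
        r • (a + C.ι a) + r' • (C.s * (a - C.ι a)) := by
      rw [stb_smul, stb_smul]
      simp only [map_mul, map_add, C.stb_ι_K, C.ι_s]
      ring
    rw [h3]
    exact add_mem (Submodule.smul_mem _ _ (Submodule.subset_span h1))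
      (Submodule.smul_mem _ _ (Submodule.subset_span h2))
  | add y _ z _ hy hz =>
    rw [map_add, add_add_add_comm]
    exact add_mem hy hz

/-- the invariant part of `A * KF` -/
theorem stb_plus_x (A : Submodule ℂ F) (hA : ∀ a ∈ A, C.ι a ∈ A) (w : F)
    (hw : w ∈ A * C.kfS) :
    w + C.ι w ∈ Submodule.span C.surf.kx
      ((A.map (C.stbPl + (LinearMap.mulLeft ℂ C.p) ∘ₗ C.stbMi) ⊔
        A.map ((LinearMap.mulLeft ℂ C.Y) ∘ₗ C.stbPl + (LinearMap.mulLeft ℂ C.q) ∘ₗ C.stbMi) :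
        Submodule ℂ F) : Set F) := by
  induction hw using Submodule.mul_induction_on' with
  | mem_mul_mem a ha d hd =>
    obtain ⟨α, hα, β, hβ, γ, hγ, δ, hδ, rfl⟩ := C.stb_KF d hd
    obtain ⟨r1, rfl⟩ := C.stb_kx_exists α hα
    obtain ⟨r2, rfl⟩ := C.stb_kx_exists β hβ
    obtain ⟨r3, rfl⟩ := C.stb_kx_exists γ hγ
    obtain ⟨r4, rfl⟩ := C.stb_kx_exists δ hδ
    have h1 : a + C.ι a ∈ A.map (C.stbPl + (LinearMap.mulLeft ℂ C.p) ∘ₗ C.stbMi) := by
      refine ⟨(2 : ℂ)⁻¹ • (a + C.ι a), Submodule.smul_mem _ _ (add_mem ha (hA a ha)), ?_⟩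
      have : (C.stbPl + (LinearMap.mulLeft ℂ C.p) ∘ₗ C.stbMi) (a + C.ι a) = (2 : ℂ) • (a + C.ι a) := by
        simp only [LinearMap.add_apply, LinearMap.comp_apply, stbPl_apply, stbMi_apply, map_add,
          stb_ιι, LinearMap.mulLeft_apply, two_smul]
        ring
      rw [map_smul, this, smul_smul]
      norm_num
    have h2 : C.p * (a - C.ι a) ∈ A.map (C.stbPl + (LinearMap.mulLeft ℂ C.p) ∘ₗ C.stbMi) := by
      refine ⟨(2 : ℂ)⁻¹ • (a - C.ι a), Submodule.smul_mem _ _ (sub_mem ha (hA a ha)), ?_⟩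
      have : (C.stbPl + (LinearMap.mulLeft ℂ C.p) ∘ₗ C.stbMi) (a - C.ι a) =
          (2 : ℂ) • (C.p * (a - C.ι a)) := by
        simp only [LinearMap.add_apply, LinearMap.comp_apply, stbPl_apply, stbMi_apply, map_sub,
          stb_ιι, LinearMap.mulLeft_apply, two_smul]
        ring
      rw [map_smul, this, smul_smul]
      norm_num
    have h3 : C.Y * (a + C.ι a) ∈ A.map ((LinearMap.mulLeft ℂ C.Y) ∘ₗ C.stbPl +
        (LinearMap.mulLeft ℂ C.q) ∘ₗ C.stbMi) := by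
      refine ⟨(2 : ℂ)⁻¹ • (a + C.ι a), Submodule.smul_mem _ _ (add_mem ha (hA a ha)), ?_⟩
      have : ((LinearMap.mulLeft ℂ C.Y) ∘ₗ C.stbPl + (LinearMap.mulLeft ℂ C.q) ∘ₗ C.stbMi)
          (a + C.ι a) = (2 : ℂ) • (C.Y * (a + C.ι a)) := by
        simp only [LinearMap.add_apply, LinearMap.comp_apply, stbPl_apply, stbMi_apply, map_add,
          stb_ιι, LinearMap.mulLeft_apply, two_smul]
        ring
      rw [map_smul, this, smul_smul]
      norm_num
    have h4 : C.q * (a - C.ι a) ∈ A.map ((LinearMap.mulLeft ℂ C.Y) ∘ₗ C.stbPl +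
        (LinearMap.mulLeft ℂ C.q) ∘ₗ C.stbMi) := by
      refine ⟨(2 : ℂ)⁻¹ • (a - C.ι a), Submodule.smul_mem _ _ (sub_mem ha (hA a ha)), ?_⟩
      have : ((LinearMap.mulLeft ℂ C.Y) ∘ₗ C.stbPl + (LinearMap.mulLeft ℂ C.q) ∘ₗ C.stbMi)
          (a - C.ι a) = (2 : ℂ) • (C.q * (a - C.ι a)) := by
        simp only [LinearMap.add_apply, LinearMap.comp_apply, stbPl_apply, stbMi_apply, map_sub,
          stb_ιι, LinearMap.mulLeft_apply, two_smul]
        ring
      rw [map_smul, this, smul_smul]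
      norm_num
    have h5 : a * (((r1 : ↥C.K) : F) + ((r2 : ↥C.K) : F) * C.Y + ((r3 : ↥C.K) : F) * C.p +
        ((r4 : ↥C.K) : F) * C.q) + C.ι (a * (((r1 : ↥C.K) : F) + ((r2 : ↥C.K) : F) * C.Y +
        ((r3 : ↥C.K) : F) * C.p + ((r4 : ↥C.K) : F) * C.q)) =
        r1 • (a + C.ι a) + r2 • (C.Y * (a + C.ι a)) + r3 • (C.p * (a - C.ι a)) +
        r4 • (C.q * (a - C.ι a)) := by
      rw [stb_smul, stb_smul, stb_smul, stb_smul]
      simp only [map_mul, map_add, C.stb_ι_K, C.ι_p, C.ι_q, C.stb_ι_Y]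
      ring
    rw [h5]
    exact add_mem (add_mem (add_mem
      (Submodule.smul_mem _ _ (Submodule.subset_span (Submodule.mem_sup_left h1)))
      (Submodule.smul_mem _ _ (Submodule.subset_span (Submodule.mem_sup_right h3))))
      (Submodule.smul_mem _ _ (Submodule.subset_span (Submodule.mem_sup_left h2))))
      (Submodule.smul_mem _ _ (Submodule.subset_span (Submodule.mem_sup_right h4)))
  | add y _ z _ hy hz =>
    rw [map_add, add_add_add_comm]
    exact add_mem hy hz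

theorem stb_ι_secs_QM (n : ℕ) (a : F) (ha : a ∈ secs C.x (C.QM false) (C.QM true) n) :
    C.ι a ∈ secs C.x (C.QM false) (C.QM true) n := by
  refine mem_secs.2 ⟨C.QM_ι false a (mem_secs.1 ha).1, ?_⟩
  have h := C.QM_ι true _ (mem_secs.1 ha).2
  rwa [map_mul, map_pow, map_inv₀, C.ι_x] at h

theorem stb_ι_secs_OC (n : ℕ) (a : F) (ha : a ∈ secs C.t (sm (C.OC false)) (sm (C.OC true)) n) :
    C.ι a ∈ secs C.t (sm (C.OC false)) (sm (C.OC true)) n := by
  refine mem_secs.2 ⟨C.ι_OC false a (mem_secs.1 ha).1, ?_⟩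
  have h := C.ι_OC true _ (mem_secs.1 ha).2
  rwa [map_mul, map_pow, map_inv₀, C.ι_t] at h

theorem stb_N_false (y : F) : y ∈ C.N false ↔ y ∈ C.OC false := by
  unfold N
  rw [if_neg (by simp), mem_sc]
  constructor
  · rintro ⟨w, hw, rfl⟩
    rw [one_mul]; exact hw
  · intro h
    exact ⟨y, h, one_mul y⟩

theorem stb_two : (2 : F) ≠ 0 := by
  have : CharZero F := charZero_of_injective_algebraMap (algebraMap ℂ F).injective
  exact two_ne_zero

theorem stb_plus_ne (v z : F) (hv : v ≠ 0) (hz : z ≠ 0) (hι : C.ι z = -z) :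
    1 * v + C.ι (1 * v) ≠ 0 ∨ z * v + C.ι (z * v) ≠ 0 := by
  by_contra hcon
  push Not at hcon
  obtain ⟨h1, h2⟩ := hcon
  rw [one_mul] at h1
  rw [map_mul, hι] at h2
  have h3 : C.ι v = -v := by linear_combination h1
  rw [h3] at h2
  have h4 : (2 : F) * (z * v) = 0 := by linear_combination h2
  rcases mul_eq_zero.1 h4 with h5 | h5
  · exact stb_two h5
  · exact mul_ne_zero hz hv h5

theorem stb1 (v : F) (hv : v ≠ 0) (n : ℕ) (hn : 1 ≤ n) :
    h0t C.surf (line (K := ↥C.K) C.E' v) n ≤ 4 * n := by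
  have hA := C.finrank_QM n hn
  have : FiniteDimensional ℂ (secs C.x (C.QM false) (C.QM true) n) :=
    Module.finite_of_finrank_pos (by rw [hA]; omega)
  have key : ∀ u : F, u ∈ C.KC → u * v + C.ι (u * v) ≠ 0 →
      h0t C.surf (line (K := ↥C.K) C.E' v) n ≤ 4 * n := by
    intro u huK hu
    rw [← hA]
    refine (C.stb_dim C.surf.kt _ v u (fun w hw => (C.stb_memHt v n w hw).1) hu
      ((secs C.x (C.QM false) (C.QM true) n).map
        (C.stbPl + (LinearMap.mulLeft ℂ C.s) ∘ₗ C.stbMi)) fun w hw => ?_).trans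
      (Submodule.finrank_map_le _ _)
    exact C.stb_plus_t _ (C.stb_ι_secs_QM n) _ (C.stb_mul_left huK (C.stb_memHt v n w hw).2)
  rcases C.stb_plus_ne v C.s hv C.stb_s_ne C.ι_s with h | h
  · exact key 1 (one_mem _) h
  · exact key C.s C.stb_s_mem h

theorem stb_alg (S : Submodule C.surf.kt F) (hS : FiniteDimensional C.surf.kt S) (hS0 : S ≠ ⊥)
    (γ : F) (h : ∀ y ∈ S, γ * y ∈ S) : γ ∈ C.KC := by
  have h1 : IsIntegral C.surf.kt γ :=
    isIntegral_of_smul_mem_submodule (M := F) S hS0 ((Submodule.fg_iff_finiteDimensional S).2 hS) γ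
      fun y hy => h y hy
  apply C.alg_KC
  apply IsIntegral.isAlgebraic
  let φ : C.surf.kt →+* ↥(IntermediateField.adjoin ℂ {C.t}) :=
    { toFun := fun r => ⟨((r : ↥C.K) : F), C.stb_kt_coe r⟩
      map_one' := rfl
      map_mul' := fun _ _ => rfl
      map_zero' := rfl
      map_add' := fun _ _ => rfl }
  obtain ⟨P, hP, hP2⟩ := h1
  refine ⟨P.map φ, hP.map φ, ?_⟩
  rw [Polynomial.eval₂_map]
  exact hP2

theorem stb2 (v : F) (hv : v ≠ 0) (n : ℕ) (hn : 1 ≤ n)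
    (h : h0t C.surf (line (K := ↥C.K) C.E' v) n = 4 * n) :
    ∃ (k : ↥C.K) (c : F), c ∈ C.KC ∧ v = k • c := by
  have hA := C.finrank_QM n hn
  have : FiniteDimensional ℂ (secs C.x (C.QM false) (C.QM true) n) :=
    Module.finite_of_finrank_pos (by rw [hA]; omega)
  have hs := C.stb_s_ne
  have h20 : (2 : F) ≠ 0 := stb_two
  by_cases h1 : v + C.ι v = 0
  · -- `v` is antiinvariant
    refine ⟨⟨v * C.s⁻¹, ?_⟩, C.s, C.stb_s_mem, ?_⟩
    · rw [C.mem_K, map_mul, map_inv₀, C.ι_s, show C.ι v = -v by linear_combination h1, inv_neg]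
      ring
    · show v = v * C.s⁻¹ * C.s
      rw [inv_mul_cancel_right₀ hs]
  by_cases h2 : v - C.ι v = 0
  · refine ⟨⟨v, ?_⟩, 1, one_mem _, ?_⟩
    · rw [C.mem_K]; linear_combination -h2
    · show v = v * 1
      rw [mul_one]
  set A := (secs C.x (C.QM false) (C.QM true) n).map
    (C.stbPl + (LinearMap.mulLeft ℂ C.s) ∘ₗ C.stbMi) with hAdef
  have hAr : Module.finrank ℂ A ≤ 4 * n := by
    rw [← hA]; exact Submodule.finrank_map_le _ _
  have := (C.stb_span C.surf.kt A).1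
  have hSr := (C.stb_span C.surf.kt A).2.trans hAr
  unfold h0t at h
  set H := (⨅ b, (fibT C.surf (line (K := ↥C.K) C.E' v) b).comap
      (Module.toModuleEnd C.surf.kt F (twc C.surf.x n b))) with hH
  have : FiniteDimensional C.surf.kt H := Module.finite_of_finrank_pos (by rw [h]; omega)
  have hmem : ∀ w ∈ H, (∃ κ : ↥C.K, w = κ * v) ∧
      w ∈ C.kcS * secs C.x (C.QM false) (C.QM true) n := fun w hw => C.stb_memHt v n w hw
  have hspan : ∀ u ∈ C.KC, ∀ w ∈ H, u * w + C.ι (u * w) ∈ Submodule.span C.surf.kt (A : Set F) :=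
    fun u hu w hw => C.stb_plus_t _ (C.stb_ι_secs_QM n) _ (C.stb_mul_left hu (hmem w hw).2)
  have hsurj : ∀ u ∈ C.KC, u * v + C.ι (u * v) ≠ 0 →
      ∀ y ∈ Submodule.span C.surf.kt (A : Set F), ∃ κ : ↥C.K, (κ : F) * v ∈ H ∧
        y = κ * (u * v + C.ι (u * v)) := by
    intro u hu hne y hy
    have hinj := C.stbPsi_inj C.surf.kt H v u (fun w hw => (hmem w hw).1) hne A (hspan u hu)
    have h3 : Module.finrank C.surf.kt H =
        Module.finrank C.surf.kt (Submodule.span C.surf.kt (A : Set F)) :=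
      le_antisymm (LinearMap.finrank_le_finrank_of_injective hinj) (by rw [h]; exact hSr)
    have hs := (LinearMap.injective_iff_surjective_of_finrank_eq_finrank h3).1 hinj
    obtain ⟨w, hw⟩ := hs ⟨y, hy⟩
    obtain ⟨κ, hκ⟩ := (hmem w w.2).1
    refine ⟨κ, hκ ▸ w.2, ?_⟩
    have h4 := congrArg (fun z : Submodule.span C.surf.kt (A : Set F) => (z : F)) hw
    simp only [stbPsi_apply] at h4
    rw [← h4, hκ, mul_left_comm, map_mul, C.stb_ι_K, ← mul_add]
  have e1 : C.s * v + C.ι (C.s * v) = C.s * (v - C.ι v) := by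
    rw [map_mul, C.ι_s]; ring
  have hne2 : C.s * v + C.ι (C.s * v) ≠ 0 := by
    rw [e1]; exact mul_ne_zero hs h2
  have e0 : (1 : F) * v + C.ι (1 * v) = v + C.ι v := by rw [one_mul]
  have hne1 : (1 : F) * v + C.ι (1 * v) ≠ 0 := by rw [e0]; exact h1
  have hγ : C.s * (v - C.ι v) * (v + C.ι v)⁻¹ ∈ C.KC := by
    refine C.stb_alg (Submodule.span C.surf.kt (A : Set F)) inferInstance ?_ _ fun y hy => ?_
    · intro h5
      have h6 : Module.finrank C.surf.kt H ≤ 0 := by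
        have := LinearMap.finrank_le_finrank_of_injective
          (C.stbPsi_inj C.surf.kt H v 1 (fun w hw => (hmem w hw).1) hne1 A (hspan 1 (one_mem _)))
        rw [h5] at this
        simpa using this
      rw [h] at h6
      omega
    · obtain ⟨κ, hκ, rfl⟩ := hsurj 1 (one_mem _) hne1 y hy
      have h5 := hspan C.s C.stb_s_mem _ hκ
      rw [mul_left_comm, map_mul, C.stb_ι_K, ← mul_add, e1] at h5
      rw [e0]
      have h6 : C.s * (v - C.ι v) * (v + C.ι v)⁻¹ * ((κ : F) * (v + C.ι v)) =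
          (κ : F) * (C.s * (v - C.ι v)) := by
        field_simp
      rw [h6]
      exact h5
  refine ⟨⟨(v + C.ι v) * (2 : F)⁻¹, ?_⟩, 1 + (C.s * (v - C.ι v) * (v + C.ι v)⁻¹) * C.s⁻¹,
    add_mem (one_mem _) (mul_mem hγ (inv_mem C.stb_s_mem)), ?_⟩
  · rw [C.mem_K, map_mul, map_add, stb_ιι, map_inv₀, map_ofNat, add_comm]
  · show v = (v + C.ι v) * (2 : F)⁻¹ * (1 + (C.s * (v - C.ι v) * (v + C.ι v)⁻¹) * C.s⁻¹)
    field_simp
    ring

theorem stb3 (v : F) (hv : v ≠ 0) (n : ℕ) (hn : 2 ≤ n) :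
    h0x C.surf (line (K := ↥C.K) C.E' v) n ≤ h0x C.surf C.surf.O n + 8 := by
  rw [C.h0x_O n hn]
  have hA := C.finrank_OC (n + 2) (by omega)
  have : FiniteDimensional ℂ (secs C.t (sm (C.OC false)) (sm (C.OC true)) (n + 2)) :=
    Module.finite_of_finrank_pos (by rw [hA]; omega)
  have hle : secs C.t (C.N false) (C.N true) n ≤
      secs C.t (sm (C.OC false)) (sm (C.OC true)) (n + 2) := by
    intro y hy
    obtain ⟨h1, h2⟩ := mem_secs.1 hy
    refine mem_secs.2 ⟨(C.stb_N_false y).1 h1, ?_⟩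
    obtain ⟨z, hz, h3⟩ := mem_sc.1 (C.N_true_le h2)
    have h4 : C.t⁻¹ ^ (n + 2) * y = z := by
      rw [pow_add, mul_comm (C.t⁻¹ ^ n), mul_assoc, ← h3, stb_inv_pow_mul' C.stb_t_ne]
    rw [h4]
    exact hz
  have key : ∀ u : F, u ∈ C.KF → u * v + C.ι (u * v) ≠ 0 →
      h0x C.surf (line (K := ↥C.K) C.E' v) n ≤ 2 * (2 * (n + 2) - 1) := by
    intro u huK hu
    rw [← hA]
    refine (C.stb_dim C.surf.kx _ v u (fun w hw => (C.stb_memHx v n w hw).1) hu
      ((secs C.t (sm (C.OC false)) (sm (C.OC true)) (n + 2)).map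
        (C.stbPl + (LinearMap.mulLeft ℂ C.p) ∘ₗ C.stbMi) ⊔
        (secs C.t (sm (C.OC false)) (sm (C.OC true)) (n + 2)).map
          ((LinearMap.mulLeft ℂ C.Y) ∘ₗ C.stbPl + (LinearMap.mulLeft ℂ C.q) ∘ₗ C.stbMi))
      fun w hw => ?_).trans ?_
    · exact C.stb_plus_x _ (C.stb_ι_secs_OC (n + 2)) _ (C.stb_mul_right huK
        (stb_mul_mono hle (fun _ h => h) (C.stb_memHx v n w hw).2))
    · refine (Submodule.finrank_add_le_finrank_add_finrank _ _).trans ?_
      rw [two_mul]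
      exact add_le_add (Submodule.finrank_map_le _ _) (Submodule.finrank_map_le _ _)
  have h5 : h0x C.surf (line (K := ↥C.K) C.E' v) n ≤ 2 * (2 * (n + 2) - 1) := by
    rcases C.stb_plus_ne v C.p hv C.stb_p_ne C.ι_p with h | h
    · exact key 1 (one_mem _) h
    · exact key C.p C.stb_p_mem h
  omega

theorem stb_secs_t (n : ℕ) (y : F) (hy : y ∈ secs C.t (C.N false) (C.N true) n) :
    y ∈ C.OC false ∧ C.t⁻¹ ^ n * y ∈ C.N true :=
  ⟨(C.stb_N_false y).1 (mem_secs.1 hy).1, (mem_secs.1 hy).2⟩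

theorem stb_t_OC : C.t ∈ C.OC false := Algebra.subset_adjoin (by simp [T, coord])
theorem stb_tinv_OC : C.t⁻¹ ∈ C.OC true := Algebra.subset_adjoin (by simp [T, coord])

theorem stb_N_true (y : F) : y ∈ C.N true ↔ ∃ w ∈ C.OC true, C.g * w = y := by
  unfold N
  rw [if_pos rfl, mem_sc]
  rfl

theorem stb_g_ne : C.g ≠ 0 := by
  intro h
  have h1 := C.g_mul
  rw [h, zero_mul] at h1
  have h2 : (2 : F) * 2 = 0 := by linear_combination h1
  rcases mul_eq_zero.1 h2 with h3 | h3 <;> exact stb_two h3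

/-- if `c/ι c` preserves the sections of `N(n)` for arbitrarily large `n` then `c = 0` -/
theorem stb_large (δ : F) (h : ∀ n₀ : ℕ, ∃ n ≥ n₀, ∀ y ∈ secs C.t (C.N false) (C.N true) n,
    δ * C.ι y ∈ secs C.t (C.N false) (C.N true) n) : δ = 0 := by
  have h1 : δ ∈ C.N2 false := by
    obtain ⟨m, -, -, h2, -⟩ := C.OCs_loc 1 (one_mem _)
    obtain ⟨n, hn, h3⟩ := h m
    have h4 : (1 : F) ∈ secs C.t (C.N false) (C.N true) n := by
      refine mem_secs.2 ⟨(C.stb_N_false 1).2 (one_mem _), ?_⟩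
      obtain ⟨w, hw, hw2⟩ := (C.stb_N_true _).1 h2
      refine (C.stb_N_true _).2 ⟨C.t⁻¹ ^ (n - m) * w, mul_mem (pow_mem C.stb_tinv_OC _) hw, ?_⟩
      rw [mul_left_comm, hw2, ← mul_assoc, ← pow_add, Nat.sub_add_cancel hn]
    have h5 := h3 1 h4
    rw [map_one, mul_one] at h5
    unfold N2
    rw [if_neg (by simp), mem_sc]
    exact ⟨δ, (C.stb_secs_t n δ h5).1, one_mul δ⟩
  have h2 : δ ∈ C.N2 true := by
    obtain ⟨m, h2, -, -, -⟩ := C.OCs_loc C.g C.g_mem
    obtain ⟨n, hn, h3⟩ := h m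
    have h4 : C.t ^ n * C.g ∈ secs C.t (C.N false) (C.N true) n := by
      refine mem_secs.2 ⟨(C.stb_N_false _).2 ?_, ?_⟩
      · have h5 : C.t ^ n * C.g = C.t ^ (n - m) * (C.t ^ m * C.g) := by
          rw [← mul_assoc, ← pow_add, Nat.sub_add_cancel hn]
        rw [h5]
        exact mul_mem (pow_mem C.stb_t_OC _) h2
      · rw [stb_inv_pow_mul' C.stb_t_ne]
        exact (C.stb_N_true _).2 ⟨1, one_mem _, mul_one _⟩
    have h5 := (C.stb_secs_t n _ (h3 _ h4)).2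
    rw [map_mul, map_pow, C.ι_t, mul_left_comm δ, stb_inv_pow_mul' C.stb_t_ne] at h5
    obtain ⟨r, hr, h6⟩ := (C.stb_N_true _).1 h5
    have h7 := C.g_mul
    have h8 : C.g ^ 2 * r = δ * (-4) := by
      rw [← h7]
      linear_combination C.g * h6
    unfold N2
    rw [if_pos rfl, mem_sc]
    refine ⟨(algebraMap ℂ F (-(4 : ℂ)⁻¹)) * r,
      (C.OC true).mul_mem (Subalgebra.algebraMap_mem _ _) hr, ?_⟩
    have h9 : (algebraMap ℂ F (-(4 : ℂ)⁻¹)) * (-4) = 1 := by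
      have h10 : (-4 : F) = algebraMap ℂ F (-4) := by
        rw [map_neg, map_ofNat]
      rw [h10, ← map_mul, show (-(4 : ℂ)⁻¹) * (-4) = 1 by norm_num, map_one]
    rw [mul_left_comm, h8, mul_left_comm, h9, mul_one]
  have h3 : δ ∈ C.N2 false ⊓ C.N2 true := ⟨h1, h2⟩
  rw [C.N2_inf] at h3
  simpa using h3

theorem stb4 (c : F) (hc : c ∈ C.KC) (hc0 : c ≠ 0) : ∀ᶠ n : ℕ in Filter.atTop,
    h0x C.surf (line (K := ↥C.K) C.E' c) n < h0x C.surf C.surf.O n := by
  by_contra hcon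
  rw [Filter.not_eventually, Filter.frequently_atTop] at hcon
  have hιc : C.ι c ≠ 0 := fun h => hc0 (by
    have h1 := C.stb_ιι c
    rw [h, map_zero] at h1
    exact h1.symm)
  have key : c * (C.ι c)⁻¹ = 0 := by
    refine C.stb_large _ fun n₀ => ?_
    obtain ⟨n, hn, h1⟩ := hcon (max n₀ 2)
    have hn0 : n₀ ≤ n := (le_max_left _ _).trans hn
    have hn2 : 2 ≤ n := (le_max_right _ _).trans hn
    refine ⟨n, hn0, ?_⟩
    rw [C.h0x_O n hn2, not_lt] at h1
    have hN := C.finrank_N n (by omega)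
    set Sg := secs C.t (C.N false) (C.N true) n with hSg
    have hfd : FiniteDimensional ℂ Sg := Module.finite_of_finrank_pos (by rw [hN]; omega)
    -- the two translates
    set I := Sg.map (LinearMap.mulLeft ℂ c⁻¹) with hI
    set I' := I.map C.ι.toLinearMap with hI'
    have hIr : Module.finrank ℂ I ≤ 2 * n - 1 := by
      rw [← hN]; exact Submodule.finrank_map_le _ _
    have hJι : ∀ a ∈ I ⊓ I', C.ι a ∈ I ⊓ I' := by
      rintro a ⟨ha, ha'⟩
      refine ⟨?_, ⟨a, ha, rfl⟩⟩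
      obtain ⟨z, hz, rfl⟩ := ha'
      have : C.ι (C.ι z) = z := C.stb_ιι z
      show C.ι (C.ι z) ∈ I
      rw [this]; exact hz
    have hIK : ∀ y ∈ I, y ∈ C.KC := by
      rintro _ ⟨z, hz, rfl⟩
      exact mul_mem (inv_mem hc) (C.stb_N_KC false (mem_secs.1 hz).1)
    have hI'K : ∀ y ∈ I', y ∈ C.KC := by
      rintro _ ⟨z, hz, rfl⟩
      obtain ⟨a, ha, b, hb, h2⟩ := C.stb_KC z (hIK z hz)
      show C.ι z ∈ C.KC
      rw [h2, map_add, map_mul, C.stb_kt_fix C.ι C.ι_t a ha, C.stb_kt_fix C.ι C.ι_t b hb, C.ι_s]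
      exact add_mem (C.stb_kt_le ha) (mul_mem (C.stb_kt_le hb) (neg_mem C.stb_s_mem))
    have hle : h0x C.surf (line (K := ↥C.K) C.E' c) n ≤
        2 * Module.finrank ℂ (I ⊓ I' : Submodule ℂ F) := by
      have hu : c⁻¹ * c + C.ι (c⁻¹ * c) ≠ 0 := by
        rw [inv_mul_cancel₀ hc0, map_one, one_add_one_eq_two]; exact stb_two
      refine (C.stb_dim C.surf.kx _ c c⁻¹ (fun w hw => (C.stb_memHx c n w hw).1) hu
        ((I ⊓ I').map (C.stbPl + (LinearMap.mulLeft ℂ C.p) ∘ₗ C.stbMi) ⊔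
          (I ⊓ I').map ((LinearMap.mulLeft ℂ C.Y) ∘ₗ C.stbPl +
            (LinearMap.mulLeft ℂ C.q) ∘ₗ C.stbMi))
        fun w hw => ?_).trans ?_
      · apply C.stb_plus_x _ hJι
        obtain ⟨⟨κ, hκ⟩, h2⟩ := C.stb_memHx c n w hw
        have h3 : c⁻¹ * w = κ := by rw [hκ, mul_left_comm, inv_mul_cancel₀ hc0, mul_one]
        have h4 : c⁻¹ * w ∈ I * C.kfS := stb_sc_mul' _ _ c⁻¹ w h2
        have h5 : c⁻¹ * w ∈ I' * C.kfS := by
          have h6 : C.ι (c⁻¹ * w) = c⁻¹ * w := by rw [h3]; exact C.stb_ι_K κ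
          rw [← h6]
          clear h6
          generalize c⁻¹ * w = z at h4
          clear h3
          induction h4 using Submodule.mul_induction_on' with
          | mem_mul_mem m hm d hd =>
            rw [map_mul]
            refine Submodule.mul_mem_mul ⟨m, hm, rfl⟩ ?_
            obtain ⟨α, hα, β, hβ, γ, hγ, δ, hδ, rfl⟩ := C.stb_KF d hd
            show C.ι _ ∈ C.KF
            simp only [map_add, map_mul, C.stb_kx_fix C.ι C.ι_x α hα,
              C.stb_kx_fix C.ι C.ι_x β hβ, C.stb_kx_fix C.ι C.ι_x γ hγ,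
              C.stb_kx_fix C.ι C.ι_x δ hδ, C.ι_p, C.ι_q, C.stb_ι_Y]
            have hY : C.Y ∈ C.KF := mul_mem C.stb_p_mem C.stb_q_mem
            exact add_mem (add_mem (add_mem (C.stb_kx_le hα) (mul_mem (C.stb_kx_le hβ) hY))
              (mul_mem (C.stb_kx_le hγ) (neg_mem C.stb_p_mem)))
              (mul_mem (C.stb_kx_le hδ) (neg_mem C.stb_q_mem))
          | add y _ z _ hy hz => rw [map_add]; exact add_mem hy hz
        have h6 : c⁻¹ * w ∈ (I * C.kfS) ⊓ (I' * C.kfS) := ⟨h4, h5⟩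
        rw [C.inf_mul _ _ C.kfS C.kfS hIK hI'K (fun y hy => hy) (fun y hy => hy)] at h6
        exact stb_mul_mono (fun _ h => h) (inf_le_left : C.kfS ⊓ C.kfS ≤ C.kfS) h6
      · refine (Submodule.finrank_add_le_finrank_add_finrank _ _).trans ?_
        rw [two_mul]
        exact add_le_add (Submodule.finrank_map_le _ _) (Submodule.finrank_map_le _ _)
    have h2 : (I ⊓ I' : Submodule ℂ F) = I :=
      Submodule.eq_of_le_of_finrank_le inf_le_left (by omega)
    intro y hy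
    have h3 : c⁻¹ * y ∈ I := ⟨y, hy, rfl⟩
    rw [← h2] at h3
    have h4 := hJι _ h3
    rw [h2] at h4
    obtain ⟨z, hz, h5⟩ := h4
    have h6 : c * (C.ι c)⁻¹ * C.ι y = z := by
      have h7 : c⁻¹ * z = C.ι (c⁻¹ * y) := h5
      rw [map_mul, map_inv₀] at h7
      rw [mul_assoc, ← h7, ← mul_assoc, mul_inv_cancel₀ hc0, one_mul]
    rw [h6]
    exact hz
  exact mul_ne_zero hc0 (inv_ne_zero hιc) key

end Cfg

end

end Pool.Agent.EllMod
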