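import Pool.Agent.MP_77976d_ag.T1Aux

/-! # T1B : base change of the family `T1` -/

open scoped TensorProduct
open IsLocalRing

namespace Pool.Agent.EllMod

noncomputable section

section gen

variable {A A' : Type} [CommRing A] [Algebra ℂ A] [CommRing A'] [Algebra ℂ A']
  {W : Type} [AddCommGroup W] [Module ℂ W]

theorem t1b_base (α : A →ₐ[ℂ] A') (p : Submodule ℂ W) :
    Submodule.span A' ((α.toLinearMap.rTensor W) '' (p.baseChange A : Set (A ⊗[ℂ] W))) =
      p.baseChange A' := by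
  apply le_antisymm
  · rw [Submodule.span_le]
    rintro _ ⟨z, hz, rfl⟩
    refine t1_ind (P := fun z => α.toLinearMap.rTensor W z ∈ (p.baseChange A' : Set _)) ?_ ?_ ?_ hz
    · rw [map_zero]; exact zero_mem _
    · intro a v hv
      rw [LinearMap.rTensor_tmul]
      exact Submodule.tmul_mem_baseChange_of_mem _ hv
    · intro z w h1 h2
      rw [map_add]; exact add_mem h1 h2
  · rw [Submodule.baseChange_eq_span, Submodule.span_le]
    rintro _ ⟨v, hv, rfl⟩
    refine Submodule.subset_span ⟨1 ⊗ₜ v, Submodule.tmul_mem_baseChange_of_mem _ hv, ?_⟩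
    rw [LinearMap.rTensor_tmul]
    simp

theorem t1b_map (α : A →ₐ[ℂ] A') (p : Submodule ℂ W) (U : (A ⊗[ℂ] W) →ₗ[A] (A ⊗[ℂ] W))
    (U' : (A' ⊗[ℂ] W) →ₗ[A'] (A' ⊗[ℂ] W))
    (h : ∀ z, α.toLinearMap.rTensor W (U z) = U' (α.toLinearMap.rTensor W z)) :
    Submodule.span A' ((α.toLinearMap.rTensor W) '' ((p.baseChange A).map U : Set (A ⊗[ℂ] W))) =
      (p.baseChange A').map U' := by
  rw [← t1b_base α p, Submodule.map_span]
  congr 1
  ext z
  constructor
  · rintro ⟨_, ⟨w, hw, rfl⟩, rfl⟩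
    exact ⟨_, ⟨w, hw, rfl⟩, (h w).symm⟩
  · rintro ⟨_, ⟨w, hw, rfl⟩, rfl⟩
    exact ⟨_, ⟨w, hw, rfl⟩, h w⟩

end gen

variable {F : Type} [Field F] [Algebra ℂ F] (C : Cfg F)

namespace Cfg

variable {A A' : Type} [CommRing A] [Algebra ℂ A] [CommRing A'] [Algebra ℂ A']

theorem t1b_Xi (α : A →ₐ[ℂ] A') (ξ : Fin 7 → A) (z : A ⊗[ℂ] F) :
    α.toLinearMap.rTensor F (C.Xi ξ z) =
      C.Xi (fun k => α (ξ k)) (α.toLinearMap.rTensor F z) := by
  induction z using TensorProduct.induction_on with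
  | zero => simp
  | add z w hz hw => rw [map_add, map_add, hz, hw, map_add, map_add]
  | tmul c v => simp [Xi_tmul]

theorem t1b_GG (α : A →ₐ[ℂ] A') (b : A) (z : A ⊗[ℂ] F) :
    α.toLinearMap.rTensor F (C.GG b z) = C.GG (α b) (α.toLinearMap.rTensor F z) := by
  induction z using TensorProduct.induction_on with
  | zero => simp
  | add z w hz hw => rw [map_add, map_add, hz, hw, map_add, map_add]
  | tmul c v => simp [GG_tmul]

theorem t1b_phi (α : A →ₐ[ℂ] A') (P : Pt A) (ξ6 : A) (z : A ⊗[ℂ] ↥(C.B false false)) :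
    C.phi (P.map α) (α ξ6) (α.toLinearMap.rTensor _ z) = α (C.phi P ξ6 z) := by
  induction z using TensorProduct.induction_on with
  | zero => simp
  | add z w hz hw => rw [map_add, map_add, hz, hw, map_add, map_add]
  | tmul c v => simp [phi_tmul, lift_map]

theorem t1b_incl (α : A →ₐ[ℂ] A') (z : A ⊗[ℂ] ↥(C.B false false)) :
    C.incl.baseChange A' (α.toLinearMap.rTensor _ z) =
      α.toLinearMap.rTensor F (C.incl.baseChange A z) := by
  induction z using TensorProduct.induction_on with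
  | zero => simp
  | add z w hz hw => rw [map_add, map_add, hz, hw, map_add, map_add]
  | tmul c v => simp [incl_tmul]

theorem t1b_00 (α : A →ₐ[ℂ] A') (P : Pt A) (ξ6 : A) (hu : IsUnit (1 - ξ6)) :
    Submodule.span A' ((α.toLinearMap.rTensor F) '' (C.T100 P ξ6 : Set (A ⊗[ℂ] F))) =
      C.T100 (P.map α) (α ξ6) := by
  apply le_antisymm
  · rw [Submodule.span_le]
    rintro _ ⟨_, ⟨z, hz, rfl⟩, rfl⟩
    refine ⟨α.toLinearMap.rTensor _ z, ?_, t1b_incl C α z⟩
    have h1 : C.phi P ξ6 z = 0 := hz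
    show C.phi (P.map α) (α ξ6) _ = 0
    rw [t1b_phi, h1, map_zero]
  · rintro _ ⟨z, hz, rfl⟩
    have hz' : C.phi (P.map α) (α ξ6) z = 0 := hz
    obtain ⟨e, he⟩ := hu.exists_left_inv
    have key : ∀ z : A' ⊗[ℂ] ↥(C.B false false),
        C.incl.baseChange A' (z - (C.phi (P.map α) (α ξ6) z * α e) ⊗ₜ 1) ∈
          Submodule.span A' ((α.toLinearMap.rTensor F) '' (C.T100 P ξ6 : Set (A ⊗[ℂ] F))) := by
      intro z
      induction z using TensorProduct.induction_on with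
      | zero => simp
      | add z w hz hw =>
        have e1 : z + w - (C.phi (P.map α) (α ξ6) (z + w) * α e) ⊗ₜ[ℂ] (1 : ↥(C.B false false)) =
          (z - (C.phi (P.map α) (α ξ6) z * α e) ⊗ₜ 1) +
            (w - (C.phi (P.map α) (α ξ6) w * α e) ⊗ₜ 1) := by
          rw [map_add, add_mul, TensorProduct.add_tmul]; abel
        rw [e1, map_add]
        exact add_mem hz hw
      | tmul c v =>
        have hk : (1 ⊗ₜ v - (C.phi P ξ6 (1 ⊗ₜ v) * e) ⊗ₜ 1 : A ⊗[ℂ] ↥(C.B false false)) ∈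
            LinearMap.ker (C.phi P ξ6) := by
          rw [LinearMap.mem_ker, map_sub]
          have e2 : ((C.phi P ξ6 (1 ⊗ₜ v) * e) ⊗ₜ 1 : A ⊗[ℂ] ↥(C.B false false)) =
            (C.phi P ξ6 (1 ⊗ₜ v) * e) • (1 ⊗ₜ 1) := by
            rw [TensorProduct.smul_tmul', smul_eq_mul, mul_one]
          rw [e2, map_smul, phi_one, smul_eq_mul, mul_assoc, he, mul_one, sub_self]
        have hm : α.toLinearMap.rTensor F (C.incl.baseChange A
            (1 ⊗ₜ v - (C.phi P ξ6 (1 ⊗ₜ v) * e) ⊗ₜ 1)) ∈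
            (α.toLinearMap.rTensor F) '' (C.T100 P ξ6 : Set (A ⊗[ℂ] F)) :=
          ⟨_, ⟨_, hk, rfl⟩, rfl⟩
        have hs := Submodule.smul_mem _ c (Submodule.subset_span (R := A') hm)
        convert hs using 1
        rw [← t1b_incl, ← map_smul]
        congr 1
        have e3 : C.phi (P.map α) (α ξ6) (c ⊗ₜ v) = c * α (C.phi P ξ6 (1 ⊗ₜ v)) := by
          rw [← t1b_phi, LinearMap.rTensor_tmul]
          simp [phi_tmul]
        rw [e3, map_sub, smul_sub, LinearMap.rTensor_tmul, LinearMap.rTensor_tmul,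
          TensorProduct.smul_tmul', TensorProduct.smul_tmul']
        simp [mul_assoc]
    have := key z
    rw [hz', zero_mul, TensorProduct.zero_tmul, sub_zero] at this
    exact this

theorem T1_push (A A' : Type) [CommRing A] [Algebra ℂ A] [Module.Finite ℂ A] [IsLocalRing A]
    [CommRing A'] [Algebra ℂ A'] [Module.Finite ℂ A'] [IsLocalRing A'] (α : A →ₐ[ℂ] A')
    (ξ : Fin 7 → A) (h : ∀ k, ξ k ∈ maximalIdeal A) (h' : ∀ k, α (ξ k) ∈ maximalIdeal A') :
    push α (C.T1 ξ h) = C.T1 (fun k => α (ξ k)) h' := by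
  funext a b
  have hu : IsUnit (1 - ξ 6) := by
    by_contra hc
    have h1 : 1 - ξ 6 ∈ maximalIdeal A := (mem_maximalIdeal _).2 hc
    have h2 : (1 : A) ∈ maximalIdeal A := by
      have := add_mem h1 (h 6)
      rwa [sub_add_cancel] at this
    exact (Ideal.ne_top_iff_one _).1 (maximalIdeal.isMaximal A).ne_top h2
  cases a <;> cases b
  · show Submodule.span A' ((α.toLinearMap.rTensor F) ''
      (C.T100 (ptA (ξ 4) (ξ 5) (h 4) (h 5)) (ξ 6) : Set (A ⊗[ℂ] F))) =
      C.T100 (ptA (α (ξ 4)) (α (ξ 5)) (h' 4) (h' 5)) (α (ξ 6))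
    rw [t1b_00 C α _ _ hu, ptA_map α _ _ (h 4) (h 5) (h' 4) (h' 5)]
  · refine t1b_map α _ _ _ fun z => ?_
    rw [Uop_ft, Uop_ft]
    exact t1b_GG C α (ξ 3) z
  · refine t1b_map α _ _ _ fun z => ?_
    rw [Uop_tf, Uop_tf, LinearMap.add_apply, LinearMap.id_apply, map_add, t1b_Xi]
    rfl
  · refine t1b_map α _ _ _ fun z => ?_
    rw [Uop_tt, Uop_tt, LinearMap.comp_apply, LinearMap.comp_apply, t1b_GG, LinearMap.add_apply,
      LinearMap.id_apply, map_add, t1b_Xi]
    rfl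

end Cfg

end

end Pool.Agent.EllMod
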