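import Pool.Agent.MP_77976d_ag.T1Aux
import Pool.Agent.MP_77976d_ag.Base3

/-! # T1C : the family `T1` to first order -/

open scoped TensorProduct
open IsLocalRing

namespace Pool.Agent.EllMod

noncomputable section

section gen

variable {W : Type} [AddCommGroup W] [Module ℂ W] {n : ℕ}

theorem t1c_decomp (z : D n ⊗[ℂ] W) :
    z = (1 : D n) ⊗ₜ cf (Dfst n) z + ∑ i, (eps i : D n) ⊗ₜ cf (Dsnd n i) z := by
  induction z using TensorProduct.induction_on with
  | zero => simp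
  | add z w hz hw =>
    conv_lhs => rw [hz, hw]
    simp only [map_add, TensorProduct.tmul_add, Finset.sum_add_distrib]
    abel
  | tmul a w =>
    have e : a = a.fst • (1 : D n) + ∑ i, a.snd i • (eps i : D n) := by
      have hf : (∑ i, a.snd i • (eps i : D n)).fst = 0 := by
        have : (∑ i, a.snd i • (eps i : D n)).fst = Dfst n (∑ i, a.snd i • (eps i : D n)) := rfl
        rw [this, map_sum]
        simp
      ext j
      · rw [D.fst_add, hf]; simp
      · have : (∑ i, a.snd i • (eps i : D n)).snd j =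
          Dsnd n j (∑ i, a.snd i • (eps i : D n)) := rfl
        rw [D.snd_add, Pi.add_apply, this, map_sum]
        simp [Pi.single_apply]
    simp only [cf_tmul, Dfst_apply, Dsnd_apply]
    conv_lhs => rw [e]
    rw [TensorProduct.add_tmul, TensorProduct.sum_tmul]
    simp only [TensorProduct.tmul_smul, TensorProduct.smul_tmul']

theorem t1c_ext {z w : D n ⊗[ℂ] W} (h0 : cf (Dfst n) z = cf (Dfst n) w)
    (h1 : ∀ i, cf (Dsnd n i) z = cf (Dsnd n i) w) : z = w := by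
  rw [t1c_decomp z, t1c_decomp w, h0]
  simp only [h1]

theorem t1c_mem (p : Submodule ℂ W) (z : D n ⊗[ℂ] W) :
    z ∈ p.baseChange (D n) ↔ cf (Dfst n) z ∈ p ∧ ∀ i, cf (Dsnd n i) z ∈ p := by
  constructor
  · intro hz
    refine t1_ind (P := fun z => cf (Dfst n) z ∈ p ∧ ∀ i, cf (Dsnd n i) z ∈ p) ?_ ?_ ?_ hz
    · simp
    · intro a v hv
      simp only [cf_tmul]
      exact ⟨Submodule.smul_mem _ _ hv, fun i => Submodule.smul_mem _ _ hv⟩
    · intro z w h1 h2
      simp only [map_add]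
      exact ⟨add_mem h1.1 h2.1, fun i => add_mem (h1.2 i) (h2.2 i)⟩
  · rintro ⟨h0, h1⟩
    rw [t1c_decomp z]
    exact add_mem (Submodule.tmul_mem_baseChange_of_mem _ h0)
      (sum_mem fun i _ => Submodule.tmul_mem_baseChange_of_mem _ (h1 i))

theorem t1c_fst_eps (i : Fin n) (w : W) : cf (Dfst n) ((eps i : D n) ⊗ₜ[ℂ] w) = 0 := by
  simp

theorem t1c_fo (U : (D n ⊗[ℂ] W) →ₗ[D n] (D n ⊗[ℂ] W)) (θ : Fin n → (W →ₗ[ℂ] W))
    (h0 : ∀ z, cf (Dfst n) (U z) = cf (Dfst n) z)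
    (h1 : ∀ i z, cf (Dsnd n i) (U z) = cf (Dsnd n i) z + θ i (cf (Dfst n) z))
    (p : Submodule ℂ W) (z : D n ⊗[ℂ] W) : z ∈ (p.baseChange (D n)).map U ↔
      cf (Dfst n) z ∈ p ∧ ∀ i, cf (Dsnd n i) z - θ i (cf (Dfst n) z) ∈ p := by
  constructor
  · rintro ⟨w, hw, rfl⟩
    obtain ⟨g0, g1⟩ := (t1c_mem p w).1 hw
    refine ⟨by rw [h0]; exact g0, fun i => ?_⟩
    rw [h1, h0, add_sub_cancel_right]
    exact g1 i
  · rintro ⟨g0, g1⟩
    set w : D n ⊗[ℂ] W := z - ∑ i, (eps i : D n) ⊗ₜ θ i (cf (Dfst n) z) with hw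
    have e0 : cf (Dfst n) w = cf (Dfst n) z := by
      rw [hw, map_sub, map_sum]; simp
    have e1 : ∀ i, cf (Dsnd n i) w = cf (Dsnd n i) z - θ i (cf (Dfst n) z) := by
      intro i
      rw [hw, map_sub, map_sum]
      simp [Pi.single_apply, Finset.sum_ite_eq]
    refine ⟨w, (t1c_mem p w).2 ⟨by rw [e0]; exact g0, fun i => by rw [e1]; exact g1 i⟩, ?_⟩
    apply t1c_ext
    · rw [h0, e0]
    · intro i
      rw [h1, e0, e1]; abel

/-- The point of `D n` as a homomorphism. -/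
def t1c_pi (n : ℕ) : D n →ₐ[ℂ] ℂ where
  toFun a := a.fst
  map_one' := rfl
  map_mul' a b := by simp
  map_zero' := rfl
  map_add' a b := by simp
  commutes' r := by simp

/-- Projection to the `i`-th coefficient. -/
def t1c_pr (n : ℕ) (i : Fin n) : (Fin n → ℂ) →ₗ[ℂ] (Fin 1 → ℂ) where
  toFun m := fun _ => m i
  map_add' _ _ := rfl
  map_smul' _ _ := rfl

end gen

variable {F : Type} [Field F] [Algebra ℂ F] (C : Cfg F)

namespace Cfg

theorem t1c_Xi0 (z : D 7 ⊗[ℂ] F) : cf (Dfst 7) (C.Xi eps z) = 0 := by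
  induction z using TensorProduct.induction_on with
  | zero => simp
  | add z w hz hw => rw [map_add, map_add, hz, hw, add_zero]
  | tmul c v => simp [Xi_tmul]

theorem t1c_Xi1 (i : Fin 7) (z : D 7 ⊗[ℂ] F) : cf (Dsnd 7 i) (C.Xi eps z) =
    C.th i.castSucc true false (cf (Dfst 7) z) := by
  induction z using TensorProduct.induction_on with
  | zero => simp
  | add z w hz hw => rw [map_add, map_add, hz, hw, map_add, map_add]
  | tmul c v =>
    rw [Xi_tmul]
    fin_cases i <;> simp [th]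

theorem t1c_GG0 (z : D 7 ⊗[ℂ] F) : cf (Dfst 7) (C.GG (eps 3) z) = cf (Dfst 7) z := by
  induction z using TensorProduct.induction_on with
  | zero => simp
  | add z w hz hw => rw [map_add, map_add, hz, hw, map_add]
  | tmul c v => simp [GG_tmul]

theorem t1c_GG1 (i : Fin 7) (z : D 7 ⊗[ℂ] F) : cf (Dsnd 7 i) (C.GG (eps 3) z) =
    cf (Dsnd 7 i) z + C.th i.castSucc false true (cf (Dfst 7) z) := by
  induction z using TensorProduct.induction_on with
  | zero => simp
  | add z w hz hw => rw [map_add, map_add, hz, hw, map_add, map_add, map_add]; abel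
  | tmul c v =>
    rw [GG_tmul]
    fin_cases i <;> simp [th]

theorem t1c_th (i : Fin 7) (v : F) : C.th i.castSucc true true v =
    C.th i.castSucc true false v + C.th i.castSucc false true v := by
  fin_cases i <;> simp [th]

/-- The reduction of `y_A`. -/
theorem t1c_lift_fst (h4 : (eps 4 : D 7) ∈ maximalIdeal (D 7))
    (h5 : (eps 5 : D 7) ∈ maximalIdeal (D 7)) (v : ↥(C.B false false)) :
    (C.lift (ptA (eps 4 : D 7) (eps 5) h4 h5) v).fst = C.ev y0 (v : F) := by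
  rw [C.ev_eq y0 v v.2, ← ptA_map_C (t1c_pi 7) (eps 4 : D 7) (eps 5) h4 h5, lift_map]
  rfl

theorem t1c_pt (α β : ℂ) (i : Fin 7) (h4 : (eps 4 : D 7) ∈ maximalIdeal (D 7))
    (h5 : (eps 5 : D 7) ∈ maximalIdeal (D 7)) (hα : (Pi.single 4 1 : Fin 7 → ℂ) i = α)
    (hβ : (Pi.single 5 1 : Fin 7 → ℂ) i = β) :
    (ptA (eps 4 : D 7) (eps 5) h4 h5).map (Dmap (t1c_pr 7 i)) = ptE α β := by
  obtain ⟨g1, g2, g3, g4, g5⟩ := ptA_spec (eps 4 : D 7) (eps 5) h4 h5
  have k3 := t1_max (Dmap (t1c_pr 7 i)) g3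
  have k4 := t1_max (Dmap (t1c_pr 7 i)) g4
  have k5 := t1_max (Dmap (t1c_pr 7 i)) g5
  rw [map_sub, map_one] at k3 k4
  rw [map_sub, AlgHom.commutes] at k5
  refine ptA_unique _ _ ?_ ?_ k3 k4 ?_ k3 k4 k5
  · show Dmap (t1c_pr 7 i) (ptA (eps 4 : D 7) (eps 5) h4 h5).τ = D.mk 0 (fun _ => α)
    rw [g1]
    ext j
    · simp
    · simp [t1c_pr, hα]
  · show Dmap (t1c_pr 7 i) (ptA (eps 4 : D 7) (eps 5) h4 h5).χ = D.mk 0 (fun _ => β)
    rw [g2]
    ext j
    · simp
    · simp [t1c_pr, hβ]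
  · exact k5

theorem t1c_lift_snd (α β : ℂ) (i : Fin 7) (h4 : (eps 4 : D 7) ∈ maximalIdeal (D 7))
    (h5 : (eps 5 : D 7) ∈ maximalIdeal (D 7)) (hα : (Pi.single 4 1 : Fin 7 → ℂ) i = α)
    (hβ : (Pi.single 5 1 : Fin 7 → ℂ) i = β) (v : ↥(C.B false false)) :
    (C.lift (ptA (eps 4 : D 7) (eps 5) h4 h5) v).snd i = C.der α β (v : F) := by
  rw [C.der_eq α β v v.2, ← t1c_pt α β i h4 h5 hα hβ, lift_map]
  rfl

theorem t1c_ptE0 : ptE 0 0 = (pt y0).map (Algebra.ofId ℂ (D 1)) := by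
  have e1 : (ptE 0 0).τ = ((pt y0).map (Algebra.ofId ℂ (D 1))).τ := by
    show D.mk 0 (fun _ => 0) = Algebra.ofId ℂ (D 1) 0
    rw [map_zero]; rfl
  have e2 : (ptE 0 0).χ = ((pt y0).map (Algebra.ofId ℂ (D 1))).χ := by
    show D.mk 0 (fun _ => 0) = Algebra.ofId ℂ (D 1) 0
    rw [map_zero]; rfl
  have e3 : (ptE 0 0).σ = ((pt y0).map (Algebra.ofId ℂ (D 1))).σ := by
    show (1 : D 1) = Algebra.ofId ℂ (D 1) (sg true)
    simp [sg]
  have e4 : (ptE 0 0).π = ((pt y0).map (Algebra.ofId ℂ (D 1))).π := by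
    show (1 : D 1) = Algebra.ofId ℂ (D 1) (sg true)
    simp [sg]
  have e5 : (ptE 0 0).ρ = ((pt y0).map (Algebra.ofId ℂ (D 1))).ρ := by
    show (D.mk Complex.I 0 : D 1) = Algebra.ofId ℂ (D 1) (sg true * Complex.I)
    rw [Algebra.ofId_apply]
    ext j <;> simp [sg]
  generalize ptE 0 0 = P at *
  generalize (pt y0).map (Algebra.ofId ℂ (D 1)) = P' at *
  cases P
  cases P'
  simp only at e1 e2 e3 e4 e5
  subst e1 e2 e3 e4 e5
  rfl

theorem t1c_der0 (v : F) (hv : v ∈ C.B false false) : C.der 0 0 v = 0 := by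
  rw [C.der_eq 0 0 v hv, t1c_ptE0, lift_map]
  show (algebraMap ℂ (D 1) _).snd 0 = 0
  simp

theorem t1c_cf_incl {A : Type} [CommRing A] [Algebra ℂ A] (φ : A →ₗ[ℂ] ℂ)
    (z : A ⊗[ℂ] ↥(C.B false false)) :
    cf φ (C.incl.baseChange A z) = ((cf φ z : ↥(C.B false false)) : F) := by
  induction z using TensorProduct.induction_on with
  | zero => simp
  | add z w hz hw => rw [map_add, map_add, hz, hw, map_add]; rfl
  | tmul c v => rw [incl_tmul, cf_tmul, cf_tmul]; rfl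

theorem t1c_phi0 (h4 : (eps 4 : D 7) ∈ maximalIdeal (D 7))
    (h5 : (eps 5 : D 7) ∈ maximalIdeal (D 7)) (z : D 7 ⊗[ℂ] ↥(C.B false false)) :
    (C.phi (ptA (eps 4 : D 7) (eps 5) h4 h5) (eps 6) z).fst =
      C.ev y0 ((cf (Dfst 7) z : ↥(C.B false false)) : F) := by
  induction z using TensorProduct.induction_on with
  | zero => simp
  | add z w hz hw =>
    rw [map_add, D.fst_add, hz, hw, map_add]
    simp
  | tmul c v =>
    rw [phi_tmul]
    simp [t1c_lift_fst]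

theorem t1c_phi1 (h4 : (eps 4 : D 7) ∈ maximalIdeal (D 7))
    (h5 : (eps 5 : D 7) ∈ maximalIdeal (D 7)) (i : Fin 7) (z : D 7 ⊗[ℂ] ↥(C.B false false)) :
    (C.phi (ptA (eps 4 : D 7) (eps 5) h4 h5) (eps 6) z).snd i =
      C.ev y0 ((cf (Dsnd 7 i) z : ↥(C.B false false)) : F) +
      C.der ((Pi.single 4 1 : Fin 7 → ℂ) i) ((Pi.single 5 1 : Fin 7 → ℂ) i)
        ((cf (Dfst 7) z : ↥(C.B false false)) : F) -
      (Pi.single 6 1 : Fin 7 → ℂ) i * C.ev y0' ((cf (Dfst 7) z : ↥(C.B false false)) : F) := by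
  induction z using TensorProduct.induction_on with
  | zero => simp
  | add z w hz hw =>
    rw [map_add, D.snd_add, Pi.add_apply, hz, hw, map_add, map_add]
    simp only [AddMemClass.coe_add, map_add]
    ring
  | tmul c v =>
    have hι : C.ev y0 ((C.ιB v : ↥(C.B false false)) : F) = C.ev y0' (v : F) :=
      C.ev_ι y0 v v.2
    rw [phi_tmul]
    simp only [D.snd_mul, D.snd_sub, D.fst_sub, D.fst_mul, eps_fst, eps_snd, Pi.add_apply,
      Pi.smul_apply, Pi.sub_apply, smul_eq_mul, cf_tmul, Dfst_apply, Dsnd_apply,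
      t1c_lift_fst, t1c_lift_snd C _ _ i h4 h5 rfl rfl, hι, SetLike.val_smul, map_smul]
    ring

theorem t1c_one : (1 : F) ∈ C.B false false := one_mem _

theorem t1c_ev_one : C.ev y0 (1 : F) = 1 := by
  rw [C.ev_eq y0 1 (t1c_one C)]
  exact map_one (C.lift (pt y0))

theorem t1c_E00 (y : F) (c : ℂ) (hy : y - c • (1 : F) ∈ C.E00) :
    y ∈ C.B false false ∧ C.ev y0 y = c := by
  obtain ⟨h1, h2⟩ := Submodule.mem_inf.1 hy
  have h3 : y - c • (1 : F) ∈ C.B false false := h1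
  have h4 : c • (1 : F) ∈ C.B false false := Subalgebra.smul_mem _ (t1c_one C) c
  refine ⟨?_, ?_⟩
  · have := add_mem h3 h4
    rwa [sub_add_cancel] at this
  · have h5 := LinearMap.mem_ker.1 h2
    rw [map_sub, map_smul, t1c_ev_one, smul_eq_mul, mul_one, sub_eq_zero] at h5
    exact h5

theorem t1c_E00' (y : F) (c : ℂ) (hy : y ∈ C.B false false) (h : C.ev y0 y = c) :
    y - c • (1 : F) ∈ C.E00 := by
  refine Submodule.mem_inf.2 ⟨?_, ?_⟩
  · exact sub_mem (show y ∈ C.B false false from hy) (Subalgebra.smul_mem _ (t1c_one C) c)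
  · rw [LinearMap.mem_ker, map_sub, map_smul, t1c_ev_one, h]; simp

/-- `th i` on the chart `(0, 0)`. -/
theorem t1c_th00 (i : Fin 7) (v : F) (hv : v ∈ C.B false false) :
    C.th i.castSucc false false v =
      ((Pi.single 6 1 : Fin 7 → ℂ) i * C.ev y0' v -
        C.der ((Pi.single 4 1 : Fin 7 → ℂ) i) ((Pi.single 5 1 : Fin 7 → ℂ) i) v) • (1 : F) := by
  have h0 := t1c_der0 C v hv
  fin_cases i <;> simp [th, h0]

theorem T1_first (h : ∀ k, (eps k : D 7) ∈ maximalIdeal (D 7)) :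
    C.T1 eps h = foFam C.E (fun k : Fin 7 => C.th k.castSucc) := by
  funext a b
  cases a <;> cases b
  · ext z
    show z ∈ C.T100 (ptA (eps 4 : D 7) (eps 5) (h 4) (h 5)) (eps 6) ↔
      cf (Dfst 7) z ∈ C.E00 ∧ ∀ i : Fin 7, cf (Dsnd 7 i) z -
        C.th i.castSucc false false (cf (Dfst 7) z) ∈ C.E00
    constructor
    · rintro ⟨w, hw, rfl⟩
      have hw' : C.phi (ptA (eps 4 : D 7) (eps 5) (h 4) (h 5)) (eps 6) w = 0 := hw
      have k0 := t1c_phi0 C (h 4) (h 5) w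
      rw [hw', D.fst_zero] at k0
      refine ⟨?_, fun i => ?_⟩
      · rw [t1c_cf_incl]
        exact Submodule.mem_inf.2 ⟨(cf (Dfst 7) w : ↥(C.B false false)).2,
          LinearMap.mem_ker.2 k0.symm⟩
      · have k1 := t1c_phi1 C (h 4) (h 5) i w
        rw [hw', D.snd_zero, Pi.zero_apply] at k1
        rw [t1c_cf_incl, t1c_cf_incl, t1c_th00 C i _ (cf (Dfst 7) w : ↥(C.B false false)).2]
        exact t1c_E00' C _ _ (cf (Dsnd 7 i) w : ↥(C.B false false)).2 (by linear_combination -k1)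
    · rintro ⟨g0, g1⟩
      have b0 : cf (Dfst 7) z ∈ C.B false false := (Submodule.mem_inf.1 g0).1
      have e0 : C.ev y0 (cf (Dfst 7) z) = 0 := LinearMap.mem_ker.1 (Submodule.mem_inf.1 g0).2
      have g1' : ∀ i : Fin 7, cf (Dsnd 7 i) z ∈ C.B false false ∧ C.ev y0 (cf (Dsnd 7 i) z) =
          (Pi.single 6 1 : Fin 7 → ℂ) i * C.ev y0' (cf (Dfst 7) z) -
        C.der ((Pi.single 4 1 : Fin 7 → ℂ) i) ((Pi.single 5 1 : Fin 7 → ℂ) i)
          (cf (Dfst 7) z) := fun i => by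
        have := g1 i
        rw [t1c_th00 C i _ b0] at this
        exact t1c_E00 C _ _ this
      set w : D 7 ⊗[ℂ] ↥(C.B false false) := (1 : D 7) ⊗ₜ ⟨cf (Dfst 7) z, b0⟩ +
        ∑ i, (eps i : D 7) ⊗ₜ ⟨cf (Dsnd 7 i) z, (g1' i).1⟩ with hw
      have w0 : (cf (Dfst 7) w : ↥(C.B false false)) = ⟨cf (Dfst 7) z, b0⟩ := by
        rw [hw, map_add, map_sum]; simp
      have w1 : ∀ i, (cf (Dsnd 7 i) w : ↥(C.B false false)) =
          ⟨cf (Dsnd 7 i) z, (g1' i).1⟩ := by
        intro i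
        rw [hw, map_add, map_sum]
        simp [Pi.single_apply, Finset.sum_ite_eq]
      refine ⟨w, ?_, ?_⟩
      · show C.phi (ptA (eps 4 : D 7) (eps 5) (h 4) (h 5)) (eps 6) w = 0
        ext i
        · rw [t1c_phi0, w0, D.fst_zero]; exact e0
        · rw [t1c_phi1, w0, w1, D.snd_zero, Pi.zero_apply]
          linear_combination (g1' i).2
      · apply t1c_ext
        · rw [t1c_cf_incl, w0]
        · intro i
          rw [t1c_cf_incl, w1]
  · ext z
    refine t1c_fo (C.Uop eps false true) (fun i => C.th i.castSucc false true) ?_ ?_ _ z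
    · intro z
      rw [Uop_ft]; exact t1c_GG0 C z
    · intro i z
      rw [Uop_ft]; exact t1c_GG1 C i z
  · ext z
    refine t1c_fo (C.Uop eps true false) (fun i => C.th i.castSucc true false) ?_ ?_ _ z
    · intro z
      rw [Uop_tf, LinearMap.add_apply, map_add, t1c_Xi0, add_zero, LinearMap.id_apply]
    · intro i z
      rw [Uop_tf, LinearMap.add_apply, map_add, t1c_Xi1, LinearMap.id_apply]
  · ext z
    refine t1c_fo (C.Uop eps true true) (fun i => C.th i.castSucc true true) ?_ ?_ _ z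
    · intro z
      rw [Uop_tt, LinearMap.comp_apply, t1c_GG0, LinearMap.add_apply, map_add, t1c_Xi0, add_zero,
        LinearMap.id_apply]
    · intro i z
      rw [Uop_tt, LinearMap.comp_apply, t1c_GG1, LinearMap.add_apply, map_add, map_add, t1c_Xi0,
        add_zero, LinearMap.id_apply, t1c_Xi1]
      show _ = _ + C.th i.castSucc true true _
      rw [t1c_th, add_assoc]

end Cfg

end

end Pool.Agent.EllMod
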