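import Pool.Agent.MP_77976d_ag.F1
import Pool.Agent.MP_77976d_ag.F2
import Pool.Agent.MP_77976d_ag.F3
import Pool.Agent.MP_77976d_ag.Al
import Pool.Agent.MP_77976d_ag.T1a
import Pool.Agent.MP_77976d_ag.T1b
import Pool.Agent.MP_77976d_ag.T1c
import Pool.Agent.MP_77976d_ag.Stb

/-! # FIN : the completed local ring is not a domain; stability -/

open scoped TensorProduct
open IsLocalRing

namespace Pool.Agent.EllMod

noncomputable section

variable {F : Type} [Field F] [Algebra ℂ F] (C : Cfg F)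

/-- `op u u'` as a `K`-linear map. -/
def Cfg.opK (u u' : F) : F →ₗ[↥C.K] F where
  toFun v := C.op u u' v
  map_add' v w := map_add _ _ _
  map_smul' r v := by
    have hr : C.ι (r : F) = r := r.2
    simp only [Cfg.op_apply, RingHom.id_apply]
    have : r • v = (r : F) * v := rfl
    rw [this, map_mul, hr]
    show u * (r * v) + u' * (r * C.ι v) = (r : F) * (u * v + u' * C.ι v)
    ring

theorem foFam_congr {K : Type} [Field K] [Algebra ℂ K] {W : Type} [AddCommGroup W] [Module ℂ W]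
    {n : ℕ} (E : Lat W) {θ θ' : Fin n → Bool → Bool → (W →ₗ[ℂ] W)} (h : θ = θ') :
    foFam E θ = foFam E θ' := by rw [h]

theorem not_domain' (R : Type) [CommRing R] [IsLocalRing R] [IsNoetherianRing R] [Algebra ℂ R]
    (P : ProRep C.surf C.E R) : ¬ IsDomain (AdicCompletion (maximalIdeal R) R) := by
  intro hdom
  obtain ⟨T, hfam, hpush, hD7⟩ : ∃ T : ∀ (A : Type) [CommRing A] [Algebra ℂ A] [Module.Finite ℂ A]
      [IsLocalRing A] (ξ : Fin 7 → A), (∀ k, ξ k ∈ maximalIdeal A) → RawFam A F,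
    (∀ (A : Type) [CommRing A] [Algebra ℂ A] [Module.Finite ℂ A] [IsLocalRing A]
      (ξ : Fin 7 → A) (h : ∀ k, ξ k ∈ maximalIdeal A), IsFam C.surf C.E (T A ξ h)) ∧
    (∀ (A A' : Type) [CommRing A] [Algebra ℂ A] [Module.Finite ℂ A] [IsLocalRing A]
      [CommRing A'] [Algebra ℂ A'] [Module.Finite ℂ A'] [IsLocalRing A'] (α : A →ₐ[ℂ] A')
      (ξ : Fin 7 → A) (h : ∀ k, ξ k ∈ maximalIdeal A) (h' : ∀ k, α (ξ k) ∈ maximalIdeal A'),
      push α (T A ξ h) = T A' (fun k => α (ξ k)) h') ∧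
    ∀ h, T (D 7) eps h = foFam C.E (fun k : Fin 7 => C.th k.castSucc) :=
    ⟨fun A _ _ _ _ ξ h => C.T1 ξ h, fun A _ _ _ _ ξ h => C.T1_isFam A ξ h,
      fun A A' _ _ _ _ _ _ _ _ α ξ h h' => C.T1_push A A' α ξ h h', fun h => C.T1_first h⟩
  have hLu : IsFam C.surf C.E (foFam C.E (fun k : Fin 8 => C.th k)) :=
    foFam_isFam C.E_coh _ (fun k => C.th_fo k)
  obtain ⟨U, hU⟩ := P.surj (D 8) _ hLu
  have key : ∀ {m : ℕ} (ψ : (Fin 8 → ℂ) →ₗ[ℂ] (Fin m → ℂ)),
      FamIso ↥C.K (P.fam (D m) ((Dmap ψ).comp U))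
        (foFam C.E (fun l a b => ∑ k, ψ (Pi.single k 1) l • C.th k a b)) := by
    intro m ψ
    have h1 := P.nat (D 8) (D m) (Dmap ψ) U
    have h2 := famIso_push (Dmap ψ) hU
    rw [push_foFam] at h2
    exact famIso_trans (famIso_symm h1) h2
  have hU1 : ∀ χ : R →ₐ[ℂ] D 1, ∃ ψ : (Fin 8 → ℂ) →ₗ[ℂ] (Fin 1 → ℂ), χ = (Dmap ψ).comp U := by
    intro χ
    obtain ⟨θ, hθ, hL⟩ := exists_fo C.E_coh _ (P.isFam (D 1) χ)
    obtain ⟨ψ', u, u', h⟩ := C.F2 (θ 0) (hθ 0)
    refine ⟨LinearMap.pi (fun _ => ∑ k, ψ' k • LinearMap.proj k), ?_⟩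
    apply P.inj (D 1)
    refine famIso_trans ?_ (famIso_symm (key _))
    rw [hL]
    rw [foFam_iso C.E_coh]
    refine ⟨fun _ => -C.opK u u', fun k a b v hv => ?_⟩
    have hk : k = 0 := Subsingleton.elim _ _
    subst hk
    have := neg_mem (h a b v hv)
    convert this using 1
    simp [Cfg.thc, Cfg.opK, Pi.single_apply]
    ring
  have hU2 : ∀ ψ : (Fin 8 → ℂ) →ₗ[ℂ] (Fin 1 → ℂ),
      (Dmap ψ).comp U = (Dmap 0).comp U → ψ = 0 := by
    intro ψ hψ
    have h1 := key ψ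
    have h2 := key (0 : (Fin 8 → ℂ) →ₗ[ℂ] (Fin 1 → ℂ))
    rw [hψ] at h1
    have h3 := famIso_trans (famIso_symm h2) h1
    rw [foFam_iso C.E_coh] at h3
    obtain ⟨Θ, hΘ⟩ := h3
    obtain ⟨u, u', hu⟩ := C.exists_op (Θ 0)
    have := C.F1 (fun k => ψ (Pi.single k 1) 0) u u' (fun a b v hv => by
      have := hΘ 0 a b v hv
      rw [hu] at this
      convert this using 1
      simp [Cfg.thc])
    refine LinearMap.pi_ext' (fun k => ?_)
    ext l
    have hl : l = 0 := Subsingleton.elim _ _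
    subst hl
    simpa using congrFun this k
  have hspec : ∀ (A : Type) [CommRing A] [Algebra ℂ A] [Module.Finite ℂ A] [IsLocalRing A]
      (ξ : Fin 7 → A) (h : ∀ k, ξ k ∈ maximalIdeal A),
      ∃ f : R →ₐ[ℂ] A, FamIso ↥C.K (P.fam A f) (T A ξ h) :=
    fun A _ _ _ _ ξ h => P.surj A _ (hfam A ξ h)
  choose f hf using hspec
  have hnat : ∀ (A A' : Type) [CommRing A] [Algebra ℂ A] [Module.Finite ℂ A] [IsLocalRing A]
      [CommRing A'] [Algebra ℂ A'] [Module.Finite ℂ A'] [IsLocalRing A'] (α : A →ₐ[ℂ] A')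
      (ξ : Fin 7 → A) (h : ∀ k, ξ k ∈ maximalIdeal A) (h' : ∀ k, α (ξ k) ∈ maximalIdeal A'),
      α.comp (f A ξ h) = f A' (fun k => α (ξ k)) h' := by
    intro A A' _ _ _ _ _ _ _ _ α ξ h h'
    apply P.inj A'
    refine famIso_trans (famIso_symm (P.nat A A' α (f A ξ h))) ?_
    refine famIso_trans (famIso_push α (hf A ξ h)) ?_
    rw [hpush A A' α ξ h h']
    exact famIso_symm (hf A' _ h')
  have hf7 : ∀ h, f (D 7) eps h =
      (Dmap (LinearMap.funLeft ℂ ℂ (Fin.castSucc : Fin 7 → Fin 8))).comp U := by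
    intro h
    apply P.inj (D 7)
    refine famIso_trans (hf (D 7) eps h) ?_
    refine famIso_trans ?_ (famIso_symm (key _))
    rw [hD7]
    have : (fun k : Fin 7 => C.th k.castSucc) = (fun l a b => ∑ k,
        (LinearMap.funLeft ℂ ℂ (Fin.castSucc : Fin 7 → Fin 8)) (Pi.single k 1) l • C.th k a b) := by
      funext l a b
      simp [LinearMap.funLeft_apply, Pi.single_apply]
    rw [this]
    exact famIso_refl _
  obtain ⟨χ, h1, h2⟩ := AL R hdom U hU1 hU2 f hnat hf7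
  have heps : ∀ k, (eps k : D 7) ∈ maximalIdeal (D 7) := by
    intro k
    rw [mem_max_D]; simp
  let ψ6 : (Fin 7 → ℂ) →ₗ[ℂ] (Fin 1 → ℂ) := LinearMap.funLeft ℂ ℂ (fun _ : Fin 1 => (6 : Fin 7))
  have hψ6 : ∀ k, (Dmap ψ6) (eps k) = if k = 6 then eps 0 else 0 := by
    intro k
    ext l
    · split_ifs <;> simp
    · have hl : l = 0 := Subsingleton.elim _ _
      subst hl
      by_cases hk : k = 6
      · subst hk; simp [ψ6, LinearMap.funLeft_apply]
      · simp [ψ6, LinearMap.funLeft_apply, hk, Pi.single_apply, Ne.symm hk]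
  have h' : ∀ k : Fin 7, (if k = 6 then eps 0 else 0 : D 1) ∈ maximalIdeal (D 1) := by
    intro k
    split_ifs
    · rw [mem_max_D]; simp
    · exact zero_mem _
  have hF : IsFam C.surf C.E (P.fam A2 χ) := P.isFam A2 χ
  refine C.F3 (P.fam A2 χ) hF ?_ ?_
  · refine famIso_trans (P.nat A2 (D 1) rho1 χ) ?_
    rw [h1 h']
    refine famIso_trans (hf (D 1) _ h') ?_
    have h'' : ∀ k, (Dmap ψ6) (eps k) ∈ maximalIdeal (D 1) := fun k => by rw [hψ6]; exact h' k
    have := hpush (D 7) (D 1) (Dmap ψ6) eps heps h''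
    rw [hD7, push_foFam] at this
    have hT : ∀ (ξ ξ' : Fin 7 → D 1) (_ : ξ = ξ') (h : ∀ k, ξ k ∈ maximalIdeal (D 1))
        (h' : ∀ k, ξ' k ∈ maximalIdeal (D 1)), T (D 1) ξ h = T (D 1) ξ' h' := by
      rintro ξ _ rfl _ _; rfl
    rw [hT _ _ (funext hψ6) h'' h'] at this
    rw [← this]
    have h3 : (fun l a b => ∑ k, ψ6 (Pi.single k 1) l • C.th (Fin.castSucc k) a b) =
        (fun _ : Fin 1 => C.th 6) := by
      funext l a b
      simp only [ψ6, LinearMap.funLeft_apply]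
      rw [Finset.sum_eq_single 6]
      · simp
      · intro k _ hk
        simp [Pi.single_apply, Ne.symm hk]
      · simp
    rw [h3]
    exact famIso_refl _
  · refine famIso_trans (P.nat A2 (D 1) rho2 χ) ?_
    rw [h2]
    have := key (LinearMap.funLeft ℂ ℂ (fun _ : Fin 1 => (7 : Fin 8)))
    have h3 : (fun l a b => ∑ k, (LinearMap.funLeft ℂ ℂ (fun _ : Fin 1 => (7 : Fin 8)))
        (Pi.single k 1) l • C.th k a b) = (fun _ : Fin 1 => C.th 7) := by
      funext l a b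
      simp only [LinearMap.funLeft_apply]
      rw [Finset.sum_eq_single 7]
      · simp
      · intro k _ hk
        simp [Pi.single_apply, Ne.symm hk]
      · simp
    rw [h3] at this
    exact this


theorem line_smul {K : Type} [Field K] [Algebra ℂ K] {W : Type} [AddCommGroup W] [Module ℂ W]
    [Module K W] [IsScalarTower ℂ K W] (E : Lat W) (k : K) (hk : k ≠ 0) (c : W) :
    line (K := K) E (k • c) = line (K := K) E c := by
  unfold line
  funext a b
  congr 2
  apply le_antisymm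
  · rw [Submodule.span_singleton_le_iff_mem]
    exact Submodule.smul_mem _ _ (Submodule.mem_span_singleton_self c)
  · rw [Submodule.span_singleton_le_iff_mem, Submodule.mem_span_singleton]
    exact ⟨k⁻¹, by rw [smul_smul, inv_mul_cancel₀ hk, one_smul]⟩

theorem stable' (a b : ℕ) (hb : 0 < b) (hab : 8 * b < a) : MuStable C.surf C.E' a b := by
  intro v hv
  by_cases h : ∃ (k : ↥C.K) (c : F), c ∈ C.KC ∧ v = k • c
  · obtain ⟨k, c, hc, rfl⟩ := h
    have hk : k ≠ 0 := by rintro rfl; simp at hv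
    have hc0 : c ≠ 0 := by rintro rfl; simp at hv
    rw [line_smul _ k hk]
    filter_upwards [C.stb4 c hc hc0, Filter.eventually_ge_atTop 1] with n hn hn1
    have h1 := C.stb1 c hc0 n hn1
    rw [C.h0t_O n hn1]
    have h2 : (a : ℤ) * ((h0t C.surf (line (K := ↥C.K) C.E' c) n : ℤ) - ((4 * n : ℕ) : ℤ)) ≤ 0 := by
      apply mul_nonpos_of_nonneg_of_nonpos (by positivity)
      have : (h0t C.surf (line (K := ↥C.K) C.E' c) n : ℤ) ≤ ((4 * n : ℕ) : ℤ) := by exact_mod_cast h1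
      linarith
    have h3 : (b : ℤ) * ((h0x C.surf (line (K := ↥C.K) C.E' c) n : ℤ) -
        (h0x C.surf C.surf.O n : ℤ)) < 0 := by
      apply mul_neg_of_pos_of_neg (by exact_mod_cast hb)
      have : (h0x C.surf (line (K := ↥C.K) C.E' c) n : ℤ) < (h0x C.surf C.surf.O n : ℤ) := by
        exact_mod_cast hn
      linarith
    linarith
  · filter_upwards [Filter.eventually_ge_atTop 2] with n hn
    have hn1 : 1 ≤ n := by omega
    have h1 := C.stb1 v hv n hn1
    have h1' : h0t C.surf (line (K := ↥C.K) C.E' v) n ≠ 4 * n := fun h' =>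
      h (C.stb2 v hv n hn1 h')
    have h2 := C.stb3 v hv n hn
    rw [C.h0t_O n hn1]
    have h3 : (h0t C.surf (line (K := ↥C.K) C.E' v) n : ℤ) - ((4 * n : ℕ) : ℤ) ≤ -1 := by
      have : h0t C.surf (line (K := ↥C.K) C.E' v) n + 1 ≤ 4 * n := by omega
      have : (h0t C.surf (line (K := ↥C.K) C.E' v) n : ℤ) + 1 ≤ ((4 * n : ℕ) : ℤ) := by
        exact_mod_cast this
      linarith
    have h4 : (h0x C.surf (line (K := ↥C.K) C.E' v) n : ℤ) -
        (h0x C.surf C.surf.O n : ℤ) ≤ 8 := by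
      have : (h0x C.surf (line (K := ↥C.K) C.E' v) n : ℤ) ≤
        (h0x C.surf C.surf.O n : ℤ) + 8 := by exact_mod_cast h2
      linarith
    have ha : (8 * b : ℤ) < a := by exact_mod_cast hab
    nlinarith

end

end Pool.Agent.EllMod
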