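import Pool.Agent.MP_77976d_ag.Bas

/-! # PRES : presentation of the ring `B₀₀` -/

open scoped TensorProduct
open IsLocalRing

namespace Pool.Agent.EllMod

noncomputable section

variable {F : Type} [Field F] [Algebra ℂ F] (C : Cfg F)

namespace Pt

variable {A : Type} [CommRing A] [Algebra ℂ A] (P : Pt A)

/-- The eight elements `σ^a π^b ρ^c`. -/
def e (y : Bool × Bool × Bool) : A :=
  (if y.1 then P.σ else 1) * (if y.2.1 then P.π else 1) * (if y.2.2 then P.ρ else 1)

/-- The subalgebra generated by `τ` and `χ`. -/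
abbrev Pol : Subalgebra ℂ A := (MvPolynomial.aeval ![P.τ, P.χ]).range

theorem mem_span (v : A) (hv : v ∈ Algebra.adjoin ℂ {P.τ, P.σ, P.χ, P.π, P.ρ}) :
    v ∈ Submodule.span ↥P.Pol (Set.range P.e) := by
  have htP : P.τ ∈ P.Pol := ⟨MvPolynomial.X 0, by simp⟩
  have hxP : P.χ ∈ P.Pol := ⟨MvPolynomial.X 1, by simp⟩
  have hsm : ∀ c ∈ P.Pol, ∀ m ∈ Submodule.span ↥P.Pol (Set.range P.e),
      c * m ∈ Submodule.span ↥P.Pol (Set.range P.e) := by
    intro c hc m hm
    exact Submodule.smul_mem _ (⟨c, hc⟩ : ↥P.Pol) hm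
  have he : ∀ y, P.e y ∈ Submodule.span ↥P.Pol (Set.range P.e) := fun y =>
    Submodule.subset_span ⟨y, rfl⟩
  have hgen : ∀ g : A, (∀ y, g * P.e y ∈ Submodule.span ↥P.Pol (Set.range P.e)) →
      ∀ m ∈ Submodule.span ↥P.Pol (Set.range P.e),
        g * m ∈ Submodule.span ↥P.Pol (Set.range P.e) := by
    intro g hg m hm
    induction hm using Submodule.span_induction with
    | mem x hx => obtain ⟨y, rfl⟩ := hx; exact hg y
    | zero => simp
    | add x y _ _ hx hy => rw [mul_add]; exact add_mem hx hy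
    | smul c x _ hx => rw [mul_smul_comm]; exact Submodule.smul_mem _ _ hx
  have hf : P.σ ^ 2 ∈ P.Pol := by
    rw [P.hσ]
    have h2 : (2 : A) ∈ P.Pol := by
      have := P.Pol.algebraMap_mem 2
      simpa using this
    exact add_mem (add_mem (add_mem (add_mem (sub_mem (pow_mem htP 6)
      (mul_mem h2 (pow_mem htP 5))) (pow_mem htP 4)) (mul_mem h2 (pow_mem htP 3)))
      (mul_mem h2 (pow_mem htP 2))) (one_mem _)
  have hp2 : P.π ^ 2 ∈ P.Pol := by rw [P.hπ]; exact add_mem (pow_mem hxP 2) (one_mem _)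
  have hq2 : P.ρ ^ 2 ∈ P.Pol := by rw [P.hρ]; exact sub_mem (pow_mem hxP 2) (one_mem _)
  refine Cfg.adjoin_le_of_stable {P.τ, P.σ, P.χ, P.π, P.ρ}
    ((Submodule.span ↥P.Pol (Set.range P.e)).restrictScalars ℂ) ?_ ?_ v hv
  · have := he (false, false, false)
    simpa [e] using this
  · intro g hg m hm
    rcases hg with rfl | rfl | rfl | rfl | rfl
    · exact hsm _ htP m hm
    · refine hgen _ (fun y => ?_) m hm
      rcases y with ⟨a, b, c⟩
      cases a
      · have h1 : P.σ * P.e (false, b, c) = P.e (true, b, c) := by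
          simp only [e, if_true, Bool.false_eq_true, if_false]; ring
        rw [h1]; exact he _
      · have h1 : P.σ * P.e (true, b, c) = P.σ ^ 2 * P.e (false, b, c) := by
          simp only [e, if_true, Bool.false_eq_true, if_false]; ring
        rw [h1]; exact hsm _ hf _ (he _)
    · exact hsm _ hxP m hm
    · refine hgen _ (fun y => ?_) m hm
      rcases y with ⟨a, b, c⟩
      cases b
      · have h1 : P.π * P.e (a, false, c) = P.e (a, true, c) := by
          simp only [e, if_true, Bool.false_eq_true, if_false]; ring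
        rw [h1]; exact he _
      · have h1 : P.π * P.e (a, true, c) = P.π ^ 2 * P.e (a, false, c) := by
          simp only [e, if_true, Bool.false_eq_true, if_false]; ring
        rw [h1]; exact hsm _ hp2 _ (he _)
    · refine hgen _ (fun y => ?_) m hm
      rcases y with ⟨a, b, c⟩
      cases c
      · have h1 : P.ρ * P.e (a, b, false) = P.e (a, b, true) := by
          simp only [e, if_true, Bool.false_eq_true, if_false]; ring
        rw [h1]; exact he _
      · have h1 : P.ρ * P.e (a, b, true) = P.ρ ^ 2 * P.e (a, b, false) := by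
          simp only [e, if_true, Bool.false_eq_true, if_false]; ring
        rw [h1]; exact hsm _ hq2 _ (he _)

theorem expand (v : A) (hv : v ∈ Algebra.adjoin ℂ {P.τ, P.σ, P.χ, P.π, P.ρ}) :
    ∃ f : Bool × Bool × Bool → MvPolynomial (Fin 2) ℂ,
      v = ∑ y, MvPolynomial.aeval ![P.τ, P.χ] (f y) * P.e y := by
  have := P.mem_span v hv
  rw [Submodule.mem_span_range_iff_exists_fun] at this
  obtain ⟨c, hc⟩ := this
  have h1 : ∀ y, ∃ f, MvPolynomial.aeval ![P.τ, P.χ] f = (c y : A) := fun y => (c y).2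
  choose f hf using h1
  refine ⟨f, ?_⟩
  rw [← hc]
  refine Finset.sum_congr rfl fun y _ => ?_
  rw [hf y]
  rfl

end Pt

namespace Cfg

/-- The `F × A`-valued point `(t, τ), …`. -/
def prodPt {A : Type} [CommRing A] [Algebra ℂ A] (P : Pt A) : Pt (F × A) where
  τ := (C.t, P.τ)
  χ := (C.x, P.χ)
  σ := (C.s, P.σ)
  π := (C.p, P.π)
  ρ := (C.q, P.ρ)
  hσ := Prod.ext C.hs P.hσ
  hπ := Prod.ext C.hp P.hπ
  hρ := Prod.ext C.hq P.hρ

theorem prodPt_zero {A : Type} [CommRing A] [Algebra ℂ A] (P : Pt A) (v : F × A)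
    (hv : v ∈ Algebra.adjoin ℂ {(C.prodPt P).τ, (C.prodPt P).σ, (C.prodPt P).χ,
      (C.prodPt P).π, (C.prodPt P).ρ}) (h0 : v.1 = 0) : v = 0 := by
  obtain ⟨f, hf⟩ := (C.prodPt P).expand v hv
  have htk : C.t ∈ C.k := IntermediateField.subset_adjoin _ _ (by simp)
  have hxk : C.x ∈ C.k := IntermediateField.subset_adjoin _ _ (by simp)
  have h1 : ∀ y, (MvPolynomial.aeval ![(C.prodPt P).τ, (C.prodPt P).χ] (f y)).1 =
      MvPolynomial.aeval ![C.t, C.x] (f y) := by
    intro y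
    have : MvPolynomial.aeval ![C.t, C.x] =
        (AlgHom.fst ℂ F A).comp (MvPolynomial.aeval ![(C.prodPt P).τ, (C.prodPt P).χ]) := by
      apply MvPolynomial.algHom_ext
      intro i
      fin_cases i <;> simp [prodPt]
    rw [this]
    rfl
  have h2 : ∀ y, ((C.prodPt P).e y).1 = C.e y := by
    rintro ⟨a, b, c⟩
    cases a <;> cases b <;> cases c <;> simp [Pt.e, e, prodPt]
  have h3 : ∀ y, MvPolynomial.aeval ![C.t, C.x] (f y) ∈ C.k := by
    intro y
    have : MvPolynomial.aeval ![C.t, C.x] (f y) =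
        C.k.val (MvPolynomial.aeval ![(⟨C.t, htk⟩ : ↥C.k), ⟨C.x, hxk⟩] (f y)) := by
      have h4 : MvPolynomial.aeval ![C.t, C.x] =
          C.k.val.comp (MvPolynomial.aeval ![(⟨C.t, htk⟩ : ↥C.k), ⟨C.x, hxk⟩]) := by
        apply MvPolynomial.algHom_ext
        intro i
        fin_cases i <;> simp
      rw [h4]
      rfl
    rw [this]
    exact SetLike.coe_mem _
  have h4 : ∑ y, MvPolynomial.aeval ![C.t, C.x] (f y) * C.e y = 0 := by
    have h5 := congrArg Prod.fst hf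
    rw [h0] at h5
    rw [h5, Prod.fst_sum]
    refine Finset.sum_congr rfl fun y _ => ?_
    rw [Prod.fst_mul, h1, h2]
  have h5 := Fintype.linearIndependent_iff.mp C.e_li
    (fun y => ⟨MvPolynomial.aeval ![C.t, C.x] (f y), h3 y⟩) (by
      simpa [IntermediateField.smul_def] using h4)
  have h6 : ∀ y, f y = 0 := by
    intro y
    have h7 : MvPolynomial.aeval ![C.t, C.x] (f y) = 0 := congrArg Subtype.val (h5 y)
    exact (algebraicIndependent_iff.mp C.indep) _ h7
  rw [hf]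
  simp [h6]

theorem exists_lift {A : Type} [CommRing A] [Algebra ℂ A] (P : Pt A) :
    ∃ φ : ↥(C.B false false) →ₐ[ℂ] A, φ ⟨C.t, C.t_mem⟩ = P.τ ∧ φ ⟨C.x, C.x_mem⟩ = P.χ ∧
      φ ⟨C.s, C.s_mem⟩ = P.σ ∧ φ ⟨C.p, C.p_mem⟩ = P.π ∧ φ ⟨C.q, C.q_mem⟩ = P.ρ := by
  set B' := Algebra.adjoin ℂ {(C.prodPt P).τ, (C.prodPt P).σ, (C.prodPt P).χ,
      (C.prodPt P).π, (C.prodPt P).ρ} with hB'
  have hB : C.B false false = B'.map (AlgHom.fst ℂ F A) := by
    rw [hB', AlgHom.map_adjoin, B00_eq]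
    congr 1
    simp [Set.image_insert_eq, prodPt]
  have hmem : ∀ v ∈ B', v.1 ∈ C.B false false := by
    intro v hv
    rw [hB]
    exact ⟨v, hv, rfl⟩
  let f : ↥B' →ₐ[ℂ] ↥(C.B false false) :=
    ((AlgHom.fst ℂ F A).comp B'.val).codRestrict _ fun v => hmem v v.2
  have hf : Function.Bijective f := by
    constructor
    · rw [injective_iff_map_eq_zero]
      intro v hv
      apply Subtype.ext
      exact C.prodPt_zero P v v.2 (congrArg Subtype.val hv)
    · rintro ⟨w, hw⟩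
      rw [hB] at hw
      obtain ⟨v, hv, h⟩ := hw
      exact ⟨⟨v, hv⟩, Subtype.ext h⟩
  let eqv := AlgEquiv.ofBijective f hf
  have key : ∀ (v : F × A) (hv : v ∈ B') (w : F) (hw : w ∈ C.B false false), v.1 = w →
      (((AlgHom.snd ℂ F A).comp B'.val).comp eqv.symm.toAlgHom) ⟨w, hw⟩ = v.2 := by
    intro v hv w hw h
    have h1 : eqv.symm ⟨w, hw⟩ = ⟨v, hv⟩ := by
      rw [AlgEquiv.symm_apply_eq]
      exact Subtype.ext h.symm
    show (eqv.symm ⟨w, hw⟩ : F × A).2 = v.2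
    rw [h1]
  refine ⟨((AlgHom.snd ℂ F A).comp B'.val).comp eqv.symm.toAlgHom, ?_, ?_, ?_, ?_, ?_⟩
  · exact key (C.prodPt P).τ (Algebra.subset_adjoin (by simp)) _ _ rfl
  · exact key (C.prodPt P).χ (Algebra.subset_adjoin (by simp)) _ _ rfl
  · exact key (C.prodPt P).σ (Algebra.subset_adjoin (by simp)) _ _ rfl
  · exact key (C.prodPt P).π (Algebra.subset_adjoin (by simp)) _ _ rfl
  · exact key (C.prodPt P).ρ (Algebra.subset_adjoin (by simp)) _ _ rfl

theorem lift_ext {A : Type} [CommRing A] [Algebra ℂ A] (φ ψ : ↥(C.B false false) →ₐ[ℂ] A)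
    (ht : φ ⟨C.t, C.t_mem⟩ = ψ ⟨C.t, C.t_mem⟩) (hx : φ ⟨C.x, C.x_mem⟩ = ψ ⟨C.x, C.x_mem⟩)
    (hs : φ ⟨C.s, C.s_mem⟩ = ψ ⟨C.s, C.s_mem⟩) (hp : φ ⟨C.p, C.p_mem⟩ = ψ ⟨C.p, C.p_mem⟩)
    (hq : φ ⟨C.q, C.q_mem⟩ = ψ ⟨C.q, C.q_mem⟩) : φ = ψ := by
  have key : ∀ (v : F) (hv : v ∈ Algebra.adjoin ℂ {C.t, C.s, C.x, C.p, C.q}),
      ∀ hv' : v ∈ C.B false false, φ ⟨v, hv'⟩ = ψ ⟨v, hv'⟩ := by
    intro v hv
    induction hv using Algebra.adjoin_induction with
    | mem x hx' =>
      intro hv'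
      rcases hx' with rfl | rfl | rfl | rfl | rfl
      · exact ht
      · exact hs
      · exact hx
      · exact hp
      · exact hq
    | algebraMap r =>
      intro hv'
      exact (φ.commutes r).trans (ψ.commutes r).symm
    | add x y hx' hy' h1 h2 =>
      intro hv'
      rw [← B00_eq] at hx' hy'
      have h3 : (⟨x + y, hv'⟩ : ↥(C.B false false)) = ⟨x, hx'⟩ + ⟨y, hy'⟩ := rfl
      rw [h3, map_add, map_add, h1, h2]
    | mul x y hx' hy' h1 h2 =>
      intro hv'
      rw [← B00_eq] at hx' hy'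
      have h3 : (⟨x * y, hv'⟩ : ↥(C.B false false)) = ⟨x, hx'⟩ * ⟨y, hy'⟩ := rfl
      rw [h3, map_mul, map_mul, h1, h2]
  apply AlgHom.ext
  rintro ⟨v, hv⟩
  exact key v (by rw [← B00_eq]; exact hv) hv

end Cfg

end

end Pool.Agent.EllMod
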