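import Pool.Agent.MP_77976d_ag.Coh

/-! # SM : smoothness -/

open scoped TensorProduct
open IsLocalRing

namespace Pool.Agent.EllMod

noncomputable section

section key

open Polynomial

/-- Adjoining a square root of `h` is formally smooth if `h` and `h'` generate the unit ideal. -/
theorem sm_key {A : Type} [CommRing A] (half : A) (hh : 2 * half = 1) (h α β : A[X])
    (hab : α * h + β * derivative h = 1) :
    Algebra.FormallySmooth A (AdjoinRoot (X ^ 2 - C h : A[X][X])) := by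
  apply Algebra.FormallySmooth.of_comp_surjective
  intro B _ _ I hI f
  obtain ⟨x0, hx0⟩ := Ideal.Quotient.mk_surjective (f (AdjoinRoot.of _ X))
  obtain ⟨y0, hy0⟩ := Ideal.Quotient.mk_surjective (f (AdjoinRoot.root _))
  have hroot : (AdjoinRoot.root (X ^ 2 - C h : A[X][X])) ^ 2 = AdjoinRoot.of _ h := by
    have h1 := AdjoinRoot.eval₂_root (X ^ 2 - C h : A[X][X])
    rw [eval₂_sub, eval₂_pow, eval₂_X, eval₂_C] at h1
    exact sub_eq_zero.1 h1
  have hfo : ∀ p : A[X], f (AdjoinRoot.of _ p) = Ideal.Quotient.mk I (aeval x0 p) := by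
    have h1 : f.comp (AdjoinRoot.ofAlgHom A (X ^ 2 - C h : A[X][X])) =
        (Ideal.Quotient.mkₐ A I).comp (aeval x0) := by
      apply Polynomial.algHom_ext
      show f (AdjoinRoot.of _ X) = Ideal.Quotient.mk I (aeval x0 (X : A[X]))
      rw [aeval_X, hx0]
    intro p
    exact congrArg (fun g => g p) h1
  obtain ⟨ε, hεdef⟩ : ∃ ε, ε = y0 ^ 2 - aeval x0 h := ⟨_, rfl⟩
  have hε : ε ∈ I := by
    rw [← Ideal.Quotient.eq_zero_iff_mem, hεdef, map_sub, map_pow, hy0, ← hfo, ← map_pow, hroot,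
      sub_self]
  have hε2 : ε ^ 2 = 0 := by
    have h1 := Ideal.pow_mem_pow hε 2
    rw [hI] at h1
    exact h1
  have hab' : aeval x0 α * aeval x0 h + aeval x0 β * aeval x0 (derivative h) = 1 := by
    rw [← map_mul, ← map_mul, ← map_add, hab, map_one]
  have hh' : 2 * algebraMap A B half = 1 := by
    have := congrArg (algebraMap A B) hh
    rwa [map_mul, map_ofNat, map_one] at this
  set hf : B := algebraMap A B half with hhf
  have hx : aeval (x0 + ε * aeval x0 β) h =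
      aeval x0 h + aeval x0 (derivative h) * (ε * aeval x0 β) := by
    apply Polynomial.aeval_add_of_sq_eq_zero
    rw [mul_pow, hε2, zero_mul]
  have hy : (y0 + ε * (-(hf * aeval x0 α * y0))) ^ 2 - aeval (x0 + ε * aeval x0 β) h = 0 := by
    rw [hx]
    have e : y0 ^ 2 = ε + aeval x0 h := by rw [hεdef]; ring
    linear_combination (1 - ε * aeval x0 α * (2 * hf)) * e + (-(ε * aeval x0 α) * (ε + aeval x0 h)) * hh' -
      ε * hab' + (hf ^ 2 * aeval x0 α ^ 2 * y0 ^ 2 - aeval x0 α) * hε2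
  have hprf : eval₂ ((aeval (x0 + ε * aeval x0 β) : A[X] →ₐ[A] B) : A[X] →+* B)
      (y0 + ε * (-(hf * aeval x0 α * y0))) (X ^ 2 - C h : A[X][X]) = 0 := by
    rw [eval₂_sub, eval₂_pow, eval₂_X, eval₂_C]
    exact hy
  refine ⟨AdjoinRoot.liftAlgHom (X ^ 2 - C h : A[X][X]) (aeval (x0 + ε * aeval x0 β))
    (y0 + ε * (-(hf * aeval x0 α * y0))) hprf, ?_⟩
  have hε0 : Ideal.Quotient.mk I ε = 0 := Ideal.Quotient.eq_zero_iff_mem.2 hε
  apply AdjoinRoot.algHom_ext'
  · apply Polynomial.algHom_ext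
    show Ideal.Quotient.mk I (AdjoinRoot.liftAlgHom (X ^ 2 - C h : A[X][X]) _ _ hprf
      (AdjoinRoot.of _ X)) = f (AdjoinRoot.of _ X)
    rw [AdjoinRoot.liftAlgHom_of, aeval_X, map_add, map_mul, hε0, zero_mul, add_zero, hx0]
  · show Ideal.Quotient.mk I (AdjoinRoot.liftAlgHom (X ^ 2 - C h : A[X][X]) _ _ hprf
      (AdjoinRoot.root _)) = f (AdjoinRoot.root _)
    rw [AdjoinRoot.liftAlgHom_root, map_add, map_mul, hε0, zero_mul, add_zero, hy0]

/-- elements of `A[√h]` -/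
theorem sm_rep {A : Type} [CommRing A] (h : A) (z : AdjoinRoot (X ^ 2 - C h : A[X])) :
    ∃ α β : A, z = AdjoinRoot.of _ α + AdjoinRoot.of _ β * AdjoinRoot.root _ := by
  have hroot : (AdjoinRoot.root (X ^ 2 - C h : A[X])) ^ 2 = AdjoinRoot.of _ h := by
    have h1 := AdjoinRoot.eval₂_root (X ^ 2 - C h : A[X])
    rw [eval₂_sub, eval₂_pow, eval₂_X, eval₂_C] at h1
    exact sub_eq_zero.1 h1
  have hpow : ∀ n : ℕ, ∃ α β : A, (AdjoinRoot.root (X ^ 2 - C h : A[X])) ^ n =
      AdjoinRoot.of _ α + AdjoinRoot.of _ β * AdjoinRoot.root _ := by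
    intro n
    induction n with
    | zero => exact ⟨1, 0, by simp⟩
    | succ n ih =>
      obtain ⟨α, β, e⟩ := ih
      refine ⟨β * h, α, ?_⟩
      rw [pow_succ (AdjoinRoot.root (X ^ 2 - C h : A[X])) n, e, map_mul]
      linear_combination (AdjoinRoot.of _ β) * hroot
  induction z using AdjoinRoot.induction_on with
  | ih p =>
    induction p using Polynomial.induction_on' with
    | add p q hp hq =>
      obtain ⟨α, β, e⟩ := hp
      obtain ⟨γ, δ, e'⟩ := hq
      refine ⟨α + γ, β + δ, ?_⟩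
      rw [map_add, e, e', map_add, map_add]
      ring
    | monomial n c =>
      obtain ⟨α, β, e⟩ := hpow n
      refine ⟨c * α, c * β, ?_⟩
      rw [← C_mul_X_pow_eq_monomial, map_mul, map_pow, AdjoinRoot.mk_X, e, map_mul, map_mul]
      show AdjoinRoot.of _ c * _ = _
      ring

/-- the same for polynomials with coefficients in `A[√h]` -/
theorem sm_rep' {A : Type} [CommRing A] (h : A) (z : (AdjoinRoot (X ^ 2 - C h : A[X]))[X]) :
    ∃ α β : A[X], z = map (AdjoinRoot.of _) α + C (AdjoinRoot.root _) * map (AdjoinRoot.of _) β := by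
  induction z using Polynomial.induction_on' with
  | add p q hp hq =>
    obtain ⟨α, β, e⟩ := hp
    obtain ⟨γ, δ, e'⟩ := hq
    refine ⟨α + γ, β + δ, ?_⟩
    rw [e, e', Polynomial.map_add, Polynomial.map_add]
    ring
  | monomial n c =>
    obtain ⟨α, β, e⟩ := sm_rep h c
    refine ⟨C α * X ^ n, C β * X ^ n, ?_⟩
    rw [← C_mul_X_pow_eq_monomial, e]
    simp only [Polynomial.map_mul, Polynomial.map_pow, Polynomial.map_C, Polynomial.map_X, C_add,
      C_mul]
    ring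

/-- the equation of `Y` -/
abbrev smP1 : ℂ[X][X] := X ^ 2 - C (X ^ 4 - 1)

/-- `ℂ[X, Y]` -/
abbrev SmA1 : Type := AdjoinRoot smP1

/-- the class of `X` -/
def smX : SmA1 := AdjoinRoot.of smP1 X
/-- the class of `Y` -/
def smY : SmA1 := AdjoinRoot.root smP1

theorem smY_sq : smY ^ 2 = smX ^ 4 - 1 := by
  have h1 := AdjoinRoot.eval₂_root smP1
  rw [eval₂_sub, eval₂_pow, eval₂_X, eval₂_C] at h1
  have h2 := sub_eq_zero.1 h1
  rw [map_sub, map_pow, map_one] at h2
  exact h2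

/-- the unit `u = 2 (X ^ 2 + Y)` -/
def smu : SmA1 := 2 * (smX ^ 2 + smY)
/-- its inverse -/
def smv : SmA1 := algebraMap ℂ SmA1 (1 / 2) * (smX ^ 2 - smY)

theorem sm_half : (2 : SmA1) * algebraMap ℂ SmA1 (1 / 2) = 1 := by
  have : algebraMap ℂ SmA1 (2 * (1 / 2)) = 1 := by norm_num
  rwa [map_mul, map_ofNat] at this

theorem smuv : smu * smv = 1 := by
  have h1 := sm_half
  have h2 := smY_sq
  unfold smu smv
  linear_combination (smX ^ 4 - smY ^ 2) * h1 - h2

/-- the equation of `r` -/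
abbrev smP2 (a : Bool) : SmA1[X][X] := X ^ 2 - C (C smu * map (AdjoinRoot.of smP1) (ic_f a))

/-- `ℂ[X, Y, T, r]` -/
abbrev SmA2 (a : Bool) : Type := AdjoinRoot (smP2 a)

theorem sm_A1 : Algebra.FormallySmooth ℂ SmA1 := by
  refine sm_key (1 / 2 : ℂ) (by norm_num) (X ^ 4 - 1) (-1) (C (1 / 4) * X) ?_
  simp only [derivative_sub, derivative_X_pow, derivative_one]
  have : (C (1 / 4 : ℂ) * C ((4 : ℕ) : ℂ) : ℂ[X]) = 1 := by
    rw [← C_mul]; norm_num
  simp only [sub_zero]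
  linear_combination (X ^ 4 : ℂ[X]) * this

theorem sm_A2 (a : Bool) : Algebra.FormallySmooth SmA1 (SmA2 a) := by
  obtain ⟨α, β, c, hc, e⟩ := ic_f_bezout a
  have e' := congrArg (Polynomial.map (AdjoinRoot.of smP1)) e
  simp only [Polynomial.map_add, Polynomial.map_mul, Polynomial.map_C] at e'
  have hc' : (C (algebraMap ℂ SmA1 c⁻¹) * C ((AdjoinRoot.of smP1) (C c)) : SmA1[X]) = 1 := by
    rw [← C_mul]
    have h1 : (AdjoinRoot.of smP1) (C c) = algebraMap ℂ SmA1 c := rfl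
    rw [h1, ← map_mul, inv_mul_cancel₀ hc, map_one, C_1]
  have huv : (C smu * C smv : SmA1[X]) = 1 := by rw [← C_mul, smuv, C_1]
  refine sm_key (algebraMap ℂ SmA1 (1 / 2)) sm_half (C smu * map (AdjoinRoot.of smP1) (ic_f a))
    (C (algebraMap ℂ SmA1 c⁻¹) * C smv * map (AdjoinRoot.of smP1) α)
    (C (algebraMap ℂ SmA1 c⁻¹) * C smv * map (AdjoinRoot.of smP1) β) ?_
  rw [derivative_C_mul, derivative_map]
  linear_combination (C (algebraMap ℂ SmA1 c⁻¹) * (C smu * C smv)) * e' +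
    (C smu * C smv) * hc' + huv

theorem sm_tower (a : Bool) : Algebra.FormallySmooth ℂ (SmA2 a) := by
  have := sm_A1
  have := sm_A2 a
  exact Algebra.FormallySmooth.comp ℂ SmA1 (SmA2 a)

end key

variable {F : Type} [Field F] [Algebra ℂ F] (C : Cfg F)

namespace Cfg

theorem sm_Y_sq (b : Bool) : (C.P b * C.Q b) ^ 2 = C.Xc b ^ 4 - 1 := by
  have h1 := C.xs_P_sq b
  have h2 := C.xs_Q_sq b
  linear_combination (C.Q b * C.Q b) * h1 + (C.Xc b * C.Xc b + 1) * h2

/-- the coordinates `X`, `Y` -/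
def sm1 (a b : Bool) : SmA1 →ₐ[ℂ] ↥C.K :=
  AdjoinRoot.liftAlgHom smP1 (Polynomial.aeval (C.genK a b 1)) (C.genK a b 2) (by
    rw [Polynomial.eval₂_sub, Polynomial.eval₂_pow, Polynomial.eval₂_X, Polynomial.eval₂_C]
    apply Subtype.ext
    show (C.P b * C.Q b) ^ 2 - ((Polynomial.aeval (C.genK a b 1) (Polynomial.X ^ 4 - 1 :
      Polynomial ℂ) : ↥C.K) : F) = 0
    rw [map_sub, map_pow, Polynomial.aeval_X, map_one]
    show (C.P b * C.Q b) ^ 2 - (C.Xc b ^ 4 - 1) = 0
    rw [sm_Y_sq, sub_self])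

theorem sm1_of (a b : Bool) (p : Polynomial ℂ) :
    ((C.sm1 a b (AdjoinRoot.of smP1 p) : ↥C.K) : F) = Polynomial.aeval (C.Xc b) p := by
  unfold sm1
  rw [AdjoinRoot.liftAlgHom_of]
  have h : (C.K.val : ↥C.K →ₐ[ℂ] F) (Polynomial.aeval (C.genK a b 1) p) =
      Polynomial.aeval (C.K.val (C.genK a b 1)) p := (Polynomial.aeval_algHom_apply _ _ _).symm
  exact h

theorem sm1_Y (a b : Bool) : C.sm1 a b smY = C.genK a b 2 := by
  unfold sm1 smY
  rw [AdjoinRoot.liftAlgHom_root]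

/-- the coordinate `T` -/
def sm2 (a b : Bool) : Polynomial SmA1 →ₐ[ℂ] ↥C.K :=
  Polynomial.eval₂AlgHom (C.sm1 a b) (C.genK a b 0) (fun _ => Commute.all _ _)

theorem sm2_C (a b : Bool) (z : SmA1) : C.sm2 a b (Polynomial.C z) = C.sm1 a b z := by
  simp [sm2]

theorem sm2_X (a b : Bool) : C.sm2 a b Polynomial.X = C.genK a b 0 := by
  simp [sm2]

theorem sm2_map (a b : Bool) (c : Polynomial (Polynomial ℂ)) :
    ((C.sm2 a b (Polynomial.map (AdjoinRoot.of smP1) c) : ↥C.K) : F) = C.ic_Psi a b c := by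
  induction c using Polynomial.induction_on' with
  | add p q hp hq =>
    rw [Polynomial.map_add, map_add, map_add, ← hp, ← hq]
    rfl
  | monomial n c =>
    rw [← Polynomial.C_mul_X_pow_eq_monomial, Polynomial.map_mul, Polynomial.map_pow,
      Polynomial.map_C, Polynomial.map_X, map_mul, map_pow, map_mul, map_pow, sm2_C, sm2_X,
      ic_Psi_C, ic_Psi_X, ← C.sm1_of a b c]
    rfl

theorem sm_r_sq (a b : Bool) : (C.genK a b 3) ^ 2 = C.sm2 a b (Polynomial.C smu *
    Polynomial.map (AdjoinRoot.of smP1) (ic_f a)) := by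
  apply Subtype.ext
  rw [map_mul, sm2_C]
  have h1 : ((C.sm1 a b smu : ↥C.K) : F) = 2 * (C.Xc b ^ 2 + C.P b * C.Q b) := by
    unfold smu
    rw [map_mul, map_add, map_pow, map_ofNat, sm1_Y]
    have h2 : ((C.sm1 a b smX : ↥C.K) : F) = C.Xc b := by
      unfold smX
      rw [sm1_of, Polynomial.aeval_X]
    rw [← h2]
    rfl
  show (C.S a * C.j b) ^ 2 = ((C.sm1 a b smu : ↥C.K) : F) *
    ((C.sm2 a b (Polynomial.map (AdjoinRoot.of smP1) (ic_f a)) : ↥C.K) : F)
  rw [h1, sm2_map, ← ic_S_sq]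
  unfold j
  have h3 := C.xs_P_sq b
  have h4 := C.xs_Q_sq b
  linear_combination (C.S a * C.S a) * h3 + (C.S a * C.S a) * h4

/-- the coordinate `r` -/
def sm3 (a b : Bool) : SmA2 a →ₐ[ℂ] ↥C.K :=
  AdjoinRoot.liftAlgHom (smP2 a) (C.sm2 a b) (C.genK a b 3) (by
    rw [Polynomial.eval₂_sub, Polynomial.eval₂_pow, Polynomial.eval₂_X, Polynomial.eval₂_C,
      C.sm_r_sq a b]
    exact sub_self _)

theorem sm3_of (a b : Bool) (z : Polynomial SmA1) :
    C.sm3 a b (AdjoinRoot.of (smP2 a) z) = C.sm2 a b z := by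
  unfold sm3
  rw [AdjoinRoot.liftAlgHom_of]

theorem sm3_root (a b : Bool) : C.sm3 a b (AdjoinRoot.root (smP2 a)) = C.genK a b 3 := by
  unfold sm3
  rw [AdjoinRoot.liftAlgHom_root]

theorem sm3_val (a b : Bool) (α β : Polynomial SmA1) : C.sm3 a b (AdjoinRoot.of (smP2 a) α +
    AdjoinRoot.of (smP2 a) β * AdjoinRoot.root (smP2 a)) =
      C.sm2 a b α + C.sm2 a b β * C.genK a b 3 := by
  rw [map_add (C.sm3 a b), map_mul (C.sm3 a b), sm3_of, sm3_of, sm3_root]

theorem sm_two : (2 : F) ≠ 0 := by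
  intro h2
  have h3 : algebraMap ℂ F 2 = 0 := by rw [map_ofNat]; exact h2
  have h4 := (map_eq_zero _).1 h3
  norm_num at h4

/-- polynomials in `T`, `X` are fixed by the sign changes -/
theorem sm_Psi_fix (σ : F ≃ₐ[ℂ] F) (a b : Bool) (ht : σ C.t = C.t) (hx : σ C.x = C.x)
    (c : Polynomial (Polynomial ℂ)) : σ (C.ic_Psi a b c) = C.ic_Psi a b c :=
  C.ic_fix σ a b ht hx c

theorem sm_inj2 (a b : Bool) (z : Polynomial SmA1) (hz : C.sm2 a b z = 0) : z = 0 := by
  obtain ⟨α, β, rfl⟩ := sm_rep' _ z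
  have h1 : C.ic_Psi a b α + C.P b * C.Q b * C.ic_Psi a b β = 0 := by
    have h2 := congrArg (Subtype.val) hz
    rw [map_add, map_mul, sm2_C] at h2
    have h3 : C.sm1 a b (AdjoinRoot.root smP1) = C.genK a b 2 := C.sm1_Y a b
    rw [h3] at h2
    rw [← C.sm2_map a b α, ← C.sm2_map a b β]
    exact h2
  have hσP : C.σp (C.P b) = -C.P b := by
    cases b
    · exact C.σp_p
    · show C.σp (C.p * C.x⁻¹) = -(C.p * C.x⁻¹)
      rw [map_mul, map_inv₀, C.σp_p, C.σp_x]; ring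
  have hσQ : C.σp (C.Q b) = C.Q b := by
    cases b
    · exact C.σp_q
    · show C.σp (i * C.q * C.x⁻¹) = i * C.q * C.x⁻¹
      rw [map_mul, map_mul, map_inv₀, C.σp_q, C.σp_x]
      have : C.σp (i : F) = i := C.σp.commutes _
      rw [this]
  have h2 := congrArg C.σp h1
  rw [map_add, map_mul, map_mul, hσP, hσQ, map_zero, C.sm_Psi_fix C.σp a b C.σp_t C.σp_x,
    C.sm_Psi_fix C.σp a b C.σp_t C.σp_x] at h2
  have h3 : C.ic_Psi a b α = 0 := by
    have : 2 * C.ic_Psi a b α = 0 := by linear_combination h1 + h2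
    exact (mul_eq_zero.1 this).resolve_left sm_two
  have hYne : C.P b * C.Q b ≠ 0 := by
    intro h
    have h4 := C.sm_Y_sq b
    rw [h] at h4
    have h5 : C.ic_Psi a b (Polynomial.C (Polynomial.X ^ 4 - 1)) = 0 := by
      rw [ic_Psi_C, map_sub, map_pow, Polynomial.aeval_X, map_one, ← h4]
      ring
    have h6 := C.ic_Psi_inj a b (h5.trans (map_zero _).symm)
    have h7 : (Polynomial.X ^ 4 - 1 : Polynomial ℂ) = 0 := Polynomial.C_eq_zero.1 h6
    have h8 := congrArg (Polynomial.eval 0) h7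
    simp at h8
  have h4 : C.ic_Psi a b β = 0 := by
    rw [h3, zero_add] at h1
    exact (mul_eq_zero.1 h1).resolve_left hYne
  have h5 : α = 0 := C.ic_Psi_inj a b (h3.trans (map_zero _).symm)
  have h6 : β = 0 := C.ic_Psi_inj a b (h4.trans (map_zero _).symm)
  rw [h5, h6]
  simp

theorem sm2_fix (a b : Bool) (z : Polynomial SmA1) :
    C.σs ((C.sm2 a b z : ↥C.K) : F) = ((C.sm2 a b z : ↥C.K) : F) := by
  obtain ⟨α, β, rfl⟩ := sm_rep' _ z
  have e : ((C.sm2 a b (Polynomial.map (AdjoinRoot.of smP1) α +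
      Polynomial.C (AdjoinRoot.root smP1) * Polynomial.map (AdjoinRoot.of smP1) β) : ↥C.K) : F) =
      C.ic_Psi a b α + C.P b * C.Q b * C.ic_Psi a b β := by
    rw [map_add, map_mul, sm2_C]
    have h3 : C.sm1 a b (AdjoinRoot.root smP1) = C.genK a b 2 := C.sm1_Y a b
    rw [h3, ← C.sm2_map a b α, ← C.sm2_map a b β]
    rfl
  have hσP : C.σs (C.P b) = C.P b := by
    cases b
    · exact C.σs_p
    · show C.σs (C.p * C.x⁻¹) = C.p * C.x⁻¹
      rw [map_mul, map_inv₀, C.σs_p, C.σs_x]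
  have hσQ : C.σs (C.Q b) = C.Q b := by
    cases b
    · exact C.σs_q
    · show C.σs (i * C.q * C.x⁻¹) = i * C.q * C.x⁻¹
      rw [map_mul, map_mul, map_inv₀, C.σs_q, C.σs_x]
      have : C.σs (i : F) = i := C.σs.commutes _
      rw [this]
  rw [e, map_add, map_mul, map_mul, hσP, hσQ, C.sm_Psi_fix C.σs a b C.σs_t C.σs_x,
    C.sm_Psi_fix C.σs a b C.σs_t C.σs_x]

theorem sm_inj3 (a b : Bool) : Function.Injective (C.sm3 a b) := by
  rw [injective_iff_map_eq_zero]
  intro z hz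
  obtain ⟨α, β, rfl⟩ := sm_rep _ z
  replace hz := (C.sm3_val a b α β).symm.trans hz
  have h1 : ((C.sm2 a b α : ↥C.K) : F) + ((C.sm2 a b β : ↥C.K) : F) * (C.S a * C.j b) = 0 :=
    congrArg Subtype.val hz
  have hS : C.σs (C.S a) = -C.S a := by
    cases a
    · exact C.σs_s
    · show C.σs (C.s * C.t⁻¹ ^ 3) = -(C.s * C.t⁻¹ ^ 3)
      rw [map_mul, map_pow, map_inv₀, C.σs_s, C.σs_t]; ring
  have hj : C.σs (C.j b) = C.j b := by
    unfold j
    have hσP : C.σs (C.P b) = C.P b := by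
      cases b
      · exact C.σs_p
      · show C.σs (C.p * C.x⁻¹) = C.p * C.x⁻¹
        rw [map_mul, map_inv₀, C.σs_p, C.σs_x]
    have hσQ : C.σs (C.Q b) = C.Q b := by
      cases b
      · exact C.σs_q
      · show C.σs (i * C.q * C.x⁻¹) = i * C.q * C.x⁻¹
        rw [map_mul, map_mul, map_inv₀, C.σs_q, C.σs_x]
        have : C.σs (i : F) = i := C.σs.commutes _
        rw [this]
    rw [map_add, hσP, hσQ]
  have h2 := congrArg C.σs h1
  rw [map_add, map_mul, map_mul, C.sm2_fix, C.sm2_fix, hS, hj, map_zero] at h2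
  have h3 : ((C.sm2 a b α : ↥C.K) : F) = 0 := by
    have : 2 * ((C.sm2 a b α : ↥C.K) : F) = 0 := by linear_combination h1 + h2
    exact (mul_eq_zero.1 this).resolve_left sm_two
  have hSne : C.S a ≠ 0 := by
    intro h
    have h4 := C.ic_S_sq a b
    rw [h, zero_mul] at h4
    have h6 := C.ic_Psi_inj a b (h4.symm.trans (map_zero _).symm)
    exact (ic_f_monic a).ne_zero h6
  have hjne : C.j b ≠ 0 := by
    intro h
    have h4 : (C.P b + C.Q b) * (C.P b - C.Q b) = 2 := by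
      have h3 := C.xs_P_sq b
      have h4 := C.xs_Q_sq b
      linear_combination h3 - h4
    have h5 : C.P b + C.Q b = 0 := h
    rw [h5, zero_mul] at h4
    exact sm_two h4.symm
  have h4 : ((C.sm2 a b β : ↥C.K) : F) = 0 := by
    rw [h3, zero_add] at h1
    exact (mul_eq_zero.1 h1).resolve_right (mul_ne_zero hSne hjne)
  have h5 : α = 0 := C.sm_inj2 a b α (Subtype.ext h3)
  have h6 : β = 0 := C.sm_inj2 a b β (Subtype.ext h4)
  rw [h5, h6]
  simp

theorem sm_range (a b : Bool) : (C.sm3 a b).range = C.surf.R a b := by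
  apply le_antisymm
  · rintro _ ⟨z, rfl⟩
    have h0 : ∀ k, C.genK a b k ∈ C.surf.R a b := fun k => by
      rw [R_eq]; exact Algebra.subset_adjoin ⟨k, rfl⟩
    have h1 : ∀ p : Polynomial ℂ, C.sm1 a b (AdjoinRoot.of smP1 p) ∈ C.surf.R a b := by
      intro p
      unfold sm1
      rw [AdjoinRoot.liftAlgHom_of]
      exact Polynomial.aeval_mem_adjoin_singleton ℂ _ |> fun h =>
        (Algebra.adjoin_le (by rintro _ rfl; exact h0 1)) h
    have h2 : ∀ z : Polynomial SmA1, C.sm2 a b z ∈ C.surf.R a b := by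
      intro z
      induction z using Polynomial.induction_on' with
      | add p q hp hq => rw [map_add]; exact add_mem hp hq
      | monomial n c =>
        obtain ⟨α, β, rfl⟩ := sm_rep _ c
        rw [← Polynomial.C_mul_X_pow_eq_monomial, map_mul, map_pow, sm2_C, sm2_X, map_add, map_mul]
        have h3 : C.sm1 a b (AdjoinRoot.root smP1) = C.genK a b 2 := C.sm1_Y a b
        rw [h3]
        exact mul_mem (add_mem (h1 α) (mul_mem (h1 β) (h0 2))) (pow_mem (h0 0) n)
    obtain ⟨α, β, rfl⟩ := sm_rep _ z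
    have e1 := C.sm3_val a b α β
    have e2 : C.sm2 a b α + C.sm2 a b β * C.genK a b 3 ∈ C.surf.R a b :=
      add_mem (h2 α) (mul_mem (h2 β) (h0 3))
    rw [← e1] at e2
    exact e2
  · rw [R_eq, Algebra.adjoin_le_iff]
    rintro _ ⟨k, rfl⟩
    fin_cases k
    · exact ⟨AdjoinRoot.of _ Polynomial.X, (C.sm3_of a b _).trans (C.sm2_X a b)⟩
    · refine ⟨AdjoinRoot.of _ (Polynomial.C smX), (C.sm3_of a b _).trans ?_⟩
      rw [sm2_C]
      apply Subtype.ext
      unfold smX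
      rw [sm1_of, Polynomial.aeval_X]
      rfl
    · exact ⟨AdjoinRoot.of _ (Polynomial.C smY), (C.sm3_of a b _).trans
        ((C.sm2_C a b _).trans (C.sm1_Y a b))⟩
    · exact ⟨AdjoinRoot.root _, C.sm3_root a b⟩

theorem smooth : SmoothSurf C.surf := by
  intro a b
  have h1 := sm_tower a
  have e : SmA2 a ≃ₐ[ℂ] ↥(C.surf.R a b) :=
    (AlgEquiv.ofInjective (C.sm3 a b) (C.sm_inj3 a b)).trans
      (Subalgebra.equivOfEq _ _ (C.sm_range a b))
  have h2 : Algebra.FormallySmooth ℂ (C.surf.R a b) := Algebra.FormallySmooth.of_equiv e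
  have h3 := C.coh_R_ft a b
  have h4 : Algebra.FinitePresentation ℂ (C.surf.R a b) :=
    Algebra.FinitePresentation.of_finiteType.1 h3
  exact ⟨h2, h4⟩

end Cfg

end

end Pool.Agent.EllMod
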