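import Pool.Agent.MP_77976d_ag.T1Defs

/-! # Common lemmas for T1A, T1B, T1C -/

open scoped TensorProduct
open IsLocalRing

namespace Pool.Agent.EllMod

noncomputable section

section gen

variable {A : Type} [CommRing A] [Algebra ℂ A] {W : Type} [AddCommGroup W] [Module ℂ W]

/-- Induction over the elements of a base change. -/
theorem t1_ind {p : Submodule ℂ W} {P : (A ⊗[ℂ] W) → Prop} (h0 : P 0)
    (h1 : ∀ (a : A), ∀ v ∈ p, P (a ⊗ₜ v)) (h2 : ∀ z w, P z → P w → P (z + w)) {z : A ⊗[ℂ] W}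
    (hz : z ∈ p.baseChange A) : P z := by
  obtain ⟨w, rfl⟩ := hz
  induction w using TensorProduct.induction_on with
  | zero => rw [map_zero]; exact h0
  | tmul a v => rw [LinearMap.baseChange_tmul]; exact h1 a _ v.2
  | add z w hz hw => rw [map_add]; exact h2 _ _ hz hw

theorem kact_tmul {K : Type} [Field K] [Algebra ℂ K] [Module K W] [IsScalarTower ℂ K W] (k : K)
    (a : A) (w : W) : kact A k (a ⊗ₜ w) = a ⊗ₜ[ℂ] (k • w) := by
  simp [kact]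

end gen

/-- Image of a point. -/
def Pt.map {A A' : Type} [CommRing A] [Algebra ℂ A] [CommRing A'] [Algebra ℂ A'] (α : A →ₐ[ℂ] A')
    (P : Pt A) : Pt A' where
  τ := α P.τ
  χ := α P.χ
  σ := α P.σ
  π := α P.π
  ρ := α P.ρ
  hσ := by
    rw [← map_pow, P.hσ]
    have h2 : α 2 = 2 := map_ofNat α 2
    simp [h2]
  hπ := by rw [← map_pow, P.hπ]; simp
  hρ := by rw [← map_pow, P.hρ]; simp

theorem t1_max {A A' : Type} [CommRing A] [Algebra ℂ A] [Module.Finite ℂ A] [IsLocalRing A]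
    [CommRing A'] [Algebra ℂ A'] [IsLocalRing A'] (α : A →ₐ[ℂ] A') {a : A}
    (h : a ∈ maximalIdeal A) : α a ∈ maximalIdeal A' := by
  exact t1pt_mem ((t1pt_nil h).map α)

theorem ptA_map {A A' : Type} [CommRing A] [Algebra ℂ A] [Module.Finite ℂ A] [IsLocalRing A]
    [CommRing A'] [Algebra ℂ A'] [Module.Finite ℂ A'] [IsLocalRing A'] (α : A →ₐ[ℂ] A') (τ χ : A)
    (hτ : τ ∈ maximalIdeal A) (hχ : χ ∈ maximalIdeal A) (hτ' : α τ ∈ maximalIdeal A')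
    (hχ' : α χ ∈ maximalIdeal A') : (ptA τ χ hτ hχ).map α = ptA (α τ) (α χ) hτ' hχ' := by
  obtain ⟨h1, h2, h3, h4, h5⟩ := ptA_spec τ χ hτ hχ
  obtain ⟨g1, g2, g3, g4, g5⟩ := ptA_spec (α τ) (α χ) hτ' hχ'
  have k3 : α (ptA τ χ hτ hχ).σ - 1 ∈ maximalIdeal A' := by
    have := t1_max (A' := A') α h3
    rwa [map_sub, map_one] at this
  have k4 : α (ptA τ χ hτ hχ).π - 1 ∈ maximalIdeal A' := by
    have := t1_max (A' := A') α h4
    rwa [map_sub, map_one] at this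
  have k5 : α (ptA τ χ hτ hχ).ρ - algebraMap ℂ A' Complex.I ∈ maximalIdeal A' := by
    have := t1_max (A' := A') α h5
    rwa [map_sub, AlgHom.commutes] at this
  refine ptA_unique _ _ ?_ ?_ ?_ ?_ ?_ k3 k4 k5
  · show α (ptA τ χ hτ hχ).τ = _
    rw [h1, g1]
  · show α (ptA τ χ hτ hχ).χ = _
    rw [h2, g2]
  · show α (ptA τ χ hτ hχ).σ - _ ∈ _
    have := sub_mem k3 g3
    rwa [sub_sub_sub_cancel_right] at this
  · show α (ptA τ χ hτ hχ).π - _ ∈ _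
    have := sub_mem k4 g4
    rwa [sub_sub_sub_cancel_right] at this
  · show α (ptA τ χ hτ hχ).ρ - _ ∈ _
    have := sub_mem k5 g5
    rwa [sub_sub_sub_cancel_right] at this

/-- The complex point under `y_A` is `y₀`. -/
theorem ptA_map_C {A : Type} [CommRing A] [Algebra ℂ A] [Module.Finite ℂ A] [IsLocalRing A]
    (π : A →ₐ[ℂ] ℂ) (τ χ : A) (hτ : τ ∈ maximalIdeal A) (hχ : χ ∈ maximalIdeal A) :
    (ptA τ χ hτ hχ).map π = pt y0 := by
  have h0 : ∀ a ∈ maximalIdeal A, π a = 0 := fun a ha => by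
    have := t1_max π ha
    rwa [maximalIdeal_eq_bot, Ideal.mem_bot] at this
  obtain ⟨h1, h2, h3, h4, h5⟩ := ptA_spec τ χ hτ hχ
  have e1 : ((ptA τ χ hτ hχ).map π).τ = (pt y0).τ := by
    show π (ptA τ χ hτ hχ).τ = 0
    rw [h1, h0 _ hτ]
  have e2 : ((ptA τ χ hτ hχ).map π).χ = (pt y0).χ := by
    show π (ptA τ χ hτ hχ).χ = 0
    rw [h2, h0 _ hχ]
  have e3 : ((ptA τ χ hτ hχ).map π).σ = (pt y0).σ := by
    show π (ptA τ χ hτ hχ).σ = sg true
    have := h0 _ h3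
    rw [map_sub, map_one, sub_eq_zero] at this
    rw [this]; simp [sg]
  have e4 : ((ptA τ χ hτ hχ).map π).π = (pt y0).π := by
    show π (ptA τ χ hτ hχ).π = sg true
    have := h0 _ h4
    rw [map_sub, map_one, sub_eq_zero] at this
    rw [this]; simp [sg]
  have e5 : ((ptA τ χ hτ hχ).map π).ρ = (pt y0).ρ := by
    show π (ptA τ χ hτ hχ).ρ = sg true * Complex.I
    have := h0 _ h5
    rw [map_sub, AlgHom.commutes, sub_eq_zero] at this
    rw [this]; simp [sg]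
  generalize (ptA τ χ hτ hχ).map π = P at *
  generalize pt y0 = P' at *
  cases P
  cases P'
  simp only at e1 e2 e3 e4 e5
  subst e1 e2 e3 e4 e5
  rfl

variable {F : Type} [Field F] [Algebra ℂ F] (C : Cfg F)

namespace Cfg

theorem lift_map {A A' : Type} [CommRing A] [Algebra ℂ A] [CommRing A'] [Algebra ℂ A']
    (α : A →ₐ[ℂ] A') (P : Pt A) : C.lift (P.map α) = α.comp (C.lift P) := by
  apply C.lift_ext <;> simp [Pt.map]

variable {A : Type} [CommRing A] [Algebra ℂ A]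

theorem ιA_tmul (c : A) (v : F) : C.ιA A (c ⊗ₜ v) = c ⊗ₜ[ℂ] C.ι v := by
  simp [ιA]

theorem Xi_tmul (ξ : Fin 7 → A) (c : A) (v : F) : C.Xi ξ (c ⊗ₜ v) =
    (ξ 0 * c) ⊗ₜ (C.s * C.t⁻¹ * v) + (ξ 1 * c) ⊗ₜ (C.s * C.t⁻¹ ^ 2 * v) +
      (ξ 2 * c) ⊗ₜ[ℂ] (C.t⁻¹ * C.ι v) := by
  rw [Xi, LinearMap.add_apply, LinearMap.comp_apply, ιA_tmul, LinearMap.mulLeft_apply,
    LinearMap.mulLeft_apply, add_mul, Algebra.TensorProduct.tmul_mul_tmul,
    Algebra.TensorProduct.tmul_mul_tmul, Algebra.TensorProduct.tmul_mul_tmul]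

/-- The operator `1 + ξ₃ Y/x`. -/
def GG (c : A) : (A ⊗[ℂ] F) →ₗ[A] (A ⊗[ℂ] F) := LinearMap.mulLeft A (1 + c ⊗ₜ (C.Y * C.x⁻¹))

theorem GG_tmul (b c : A) (v : F) : C.GG b (c ⊗ₜ v) =
    c ⊗ₜ v + (b * c) ⊗ₜ[ℂ] (C.Y * C.x⁻¹ * v) := by
  rw [GG, LinearMap.mulLeft_apply, add_mul, one_mul, Algebra.TensorProduct.tmul_mul_tmul]

theorem Uop_tf (ξ : Fin 7 → A) : C.Uop ξ true false = LinearMap.id + C.Xi ξ := by
  simp [Uop]

theorem Uop_ft (ξ : Fin 7 → A) : C.Uop ξ false true = C.GG (ξ 3) := by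
  simp [Uop, GG]

theorem Uop_tt (ξ : Fin 7 → A) : C.Uop ξ true true = C.GG (ξ 3) ∘ₗ (LinearMap.id + C.Xi ξ) := by
  simp [Uop, GG]

theorem phi_tmul (P : Pt A) (ξ6 : A) (c : A) (v : ↥(C.B false false)) :
    C.phi P ξ6 (c ⊗ₜ v) = c * (C.lift P v - ξ6 * C.lift P (C.ιB v)) := by
  rw [mul_sub]
  simp [phi]

theorem incl_tmul (c : A) (v : ↥(C.B false false)) :
    C.incl.baseChange A (c ⊗ₜ v) = c ⊗ₜ[ℂ] (v : F) := by
  simp [incl]

theorem phi_one (P : Pt A) (ξ6 : A) : C.phi P ξ6 (1 ⊗ₜ 1) = 1 - ξ6 := by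
  rw [phi_tmul]
  have : C.ιB 1 = 1 := by ext; simp [ιB]
  rw [this]; simp

end Cfg

end

end Pool.Agent.EllMod
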