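import Pool.Agent.MP_77976d_ag.T1Pt

/-! # T1 : the seven parameter family (definitions) -/

open scoped TensorProduct
open IsLocalRing

namespace Pool.Agent.EllMod

noncomputable section

variable {F : Type} [Field F] [Algebra ℂ F] (C : Cfg F) (A : Type) [CommRing A] [Algebra ℂ A]

namespace Cfg

/-- `ι` on `A ⊗ F` -/
def ιA : (A ⊗[ℂ] F) →ₗ[A] (A ⊗[ℂ] F) := C.ι.toLinearMap.baseChange A

variable {A}

/-- The operator `Ξ = ξ₀ s/t + ξ₁ s/t² + ξ₂ (1/t) ι`. -/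
def Xi (ξ : Fin 7 → A) : (A ⊗[ℂ] F) →ₗ[A] (A ⊗[ℂ] F) :=
  LinearMap.mulLeft A (ξ 0 ⊗ₜ (C.s * C.t⁻¹) + ξ 1 ⊗ₜ (C.s * C.t⁻¹ ^ 2)) +
    (LinearMap.mulLeft A (ξ 2 ⊗ₜ C.t⁻¹)) ∘ₗ C.ιA A

/-- The operator `(1 + ξ₃ Y/x)^b (1 + Ξ)^a`. -/
def Uop (ξ : Fin 7 → A) (a b : Bool) : (A ⊗[ℂ] F) →ₗ[A] (A ⊗[ℂ] F) :=
  (if b then LinearMap.mulLeft A (1 + ξ 3 ⊗ₜ (C.Y * C.x⁻¹)) else LinearMap.id) ∘ₗ
    (if a then LinearMap.id + C.Xi ξ else LinearMap.id)

/-- The inclusion `B₀₀ → F`. -/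
def incl : ↥(C.B false false) →ₗ[ℂ] F := (C.B false false).val.toLinearMap

/-- `ι` on `B₀₀`. -/
def ιB : ↥(C.B false false) →ₗ[ℂ] ↥(C.B false false) where
  toFun v := ⟨C.ι v, C.ι_B false false v v.2⟩
  map_add' v w := by ext; simp
  map_smul' c v := by ext; simp

/-- The functional `v ↦ v(y_A) - ξ₆ v(ι y_A)` on `A ⊗ B₀₀`. -/
def phi (P : Pt A) (ξ6 : A) : (A ⊗[ℂ] ↥(C.B false false)) →ₗ[A] A :=
  LinearMap.liftBaseChange A
    ((C.lift P).toLinearMap - (LinearMap.mulLeft ℂ ξ6) ∘ₗ (C.lift P).toLinearMap ∘ₗ C.ιB)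

/-- The chart `(0, 0)` of the family. -/
def T100 (P : Pt A) (ξ6 : A) : Submodule A (A ⊗[ℂ] F) :=
  (LinearMap.ker (C.phi P ξ6)).map (C.incl.baseChange A)

/-- The seven parameter family; `P` is the point `y_A`. -/
def T1' (ξ : Fin 7 → A) (P : Pt A) : RawFam A F
  | false, false => C.T100 P (ξ 6)
  | true, false => ((C.V true false).baseChange A).map (C.Uop ξ true false)
  | false, true => ((C.V false true).baseChange A).map (C.Uop ξ false true)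
  | true, true => ((C.V true true).baseChange A).map (C.Uop ξ true true)

/-- The seven parameter family. -/
def T1 [Module.Finite ℂ A] [IsLocalRing A] (ξ : Fin 7 → A) (h : ∀ k, ξ k ∈ maximalIdeal A) :
    RawFam A F := C.T1' ξ (ptA (ξ 4) (ξ 5) (h 4) (h 5))

end Cfg

end

end Pool.Agent.EllMod
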