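import Pool.Agent.MP_77976d_ag.Ic

/-! # T1PT : the points `y_A` -/

open scoped TensorProduct
open IsLocalRing

namespace Pool.Agent.EllMod

noncomputable section

variable {A : Type} [CommRing A] [Algebra ℂ A]

theorem t1pt_nil [Module.Finite ℂ A] [IsLocalRing A] {a : A} (h : a ∈ maximalIdeal A) :
    IsNilpotent a := by
  have : IsArtinianRing A := IsArtinianRing.of_finite ℂ A
  exact Ring.KrullDimLE.isNilpotent_iff_mem_maximalIdeal.2 h

omit [Algebra ℂ A] in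
theorem t1pt_mem [IsLocalRing A] {a : A} (h : IsNilpotent a) :
    a ∈ maximalIdeal A := by
  rw [mem_maximalIdeal, mem_nonunits_iff]
  exact fun hu => hu.not_isNilpotent h

theorem t1pt_two : IsUnit (2 : A) := by
  have : (2 : A) = algebraMap ℂ A 2 := (map_ofNat (algebraMap ℂ A) 2).symm
  rw [this]
  exact (IsUnit.mk0 (2 : ℂ) (by norm_num)).map _

/-- Square roots. -/
theorem t1pt_sqrt [Module.Finite ℂ A] [IsLocalRing A] (c : A) (z : ℂ) (hz : z ≠ 0)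
    (h : c - algebraMap ℂ A (z ^ 2) ∈ maximalIdeal A) :
    ∃ r : A, r ^ 2 = c ∧ r - algebraMap ℂ A z ∈ maximalIdeal A := by
  have h1 : IsNilpotent (Polynomial.aeval (algebraMap ℂ A z)
      (Polynomial.X ^ 2 - Polynomial.C c : Polynomial A)) := by
    have e : Polynomial.aeval (algebraMap ℂ A z)
      (Polynomial.X ^ 2 - Polynomial.C c : Polynomial A) = -(c - algebraMap ℂ A (z ^ 2)) := by
      simp
    rw [e]
    exact (t1pt_nil h).neg
  have h2 : IsUnit (Polynomial.aeval (algebraMap ℂ A z)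
      (Polynomial.derivative (Polynomial.X ^ 2 - Polynomial.C c : Polynomial A))) := by
    have e : Polynomial.aeval (algebraMap ℂ A z)
      (Polynomial.derivative (Polynomial.X ^ 2 - Polynomial.C c : Polynomial A)) =
        2 * algebraMap ℂ A z := by
      simp only [Polynomial.derivative_X_pow, Polynomial.derivative_C,
        map_sub, map_mul, Polynomial.aeval_X, map_natCast, map_pow]
      simp
    rw [e]
    exact t1pt_two.mul ((IsUnit.mk0 z hz).map _)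
  obtain ⟨r, ⟨hr1, hr2⟩, -⟩ := Polynomial.existsUnique_nilpotent_sub_and_aeval_eq_zero h1 h2
  refine ⟨r, ?_, ?_⟩
  · have : r ^ 2 - c = 0 := by simpa using hr2
    exact sub_eq_zero.1 this
  · have := neg_mem (t1pt_mem hr1)
    rwa [neg_sub] at this

theorem exists_ptA [Module.Finite ℂ A] [IsLocalRing A] (τ χ : A) (hτ : τ ∈ maximalIdeal A)
    (hχ : χ ∈ maximalIdeal A) : ∃ P : Pt A, P.τ = τ ∧ P.χ = χ ∧ P.σ - 1 ∈ maximalIdeal A ∧
      P.π - 1 ∈ maximalIdeal A ∧ P.ρ - algebraMap ℂ A Complex.I ∈ maximalIdeal A := by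
  obtain ⟨σ, hσ, hσ'⟩ := t1pt_sqrt (A := A)
    (τ ^ 6 - 2 * τ ^ 5 + τ ^ 4 + 2 * τ ^ 3 + 2 * τ ^ 2 + 1) 1 one_ne_zero (by
      have e : τ ^ 6 - 2 * τ ^ 5 + τ ^ 4 + 2 * τ ^ 3 + 2 * τ ^ 2 + 1 - algebraMap ℂ A (1 ^ 2) =
        (τ ^ 5 - 2 * τ ^ 4 + τ ^ 3 + 2 * τ ^ 2 + 2 * τ) * τ := by simp; ring
      rw [e]
      exact Ideal.mul_mem_left _ _ hτ)
  obtain ⟨π, hπ, hπ'⟩ := t1pt_sqrt (A := A) (χ ^ 2 + 1) 1 one_ne_zero (by
      have e : χ ^ 2 + 1 - algebraMap ℂ A (1 ^ 2) = χ * χ := by simp; ring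
      rw [e]
      exact Ideal.mul_mem_left _ _ hχ)
  obtain ⟨ρ, hρ, hρ'⟩ := t1pt_sqrt (A := A) (χ ^ 2 - 1) Complex.I Complex.I_ne_zero (by
      have e : χ ^ 2 - 1 - algebraMap ℂ A (Complex.I ^ 2) = χ * χ := by simp; ring
      rw [e]
      exact Ideal.mul_mem_left _ _ hχ)
  rw [map_one] at hσ' hπ'
  exact ⟨⟨τ, χ, σ, π, ρ, hσ, hπ, hρ⟩, rfl, rfl, hσ', hπ', hρ'⟩

theorem t1pt_eq [IsLocalRing A] (z : ℂ) (hz : z ≠ 0) (a b : A) (h : a ^ 2 = b ^ 2)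
    (h1 : a - b ∈ maximalIdeal A) (h2 : a - algebraMap ℂ A z ∈ maximalIdeal A) : a = b := by
  have hu : IsUnit (a + b) := by
    by_contra hc
    have h3 : a + b ∈ maximalIdeal A := (mem_maximalIdeal _).2 hc
    have h4 : 2 * algebraMap ℂ A z ∈ maximalIdeal A := by
      have : 2 * algebraMap ℂ A z = (a + b) + (a - b) - 2 * (a - algebraMap ℂ A z) := by ring
      rw [this]
      exact sub_mem (add_mem h3 h1) (Ideal.mul_mem_left _ _ h2)
    exact (mem_maximalIdeal _).1 h4 (t1pt_two.mul ((IsUnit.mk0 z hz).map _))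
  have h5 : (a + b) * (a - b) = 0 := by ring_nf; rw [h]; ring
  exact sub_eq_zero.1 (hu.mul_right_eq_zero.1 h5)

theorem ptA_unique [Module.Finite ℂ A] [IsLocalRing A] (P P' : Pt A) (hτ : P.τ = P'.τ)
    (hχ : P.χ = P'.χ) (h1 : P.σ - P'.σ ∈ maximalIdeal A) (h2 : P.π - P'.π ∈ maximalIdeal A)
    (h3 : P.ρ - P'.ρ ∈ maximalIdeal A) (h4 : P.σ - 1 ∈ maximalIdeal A)
    (h5 : P.π - 1 ∈ maximalIdeal A) (h6 : P.ρ - algebraMap ℂ A Complex.I ∈ maximalIdeal A) :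
    P = P' := by
  have e1 : P.σ = P'.σ := t1pt_eq 1 one_ne_zero _ _ (by rw [P.hσ, P'.hσ, hτ]) h1
    (by rwa [map_one])
  have e2 : P.π = P'.π := t1pt_eq 1 one_ne_zero _ _ (by rw [P.hπ, P'.hπ, hχ]) h2
    (by rwa [map_one])
  have e3 : P.ρ = P'.ρ := t1pt_eq Complex.I Complex.I_ne_zero _ _ (by rw [P.hρ, P'.hρ, hχ]) h3 h6
  cases P
  cases P'
  simp only at hτ hχ e1 e2 e3
  subst hτ hχ e1 e2 e3
  rfl

/-- The `A`-valued point near `y₀` with `t = τ`, `x = χ`. -/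
def ptA [Module.Finite ℂ A] [IsLocalRing A] (τ χ : A) (hτ : τ ∈ maximalIdeal A)
    (hχ : χ ∈ maximalIdeal A) : Pt A := Classical.choose (exists_ptA τ χ hτ hχ)

theorem ptA_spec [Module.Finite ℂ A] [IsLocalRing A] (τ χ : A) (hτ : τ ∈ maximalIdeal A)
    (hχ : χ ∈ maximalIdeal A) : (ptA τ χ hτ hχ).τ = τ ∧ (ptA τ χ hτ hχ).χ = χ ∧
      (ptA τ χ hτ hχ).σ - 1 ∈ maximalIdeal A ∧ (ptA τ χ hτ hχ).π - 1 ∈ maximalIdeal A ∧
      (ptA τ χ hτ hχ).ρ - algebraMap ℂ A Complex.I ∈ maximalIdeal A :=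
  Classical.choose_spec (exists_ptA τ χ hτ hχ)

end

end Pool.Agent.EllMod
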