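import Pool.Agent.MP_77976d_ag.Coh
import Pool.Agent.MP_77976d_ag.Tn

/-! # TH7 : the first order deformation `th 7` on the chart `(0, 0)` -/

open scoped TensorProduct
open IsLocalRing

namespace Pool.Agent.EllMod

noncomputable section

variable {F : Type} [Field F] [Algebra ℂ F] (C : Cfg F)

/-- linear choice of the coefficients in `Ψ v = t a + x b` -/
theorem Th7_lin (P E : Submodule ℂ F) (Ψ : F →ₗ[ℂ] F) (t x : F)
    (h : ∀ v ∈ E, ∃ a ∈ P, ∃ b ∈ P, Ψ v = t * a + x * b) :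
    ∃ A B : F →ₗ[ℂ] F, ∀ v ∈ E, A v ∈ P ∧ B v ∈ P ∧ Ψ v = t * A v + x * B v := by
  set Φ : (P × P) →ₗ[ℂ] F :=
    (LinearMap.mulLeft ℂ t) ∘ₗ P.subtype ∘ₗ LinearMap.fst ℂ P P +
    (LinearMap.mulLeft ℂ x) ∘ₗ P.subtype ∘ₗ LinearMap.snd ℂ P P with hΦ
  have hΦ' : ∀ z : P × P, Φ z = t * z.1 + x * z.2 := fun z => rfl
  obtain ⟨σ, hσ⟩ := LinearMap.exists_rightInverse_of_surjective Φ.rangeRestrict
    (LinearMap.range_rangeRestrict Φ)
  have hσ' : ∀ y : LinearMap.range Φ, Φ (σ y) = y := fun y => by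
    have := congrArg (fun f => ((f y : LinearMap.range Φ) : F)) hσ
    exact this
  set ψ : E →ₗ[ℂ] LinearMap.range Φ := LinearMap.codRestrict (LinearMap.range Φ) (Ψ ∘ₗ E.subtype) (by
    rintro ⟨v, hv⟩
    obtain ⟨a, ha, b, hb, hab⟩ := h v hv
    exact ⟨(⟨a, ha⟩, ⟨b, hb⟩), by rw [hΦ']; exact hab.symm⟩) with hψ
  obtain ⟨A, hA⟩ := LinearMap.exists_extend (p := E) (P.subtype ∘ₗ LinearMap.fst ℂ P P ∘ₗ σ ∘ₗ ψ)
  obtain ⟨B, hB⟩ := LinearMap.exists_extend (p := E) (P.subtype ∘ₗ LinearMap.snd ℂ P P ∘ₗ σ ∘ₗ ψ)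
  refine ⟨A, B, fun v hv => ?_⟩
  have hA' : A v = ((σ (ψ ⟨v, hv⟩)).1 : F) := congrArg (fun f => f ⟨v, hv⟩) hA
  have hB' : B v = ((σ (ψ ⟨v, hv⟩)).2 : F) := congrArg (fun f => f ⟨v, hv⟩) hB
  refine ⟨by rw [hA']; exact (σ (ψ ⟨v, hv⟩)).1.2, by rw [hB']; exact (σ (ψ ⟨v, hv⟩)).2.2, ?_⟩
  rw [hA', hB', ← hΦ', hσ']
  rfl

namespace Cfg

theorem Th7_ev_one (y : Bool × Bool × Bool) : C.ev y 1 = 1 := by
  rw [C.ev_eq y 1 (one_mem _)]
  exact map_one _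

theorem Th7_t_ne : C.t ≠ 0 := by
  intro h
  have h1 := C.indep.ne_zero 0
  simp at h1
  exact h1 h

theorem Th7_x_ne : C.x ≠ 0 := by
  intro h
  have h1 := C.indep.ne_zero 1
  simp at h1
  exact h1 h

/-- the class of `th 7` -/
def Th7u : F := ((C.t - 1) * ((1 - C.t ^ 2 + C.t ^ 3) + C.s) + 2) * (1 - C.p) * (1 + i * C.q) *
  algebraMap ℂ F (1 / 4)

/-- the class of `th 7` as an element of the coordinate ring -/
def Th7uB : ↥(C.B false false) :=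
  ((⟨C.t, C.t_mem⟩ - 1) * ((1 - ⟨C.t, C.t_mem⟩ ^ 2 + ⟨C.t, C.t_mem⟩ ^ 3) + ⟨C.s, C.s_mem⟩) + 2) *
    (1 - ⟨C.p, C.p_mem⟩) * (1 + algebraMap ℂ _ Complex.I * ⟨C.q, C.q_mem⟩) *
  algebraMap ℂ _ (1 / 4)

theorem Th7uB_val : (C.Th7uB : F) = C.Th7u := rfl

theorem Th7u_mem : C.Th7u ∈ C.B false false := by
  rw [← C.Th7uB_val]
  exact C.Th7uB.2

theorem Th7u_ev (y : Bool × Bool × Bool) : C.ev y C.Th7u =
    ((0 - 1) * ((1 - 0 ^ 2 + 0 ^ 3) + sg y.1) + 2) * (1 - sg y.2.1) *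
      (1 + Complex.I * (sg y.2.2 * Complex.I)) * (1 / 4) := by
  rw [C.ev_eq y _ C.Th7u_mem]
  change C.lift (pt y) C.Th7uB = _
  unfold Th7uB
  simp only [map_mul, map_add, map_sub, map_one, map_pow, lift_t, lift_s, lift_p, lift_q,
    AlgHom.commutes, map_ofNat]
  simp [pt]

theorem Th7u_ev0' : C.ev y0' C.Th7u = 2 := by
  rw [C.Th7u_ev]
  have h : Complex.I * Complex.I = -1 := Complex.I_mul_I
  simp [sg, h]
  norm_num

theorem Th7u_ev_ne (y : Bool × Bool × Bool) (hy : y ≠ y0') : C.ev y C.Th7u = 0 := by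
  rw [C.Th7u_ev]
  have h : Complex.I * Complex.I = -1 := Complex.I_mul_I
  rcases y with ⟨a, b, c⟩
  cases a <;> cases b <;> cases c <;> simp [sg, h] at hy ⊢
  norm_num

theorem Th7_class : (-(i / 4) * C.G0 * C.Y * C.x⁻¹) -
    (-(1 / 4) * C.G0 * (1 - C.p + i * C.q) * C.x⁻¹) = C.Th7u * (C.t⁻¹ * C.x⁻¹) := by
  have h4 : algebraMap ℂ F (1 / 4) = 1 / 4 := by
    rw [map_div₀, map_one, map_ofNat]
  unfold Th7u G0 Y
  rw [h4]
  ring

theorem exists_th7 : ∃ θ : F →ₗ[ℂ] F,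
    (∀ v ∈ C.E00, θ v - C.h10 v ∈ C.BT false) ∧ (∀ v ∈ C.E00, θ v - C.h01 v ∈ C.BX) ∧
    ∀ r ∈ C.B false false, C.ι r = r → ∀ v ∈ C.E00, θ (r * v) - r * θ v ∈ C.E00 := by
  have ht := C.Th7_t_ne
  have hx := C.Th7_x_ne
  obtain ⟨e', he', he'y⟩ := C.ev_surj (fun y => if y = y0' then 1 else 0)
  have hu := C.Th7u_mem
  have h1e : (1 : F) - e' ∈ C.B false false := sub_mem (one_mem _) he'
  obtain ⟨c1, hc1, c2, hc2, hc⟩ := C.mem_tx (C.Th7u * (1 - e')) (mul_mem hu h1e) (by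
    intro y
    rw [C.ev_mul y _ _ hu h1e, map_sub, C.Th7_ev_one, he'y]
    by_cases hy : y = y0'
    · simp [hy]
    · rw [C.Th7u_ev_ne y hy, zero_mul])
  have hE : ∀ v ∈ C.E00, v ∈ C.B false false ∧ C.ev y0 v = 0 := fun v hv => ⟨hv.1, hv.2⟩
  obtain ⟨A, B, hAB⟩ := Th7_lin (sm (C.B false false)) C.E00
    ((LinearMap.mulLeft ℂ e') ∘ₗ C.ι.toLinearMap) C.t C.x (by
      intro v hv
      obtain ⟨hv1, hv2⟩ := hE v hv
      obtain ⟨a, ha, b, hb, hab⟩ := C.mem_tx (e' * C.ι v) (mul_mem he' (C.ι_B false false v hv1)) (by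
        intro y
        rw [C.ev_mul y _ _ he' (C.ι_B false false v hv1), he'y]
        by_cases hy : y = y0'
        · rw [if_pos hy, hy, one_mul, C.ev_ι _ v hv1]
          exact hv2
        · rw [if_neg hy, zero_mul])
      exact ⟨a, ha, b, hb, hab⟩)
  have hAB' : ∀ v ∈ C.E00, A v ∈ C.B false false ∧ B v ∈ C.B false false ∧
      e' * C.ι v = C.t * A v + C.x * B v := fun v hv => hAB v hv
  -- the difference of `h10` and `h01`
  have hη : ∀ v, C.h10 v - C.h01 v = C.Th7u * (C.t⁻¹ * C.x⁻¹) * C.ι v := by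
    intro v
    rw [← C.Th7_class]
    unfold h10 h01
    rw [op_apply, op_apply]
    ring
  have hrel : ∀ v ∈ C.E00, C.h10 v - C.t⁻¹ * (C.Th7u * B v + c2 * C.ι v) =
      C.h01 v + C.x⁻¹ * (C.Th7u * A v + c1 * C.ι v) := by
    intro v hv
    obtain ⟨-, -, h3⟩ := hAB' v hv
    have h4 := hη v
    have h5 : C.Th7u * C.ι v = C.t * (C.Th7u * A v + c1 * C.ι v) +
        C.x * (C.Th7u * B v + c2 * C.ι v) := by
      linear_combination C.Th7u * h3 + C.ι v * hc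
    have h6 : C.Th7u * (C.t⁻¹ * C.x⁻¹) * C.ι v = C.x⁻¹ * (C.Th7u * A v + c1 * C.ι v) +
        C.t⁻¹ * (C.Th7u * B v + c2 * C.ι v) := by
      have h7 : C.Th7u * (C.t⁻¹ * C.x⁻¹) * C.ι v = (C.t⁻¹ * C.x⁻¹) * (C.Th7u * C.ι v) := by ring
      rw [h7, h5]
      field_simp
    linear_combination h4 + h6
  have hBT : C.B false false ≤ C.BT false := sup_le_sup (C.OC_le_OCs false) le_rfl
  have hBX : C.B false false ≤ C.BX := sup_le_sup le_rfl (C.OF_le_OFs false)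
  have htinv : C.t⁻¹ ∈ C.BT false :=
    (le_sup_left : C.OCs ≤ _) (Algebra.subset_adjoin (by simp))
  have hxinv : C.x⁻¹ ∈ C.BX :=
    (le_sup_right : C.OFs ≤ _) (Algebra.subset_adjoin (by simp))
  refine ⟨C.h10 - (LinearMap.mulLeft ℂ (C.t⁻¹ * C.Th7u)) ∘ₗ B -
    (LinearMap.mulLeft ℂ (C.t⁻¹ * c2)) ∘ₗ C.ι.toLinearMap, ?_, ?_, ?_⟩
  · intro v hv
    obtain ⟨h1, h2, h3⟩ := hAB' v hv
    have h4 : (C.h10 - (LinearMap.mulLeft ℂ (C.t⁻¹ * C.Th7u)) ∘ₗ B -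
        (LinearMap.mulLeft ℂ (C.t⁻¹ * c2)) ∘ₗ C.ι.toLinearMap) v - C.h10 v =
        -(C.t⁻¹ * (C.Th7u * B v + c2 * C.ι v)) := by
      change C.h10 v - (C.t⁻¹ * C.Th7u) * B v - (C.t⁻¹ * c2) * C.ι v - C.h10 v = _
      ring
    rw [h4]
    refine neg_mem (mul_mem htinv (hBT ?_))
    exact add_mem (mul_mem hu h2) (mul_mem hc2 (C.ι_B false false v (hE v hv).1))
  · intro v hv
    obtain ⟨h1, h2, h3⟩ := hAB' v hv
    have h4 : (C.h10 - (LinearMap.mulLeft ℂ (C.t⁻¹ * C.Th7u)) ∘ₗ B -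
        (LinearMap.mulLeft ℂ (C.t⁻¹ * c2)) ∘ₗ C.ι.toLinearMap) v - C.h01 v =
        C.x⁻¹ * (C.Th7u * A v + c1 * C.ι v) := by
      change C.h10 v - (C.t⁻¹ * C.Th7u) * B v - (C.t⁻¹ * c2) * C.ι v - C.h01 v = _
      linear_combination hrel v hv
    rw [h4]
    refine mul_mem hxinv (hBX ?_)
    exact add_mem (mul_mem hu h1) (mul_mem hc1 (C.ι_B false false v (hE v hv).1))
  · intro r hr hιr v hv
    have hrv : r * v ∈ C.E00 := by
      have h0 : r * v ∈ C.B false false := mul_mem hr (hE v hv).1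
      refine ⟨h0, ?_⟩
      change C.ev y0 (r * v) = 0
      rw [C.ev_mul y0 _ _ hr (hE v hv).1, (hE v hv).2, mul_zero]
    obtain ⟨h1, h2, h3⟩ := hAB' v hv
    obtain ⟨h1', h2', h3'⟩ := hAB' (r * v) hrv
    obtain ⟨c, hcB, hca, hcb⟩ := C.koszul (A (r * v) - r * A v) (B (r * v) - r * B v)
      (sub_mem h1' (mul_mem hr h1)) (sub_mem h2' (mul_mem hr h2)) (by
        rw [map_mul, hιr] at h3'
        linear_combination r * h3 - h3')
    have h4 : (C.h10 - (LinearMap.mulLeft ℂ (C.t⁻¹ * C.Th7u)) ∘ₗ B -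
        (LinearMap.mulLeft ℂ (C.t⁻¹ * c2)) ∘ₗ C.ι.toLinearMap) (r * v) -
        r * (C.h10 - (LinearMap.mulLeft ℂ (C.t⁻¹ * C.Th7u)) ∘ₗ B -
        (LinearMap.mulLeft ℂ (C.t⁻¹ * c2)) ∘ₗ C.ι.toLinearMap) v = C.Th7u * c := by
      change C.h10 (r * v) - (C.t⁻¹ * C.Th7u) * B (r * v) - (C.t⁻¹ * c2) * C.ι (r * v) -
        r * (C.h10 v - (C.t⁻¹ * C.Th7u) * B v - (C.t⁻¹ * c2) * C.ι v) = _
      have h5 : C.h10 (r * v) = r * C.h10 v := by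
        unfold h10
        rw [op_apply, op_apply, map_mul, hιr]
        ring
      have h6 : B (r * v) = r * B v - C.t * c := by linear_combination hcb
      rw [h5, h6, map_mul, hιr]
      have h7 : C.t⁻¹ * C.t = 1 := inv_mul_cancel₀ ht
      linear_combination C.Th7u * c * h7
    rw [h4]
    have h0 : C.Th7u * c ∈ C.B false false := mul_mem hu hcB
    refine ⟨h0, ?_⟩
    change C.ev y0 (C.Th7u * c) = 0
    rw [C.ev_mul y0 _ _ hu hcB, C.Th7u_ev_ne y0 (by decide), zero_mul]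

/-- The class of `th 7`. -/
theorem class_th7 : ∃ b' ∈ C.B false false, C.ev y0' b' = 2 ∧
    (-(i / 4) * C.G0 * C.Y * C.x⁻¹) - (-(1 / 4) * C.G0 * (1 - C.p + i * C.q) * C.x⁻¹) =
      b' * (C.t⁻¹ * C.x⁻¹) :=
  ⟨C.Th7u, C.Th7u_mem, C.Th7u_ev0', C.Th7_class⟩

end Cfg

end

end Pool.Agent.EllMod
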